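import Pool.Agent.Lib.CLF.ADefs

/-! Blueprint of the analytic half. -/

open MeasureTheory Filter Topology Set Function
open scoped ContDiff ENNReal ComplexConjugate

noncomputable section

namespace Pool.Agent.Lib.CLF

/-! ### Basic kit -/

/-- Flat Wirtinger calculus. -/
structure St_WIR : Prop where
  add : ∀ b {f g : B2 → ℂ} {z}, DifferentiableAt ℝ f z → DifferentiableAt ℝ g z →
    wd b (fun w => f w + g w) z = wd b f z + wd b g z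
  mul : ∀ b {f g : B2 → ℂ} {z}, DifferentiableAt ℝ f z → DifferentiableAt ℝ g z →
    wd b (fun w => f w * g w) z = wd b f z * g z + f z * wd b g z
  star : ∀ b (f : B2 → ℂ) z, wb b f z = conj (wd b (fun w => conj (f w)) z)
  cst : ∀ b (c : ℂ) z, wd b (fun _ => c) z = 0
  congr : ∀ b {f g : B2 → ℂ} {z}, f =ᶠ[𝓝 z] g → wd b f z = wd b g z ∧ wb b f z = wb b g z
  sm : ∀ b {f : B2 → ℂ} {z}, ContDiffAt ℝ ∞ f z →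
    ContDiffAt ℝ ∞ (wd b f) z ∧ ContDiffAt ℝ ∞ (wb b f) z
  comm : ∀ b b' {f : B2 → ℂ} {z}, ContDiffAt ℝ ∞ f z →
    wd b (wd b' f) z = wd b' (wd b f) z ∧ wd b (wb b' f) z = wb b' (wd b f) z
  hol : ∀ b {f : B2 → ℂ} {z}, DifferentiableAt ℂ f z →
    wb b f z = 0 ∧ wd b f z = fderiv ℂ f z (ev b)
  oth : ∀ b (h : ℂ → ℂ) z, wd b (fun w => h (ot b w)) z = 0 ∧ wb b (fun w => h (ot b w)) z = 0
  fd : ∀ (f : B2 → ℂ) z (v : B2), fderiv ℝ f z v = v.1 * wd true f z + conj v.1 * wb true f z +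
    v.2 * wd false f z + conj v.2 * wb false f z
  le : ∀ b (f : B2 → ℂ) z, ‖wd b f z‖ ≤ ‖fderiv ℝ f z‖ ∧ ‖wb b f z‖ ≤ ‖fderiv ℝ f z‖
  comp : ∀ b {G : ℝ → ℝ} {f : B2 → ℝ} {z}, DifferentiableAt ℝ (cx f) z →
    DifferentiableAt ℝ G (f z) → wd b (cx fun w => G (f w)) z = deriv G (f z) * wd b (cx f) z
  compH : ∀ b {θ : ℂ → ℝ} {f : B2 → ℂ} {z}, DifferentiableAt ℂ f z → DifferentiableAt ℝ θ (f z) →
    ‖wd b (cx fun w => θ (f w)) z‖ ≤ ‖fderiv ℝ θ (f z)‖ * ‖wd b f z‖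
  ibp : ∀ b {f : B2 → ℂ}, ContDiff ℝ 1 f → HasCompactSupport f → ∫ z, wd b f z = 0

/-- Local sections. -/
structure St_BR : Prop where
  isBr : ∀ (C : Cv) {p}, p ∈ C.S → C.IsBr p (C.br p)
  uniq : ∀ (C : Cv) {p b}, p ∈ C.S → C.IsBr p b → b =ᶠ[𝓝 p.1] C.br p
  ev_dn : ∀ (C : Cv) {p}, p ∈ C.S → ∀ᶠ w in 𝓝 p.1, (w, C.br p w) ∈ C.S ∧
    ∀ F, C.dn F (w, C.br p w) =ᶠ[𝓝 w] C.dn F p
  self : ∀ (C : Cv) {p} F, p ∈ C.S → C.dn F p p.1 = F p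
  near : ∀ (C : Cv) {p}, p ∈ C.S → ∀ᶠ q in 𝓝[C.S] p, q.2 = C.br p q.1
  meas : ∀ C : Cv, MeasurableSet C.S
  cont : ∀ (C : Cv) {F}, C.Sm F → ContinuousOn F C.S
  cpt : ∀ (C : Cv) {K}, IsCompact K → K ⊆ C.Ω → IsCompact (C.S ∩ Prod.fst ⁻¹' K)
  triv : ∀ (C : Cv) {z}, z ∈ C.Ω → ∃ (ε : ℝ) (b : Fin C.β → B2 → ℂ), 0 < ε ∧
    Metric.ball z ε ⊆ C.Ω ∧ ∀ w ∈ Metric.ball z ε, (Injective fun k => b k w) ∧
      (range fun k => b k w) = (range fun k => C.r k w) ∧ ∀ k, C.IsBr (w, b k w) (b k)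

/-- Calculus on the cover. -/
structure St_CAL : Prop where
  congr : ∀ (C : Cv) b {F G}, EqOn F G C.S → EqOn (C.D b F) (C.D b G) C.S ∧
    EqOn (C.Db b F) (C.Db b G) C.S ∧ (C.Sm F → C.Sm G) ∧ ∀ U, C.Tst U F → C.Tst U G
  base : ∀ (C : Cv) b (h : B2 → ℂ) p, C.D b (fun q => h q.1) p = wd b h p.1 ∧
    C.Db b (fun q => h q.1) p = wb b h p.1
  smb : ∀ (C : Cv) {h : B2 → ℂ}, ContDiff ℝ ∞ h → C.Sm fun q => h q.1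
  add : ∀ (C : Cv) {F G}, C.Sm F → C.Sm G → C.Sm (fun p => F p + G p) ∧ ∀ b, ∀ p ∈ C.S,
    C.D b (fun p => F p + G p) p = C.D b F p + C.D b G p ∧
    C.Db b (fun p => F p + G p) p = C.Db b F p + C.Db b G p
  mul : ∀ (C : Cv) {F G}, C.Sm F → C.Sm G → C.Sm (fun p => F p * G p) ∧ ∀ b, ∀ p ∈ C.S,
    C.D b (fun p => F p * G p) p = C.D b F p * G p + F p * C.D b G p ∧
    C.Db b (fun p => F p * G p) p = C.Db b F p * G p + F p * C.Db b G p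
  star : ∀ (C : Cv) F, (C.Sm F → C.Sm fun p => conj (F p)) ∧ ∀ b p,
    C.D b (fun p => conj (F p)) p = conj (C.Db b F p) ∧
    C.Db b (fun p => conj (F p)) p = conj (C.D b F p)
  real : ∀ (C : Cv) b (f : Am → ℝ) p, C.Db b (cx f) p = conj (C.D b (cx f) p)
  smD : ∀ (C : Cv) b {F}, C.Sm F → C.Sm (C.D b F) ∧ C.Sm (C.Db b F)
  comm : ∀ (C : Cv) b b' {F}, C.Sm F → ∀ p ∈ C.S, C.D b (C.D b' F) p = C.D b' (C.D b F) p ∧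
    C.D b (C.Db b' F) p = C.Db b' (C.D b F) p
  hol : ∀ (C : Cv) {F}, C.Hol F → C.Sm F ∧ ∀ b, ∀ p ∈ C.S, C.Db b F p = 0
  comp : ∀ (C : Cv) {G : ℝ → ℝ} {f : Am → ℝ}, ContDiff ℝ ∞ G → C.Sm (cx f) →
    C.Sm (cx fun p => G (f p)) ∧ ∀ b, ∀ p ∈ C.S,
      C.D b (cx fun p => G (f p)) p = deriv G (f p) * C.D b (cx f) p
  tmul : ∀ (C : Cv) {U F G}, C.Sm F → C.Tst U G → C.Tst U fun p => F p * G p
  tadd : ∀ (C : Cv) {U F G}, C.Tst U F → C.Tst U G → C.Tst U fun p => F p + G p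
  tsum : ∀ (C : Cv) {U} {ι : Type} (s : Finset ι) {F : ι → Am → ℂ}, (∀ i ∈ s, C.Tst U (F i)) →
    C.Tst U (fun p => ∑ i ∈ s, F i p) ∧ ∀ b, ∀ p ∈ C.S,
      C.D b (fun p => ∑ i ∈ s, F i p) p = ∑ i ∈ s, C.D b (F i) p
  tD : ∀ (C : Cv) b {U F}, C.Tst U F → C.Tst U (C.D b F) ∧ C.Tst U (C.Db b F)
  tstar : ∀ (C : Cv) {U F}, C.Tst U F → C.Tst U (fun p => conj (F p)) ∧
    C.Tst U (cx fun p => (F p).re) ∧ C.Tst U (cx fun p => (F p).im)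
  tbump : ∀ (C : Cv) {U F} {h : B2 → ℂ}, Bump (C.Ω ∩ U) h → C.Sm F → C.Tst U fun p => h p.1 * F p
  tloc : ∀ (C : Cv) {U F} {θ : ℂ → ℂ}, Bump U θ → C.Tst univ F →
    C.Tst (Prod.fst ⁻¹' U) fun p => θ p.1.1 * F p

/-- Integration on the cover. -/
structure St_INT : Prop where
  ae : ∀ C : Cv, ∀ᵐ p ∂C.mu, p ∈ C.S
  sf : ∀ C : Cv, SigmaFinite C.mu
  lint : ∀ (C : Cv) {F : Am → ℝ≥0∞}, AEMeasurable F C.mu →
    ∫⁻ p, F p ∂C.mu = ∫⁻ z in C.Ω, ∑ k, F (z, C.r k z)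
  int : ∀ (C : Cv) {F : Am → ℂ}, Integrable F C.mu →
    ∫ p, F p ∂C.mu = ∫ z in C.Ω, ∑ k, F (z, C.r k z)
  loc : ∀ (C : Cv) {V : Set B2} {b : Fin C.β → B2 → ℂ}, MeasurableSet V → V ⊆ C.Ω →
    (∀ k, ContinuousOn (b k) V) → (∀ w ∈ V, (Injective fun k => b k w) ∧
      (range fun k => b k w) = range fun k => C.r k w) →
    C.mu.restrict (Prod.fst ⁻¹' V) = ∑ k, (volume.restrict V).map fun z => (z, b k z)
  map : ∀ C : Cv, C.mu.map Prod.fst = C.β • volume.restrict C.Ω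
  sm : ∀ (C : Cv) {F : Am → ℂ}, ContinuousOn F C.S → C.Loc F
  tst : ∀ (C : Cv) {U F}, C.Tst U F → (∃ M, ∀ p ∈ C.S, ‖F p‖ ≤ M) ∧ ∀ q, MemLp F q C.mu
  mul : ∀ (C : Cv) {U f g χ}, C.Loc f → C.Loc g → C.Tst U χ →
    Integrable (fun p => f p * χ p) C.mu ∧ Integrable (fun p => f p * g p * χ p) C.mu ∧
      MemLp (fun p => f p * χ p) 2 C.mu

/-- The weighted measures. -/
structure St_WM : Prop where
  pos : ∀ {l : ℝ}, 0 < l → (∀ z, 0 < rho l z ∧ rho l z ≤ l) ∧ ContDiff ℝ ∞ (rho l) ∧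
    ∫⁻ z, ENNReal.ofReal (rho l z) = ENNReal.ofReal (l * Real.pi)
  fin : ∀ (C : Cv) {l}, 0 < l → IsFiniteMeasure (C.mn l) ∧ (volume C.Ωᶜ = 0 →
    (C.mn l).real univ = C.β * (l * Real.pi) ^ 2) ∧ (C.mn l).real univ ≤ C.β * (l * Real.pi) ^ 2
  ac : ∀ (C : Cv) {l} b, 0 < l → C.mn l ≪ C.mu ∧ C.mu ≪ C.mn l ∧ C.mo l b ≪ C.mu ∧
    C.mu ≪ C.mo l b ∧ C.mn l ≤ ENNReal.ofReal l • C.mo l b ∧ SigmaFinite (C.mo l b)
  intn : ∀ (C : Cv) {l} (F : Am → ℂ), 0 < l →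
    (∫ p, F p ∂C.mn l = ∫ p, (rho l p.1.1 * rho l p.1.2 : ℝ) * F p ∂C.mu) ∧
    (Integrable F (C.mn l) ↔ Integrable (fun p => (rho l p.1.1 * rho l p.1.2 : ℝ) * F p) C.mu)
  into : ∀ (C : Cv) {l} b (F : Am → ℂ), 0 < l →
    (∫ p, F p ∂C.mo l b = ∫ p, rho l (ot b p.1) * F p ∂C.mu) ∧
    (Integrable F (C.mo l b) ↔ Integrable (fun p => rho l (ot b p.1) * F p) C.mu)
  loc : ∀ (C : Cv) {l} b {f : Am → ℂ}, 0 < l →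
    (MemLp f 2 (C.mn l) → C.Loc f) ∧ (MemLp f 2 (C.mo l b) → C.Loc f ∧ MemLp f 2 (C.mn l))
  tst : ∀ (C : Cv) {l} b {U F}, 0 < l → C.Tst U F → MemLp F 2 (C.mn l) ∧ MemLp F 2 (C.mo l b)
  le : ∀ (C : Cv) {l} b (f : Am → ℂ), 0 < l →
    eLpNorm f 2 (C.mn l) ≤ ENNReal.ofReal l * eLpNorm f 2 C.mu ∧
    eLpNorm f 2 (C.mo l b) ≤ ENNReal.ofReal √l * eLpNorm f 2 C.mu
  cpt : ∀ (C : Cv) {l} b {K : Set ℂ}, 0 < l → IsCompact K → ∃ M : ℝ≥0∞, M ≠ ⊤ ∧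
    (C.mo l b).restrict {p | co b p.1 ∈ K} ≤ M • C.mn l ∧
    C.mu.restrict {p | ot b p.1 ∈ K} ≤ M • C.mo l b

/-- Stokes for test functions. -/
def St_ST : Prop := ∀ (C : Cv) b U F, C.Tst U F →
  ∫ p, C.D b F p ∂C.mu = 0 ∧ ∫ p, C.Db b F p ∂C.mu = 0

/-! ### The spaces and the resolvent -/

/-- Linear structure, closedness, localisation. -/
structure St_MEM : Prop where
  tst : ∀ (C : Cv) {l} b {φ}, 0 < l → C.Tst univ (cx φ) → C.Mem l b φ (C.D b (cx φ))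
  lin : ∀ (C : Cv) {l b f f' g g'} (x y : ℝ), 0 < l → C.Mem l b f f' → C.Mem l b g g' →
    C.Mem l b (fun p => x * f p + y * g p) fun p => x * f' p + y * g' p
  congr : ∀ (C : Cv) {l b f f' g g'}, 0 < l → C.Mem l b f f' → f =ᵐ[C.mu] g → f' =ᵐ[C.mu] g' →
    C.Mem l b g g'
  closed : ∀ (C : Cv) {l b f f'} {g : ℕ → Am → ℝ} {g' : ℕ → Am → ℂ}, 0 < l →
    (∀ j, C.Mem l b (g j) (g' j)) → MemLp f 2 (C.mn l) → MemLp f' 2 (C.mo l b) →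
    Tendsto (fun j => eLpNorm (f - g j) 2 (C.mn l)) atTop (𝓝 0) →
    Tendsto (fun j => eLpNorm (f' - g' j) 2 (C.mo l b)) atTop (𝓝 0) → C.Mem l b f f'

/-- Density principle: a continuous identity passes from tests to the closure. -/
def St_DEN : Prop := ∀ (C : Cv) (l : ℝ) b (h h₁ h₂ : Am → ℂ), 0 < l → MemLp h 2 (C.mn l) →
  MemLp h₁ 2 (C.mo l b) → MemLp h₂ 2 (C.mo l b) →
  (∀ ψ : Am → ℝ, C.Tst univ (cx ψ) → ∫ p, h p * ψ p ∂C.mn l +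
    ∫ p, (h₁ p * C.D b (cx ψ) p + h₂ p * conj (C.D b (cx ψ) p)) ∂C.mo l b = 0) →
  ∀ ψ ψ', C.Mem l b ψ ψ' → ∫ p, h p * ψ p ∂C.mn l +
    ∫ p, (h₁ p * ψ' p + h₂ p * conj (ψ' p)) ∂C.mo l b = 0

/-- Members have weak derivatives, and the energy form is symmetric. -/
def St_MW : Prop := ∀ (C : Cv) (l : ℝ) b f f', 0 < l → C.Mem l b f f' →
  C.WD b univ (cx f) f' ∧ C.WB b univ (cx f) (fun p => conj (f' p)) ∧
  ∀ ψ : Am → ℝ, C.Tst univ (cx ψ) → (∫ p, f' p * conj (C.D b (cx ψ) p) ∂C.mo l b).im = 0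

/-- The equation of the resolvent in the sense of distributions. -/
def St_RC : Prop := ∀ (C : Cv) (l : ℝ) b g u u', 0 < l → C.Res l b g u u' →
  C.WB b univ u' (fun p => (rho l (co b p.1) * (u p - g p) : ℝ)) ∧
  C.WD b univ (fun p => conj (u' p)) fun p => (rho l (co b p.1) * (u p - g p) : ℝ)

/-- Existence of the resolvent. -/
def St_RES : Prop := ∀ (C : Cv) (l : ℝ) b (g : Am → ℝ), 0 < l → MemLp g 2 (C.mn l) →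
  ∃ u u', C.Res l b g u u'

/-- Formal properties of the resolvent. -/
structure St_RP : Prop where
  eq : ∀ (C : Cv) {l b g u u' ψ ψ'}, 0 < l → C.Res l b g u u' → C.Mem l b ψ ψ' →
    ∫ p, (u p - g p) * ψ p ∂C.mn l + ∫ p, (u' p * conj (ψ' p)).re ∂C.mo l b = 0
  lin : ∀ (C : Cv) {l b g u u' h v v'} (x y : ℝ), 0 < l → C.Res l b g u u' → C.Res l b h v v' →
    C.Res l b (fun p => x * g p + y * h p) (fun p => x * u p + y * v p)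
      fun p => x * u' p + y * v' p
  sa : ∀ (C : Cv) {l b g u u' h v v'}, 0 < l → C.Res l b g u u' → C.Res l b h v v' →
    ∫ p, u p * h p ∂C.mn l = ∫ p, g p * v p ∂C.mn l
  near : ∀ (C : Cv) {l b g g' u u'}, 0 < l → C.Res l b g u u' → C.Mem l b g g' →
    eLpNorm (u - g) 2 (C.mn l) ≤ eLpNorm g' 2 (C.mo l b)

/-- Chain rule. -/
def St_CH : Prop := ∀ (C : Cv) (l : ℝ) b f f' (G : ℝ → ℝ) (M : ℝ), 0 < l → C.Mem l b f f' →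
  ContDiff ℝ ∞ G → G 0 = 0 → (∀ x, |deriv G x| ≤ M) →
  C.Mem l b (fun p => G (f p)) fun p => deriv G (f p) * f' p

/-- The resolvent is positive. -/
def St_POS : Prop := ∀ (C : Cv) (l : ℝ) b g u u', 0 < l → C.Res l b g u u' →
  (∀ᵐ p ∂C.mu, 0 ≤ g p) → ∀ᵐ p ∂C.mu, 0 ≤ u p

/-- Bounded smooth functions of finite energy are members; the resolvent keeps bounds. -/
structure St_MB : Prop where
  mem : ∀ (C : Cv) {l b g}, 0 < l → C.HasCut l → C.Bd g → MemLp (C.D b (cx g)) 2 (C.mo l b) →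
    C.Mem l b g (C.D b (cx g))
  bd : ∀ (C : Cv) {l b g u u'} {M : ℝ}, 0 < l → C.HasCut l → C.Res l b g u u' →
    (∀ p ∈ C.S, |g p| ≤ M) → ∀ᵐ p ∂C.mu, |u p| ≤ M

/-- Weak limits. -/
def St_WL : Prop := ∀ (C : Cv) (l : ℝ) b (f : ℕ → Am → ℝ) (f' : ℕ → Am → ℂ) (M : ℝ≥0∞), 0 < l →
  M ≠ ⊤ → (∀ j, C.Mem l b (f j) (f' j) ∧ eLpNorm (f j) 2 (C.mn l) ≤ M ∧
    eLpNorm (f' j) 2 (C.mo l b) ≤ M) →
  ∃ φ φ', C.Mem l b φ φ' ∧ ∀ (h : Am → ℂ) (y : ℂ), MemLp h 2 (C.mn l) →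
    Tendsto (fun j => ∫ p, f j p * h p ∂C.mn l) atTop (𝓝 y) → ∫ p, φ p * h p ∂C.mn l = y

/-! ### Cutoffs, area, energy -/

/-- Logarithmic cutoffs in one variable. -/
def St_TC : Prop := ∀ (B K : Set ℂ) (η : ℝ), B.Finite → IsCompact K → K ⊆ Bᶜ → 0 < η →
  ∃ θ : ℂ → ℝ, Bump Bᶜ θ ∧ (∀ z, θ z ∈ Icc (0 : ℝ) 1) ∧ (∀ z ∈ K, θ z = 1) ∧
    ∫⁻ z, ‖fderiv ℝ θ z‖ₑ ^ 2 ≤ ENNReal.ofReal η

/-- Area inequality for countably many holomorphic pieces. -/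
def St_AR1 : Prop := ∀ (ι : Type) [Countable ι] (f : ι → ℂ → ℂ) (E : ι → Set ℂ) (N : ℕ)
  (H : ℂ → ℝ≥0∞), Measurable H → (∀ i, MeasurableSet (E i)) →
  (∀ i, ∀ z ∈ E i, AnalyticAt ℂ (f i) z) →
  (∀ᵐ c : ℂ, {q : ι × ℂ | q.2 ∈ E q.1 ∧ f q.1 q.2 = c}.encard ≤ N) →
  ∑' i, ∫⁻ z in E i, H (f i z) * ‖deriv (f i) z‖ₑ ^ 2 ≤ N * ∫⁻ c, H c

/-- Area inequality on the cover. -/
def St_AR : Prop := ∀ (C : Cv) (l : ℝ) b f (N : ℕ) (H : ℂ → ℝ≥0∞), 0 < l → Measurable H →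
  C.Hol f → C.Cnt b f N →
  ∫⁻ p, H (f p) * ‖C.D b f p‖ₑ ^ 2 ∂C.mo l b ≤ N * ENNReal.ofReal (l * Real.pi) * ∫⁻ c, H c

/-- The equation of the branch curve takes values boundedly often. -/
def St_CD : Prop := ∀ (C : Cv) (δ : MvPolynomial (Fin 2) ℂ), δ ≠ 0 → volume (zs δ)ᶜ = 0 ∧
  IsOpen (zs δ) ∧ C.Hol (fun p => MvPolynomial.eval ![p.1.1, p.1.2] δ) ∧
  ∀ b, ∃ N, C.Cnt b (fun p => MvPolynomial.eval ![p.1.1, p.1.2] δ) N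

/-- Cutoffs on the cover. -/
def St_CUT : Prop := ∀ (C : Cv) (l : ℝ) (δ : MvPolynomial (Fin 2) ℂ), 0 < l → δ ≠ 0 →
  C.Ω = zs δ → C.HasCut l

/-- First order bound for a function on projective space. -/
def St_EN0 : Prop := ∀ (n : ℕ) (f : (Fin (n + 1) → ℂ) → ℝ), Reg f → ∃ M : ℝ, 0 ≤ M ∧
  ∀ x, x ≠ 0 → |f x| ≤ M ∧ ∀ (v : Fin (n + 1) → ℂ) (c : ℂ),
    |fderiv ℝ f x v| * ‖x‖ ≤ M * ‖v - c • x‖

/-- The same in terms of the roots. -/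
def St_EN1 : Prop := ∀ (n : ℕ) (f : (Fin (n + 1) → ℂ) → ℝ), Reg f → ∃ M : ℝ, 0 ≤ M ∧
  ∀ k ≤ n, ContDiff ℝ ∞ (fun ξ : Fin k → ℂ => f (cf n ξ)) ∧ ∀ ξ : Fin k → ℂ, cf n ξ ≠ 0 ∧
    |f (cf n ξ)| ≤ M ∧ ∀ v, |fderiv ℝ (fun ξ : Fin k → ℂ => f (cf n ξ)) ξ v| ≤
      M * ∑ i, ‖v i‖ / (1 + ‖ξ i‖ ^ 2)

/-- Energy bound on the cover. -/
def St_EN : Prop := ∀ (n : ℕ) (f : (Fin (n + 1) → ℂ) → ℝ), Reg f → ∃ M : ℝ, 0 ≤ M ∧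
  ∀ (C : Cv) (l : ℝ) (k : ℕ) (ξ : Fin k → Am → ℂ), 0 < l → k ≤ n → (∀ i, C.Hol (ξ i)) →
    C.Sm (cx fun p => f (cf n fun i => ξ i p)) ∧ (∀ p, |f (cf n fun i => ξ i p)| ≤ M) ∧
    ∀ b (N : Fin k → ℕ), (∀ i, C.Cnt b (ξ i) (N i)) →
      eLpNorm (C.D b (cx fun p => f (cf n fun i => ξ i p))) 2 (C.mo l b) ≤
        ENNReal.ofReal (M * √(l * ∑ i, (N i : ℝ)))

/-! ### Friedrichs -/

/-- Mollifiers converge in the mean. -/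
def St_MOL : Prop := ∀ (φ : ℕ → ContDiffBump (0 : B2)) (f : B2 → ℂ),
  Tendsto (fun j => (φ j).rOut) atTop (𝓝 0) → MemLp f 2 volume →
  Tendsto (fun j => eLpNorm (fun z => (∫ y, (φ j).normed volume (z - y) • f y) - f z) 2 volume)
    atTop (𝓝 0)

/-- Flat Friedrichs lemma. -/
def St_FR0 : Prop := ∀ (b : Bool) (V K : Set B2) (f h : B2 → ℂ), IsOpen V → IsCompact K → K ⊆ V →
  MemLp f 2 volume → MemLp h 2 volume → (∀ z, z ∉ K → f z = 0 ∧ h z = 0) →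
  (∀ χ : B2 → ℂ, Bump V χ → ∫ z, f z * wd b χ z = -∫ z, h z * χ z) →
  ∃ F : ℕ → B2 → ℂ, (∀ j, Bump V (F j)) ∧
    Tendsto (fun j => eLpNorm (F j - f) 2 volume) atTop (𝓝 0) ∧
    Tendsto (fun j => eLpNorm (wd b (F j) - h) 2 volume) atTop (𝓝 0) ∧
    ((∀ z, (f z).im = 0) → ∀ j z, (F j z).im = 0)

/-- A test function on a ball lifts to one sheet. -/
def St_SH : Prop := ∀ (C : Cv) (V U : Set B2) (c : Fin C.β → B2 → ℂ) (k : Fin C.β) (χ : B2 → ℂ),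
  IsOpen V → V ⊆ C.Ω ∩ U → (∀ w ∈ V, (Injective fun k => c k w) ∧
    (range fun k => c k w) = (range fun k => C.r k w) ∧ ∀ k, C.IsBr (w, c k w) (c k)) →
  Bump V χ → ∃ G : Am → ℂ, C.Tst U G ∧ (∀ p, G p = χ p.1 ∨ G p = 0) ∧
    (∀ w ∈ V, ∀ k', G (w, c k' w) = (if k' = k then χ w else 0) ∧
      ∀ b, C.D b G (w, c k' w) = if k' = k then wd b χ w else 0) ∧
    ∀ p ∈ C.S, p.1 ∉ V → G p = 0 ∧ ∀ b, C.D b G p = 0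

/-- Friedrichs lemma on the cover. -/
def St_FR : Prop := ∀ (C : Cv) b (U : Set B2) (f h : Am → ℂ) (ζ : B2 → ℝ), IsOpen U → C.Loc f →
  C.Loc h → C.WD b U f h → Bump (C.Ω ∩ U) ζ → ∃ F : ℕ → Am → ℂ, (∀ j, C.Tst U (F j)) ∧
    Tendsto (fun j => eLpNorm (fun p => F j p - ζ p.1 * f p) 2 C.mu) atTop (𝓝 0) ∧
    Tendsto (fun j => eLpNorm (fun p => C.D b (F j) p - (ζ p.1 * h p + wd b (cx ζ) p.1 * f p))
      2 C.mu) atTop (𝓝 0) ∧ ((∀ p, (f p).im = 0) → ∀ j p, (F j p).im = 0)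

/-- Product rule for weak derivatives. -/
def St_PR : Prop := ∀ (C : Cv) b (U : Set B2) (f₁ h₁ f₂ h₂ η : Am → ℂ), IsOpen U → C.Loc f₁ →
  C.Loc h₁ → C.Loc f₂ → C.Loc h₂ → C.WD b U f₁ h₁ → C.WD b U f₂ h₂ → C.Tst U η →
  ∫ p, (C.D b η p * (f₁ p * f₂ p) + η p * (h₁ p * f₂ p + f₁ p * h₂ p)) ∂C.mu = 0

/-- Uniqueness of weak derivatives. -/
def St_UQ : Prop := ∀ (C : Cv) (U : Set B2) (h : Am → ℂ), IsOpen U → C.Loc h →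
  (∀ χ, C.Tst U χ → ∫ p, h p * χ p ∂C.mu = 0) → ∀ᵐ p ∂C.mu, p.1 ∈ U → h p = 0

/-- Bounded functions with a weak derivative of finite energy are members. -/
def St_MWK : Prop := ∀ (C : Cv) (l : ℝ) b (u : Am → ℝ) (w : Am → ℂ) (M : ℝ), 0 < l → C.HasCut l →
  AEStronglyMeasurable u C.mu → (∀ᵐ p ∂C.mu, |u p| ≤ M) → MemLp w 2 (C.mo l b) →
  C.WD b univ (cx u) w → C.Mem l b u w

/-! ### Regularity along a motion -/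

/-- Small perturbations of the identity are diffeomorphisms. -/
def St_PERT : Prop := ∀ Φ : B2 → B2, ContDiff ℝ ∞ Φ →
  (∀ z, ‖fderiv ℝ Φ z - ContinuousLinearMap.id ℝ B2‖ ≤ 1 / 2) →
  ∃ Φ', ContDiff ℝ ∞ Φ' ∧ LeftInverse Φ' Φ ∧ RightInverse Φ' Φ

/-- The local data of the motion. -/
def St_PH0 : Prop := ∀ (Ω : Set B2) (t : ℂ), Mot Ω → t ∈ Prod.fst '' Ω →
  ∃ (N : ℕ) (U U' : Set ℂ) (B κ : Fin N → ℂ → ℂ) (θ : ℂ → ℝ) (r : ℝ), 0 < r ∧ IsOpen U ∧ t ∈ U ∧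
    IsOpen U' ∧ Bump univ θ ∧ (∀ z ∈ U, θ z = 1) ∧ (∀ z, |θ z| ≤ 1) ∧
    (∀ z ∈ tsupport θ, Metric.closedBall z r ⊆ U') ∧
    (∀ i, Bump univ (B i) ∧ Bump univ (κ i) ∧ AnalyticOnNhd ℂ (B i) U') ∧
    (∀ z ∈ U', ∀ s, (z, s) ∈ Ω ↔ ∀ i, s ≠ B i z) ∧
    ∀ z ∈ U', ∀ i j, κ j =ᶠ[𝓝 (B i z)] fun _ => if j = i then 1 else 0

/-- Existence of the motion. -/
def St_PHI : Prop := ∀ (Ω : Set B2) (t : ℂ), Mot Ω → t ∈ Prod.fst '' Ω →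
  ∃ (U : Set ℂ) (a : B2 → ℂ), IsOpen U ∧ t ∈ U ∧ Fld Ω U a ∧
    ∀ e : ℂ, ‖e‖ = 1 → Nonempty (Mo Ω U a e)

/-- Lifting the motion. -/
def St_LIFT : Prop := ∀ (C : Cv) U a e (m : Mo C.Ω U a e), Nonempty (Li C m)

/-- The lift read on the sheets. -/
structure St_LB : Prop where
  dn : ∀ (C : Cv) {U a e} {m : Mo C.Ω U a e} (L : Li C m), ∀ l ∈ Icc 0 m.l0, ∀ p ∈ C.S, ∀ F,
    C.dn (fun q => F (L.τ l q)) p =ᶠ[𝓝 p.1] fun w => C.dn F (L.τ l p) (m.Ψ l w)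
  path : ∀ (C : Cv) {U a e} {m : Mo C.Ω U a e} (L : Li C m), ∀ l ∈ Icc 0 m.l0, ∀ p ∈ C.S, ∀ F,
    C.Sm F → HasDerivWithinAt (fun l => F (L.τ l p))
      (fderiv ℝ (C.dn F (L.τ l p)) (L.τ l p).1 (deriv (fun l => m.Ψ l p.1) l)) (Icc 0 m.l0) l
  surj : ∀ (C : Cv) {U a e} {m : Mo C.Ω U a e} (L : Li C m), ∀ l ∈ Icc 0 m.l0,
    SurjOn (L.τ l) C.S C.S
  supp : ∀ (C : Cv) {U a e} (m : Mo C.Ω U a e) {K}, IsCompact K → K ⊆ C.Ω →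
    ∃ K', IsCompact K' ∧ K' ⊆ C.Ω ∧ ∀ l ∈ Icc 0 m.l0, ∀ z, (m.Ψ l z ∈ K → z ∈ K') ∧
      (z ∈ K → m.Ψ l z ∈ K')

/-- Jacobian and weights under the motion. -/
def St_JAC : Prop := ∀ (Ω U a e) (m : Mo Ω U a e) (x : ℝ), 0 < x → ∃ c : ℝ, 0 ≤ c ∧
  ∀ l ∈ Icc 0 m.l0, ∀ z, abs (|(fderiv ℝ (m.Ψ l) z).det| - 1) ≤ c * l ∧
    abs (|(fderiv ℝ (m.Ψ l) z).det| * (rho x (m.Ψ l z).1 / rho x z.1) - 1) ≤ c * l ∧
    abs (|(fderiv ℝ (m.Ψ l) z).det| * (rho x (m.Ψ l z).1 * rho x (m.Ψ l z).2 /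
      (rho x z.1 * rho x z.2)) - 1) ≤ c * l

/-- The lift almost preserves the three measures. -/
def St_TR1 : Prop := ∀ (C : Cv) U a e (m : Mo C.Ω U a e) (L : Li C m) (x : ℝ), 0 < x →
  ∃ c : ℝ, 0 ≤ c ∧ ∀ l ∈ Icc 0 m.l0, Tr C.mu (L.τ l) (c * l) ∧ Tr (C.mn x) (L.τ l) (c * l) ∧
    Tr (C.mo x false) (L.τ l) (c * l)

/-- Consequences of almost preserving a measure. -/
structure St_TRL : Prop where
  ae : ∀ {m τ ε} {P : Am → Prop}, Tr m τ ε → ε ≤ 1 / 2 → (∀ᵐ p ∂m, P p) → ∀ᵐ p ∂m, P (τ p)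
  nrm : ∀ {m τ ε} {f : Am → ℂ}, Tr m τ ε → ε ≤ 1 / 2 → AEStronglyMeasurable f m →
    AEStronglyMeasurable (fun p => f (τ p)) m ∧
    eLpNorm (fun p => f (τ p)) 2 m ≤ 2 * eLpNorm f 2 m ∧
    eLpNorm f 2 m ≤ 2 * eLpNorm (fun p => f (τ p)) 2 m
  int : ∀ {m τ ε} {f : Am → ℂ}, Tr m τ ε → ε ≤ 1 / 2 → Integrable f m →
    Integrable (fun p => f (τ p)) m ∧
    ‖∫ p, f (τ p) ∂m - ∫ p, f p ∂m‖ ≤ ε * ∫ p, ‖f (τ p)‖ ∂m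

/-- The lift acts on test functions. -/
def St_TR2 : Prop := ∀ (C : Cv) U a e (m : Mo C.Ω U a e) (L : Li C m), ∀ l ∈ Icc 0 m.l0,
  (∃ A B : B2 → ℂ, Continuous A ∧ Continuous B ∧ (∀ z, ‖A z - 1‖ ≤ m.M * l ∧ ‖B z‖ ≤ m.M * l) ∧
    ∀ F, C.Sm F → C.Sm (fun p => F (L.τ l p)) ∧ ∀ p ∈ C.S, C.D false (fun p => F (L.τ l p)) p =
      A p.1 * C.D false F (L.τ l p) + B p.1 * C.Db false F (L.τ l p)) ∧
  (∀ F, C.Tst univ F → C.Tst univ fun p => F (L.τ l p)) ∧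
  ∀ χ : Am → ℝ, C.Tst univ (cx χ) → ∃ χ' : Am → ℝ, C.Tst univ (cx χ') ∧
    ∀ p ∈ C.S, χ' (L.τ l p) = χ p

/-- Difference quotients of the datum. -/
def St_GD : Prop := ∀ (C : Cv) U a e (m : Mo C.Ω U a e) (L : Li C m) (x : ℝ) g, 0 < x →
  C.G0 x g → ∃ c : ℝ, ∀ᶠ l in 𝓝[>] (0 : ℝ),
    eLpNorm (fun p => g (L.τ l p) - g p) 2 (C.mn x) ≤ ENNReal.ofReal (c * l)

/-- One step of the abstract estimate. -/
def St_DQ1 : Prop := ∀ (C : Cv) (x ε γ : ℝ) (τ : Am → Am) (A B : B2 → ℂ) g u u', 0 < x → 0 ≤ ε →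
  ε ≤ 1 / 8 → 0 ≤ γ → Tr (C.mn x) τ ε → Tr (C.mo x false) τ ε → Continuous A → Continuous B →
  (∀ z, ‖A z - 1‖ ≤ ε ∧ ‖B z‖ ≤ ε) →
  (∀ F, C.Tst univ F → C.Tst univ (fun p => F (τ p)) ∧ ∀ p ∈ C.S, C.D false (fun p => F (τ p)) p =
    A p.1 * C.D false F (τ p) + B p.1 * C.Db false F (τ p)) →
  (∀ χ : Am → ℝ, C.Tst univ (cx χ) → ∃ χ' : Am → ℝ, C.Tst univ (cx χ') ∧
    ∀ p ∈ C.S, χ' (τ p) = χ p) → C.Res x false g u u' →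
  eLpNorm (fun p => g (τ p) - g p) 2 (C.mn x) ≤ ENNReal.ofReal γ →
  ∃ d', C.Mem x false (fun p => u (τ p) - u p) d' ∧
    eLpNorm (fun p => u (τ p) - u p) 2 (C.mn x) + eLpNorm d' 2 (C.mo x false) ≤
      2 * ENNReal.ofReal γ + 100 * ENNReal.ofReal ε * (eLpNorm g 2 (C.mn x) +
        eLpNorm u 2 (C.mn x) + eLpNorm u' 2 (C.mo x false))

/-- The lift preserves the space. -/
def St_DQ0 : Prop := ∀ (C : Cv) (x ε : ℝ) (τ : Am → Am) (A B : B2 → ℂ) u u', 0 < x →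
  ε ≤ 1 / 8 → Tr (C.mn x) τ ε → Tr (C.mo x false) τ ε → Continuous A → Continuous B →
  (∀ z, ‖A z - 1‖ ≤ ε ∧ ‖B z‖ ≤ ε) →
  (∀ F, C.Tst univ F → C.Tst univ (fun p => F (τ p)) ∧ ∀ p ∈ C.S, C.D false (fun p => F (τ p)) p =
    A p.1 * C.D false F (τ p) + B p.1 * C.Db false F (τ p)) → C.Mem x false u u' →
  C.Mem x false (fun p => u (τ p)) fun p => A p.1 * u' (τ p) + B p.1 * conj (u' (τ p))

/-- Uniform bound for the tested difference quotients. -/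
def St_ID0 : Prop := ∀ (C : Cv) U a e (m : Mo C.Ω U a e) (L : Li C m) (x : ℝ) χ, 0 < x →
  C.Tst univ χ → ∃ c : ℝ, ∀ᶠ l in 𝓝[>] (0 : ℝ), ∀ u : Am → ℝ, MemLp u 2 (C.mn x) →
    ‖∫ p, (u (L.τ l p) - u p : ℝ) * χ p ∂C.mu‖ ≤ c * l * (eLpNorm u 2 (C.mn x)).toReal

/-- The limit of the tested difference quotients. -/
def St_ID : Prop := ∀ (C : Cv) U a e (m : Mo C.Ω U a e) (L : Li C m) (x : ℝ) u u' χ, 0 < x →
  ContDiff ℝ ∞ a → C.Mem x false u u' → C.Tst (Prod.fst ⁻¹' U) χ →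
  Tendsto (fun l : ℝ => ∫ p, ((u (L.τ l p) - u p) / l : ℝ) * χ p ∂C.mu) (𝓝[>] 0)
    (𝓝 (-(e * ∫ p, u p * C.D true χ p ∂C.mu) - conj e * ∫ p, u p * C.Db true χ p ∂C.mu +
      (e * ∫ p, a p.1 * u' p * χ p ∂C.mu + conj e * ∫ p, conj (a p.1 * u' p) * χ p ∂C.mu)))

/-- Regularity of the resolvent in the transverse direction. -/
def St_REG : Prop := ∀ (C : Cv) (l : ℝ) g u u' t, 0 < l → Mot C.Ω → t ∈ Prod.fst '' C.Ω →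
  C.G0 l g → C.Res l false g u u' → ∃ (U : Set ℂ) (a : B2 → ℂ) (ψ ψ' : Am → ℂ), IsOpen U ∧ t ∈ U ∧
    Fld C.Ω U a ∧ C.MemC l false ψ ψ' ∧
    C.WD true (Prod.fst ⁻¹' U) (cx u) fun p => conj (ψ p) - a p.1 * u' p

/-! ### The key inequality -/

/-- The data of the local computation: `w` and `W` are the weak `t`-derivatives of `u` and of the
conjugate of `u'`. -/
structure KD (C : Cv) (l : ℝ) (g u : Am → ℝ) (u' : Am → ℂ) (U : Set ℂ) (a : B2 → ℂ)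
    (ψ ψ' w W : Am → ℂ) : Prop where
  pos : 0 < l
  cut : C.HasCut l
  g0 : C.G0 l g
  res : C.Res l false g u u'
  op : IsOpen U
  fld : Fld C.Ω U a
  mem : C.MemC l false ψ ψ'
  hw : ∀ p, w p = conj (ψ p) - a p.1 * u' p
  hW : ∀ p, W p = conj (ψ' p) - wb false a p.1 * u' p - a p.1 * (rho l p.1.2 * (u p - g p) : ℝ)
  wd : C.WD true (Prod.fst ⁻¹' U) (cx u) w

/-- Integrability and the second weak derivative. -/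
def St_W0 : Prop := ∀ C l g u u' U a ψ ψ' w W, KD C l g u u' U a ψ ψ' w W →
  MemLp w 2 (C.mn l) ∧ MemLp W 2 (C.mo l false) ∧ (∃ M, ∀ᵐ p ∂C.mu, |u p| ≤ M ∧ |g p| ≤ M) ∧
  C.WD true (Prod.fst ⁻¹' U) (cx fun p => u p - g p) (fun p => w p - C.D true (cx g) p) ∧
  C.WD true (Prod.fst ⁻¹' U) (fun p => conj (u' p)) W

/-- The differentiated equation and the equation, tested against members. -/
def St_W1 : Prop := ∀ C l g u u' U a ψ ψ' w W, KD C l g u u' U a ψ ψ' w W →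
  ∀ (θ : ℂ → ℂ) (φ φ' : Am → ℂ), Bump U θ → C.MemC l false φ φ' →
    ∫ p, θ p.1.1 * (rho l p.1.2 * (w p - C.D true (cx g) p) * φ p + W p * φ' p) ∂C.mu = 0 ∧
    ∫ p, θ p.1.1 * ((rho l p.1.2 * (u p - g p) : ℝ) * φ p + conj (u' p) * φ' p) ∂C.mu = 0

/-- The singular terms form a total derivative. -/
def St_K1 : Prop := ∀ C l g u u' U a ψ ψ' w W, KD C l g u u' U a ψ ψ' w W →
  ∀ θ : ℂ → ℂ, Bump U θ →
    ∫ p, θ p.1.1 * (rho l p.1.2 * conj (a p.1) * ((w p - C.D true (cx g) p) * conj (u' p) +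
      (u p - g p : ℝ) * W p) + conj (wb false a p.1) * conj (u' p) * W p) ∂C.mu =
    -∫ p, wd true (fun z => θ z.1) p.1 * (rho l p.1.2 * conj (a p.1) * (u p - g p : ℝ) *
      conj (u' p) + conj (wb false a p.1) * conj (u' p) ^ 2 / 2) ∂C.mu

/-- The primitive does not depend on the vector field. -/
def St_K2 : Prop := ∀ C l g u u' U a ψ ψ' w W, KD C l g u u' U a ψ ψ' w W →
  ∀ θ : ℂ → ℂ, Bump U θ →
    ∫ p, θ p.1.1 * (rho l p.1.2 * conj (a p.1) * (u p - g p : ℝ) * conj (u' p) +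
      conj (wb false a p.1) * conj (u' p) ^ 2 / 2) ∂C.mu =
    (∫ p, θ p.1.1 * (g p * conj (w p) - conj (C.D true (cx g) p) * u p) ∂C.mo l true) / 2

/-- The local inequality. -/
def St_KL : Prop := ∀ C l g u u' U a ψ ψ' w W, KD C l g u u' U a ψ ψ' w W →
  ∀ θ : ℂ → ℝ, Bump U θ → (∀ z, 0 ≤ θ z) → C.KI l g u w θ

/-- Gluing the local derivatives. -/
def St_GLU : Prop := ∀ (C : Cv) (l : ℝ) (g u : Am → ℝ), 0 < l → C.G0 l g → MemLp u 2 (C.mn l) →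
  (∀ t ∈ Prod.fst '' C.Ω, ∃ (U : Set ℂ) (w : Am → ℂ), IsOpen U ∧ t ∈ U ∧ MemLp w 2 (C.mn l) ∧
    C.WD true (Prod.fst ⁻¹' U) (cx u) w ∧ ∀ θ, Bump U θ → (∀ z, 0 ≤ θ z) → C.KI l g u w θ) →
  ∃ w : Am → ℂ, AEStronglyMeasurable w C.mu ∧ (∀ K, IsCompact K → K ⊆ Prod.fst '' C.Ω →
      MemLp w 2 ((C.mo l true).restrict {p | p.1.1 ∈ K})) ∧ C.WD true univ (cx u) w ∧
    ∀ θ, Bump (Prod.fst '' C.Ω) θ → (∀ z, 0 ≤ θ z) → C.KI l g u w θ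

/-- The global inequality. -/
def St_GLO : Prop := ∀ (C : Cv) (l M : ℝ) (g u : Am → ℝ) (w : Am → ℂ), 0 < l →
  (Prod.fst '' C.Ω)ᶜ.Finite → C.G0 l g → AEStronglyMeasurable u C.mu → (∀ᵐ p ∂C.mu, |u p| ≤ M) →
  AEStronglyMeasurable w C.mu → (∀ K, IsCompact K → K ⊆ Prod.fst '' C.Ω →
      MemLp w 2 ((C.mo l true).restrict {p | p.1.1 ∈ K})) →
  (∀ θ, Bump (Prod.fst '' C.Ω) θ → (∀ z, 0 ≤ θ z) → C.KI l g u w θ) →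
  eLpNorm w 2 (C.mo l true) ≤ eLpNorm (C.D true (cx g)) 2 (C.mo l true)

/-- Smoothing along the curves `t = const` does not increase the energy in `t`. -/
def St_KEY : Prop := ∀ (C : Cv) (l : ℝ) g u u', 0 < l → C.HasCut l → Mot C.Ω → C.G0 l g →
  C.Res l false g u u' → ∃ w, C.Mem l true u w ∧
    eLpNorm w 2 (C.mo l true) ≤ eLpNorm (C.D true (cx g)) 2 (C.mo l true)

/-! ### The grid argument -/

/-- Smoothing in the two directions almost preserves the pairing. -/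
def St_PAIR : Prop := ∀ (C : Cv) (l : ℝ) f g A A' B B', 0 < l → C.HasCut l → Mot C.Ω → C.Bd f →
  MemLp (C.D false (cx f)) 2 (C.mo l false) → C.G0 l g → C.Res l true f A A' →
  C.Res l false g B B' → |∫ p, A p * B p ∂C.mn l - ∫ p, f p * g p ∂C.mn l| ≤
    (eLpNorm f 2 (C.mn l)).toReal * (eLpNorm (C.D true (cx g)) 2 (C.mo l true)).toReal +
    (eLpNorm g 2 (C.mn l)).toReal * (eLpNorm (C.D false (cx f)) 2 (C.mo l false)).toReal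

/-- Explicit subsolutions on the sphere. -/
def St_CAP1 : Prop := ∀ N : ℕ, ∃ l c M : ℝ, 0 < l ∧ 0 < c ∧ ∀ k ≤ N, ∃ w : ℂ → ℝ,
  ContDiff ℝ ∞ w ∧ ∀ b (z : B2), c ≤ w (co b z) ∧ w (co b z) ≤ M ∧
    ‖wd b (fun z => w (co b z)) z‖ ≤ M / (1 + ‖co b z‖ ^ 2) ∧
    ∃ h : ℝ, wb b (wd b fun z => w (co b z)) z = (rho l (co b z) * (w (co b z) - h) : ℝ) ∧
      |h| ≤ M ∧ h ≤ 1 ∧ (1 ≤ ‖co b z - 4 * k‖ → h ≤ 0)

/-- The resolvent of a bump is bounded below. -/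
def St_CAP : Prop := ∀ N : ℕ, ∃ (l c : ℝ) (χ : ℕ → ℂ → ℝ), 0 < l ∧ 0 < c ∧
  (∀ k : ℕ, Bump (Metric.closedBall (4 * k : ℂ) (3 / 2)) (χ k) ∧ ∀ z, χ k z ∈ Icc (0 : ℝ) 1) ∧
  ∀ C : Cv, C.HasCut l → ∀ b, ∀ k ≤ N, ∀ u u', C.Res l b (fun p => χ k (co b p.1)) u u' →
    ∀ᵐ p ∂C.mu, c ≤ u p

/-- The resolvent averages. -/
def St_CONV : Prop := ∀ (C : Cv) (l : ℝ) b (r : ℕ) (χ u : Am → ℝ) (F v : Fin r → Am → ℝ) u'
  (v' : Fin r → Am → ℂ) (Q : Set (Fin r → ℝ)), 0 < l → (∀ p, 0 ≤ χ p) → C.Res l b χ u u' →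
  (∀ k, C.Res l b (fun p => χ p * F k p) (v k) (v' k)) →
  (∀ p ∈ C.S, χ p ≠ 0 → (fun k => F k p) ∈ Q) →
  ∀ᵐ p ∂C.mu, 0 < u p → (fun k => v k p / u p) ∈ closure (convexHull ℝ Q)

/-- Multi-affine inequalities pass to closed convex hulls. -/
def St_BIL : Prop := ∀ (r N : ℕ) (ε : ℝ) (Q Q' : Fin N → Set (Fin r → ℝ)),
  (∀ i j, ∀ x ∈ Q i, ∀ y ∈ Q' j, 0 ≤ ∑ k, x k * y k) →
  (∀ x y : Fin N → Fin r → ℝ, (∀ i, x i ∈ Q i) → (∀ j, y j ∈ Q' j) →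
    ε ≤ ∑ i, ∑ j, ∑ k, x i k * y j k) →
  ∀ x y : Fin N → Fin r → ℝ, (∀ i, x i ∈ closure (convexHull ℝ (Q i))) →
    (∀ j, y j ∈ closure (convexHull ℝ (Q' j))) →
    (∀ i j, 0 ≤ ∑ k, x i k * y j k) ∧ ε ≤ ∑ i, ∑ j, ∑ k, x i k * y j k

/-- The lower bound for the smoothed kernel. -/
def St_LOWB : Prop := ∀ (n m r N : ℕ) (ε l c : ℝ) (f : Fin r → (Fin (n + 1) → ℂ) → ℝ)
  (g : Fin r → (Fin (m + 1) → ℂ) → ℝ) (C : Cv) (x : Am → Fin (n + 1) → ℂ)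
  (y : Am → Fin (m + 1) → ℂ) (χ χ' A B : Fin (N + 1) → Am → ℝ) (A' B' : Fin (N + 1) → Am → ℂ)
  (a b : Fin (N + 1) → Fin r → Am → ℝ) (a' b' : Fin (N + 1) → Fin r → Am → ℂ),
  0 < l → 0 < c → Sep N ε f g → (∀ i p, 0 ≤ χ i p ∧ 0 ≤ χ' i p) →
  (∀ i, ∀ p ∈ C.S, (χ i p ≠ 0 → x p ∈ Slab n i) ∧ (χ' i p ≠ 0 → y p ∈ Slab m i)) →
  (∀ i, C.Res l true (χ i) (A i) (A' i) ∧ C.Res l false (χ' i) (B i) (B' i) ∧
    (∀ᵐ p ∂C.mu, c ≤ A i p) ∧ ∀ᵐ p ∂C.mu, c ≤ B i p) →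
  (∀ i k, C.Res l true (fun p => χ i p * f k (x p)) (a i k) (a' i k) ∧
    C.Res l false (fun p => χ' i p * g k (y p)) (b i k) (b' i k)) →
  c ^ 2 * ε * (C.mn l).real univ ≤ ∑ i, ∑ j, ∑ k, ∫ p, a i k p * b j k p ∂C.mn l

/-- Multiplication by a bump in the variable `co b`. -/
def St_PREP : Prop := ∀ (C : Cv) (l M : ℝ) b (U : Set ℂ) (χ : ℂ → ℝ) (h : Am → ℝ), 0 < l →
  Bump U χ → (∀ z, χ z ∈ Icc (0 : ℝ) 1) → C.Sm (cx h) → (∀ p, |h p| ≤ M) →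
  C.Bd (fun p => χ (co b p.1) * h p) ∧ MemLp (fun p => χ (co b p.1) * h p) 2 (C.mn l) ∧
    (eLpNorm (fun p => χ (co b p.1) * h p) 2 (C.mn l)).toReal ≤ M * √((C.mn l).real univ) ∧
    (MemLp (C.D (!b) (cx h)) 2 (C.mo l (!b)) →
      MemLp (C.D (!b) (cx fun p => χ (co b p.1) * h p)) 2 (C.mo l (!b))) ∧
    eLpNorm (C.D (!b) (cx fun p => χ (co b p.1) * h p)) 2 (C.mo l (!b)) ≤
      eLpNorm (C.D (!b) (cx h)) 2 (C.mo l (!b)) ∧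
    (MemLp (C.D b (cx h)) 2 (C.mo l b) →
      MemLp (C.D b (cx fun p => χ (co b p.1) * h p)) 2 (C.mo l b))

/-- The analytic theorem. -/
def St_AN0 : Prop := ∀ (n m r N : ℕ) (ε : ℝ) (f : Fin r → (Fin (n + 1) → ℂ) → ℝ)
  (g : Fin r → (Fin (m + 1) → ℂ) → ℝ), Sep N ε f g → ∃ K : ℝ, 0 ≤ K ∧
  ∀ (C : Cv) (δ : MvPolynomial (Fin 2) ℂ) (n' m' : ℕ) (ξ : Fin n' → Am → ℂ) (η : Fin m' → Am → ℂ)
    (i₀ : Fin n') (j₀ : Fin m') (Nx : Fin n' → ℕ) (Ny Nz : Fin m' → ℕ), δ ≠ 0 → C.Ω = zs δ →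
    Mot C.Ω → n' ≤ n → m' ≤ m → (∀ i, C.Hol (ξ i) ∧ C.Cnt false (ξ i) (Nx i)) →
    (∀ j, C.Hol (η j) ∧ C.Cnt true (η j) (Ny j) ∧ C.Cnt false (η j) (Nz j)) →
    (∀ p ∈ C.S, ξ i₀ p = p.1.1 ∧ η j₀ p = p.1.2 ∧
      ∑ k, f k (cf n fun i => ξ i p) * g k (cf m fun j => η j p) = 0) →
    (C.β : ℝ) ≤ K * (∑ i, (Nx i : ℝ) + ∑ j, (Ny j : ℝ))

end Pool.Agent.Lib.CLF
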