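import Mathlib

/-! Definitions for the analytic half: finite covers of an open set of the complex plane squared,
weak derivatives and resolvents on them. -/

open MeasureTheory Filter Topology Set Function
open scoped ContDiff ENNReal ComplexConjugate

noncomputable section

namespace Pool.Agent.Lib.CLF

/-- The base, with coordinates `t = z.1` and `s = z.2`. -/
abbrev B2 : Type := ℂ × ℂ

/-- The ambient space of the cover. -/
abbrev Am : Type := (ℂ × ℂ) × ℂ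

/-- The direction of differentiation: `true` is `t`, `false` is `s`. -/
def ev : Bool → B2
  | true => (1, 0)
  | false => (0, 1)

/-- The variable of differentiation. -/
def co : Bool → B2 → ℂ
  | true => Prod.fst
  | false => Prod.snd

/-- The other variable. -/
def ot : Bool → B2 → ℂ
  | true => Prod.snd
  | false => Prod.fst

/-- Holomorphic Wirtinger derivative. -/
def wd (b : Bool) (f : B2 → ℂ) (z : B2) : ℂ :=
  (fderiv ℝ f z (ev b) - Complex.I * fderiv ℝ f z (Complex.I • ev b)) / 2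

/-- Antiholomorphic Wirtinger derivative. -/
def wb (b : Bool) (f : B2 → ℂ) (z : B2) : ℂ :=
  (fderiv ℝ f z (ev b) + Complex.I * fderiv ℝ f z (Complex.I • ev b)) / 2

/-- A real function as a complex one. -/
def cx {α : Type} (f : α → ℝ) : α → ℂ := fun p => (f p : ℂ)

/-- The spherical weight. -/
def rho (l : ℝ) (z : ℂ) : ℝ := l / (1 + ‖z‖ ^ 2) ^ 2

/-- Smooth with compact support inside `U`. -/
def Bump {X Y : Type} [NormedAddCommGroup X] [NormedSpace ℝ X] [NormedAddCommGroup Y]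
    [NormedSpace ℝ Y] (U : Set X) (θ : X → Y) : Prop :=
  ContDiff ℝ ∞ θ ∧ HasCompactSupport θ ∧ tsupport θ ⊆ U

/-- The complement of a plane curve. -/
def zs (δ : MvPolynomial (Fin 2) ℂ) : Set B2 := {z | MvPolynomial.eval ![z.1, z.2] δ ≠ 0}

/-- Off finitely many values of `t`, the complement of `Ω` is a union of analytic graphs. -/
def Mot (Ω : Set B2) : Prop :=
  (Prod.fst '' Ω)ᶜ.Finite ∧ ∀ t ∈ Prod.fst '' Ω, ∃ (r : ℝ) (N : ℕ) (b : Fin N → ℂ → ℂ), 0 < r ∧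
    (∀ i, AnalyticOnNhd ℂ (b i) (Metric.ball t r)) ∧ (Injective fun i => b i t) ∧
    ∀ t' ∈ Metric.ball t r, ∀ s, (t', s) ∈ Ω ↔ ∀ i, s ≠ b i t'

/-- The vector field `d/dt + a d/ds` is holomorphic in `t` over `U`, and holomorphic in `s` near
the complement of `Ω`. -/
def Fld (Ω : Set B2) (U : Set ℂ) (a : B2 → ℂ) : Prop :=
  ContDiff ℝ ∞ a ∧ (∃ M, ∀ z, ‖a z‖ ≤ M ∧ ‖wb false a z‖ ≤ M) ∧
    (∀ z, z.1 ∈ U → wb true a z = 0) ∧
    ∀ K, IsCompact K → K ⊆ U → ∃ K', IsCompact K' ∧ K' ⊆ Ω ∧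
      ∀ z, z.1 ∈ K → z ∉ K' → wb false a z = 0

/-- A motion of the base that preserves `Ω` and the lines `t = const`. -/
structure Mo (Ω : Set B2) (U : Set ℂ) (a : B2 → ℂ) (e : ℂ) where
  Ψ : ℝ → B2 → B2
  l0 : ℝ
  M : ℝ
  pos : 0 < l0
  nn : 0 ≤ M
  small : M * l0 ≤ 1 / 8
  sm : ContDiff ℝ ∞ (uncurry Ψ)
  zero : ∀ z, Ψ 0 z = z
  fst : ∀ l z z', z.1 = z'.1 → (Ψ l z).1 = (Ψ l z').1
  inv : ∀ l ∈ Icc 0 l0, ∃ Φ, ContDiff ℝ ∞ Φ ∧ LeftInverse Φ (Ψ l) ∧ RightInverse Φ (Ψ l)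
  om : ∀ l ∈ Icc 0 l0, ∀ z, Ψ l z ∈ Ω ↔ z ∈ Ω
  dl : ∀ l ∈ Icc 0 l0, ∀ z, ‖deriv (fun l => Ψ l z) l‖ ≤ M
  dz : ∀ l ∈ Icc 0 l0, ∀ z, ‖fderiv ℝ (Ψ l) z - ContinuousLinearMap.id ℝ B2‖ ≤ M * l
  gen : ∀ z, z.1 ∈ U → deriv (fun l => Ψ l z) 0 = (e, e * a z)

/-- `τ` transports the measure `m` up to a density within `ε` of one. -/
def Tr (m : Measure Am) (τ : Am → Am) (ε : ℝ) : Prop :=
  AEMeasurable τ m ∧ ∃ j : Am → ℝ, Measurable j ∧ (∀ p, |j p - 1| ≤ ε) ∧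
    (m.withDensity fun p => ENNReal.ofReal (j p)).map τ = m

/-- A smooth function on projective space. -/
def Reg {n : ℕ} (f : (Fin (n + 1) → ℂ) → ℝ) : Prop :=
  ContDiffOn ℝ ∞ f {x | x ≠ 0} ∧ ∀ c : ℂ, c ≠ 0 → ∀ x, f (c • x) = f x

/-- The coefficients of the monic polynomial with roots `ξ`. -/
def cf {R : Type} [CommRing R] (n : ℕ) {k : ℕ} (ξ : Fin k → R) : Fin (n + 1) → R :=
  fun r => (∏ i, (Polynomial.X - Polynomial.C (ξ i))).coeff r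

/-- The nonzero polynomials of degree at most `n` with a root in the `k`-th disc. -/
def Slab (n k : ℕ) : Set (Fin (n + 1) → ℂ) :=
  {x | x ≠ 0 ∧ ∃ t ∈ Metric.closedBall (4 * k : ℂ) (3 / 2), ∑ r, x r * t ^ (r : ℕ) = 0}

/-- A nonnegative separated kernel that is not small on any large grid. -/
def Sep {n m r : ℕ} (N : ℕ) (ε : ℝ) (f : Fin r → (Fin (n + 1) → ℂ) → ℝ)
    (g : Fin r → (Fin (m + 1) → ℂ) → ℝ) : Prop :=
  0 < ε ∧ (∀ k, Reg (f k) ∧ Reg (g k)) ∧ (∀ x y, x ≠ 0 → y ≠ 0 → 0 ≤ ∑ k, f k x * g k y) ∧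
    ∀ (X : Fin (N + 1) → Fin (n + 1) → ℂ) (Y : Fin (N + 1) → Fin (m + 1) → ℂ),
      (∀ i : Fin (N + 1), X i ∈ Slab n i) → (∀ j : Fin (N + 1), Y j ∈ Slab m j) →
        ε ≤ ∑ i, ∑ j, ∑ k, f k (X i) * g k (Y j)

/-- A finite unramified analytic cover of `Ω`, with a measurable numbering of the sheets. -/
structure Cv where
  Ω : Set B2
  β : ℕ
  r : Fin β → B2 → ℂ
  op : IsOpen Ω
  meas : ∀ k, Measurable (r k)
  inj : ∀ z ∈ Ω, Injective fun k => r k z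
  lc : ∀ z ∈ Ω, ∃ b : Fin β → B2 → ℂ, (∀ k, AnalyticAt ℂ (b k) z) ∧
    ∀ᶠ w in 𝓝 z, (range fun k => b k w) = range fun k => r k w

namespace Cv

variable (C : Cv)

/-- The total space. -/
def S : Set Am := {p | p.1 ∈ C.Ω ∧ p.2 ∈ range fun k => C.r k p.1}

/-- An analytic local section through `p`. -/
def IsBr (p : Am) (b : B2 → ℂ) : Prop :=
  AnalyticAt ℂ b p.1 ∧ b p.1 = p.2 ∧ ∀ᶠ w in 𝓝 p.1, (w, b w) ∈ C.S

/-- The chosen local section. -/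
def br (p : Am) : B2 → ℂ := Classical.epsilon (C.IsBr p)

/-- A function read on the base along the chosen section. -/
def dn (F : Am → ℂ) (p : Am) : B2 → ℂ := fun w => F (w, C.br p w)

/-- Smooth on the cover. -/
def Sm (F : Am → ℂ) : Prop := ∀ p ∈ C.S, ContDiffAt ℝ ∞ (C.dn F p) p.1

/-- Holomorphic on the cover. -/
def Hol (F : Am → ℂ) : Prop := ∀ p ∈ C.S, AnalyticAt ℂ (C.dn F p) p.1

/-- Holomorphic derivative on the cover. -/
def D (b : Bool) (F : Am → ℂ) (p : Am) : ℂ := wd b (C.dn F p) p.1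

/-- Antiholomorphic derivative on the cover. -/
def Db (b : Bool) (F : Am → ℂ) (p : Am) : ℂ := wb b (C.dn F p) p.1

/-- Test functions over `U`. -/
def Tst (U : Set B2) (F : Am → ℂ) : Prop :=
  C.Sm F ∧ ∃ K, IsCompact K ∧ K ⊆ C.Ω ∩ U ∧ ∀ p ∈ C.S, p.1 ∉ K → F p = 0

/-- Lebesgue measure pulled back to the cover. -/
def mu : Measure Am := ∑ k, (volume.restrict C.Ω).map fun z => (z, C.r k z)

/-- The finite measure. -/
def mn (l : ℝ) : Measure Am :=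
  C.mu.withDensity fun p => ENNReal.ofReal (rho l p.1.1 * rho l p.1.2)

/-- The measure of the energy in direction `b`. -/
def mo (l : ℝ) (b : Bool) : Measure Am :=
  C.mu.withDensity fun p => ENNReal.ofReal (rho l (ot b p.1))

/-- Locally square integrable. -/
def Loc (f : Am → ℂ) : Prop :=
  AEStronglyMeasurable f C.mu ∧
    ∀ K, IsCompact K → K ⊆ C.Ω → MemLp f 2 (C.mu.restrict (Prod.fst ⁻¹' K))

/-- `h` is the weak holomorphic derivative of `f` over `U`. -/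
def WD (b : Bool) (U : Set B2) (f h : Am → ℂ) : Prop :=
  ∀ χ, C.Tst U χ → ∫ p, f p * C.D b χ p ∂C.mu = -∫ p, h p * χ p ∂C.mu

/-- `h` is the weak antiholomorphic derivative of `f` over `U`. -/
def WB (b : Bool) (U : Set B2) (f h : Am → ℂ) : Prop :=
  ∀ χ, C.Tst U χ → ∫ p, f p * C.Db b χ p ∂C.mu = -∫ p, h p * χ p ∂C.mu

/-- The pair `(f, f')` is in the closure of the real test functions with their derivatives. -/
def Mem (l : ℝ) (b : Bool) (f : Am → ℝ) (f' : Am → ℂ) : Prop :=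
  MemLp f 2 (C.mn l) ∧ MemLp f' 2 (C.mo l b) ∧ ∃ φ : ℕ → Am → ℝ, (∀ j, C.Tst univ (cx (φ j))) ∧
    Tendsto (fun j => eLpNorm (f - φ j) 2 (C.mn l)) atTop (𝓝 0) ∧
    Tendsto (fun j => eLpNorm (f' - C.D b (cx (φ j))) 2 (C.mo l b)) atTop (𝓝 0)

/-- The complexification of `Mem`. -/
def MemC (l : ℝ) (b : Bool) (f f' : Am → ℂ) : Prop :=
  ∃ f₁ f₁' f₂ f₂', C.Mem l b f₁ f₁' ∧ C.Mem l b f₂ f₂' ∧
    (∀ p, f p = f₁ p + Complex.I * f₂ p) ∧ ∀ p, f' p = f₁' p + Complex.I * f₂' p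

/-- `u` is the resolvent of `g` along the curves in direction `b`. -/
def Res (l : ℝ) (b : Bool) (g u : Am → ℝ) (u' : Am → ℂ) : Prop :=
  MemLp g 2 (C.mn l) ∧ C.Mem l b u u' ∧ ∀ ψ : Am → ℝ, C.Tst univ (cx ψ) →
    ∫ p, (u p - g p) * ψ p ∂C.mn l + ∫ p, (u' p * conj (C.D b (cx ψ) p)).re ∂C.mo l b = 0

/-- The complement of `Ω` and infinity have capacity zero. -/
def HasCut (l : ℝ) : Prop :=
  ∃ κ : ℕ → B2 → ℝ, (∀ j, Bump C.Ω (κ j) ∧ ∀ z, κ j z ∈ Icc (0 : ℝ) 1) ∧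
    (∀ K, IsCompact K → K ⊆ C.Ω → ∀ᶠ j in atTop, ∀ z ∈ K, κ j z = 1) ∧
    ∀ b, Tendsto (fun j => eLpNorm (fun p : Am => wd b (cx (κ j)) p.1) 2 (C.mo l b)) atTop (𝓝 0)

/-- Smooth bounded real functions. -/
def Bd (g : Am → ℝ) : Prop := C.Sm (cx g) ∧ ∃ M, ∀ p ∈ C.S, |g p| ≤ M

/-- Smooth, bounded, with finite energy in both directions. -/
def G0 (l : ℝ) (g : Am → ℝ) : Prop := C.Bd g ∧ ∀ b, MemLp (C.D b (cx g)) 2 (C.mo l b)

/-- On the curves in direction `b` the function `f` takes most values at most `N` times. -/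
def Cnt (b : Bool) (f : Am → ℂ) (N : ℕ) : Prop :=
  ∀ᶠ τ in cofinite, ∀ᵐ c : ℂ, {p ∈ C.S | ot b p.1 = τ ∧ f p = c}.encard ≤ N

/-- The local energy inequality with weight `θ`. -/
def KI (l : ℝ) (g u : Am → ℝ) (w : Am → ℂ) (θ : ℂ → ℝ) : Prop :=
  ∫ p, θ p.1.1 * ‖w p‖ ^ 2 ∂C.mo l true ≤
    (∫ p, θ p.1.1 * C.D true (cx g) p * conj (w p) ∂C.mo l true +
      (∫ p, wd true (fun z => θ z.1) p.1 * (g p * conj (w p) - conj (C.D true (cx g) p) * u p)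
        ∂C.mo l true) / 2).re

end Cv

/-- A lift of a motion to the cover. -/
structure Li (C : Cv) {U : Set ℂ} {a : B2 → ℂ} {e : ℂ} (m : Mo C.Ω U a e) where
  τ : ℝ → Am → Am
  maps : ∀ l ∈ Icc 0 m.l0, MapsTo (τ l) C.S C.S
  fst : ∀ l ∈ Icc 0 m.l0, ∀ p ∈ C.S, (τ l p).1 = m.Ψ l p.1
  zero : ∀ p ∈ C.S, τ 0 p = p
  cont : ContinuousOn (uncurry τ) (Icc 0 m.l0 ×ˢ C.S)
  inj : ∀ l ∈ Icc 0 m.l0, InjOn (τ l) C.S

end Pool.Agent.Lib.CLF
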