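import Pool.Agent.Lib.CLF.BDefs

/-! Blueprint of the algebraic half. -/

open MvPolynomial Filter Topology Function Module Pool.Agent.Lib.MP_08f962_ag


noncomputable section

namespace Pool.Agent.Lib.CLF

/-! ### Polynomials in two variables -/

/-- A function whose two differences are eventually polynomial is eventually polynomial. -/
def St_PSUM : Prop := ∀ (h : ℕ × ℕ → ℝ) (q₁ q₂ : MvPolynomial (Fin 2) ℝ),
  (∀ᶠ p : ℕ × ℕ in atTop, h (p.1 + 1, p.2) - h p = eval ![(p.1 : ℝ), (p.2 : ℝ)] q₁) →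
  (∀ᶠ p : ℕ × ℕ in atTop, h (p.1, p.2 + 1) - h p = eval ![(p.1 : ℝ), (p.2 : ℝ)] q₂) →
  ∃ q : MvPolynomial (Fin 2) ℝ, ∀ᶠ p : ℕ × ℕ in atTop, h p = eval ![(p.1 : ℝ), (p.2 : ℝ)] q

/-- Uniqueness and comparison of degrees. -/
structure St_PDEG : Prop where
  uniq : ∀ q q' : MvPolynomial (Fin 2) ℝ, (∀ᶠ p : ℕ × ℕ in atTop,
    eval ![(p.1 : ℝ), (p.2 : ℝ)] q = eval ![(p.1 : ℝ), (p.2 : ℝ)] q') → q = q'
  le : ∀ (q q' : MvPolynomial (Fin 2) ℝ) (k : ℕ), q'.totalDegree ≤ k → (∀ᶠ p : ℕ × ℕ in atTop,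
    0 ≤ eval ![(p.1 : ℝ), (p.2 : ℝ)] q ∧
      eval ![(p.1 : ℝ), (p.2 : ℝ)] q ≤ eval ![(p.1 : ℝ), (p.2 : ℝ)] q') → q.totalDegree ≤ k

/-- Translation of a polynomial: the two top degrees. -/
def St_PSH : Prop := ∀ (q : MvPolynomial (Fin 2) ℝ) (k : ℕ) (d e : ℝ), q.totalDegree ≤ k + 1 →
  ∃ q' : MvPolynomial (Fin 2) ℝ, q'.totalDegree ≤ k ∧
    (∀ s t : ℝ, eval ![s, t] q' = eval ![s, t] q - eval ![s - d, t - e] q) ∧
    ∀ a b, a + b = k → q'.coeff (Finsupp.single 0 a + Finsupp.single 1 b) =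
      d * (a + 1) * q.coeff (Finsupp.single 0 (a + 1) + Finsupp.single 1 b) +
      e * (b + 1) * q.coeff (Finsupp.single 0 a + Finsupp.single 1 (b + 1))

/-- Low degrees written out. -/
structure St_ASY : Prop where
  zero : ∀ {n m} {I : Ideal (S n m)} {c}, Cl I 0 c → 0 ≤ c (0, 0)
  one : ∀ {n m} {I : Ideal (S n m)} {c}, Cl I 1 c → ∃ γ : ℝ, ∀ᶠ p : ℕ × ℕ in atTop,
    (hf I p : ℝ) = c (1, 0) * p.1 + c (0, 1) * p.2 + γ
  two : ∀ {n m} {I : Ideal (S n m)} {c}, Cl I 2 c → ∃ α β γ : ℝ, ∀ᶠ p : ℕ × ℕ in atTop,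
    (hf I p : ℝ) = c (2, 0) * p.1 ^ 2 / 2 + c (1, 1) * p.1 * p.2 + c (0, 2) * p.2 ^ 2 / 2 +
      α * p.1 + β * p.2 + γ

/-! ### Hilbert polynomials -/

/-- Noetherian induction on bihomogeneous ideals. -/
def St_IND : Prop := ∀ (n m : ℕ) (Q : Ideal (S n m) → Prop), Q ⊤ →
  (∀ P : Ideal (S n m), P.IsPrime → IsBihom P → (∀ J, P < J → IsBihom J → Q J) → Q P) →
  (∀ (I J K : Ideal (S n m)) (p : ℕ × ℕ), I ≤ J → I ≤ K → IsBihom J → IsBihom K →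
    (∀ q, hf J (q + p) + hf K q = hf I (q + p)) → Q J → Q K → Q I) →
  ∀ I, IsBihom I → Q I

/-- Existence, uniqueness, irrelevant ideals. -/
structure St_HEX : Prop where
  ex : ∀ {n m} {I : Ideal (S n m)}, IsBihom I → ∃ q : MvPolynomial (Fin 2) ℝ,
    ∀ᶠ p : ℕ × ℕ in atTop, (hf I p : ℝ) = eval ![(p.1 : ℝ), (p.2 : ℝ)] q
  uniq : ∀ {n m} {I : Ideal (S n m)} {k c c'}, Cl I k c → Cl I k c' → c = c'
  zero : ∀ {n m} {I : Ideal (S n m)} {k c}, Cl I k c →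
    (∀ i, X (Sum.inl i) ∈ I) ∨ (∀ j, X (Sum.inr j) ∈ I) → c = 0

/-- Decomposition into primes. -/
def St_DEC : Prop := ∀ (n m : ℕ) (I : Ideal (S n m)) k c, IsBihom I → Cl I k c → c ∈ Cn I k

/-- Cutting a subvariety. -/
def St_CUTP : Prop := ∀ (n m : ℕ) (P : Ideal (S n m)) (f : S n m) (d e k : ℕ) c, P.IsPrime →
  IsBihom P → f ∈ Forms n m (d, e) → f ∉ P → Cl P (k + 1) c → sh d e c ∈ Cn (P ⊔ Ideal.span {f}) k

/-- Hyperplane sections, positivity, support. -/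
structure St_CONE : Prop where
  cut : ∀ {n m} {J : Ideal (S n m)} {k c}, c ∈ Cn J (k + 1) → sh 1 0 c ∈ Cn J k ∧ sh 0 1 c ∈ Cn J k
  pos : ∀ {n m} {J : Ideal (S n m)} {k c}, c ∈ Cn J k → ∀ p, 0 ≤ c p
  deg : ∀ {n m} {J : Ideal (S n m)} {k c}, c ∈ Cn J k → ∀ a b, c (a, b) ≠ 0 → a + b = k
  surf : ∀ {n m} {J : Ideal (S n m)} {x y z : ℝ}, (∀ (P : Ideal (S n m)) c, P.IsPrime → IsBihom P →
    J ≤ P → Cl P 2 c → x * c (1, 1) ≤ y * c (2, 0) + z * c (0, 2)) → ∀ k, ∀ c ∈ Cn J k, ∀ a b,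
      x * c (a + 1, b + 1) ≤ y * c (a + 2, b) + z * c (a, b + 2)

/-- Exchange of the factors. -/
structure St_SW : Prop where
  cn : ∀ {n m} {F : S n m} {k c}, c ∈ Cn (Ideal.span {F}) k →
    (fun p => c p.swap) ∈ Cn (Ideal.span {sw F}) k
  pull : ∀ {n m} φ ψ (G : S n m), sw (pull φ ψ G) = pull ψ φ (sw G)
  form : ∀ {n m} {G : S n m} {u v}, G ∈ Forms n m (u, v) → sw G ∈ Forms m n (v, u)
  pt : ∀ {n m} (G : S n m) {L : Type} [CommRing L] [Algebra ℂ L] (x : Fin (n + 1) → L) y,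
    pt y x (sw G) = pt x y G

/-- Support in the first variable. -/
def St_SUP : Prop := ∀ (n m : ℕ) (J : Ideal (S n m)) k, ∀ c ∈ Cn J k, ∀ a b, c (a, b) ≠ 0 → a ≤ n

/-- The class of the whole space. -/
def St_BOT : Prop := ∀ n m : ℕ, Cl (⊥ : Ideal (S n m)) (n + m) (Pi.single (n, m) 1)

/-- The inner bound. -/
def St_INN : Prop := ∀ (n m d e k : ℕ) (F : S n m), 1 ≤ n → F ∈ Forms n m (d, e) → F ≠ 0 →
  restr n m d e k ⊆ effCone F k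

/-- The outer cone is comparable with the restricted cone. -/
def St_OUT : Prop := ∀ (n m d e k : ℕ) (K : ℝ), 1 ≤ n → 1 ≤ m → 1 ≤ d → 1 ≤ e → 1 ≤ K →
  ∀ c ∈ Out n m d e k K, ∃ c' ∈ restr n m d e k, ∀ p, c p ≤ 2 * K * c' p ∧ c' p ≤ 2 * K * c p

/-- The outer cone is a closed convex cone, monotone in the data. -/
structure St_OC : Prop where
  eff : ∀ {n m} {F : S n m} {d e K : ℝ} {k}, (∀ (P : Ideal (S n m)) c, P.IsPrime → IsBihom P →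
    F ∈ P → Cl P k c → c ∈ Out n m d e k K) → effCone F k ⊆ Out n m d e k K
  cn : ∀ {n m} {J : Ideal (S n m)} {d e K : ℝ} {k}, (∀ (P : Ideal (S n m)) c, P.IsPrime →
    IsBihom P → J ≤ P → Cl P k c → c ∈ Out n m d e k K) → ∀ c ∈ Cn J k, c ∈ Out n m d e k K
  mono : ∀ {n m k} {p q d e K K' M : ℝ}, 0 ≤ p → 0 ≤ q → p ≤ d → q ≤ e → d ≤ M * p → e ≤ M * q →
    1 ≤ M → 0 ≤ K → M ^ 2 * K ≤ K' → Out n m p q k K ⊆ Out n m d e k K'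

/-- Balanced splitting of the degree. -/
def St_ARI : Prop := ∀ δ : ℕ, 1 ≤ δ → ∃ M : ℕ, 1 ≤ M ∧ ∀ d, 2 * δ ≤ d → ∃ p u : Bool → ℕ,
  d = p true * u true + p false * u false ∧ ∀ b, δ ≤ u b ∧ u b ≤ M ∧ 1 ≤ p b ∧ d ≤ M * p b

/-! ### The special hypersurface -/

/-- The root powering forms. -/
def St_GRF : Prop := ∀ n p : ℕ, 1 ≤ p → ∃ φ : Fin (n + 1) → MvPolynomial (Fin (n + 1)) ℂ, IsGr p φ

/-- Pullbacks. -/
structure St_PULL : Prop where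
  form : ∀ {n m p q u v φ ψ} {G : S n m}, (∀ i, (φ i).IsHomogeneous p) →
    (∀ j, (ψ j).IsHomogeneous q) → G ∈ Forms n m (u, v) → pull φ ψ G ∈ Forms n m (p * u, q * v)
  root : ∀ {n m p q u v φ ψ} {G : S n m} {L : Type} [Field L] [Algebra ℂ L] {n' m' : ℕ}
    (ξ : Fin n' → L) (η : Fin m' → L), IsGr p φ → IsGr q ψ → G ∈ Forms n m (u, v) → n' ≤ n →
    m' ≤ m → pt (cf n ξ) (cf m η) (pull φ ψ G) = 0 →
    pt (cf n fun i => ξ i ^ p) (cf m fun j => η j ^ q) G = 0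
  val : ∀ {n m φ ψ} (G : S n m) {L : Type} [CommRing L] [Algebra ℂ L] (x : Fin (n + 1) → L) y,
    pt x y (pull φ ψ G) = pt (fun i => aeval x (φ i)) (fun j => aeval y (ψ j)) G
  scale : ∀ {n m u v} {G : S n m} {L : Type} [CommRing L] [Algebra ℂ L] (x : Fin (n + 1) → L)
    (y : Fin (m + 1) → L) (a b : L), G ∈ Forms n m (u, v) →
    pt (a • x) (b • y) G = a ^ u * b ^ v * pt x y G

/-- Independent linear conditions lower the transcendence degree. -/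
def St_TRD : Prop := ∀ (L ι κ : Type) [Field L] [CharZero L] [Fintype ι] [Fintype κ] (T : Finset L)
  (g : ι → L) (A : κ → ι → L), AlgebraicIndependent ℚ g →
  (∀ k i, A k i ∈ Subfield.closure (T : Set L)) → LinearIndependent L A →
  (∀ k, ∑ i, A k i * g i = 0) → Fintype.card κ ≤ T.card

/-- Grids impose independent conditions. -/
def St_GRID : Prop := ∀ (n m u v P Q : ℕ) (G : S n m) (L : Type) [Field L] [Algebra ℂ L]
  (T : Finset L) (X : Fin P → Fin (n + 1) → L) (Y : Fin Q → Fin (m + 1) → L),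
  G ∈ Forms n m (u, v) → (AlgebraicIndependent ℚ
    fun α : {α // Finsupp.weight (wt n m) α = (u, v)} => G.coeff α.1) → P ≤ u + 1 → Q ≤ v + 1 →
  PD X → PD Y → (∀ k i, X k i ∈ Subfield.closure (T : Set L)) →
  (∀ l j, Y l j ∈ Subfield.closure (T : Set L)) → (∀ k l, pt (X k) (Y l) G = 0) → P * Q ≤ T.card

/-- Good forms exist. -/
def St_NG : Prop := ∀ n m u v : ℕ, 1 ≤ n → 1 ≤ m → n + m ≤ u → n + m ≤ v →
  ∃ G : S n m, Good G u v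

/-! ### Field models -/

/-- The field of roots. -/
def St_RT : Prop := ∀ (n m : ℕ) (P : Ideal (S n m)), P.IsPrime → IsBihom P →
  (∃ i, X (Sum.inl i) ∉ P) → (∃ j, X (Sum.inr j) ∉ P) →
  ∃ (L : Type) (_ : Field L) (_ : Algebra ℂ L) (n' m' : ℕ) (ξ : Fin n' → L) (η : Fin m' → L),
    IsRt P ξ η

/-- The Hilbert function in the field. -/
structure St_HV : Prop where
  eq : ∀ {n m} {P : Ideal (S n m)} {L : Type} [Field L] [Algebra ℂ L] (x : Fin (n + 1) → L) y p,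
    (∀ f ∈ Forms n m p, f ∈ P ↔ pt x y f = 0) → hf P p = finrank ℂ (VV x y p)
  pow : ∀ {n m} {L : Type} [Field L] [Algebra ℂ L] (x : Fin (n + 1) → L) (y : Fin (m + 1) → L) s t,
    VV x y (s, t) = Submodule.span ℂ (Set.range x) ^ s * Submodule.span ℂ (Set.range y) ^ t
  fin : ∀ {n m} {L : Type} [Field L] [Algebra ℂ L] (x : Fin (n + 1) → L) (y : Fin (m + 1) → L) p,
    FiniteDimensional ℂ (VV x y p)

/-- Comparison of the coefficients with the roots. -/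
structure St_INC : Prop where
  le : ∀ {n m n' m' : ℕ} {L : Type} [Field L] [Algebra ℂ L] (ξ : Fin n' → L) (η : Fin m' → L) s t,
    VV (cf n ξ) (cf m η) (s, t) ≤ Us ℂ (Sum.elim ξ η) (Sum.elim (fun _ => s) fun _ => t)
  ge : ∀ {n m n' m' : ℕ} {L : Type} [Field L] [Algebra ℂ L] (ξ : Fin n' → L) (η : Fin m' → L) s t,
    n' ≤ n → m' ≤ m → finrank ℂ (Us ℂ (Sum.elim ξ η) (Sum.elim (fun _ => s) fun _ => t)) ≤
      (n + 1) ^ n * (m + 1) ^ m * finrank ℂ (VV (cf n ξ) (cf m η) (n * s, m * t))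

/-- Lower bound for the number of monomials. -/
def St_LOW : Prop := ∀ (L ι : Type) [Field L] [Algebra ℂ L] [Fintype ι] (z : ι → L) (i j : ι)
  (R : ℕ), IntermediateField.adjoin ℂ (Set.range z) = ⊤ → AlgebraicIndependent ℂ ![z i, z j] →
  (R : Cardinal) ≤ Module.rank (IntermediateField.adjoin ℂ {z i, z j}) L →
  ∃ c : ℕ, ∀ a : ι → ℕ, (∀ k, c ≤ a k) → R * (a i - c) * (a j - c) ≤ finrank ℂ (Us ℂ z a)

/-- Uniform injectivity of multiplication by one variable. -/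
def St_STA0 : Prop := ∀ (k L ι : Type) [Field k] [Field L] [Algebra k L] [Fintype ι]
  [DecidableEq ι] (z : ι → L) (i : ι), ∃ N : ℕ, ∀ a : ι → ℕ, N ≤ a i →
    ∀ v ∈ Us k z (a + Pi.single i 1), z i * v ∈ Us k z (a + Pi.single i 1) → v ∈ Us k z a

/-- The slope in one variable. -/
def St_STA : Prop := ∀ (k L ι : Type) [Field k] [Field L] [Algebra k L] [Fintype ι]
  [DecidableEq ι] (z : ι → L) (i : ι), ∃ N : ℕ, ∀ a : ι → ℕ, N ≤ a i →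
    (IsAlgebraic k (z i) → finrank k (Us k z (a + Pi.single i 1)) ≤ finrank k (Us k z a)) ∧
    finrank k (Us k z (a + Pi.single i 1)) ≤
      finrank k (Us k z a) + finrank (IntermediateField.adjoin k {z i})
        (Us (IntermediateField.adjoin k {z i}) z a)

/-- Upper bound for the number of monomials. -/
def St_LU : Prop := ∀ (L ι : Type) [Field L] [Algebra ℂ L] [Fintype ι] (z : ι → L),
  (∀ i j, Fd (z i) (z j)) → ∃ c : ℝ, ∀ a : ι → ℕ, (finrank ℂ (Us ℂ z a) : ℝ) ≤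
    c * (1 + ∑ i, a i) + ∑ i, ∑ j, (dg (z i) (z j) : ℝ) * a i * a j

/-- Degrees of pairs of roots are bounded by the class. -/
def St_B1 : Prop := ∀ n m : ℕ, 1 ≤ n → 1 ≤ m → ∃ K : ℝ, 0 ≤ K ∧ ∀ (P : Ideal (S n m)) c (L : Type)
  [Field L] [Algebra ℂ L] (n' m' : ℕ) (ξ : Fin n' → L) (η : Fin m' → L), IsRt P ξ η → Cl P 2 c →
  (∀ p, 0 ≤ c p) → (∀ i j, Fd (Sum.elim ξ η i) (Sum.elim ξ η j)) ∧
    (∀ i j, (dg (ξ i) (ξ j) : ℝ) ≤ K * c (2, 0)) ∧ ∀ i j, (dg (η i) (η j) : ℝ) ≤ K * c (0, 2)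

/-- The mixed degree is bounded by degrees of pairs of roots. -/
def St_B2 : Prop := ∀ (n m : ℕ) (P : Ideal (S n m)) c (L : Type) [Field L] [Algebra ℂ L]
  (n' m' : ℕ) (ξ : Fin n' → L) (η : Fin m' → L) (p q : ℕ), 1 ≤ p → 1 ≤ q → IsRt P ξ η → Cl P 2 c →
  (∀ p, 0 ≤ c p) → (∀ i j, Fd (Sum.elim ξ η i) (Sum.elim ξ η j)) →
  p * q * c (1, 1) ≤ p ^ 2 * ∑ i, ∑ j, (dg (ξ i) (ξ j) : ℝ) +
    2 * p * q * ∑ i, ∑ j, (dg (ξ i) (η j) : ℝ) + q ^ 2 * ∑ i, ∑ j, (dg (η i) (η j) : ℝ)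

/-- Degrees of powers. -/
def St_POW : Prop := ∀ (L : Type) [Field L] [Algebra ℂ L] (a b : L) (p q : ℕ), 1 ≤ p → 1 ≤ q →
  Fd a b → Fd (a ^ p) (b ^ q) ∧ dg (a ^ p) (b ^ q) = p * q * dg a b

/-- In a surface every independent pair has finite degree. -/
def St_FIN : Prop := ∀ (L : Type) [Field L] [Algebra ℂ L] (t s a b : L),
  FiniteDimensional (IntermediateField.adjoin ℂ {t, s}) L → Fd a b

/-! ### From the field to the cover -/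

/-- Simple roots move analytically. -/
def St_RT0 : Prop := ∀ (X : Type) [NormedAddCommGroup X] [NormedSpace ℂ X] [CompleteSpace X]
  (N : ℕ) (p : X → Polynomial ℂ) (z : X) (r : Fin N → ℂ), (∀ w, (p w).natDegree ≤ N) →
  (∀ j, AnalyticAt ℂ (fun w => (p w).coeff j) z) → (p z).coeff N ≠ 0 → Injective r →
  (∀ k, (p z).eval (r k) = 0) → ∃ b : Fin N → X → ℂ, (∀ k, AnalyticAt ℂ (b k) z ∧ b k z = r k) ∧
    ∀ᶠ w in 𝓝 z, (Injective fun k => b k w) ∧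
      ∀ x, (p w).eval x = 0 ↔ x ∈ Set.range fun k => b k w

/-- Measurable numbering of the sheets. -/
def St_ENUM : Prop := ∀ (Ω : Set B2) (N : ℕ) (R : B2 → Set ℂ), IsOpen Ω →
  (∀ z ∈ Ω, ∃ b : Fin N → B2 → ℂ, (∀ k, AnalyticAt ℂ (b k) z) ∧ ∀ᶠ w in 𝓝 z,
    (Injective fun k => b k w) ∧ (Set.range fun k => b k w) = R w) →
  ∃ C : Cv, C.Ω = Ω ∧ C.β = N ∧ C.S = {p | p.1 ∈ Ω ∧ p.2 ∈ R p.1}

/-- The cover defined by a monic polynomial. -/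
def St_CV : Prop := ∀ (P a b : Polynomial (MvPolynomial (Fin 2) ℂ))
  (δ₀ δ : MvPolynomial (Fin 2) ℂ), P.Monic → a * P + b * P.derivative = Polynomial.C δ₀ → δ₀ ∣ δ →
  ∃ C : Cv, C.Ω = zs δ ∧ C.β = P.natDegree ∧
    C.S = {p | p.1 ∈ zs δ ∧ ev3 p.1.1 p.1.2 p.2 P = 0} ∧
    ∀ (h : Polynomial (MvPolynomial (Fin 2) ℂ)) (k : ℕ),
      C.Hol fun p => ev3 p.1.1 p.1.2 p.2 h / eval ![p.1.1, p.1.2] δ ^ k

/-- Removing the bad fibres. -/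
def St_MOT : Prop := ∀ δ₀ : MvPolynomial (Fin 2) ℂ, δ₀ ≠ 0 → ∃ δ, δ ≠ 0 ∧ δ₀ ∣ δ ∧ Mot (zs δ)

/-- An integral primitive element. -/
def St_PRIM : Prop := ∀ (L : Type) [Field L] [Algebra ℂ L] (t s : L),
  AlgebraicIndependent ℂ ![t, s] → FiniteDimensional (IntermediateField.adjoin ℂ {t, s}) L →
  ∃ (θ : L) (P a b : Polynomial (MvPolynomial (Fin 2) ℂ)) (δ₀ : MvPolynomial (Fin 2) ℂ),
    P.Monic ∧ P.natDegree = finrank (IntermediateField.adjoin ℂ {t, s}) L ∧ δ₀ ≠ 0 ∧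
    a * P + b * P.derivative = Polynomial.C δ₀ ∧ (∀ h, ev3 t s θ h = 0 ↔ P ∣ h) ∧
    ∀ w : L, ∃ h, ∃ δ : MvPolynomial (Fin 2) ℂ, δ ≠ 0 ∧ w * aeval ![t, s] δ = ev3 t s θ h

/-- The cover attached to a finite extension. -/
def St_ALG : Prop := ∀ (L ι : Type) [Field L] [Algebra ℂ L] [Fintype ι] (t s : L) (z : ι → L),
  AlgebraicIndependent ℂ ![t, s] → FiniteDimensional (IntermediateField.adjoin ℂ {t, s}) L →
  ∃ (C : Cv) (δ : MvPolynomial (Fin 2) ℂ) (A : Subalgebra ℂ L) (ht : t ∈ A) (hs : s ∈ A)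
    (hz : ∀ i, z i ∈ A) (χ : C.S → A →ₐ[ℂ] ℂ) (F : ι → Am → ℂ), δ ≠ 0 ∧ C.Ω = zs δ ∧ Mot C.Ω ∧
    C.β = finrank (IntermediateField.adjoin ℂ {t, s}) L ∧ A.FG ∧
    (∀ w : L, ∃ a ∈ A, ∃ b ∈ A, b ≠ 0 ∧ w * b = a) ∧ Injective χ ∧
    (∀ p : C.S, χ p ⟨t, ht⟩ = p.1.1.1 ∧ χ p ⟨s, hs⟩ = p.1.1.2 ∧ ∀ i, χ p ⟨z i, hz i⟩ = F i p) ∧
    ∀ i, C.Hol (F i)

/-- Counting points in the fibres of a pair of functions. -/
def St_CNT : Prop := ∀ (L : Type) [Field L] [Algebra ℂ L] (A : Subalgebra ℂ L) (a c : A), A.FG →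
  (∀ w : L, ∃ a ∈ A, ∃ b ∈ A, b ≠ 0 ∧ w * b = a) → Transcendental ℂ (a : L) → Fd (a : L) c →
  ∀ᶠ τ in cofinite, ∀ᶠ γ in cofinite,
    {χ : A →ₐ[ℂ] ℂ | χ a = τ ∧ χ c = γ}.encard ≤ dg (a : L) c

/-- The normalised square of the modulus is a separated kernel. -/
def St_WDEC : Prop := ∀ (n m u v : ℕ) (G : S n m), G ∈ Forms n m (u, v) →
  ∃ (r : ℕ) (f : Fin r → (Fin (n + 1) → ℂ) → ℝ) (g : Fin r → (Fin (m + 1) → ℂ) → ℝ),
    (∀ k, Reg (f k) ∧ Reg (g k)) ∧ ∀ x y, x ≠ 0 → y ≠ 0 → 0 ≤ ∑ k, f k x * g k y ∧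
      (∑ k, f k x * g k y = 0 ↔ pt x y G = 0)

/-- Many slabs contain many distinct points. -/
def St_HYP : Prop := ∀ (n u N : ℕ) (X : Fin (N + 1) → Fin (n + 1) → ℂ), n * u ≤ N →
  (∀ i : Fin (N + 1), X i ∈ Slab n i) → ∃ σ : Fin (u + 1) → Fin (N + 1), PD fun k => X (σ k)

/-- Compactness. -/
def St_SEP : Prop := ∀ (n m u v : ℕ) (G : S n m), G ∈ Forms n m (u, v) → NG1 G u v →
  ∃ (r N : ℕ) (ε : ℝ) (f : Fin r → (Fin (n + 1) → ℂ) → ℝ) (g : Fin r → (Fin (m + 1) → ℂ) → ℝ),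
    Sep N ε f g ∧ ∀ x y, x ≠ 0 → y ≠ 0 → pt x y G = 0 → ∑ k, f k x * g k y = 0

/-- The analytic theorem for fields. -/
def St_AN : Prop := ∀ (n m u v : ℕ) (G : S n m), G ∈ Forms n m (u, v) → NG1 G u v →
  ∃ K : ℝ, 0 ≤ K ∧ ∀ (L : Type) [Field L] [Algebra ℂ L] (n' m' : ℕ) (ξ : Fin n' → L)
    (η : Fin m' → L) (i : Fin n') (j : Fin m'), n' ≤ n → m' ≤ m → Fd (ξ i) (η j) →
    pt (cf n ξ) (cf m η) G = 0 →
    (dg (ξ i) (η j) : ℝ) ≤ K * (∑ i', (dg (ξ i) (ξ i') : ℝ) + ∑ j', (dg (η j) (η j') : ℝ))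

/-! ### The inequalities on the special hypersurface -/

/-- Surfaces. -/
def St_SURF : Prop := ∀ (n m u v : ℕ) (G : S n m), 1 ≤ n → 1 ≤ m → G ∈ Forms n m (u, v) →
  NG1 G u v → ∃ K : ℝ, 0 ≤ K ∧ ∀ (p q : ℕ) φ ψ (P : Ideal (S n m)) c, 1 ≤ p → 1 ≤ q → IsGr p φ →
    IsGr q ψ → P.IsPrime → IsBihom P → pull φ ψ G ∈ P → Cl P 2 c →
    p * q * c (1, 1) ≤ K * p ^ 2 * c (2, 0) + K * q ^ 2 * c (0, 2)

/-- A height inequality. -/
def St_END0 : Prop := ∀ (L : Type) [Field L] [Algebra ℂ L] (τ : L) (Y : Submodule ℂ L)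
  (A : Polynomial L) (p w : ℕ) (α β γ : ℝ), FiniteDimensional ℂ Y → 1 ∈ Y → 1 ≤ p → A ≠ 0 →
  (∀ j, A.coeff j ∈ Y ^ w) → A.eval (τ ^ p) = 0 → (∀ᶠ x : ℕ × ℕ in atTop,
    (finrank ℂ (Submodule.span ℂ {1, τ} ^ x.1 * Y ^ x.2 : Submodule ℂ L) : ℝ) =
      α * x.1 + β * x.2 + γ) → p * α ≤ w * β

/-- Curves over a line. -/
def St_END1 : Prop := ∀ (n m u v p q k : ℕ) (G : S n m) φ ψ (P : Ideal (S n m)) c (x : Fin k → ℂ),
  k + 1 = n → 1 ≤ p → G ∈ Forms n m (u, v) → NG2 G u → IsGr p φ → IsGr q ψ → P.IsPrime →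
  IsBihom P → pull φ ψ G ∈ P → Injective x → (∀ i, osc n m (x i) ∈ P) → Cl P 1 c →
  p * c (1, 0) ≤ v * (q * c (0, 1))

/-- The end inequality. -/
def St_END : Prop := ∀ (n m u v p q : ℕ) (G : S n m) φ ψ, 1 ≤ n → 1 ≤ p → G ∈ Forms n m (u, v) →
  NG2 G u → IsGr p φ → IsGr q ψ → ∀ c ∈ Cn (Ideal.span {pull φ ψ G}) n,
    p * c (n, 0) ≤ v * (q * c (n - 1, 1))

/-- The outer bound on the special hypersurface. -/
def St_OUTP : Prop := ∀ (n m u v : ℕ) (G : S n m), 1 ≤ n → 1 ≤ m → Good G u v → ∃ K : ℝ, 0 ≤ K ∧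
  ∀ (p q k : ℕ) φ ψ (P : Ideal (S n m)) c, 1 ≤ p → 1 ≤ q → IsGr p φ → IsGr q ψ → P.IsPrime →
    IsBihom P → pull φ ψ G ∈ P → Cl P k c → c ∈ Out n m p q k K

/-- The special member. -/
def St_SPE : Prop := ∀ n m : ℕ, 1 ≤ n → 1 ≤ m → ∃ K : ℝ, 1 ≤ K ∧ ∀ d e : ℕ, 2 * (n + m) ≤ d →
  2 * (n + m) ≤ e → ∃ F₀ ∈ Forms n m (d, e), ∀ (P : Ideal (S n m)) k c, P.IsPrime → IsBihom P →
    F₀ ∈ P → Cl P k c → c ∈ Out n m d e k K

/-- The theorem. -/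
def St_MAIN : Prop := ∀ n m : ℕ, 1 ≤ n → 1 ≤ m → ∃ K : ℝ, ∀ d e : ℕ, 2 * (n + m) ≤ d →
  2 * (n + m) ≤ e → VeryGeneral (n := n) (m := m) (d, e) fun F => ∀ k,
    restr n m d e k ⊆ effCone F k ∧ ∀ c ∈ effCone F k, ∃ c' ∈ restr n m d e k,
      ∀ p, c p ≤ K * c' p ∧ c' p ≤ K * c p

end Pool.Agent.Lib.CLF
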