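import Pool.Agent.Lib.MP_08f962_ag.Defs

namespace Pool.Agent.Lib.CLF

/-- The cone spanned by the classes of the intersections of a hypersurface of bidegree `(d, e)`
with the products of an `a`-plane and a `b`-plane, `a + b = k + 1`. -/
def restr (n m d e k : ℕ) : Set (ℕ × ℕ → ℝ) :=
  {c | ∃ w : ℕ × ℕ → ℝ, (∀ p, 0 ≤ w p) ∧
    (∀ a b, w (a, b) ≠ 0 → a + b = k + 1 ∧ a ≤ n ∧ b ≤ m) ∧
    ∀ a b, c (a, b) = d * w (a + 1, b) + e * w (a, b + 1)}

end Pool.Agent.Lib.CLF
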