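import Pool.Agent.Lib.MP_08f962_ag.HF1
import Pool.Agent.Lib.CLF.SDefs
import Pool.Agent.Lib.CLF.ADefs

/-! Definitions for the algebraic half. -/

open MvPolynomial Filter Pool.Agent.Lib.MP_08f962_ag


noncomputable section

namespace Pool.Agent.Lib.CLF

variable {n m : ℕ}

/-- The Hilbert polynomial has degree at most `k`, with normalised coefficients `c` in degree
`k`. -/
def Cl (I : Ideal (S n m)) (k : ℕ) (c : ℕ × ℕ → ℝ) : Prop :=
  ∃ q : MvPolynomial (Fin 2) ℝ, q.totalDegree ≤ k ∧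
    (∀ᶠ p : ℕ × ℕ in atTop, (hf I p : ℝ) = eval ![(p.1 : ℝ), (p.2 : ℝ)] q) ∧
    ∀ a b, c (a, b) = if a + b = k then
      (a.factorial * b.factorial : ℕ) * q.coeff (Finsupp.single 0 a + Finsupp.single 1 b) else 0

/-- Sums of classes of subvarieties of the zero set of `J`. -/
def Cn (J : Ideal (S n m)) (k : ℕ) : AddSubmonoid (ℕ × ℕ → ℝ) :=
  AddSubmonoid.closure {c | ∃ P : Ideal (S n m), P.IsPrime ∧ IsBihom P ∧ J ≤ P ∧ Cl P k c}

/-- Intersection with a divisor of bidegree `(d, e)`. -/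
def sh (d e : ℝ) (c : ℕ × ℕ → ℝ) : ℕ × ℕ → ℝ :=
  fun p => d * c (p.1 + 1, p.2) + e * c (p.1, p.2 + 1)

/-- The outer cone. -/
def Out (n m : ℕ) (d e : ℝ) (k : ℕ) (K : ℝ) : Set (ℕ × ℕ → ℝ) :=
  {c | (∀ p, 0 ≤ c p) ∧ (∀ a b, c (a, b) ≠ 0 → a + b = k ∧ a ≤ n ∧ b ≤ m) ∧
    (∀ a b, d * e * c (a + 1, b + 1) ≤ K * (d ^ 2 * c (a + 2, b) + e ^ 2 * c (a, b + 2))) ∧
    (k = n → d * c (n, 0) ≤ K * (e * c (n - 1, 1))) ∧
    (k = m → e * c (0, m) ≤ K * (d * c (1, m - 1)))}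

/-- Evaluation at a point. -/
def pt {L : Type} [CommRing L] [Algebra ℂ L] (x : Fin (n + 1) → L) (y : Fin (m + 1) → L) :
    S n m →ₐ[ℂ] L := aeval (Sum.elim x y)

/-- The values of the forms of bidegree `p`. -/
def VV {L : Type} [CommRing L] [Algebra ℂ L] (x : Fin (n + 1) → L) (y : Fin (m + 1) → L)
    (p : ℕ × ℕ) : Submodule ℂ L := (Forms n m p).map (pt x y).toLinearMap

/-- Pullback by a product of maps. -/
def pull (φ : Fin (n + 1) → MvPolynomial (Fin (n + 1)) ℂ)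
    (ψ : Fin (m + 1) → MvPolynomial (Fin (m + 1)) ℂ) : S n m →ₐ[ℂ] S n m :=
  aeval (Sum.elim (fun i => rename Sum.inl (φ i)) fun j => rename Sum.inr (ψ j))

/-- Exchange of the two factors. -/
def sw : S n m →ₐ[ℂ] S m n := rename Sum.swap

/-- The linear form that evaluates a polynomial at `c`. -/
def osc (n m : ℕ) (c : ℂ) : S n m := ∑ r : Fin (n + 1), C (c ^ (r : ℕ)) * X (Sum.inl r)

/-- Forms of degree `p` that raise the roots to the power `p`. -/
def IsGr (p : ℕ) (φ : Fin (n + 1) → MvPolynomial (Fin (n + 1)) ℂ) : Prop :=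
  (∀ i, (φ i).IsHomogeneous p) ∧ ∀ (L : Type) [Field L] [Algebra ℂ L] (k : ℕ) (ξ : Fin k → L),
    k ≤ n → ∃ ε : L, ε ≠ 0 ∧ ∀ i, aeval (cf n ξ) (φ i) = ε * cf n (fun j => ξ j ^ p) i

/-- Distinct points of projective space. -/
def PD {L ι : Type} [Field L] (X : ι → Fin (n + 1) → L) : Prop :=
  (∀ k, X k ≠ 0) ∧ ∀ k l (c : L), X k = c • X l → k = l

/-- No large grid. -/
def NG1 (G : S n m) (u v : ℕ) : Prop :=
  ∀ (X : Fin (u + 1) → Fin (n + 1) → ℂ) (Y : Fin (v + 1) → Fin (m + 1) → ℂ), PD X → PD Y →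
    ∃ k l, pt (X k) (Y l) G ≠ 0

/-- No horizontal line. -/
def NG2 (G : S n m) (u : ℕ) : Prop :=
  ∀ (L : Type) [Field L] [Algebra ℂ L] (k : ℕ) (c : Fin k → L) (y : Fin (m + 1) → L), k + 1 = n →
    y ≠ 0 → ∃ τ : Fin (u + 1), pt (cf n (Fin.cons ((τ : ℕ) : L) c : Fin (k + 1) → L)) y G ≠ 0

/-- A good form. -/
def Good (G : S n m) (u v : ℕ) : Prop :=
  G ∈ Forms n m (u, v) ∧ NG1 G u v ∧ NG2 G u ∧ NG2 (sw G) v

/-- The degree of `L` over the field generated by two independent elements. -/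
def dg {L : Type} [Field L] [Algebra ℂ L] (a b : L) : ℕ :=
  open Classical in if AlgebraicIndependent ℂ ![a, b] then
    Module.finrank (IntermediateField.adjoin ℂ {a, b}) L else 0

/-- Independent pairs have finite degree. -/
def Fd {L : Type} [Field L] [Algebra ℂ L] (a b : L) : Prop :=
  AlgebraicIndependent ℂ ![a, b] → FiniteDimensional (IntermediateField.adjoin ℂ {a, b}) L

/-- Monomials with bounded exponents. -/
def Us (k : Type) {L ι : Type} [Field k] [Field L] [Algebra k L] [Fintype ι] (z : ι → L)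
    (a : ι → ℕ) : Submodule k L := Submodule.span k {w | ∃ e ≤ a, w = ∏ i, z i ^ e i}

/-- The generic point of `P` in terms of roots. -/
def IsRt (P : Ideal (S n m)) {L : Type} [Field L] [Algebra ℂ L] {n' m' : ℕ} (ξ : Fin n' → L)
    (η : Fin m' → L) : Prop :=
  n' ≤ n ∧ m' ≤ m ∧ (∀ p, ∀ f ∈ Forms n m p, f ∈ P ↔ pt (cf n ξ) (cf m η) f = 0) ∧
    IntermediateField.adjoin ℂ (Set.range (Sum.elim ξ η)) = ⊤

/-- Evaluation of a polynomial in three variables. -/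
def ev3 {L : Type} [CommRing L] [Algebra ℂ L] (t s θ : L)
    (h : Polynomial (MvPolynomial (Fin 2) ℂ)) : L :=
  h.eval₂ (aeval ![t, s] : MvPolynomial (Fin 2) ℂ →ₐ[ℂ] L).toRingHom θ

end Pool.Agent.Lib.CLF
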