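import Pool.Agent.Lib.CLF.BBlue

/-! The cover attached to a finite extension. -/

open Function Module

noncomputable section

namespace Pool.Agent.Lib.CLF

namespace ALG

abbrev R2 : Type := MvPolynomial (Fin 2) ℂ

/-- Evaluation in three variables as a map of algebras. -/
def E {K : Type} [CommRing K] [Algebra ℂ K] (t s θ : K) : Polynomial R2 →ₐ[ℂ] K :=
  Polynomial.aevalTower (MvPolynomial.aeval ![t, s]) θ

theorem ev3_eq {K : Type} [CommRing K] [Algebra ℂ K] (t s θ : K) (h : Polynomial R2) :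
    ev3 t s θ h = E t s θ h := rfl

theorem E_C {K : Type} [CommRing K] [Algebra ℂ K] (t s θ : K) (d : R2) :
    E t s θ (Polynomial.C d) = MvPolynomial.aeval ![t, s] d := by
  simp [E]

theorem E_X {K : Type} [CommRing K] [Algebra ℂ K] (t s θ : K) :
    E t s θ Polynomial.X = θ := by
  simp [E]

/-- Evaluation in four variables, the last one sent to the inverse of `δ`. -/
def G {K : Type} [Field K] [Algebra ℂ K] (δ : R2) (t s θ : K) :
    Polynomial (Polynomial R2) →ₐ[ℂ] K :=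
  Polynomial.aevalTower (E t s θ) (MvPolynomial.aeval ![t, s] δ)⁻¹

theorem G_C {K : Type} [Field K] [Algebra ℂ K] (δ : R2) (t s θ : K) (h : Polynomial R2) :
    G δ t s θ (Polynomial.C h) = E t s θ h := by
  simp [G]

theorem G_X {K : Type} [Field K] [Algebra ℂ K] (δ : R2) (t s θ : K) :
    G δ t s θ Polynomial.X = (MvPolynomial.aeval ![t, s] δ)⁻¹ := by
  simp [G]

theorem clear (δ : R2) (H : Polynomial (Polynomial R2)) : ∃ (h : Polynomial R2) (k : ℕ),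
    ∀ (K : Type) [Field K] [Algebra ℂ K] (t s θ : K), MvPolynomial.aeval ![t, s] δ ≠ 0 →
      G δ t s θ H * (MvPolynomial.aeval ![t, s] δ) ^ k = E t s θ h := by
  induction H using Polynomial.induction_on' with
  | add p q hp hq =>
    obtain ⟨h1, k1, e1⟩ := hp
    obtain ⟨h2, k2, e2⟩ := hq
    refine ⟨h1 * Polynomial.C δ ^ k2 + h2 * Polynomial.C δ ^ k1, k1 + k2, ?_⟩
    intro K _ _ t s θ hδ
    rw [map_add, map_add, map_mul, map_mul, map_pow, map_pow, E_C, ← e1 K t s θ hδ,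
      ← e2 K t s θ hδ]
    ring
  | monomial n a =>
    refine ⟨a, n, ?_⟩
    intro K _ _ t s θ hδ
    rw [← Polynomial.C_mul_X_pow_eq_monomial, map_mul, map_pow, G_C, G_X, mul_assoc, ← mul_pow,
      inv_mul_cancel₀ hδ, one_pow, mul_one]

theorem aeval_eq (t s : ℂ) (d : R2) :
    MvPolynomial.aeval ![t, s] d = MvPolynomial.eval ![t, s] d := by
  rw [MvPolynomial.aeval_eq_eval]

theorem lift_range {B L : Type} [CommRing B] [CommRing L] [Algebra ℂ B] [Algebra ℂ L]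
    (φ : B →ₐ[ℂ] L) (ψ : B →ₐ[ℂ] ℂ) (h : ∀ H, φ H = 0 → ψ H = 0) :
    ∃ χ : φ.range →ₐ[ℂ] ℂ, ∀ (H : B) (x : L) (hx : x ∈ φ.range), φ H = x → χ ⟨x, hx⟩ = ψ H := by
  have hle : RingHom.ker φ.rangeRestrict.toRingHom ≤ RingHom.ker ψ.toRingHom := by
    intro H hH
    exact h H (congrArg Subtype.val (RingHom.mem_ker.1 hH))
  refine ⟨AlgHom.liftOfSurjective φ.rangeRestrict φ.rangeRestrict_surjective ψ hle, ?_⟩
  intro H x hx e
  subst e
  exact AlgHom.liftOfSurjective_apply φ.rangeRestrict φ.rangeRestrict_surjective ψ hle H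

end ALG

open ALG in
theorem bALG (hPRIM : St_PRIM) (hCV : St_CV) (hMOT : St_MOT) : St_ALG := by
  intro L ι _ _ _ t s z hind hfin
  classical
  obtain ⟨θ, P, a, b, δ₀, hPm, hdeg, hδ₀, hab, hker, hw⟩ := hPRIM L t s hind hfin
  choose h d hd0 hd using hw
  have hinj : ∀ e : R2, e ≠ 0 → MvPolynomial.aeval ![t, s] e ≠ 0 := by
    intro e he h0
    exact he (hind.eq_zero_of_aeval_eq_zero e h0)
  have h1 : δ₀ * ∏ i, d (z i) ≠ 0 :=
    mul_ne_zero hδ₀ (Finset.prod_ne_zero_iff.2 fun i _ => hd0 _)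
  obtain ⟨δ, hδ, hdvd, hmot⟩ := hMOT _ h1
  obtain ⟨C, hΩ, hβ, hS, hhol⟩ := hCV P a b δ₀ δ hPm hab (dvd_trans (dvd_mul_right _ _) hdvd)
  have hdi : ∀ i, ∃ c, δ = d (z i) * c := by
    intro i
    have h2 : d (z i) ∣ ∏ i, d (z i) :=
      Finset.dvd_prod_of_mem (fun i => d (z i)) (Finset.mem_univ i)
    have h3 : d (z i) ∣ δ := (h2.trans (dvd_mul_left _ δ₀)).trans hdvd
    exact exists_eq_mul_right_of_dvd h3
  choose c hc using hdi
  have hδL := hinj δ hδ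
  let φ := G δ t s θ
  let A : Subalgebra ℂ L := φ.range
  have hE : ∀ g : Polynomial R2, E t s θ g ∈ A := fun g => ⟨Polynomial.C g, G_C δ t s θ g⟩
  have hmem : ∀ p : C.S, p.1.1 ∈ zs δ ∧ ev3 p.1.1.1 p.1.1.2 p.1.2 P = 0 := by
    rintro ⟨p, hp⟩
    rw [hS] at hp
    exact hp
  have hpδ : ∀ p : C.S, MvPolynomial.aeval ![p.1.1.1, p.1.1.2] δ ≠ 0 := by
    intro p
    rw [aeval_eq]
    exact (hmem p).1
  have hpP : ∀ p : C.S, E p.1.1.1 p.1.1.2 p.1.2 P = 0 := fun p => (hmem p).2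
  have hle : ∀ (p : C.S) H, φ H = 0 → G δ p.1.1.1 p.1.1.2 p.1.2 H = 0 := by
    intro p H hH'
    obtain ⟨g, k, e⟩ := clear δ H
    have e1 := e L t s θ hδL
    have e2 := e ℂ _ _ p.1.2 (hpδ p)
    rw [show G δ t s θ H = 0 from hH', zero_mul] at e1
    obtain ⟨q, hq⟩ := (hker g).1 e1.symm
    rw [hq, map_mul, hpP p, zero_mul] at e2
    exact (mul_eq_zero.1 e2).resolve_right (pow_ne_zero _ (hpδ p))
  have hex : ∀ p : C.S, ∃ χ : A →ₐ[ℂ] ℂ, ∀ (H : Polynomial (Polynomial R2)) (x : L) (hx : x ∈ A),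
      φ H = x → χ ⟨x, hx⟩ = G δ p.1.1.1 p.1.1.2 p.1.2 H := fun p =>
    lift_range (B := Polynomial (Polynomial R2)) (L := L) φ (G δ p.1.1.1 p.1.1.2 p.1.2) (hle p)
  choose χ hχ using hex
  have et : φ (Polynomial.C (Polynomial.C (MvPolynomial.X 0))) = t := by
    simp [φ, G_C, E_C]
  have es : φ (Polynomial.C (Polynomial.C (MvPolynomial.X 1))) = s := by
    simp [φ, G_C, E_C]
  have eθ : φ (Polynomial.C Polynomial.X) = θ := by
    simp [φ, G_C, E_X]
  have ez : ∀ i, φ (Polynomial.C (h (z i) * Polynomial.C (c i)) * Polynomial.X) = z i := by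
    intro i
    have e1 := hd (z i)
    rw [ev3_eq] at e1
    simp only [φ, map_mul, G_C, G_X, E_C]
    rw [← e1, mul_assoc (z i), ← map_mul, ← hc i, mul_assoc, mul_inv_cancel₀ hδL, mul_one]
  have ht : t ∈ A := ⟨_, et⟩
  have hs : s ∈ A := ⟨_, es⟩
  have hθ : θ ∈ A := ⟨_, eθ⟩
  have hz : ∀ i, z i ∈ A := fun i => ⟨_, ez i⟩
  have χt : ∀ p : C.S, χ p ⟨t, ht⟩ = p.1.1.1 := by
    intro p
    rw [hχ p _ t ht et]
    simp [G_C, E_C]
  have χs : ∀ p : C.S, χ p ⟨s, hs⟩ = p.1.1.2 := by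
    intro p
    rw [hχ p _ s hs es]
    simp [G_C, E_C]
  have χθ : ∀ p : C.S, χ p ⟨θ, hθ⟩ = p.1.2 := by
    intro p
    rw [hχ p _ θ hθ eθ]
    simp [G_C, E_X]
  refine ⟨C, δ, A, ht, hs, hz, χ, fun i p => ev3 p.1.1 p.1.2 p.2 (h (z i) * Polynomial.C (c i)) /
    MvPolynomial.eval ![p.1.1, p.1.2] δ ^ 1, hδ, hΩ, hΩ ▸ hmot, hβ.trans hdeg, ?_, ?_, ?_, ?_,
    fun i => hhol _ 1⟩
  · have : (⊤ : Subalgebra ℂ (Polynomial (Polynomial R2))).FG := Algebra.FiniteType.out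
    have := this.map φ
    rwa [Algebra.map_top] at this
  · intro w
    refine ⟨E t s θ (h w), hE _, MvPolynomial.aeval ![t, s] (d w), ?_, hinj _ (hd0 w), hd w⟩
    rw [← E_C t s θ]
    exact hE _
  · intro p q e
    have e1 : p.1.1.1 = q.1.1.1 := by rw [← χt, ← χt, e]
    have e2 : p.1.1.2 = q.1.1.2 := by rw [← χs, ← χs, e]
    have e3 : p.1.2 = q.1.2 := by rw [← χθ, ← χθ, e]
    exact Subtype.ext (Prod.ext (Prod.ext e1 e2) e3)
  · intro p
    refine ⟨χt p, χs p, fun i => ?_⟩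
    rw [hχ p _ (z i) (hz i) (ez i), map_mul, G_C, G_X]
    beta_reduce
    rw [ev3_eq, pow_one, aeval_eq, div_eq_mul_inv]

end Pool.Agent.Lib.CLF
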