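import Pool.Agent.Lib.CLF.ABlue
import Pool.Agent.Lib.CLF.BBlue

/-! The analytic theorem for fields. -/

open MvPolynomial Filter Topology Function Module MeasureTheory Pool.Agent.Lib.MP_08f962_ag

noncomputable section

namespace Pool.Agent.Lib.CLF

namespace AN

theorem cf_map {R T : Type} [CommRing R] [CommRing T] (φ : R →+* T) (n : ℕ) {k : ℕ}
    (ξ : Fin k → R) : (fun r => φ (cf n ξ r)) = cf n fun i => φ (ξ i) := by
  funext r
  simp only [cf]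
  rw [← Polynomial.coeff_map, Polynomial.map_prod]
  simp

theorem cf_ne {n k : ℕ} (hk : k ≤ n) (ξ : Fin k → ℂ) : cf n ξ ≠ 0 := by
  intro h
  have h1 := congrFun h ⟨k, Nat.lt_succ_of_le hk⟩
  have hm : (∏ i, (Polynomial.X - Polynomial.C (ξ i))).Monic :=
    Polynomial.monic_prod_of_monic _ _ fun i _ => Polynomial.monic_X_sub_C _
  have hd : (∏ i, (Polynomial.X - Polynomial.C (ξ i))).natDegree = k := by
    rw [Polynomial.natDegree_prod_of_monic _ _ fun i _ => Polynomial.monic_X_sub_C _]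
    simp
  have h2 := hm.coeff_natDegree
  rw [hd] at h2
  simp only [cf, Pi.zero_apply] at h1
  rw [h2] at h1
  exact one_ne_zero h1

theorem pt_map {n m : ℕ} {R T : Type} [CommRing R] [Algebra ℂ R] [CommRing T] [Algebra ℂ T]
    (φ : R →ₐ[ℂ] T) (x : Fin (n + 1) → R) (y : Fin (m + 1) → R) (G : S n m) :
    φ (pt x y G) = pt (fun i => φ (x i)) (fun j => φ (y j)) G := by
  have : φ.comp (pt x y) = pt (fun i => φ (x i)) (fun j => φ (y j)) := by
    apply MvPolynomial.algHom_ext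
    rintro (i | j) <;> simp [pt]
  exact DFunLike.congr_fun this G

theorem pt_cf {n m n' m' : ℕ} {R T : Type} [CommRing R] [Algebra ℂ R] [CommRing T] [Algebra ℂ T]
    (φ : R →ₐ[ℂ] T) (ξ : Fin n' → R) (η : Fin m' → R) (G : S n m) :
    φ (pt (cf n ξ) (cf m η) G) = pt (cf n fun i => φ (ξ i)) (cf m fun j => φ (η j)) G := by
  rw [pt_map]
  have h1 := cf_map (φ : R →+* T) n ξ
  have h2 := cf_map (φ : R →+* T) m η
  simp only [RingHom.coe_coe] at h1 h2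
  rw [h1, h2]

theorem ae_of_cof {P : ℂ → Prop} (h : ∀ᶠ c in cofinite, P c) : ∀ᵐ c : ℂ, P c :=
  (Filter.eventually_cofinite.1 h).measure_zero volume

theorem cnt (hC : St_CNT) {L : Type} [Field L] [Algebra ℂ L] {A : Subalgebra ℂ L} (hA : A.FG)
    (hfr : ∀ w : L, ∃ a ∈ A, ∃ b ∈ A, b ≠ 0 ∧ w * b = a) {C : Cv} {χ : C.S → A →ₐ[ℂ] ℂ}
    (hχ : Injective χ) (b : Bool) (a c : A) (F : Am → ℂ) (ha : Transcendental ℂ (a : L))
    (hac : Fd (a : L) c) (h1 : ∀ p : C.S, χ p a = ot b p.1.1) (h2 : ∀ p : C.S, χ p c = F p) :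
    C.Cnt b F (dg (a : L) c) := by
  filter_upwards [hC L A a c hA hfr ha hac] with τ hτ
  filter_upwards [ae_of_cof hτ] with γ hγ
  refine le_trans ?_ hγ
  have he : {p ∈ C.S | ot b p.1 = τ ∧ F p = γ} =
      Subtype.val '' {p : C.S | ot b p.1.1 = τ ∧ F p = γ} := by
    ext p
    constructor
    · rintro ⟨hp, hq⟩
      exact ⟨⟨p, hp⟩, hq, rfl⟩
    · rintro ⟨q, hq, rfl⟩
      exact ⟨q.2, hq⟩
  rw [he, Subtype.val_injective.encard_image, ← hχ.encard_image]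
  apply Set.encard_le_encard
  rintro _ ⟨p, hp, rfl⟩
  exact ⟨(h1 p).trans hp.1, (h2 p).trans hp.2⟩

end AN

theorem bAN (hSEP : St_SEP) (hAN0 : St_AN0) (hALG : St_ALG) (hCNT : St_CNT) (hFIN : St_FIN) :
    St_AN := by
  intro n m u v G hG hNG
  obtain ⟨r, N, ε, f, g, hS, hv⟩ := hSEP n m u v G hG hNG
  obtain ⟨K, hK, H⟩ := hAN0 n m r N ε f g hS
  refine ⟨K, hK, ?_⟩
  intro L _ _ n' m' ξ η i j hn hm hFd h0
  by_cases hind : AlgebraicIndependent ℂ ![ξ i, η j]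
  swap
  · have : dg (ξ i) (η j) = 0 := by simp only [dg, hind, if_false]
    rw [this, Nat.cast_zero]
    exact mul_nonneg hK (add_nonneg (Finset.sum_nonneg fun _ _ => Nat.cast_nonneg _)
      (Finset.sum_nonneg fun _ _ => Nat.cast_nonneg _))
  have hfd := hFd hind
  obtain ⟨C, δ, A, ht, hs, hz, χ, F, hδ, hΩ, hM, hβ, hA, hfr, hχ, hp, hH⟩ :=
    hALG L (Fin n' ⊕ Fin m') (ξ i) (η j) (Sum.elim ξ η) hind hfd
  have hti : Transcendental ℂ (ξ i) := hind.transcendental 0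
  have hsj : Transcendental ℂ (η j) := hind.transcendental 1
  have hdg : dg (ξ i) (η j) = C.β := by simp only [dg, hind, if_true, hβ]
  rw [hdg]
  refine H C δ n' m' (fun i' => F (Sum.inl i')) (fun j' => F (Sum.inr j')) i j
    (fun i' => dg (ξ i) (ξ i')) (fun j' => dg (η j) (η j')) (fun j' => dg (ξ i) (η j')) hδ hΩ hM
    hn hm (fun i' => ⟨hH _, ?_⟩) (fun j' => ⟨hH _, ?_, ?_⟩) ?_
  · exact AN.cnt hCNT hA hfr hχ false ⟨ξ i, ht⟩ ⟨_, hz (Sum.inl i')⟩ _ hti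
      (hFIN L _ _ _ _ hfd) (fun p => (hp p).1) fun p => (hp p).2.2 _
  · exact AN.cnt hCNT hA hfr hχ true ⟨η j, hs⟩ ⟨_, hz (Sum.inr j')⟩ _ hsj
      (hFIN L _ _ _ _ hfd) (fun p => (hp p).2.1) fun p => (hp p).2.2 _
  · exact AN.cnt hCNT hA hfr hχ false ⟨ξ i, ht⟩ ⟨_, hz (Sum.inr j')⟩ _ hti
      (hFIN L _ _ _ _ hfd) (fun p => (hp p).1) fun p => (hp p).2.2 _
  · intro p hpS
    obtain ⟨e1, e2, e3⟩ := hp ⟨p, hpS⟩
    refine ⟨(e3 (Sum.inl i)).symm.trans e1, (e3 (Sum.inr j)).symm.trans e2, ?_⟩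
    apply hv _ _ (AN.cf_ne hn _) (AN.cf_ne hm _)
    have hz0 : pt (cf n fun i' => (⟨_, hz (Sum.inl i')⟩ : A))
        (cf m fun j' => (⟨_, hz (Sum.inr j')⟩ : A)) G = 0 := by
      apply Subtype.val_injective
      exact (AN.pt_cf A.val _ _ G).trans h0
    have h3 := AN.pt_cf (χ ⟨p, hpS⟩) (fun i' => (⟨_, hz (Sum.inl i')⟩ : A))
      (fun j' => (⟨_, hz (Sum.inr j')⟩ : A)) G
    rw [hz0, map_zero] at h3
    simp only [e3] at h3
    exact h3.symm

end Pool.Agent.Lib.CLF
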