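import Pool.Agent.Lib.CLF.ABlue

open MeasureTheory Filter Topology Set Function
open scoped ENNReal

namespace Pool.Agent.Lib.CLF

lemma AN0.slab {n k : ℕ} (hk : k ≤ n) (ξ : Fin k → ℂ) (i : Fin k) (h0 : cf n ξ ≠ 0) {j : ℕ}
    (h : ξ i ∈ Metric.closedBall (4 * j : ℂ) (3 / 2)) : cf n ξ ∈ Slab n j := by
  refine ⟨h0, ξ i, h, ?_⟩
  have h1 : (∏ i, (Polynomial.X - Polynomial.C (ξ i))).natDegree < n + 1 := by
    rw [Polynomial.natDegree_prod_of_monic _ _ fun i _ => Polynomial.monic_X_sub_C _]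
    simpa [Nat.lt_succ_iff] using hk
  simp only [cf]
  refine (Fin.sum_univ_eq_sum_range (fun r : ℕ =>
    (∏ i, (Polynomial.X - Polynomial.C (ξ i))).coeff r * ξ i ^ r) (n + 1)).trans ?_
  rw [← Polynomial.eval_eq_sum_range' h1, Polynomial.eval_prod]
  exact Finset.prod_eq_zero (Finset.mem_univ i) (by simp)

lemma AN0.ne {n k : ℕ} (hk : k ≤ n) (ξ : Fin k → ℂ) : cf n ξ ≠ 0 := fun h => by
  have h1 := congrFun h ⟨k, Nat.lt_succ_of_le hk⟩
  have h2 : (∏ i, (Polynomial.X - Polynomial.C (ξ i))).natDegree = k := by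
    rw [Polynomial.natDegree_prod_of_monic _ _ fun i _ => Polynomial.monic_X_sub_C _]
    simp
  have h3 := (Polynomial.monic_prod_of_monic Finset.univ _
    fun i _ => Polynomial.monic_X_sub_C (ξ i)).coeff_natDegree
  rw [h2] at h3
  exact one_ne_zero (h3.symm.trans h1)

lemma AN0.arith {a x y z T : ℝ} (ha : 0 < a) (hx : 0 ≤ x) (hy : 0 ≤ y) (hz : 0 ≤ z)
    (h : a * x ≤ T * (√x * (√y + √z))) : x ≤ 2 * (T / a) ^ 2 * (y + z) := by
  rcases hx.eq_or_lt with rfl | hx'
  · positivity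
  have h1 := Real.sqrt_pos.2 hx'
  have h2 := Real.mul_self_sqrt hx
  have h3 : √x ≤ T / a * (√y + √z) := by
    rw [div_mul_eq_mul_div, le_div_iff₀ ha]
    refine le_of_mul_le_mul_left ?_ h1
    nlinarith
  have h4 := mul_self_le_mul_self h1.le h3
  have h5 := Real.mul_self_sqrt hy
  have h6 := Real.mul_self_sqrt hz
  have h7 : (√y + √z) * (√y + √z) ≤ 2 * (y + z) := by nlinarith [sq_nonneg (√y - √z)]
  have h8 := mul_le_mul_of_nonneg_left h7 (sq_nonneg (T / a))
  nlinarith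

theorem bAN0 (hCUT : St_CUT) (hCD : St_CD) (hCAP : St_CAP) (hEN : St_EN) (hPR : St_PREP)
    (hPA : St_PAIR) (hLO : St_LOWB) (hRE : St_RES) (hWM : St_WM) (hI : St_INT) (hCA : St_CAL)
    (hB : St_BR) : St_AN0 := by
  intro n m r N ε f g hs
  obtain ⟨l, c, χ, hl, hc, hχ, hcap⟩ := hCAP N
  choose Mf hMf0 hMf using fun k => hEN n (f k) (hs.2.1 k).1
  choose Mg hMg0 hMg using fun k => hEN m (g k) (hs.2.1 k).2
  let T : ℝ := (N + 1) * ((N + 1) * ∑ k, Mf k * Mg k)
  have hπ := Real.pi_pos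
  have hε := hs.1
  refine ⟨2 * (T / (c ^ 2 * ε)) ^ 2 * l / (l * Real.pi) ^ 2, by positivity,
    fun C δ n' m' ξ η i₀ j₀ Nx Ny Nz hδ hΩ hm hn' hm' hξ hη h0 => ?_⟩
  have hcut := hCUT C l δ hl hδ hΩ
  obtain ⟨hfin, hmass, -⟩ := hWM.fin C hl
  replace hmass := hmass (hΩ ▸ (hCD C δ hδ).1)
  let x : Am → Fin (n + 1) → ℂ := fun p => cf n fun i => ξ i p
  let y : Am → Fin (m + 1) → ℂ := fun p => cf m fun j => η j p
  have hf := fun k => hMf k C l n' ξ hl hn' fun i => (hξ i).1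
  have hg := fun k => hMg k C l m' η hl hm' fun j => (hη j).1
  have hL : ∀ {b} {h : Am → ℝ} {M : ℝ}, C.Sm (cx h) →
      eLpNorm (C.D b (cx h)) 2 (C.mo l b) ≤ ENNReal.ofReal M → MemLp (C.D b (cx h)) 2 (C.mo l b) :=
    fun {b h M} h1 h2 => ⟨(hI.sm C (hB.cont C (hCA.smD C b h1).1)).1.mono_ac
      (hWM.ac C b hl).2.2.1, h2.trans_lt ENNReal.ofReal_lt_top⟩
  have ef := fun k => (hf k).2.2 false Nx fun i => (hξ i).2
  have eg := fun k => (hg k).2.2 true Ny fun j => (hη j).2.1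
  have eg' := fun k => (hg k).2.2 false Nz fun j => (hη j).2.2
  have pf := fun (i : Fin (N + 1)) k => hPR C l (Mf k) true _ (χ i) (fun p => f k (x p)) hl
    (hχ i).1 (hχ i).2 (hf k).1 (hf k).2.1
  have pg := fun (i : Fin (N + 1)) k => hPR C l (Mg k) false _ (χ i) (fun p => g k (y p)) hl
    (hχ i).1 (hχ i).2 (hg k).1 (hg k).2.1
  have p1 : ∀ b (i : Fin (N + 1)), MemLp (fun p : Am => χ i (co b p.1)) 2 (C.mn l) := fun b i => by
    simpa using (hPR C l 1 b _ (χ i) (fun _ => 1) hl (hχ i).1 (hχ i).2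
      (hCA.smb C (h := fun _ => ((1 : ℝ) : ℂ)) contDiff_const) (by simp)).2.1
  choose A A' hA using fun i => hRE C l true _ hl (p1 true i)
  choose B B' hB' using fun i => hRE C l false _ hl (p1 false i)
  choose a a' ha using fun i k => hRE C l true _ hl (pf i k).2.1
  choose b b' hb using fun i k => hRE C l false _ hl (pg i k).2.1
  have hlow := hLO n m r N ε l c f g C x y (fun i p => χ i (co true p.1))
    (fun i p => χ i (co false p.1)) A B A' B' a b a' b' hl hc hs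
    (fun i p => ⟨((hχ i).2 _).1, ((hχ i).2 _).1⟩)
    (fun i p hp => ⟨fun h => AN0.slab hn' _ i₀ (AN0.ne hn' _)
      ((h0 p hp).1 ▸ (hχ i).1.2.2 (subset_tsupport _ h)), fun h => AN0.slab hm' _ j₀ (AN0.ne hm' _)
      ((h0 p hp).2.1 ▸ (hχ i).1.2.2 (subset_tsupport _ h))⟩)
    (fun i => ⟨hA i, hB' i, hcap C hcut true i i.is_le _ _ (hA i),
      hcap C hcut false i i.is_le _ _ (hB' i)⟩) fun i k => ⟨ha i k, hb i k⟩
  set V := (C.mn l).real univ
  set X := l * ∑ i, (Nx i : ℝ)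
  set Y := l * ∑ j, (Ny j : ℝ)
  have hup : ∀ i j, ∑ k, ∫ p, a i k p * b j k p ∂C.mn l ≤
      (∑ k, Mf k * Mg k) * (√V * (√X + √Y)) := fun i j => by
    have hz : ∑ k, ∫ p, (χ i (co true p.1) * f k (x p)) * (χ j (co false p.1) * g k (y p))
        ∂C.mn l = 0 := by
      refine (integral_finsetSum _ fun k _ =>
        (pf i k).2.1.integrable_mul (pg j k).2.1).symm.trans ?_
      refine integral_eq_zero_of_ae ((hWM.ac C true hl).1.ae_le ((hI.ae C).mono fun p hp => ?_))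
      have := congrArg (χ i (co true p.1) * χ j (co false p.1) * ·) (h0 p hp).2.2
      simp only [Finset.mul_sum, mul_zero] at this
      exact (Finset.sum_congr rfl fun k _ => by simp only [Pi.mul_apply, x, y]; ring).trans this
    rw [← sub_zero (∑ k, _), ← hz, ← Finset.sum_sub_distrib, Finset.sum_mul]
    refine Finset.sum_le_sum fun k _ => (le_abs_self _).trans ((hPA C l _ _ _ _ _ _ hl hcut hm
      (pf i k).1 ((pf i k).2.2.2.1 (hL (hf k).1 (ef k))) ⟨(pg j k).1, fun b => ?_⟩ (ha i k)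
      (hb j k)).trans ?_)
    · cases b
      · exact (pg j k).2.2.2.2.2 (hL (hg k).1 (eg' k))
      · exact (pg j k).2.2.2.1 (hL (hg k).1 (eg k))
    have h1 := hMf0 k
    have h2 := hMg0 k
    have h3 := ENNReal.toReal_le_of_le_ofReal (by positivity) ((pg j k).2.2.2.2.1.trans (eg k))
    have h4 := ENNReal.toReal_le_of_le_ofReal (by positivity) ((pf i k).2.2.2.2.1.trans (ef k))
    have h5 := mul_le_mul (pf i k).2.2.1 h3 ENNReal.toReal_nonneg (by positivity)
    have h6 := mul_le_mul (pg j k).2.2.1 h4 ENNReal.toReal_nonneg (by positivity)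
    exact (add_le_add h5 h6).trans (le_of_eq (by ring))
  have h1 : c ^ 2 * ε * V ≤ T * (√V * (√X + √Y)) := by
    refine hlow.trans ((Finset.sum_le_sum fun i _ => Finset.sum_le_sum fun j _ => hup i j).trans ?_)
    simp only [Finset.sum_const, Finset.card_univ, Fintype.card_fin, nsmul_eq_mul, T]
    push_cast
    exact le_of_eq (by ring)
  have h2 := AN0.arith (by positivity) measureReal_nonneg (by positivity) (by positivity) h1
  rw [div_mul_eq_mul_div, le_div_iff₀ (by positivity), ← hmass]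
  exact h2.trans (le_of_eq (by simp only [X, Y]; ring))

end Pool.Agent.Lib.CLF
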