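import Pool.Agent.Lib.CLF.ABlue

/-! The area inequality on the cover. -/

open MeasureTheory Filter Topology Set Function
open scoped ContDiff ENNReal ComplexConjugate

noncomputable section

namespace Pool.Agent.Lib.CLF

namespace AR

theorem cover (hB : St_BR) (C : Cv) : ∃ (V : ℕ → Set B2) (c : ℕ → Fin C.β → B2 → ℂ),
    (∀ n, MeasurableSet (V n)) ∧ Pairwise (Disjoint on V) ∧ C.Ω ⊆ ⋃ n, V n ∧
    ∀ n, ∀ w ∈ V n, (Injective fun k => c n k w) ∧
      (range fun k => c n k w) = (range fun k => C.r k w) ∧ ∀ k, C.IsBr (w, c n k w) (c n k) := by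
  rcases C.Ω.eq_empty_or_nonempty with h | ⟨z0, h0⟩
  · exact ⟨fun _ => ∅, fun _ _ _ => 0, fun _ => MeasurableSet.empty, fun _ _ _ => by simp [onFun],
      by simp [h], by simp⟩
  choose! ε c hε _ hc using fun z (hz : z ∈ C.Ω) => hB.triv C hz
  obtain ⟨t, ht, tc, hs⟩ := TopologicalSpace.countable_cover_nhdsWithin (s := C.Ω)
    (f := fun z => Metric.ball z (ε z)) fun z hz =>
      mem_nhdsWithin_of_mem_nhds (Metric.ball_mem_nhds z (hε z hz))
  have tn : t.Nonempty := by
    obtain ⟨z, hz, -⟩ := mem_iUnion₂.1 (hs h0)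
    exact ⟨z, hz⟩
  obtain ⟨g, rfl⟩ := tc.exists_eq_range tn
  refine ⟨disjointed fun n => Metric.ball (g n) (ε (g n)), fun n => c (g n),
    MeasurableSet.disjointed fun n => Metric.isOpen_ball.measurableSet, disjoint_disjointed _, ?_,
    fun n w hw => hc (g n) (ht ⟨n, rfl⟩) w (disjointed_subset _ n hw)⟩
  rw [iUnion_disjointed]
  simpa using hs

/-- The point with coordinate `x` in direction `b` and `τ` in the other direction. -/
def mk : Bool → ℂ → ℂ → B2
  | true => fun τ x => (x, τ)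
  | false => fun τ x => (τ, x)

theorem ot_mk (b : Bool) (τ x : ℂ) : ot b (mk b τ x) = τ := by cases b <;> rfl

theorem mk_inj (b : Bool) (τ : ℂ) : Injective (mk b τ) := fun x y h => by
  cases b
  · exact (Prod.ext_iff.1 h).2
  · exact (Prod.ext_iff.1 h).1

theorem mk_der (b : Bool) (τ x : ℂ) : HasDerivAt (mk b τ) (ev b) x := by
  cases b
  · exact (hasDerivAt_const x τ).prodMk (hasDerivAt_id x)
  · exact (hasDerivAt_id x).prodMk (hasDerivAt_const x τ)

theorem mk_an (b : Bool) (τ x : ℂ) : AnalyticAt ℂ (mk b τ) x := by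
  cases b
  · exact analyticAt_const.prod analyticAt_id
  · exact analyticAt_id.prod analyticAt_const

theorem mk_meas (b : Bool) (τ : ℂ) : Measurable (mk b τ) :=
  (continuous_iff_continuousAt.2 fun x => (mk_der b τ x).continuousAt).measurable

theorem ot_meas (b : Bool) : Measurable (ot b) := by
  cases b
  · exact measurable_fst
  · exact measurable_snd

theorem tonelli (b : Bool) {F : B2 → ℝ≥0∞} (hF : Measurable F) :
    ∫⁻ z, F z = ∫⁻ τ, ∫⁻ x, F (mk b τ x) := by
  cases b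
  · exact lintegral_prod F hF.aemeasurable
  · exact lintegral_prod_symm F hF.aemeasurable

theorem wd_meas (b : Bool) (g : B2 → ℂ) : Measurable (wd b g) :=
  ((measurable_fderiv_apply_const ℝ g _).sub
    ((measurable_fderiv_apply_const ℝ g _).const_mul _)).div_const _

theorem sum_le {α ι : Type} [MeasurableSpace α] (μ : Measure α) (s : Finset ι) (f : ι → α → ℝ≥0∞) :
    ∑ i ∈ s, ∫⁻ a, f i a ∂μ ≤ ∫⁻ a, ∑ i ∈ s, f i a ∂μ := by
  classical
  induction s using Finset.induction_on with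
  | empty => simp
  | insert i s hi ih =>
    simp only [Finset.sum_insert hi]
    exact (add_le_add le_rfl ih).trans (le_lintegral_add _ _)

theorem mu_le (C : Cv) (F : Am → ℝ≥0∞) :
    ∫⁻ p, F p ∂C.mu ≤ ∫⁻ z in C.Ω, ∑ k, F (z, C.r k z) := by
  rw [Cv.mu, lintegral_finsetSum_measure]
  exact (Finset.sum_le_sum fun k _ => lintegral_map_le _ _).trans (sum_le _ _ _)

end AR

open AR in
theorem bAR (h1 : St_AR1) (hB : St_BR) (hW : St_WIR) (hM : St_WM) : St_AR := by
  classical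
  intro C l b f N H hl hH hf hc
  obtain ⟨V, c, mV, dV, cV, tV⟩ := cover hB C
  obtain ⟨-, sρ, iρ⟩ := hM.pos hl
  have mρ : Measurable fun τ => ENNReal.ofReal (rho l τ) := sρ.continuous.measurable.ennreal_ofReal
  set g : ℕ × Fin C.β → B2 → ℂ := fun i w => f (w, c i.1 i.2 w) with hg
  have inS : ∀ i : ℕ × Fin C.β, ∀ w ∈ V i.1, (w, c i.1 i.2 w) ∈ C.S := fun i w hw =>
    ((tV _ w hw).2.2 i.2).2.2.self_of_nhds
  have eg : ∀ i : ℕ × Fin C.β, ∀ w ∈ V i.1, C.dn f (w, c i.1 i.2 w) =ᶠ[𝓝 w] g i := fun i w hw => by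
    filter_upwards [hB.uniq C (inS i w hw) ((tV _ w hw).2.2 i.2)] with z hz
    simp only [Cv.dn, hg, hz]
  have ag : ∀ i : ℕ × Fin C.β, ∀ w ∈ V i.1, AnalyticAt ℂ (g i) w := fun i w hw =>
    (hf _ (inS i w hw)).congr (eg i w hw)
  set Φ : ℕ × Fin C.β → B2 → ℝ≥0∞ := fun i =>
    (V i.1).indicator fun w => H ((V i.1).piecewise (g i) 0 w) * ‖wd b (g i) w‖ₑ ^ 2 with hΦ
  have mΦ : ∀ i, Measurable (Φ i) := fun i => Measurable.indicator
    ((hH.comp (ContinuousOn.measurable_piecewise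
      (fun w hw => (ag i w hw).continuousAt.continuousWithinAt) continuousOn_const (mV _))).mul
      ((wd_meas b _).enorm.pow_const 2)) (mV _)
  have vΦ : ∀ i : ℕ × Fin C.β, ∀ w ∈ V i.1, Φ i w = H (g i w) * ‖wd b (g i) w‖ₑ ^ 2 :=
    fun i w hw => by simp only [hΦ, indicator_of_mem hw, piecewise_eq_of_mem _ _ _ hw]
  have s1 : ∫⁻ p, H (f p) * ‖C.D b f p‖ₑ ^ 2 ∂C.mo l b ≤
      ∫⁻ z, ENNReal.ofReal (rho l (ot b z)) * ∑' i, Φ i z := by
    refine (lintegral_withDensity_le_lintegral_mul _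
      (mρ.comp ((ot_meas b).comp measurable_fst)) _).trans ((mu_le C _).trans ?_)
    refine le_trans (setLIntegral_mono' C.op.measurableSet fun z hz => ?_)
      (setLIntegral_le_lintegral _ _)
    obtain ⟨n, hn⟩ := mem_iUnion.1 (cV hz)
    have : ∀ k, ∃ k', c n k' z = C.r k z := fun k => by
      have : C.r k z ∈ range fun k => c n k z := by rw [(tV n z hn).2.1]; exact ⟨k, rfl⟩
      exact this
    choose σ hσ using this
    have iσ : Injective fun k => (n, σ k) := fun k k' e => C.inj z hz (by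
      simp only [← hσ, show σ k = σ k' from (Prod.ext_iff.1 e).2])
    simp only [Pi.mul_apply, comp_apply, ← Finset.mul_sum]
    refine mul_le_mul_right (le_trans (le_of_eq ?_)
      (ENNReal.tsum_comp_le_tsum_of_injective iσ fun i => Φ i z)) _
    rw [tsum_fintype]
    refine Finset.sum_congr rfl fun k _ => ?_
    rw [vΦ (n, σ k) z hn, ← hσ k, Cv.D, (hW.congr b (eg (n, σ k) z hn)).1]
  have s2 : ∀ᵐ τ : ℂ, ∫⁻ x, ∑' i, Φ i (mk b τ x) ≤ N * ∫⁻ c, H c := by
    have : ∀ᵐ τ : ℂ, ∀ᵐ c : ℂ, {p ∈ C.S | ot b p.1 = τ ∧ f p = c}.encard ≤ N :=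
      ae_iff.2 (Finite.measure_zero (eventually_cofinite.1 hc) _)
    filter_upwards [this] with τ hτ
    rw [lintegral_tsum (f := fun i x => Φ i (mk b τ x)) fun i => ((mΦ i).comp (mk_meas b τ)).aemeasurable]
    have mE : ∀ i : ℕ × Fin C.β, MeasurableSet (mk b τ ⁻¹' V i.1) := fun i => mk_meas b τ (mV _)
    refine le_trans (le_of_eq (tsum_congr fun i => ?_)) (h1 (ℕ × Fin C.β)
      (fun i x => g i (mk b τ x)) (fun i => mk b τ ⁻¹' V i.1) N H hH mE
      (fun i x hx => (ag i _ hx).comp (mk_an b τ x)) ?_)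
    · rw [← lintegral_indicator (mE i)]
      refine lintegral_congr fun x => ?_
      by_cases hx : mk b τ x ∈ V i.1
      · have d := (ag i _ hx).differentiableAt
        rw [indicator_of_mem (show x ∈ mk b τ ⁻¹' V i.1 from hx), vΦ i _ hx, (hW.hol b d).2,
          show deriv (fun x => g i (mk b τ x)) x = _ from
            (d.hasFDerivAt.comp_hasDerivAt x (mk_der b τ x)).deriv]
      · rw [indicator_of_notMem (show x ∉ mk b τ ⁻¹' V i.1 from hx)]
        exact indicator_of_notMem hx _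
    · filter_upwards [hτ] with y hy
      refine le_trans (encard_le_encard_of_injOn
        (f := fun q : (ℕ × Fin C.β) × ℂ => (mk b τ q.2, c q.1.1 q.1.2 (mk b τ q.2)))
        (t := {p ∈ C.S | ot b p.1 = τ ∧ f p = y})
        (fun q hq => ⟨inS q.1 _ hq.1, ot_mk b τ _, hq.2⟩) ?_) hy
      rintro ⟨⟨n, k⟩, x⟩ hq ⟨⟨n', k'⟩, x'⟩ hq' e
      obtain ⟨e1, e2⟩ := Prod.ext_iff.1 e
      obtain rfl : x = x' := mk_inj b τ e1
      obtain rfl : n = n' := by
        by_contra ne
        exact disjoint_left.1 (dV ne) hq.1 hq'.1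
      obtain rfl : k = k' := (tV n _ hq.1).1 e2
      rfl
  refine s1.trans ?_
  rw [tonelli b (F := fun z => ENNReal.ofReal (rho l (ot b z)) * ∑' i, Φ i z)
    ((mρ.comp (ot_meas b)).mul (Measurable.tsum mΦ))]
  refine le_trans (lintegral_mono_ae (g := fun τ => ENNReal.ofReal (rho l τ) * (N * ∫⁻ c, H c)) ?_) ?_
  · filter_upwards [s2] with τ hτ
    simp only [ot_mk]
    rw [lintegral_const_mul' _ _ ENNReal.ofReal_ne_top]
    exact mul_le_mul_right hτ _
  · rw [lintegral_mul_const _ mρ, iρ]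
    exact le_of_eq (by ring)

end Pool.Agent.Lib.CLF
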