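import Pool.Agent.Lib.CLF.ABlue

/-! The area inequality for countably many holomorphic pieces. -/

open MeasureTheory Filter Topology Set Function
open scoped ContDiff ENNReal ComplexConjugate

noncomputable section

namespace Pool.Agent.Lib.CLF

namespace AR1

lemma det_c {f : ℂ → ℂ} {z : ℂ} (h : DifferentiableAt ℂ f z) :
    ENNReal.ofReal |(fderiv ℝ f z).det| = ‖deriv f z‖ₑ ^ 2 := by
  have e : ∀ v, fderiv ℝ f z v = v * deriv f z := fun v => by
    rw [(h.hasDerivAt.hasFDerivAt.restrictScalars ℝ).fderiv]; simp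
  have : (fderiv ℝ f z).det = ‖deriv f z‖ ^ 2 := by
    rw [ContinuousLinearMap.det, ← LinearMap.det_toMatrix Complex.basisOneI, Matrix.det_fin_two,
      Complex.sq_norm, Complex.normSq_apply]
    simp [LinearMap.toMatrix_apply, e]
  rw [this, abs_of_nonneg (sq_nonneg _), ENNReal.ofReal_pow (norm_nonneg _), ofReal_norm]

lemma pieces {f : ℂ → ℂ} {E : Set ℂ} (hE : MeasurableSet E) (hf : ∀ z ∈ E, AnalyticAt ℂ f z) :
    ∃ P : ℕ → Set ℂ, (∀ n, MeasurableSet (P n)) ∧ Pairwise (Disjoint on P) ∧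
      ⋃ n, P n = E ∩ {z | deriv f z ≠ 0} ∧ ∀ n, InjOn f (P n) := by
  obtain ⟨B, b1, -, b3⟩ := TopologicalSpace.exists_countable_basis ℂ
  obtain ⟨U, hU⟩ := Countable.exists_eq_range (s := {V ∈ insert ∅ B | InjOn f V})
    ((b1.insert ∅).mono (sep_subset _ _)) ⟨∅, mem_insert _ _, injOn_empty f⟩
  have h1 : ∀ n, U n ∈ insert ∅ B ∧ InjOn f (U n) := fun n => by
    have : U n ∈ range U := mem_range_self n
    rwa [← hU] at this
  have h2 : ∀ n, MeasurableSet (U n) := fun n => by
    rcases (h1 n).1 with h | h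
    · rw [h]; exact MeasurableSet.empty
    · exact (b3.isOpen h).measurableSet
  refine ⟨fun n => E ∩ {z | deriv f z ≠ 0} ∩ disjointed U n, fun n =>
    (hE.inter ((measurable_deriv f) (measurableSet_singleton 0)).compl).inter
      (MeasurableSet.disjointed h2 n), fun i j h =>
    ((disjoint_disjointed U) h).mono inter_subset_right inter_subset_right, ?_, fun n =>
    (h1 n).2.mono (inter_subset_right.trans (disjointed_subset U n))⟩
  rw [← inter_iUnion, iUnion_disjointed, inter_eq_left]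
  rintro z ⟨hz, h0⟩
  have s := (hf z hz).hasStrictDerivAt
  obtain ⟨V, v1, v2, v3⟩ := b3.mem_nhds_iff.1 (s.eventually_left_inverse h0)
  have : V ∈ range U := by
    rw [← hU]
    exact ⟨mem_insert_of_mem _ v1, fun x hx y hy e => by
      rw [← (v3 hx : _ = x), ← (v3 hy : _ = y), e]⟩
  obtain ⟨n, rfl⟩ := this
  exact mem_iUnion.2 ⟨n, v2⟩

end AR1

theorem bAR1 : St_AR1 := by
  intro ι _ f E N H hH hE hf hN
  choose P p1 p2 p3 p4 using fun i => AR1.pieces (hE i) (hf i)
  have sub : ∀ i n, P i n ⊆ E i := fun i n =>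
    (subset_iUnion (P i) n).trans ((p3 i).subset.trans inter_subset_left)
  have hd : ∀ i n, ∀ z ∈ P i n, HasFDerivWithinAt (f i) (fderiv ℝ (f i) z) (P i n) z :=
    fun i n z hz => ((hf i z (sub i n hz)).differentiableAt.restrictScalars
      ℝ).hasFDerivAt.hasFDerivWithinAt
  have hm : ∀ q : ι × ℕ, MeasurableSet (f q.1 '' P q.1 q.2) := fun q =>
    measurable_image_of_fderivWithin (p1 _ _) (hd _ _) (p4 _ _)
  have e1 : ∀ i, ∫⁻ z in E i, H (f i z) * ‖deriv (f i) z‖ₑ ^ 2 =
      ∑' n, ∫⁻ c, (f i '' P i n).indicator H c := fun i => by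
    have m0 : MeasurableSet {z | deriv (f i) z ≠ 0} :=
      ((measurable_deriv (f i)) (measurableSet_singleton 0)).compl
    rw [← lintegral_inter_add_sdiff _ (E i) m0, setLIntegral_congr_fun ((hE i).diff m0)
      (g := fun _ => 0) (fun z hz => by simp [not_not.1 hz.2]), lintegral_zero, add_zero, ← p3,
      lintegral_iUnion (p1 i) (p2 i)]
    refine tsum_congr fun n => ?_
    rw [lintegral_indicator (hm (i, n)),
      lintegral_image_eq_lintegral_abs_det_fderiv_mul volume (p1 i n) (hd i n) (p4 i n)]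
    refine setLIntegral_congr_fun (p1 i n) fun z hz => ?_
    simp only [AR1.det_c (hf i z (sub i n hz)).differentiableAt, mul_comm]
  simp_rw [e1]
  rw [← ENNReal.tsum_prod (f := fun i n => ∫⁻ c, (f i '' P i n).indicator H c),
    ← lintegral_tsum fun q => (hH.indicator (hm q)).aemeasurable,
    ← lintegral_const_mul _ hH]
  refine lintegral_mono_ae ?_
  filter_upwards [hN] with c hc
  have e2 : ∑' q : ι × ℕ, (f q.1 '' P q.1 q.2).indicator H c =
      ∑' _ : {q : ι × ℕ | c ∈ f q.1 '' P q.1 q.2}, H c := by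
    rw [tsum_subtype {q : ι × ℕ | c ∈ f q.1 '' P q.1 q.2} fun _ => H c]
    refine tsum_congr fun q => ?_
    by_cases h : c ∈ f q.1 '' P q.1 q.2
    · rw [indicator_of_mem h, indicator_of_mem (by exact h)]
    · rw [indicator_of_notMem h, indicator_of_notMem (by exact h)]
  rw [e2, ENNReal.tsum_set_const]
  gcongr
  have h3 : {q : ι × ℕ | c ∈ f q.1 '' P q.1 q.2}.encard ≤ N := by
    refine le_trans ?_ hc
    have ch : ∀ q : ι × ℕ, ∃ z, c ∈ f q.1 '' P q.1 q.2 → z ∈ P q.1 q.2 ∧ f q.1 z = c := fun q => by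
      by_cases h : c ∈ f q.1 '' P q.1 q.2
      · exact h.imp fun z hz _ => hz
      · exact ⟨0, fun h' => (h h').elim⟩
    choose g hg using ch
    refine encard_le_encard_of_injOn (f := fun q => (q.1, g q))
      (fun q hq => ⟨sub _ _ (hg q hq).1, (hg q hq).2⟩) ?_
    rintro ⟨i, n⟩ hq ⟨j, m⟩ hr e
    obtain ⟨rfl, e'⟩ := Prod.mk.inj e
    by_contra h
    have h4 : n ≠ m := fun h' => h (by rw [h'])
    exact disjoint_left.1 (p2 i h4) (hg _ hq).1 (e' ▸ (hg _ hr).1)
  exact_mod_cast h3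

end Pool.Agent.Lib.CLF
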