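import Pool.Agent.Lib.CLF.BBlue

/-! Balanced splitting of the degree. -/

namespace Pool.Agent.Lib.CLF

theorem bARI : St_ARI := by
  intro δ hδ
  refine ⟨4 * δ * (2 * δ + 1), by nlinarith, fun d hd => ?_⟩
  by_cases h : d ≤ 4 * δ * (2 * δ + 1)
  · refine ⟨fun _ => 1, fun b => cond b δ (d - δ), by simp only [cond]; omega, fun b => ?_⟩
    cases b <;> simp only [cond] <;> omega
  · have h1 := Nat.div_add_mod d (2 * δ + 1)
    have h2 := Nat.mod_lt d (show 0 < 2 * δ + 1 by omega)
    have h3 : 4 * δ ≤ d / (2 * δ + 1) := (Nat.le_div_iff_mul_le (by omega)).2 (by omega)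
    generalize d / (2 * δ + 1) = q at h1 h3
    generalize d % (2 * δ + 1) = r at h1 h2
    obtain ⟨k, rfl⟩ := Nat.exists_eq_add_of_le (show r ≤ q by omega)
    have h4 : d ≤ 4 * δ * (2 * δ + 1) * k := by
      have h5 : r + k + 1 ≤ 4 * k := by omega
      calc d ≤ (2 * δ + 1) * (r + k + 1) := by nlinarith
        _ ≤ (2 * δ + 1) * (4 * k) := Nat.mul_le_mul_left _ h5
        _ = 4 * 1 * (2 * δ + 1) * k := by ring
        _ ≤ 4 * δ * (2 * δ + 1) * k := by gcongr
    refine ⟨fun b => cond b k (k + 2 * r), fun b => cond b δ (δ + 1), ?_, fun b => ?_⟩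
    · simp only [cond]
      rw [← h1]
      ring
    · cases b <;> simp only [cond]
      · exact ⟨by omega, by nlinarith, by omega, h4.trans (Nat.mul_le_mul_left _ (by omega))⟩
      · exact ⟨le_rfl, by nlinarith, by omega, h4⟩

end Pool.Agent.Lib.CLF
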