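import Pool.Agent.Lib.CLF.BBlue

/-! Low degrees written out. -/

open MvPolynomial Filter Topology Function Module Pool.Agent.Lib.MP_08f962_ag

noncomputable section

namespace Pool.Agent.Lib.CLF

namespace ASY

theorem eta (d : Fin 2 →₀ ℕ) : Finsupp.single 0 (d 0) + Finsupp.single 1 (d 1) = d := by
  ext i
  fin_cases i <;> simp

theorem van {q : MvPolynomial (Fin 2) ℝ} {k : ℕ} (h : q.totalDegree ≤ k) {a b : ℕ}
    (hab : k < a + b) : q.coeff (Finsupp.single 0 a + Finsupp.single 1 b) = 0 := by
  by_contra hne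
  have := (le_totalDegree (mem_support_iff.2 hne)).trans h
  rw [Finsupp.sum_fintype _ _ (fun _ => rfl)] at this
  simp at this
  omega

theorem ev_eq {q : MvPolynomial (Fin 2) ℝ} {k : ℕ} (h : q.totalDegree ≤ k) (s t : ℝ) :
    eval ![s, t] q = ∑ a ∈ Finset.range (k + 1), ∑ b ∈ Finset.range (k + 1),
      q.coeff (Finsupp.single 0 a + Finsupp.single 1 b) * (s ^ a * t ^ b) := by
  rw [eval_eq', ← Finset.sum_product']
  refine Finset.sum_of_injOn (fun d => (d 0, d 1)) (fun d _ d' _ e => ?_) (fun d hd => ?_)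
    (fun x _ hx => ?_) fun d _ => ?_
  · rw [← eta d, ← eta d']
    simp only [Prod.mk.injEq] at e
    rw [e.1, e.2]
  · have : ¬ k < d 0 + d 1 := fun hk => mem_support_iff.1 hd (by rw [← eta d]; exact van h hk)
    exact Finset.mem_product.2 ⟨Finset.mem_range.2 (show d 0 < k + 1 by omega),
      Finset.mem_range.2 (show d 1 < k + 1 by omega)⟩
  · rw [mul_eq_zero]
    left
    by_contra hne
    exact hx ⟨_, Finset.mem_coe.2 (mem_support_iff.2 hne), by simp⟩
  · simp [eta]

end ASY

open ASY in
theorem bASY : St_ASY where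
  zero := by
    rintro n m I c ⟨q, hq, he, hc⟩
    obtain ⟨p, hp⟩ := he.exists
    rw [ev_eq hq] at hp
    have : (0 : ℝ) ≤ hf I p := Nat.cast_nonneg _
    rw [hc]
    simpa [hp] using this
  one := by
    rintro n m I c ⟨q, hq, he, hc⟩
    refine ⟨q.coeff (Finsupp.single 0 0 + Finsupp.single 1 0), he.mono fun p hp => ?_⟩
    rw [hp, ev_eq hq, hc, hc]
    simp only [Finset.sum_range_succ, Finset.sum_range_zero, van hq (a := 1) (b := 1) (by omega)]
    norm_num [Nat.factorial]
    ring
  two := by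
    rintro n m I c ⟨q, hq, he, hc⟩
    refine ⟨q.coeff (Finsupp.single 0 1 + Finsupp.single 1 0),
      q.coeff (Finsupp.single 0 0 + Finsupp.single 1 1),
      q.coeff (Finsupp.single 0 0 + Finsupp.single 1 0), he.mono fun p hp => ?_⟩
    rw [hp, ev_eq hq, hc, hc, hc]
    simp only [Finset.sum_range_succ, Finset.sum_range_zero, van hq (a := 1) (b := 2) (by omega),
      van hq (a := 2) (b := 1) (by omega), van hq (a := 2) (b := 2) (by omega)]
    norm_num [Nat.factorial]
    ring

end Pool.Agent.Lib.CLF
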