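import Pool.Agent.Lib.CLF.BBlue

/-! Degrees of pairs of roots are bounded by the class. -/

open MvPolynomial Filter Topology Function Module Pool.Agent.Lib.MP_08f962_ag

noncomputable section

namespace Pool.Agent.Lib.CLF

namespace B1

lemma lim {R c A B C : ℝ} (h : ∀ᶠ s : ℕ in atTop, R * (s - c) * (s - c) ≤ A * s ^ 2 + B * s + C) :
    R ≤ A := by
  by_contra h0
  have h1 : 0 < R - A := by linarith
  obtain ⟨s, a, s1, s2⟩ := (h.and ((tendsto_natCast_atTop_atTop.eventually_ge_atTop (1 : ℝ)).and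
    (tendsto_natCast_atTop_atTop.eventually_ge_atTop
      ((|2 * R * c + B| + |R * c ^ 2 - C| + 1) / (R - A))))).exists
  rw [div_le_iff₀ h1] at s2
  have a1 := le_abs_self (2 * R * c + B)
  have a2 := neg_abs_le (R * c ^ 2 - C)
  have a3 := abs_nonneg (R * c ^ 2 - C)
  nlinarith [mul_le_mul_of_nonneg_left s2 (by linarith : (0 : ℝ) ≤ s),
    mul_le_mul_of_nonneg_left a1 (by linarith : (0 : ℝ) ≤ s),
    mul_le_mul_of_nonneg_left s1 a3]

lemma key (hHV : St_HV) (hINC : St_INC) (hLOW : St_LOW) (hASY : St_ASY) {n m : ℕ} (hn : 1 ≤ n)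
    (hm : 1 ≤ m) {P : Ideal (S n m)} {c : ℕ × ℕ → ℝ} {L : Type} [Field L] [Algebra ℂ L]
    {n' m' : ℕ} {ξ : Fin n' → L} {η : Fin m' → L} (h : IsRt P ξ η) (hc : Cl P 2 c)
    (i j : Fin n' ⊕ Fin m') (R : ℕ)
    (hi : AlgebraicIndependent ℂ ![Sum.elim ξ η i, Sum.elim ξ η j])
    (hR : (R : Cardinal) ≤
      Module.rank (IntermediateField.adjoin ℂ {Sum.elim ξ η i, Sum.elim ξ η j}) L) :
    ∃ (e α β γ : ℝ) (N : ℕ), ∀ s t : ℕ, N ≤ s → N ≤ t →
      R * (Sum.elim (fun _ => (s : ℝ)) (fun _ => (t : ℝ)) i - e) *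
        (Sum.elim (fun _ => (s : ℝ)) (fun _ => (t : ℝ)) j - e) ≤
      ((n + 1) ^ n * (m + 1) ^ m : ℝ) * (c (2, 0) * (n * s) ^ 2 / 2 + c (1, 1) * (n * s) * (m * t) +
        c (0, 2) * (m * t) ^ 2 / 2 + α * (n * s) + β * (m * t) + γ) := by
  obtain ⟨e, he⟩ := hLOW L _ _ i j R h.2.2.2 hi hR
  obtain ⟨α, β, γ, h2⟩ := hASY.two hc
  obtain ⟨p, hp⟩ := eventually_atTop.1 h2
  refine ⟨e, α, β, γ, max e (max p.1 p.2), fun s t hs ht => ?_⟩
  simp only [max_le_iff] at hs ht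
  have a1 := he (Sum.elim (fun _ => s) fun _ => t) (by rintro (k | k); exacts [hs.1, ht.1])
  have a2 := a1.trans (hINC.ge ξ η s t h.1 h.2.1)
  rw [← hHV.eq _ _ _ (h.2.2.1 _)] at a2
  have a3 := hp (n * s, m * t) ⟨hs.2.1.trans (Nat.le_mul_of_pos_left _ hn),
    ht.2.2.trans (Nat.le_mul_of_pos_left _ hm)⟩
  have a4 : ∀ k : Fin n' ⊕ Fin m', ((Sum.elim (fun _ => s) (fun _ => t) k - e : ℕ) : ℝ) =
      Sum.elim (fun _ => (s : ℝ)) (fun _ => (t : ℝ)) k - e := by
    rintro (k | k)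
    exacts [Nat.cast_sub hs.1, Nat.cast_sub ht.1]
  have a5 := (Nat.cast_le (α := ℝ)).2 a2
  rw [Nat.cast_mul, Nat.cast_mul, a4, a4, Nat.cast_mul, a3] at a5
  push_cast at a5
  exact a5

end B1

theorem bB1 (hHV : St_HV) (hINC : St_INC) (hLOW : St_LOW) (hASY : St_ASY) : St_B1 := by
  intro n m hn hm
  set D : ℝ := (n + 1) ^ n * (m + 1) ^ m with hD
  have D0 : 0 ≤ D := by positivity
  refine ⟨D * (n ^ 2 + m ^ 2), by positivity, fun P c L _ _ n' m' ξ η h hc h0 =>
    ⟨fun i j hi => ?_, fun i j => ?_, fun i j => ?_⟩⟩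
  · by_contra h1
    rw [FiniteDimensional, ← Module.rank_lt_aleph0_iff, not_lt] at h1
    obtain ⟨R, hR⟩ := exists_nat_gt
      (D * (c (2, 0) * n ^ 2 / 2 + c (1, 1) * n * m + c (0, 2) * m ^ 2 / 2))
    obtain ⟨e, α, β, γ, N, k⟩ := B1.key hHV hINC hLOW hASY hn hm h hc i j R hi
      (Cardinal.natCast_lt_aleph0.le.trans h1)
    refine hR.not_ge (B1.lim (c := e) (B := D * (α * n + β * m)) (C := D * γ) ?_)
    filter_upwards [eventually_ge_atTop N] with s hs
    have := k s s hs hs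
    rcases i with i | i <;> rcases j with j | j <;> simp only [Sum.elim_inl, Sum.elim_inr] at this <;>
      linarith
  · rw [dg]
    split_ifs with hi
    · obtain ⟨e, α, β, γ, N, k⟩ := B1.key hHV hINC hLOW hASY hn hm h hc (.inl i) (.inl j)
        (finrank (IntermediateField.adjoin ℂ {ξ i, ξ j}) L) hi (Cardinal.natCast_toNat_le _)
      refine (B1.lim (c := e) (A := D * (c (2, 0) * n ^ 2 / 2))
        (B := D * (c (1, 1) * n * (m * N) + α * n))
        (C := D * (c (0, 2) * (m * N) ^ 2 / 2 + β * (m * N) + γ)) ?_).trans ?_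
      · filter_upwards [eventually_ge_atTop N] with s hs
        have := k s N hs le_rfl
        simp only [Sum.elim_inl, ← hD] at this
        linarith
      · nlinarith [mul_nonneg (mul_nonneg D0 (h0 (2, 0))) (sq_nonneg (n : ℝ)),
          mul_nonneg (mul_nonneg D0 (h0 (2, 0))) (sq_nonneg (m : ℝ))]
    · have := h0 (2, 0)
      rw [Nat.cast_zero]
      positivity
  · rw [dg]
    split_ifs with hi
    · obtain ⟨e, α, β, γ, N, k⟩ := B1.key hHV hINC hLOW hASY hn hm h hc (.inr i) (.inr j)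
        (finrank (IntermediateField.adjoin ℂ {η i, η j}) L) hi (Cardinal.natCast_toNat_le _)
      refine (B1.lim (c := e) (A := D * (c (0, 2) * m ^ 2 / 2))
        (B := D * (c (1, 1) * (n * N) * m + β * m))
        (C := D * (c (2, 0) * (n * N) ^ 2 / 2 + α * (n * N) + γ)) ?_).trans ?_
      · filter_upwards [eventually_ge_atTop N] with s hs
        have := k N s le_rfl hs
        simp only [Sum.elim_inr, ← hD] at this
        linarith
      · nlinarith [mul_nonneg (mul_nonneg D0 (h0 (0, 2))) (sq_nonneg (n : ℝ)),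
          mul_nonneg (mul_nonneg D0 (h0 (0, 2))) (sq_nonneg (m : ℝ))]
    · have := h0 (0, 2)
      rw [Nat.cast_zero]
      positivity

end Pool.Agent.Lib.CLF
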