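import Pool.Agent.Lib.CLF.BBlue

/-! The mixed degree of a surface is bounded by the degrees of pairs of roots. -/

open Filter Function Module Pool.Agent.Lib.MP_08f962_ag

noncomputable section

namespace Pool.Agent.Lib.CLF

namespace B2aux

theorem ai_swap {L : Type} [Field L] [Algebra ℂ L] {a b : L}
    (h : AlgebraicIndependent ℂ ![a, b]) : AlgebraicIndependent ℂ ![b, a] := by
  have h1 := h.comp (Equiv.swap (0 : Fin 2) 1) (Equiv.injective _)
  have h2 : ![a, b] ∘ (Equiv.swap (0 : Fin 2) 1) = ![b, a] := by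
    funext i
    fin_cases i <;> simp
  rwa [h2] at h1

theorem dg_symm {L : Type} [Field L] [Algebra ℂ L] (a b : L) : dg a b = dg b a := by
  unfold dg
  by_cases h : AlgebraicIndependent ℂ ![a, b]
  · rw [if_pos h, if_pos (ai_swap h), Set.pair_comm]
  · rw [if_neg h, if_neg fun h' => h (ai_swap h')]

theorem us_fin {L ι : Type} [Field L] [Algebra ℂ L] [Fintype ι] (z : ι → L) (a : ι → ℕ) :
    FiniteDimensional ℂ (Us ℂ z a) := by
  classical
  apply FiniteDimensional.span_of_finite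
  refine ((Set.finite_Iic a).image fun e => ∏ i, z i ^ e i).subset ?_
  rintro w ⟨e, he, rfl⟩
  exact ⟨e, he, rfl⟩

theorem top_le (A B C D : ℝ) (h : ∀ᶠ N : ℕ in atTop, A * N ^ 2 ≤ B * N ^ 2 + C * N + D) :
    A ≤ B := by
  by_contra hlt
  have hd : 0 < A - B := by linarith [not_le.mp hlt]
  obtain ⟨N, hN, h1, h2⟩ := (h.and ((eventually_ge_atTop 1).and
    (tendsto_natCast_atTop_atTop.eventually_gt_atTop ((|C| + |D|) / (A - B))))).exists
  have h1' : (1 : ℝ) ≤ N := by exact_mod_cast h1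
  rw [div_lt_iff₀ hd] at h2
  have h3 : C * N ≤ |C| * N := mul_le_mul_of_nonneg_right (le_abs_self C) (by linarith)
  have h4 : D ≤ |D| * N := (le_abs_self D).trans (le_mul_of_one_le_right (abs_nonneg D) h1')
  have h5 : (|C| + |D|) * N < N * (A - B) * N := mul_lt_mul_of_pos_right h2 (by linarith)
  nlinarith

end B2aux

open B2aux in
theorem bB2 (hHV : St_HV) (hINC : St_INC) (hLU : St_LU) (hA : St_ASY) : St_B2 := by
  intro n m P c L _ _ n' m' ξ η p q hp hq hRt hCl hpos hFd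
  obtain ⟨α, β, γ, hev⟩ := hA.two hCl
  obtain ⟨κ, hκ⟩ := hLU L (Fin n' ⊕ Fin m') (Sum.elim ξ η) hFd
  have ht : Tendsto (fun N : ℕ => (p * N, q * N)) atTop atTop := by
    rw [← prod_atTop_atTop_eq]
    exact (tendsto_id.const_mul_atTop' hp).prodMk (tendsto_id.const_mul_atTop' hq)
  apply top_le _ _ (κ * (n' * p + m' * q) - (α * p + β * q)) (κ - γ)
  filter_upwards [ht.eventually hev] with N hN
  have e1 := hHV.eq (P := P) (cf n ξ) (cf m η) (p * N, q * N) (hRt.2.2.1 _)
  have hfin := us_fin (Sum.elim ξ η) (Sum.elim (fun _ => p * N) fun _ => q * N)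
  have e2 : (finrank ℂ (VV (cf n ξ) (cf m η) (p * N, q * N)) : ℝ) ≤
      finrank ℂ (Us ℂ (Sum.elim ξ η) (Sum.elim (fun _ => p * N) fun _ => q * N)) := by
    exact_mod_cast Submodule.finrank_mono (hINC.le ξ η (p * N) (q * N))
  have e3 := hκ (Sum.elim (fun _ => p * N) fun _ => q * N)
  have hs : ∑ j, ∑ i, (dg (η j) (ξ i) : ℝ) = ∑ i, ∑ j, (dg (ξ i) (η j) : ℝ) := by
    rw [Finset.sum_comm]
    exact Finset.sum_congr rfl fun i _ => Finset.sum_congr rfl fun j _ => by rw [dg_symm]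
  simp only [Fintype.sum_sum_type, Sum.elim_inl, Sum.elim_inr, Finset.sum_add_distrib,
    Finset.sum_const, Finset.card_univ, Fintype.card_fin, smul_eq_mul, Nat.cast_add, Nat.cast_mul,
    ← Finset.sum_mul, hs] at e3
  rw [e1] at hN
  simp only [Nat.cast_mul] at hN
  have h20 : 0 ≤ c (2, 0) * (p * N : ℝ) ^ 2 := mul_nonneg (hpos _) (sq_nonneg _)
  have h02 : 0 ≤ c (0, 2) * (q * N : ℝ) ^ 2 := mul_nonneg (hpos _) (sq_nonneg _)
  have e4 := e2.trans e3
  rw [hN] at e4
  linarith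

end Pool.Agent.Lib.CLF
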