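import Pool.Agent.Lib.CLF.ABlue

/-! Row BIL: multi-affine inequalities pass to closed convex hulls. -/

open Set

noncomputable section

namespace Pool.Agent.Lib.CLF

lemma BIL.half {E : Type} [NormedAddCommGroup E] [NormedSpace ℝ E] {T : Set E} {φ : E → ℝ} {ε : ℝ}
    (hc : Continuous φ) (hl : IsLinearMap ℝ φ) (h : ∀ x ∈ T, ε ≤ φ x) :
    ∀ x ∈ closure (convexHull ℝ T), ε ≤ φ x :=
  closure_minimal (convexHull_min h (convex_halfSpace_ge hl ε)) (isClosed_le continuous_const hc)

open BIL in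
theorem bBIL : St_BIL := fun r N ε Q Q' h1 h2 x y hx hy => by
  refine ⟨fun i j => ?_, ?_⟩
  · refine half (φ := fun x : Fin r → ℝ => ∑ k, x k * y j k) (by fun_prop)
      ⟨fun a b => by simp [add_mul, Finset.sum_add_distrib],
        fun c a => by simp [Finset.mul_sum, mul_assoc]⟩ (fun a ha => ?_) _ (hx i)
    exact half (φ := fun y : Fin r → ℝ => ∑ k, a k * y k) (by fun_prop)
      ⟨fun a b => by simp [mul_add, Finset.sum_add_distrib],
        fun c a => by simp [Finset.mul_sum, mul_left_comm]⟩ (h1 i j a ha) _ (hy j)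
  · have m : ∀ (Q : Fin N → Set (Fin r → ℝ)) (x : Fin N → Fin r → ℝ),
        (∀ i, x i ∈ closure (convexHull ℝ (Q i))) → x ∈ closure (convexHull ℝ (univ.pi Q)) :=
      fun Q x hx => by rw [convexHull_pi, closure_pi_set]; exact fun i _ => hx i
    refine half (φ := fun x : Fin N → Fin r → ℝ => ∑ i, ∑ j, ∑ k, x i k * y j k) (by fun_prop)
      ⟨fun a b => by simp [add_mul, Finset.sum_add_distrib],
        fun c a => by simp [Finset.mul_sum, mul_assoc]⟩ (fun a ha => ?_) _ (m Q x hx)
    exact half (φ := fun y : Fin N → Fin r → ℝ => ∑ i, ∑ j, ∑ k, a i k * y j k) (by fun_prop)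
      ⟨fun a b => by simp [mul_add, Finset.sum_add_distrib],
        fun c a => by simp [Finset.mul_sum, mul_left_comm]⟩
      (fun b (hb : b ∈ univ.pi Q') => h2 a b (fun i => ha i trivial) fun j => hb j trivial) _ (m Q' y hy)

end Pool.Agent.Lib.CLF
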