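import Pool.Agent.Lib.CLF.BBlue
import Pool.Agent.Lib.MP_08f962_ag.Ev

/-! The class of the whole space. -/

open MvPolynomial Filter Topology Function Module Pool.Agent.Lib.MP_08f962_ag

noncomputable section

namespace Pool.Agent.Lib.CLF

theorem bBOT : St_BOT := by
  intro n m
  have dg := fun k => Polynomial.natDegree_preHilbertPoly ℝ k 0
  have inj : ∀ i j a b : ℕ, (Finsupp.single 0 i + Finsupp.single 1 j : Fin 2 →₀ ℕ) =
      Finsupp.single 0 a + Finsupp.single 1 b ↔ i = a ∧ j = b := fun i j a b =>
    ⟨fun h => ⟨by simpa using DFunLike.congr_fun h 0, by simpa using DFunLike.congr_fun h 1⟩,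
      fun h => by rw [h.1, h.2]⟩
  refine ⟨∑ i ∈ Finset.range (n + 1), ∑ j ∈ Finset.range (m + 1),
    monomial (Finsupp.single 0 i + Finsupp.single 1 j) ((Polynomial.preHilbertPoly ℝ n 0).coeff i *
      (Polynomial.preHilbertPoly ℝ m 0).coeff j), ?_, .of_forall fun p => ?_, fun a b => ?_⟩
  · refine totalDegree_finsetSum_le fun i hi => totalDegree_finsetSum_le fun j hj =>
      (totalDegree_monomial_le _ _).trans ?_
    rw [Finsupp.sum_add_index' (by simp) (by simp)]
    simp only [Finset.mem_range] at hi hj
    simp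
    omega
  · have h1 := hf_add_gd (⊥ : Ideal (S n m)) (p.1, p.2)
    rw [gd, Submodule.restrictScalars_bot, inf_bot_eq, finrank_bot, add_zero, finrank_forms] at h1
    have e : ∀ k t : ℕ, ((t + k).choose k : ℝ) = ∑ i ∈ Finset.range (k + 1),
        (Polynomial.preHilbertPoly ℝ k 0).coeff i * (t : ℝ) ^ i := fun k t => by
      rw [← Polynomial.eval_eq_sum_range' (by rw [dg]; exact k.lt_succ_self),
        Polynomial.preHilbertPoly_eq_choose_sub_add _ _ t.zero_le, Nat.sub_zero]
    rw [h1, Nat.cast_mul, e, e, Finset.sum_mul_sum]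
    simp only [map_sum, eval_monomial]
    refine Finset.sum_congr rfl fun i _ => Finset.sum_congr rfl fun j _ => ?_
    rw [Finsupp.prod_fintype _ _ (by simp)]
    simp
    ring
  · simp only [coeff_sum, coeff_monomial, inj, ite_and, Finset.sum_ite_eq', Finset.mem_range,
      Finset.sum_ite_irrel, Finset.sum_const_zero, Pi.single_apply, Prod.mk.injEq]
    by_cases h : a = n ∧ b = m
    · obtain ⟨rfl, rfl⟩ := h
      have := a.factorial_ne_zero
      have := b.factorial_ne_zero
      simp [Polynomial.coeff_preHilbertPoly_self]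
      field_simp
    · split_ifs <;> first | omega | simp

end Pool.Agent.Lib.CLF
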