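import Pool.Agent.Lib.CLF.ABlue

/-! Local sections of a finite cover. -/

open MeasureTheory Filter Topology Set Function

noncomputable section

namespace Pool.Agent.Lib.CLF

namespace BR

theorem inj_of_range {β : ℕ} {f g : Fin β → ℂ} (hg : Injective g) (h : range f = range g) :
    Injective f := by
  have h1 : ∀ k, ∃ j, g j = f k := fun k => h.subset (mem_range_self k)
  choose σ hσ using h1
  have hs : Surjective σ := fun j => by
    obtain ⟨k, hk⟩ : g j ∈ range f := h ▸ mem_range_self j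
    exact ⟨k, hg ((hσ k).trans hk)⟩
  intro a b hab
  exact Finite.injective_iff_surjective.2 hs (hg (by rw [hσ, hσ, hab]))

theorem triv (C : Cv) {z : B2} (hz : z ∈ C.Ω) : ∃ (ε : ℝ) (b : Fin C.β → B2 → ℂ), 0 < ε ∧
    Metric.ball z ε ⊆ C.Ω ∧ ∀ w ∈ Metric.ball z ε, (Injective fun k => b k w) ∧
      (range fun k => b k w) = (range fun k => C.r k w) ∧ ∀ k, C.IsBr (w, b k w) (b k) := by
  obtain ⟨b, hb, hr⟩ := C.lc z hz
  have h1 : ∀ᶠ w in 𝓝 z, ∀ k, AnalyticAt ℂ (b k) w :=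
    eventually_all.2 fun k => (hb k).eventually_analyticAt
  obtain ⟨ε, hε, h⟩ := Metric.eventually_nhds_iff_ball.1 ((hr.and h1).and (C.op.mem_nhds hz))
  refine ⟨ε, b, hε, fun w hw => (h w hw).2, fun w hw => ⟨inj_of_range (C.inj w (h w hw).2)
    (h w hw).1.1, (h w hw).1.1, fun k => ⟨(h w hw).1.2 k, rfl, ?_⟩⟩⟩
  filter_upwards [Metric.isOpen_ball.mem_nhds hw] with v hv
  exact ⟨(h v hv).2, (h v hv).1.1 ▸ mem_range_self k⟩

theorem sel (C : Cv) {p : Am} (hp : p ∈ C.S) :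
    ∃ b, C.IsBr p b ∧ ∀ᶠ q in 𝓝 p, q ∈ C.S → q.2 = b q.1 := by
  obtain ⟨ε, b, hε, -, h⟩ := triv C hp.1
  obtain ⟨i1, i2, i3⟩ := h p.1 (Metric.mem_ball_self hε)
  obtain ⟨j, hj⟩ : p.2 ∈ range fun k => b k p.1 := i2 ▸ hp.2
  have hj' : b j p.1 = p.2 := hj
  refine ⟨b j, ⟨(i3 j).1, hj', (i3 j).2.2⟩, ?_⟩
  have h1 : ∀ᶠ q in 𝓝 p, ∀ i, i ≠ j → q.2 ≠ b i q.1 := eventually_all.2 fun i => by
    by_cases hi : i = j
    · exact Eventually.of_forall fun _ h => (h hi).elim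
    · have c : ContinuousAt (fun q : Am => q.2 - b i q.1) p :=
        continuousAt_snd.sub (ContinuousAt.comp (g := b i) (f := Prod.fst) (x := p)
          (i3 i).1.continuousAt continuousAt_fst)
      have n : p.2 - b i p.1 ≠ 0 := sub_ne_zero.2 fun e => hi (i1 (e.symm.trans hj'.symm))
      filter_upwards [c.eventually_ne n] with q hq _ using sub_ne_zero.1 hq
  have h2 : ∀ᶠ q in 𝓝 p, q.1 ∈ Metric.ball p.1 ε :=
    continuousAt_fst.eventually (Metric.ball_mem_nhds _ hε)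
  filter_upwards [h1, h2] with q a1 a2 hq
  obtain ⟨i, hi⟩ : q.2 ∈ range fun k => b k q.1 := (h q.1 a2).2.1 ▸ hq.2
  by_cases e : i = j
  · exact e ▸ hi.symm
  · exact (a1 i e hi.symm).elim

theorem isBr (C : Cv) {p : Am} (hp : p ∈ C.S) : C.IsBr p (C.br p) :=
  Classical.epsilon_spec ((sel C hp).imp fun _ h => h.1)

theorem uniq (C : Cv) {p : Am} {b : B2 → ℂ} (hp : p ∈ C.S) (hb : C.IsBr p b) :
    b =ᶠ[𝓝 p.1] C.br p := by
  obtain ⟨b0, -, h⟩ := sel C hp
  have k : ∀ b, C.IsBr p b → b =ᶠ[𝓝 p.1] b0 := fun b hb => by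
    have c : Tendsto (fun w => (w, b w)) (𝓝 p.1) (𝓝 p) := by
      have := (continuousAt_id.prodMk hb.1.continuousAt).tendsto
      rwa [id, hb.2.1] at this
    filter_upwards [c.eventually h, hb.2.2] with w h1 h2 using h1 h2
  exact (k b hb).trans (k _ (isBr C hp)).symm

theorem near (C : Cv) {p : Am} (hp : p ∈ C.S) : ∀ᶠ q in 𝓝[C.S] p, q.2 = C.br p q.1 := by
  obtain ⟨b0, h0, h⟩ := sel C hp
  have h1 := continuousAt_fst.eventually (uniq C hp h0)
  filter_upwards [nhdsWithin_le_nhds h, nhdsWithin_le_nhds h1, self_mem_nhdsWithin] with q a1 a2 a3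
  exact (a1 a3).trans a2

theorem self (C : Cv) {p : Am} (F : Am → ℂ) (hp : p ∈ C.S) : C.dn F p p.1 = F p := by
  unfold Cv.dn
  rw [(isBr C hp).2.1]

end BR

open BR in
theorem bBR : St_BR where
  isBr := isBr
  uniq := uniq
  ev_dn C p hp := by
    obtain ⟨h1, -, h3⟩ := isBr C hp
    filter_upwards [h1.eventually_analyticAt, h3.eventually_nhds, h3] with w a1 a2 a3
    refine ⟨a3, fun F => ?_⟩
    filter_upwards [uniq C (p := (w, C.br p w)) a3 ⟨a1, rfl, a2⟩] with v hv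
    unfold Cv.dn
    rw [hv]
  self := self
  near := near
  meas C := by
    have : C.S = Prod.fst ⁻¹' C.Ω ∩ ⋃ k, {p : Am | C.r k p.1 = p.2} := by
      ext p; simp [Cv.S]
    rw [this]
    exact (measurable_fst C.op.measurableSet).inter (MeasurableSet.iUnion fun k =>
      measurableSet_eq_fun ((C.meas k).comp measurable_fst) measurable_snd)
  cont C F hF p hp := by
    have c : ContinuousWithinAt (fun q : Am => C.dn F p q.1) C.S p :=
      ((hF p hp).continuousAt.comp continuousAt_fst).continuousWithinAt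
    refine c.congr_of_eventuallyEq ?_ (self C F hp).symm
    filter_upwards [near C hp] with q hq
    unfold Cv.dn
    rw [← hq]
  cpt C K hK hs := by
    obtain ⟨T, h1, h2, h3⟩ : ∃ T, IsCompact T ∧ C.S ∩ Prod.fst ⁻¹' K ⊆ T ∧
        T ⊆ C.S ∩ Prod.fst ⁻¹' K := by
      refine hK.induction_on (p := fun s => ∃ T, IsCompact T ∧ C.S ∩ Prod.fst ⁻¹' s ⊆ T ∧
        T ⊆ C.S ∩ Prod.fst ⁻¹' K) ⟨∅, isCompact_empty, by simp, empty_subset _⟩
        (fun s t hst ⟨T, a, b, c⟩ => ⟨T, a, fun q hq => b ⟨hq.1, hst hq.2⟩, c⟩)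
        (fun s t ⟨T, a, b, c⟩ ⟨T', a', b', c'⟩ => ⟨T ∪ T', a.union a', fun q hq =>
          hq.2.imp (fun h => b ⟨hq.1, h⟩) fun h => b' ⟨hq.1, h⟩, union_subset c c'⟩) fun z hz => ?_
      obtain ⟨ε, b, hε, h1, h⟩ := triv C (hs hz)
      have sb : Metric.closedBall z (ε / 2) ⊆ Metric.ball z ε :=
        Metric.closedBall_subset_ball (by linarith)
      refine ⟨K ∩ Metric.closedBall z (ε / 2), inter_mem_nhdsWithin _
        (Metric.closedBall_mem_nhds _ (by linarith)),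
        ⋃ k, (fun w => (w, b k w)) '' (K ∩ Metric.closedBall z (ε / 2)),
        isCompact_iUnion fun k => (hK.inter_right Metric.isClosed_closedBall).image_of_continuousOn
          fun w hw => (continuousAt_id.prodMk
            ((h w (sb hw.2)).2.2 k).1.continuousAt).continuousWithinAt, fun q hq => ?_,
        iUnion_subset fun k => ?_⟩
      · obtain ⟨k, hk⟩ : q.2 ∈ range fun k => b k q.1 := (h q.1 (sb hq.2.2)).2.1 ▸ hq.1.2
        exact mem_iUnion.2 ⟨k, q.1, hq.2, Prod.ext rfl hk⟩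
      · rintro _ ⟨w, hw, rfl⟩
        exact ⟨((h w (sb hw.2)).2.2 k).2.2.self_of_nhds, hw.1⟩
    rwa [← h3.antisymm h2]
  triv := triv

end Pool.Agent.Lib.CLF
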