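import Pool.Agent.Lib.CLF.ABlue

/-! Calculus on the cover. -/

open MeasureTheory Filter Topology Set Function
open scoped ContDiff ENNReal ComplexConjugate

noncomputable section

namespace Pool.Agent.Lib.CLF

namespace CAL

variable {f g : B2 → ℂ} {z : B2} {C : Cv} {F G : Am → ℂ} {p : Am} {U : Set B2}

theorem cd_conj (h : ContDiffAt ℝ ∞ f z) : ContDiffAt ℝ ∞ (fun w => conj (f w)) z :=
  Complex.conjCLE.contDiff.contDiffAt.comp z h

theorem d_conj (h : DifferentiableAt ℝ f z) : DifferentiableAt ℝ (fun w => conj (f w)) z :=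
  Complex.conjCLE.differentiableAt.comp z h

theorem wb_add (W : St_WIR) (b : Bool) (hf : DifferentiableAt ℝ f z) (hg : DifferentiableAt ℝ g z) :
    wb b (fun w => f w + g w) z = wb b f z + wb b g z := by
  simp only [W.star, map_add]
  rw [W.add b (d_conj hf) (d_conj hg), map_add]

theorem wb_mul (W : St_WIR) (b : Bool) (hf : DifferentiableAt ℝ f z) (hg : DifferentiableAt ℝ g z) :
    wb b (fun w => f w * g w) z = wb b f z * g z + f z * wb b g z := by
  simp only [W.star, map_mul]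
  rw [W.mul b (d_conj hf) (d_conj hg)]
  simp

theorem wb_cst (W : St_WIR) (b : Bool) (c : ℂ) (z : B2) : wb b (fun _ => c) z = 0 := by
  rw [W.star, W.cst, map_zero]

theorem df (h : C.Sm F) (hp : p ∈ C.S) : DifferentiableAt ℝ (C.dn F p) p.1 :=
  (h p hp).differentiableAt (by simp)

theorem dn_congr (R : St_BR) (h : EqOn F G C.S) (hp : p ∈ C.S) : C.dn F p =ᶠ[𝓝 p.1] C.dn G p :=
  (R.ev_dn C hp).mono fun _ hw => h hw.1

theorem dn_D (W : St_WIR) (R : St_BR) (b : Bool) (F : Am → ℂ) (hp : p ∈ C.S) :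
    C.dn (C.D b F) p =ᶠ[𝓝 p.1] wd b (C.dn F p) :=
  (R.ev_dn C hp).mono fun _ hw => (W.congr b (hw.2 F)).1

theorem dn_Db (W : St_WIR) (R : St_BR) (b : Bool) (F : Am → ℂ) (hp : p ∈ C.S) :
    C.dn (C.Db b F) p =ᶠ[𝓝 p.1] wb b (C.dn F p) :=
  (R.ev_dn C hp).mono fun _ hw => (W.congr b (hw.2 F)).2

theorem smD (W : St_WIR) (R : St_BR) (b : Bool) (h : C.Sm F) : C.Sm (C.D b F) ∧ C.Sm (C.Db b F) :=
  ⟨fun p hp => (W.sm b (h p hp)).1.congr_of_eventuallyEq (dn_D W R b F hp),
    fun p hp => (W.sm b (h p hp)).2.congr_of_eventuallyEq (dn_Db W R b F hp)⟩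

/-- a smooth function that vanishes with a test function is a test function -/
theorem tst_of (h : C.Tst U F) (hG : C.Sm G) (h0 : ∀ p, F p = 0 → G p = 0) : C.Tst U G := by
  obtain ⟨-, K, h1, h2, h3⟩ := h
  exact ⟨hG, K, h1, h2, fun p hp hK => h0 p (h3 p hp hK)⟩

theorem tadd (h : C.Tst U F) (h' : C.Tst U G) : C.Tst U fun p => F p + G p := by
  obtain ⟨s, K, h1, h2, h3⟩ := h
  obtain ⟨s', K', h1', h2', h3'⟩ := h'
  exact ⟨fun p hp => (s p hp).add (s' p hp), K ∪ K', h1.union h1', union_subset h2 h2',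
    fun p hp hK => by
      simp only [h3 p hp fun a => hK (Or.inl a), h3' p hp fun a => hK (Or.inr a), add_zero]⟩

end CAL

open CAL in
theorem bCAL (W : St_WIR) (R : St_BR) : St_CAL where
  congr C b F G h := by
    have s : C.Sm F → C.Sm G := fun s p hp => (s p hp).congr_of_eventuallyEq (dn_congr R h hp).symm
    exact ⟨fun p hp => (W.congr b (dn_congr R h hp)).1, fun p hp => (W.congr b (dn_congr R h hp)).2,
      s, fun U ⟨t, K, h1, h2, h3⟩ => ⟨s t, K, h1, h2, fun p hp hK => h hp ▸ h3 p hp hK⟩⟩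
  base _ _ _ _ := ⟨rfl, rfl⟩
  smb _ _ h _ _ := h.contDiffAt
  add C F G h h' := ⟨fun p hp => (h p hp).add (h' p hp), fun b p hp =>
    ⟨W.add b (df h hp) (df h' hp), wb_add W b (df h hp) (df h' hp)⟩⟩
  mul C F G h h' := ⟨fun p hp => (h p hp).mul (h' p hp), fun b p hp => by
    rw [← R.self C F hp, ← R.self C G hp]
    exact ⟨W.mul b (df h hp) (df h' hp), wb_mul W b (df h hp) (df h' hp)⟩⟩
  star C F := ⟨fun h p hp => cd_conj (h p hp), fun b p => by
    unfold Cv.D Cv.Db Cv.dn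
    simp [W.star]⟩
  real C b f p := by
    unfold Cv.D Cv.Db Cv.dn
    simp [W.star, cx]
  smD _ b _ h := smD W R b h
  comm C b b' F h p hp := by
    obtain ⟨h1, h2⟩ := W.comm b b' (h p hp)
    exact ⟨((W.congr b (dn_D W R b' F hp)).1.trans h1).trans (W.congr b' (dn_D W R b F hp)).1.symm,
      ((W.congr b (dn_Db W R b' F hp)).1.trans h2).trans (W.congr b' (dn_D W R b F hp)).2.symm⟩
  hol C F h := ⟨fun p hp => (h p hp).contDiffAt.restrict_scalars ℝ,
    fun b p hp => (W.hol b (h p hp).differentiableAt).1⟩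
  comp C G f hG h := ⟨fun p hp => Complex.ofRealCLM.contDiff.contDiffAt.comp p.1
      (hG.contDiffAt.comp p.1 (Complex.reCLM.contDiff.contDiffAt.comp p.1 (h p hp))),
    fun b p hp => by
      have := W.comp b (G := G) (f := fun w => f (w, C.br p w)) (df h hp)
        (hG.differentiable (by simp) _)
      rw [(R.isBr C hp).2.1] at this
      exact this⟩
  tmul C U F G h h' := tst_of h' (fun p hp => (h p hp).mul (h'.1 p hp)) fun p e => by
    rw [e, mul_zero]
  tadd _ _ _ _ := tadd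
  tsum C U ι s F h := by
    classical
    induction s using Finset.induction_on with
    | empty => exact ⟨⟨fun _ _ => contDiffAt_const, ∅, isCompact_empty, empty_subset _,
        fun _ _ _ => rfl⟩, fun b p _ => W.cst b 0 _⟩
    | insert i s hi ih =>
      obtain ⟨h1, h2⟩ := ih fun j hj => h j (Finset.mem_insert_of_mem hj)
      have h3 := h i (Finset.mem_insert_self _ _)
      simp only [Finset.sum_insert hi]
      exact ⟨tadd h3 h1, fun b p hp => (W.add b (df h3.1 hp) (df h1.1 hp)).trans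
        (congrArg _ (h2 b p hp))⟩
  tD C b U F := fun ⟨s, K, h1, h2, h3⟩ => by
    have e : ∀ p ∈ C.S, p.1 ∉ K → C.dn F p =ᶠ[𝓝 p.1] fun _ => 0 := fun p hp hK => by
      filter_upwards [R.ev_dn C hp, h1.isClosed.isOpen_compl.mem_nhds hK] with w a c
      exact h3 _ a.1 c
    exact ⟨⟨(smD W R b s).1, K, h1, h2, fun p hp hK => (W.congr b (e p hp hK)).1.trans (W.cst b 0 _)⟩,
      (smD W R b s).2, K, h1, h2, fun p hp hK => (W.congr b (e p hp hK)).2.trans (wb_cst W b 0 _)⟩
  tstar C U F h := ⟨tst_of h (fun p hp => cd_conj (h.1 p hp)) fun p e => by rw [e, map_zero],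
    tst_of h (fun p hp => Complex.ofRealCLM.contDiff.contDiffAt.comp p.1
      (Complex.reCLM.contDiff.contDiffAt.comp p.1 (h.1 p hp))) fun p e => by simp [cx, e],
    tst_of h (fun p hp => Complex.ofRealCLM.contDiff.contDiffAt.comp p.1
      (Complex.imCLM.contDiff.contDiffAt.comp p.1 (h.1 p hp))) fun p e => by simp [cx, e]⟩
  tbump C U F h hb s := ⟨fun p hp => hb.1.contDiffAt.mul (s p hp), tsupport h, hb.2.1, hb.2.2,
    fun p _ hK => mul_eq_zero_of_left (image_eq_zero_of_notMem_tsupport hK) _⟩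
  tloc C U F θ hb := fun ⟨s, K, h1, h2, h3⟩ =>
    ⟨fun p hp => (hb.1.comp contDiff_fst).contDiffAt.mul (s p hp), K ∩ Prod.fst ⁻¹' tsupport θ,
      h1.inter_right ((isClosed_tsupport θ).preimage continuous_fst),
      fun z hz => ⟨(h2 hz.1).1, hb.2.2 hz.2⟩, fun p hp hK => by
        by_cases a : p.1 ∈ K
        · exact mul_eq_zero_of_left (image_eq_zero_of_notMem_tsupport fun c => hK ⟨a, c⟩) _
        · exact mul_eq_zero_of_right _ (h3 p hp a)⟩

end Pool.Agent.Lib.CLF
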