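import Pool.Agent.Lib.CLF.ABlue

/-! Row WM: the weighted measures. -/

open MeasureTheory Filter Topology Set Function
open scoped ContDiff ENNReal ComplexConjugate

noncomputable section

namespace Pool.Agent.Lib.CLF

namespace WM

variable {l : ℝ}

theorem rho_pos (hl : 0 < l) (z : ℂ) : 0 < rho l z := by unfold rho; positivity

theorem rho_le (hl : 0 < l) (z : ℂ) : rho l z ≤ l :=
  div_le_self hl.le (one_le_pow₀ (le_add_of_nonneg_right (sq_nonneg _)))

theorem rho_sm (l : ℝ) : ContDiff ℝ ∞ (rho l) :=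
  contDiff_const.div ((contDiff_const.add (contDiff_norm_sq ℂ)).pow 2) fun z => by positivity

theorem rho_ge (hl : 0 < l) {z : ℂ} {R : ℝ} (h : ‖z‖ ≤ R) : 1 ≤ (1 + R ^ 2) ^ 2 / l * rho l z := by
  rw [rho, div_mul_div_cancel₀ hl.ne', one_le_div (by positivity)]
  gcongr

theorem rho_int (hl : 0 < l) : ∫⁻ z, ENNReal.ofReal (rho l z) = ENNReal.ofReal (l * Real.pi) := by
  have d : ∀ x ∈ Ici (0 : ℝ), HasDerivAt (fun x : ℝ => -(l / 2) * (1 + x ^ 2)⁻¹)
      (x * (l / (1 + x ^ 2) ^ 2)) x := fun x _ => by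
    have h : 1 + x ^ 2 ≠ 0 := by positivity
    refine ((((hasDerivAt_pow 2 x).const_add 1).fun_inv h).const_mul (-(l / 2))).congr_deriv ?_
    simp only [Nat.cast_ofNat, Nat.add_one_sub_one, pow_one]
    field_simp
  have p : ∀ x ∈ Ioi (0 : ℝ), 0 ≤ x * (l / (1 + x ^ 2) ^ 2) := fun x (hx : 0 < x) => by positivity
  have t : Tendsto (fun x : ℝ => -(l / 2) * (1 + x ^ 2)⁻¹) atTop (𝓝 0) := by
    simpa using (tendsto_atTop_add_const_left _ 1
      (tendsto_pow_atTop (α := ℝ) two_ne_zero)).inv_tendsto_atTop.const_mul (-(l / 2))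
  have e : ∫⁻ x in Ioi (0 : ℝ), ENNReal.ofReal (x * (l / (1 + x ^ 2) ^ 2)) =
      ENNReal.ofReal (l / 2) := by
    rw [← ofReal_integral_eq_lintegral_ofReal (integrableOn_Ioi_deriv_of_nonneg' d p t)
      ((ae_restrict_iff' measurableSet_Ioi).2 (ae_of_all _ p)),
      integral_Ioi_of_hasDerivAt_of_nonneg' d p t]
    simp
  rw [← Complex.lintegral_comp_polarCoord_symm, polarCoord_target,
    setLIntegral_congr_fun (g := fun p : ℝ × ℝ =>
      ENNReal.ofReal (p.1 * (l / (1 + p.1 ^ 2) ^ 2)) * (fun _ => 1) p.2)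
      (measurableSet_Ioi.prod measurableSet_Ioo) fun p hp => by
        simp only [rho, Complex.norm_polarCoord_symm, sq_abs, smul_eq_mul, mul_one]
        rw [ENNReal.ofReal_mul (le_of_lt hp.1)],
    Measure.volume_eq_prod, ← Measure.prod_restrict,
    lintegral_prod_mul (f := fun x : ℝ => ENNReal.ofReal (x * (l / (1 + x ^ 2) ^ 2)))
      (g := fun _ : ℝ => 1) (by fun_prop) (by fun_prop), e]
  simp only [lintegral_const, one_mul, Measure.restrict_apply MeasurableSet.univ, univ_inter,
    Real.volume_Ioo]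
  rw [← ENNReal.ofReal_mul (by positivity)]
  congr 1
  ring

theorem co_ot (l : ℝ) (b : Bool) (z : B2) :
    rho l z.1 * rho l z.2 = rho l (co b z) * rho l (ot b z) := by
  cases b
  · exact mul_comm _ _
  · rfl

theorem c_co (b : Bool) : Continuous (co b) := by
  cases b
  exacts [continuous_snd, continuous_fst]

theorem c_ot (b : Bool) : Continuous (ot b) := by
  cases b
  exacts [continuous_fst, continuous_snd]

theorem m_n (l : ℝ) : Measurable fun p : Am => ENNReal.ofReal (rho l p.1.1 * rho l p.1.2) :=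
  (((rho_sm l).continuous.comp continuous_fst.fst).mul
    ((rho_sm l).continuous.comp continuous_fst.snd)).measurable.ennreal_ofReal

theorem m_o (l : ℝ) (b : Bool) : Measurable fun p : Am => ENNReal.ofReal (rho l (ot b p.1)) :=
  ((rho_sm l).continuous.comp ((c_ot b).comp continuous_fst)).measurable.ennreal_ofReal

/-- Comparison of two densities on a set. -/
theorem cmp {μ : Measure Am} {f g : Am → ℝ} {A : Set Am} {M : ℝ} (hA : MeasurableSet A)
    (hM : 0 ≤ M) (h : ∀ p ∈ A, f p ≤ M * g p) :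
    (μ.withDensity fun p => ENNReal.ofReal (f p)).restrict A ≤
      ENNReal.ofReal M • μ.withDensity fun p => ENNReal.ofReal (g p) := by
  rw [restrict_withDensity hA, ← withDensity_indicator hA,
    ← withDensity_smul' _ _ ENNReal.ofReal_ne_top]
  refine withDensity_mono (ae_of_all _ fun p => indicator_apply_le' (fun hp => ?_) fun _ => zero_le)
  rw [Pi.smul_apply, smul_eq_mul, ← ENNReal.ofReal_mul hM]
  exact ENNReal.ofReal_le_ofReal (h p hp)

theorem one (μ : Measure Am) : (μ.withDensity fun _ => ENNReal.ofReal 1) = μ := by simp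

variable (C : Cv)

theorem n_le_o (hl : 0 < l) (b : Bool) : C.mn l ≤ ENNReal.ofReal l • C.mo l b := by
  have := cmp (μ := C.mu) (f := fun p => rho l p.1.1 * rho l p.1.2) (g := fun p => rho l (ot b p.1))
    MeasurableSet.univ hl.le fun p _ => by
      rw [co_ot l b]
      exact mul_le_mul_of_nonneg_right (rho_le hl _) (rho_pos hl _).le
  rwa [Measure.restrict_univ] at this

theorem o_le (hl : 0 < l) (b : Bool) : C.mo l b ≤ ENNReal.ofReal l • C.mu := by
  have := cmp (μ := C.mu) (f := fun p => rho l (ot b p.1)) (g := fun _ => 1)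
    MeasurableSet.univ hl.le fun p _ => by rw [mul_one]; exact rho_le hl _
  rwa [Measure.restrict_univ, one] at this

theorem n_le (hl : 0 < l) : C.mn l ≤ ENNReal.ofReal (l ^ 2) • C.mu := by
  have := cmp (μ := C.mu) (f := fun p => rho l p.1.1 * rho l p.1.2) (g := fun _ => 1)
    MeasurableSet.univ (sq_nonneg l) fun p _ => by
      rw [mul_one, sq]
      exact mul_le_mul (rho_le hl _) (rho_le hl _) (rho_pos hl _).le hl.le
  rwa [Measure.restrict_univ, one] at this

theorem ac_n (hl : 0 < l) : C.mu ≪ C.mn l :=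
  withDensity_absolutelyContinuous' (m_n l).aemeasurable (ae_of_all _ fun p =>
    (ENNReal.ofReal_pos.2 (mul_pos (rho_pos hl _) (rho_pos hl _))).ne')

theorem loc_n (hl : 0 < l) {f : Am → ℂ} (h : MemLp f 2 (C.mn l)) : C.Loc f := by
  refine ⟨h.1.mono_ac (ac_n C hl), fun K hK _ => ?_⟩
  obtain ⟨R, hR⟩ := hK.isBounded.exists_norm_le
  have := cmp (μ := C.mu) (f := fun _ => 1) (g := fun p => rho l p.1.1 * rho l p.1.2)
    (M := (1 + R ^ 2) ^ 2 / l * ((1 + R ^ 2) ^ 2 / l)) (A := Prod.fst ⁻¹' K)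
    (measurable_fst hK.measurableSet) (by positivity) fun p hp => by
      rw [mul_mul_mul_comm]
      exact one_le_mul_of_one_le_of_one_le (rho_ge hl ((norm_fst_le _).trans (hR _ hp)))
        (rho_ge hl ((norm_snd_le _).trans (hR _ hp)))
  rw [one] at this
  exact h.of_measure_le_smul ENNReal.ofReal_ne_top this

theorem mass (hI : St_INT) (hl : 0 < l) : C.mn l univ =
    C.β * ∫⁻ z in C.Ω, ENNReal.ofReal (rho l z.1 * rho l z.2) := by
  have m : Measurable fun z : B2 => ENNReal.ofReal (rho l z.1 * rho l z.2) :=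
    (((rho_sm l).continuous.comp continuous_fst).mul
      ((rho_sm l).continuous.comp continuous_snd)).measurable.ennreal_ofReal
  rw [Cv.mn, withDensity_apply _ MeasurableSet.univ, Measure.restrict_univ,
    hI.lint C (m_n l).aemeasurable]
  simp only [Finset.sum_const, Finset.card_univ, Fintype.card_fin, nsmul_eq_mul]
  exact lintegral_const_mul _ m

theorem tot (hl : 0 < l) : ∫⁻ z : B2, ENNReal.ofReal (rho l z.1 * rho l z.2) =
    ENNReal.ofReal ((l * Real.pi) ^ 2) := by
  have m := (rho_sm l).continuous.measurable.ennreal_ofReal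
  simp only [fun z : B2 => ENNReal.ofReal_mul (q := rho l z.2) (rho_pos hl z.1).le]
  rw [Measure.volume_eq_prod, lintegral_prod_mul m.aemeasurable m.aemeasurable, rho_int hl, sq,
    ← ENNReal.ofReal_mul (mul_pos hl Real.pi_pos).le]

theorem snorm {μ ν : Measure Am} {c : ℝ} (hc : 0 ≤ c) (h : ν ≤ ENNReal.ofReal (c ^ 2) • μ)
    (f : Am → ℂ) : eLpNorm f 2 ν ≤ ENNReal.ofReal c * eLpNorm f 2 μ := by
  refine (eLpNorm_mono_measure f h).trans_eq ?_
  rw [eLpNorm_smul_measure_of_ne_top (by simp), smul_eq_mul, ENNReal.ofReal_pow hc,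
    ← ENNReal.rpow_natCast, ← ENNReal.rpow_mul]
  simp

end WM

open WM in
theorem bWM (hINT : St_INT) : St_WM where
  pos hl := ⟨fun z => ⟨rho_pos hl z, rho_le hl z⟩, rho_sm _, rho_int hl⟩
  fin C l hl := by
    have le : C.mn l univ ≤ C.β * ENNReal.ofReal ((l * Real.pi) ^ 2) := by
      rw [mass C hINT hl, ← tot hl]
      exact mul_le_mul_right (setLIntegral_le_lintegral _ _) _
    have ne : (C.β : ℝ≥0∞) * ENNReal.ofReal ((l * Real.pi) ^ 2) ≠ ⊤ :=
      ENNReal.mul_ne_top (ENNReal.natCast_ne_top _) ENNReal.ofReal_ne_top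
    have re : ((C.β : ℝ≥0∞) * ENNReal.ofReal ((l * Real.pi) ^ 2)).toReal =
        C.β * (l * Real.pi) ^ 2 := by
      rw [ENNReal.toReal_mul, ENNReal.toReal_natCast, ENNReal.toReal_ofReal (sq_nonneg _)]
    refine ⟨⟨le.trans_lt ne.lt_top⟩, fun h => ?_, (ENNReal.toReal_mono ne le).trans_eq re⟩
    rw [Measure.real, mass C hINT hl, Measure.restrict_eq_self_of_ae_mem h, tot hl, re]
  ac C l b hl := by
    have := hINT.sf C
    exact ⟨withDensity_absolutelyContinuous _ _, ac_n C hl, withDensity_absolutelyContinuous _ _,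
      withDensity_absolutelyContinuous' (m_o l b).aemeasurable (ae_of_all _ fun p =>
        (ENNReal.ofReal_pos.2 (rho_pos hl _)).ne'), n_le_o C hl b,
      SigmaFinite.withDensity_of_ne_top' fun _ => ENNReal.ofReal_ne_top⟩
  intn C l F hl := by
    rw [Cv.mn, integral_withDensity_eq_integral_toReal_smul (m_n l) (by simp),
      integrable_withDensity_iff_integrable_smul' (m_n l) (by simp)]
    simp only [fun p : Am => ENNReal.toReal_ofReal
      (mul_pos (rho_pos hl p.1.1) (rho_pos hl p.1.2)).le, Complex.real_smul, and_self]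
  into C l b F hl := by
    rw [Cv.mo, integral_withDensity_eq_integral_toReal_smul (m_o l b) (by simp),
      integrable_withDensity_iff_integrable_smul' (m_o l b) (by simp)]
    simp only [fun p : Am => ENNReal.toReal_ofReal (rho_pos hl (ot b p.1)).le, Complex.real_smul,
      and_self]
  loc C l b f hl := ⟨loc_n C hl, fun h =>
    have := h.of_measure_le_smul ENNReal.ofReal_ne_top (n_le_o C hl b)
    ⟨loc_n C hl this, this⟩⟩
  tst C l b U F hl h :=
    ⟨((hINT.tst C h).2 2).of_measure_le_smul ENNReal.ofReal_ne_top (n_le C hl),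
      ((hINT.tst C h).2 2).of_measure_le_smul ENNReal.ofReal_ne_top (o_le C hl b)⟩
  le C l b f hl := ⟨snorm hl.le (n_le C hl) f,
    snorm (Real.sqrt_nonneg l) (by rw [Real.sq_sqrt hl.le]; exact o_le C hl b) f⟩
  cpt C l b K hl hK := by
    obtain ⟨R, hR⟩ := hK.isBounded.exists_norm_le
    refine ⟨ENNReal.ofReal ((1 + R ^ 2) ^ 2 / l), ENNReal.ofReal_ne_top,
      cmp (((c_co b).comp continuous_fst).measurable hK.measurableSet) (by positivity)
        fun p hp => ?_, ?_⟩
    · rw [co_ot l b, ← mul_assoc]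
      exact le_mul_of_one_le_left (rho_pos hl _).le (rho_ge hl (hR _ hp))
    · have := cmp (μ := C.mu) (f := fun _ => 1) (g := fun p => rho l (ot b p.1))
        (A := {p | ot b p.1 ∈ K}) (((c_ot b).comp continuous_fst).measurable hK.measurableSet)
        (by positivity) fun p hp => rho_ge hl (hR _ hp)
      rwa [one] at this

end Pool.Agent.Lib.CLF
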