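import Pool.Agent.Lib.CLF.B_MW
import Pool.Agent.Lib.CLF.B_WM

/-! The resolvent of a bump is bounded below. -/

open MeasureTheory Filter Topology Set Function
open scoped ContDiff ENNReal ComplexConjugate

noncomputable section

namespace Pool.Agent.Lib.CLF

namespace CAP

theorem cco (b : Bool) : ContDiff ℝ ∞ (co b) := by
  cases b
  · exact contDiff_snd
  · exact contDiff_fst

/-- The weight in the variable of differentiation is integrable for the energy measure. -/
theorem int_rho (hM : St_WM) (C : Cv) {l : ℝ} (b : Bool) (hl : 0 < l) :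
    Integrable (fun p : Am => rho l (co b p.1)) (C.mo l b) := by
  have := (hM.fin C hl).1
  have h1 := (hM.intn C (fun _ => 1) hl).2.1 (integrable_const _)
  have h2 := (hM.into C b (fun p : Am => (rho l (co b p.1) : ℂ)) hl).2.2 (h1.congr
    (Eventually.of_forall fun p => by
      simp only [WM.co_ot l b]
      push_cast
      ring))
  simpa using h2.re

/-- A smooth bounded function on the base with a bounded datum is a resolvent. -/
theorem res_base (hMB : St_MB) (hS : St_ST) (hC : St_CAL) (hM : St_WM) (hI : St_INT)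
    (hW : St_WIR) (C : Cv) {l M : ℝ} (b : Bool) (hl : 0 < l) (hc : C.HasCut l) {w h : B2 → ℝ}
    (hw : ContDiff ℝ ∞ (cx w)) (h1 : ∀ z, |w z| ≤ M)
    (h2 : ∀ z, ‖wd b (cx w) z‖ ≤ M / (1 + ‖co b z‖ ^ 2))
    (h3 : ∀ z, wb b (wd b (cx w)) z = (rho l (co b z) * (w z - h z) : ℝ)) (h4 : ∀ z, |h z| ≤ M) :
    C.Res l b (fun p => h p.1) (fun p => w p.1) fun p => wd b (cx w) p.1 := by
  have := (hM.fin C hl).1
  have s1 : ContDiff ℝ ∞ (wd b (cx w)) :=
    contDiff_iff_contDiffAt.2 fun z => (hW.sm b hw.contDiffAt).1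
  have s2 : ContDiff ℝ ∞ (wb b (wd b (cx w))) :=
    contDiff_iff_contDiffAt.2 fun z => (hW.sm b s1.contDiffAt).2
  have eD : C.D b (cx fun p : Am => w p.1) = fun p => wd b (cx w) p.1 :=
    funext fun p => (hC.base C b (cx w) p).1
  have hh : Continuous h := by
    have e : h = fun z => (cx w z).re - (wb b (wd b (cx w)) z).re / rho l (co b z) := by
      funext z
      have := (WM.rho_pos hl (co b z)).ne'
      rw [h3, Complex.ofReal_re]
      simp only [cx, Complex.ofReal_re]
      field_simp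
      ring
    rw [e]
    exact (Complex.continuous_re.comp hw.continuous).sub
      ((Complex.continuous_re.comp s2.continuous).div
        ((WM.rho_sm l).continuous.comp (WM.c_co b)) fun z => (WM.rho_pos hl _).ne')
  have mD : MemLp (fun p : Am => wd b (cx w) p.1) 2 (C.mo l b) := by
    have ms : AEStronglyMeasurable (fun p : Am => wd b (cx w) p.1) (C.mo l b) :=
      (s1.continuous.comp continuous_fst).aestronglyMeasurable
    rw [memLp_two_iff_integrable_sq_norm ms]
    refine ((int_rho hM C b hl).const_mul (M ^ 2 / l)).mono' (ms.norm.pow 2)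
      (Eventually.of_forall fun p => ?_)
    rw [Real.norm_of_nonneg (sq_nonneg _), rho, div_mul_div_cancel₀ hl.ne', ← div_pow]
    exact pow_le_pow_left₀ (norm_nonneg _) (h2 _) 2
  have sW : C.Sm (cx fun p : Am => w p.1) := hC.smb C hw
  have mem := hMB.mem C (b := b) (g := fun p => w p.1) hl hc ⟨sW, M, fun p _ => h1 _⟩
    (by rw [eD]; exact mD)
  rw [eD] at mem
  have mh : MemLp (fun p : Am => h p.1) 2 (C.mn l) :=
    MemLp.of_bound (hh.comp continuous_fst).aestronglyMeasurable M
      (Eventually.of_forall fun p => h4 _)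
  refine ⟨mh, mem, fun ψ hψ => ?_⟩
  have sr := hC.smb C (h := fun z => (rho l (ot b z) : ℂ)) ((MW.cr hM hl).comp (MW.cot b))
  have sD := hC.smb C s1
  have t0 := hC.tmul C sD hψ
  have t1 := hC.tmul C sr t0
  have t2 := hC.tmul C sr (hC.tmul C (hC.smb C s2) hψ)
  have t3 := hC.tmul C sr (hC.tmul C sD (hC.tD C b hψ).2)
  have i3 : Integrable (fun p : Am => wd b (cx w) p.1 * conj (C.D b (cx ψ) p)) (C.mo l b) := by
    refine (hM.into C b _ hl).2.2 ?_
    simpa only [hC.real] using MW.ti hI t3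
  have e1 : ((∫ p : Am, (w p.1 - h p.1) * ψ p ∂C.mn l : ℝ) : ℂ) =
      ∫ p : Am, rho l (ot b p.1) * (wb b (wd b (cx w)) p.1 * cx ψ p) ∂C.mu := by
    rw [← integral_complex_ofReal, (hM.intn C _ hl).1]
    refine integral_congr_ae (Eventually.of_forall fun p => ?_)
    simp only [WM.co_ot l b, h3, cx]
    push_cast
    ring
  have e2 : ∫ p : Am, wd b (cx w) p.1 * conj (C.D b (cx ψ) p) ∂C.mo l b =
      ∫ p : Am, rho l (ot b p.1) * (wd b (cx w) p.1 * C.Db b (cx ψ) p) ∂C.mu := by
    simp only [(hM.into C b _ hl).1, hC.real]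
  have e3 : ((∫ p : Am, (w p.1 - h p.1) * ψ p ∂C.mn l : ℝ) : ℂ) +
      ∫ p : Am, wd b (cx w) p.1 * conj (C.D b (cx ψ) p) ∂C.mo l b = 0 := by
    rw [e1, e2, ← integral_add (MW.ti hI t2) (MW.ti hI t3), ← (hS C b _ _ t1).2]
    refine integral_congr_ae ((hI.ae C).mono fun p hp => ?_)
    have o := (hW.oth b (fun z => (rho l z : ℂ)) p.1).2
    simp only [((hC.mul C sr t0.1).2 b p hp).2, ((hC.mul C sD hψ.1).2 b p hp).2,
      (hC.base C b (fun z => (rho l (ot b z) : ℂ)) p).2, (hC.base C b (wd b (cx w)) p).2, o]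
    ring
  have e4 := integral_re i3
  simp only [RCLike.re_to_complex] at e4
  have := congrArg Complex.re e3
  rwa [Complex.add_re, Complex.ofReal_re, ← e4, Complex.zero_re] at this

/-- The bump on the `k`-th disc. -/
def bmp (k : ℕ) : ContDiffBump (4 * k : ℂ) := ⟨1, 3 / 2, one_pos, by norm_num⟩

end CAP

open CAP in
theorem bCAP (h1 : St_CAP1) (hMB : St_MB) (hR : St_RP) (hP : St_POS) (hS : St_ST) (hC : St_CAL)
    (hM : St_WM) (hI : St_INT) (hW : St_WIR) : St_CAP := by
  intro N
  obtain ⟨l, c, M, hl, hc, H⟩ := h1 N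
  refine ⟨l, c, fun k => bmp k, hl, hc, fun k => ⟨⟨(bmp k).contDiff, (bmp k).hasCompactSupport,
    (bmp k).tsupport_eq.subset⟩, fun z => ⟨(bmp k).nonneg, (bmp k).le_one⟩⟩, ?_⟩
  intro C hcut b k hk u u' hu
  obtain ⟨w, hw, H⟩ := H k hk
  have H' := fun z => (H b z).2.2.2
  choose h e1 e2 e3 e4 using H'
  have r := res_base hMB hS hC hM hI hW C b hl hcut (M := M) (w := fun z => w (co b z)) (h := h)
    (Complex.ofRealCLM.contDiff.comp (hw.comp (cco b)))
    (fun z => by
      rw [abs_of_pos (hc.trans_le (H b z).1)]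
      exact (H b z).2.1) (fun z => (H b z).2.2.1) e1 e2
  have hp : ∀ p : Am, 0 ≤ 1 * bmp k (co b p.1) + -1 * h p.1 := fun p => by
    by_cases hz : 1 ≤ ‖co b p.1 - 4 * k‖
    · have : 0 ≤ bmp k (co b p.1) := (bmp k).nonneg
      linarith [e4 _ hz]
    · have : bmp k (co b p.1) = 1 := (bmp k).one_of_mem_closedBall
        (mem_closedBall_iff_norm.2 (not_le.1 hz).le)
      linarith [e3 p.1]
  filter_upwards [hP C l b _ _ _ hl (hR.lin C 1 (-1) hl hu r) (Eventually.of_forall hp)]
    with p hp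
  linarith [(H b p.1).1]

end Pool.Agent.Lib.CLF
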