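import Pool.Agent.Lib.CLF.ABlue

/-! Row CAP1: explicit subsolutions on the sphere. -/

open MeasureTheory Filter Topology Set Function
open scoped ContDiff ENNReal ComplexConjugate

noncomputable section

namespace Pool.Agent.Lib.CLF

namespace CAP1

lemma lin (b : Bool) {f g : B2 → ℂ} {z : B2} (hf : DifferentiableAt ℝ f z)
    (hg : DifferentiableAt ℝ g z) (x c : ℂ) :
    wd b (fun w => x * (f w - g w + c)) z = x * (wd b f z - wd b g z) ∧
    wb b (fun w => x * (f w - g w + c)) z = x * (wb b f z - wb b g z) := by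
  have := (((hf.hasFDerivAt.sub hg.hasFDerivAt).add_const c).const_mul x).fderiv
  simp only [Pi.sub_apply] at this
  simp only [wd, wb, this, smul_apply, sub_apply, smul_eq_mul]
  constructor <;> ring

lemma sco (b : Bool) : ContDiff ℝ ∞ (co b) := by
  cases b
  exacts [contDiff_snd, contDiff_fst]

/-- The smoothed squared distance. -/
def ff (a : ℂ) (t : ℝ) (s : ℂ) : ℝ := ‖s - a‖ ^ 2 + t

lemma sff (a : ℂ) (t : ℝ) : ContDiff ℝ ∞ (ff a t) :=
  ((contDiff_id.sub contDiff_const).norm_sq ℝ).add contDiff_const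

lemma sfc (b : Bool) (a : ℂ) (t : ℝ) : ContDiff ℝ ∞ fun w => ff a t (co b w) :=
  (sff a t).comp (sco b)

lemma pff (a : ℂ) {t : ℝ} (ht : 0 < t) (s : ℂ) : 0 < ff a t s := by unfold ff; positivity

lemma dcx {f : B2 → ℝ} (hf : ContDiff ℝ ∞ f) (z : B2) : DifferentiableAt ℝ (cx f) z :=
  (Complex.ofRealCLM.contDiff.comp hf).differentiable (by simp) z

lemma dco (b : Bool) (a : ℂ) (z : B2) : DifferentiableAt ℝ (fun w => co b w - a) z ∧
    DifferentiableAt ℝ (fun w => conj (co b w - a)) z := by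
  have := ((sco b).differentiable (by simp) z).sub_const a
  exact ⟨this, Complex.conjCLE.differentiableAt.comp z this⟩

variable (W : St_WIR) (b : Bool) (a : ℂ) {t : ℝ} (ht : 0 < t) (z : B2)
include W

lemma d1 : wd b (fun w => co b w - a) z = 1 ∧ wd b (fun w => conj (co b w - a)) z = 0 := by
  have d : DifferentiableAt ℂ (fun w => co b w - a) z := by
    cases b
    exacts [differentiableAt_snd.sub_const a, differentiableAt_fst.sub_const a]
  obtain ⟨h1, h2⟩ := W.hol b d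
  rw [W.star, map_eq_zero] at h1
  refine ⟨h2.trans ?_, h1⟩
  cases b <;> simp [co, ev, fderiv_sub_const, fderiv_snd, fderiv_fst]

lemma d2 : wd b (cx fun w => ff a t (co b w)) z = conj (co b z - a) := by
  have : (cx fun w => ff a t (co b w)) = fun w => (co b w - a) * conj (co b w - a) + t :=
    funext fun w => by rw [Complex.mul_conj, Complex.normSq_eq_norm_sq]; simp [cx, ff]
  rw [this, W.add b ((dco b a z).1.fun_mul (dco b a z).2) (differentiableAt_const _), W.cst,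
    W.mul b (dco b a z).1 (dco b a z).2, (d1 W b a z).1, (d1 W b a z).2]
  ring

include ht in
lemma d3 : wd b (cx fun w => Real.log (ff a t (co b w))) z =
    conj (co b z - a) * ((ff a t (co b z))⁻¹ : ℝ) := by
  rw [W.comp b (dcx (sfc b a t) z) (Real.differentiableAt_log (pff a ht _).ne'),
    Real.deriv_log, mul_comm]
  exact congrArg (· * _) (d2 W b a z)

omit W in
include ht in
lemma dinv : DifferentiableAt ℝ (cx fun w => (ff a t (co b w))⁻¹) z :=
  dcx ((sfc b a t).inv fun _ => (pff a ht _).ne') z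

include ht in
lemma d4 : wb b (fun w => conj (co b w - a) * ((ff a t (co b w))⁻¹ : ℝ)) z =
    (t / ff a t (co b z) ^ 2 : ℝ) := by
  have p := (pff a ht (co b z)).ne'
  have e := W.comp b (G := fun x => x⁻¹) (dcx (sfc b a t) z) (differentiableAt_inv p)
  have e2 := d2 W b a (t := t) z
  rw [e2, deriv_inv] at e
  rw [W.star]
  simp only [map_mul, Complex.conj_conj, Complex.conj_ofReal]
  have := W.mul b (dco b a z).1 (dinv b a ht z)
  rw [e, (d1 W b a z).1] at this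
  simp only [cx] at this
  rw [this, mul_left_comm, Complex.mul_conj, Complex.normSq_eq_norm_sq, ← Complex.conj_ofReal (t / _)]
  congr 1
  have q : (‖co b z - a‖ ^ 2 : ℝ) = ff a t (co b z) - t := by simp [ff]
  have p' : (ff a t (co b z) : ℂ) ≠ 0 := Complex.ofReal_ne_zero.2 p
  rw [q]
  push_cast
  field_simp
  ring

end CAP1

open CAP1 in
theorem bCAP1 (W : St_WIR) : St_CAP1 := fun N => by
  obtain ⟨P, hP⟩ : ∃ P : ℝ, P = 3 + 32 * (N : ℝ) ^ 2 := ⟨_, rfl⟩
  have P3 : 3 ≤ P := by rw [hP]; nlinarith [sq_nonneg (N : ℝ)]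
  obtain ⟨r, hr⟩ : ∃ r : ℝ, r = (2 * P)⁻¹ := ⟨_, rfl⟩
  have r0 : 0 < r := by rw [hr]; positivity
  have rP : r * P = 1 / 2 := by rw [hr]; field_simp
  have r1 : r ≤ 1 := by nlinarith
  obtain ⟨S, hS⟩ : ∃ S : ℝ, S = 4 * P ^ 3 + P := ⟨_, rfl⟩
  have S0 : 0 < S := by rw [hS]; positivity
  obtain ⟨H, hH⟩ : ∃ H : ℝ, H = S + (1 + S ^ 2) * (2 * S) + (2 * P + (P + 2) * P) := ⟨_, rfl⟩
  have H1 : 0 ≤ (1 + S ^ 2) * (2 * S) := by positivity
  have H2 : 0 ≤ 2 * P + (P + 2) * P := by positivity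
  have H0 : 0 < H := by rw [hH]; positivity
  refine ⟨(2 * S)⁻¹, H⁻¹, 1, by positivity, by positivity, fun k hk => ?_⟩
  have t0 : 0 < r ^ 2 := by positivity
  have s1 := (sff 0 1).log fun s => (pff 0 one_pos s).ne'
  have s2 := (sff (4 * k) (r ^ 2)).log fun s => (pff _ t0 s).ne'
  refine ⟨fun s => H⁻¹ * (Real.log (ff 0 1 s) - Real.log (ff (4 * k) (r ^ 2) s) + P),
    contDiff_const.mul ((s1.sub s2).add contDiff_const), fun b z => ?_⟩
  have e1 : (wd b fun z => ((H⁻¹ * (Real.log (ff 0 1 (co b z)) -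
      Real.log (ff (4 * k) (r ^ 2) (co b z)) + P) : ℝ) : ℂ)) = fun w => (H⁻¹ : ℝ) *
      (conj (co b w - 0) * ((ff 0 1 (co b w))⁻¹ : ℝ) -
        conj (co b w - 4 * k) * ((ff (4 * k) (r ^ 2) (co b w))⁻¹ : ℝ) + 0) := funext fun w => by
    rw [← d3 W b 0 one_pos, ← d3 W b _ t0, add_zero,
      ← (lin b (dcx ((sfc b 0 1).log fun s => (pff 0 one_pos _).ne') w)
        (dcx ((sfc b _ _).log fun s => (pff _ t0 _).ne') w) _ P).1]
    simp only [cx, Complex.ofReal_mul, Complex.ofReal_add, Complex.ofReal_sub]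
  have e2 := (lin b ((dco b 0 z).2.fun_mul (dinv b 0 one_pos z))
    ((dco b (4 * k) z).2.fun_mul (dinv b (4 * k) t0 z)) (H⁻¹ : ℝ) 0).2
  simp only [cx] at e2
  rw [d4 W b 0 one_pos z, d4 W b _ t0 z] at e2
  rw [e1, e2]
  beta_reduce
  generalize co b z = s
  have na : ‖(4 * k : ℂ)‖ = 4 * k := by simp
  have kN : (k : ℝ) ≤ N := Nat.cast_le.2 hk
  have k0 : (0 : ℝ) ≤ k := Nat.cast_nonneg k
  have a2 : 2 * (4 * (k : ℝ)) ^ 2 + 3 ≤ P := by rw [hP]; nlinarith
  have a1 : 4 * (k : ℝ) ≤ P := by nlinarith [sq_nonneg (4 * (k : ℝ) - 1)]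
  have A : ff 0 1 s = 1 + ‖s‖ ^ 2 := by simp [ff, add_comm]
  have D : ff (4 * k) (r ^ 2) s = ‖s - 4 * k‖ ^ 2 + r ^ 2 := rfl
  have u1 : ‖s‖ ≤ ‖s - 4 * k‖ + 4 * k := by
    have := norm_add_le (s - 4 * k) (4 * k)
    rwa [sub_add_cancel, na] at this
  have u2 : ‖s - 4 * k‖ ≤ ‖s‖ + 4 * k := (norm_sub_le _ _).trans_eq (by rw [na])
  have nb : ‖conj (s - 0) * ((ff 0 1 s)⁻¹ : ℝ) - conj (s - 4 * k) * ((ff (4 * k) (r ^ 2) s)⁻¹ : ℝ)‖ *
      (ff 0 1 s * ff (4 * k) (r ^ 2) s) ≤ ‖s - 4 * k‖ * ‖s‖ * (4 * k) + r ^ 2 * ‖s‖ + ‖s - 4 * k‖ := by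
    have p1 := pff 0 one_pos s
    have p2 := pff (4 * k) t0 s
    have q1 : (ff 0 1 s : ℂ) ≠ 0 := Complex.ofReal_ne_zero.2 p1.ne'
    have q2 : (ff (4 * k) (r ^ 2) s : ℂ) ≠ 0 := Complex.ofReal_ne_zero.2 p2.ne'
    have A' : (ff 0 1 s : ℂ) = 1 + s * conj s := by
      rw [A, Complex.mul_conj, Complex.normSq_eq_norm_sq]; simp
    have D' : (ff (4 * k) (r ^ 2) s : ℂ) = (s - 4 * k) * conj (s - 4 * k) + (r ^ 2 : ℝ) := by
      rw [D, Complex.mul_conj, Complex.normSq_eq_norm_sq]; simp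
    rw [← Real.norm_of_nonneg (mul_pos p1 p2).le, ← Complex.norm_real, ← norm_mul]
    have : (conj (s - 0) * ((ff 0 1 s)⁻¹ : ℝ) - conj (s - 4 * k) * ((ff (4 * k) (r ^ 2) s)⁻¹ : ℝ)) *
        ((ff 0 1 s * ff (4 * k) (r ^ 2) s : ℝ) : ℂ) =
        -(conj (s - 4 * k) * conj s * (4 * k)) + (r ^ 2 : ℝ) * conj s - conj (s - 4 * k) := by
      rw [sub_zero, Complex.ofReal_inv, Complex.ofReal_inv, Complex.ofReal_mul]
      field_simp
      rw [A', D']
      ring
    rw [this]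
    refine (norm_sub_le _ _).trans (add_le_add ((norm_add_le _ _).trans_eq ?_) (by simp only
      [Complex.norm_conj, le_refl]))
    rw [norm_neg, norm_mul, na, norm_mul, norm_mul, Complex.norm_conj, Complex.norm_conj,
      Complex.norm_real, Real.norm_of_nonneg t0.le]
  rw [add_zero, norm_mul, Complex.norm_real, Real.norm_of_nonneg (inv_pos.2 H0).le]
  generalize ‖conj (s - 0) * ((ff 0 1 s)⁻¹ : ℝ) -
    conj (s - 4 * k) * ((ff (4 * k) (r ^ 2) s)⁻¹ : ℝ)‖ = n at nb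
  rw [rho, ← Real.log_div (pff 0 one_pos s).ne' (pff _ t0 s).ne', ← A]
  have x0 := norm_nonneg s
  have u0 := norm_nonneg (s - 4 * k)
  have p1 := pff 0 one_pos s
  have p2 := pff (4 * k) t0 s
  generalize ff 0 1 s = A1 at *
  generalize ff (4 * k) (r ^ 2) s = D1 at *
  generalize ‖s‖ = x at *
  generalize ‖s - 4 * k‖ = u at *
  generalize 4 * (k : ℝ) = a at *
  have a0 : 0 ≤ a := na ▸ norm_nonneg _
  have x2 : x ^ 2 ≤ 2 * u ^ 2 + 2 * a ^ 2 := by
    linarith [sq_nonneg (u - a), pow_le_pow_left₀ x0 u1 2]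
  have v2 : u ^ 2 ≤ 2 * x ^ 2 + 2 * a ^ 2 := by
    linarith [sq_nonneg (x - a), pow_le_pow_left₀ u0 u2 2]
  have r2 : r ^ 2 ≤ 1 := pow_le_one₀ r0.le r1
  obtain ⟨R, hR⟩ : ∃ R, R = A1 / D1 := ⟨_, rfl⟩
  have R0 : 0 < R := by rw [hR]; positivity
  have R1 : R⁻¹ ≤ P := by
    rw [hR, inv_div, div_le_iff₀ p1, A, D]
    linarith [mul_nonneg (by linarith : 0 ≤ P - 2) (sq_nonneg x)]
  have R2 : R ≤ 4 * P ^ 3 := by
    have : 4 * P ^ 3 * r ^ 2 = P := by
      rw [show 4 * P ^ 3 * r ^ 2 = 4 * P * (r * P) ^ 2 by ring, rP]; ring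
    have P2 : 2 ≤ 4 * P ^ 3 := by linarith [one_le_pow₀ (by linarith : 1 ≤ P) (n := 3)]
    rw [hR, div_le_iff₀ p2, A, D]
    linarith [mul_nonneg (sub_nonneg.2 P2) (sq_nonneg u), sq_nonneg a]
  have l1 : 1 ≤ Real.log R + P := by linarith [Real.one_sub_inv_le_log_of_pos R0]
  have l2 : Real.log R + P ≤ S := by linarith [Real.log_le_sub_one_of_pos R0]
  have iH : ∀ y, y ≤ H → H⁻¹ * y ≤ 1 := fun y hy => by
    rw [inv_mul_le_iff₀ H0]; linarith
  have RS : (r * R) ^ 2 ≤ S ^ 2 := by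
    have : r * R ≤ 1 * R := by gcongr
    gcongr; linarith
  have hb : |H⁻¹ * (Real.log R + P - (1 - (r * R) ^ 2) * (2 * S))| ≤ 1 := by
    rw [abs_mul, abs_of_pos (inv_pos.2 H0)]
    refine iH _ (abs_le.2 ⟨?_, ?_⟩) <;>
      linarith [mul_le_mul_of_nonneg_right RS S0.le, mul_nonneg (sq_nonneg (r * R)) S0.le,
        mul_nonneg (sq_nonneg S) S0.le]
  rw [← hR]
  refine ⟨le_mul_of_one_le_right (by positivity) l1, iH _ (by linarith), ?_,
    H⁻¹ * (Real.log R + P - (1 - (r * R) ^ 2) * (2 * S)), ?_, hb, le_of_abs_le hb, fun hu => ?_⟩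
  · rw [le_div_iff₀ p1, mul_assoc]
    refine iH _ (le_trans (le_of_mul_le_mul_right ?_ p2) (by linarith : 2 * P + (P + 2) * P ≤ H))
    have b1 : u ≤ P * D1 := by
      have : 2 * (r * u) * P ≤ D1 * P := by gcongr; rw [D]; linarith [sq_nonneg (u - r)]
      have e : 2 * (r * u) * P = u := by linear_combination 2 * u * rP
      linarith
    have b2 : u * x * a ≤ u * (u + a) * a := by gcongr
    have b3 : r ^ 2 * x ≤ r ^ 2 * (u + a) := by gcongr
    have b4 : r ^ 2 * u ≤ 1 * u := by gcongr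
    have b5 : D1 * a ≤ D1 * P := by gcongr
    have b6 : a ^ 2 * u ≤ P * (P * D1) := mul_le_mul (by linarith [sq_nonneg a]) b1 u0 (by linarith)
    have b7 : D1 * a = u ^ 2 * a + r ^ 2 * a := by rw [D]; ring
    linarith [mul_pos (by linarith : 0 < P) p2]
  · rw [← Complex.ofReal_sub, ← Complex.ofReal_mul, hR]
    congr 1
    field_simp
    ring
  · have b1 : R ≤ P := by
      have : 1 ≤ u ^ 2 := one_le_pow₀ hu
      rw [hR, div_le_iff₀ p2, A, D]
      linarith [mul_nonneg (by linarith : 0 ≤ P - 2) (sub_nonneg.2 this), mul_pos (by linarith : 0 < P) t0]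
    have b2 : (r * R) ^ 2 ≤ (1 / 2) ^ 2 := by rw [← rP]; gcongr
    exact mul_nonpos_of_nonneg_of_nonpos (by positivity)
      (by linarith [mul_le_mul_of_nonneg_right b2 S0.le])

end Pool.Agent.Lib.CLF
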