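import Pool.Agent.Lib.CLF.ABlue

/-! Row CD: the equation of the branch curve takes values boundedly often. -/

open MeasureTheory Filter Topology Set Function Polynomial
open scoped ContDiff ENNReal ComplexConjugate

noncomputable section

namespace Pool.Agent.Lib.CLF

namespace CD

theorem ev_sl (δ : MvPolynomial (Fin 2) ℂ) (P Q : ℂ[X]) (s : ℂ) :
    (MvPolynomial.aeval ![P, Q] δ).eval s = MvPolynomial.eval ![P.eval s, Q.eval s] δ := by
  induction δ using MvPolynomial.induction_on with
  | C a => simp
  | add p q hp hq => simp [hp, hq]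
  | mul_X p i hp => fin_cases i <;> simp [hp]

theorem an (δ : MvPolynomial (Fin 2) ℂ) (z : B2) :
    AnalyticAt ℂ (fun w : B2 => MvPolynomial.eval ![w.1, w.2] δ) z := by
  induction δ using MvPolynomial.induction_on with
  | C a => simpa using analyticAt_const
  | add p q hp hq => simpa using hp.fun_add hq
  | mul_X p i hp =>
    fin_cases i
    · simpa using hp.fun_mul analyticAt_fst
    · simpa using hp.fun_mul analyticAt_snd

theorem slice (δ : MvPolynomial (Fin 2) ℂ) (b : Bool) (τ : ℂ) : ∃ (P : ℂ[X]) (g : ℂ → B2),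
    P.natDegree ≤ δ.totalDegree ∧ ∀ z : B2, ot b z = τ →
      g (co b z) = z ∧ P.eval (co b z) = MvPolynomial.eval ![z.1, z.2] δ := by
  cases b
  · refine ⟨MvPolynomial.aeval ![C τ, X] δ, fun s => (τ, s), ?_, ?_⟩
    · simpa using MvPolynomial.aeval_natDegree_le δ le_rfl ![C τ, X] (n := 1) fun i => by
        fin_cases i <;> simp
    · rintro z rfl
      simp [ev_sl, co, ot]
  · refine ⟨MvPolynomial.aeval ![X, C τ] δ, fun s => (s, τ), ?_, ?_⟩
    · simpa using MvPolynomial.aeval_natDegree_le δ le_rfl ![X, C τ] (n := 1) fun i => by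
        fin_cases i <;> simp
    · rintro z rfl
      simp [ev_sl, co, ot]

end CD

open CD in
theorem bCD : St_CD := by
  intro C δ hδ
  have hc : Continuous fun w : B2 => MvPolynomial.eval ![w.1, w.2] δ :=
    continuous_iff_continuousAt.2 fun z => (an δ z).continuousAt
  have ho : IsOpen (zs δ) := isOpen_ne_fun hc continuous_const
  refine ⟨?_, ho, fun p _ => an δ p.1, fun b => ⟨δ.totalDegree * C.β,
    Eventually.of_forall fun τ => ?_⟩⟩
  · obtain ⟨x, hx⟩ : ∃ x, MvPolynomial.eval x δ ≠ 0 := by
      by_contra h
      exact hδ (MvPolynomial.funext fun x => by simpa using not_exists.1 h x)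
    have h1 : MvPolynomial.aeval ![X, Polynomial.C (x 1)] δ ≠ 0 := fun h => hx (by
      have := ev_sl δ X (Polynomial.C (x 1)) (x 0)
      rw [h, eval_zero, eval_X, eval_C] at this
      rw [this]
      congr 2
      funext i
      fin_cases i <;> rfl)
    rw [Measure.volume_eq_prod, Measure.measure_prod_null ho.measurableSet.compl]
    filter_upwards [(Polynomial.finite_setOfPred_isRoot h1).countable.ae_notMem volume] with t ht
    have h2 : MvPolynomial.aeval ![Polynomial.C t, X] δ ≠ 0 := fun h => ht (by
      have := ev_sl δ (Polynomial.C t) X (x 1)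
      rw [h, eval_zero] at this
      simpa [IsRoot, ev_sl] using this.symm)
    refine measure_mono_null (fun s hs => ?_)
      ((Polynomial.finite_setOfPred_isRoot h2).countable.measure_zero volume)
    simpa [IsRoot, ev_sl, zs] using hs
  · obtain ⟨P, g, hP, hg⟩ := slice δ b τ
    filter_upwards [(countable_singleton (P.coeff 0)).ae_notMem volume] with c hc
    have h0 : P - Polynomial.C c ≠ 0 := fun h => hc (by simp [sub_eq_zero.1 h])
    classical
    refine (encard_le_encard (t := (fun q : ℂ × Fin C.β => (g q.1, C.r q.2 (g q.1))) ''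
      (↑((P - Polynomial.C c).roots.toFinset ×ˢ (Finset.univ : Finset (Fin C.β))))) ?_).trans
      ((encard_image_le _ _).trans ?_)
    · rintro ⟨z, y⟩ ⟨⟨-, k, hk⟩, h1, h2⟩
      obtain ⟨h3, h4⟩ := hg z h1
      refine ⟨(co b z, k), ?_, by simp only [h3]; exact Prod.ext rfl hk⟩
      simp only [Finset.coe_product, mem_prod, Finset.mem_coe, Multiset.mem_toFinset,
        mem_roots h0, IsRoot, eval_sub, eval_C, h4, Finset.mem_univ, and_true]
      exact sub_eq_zero.2 h2
    · rw [encard_coe_eq_coe_finsetCard, Finset.card_product, Finset.card_univ, Fintype.card_fin,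
        Nat.cast_le]
      refine Nat.mul_le_mul_right _ ((Multiset.toFinset_card_le _).trans
        ((card_roots' _).trans ?_))
      rwa [natDegree_sub_C]

end Pool.Agent.Lib.CLF
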