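import Pool.Agent.Lib.CLF.ABlue

/-! The chain rule. -/

open MeasureTheory Filter Topology Set Function
open scoped ContDiff ENNReal ComplexConjugate

noncomputable section

namespace Pool.Agent.Lib.CLF

namespace CH

variable {X : Type} [MeasurableSpace X] {μ : Measure X}

/-- Dominated convergence for the quadratic norm. -/
theorem dom2 {F : ℕ → X → ℂ} {g : X → ℂ} (hF : ∀ j, AEStronglyMeasurable (F j) μ)
    (hg : MemLp g 2 μ) (hb : ∀ j, ∀ᵐ p ∂μ, ‖F j p‖ ≤ ‖g p‖)
    (hl : ∀ᵐ p ∂μ, Tendsto (fun j => F j p) atTop (𝓝 0)) :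
    Tendsto (fun j => eLpNorm (F j) 2 μ) atTop (𝓝 0) := by
  have h0 : (0 : ℝ) < (2 : ℝ≥0∞).toReal := by norm_num
  have h1 := tendsto_lintegral_of_dominated_convergence' (μ := μ)
    (F := fun j p => ‖F j p‖ₑ ^ (2 : ℝ≥0∞).toReal) (f := fun _ => 0)
    (fun p => ‖g p‖ₑ ^ (2 : ℝ≥0∞).toReal) (fun j => (hF j).enorm.pow_const _)
    (fun j => (hb j).mono fun p hp => ENNReal.rpow_le_rpow (enorm_le_iff_norm_le.2 hp) h0.le)
    (lintegral_rpow_enorm_lt_top_of_eLpNorm_lt_top two_ne_zero ENNReal.ofNat_ne_top hg.2).ne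
    (hl.mono fun p hp => by
      have h3 := ((ENNReal.continuous_rpow_const (y := (2 : ℝ≥0∞).toReal)).tendsto _).comp hp.enorm
      rwa [enorm_zero, ENNReal.zero_rpow_of_pos h0] at h3)
  simp only [eLpNorm_eq_lintegral_rpow_enorm_toReal two_ne_zero ENNReal.ofNat_ne_top]
  have h2 := ((ENNReal.continuous_rpow_const (y := 1 / (2 : ℝ≥0∞).toReal)).tendsto _).comp h1
  rwa [lintegral_zero, ENNReal.zero_rpow_of_pos (by norm_num)] at h2

theorem lim_of_le {E F : Type} [NormedAddCommGroup E] [NormedAddCommGroup F] {f : ℕ → X → E}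
    {g : ℕ → X → F} {M : ℝ} (h : ∀ j, ∀ᵐ p ∂μ, ‖f j p‖ ≤ M * ‖g j p‖)
    (ht : Tendsto (fun j => eLpNorm (g j) 2 μ) atTop (𝓝 0)) :
    Tendsto (fun j => eLpNorm (f j) 2 μ) atTop (𝓝 0) := by
  have h1 := ENNReal.Tendsto.const_mul (a := ENNReal.ofReal M) ht (Or.inr ENNReal.ofReal_ne_top)
  rw [mul_zero] at h1
  exact tendsto_of_tendsto_of_tendsto_of_le_of_le tendsto_const_nhds h1 (fun _ => zero_le)
    fun j => eLpNorm_le_mul_eLpNorm_of_ae_le_mul (h j) 2

end CH

open CH in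
theorem bCH (hC : St_CAL) (hW : St_WM) (hI : St_INT) : St_CH := by
  intro C l b f f' G M hl ⟨m1, m2, φ, hφ, t1, t2⟩ hG h0 hM
  have hM0 : 0 ≤ M := (abs_nonneg _).trans (hM 0)
  have hd : Continuous (deriv G) := hG.continuous_deriv (by simp)
  have hL : ∀ x y, ‖G x - G y‖ ≤ M * ‖x - y‖ := fun x y =>
    convex_univ.norm_image_sub_le_of_norm_deriv_le
      (fun z _ => hG.differentiable (by simp) z) (fun z _ => hM z) (mem_univ y) (mem_univ x)
  obtain ⟨-, c2, c3, -⟩ := hW.ac C b hl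
  have ac := c3.trans c2
  have a1 : ∀ j, AEStronglyMeasurable (φ j) (C.mn l) := fun j =>
    Complex.continuous_re.comp_aestronglyMeasurable (hW.tst C b hl (hφ j)).1.1
  have a2 : ∀ j, MemLp (C.D b (cx (φ j))) 2 (C.mo l b) := fun j =>
    (hW.tst C b hl (hC.tD C b (hφ j)).1).2
  have a3 : ∀ {u : Am → ℝ}, AEStronglyMeasurable u (C.mn l) →
      AEStronglyMeasurable (fun p => ((deriv G (u p) : ℝ) : ℂ)) (C.mo l b) := fun hu =>
    (Complex.continuous_ofReal.comp hd).comp_aestronglyMeasurable (hu.mono_ac ac)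
  obtain ⟨ns, hns, hae⟩ := (tendstoInMeasure_of_tendsto_eLpNorm two_ne_zero a1 m1.1
    (t1.congr fun j => eLpNorm_sub_comm _ _ _ _)).exists_seq_tendsto_ae
  refine ⟨m1.of_le_mul (c := M) (hG.continuous.comp_aestronglyMeasurable m1.1)
      (ae_of_all _ fun p => by simpa [h0] using hL (f p) 0),
    m2.of_le_mul (c := M) ((a3 m1.1).mul m2.1) (ae_of_all _ fun p => by
      rw [norm_mul, Complex.norm_real]
      exact mul_le_mul_of_nonneg_right (hM _) (norm_nonneg _)),
    fun j p => G (φ (ns j) p), fun j => ⟨(hC.comp C hG (hφ _).1).1, ?_⟩,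
    lim_of_le (fun j => ae_of_all _ fun p => hL _ _) (t1.comp hns.tendsto_atTop), ?_⟩
  · obtain ⟨K, k1, k2, k3⟩ := (hφ (ns j)).2
    refine ⟨K, k1, k2, fun p hp hK => ?_⟩
    have h1 : φ (ns j) p = 0 := Complex.ofReal_eq_zero.1 (k3 p hp hK)
    simp [cx, h1, h0]
  · have l1 : Tendsto (fun j => eLpNorm (fun p =>
        (((deriv G (f p) : ℝ) : ℂ) - deriv G (φ (ns j) p)) * f' p) 2 (C.mo l b)) atTop (𝓝 0) := by
      refine dom2 (fun j => ((a3 m1.1).sub (a3 (a1 _))).mul m2.1) (m2.const_mul ((2 * M : ℝ) : ℂ))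
        (fun j => ae_of_all _ fun p => ?_) (Eventually.mono (ac.ae_le hae) fun p hp => ?_)
      · rw [norm_mul, norm_mul, ← Complex.ofReal_sub, Complex.norm_real, Complex.norm_real,
          Real.norm_of_nonneg (by positivity : 0 ≤ 2 * M)]
        refine mul_le_mul_of_nonneg_right ((abs_sub _ _).trans ?_) (norm_nonneg _)
        linarith [hM (f p), hM (φ (ns j) p)]
      · simpa using ((((Complex.continuous_ofReal.comp hd).tendsto _).comp hp).const_sub
          ((deriv G (f p) : ℝ) : ℂ)).mul_const (f' p)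
    have l2 : Tendsto (fun j => eLpNorm (fun p => ((deriv G (φ (ns j) p) : ℝ) : ℂ) *
        (f' p - C.D b (cx (φ (ns j))) p)) 2 (C.mo l b)) atTop (𝓝 0) :=
      lim_of_le (M := M) (fun j => ae_of_all _ fun p => by
        rw [norm_mul, Complex.norm_real]
        exact mul_le_mul_of_nonneg_right (hM _) (norm_nonneg _)) (t2.comp hns.tendsto_atTop)
    have l3 := l1.add l2
    rw [add_zero] at l3
    refine tendsto_of_tendsto_of_tendsto_of_le_of_le tendsto_const_nhds l3 (fun _ => zero_le)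
      fun j => le_trans (le_of_eq (eLpNorm_congr_ae ?_)) (eLpNorm_add_le
        (((a3 m1.1).sub (a3 (a1 _))).mul m2.1) ((a3 (a1 _)).mul (m2.sub (a2 _)).1) one_le_two)
    filter_upwards [c3.ae_le (hI.ae C)] with p hp
    simp only [Pi.sub_apply, Pi.add_apply, Pi.mul_apply, (hC.comp C hG (hφ (ns j)).1).2 b p hp]
    ring

end Pool.Agent.Lib.CLF
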