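import Pool.Agent.Lib.CLF.BBlue

/-!
# Block CNT: general fibres of a pair of functions are bounded by the degree
-/

open MvPolynomial Filter Topology Function Module Pool.Agent.Lib.MP_08f962_ag

noncomputable section

namespace Pool.Agent.Lib.CLF

namespace CNT

/-- A nonzero polynomial in two variables does not vanish at a general point. -/
theorem gen_ne (f : MvPolynomial (Fin 2) ℂ) (hf : f ≠ 0) :
    ∀ᶠ τ in cofinite, ∀ᶠ γ in cofinite, aeval ![τ, γ] f ≠ (0 : ℂ) := by
  obtain ⟨F, rfl⟩ := (Polynomial.Bivariate.equivMvPolynomial ℂ).surjective f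
  have hF : F ≠ 0 := by
    rintro rfl
    exact hf (map_zero _)
  have key : ∀ τ γ : ℂ, aeval ![τ, γ] (Polynomial.Bivariate.equivMvPolynomial ℂ F) =
      (F.map (Polynomial.evalRingHom τ)).eval γ := by
    intro τ γ
    have h : ((aeval ![τ, γ] : MvPolynomial (Fin 2) ℂ →ₐ[ℂ] ℂ).toRingHom.comp
        (Polynomial.Bivariate.equivMvPolynomial ℂ).toAlgHom.toRingHom) =
        (Polynomial.evalRingHom γ).comp (Polynomial.mapRingHom (Polynomial.evalRingHom τ)) := by
      refine Polynomial.ringHom_ext' (Polynomial.ringHom_ext (fun z => ?_) ?_) ?_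
      · simp
      · simp
      · simp
    exact congrArg (fun g : Polynomial (Polynomial ℂ) →+* ℂ => g F) h
  have h1 : ∀ᶠ τ in cofinite, Polynomial.eval τ F.leadingCoeff ≠ (0 : ℂ) := by
    rw [Filter.eventually_cofinite]
    refine (Polynomial.finite_setOfPred_isRoot (Polynomial.leadingCoeff_ne_zero.2 hF)).subset ?_
    intro τ hτ
    simpa using hτ
  filter_upwards [h1] with τ hτ
  have h2 : F.map (Polynomial.evalRingHom τ) ≠ 0 := by
    intro h
    apply hτ
    have := congrArg (fun p => Polynomial.coeff p F.natDegree) h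
    simpa [Polynomial.coeff_map] using this
  rw [Filter.eventually_cofinite]
  refine (Polynomial.finite_setOfPred_isRoot h2).subset ?_
  intro γ hγ
  simp only [Set.mem_ofPred_eq, not_not, key] at hγ
  exact hγ

/-- Characters that agree on the base are at most as many as a generic spanning family. -/
theorem core {R A : Type} [CommRing R] [IsDomain R] [Algebra ℂ R] [CommRing A] [Algebra ℂ A]
    (φ : R →ₐ[ℂ] A) (s : Finset A) (hs : Algebra.adjoin ℂ (s : Set A) = ⊤) (n : ℕ)
    (b : Fin n → A)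
    (hb : ∀ x : A, ∃ r : R, r ≠ 0 ∧ ∃ co : Fin n → R, φ r * x = ∑ j, φ (co j) * b j) :
    ∃ δ : R, δ ≠ 0 ∧ ∀ ψ : R →ₐ[ℂ] ℂ, ψ δ ≠ 0 →
      {χ : A →ₐ[ℂ] ℂ | ∀ r, χ (φ r) = ψ r}.encard ≤ n := by
  classical
  choose r hr co hco using hb
  let T : Finset A := insert 1 ((s ×ˢ (Finset.univ : Finset (Fin n))).image fun p => p.1 * b p.2)
  let δ : R := ∏ x ∈ T, r x
  have hδ0 : δ ≠ 0 := Finset.prod_ne_zero_iff.2 fun x _ => hr x
  have hδ : ∀ x ∈ T, ∃ e : Fin n → R, φ δ * x = ∑ j, φ (e j) * b j := by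
    intro x hx
    refine ⟨fun j => (∏ y ∈ T.erase x, r y) * co x j, ?_⟩
    have : δ = (∏ y ∈ T.erase x, r y) * r x := (Finset.prod_erase_mul T r hx).symm
    rw [this, map_mul, mul_assoc, hco x, Finset.mul_sum]
    refine Finset.sum_congr rfl fun j _ => ?_
    rw [map_mul, mul_assoc]
  -- the saturation
  let P : A → Prop := fun x => ∃ (m : ℕ) (e : Fin n → R), φ δ ^ m * x = ∑ j, φ (e j) * b j
  have P0 : P 0 := ⟨0, 0, by simp⟩
  have Padd : ∀ x y, P x → P y → P (x + y) := by
    rintro x y ⟨m, e, h⟩ ⟨m', e', h'⟩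
    refine ⟨m + m', fun j => δ ^ m' * e j + δ ^ m * e' j, ?_⟩
    have : φ δ ^ (m + m') * (x + y) = φ δ ^ m' * (φ δ ^ m * x) + φ δ ^ m * (φ δ ^ m' * y) := by
      ring
    rw [this, h, h', Finset.mul_sum, Finset.mul_sum, ← Finset.sum_add_distrib]
    refine Finset.sum_congr rfl fun j _ => ?_
    simp only [map_add, map_mul, map_pow]
    ring
  have Pmul : ∀ (t : R) x, P x → P (φ t * x) := by
    rintro t x ⟨m, e, h⟩
    refine ⟨m, fun j => t * e j, ?_⟩
    rw [mul_left_comm, h, Finset.mul_sum]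
    refine Finset.sum_congr rfl fun j _ => ?_
    rw [map_mul, mul_assoc]
  have Pdiv : ∀ (m : ℕ) x, P (φ δ ^ m * x) → P x := by
    rintro m x ⟨m', e, h⟩
    exact ⟨m' + m, e, by rw [pow_add, mul_assoc, h]⟩
  have Psum : ∀ (f : Fin n → A), (∀ j, P (f j)) → P (∑ j, f j) := fun f hf =>
    Finset.sum_induction f P Padd P0 fun j _ => hf j
  have PT : ∀ x ∈ T, P x := fun x hx => by
    obtain ⟨e, he⟩ := hδ x hx
    exact ⟨1, e, by rw [pow_one, he]⟩
  have Pgen : ∀ g ∈ s, ∀ x, P x → P (g * x) := by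
    rintro g hg x ⟨m, e, h⟩
    refine Pdiv m _ ?_
    rw [mul_left_comm, h, Finset.mul_sum]
    refine Psum _ fun j => ?_
    rw [mul_left_comm]
    refine Pmul _ _ (PT _ ?_)
    refine Finset.mem_insert_of_mem (Finset.mem_image.2 ⟨(g, j), ?_, rfl⟩)
    exact Finset.mem_product.2 ⟨hg, Finset.mem_univ _⟩
  have Pall : ∀ y, P y := by
    have h : ∀ y ∈ Algebra.adjoin ℂ (s : Set A), ∀ x, P x → P (y * x) := by
      intro y hy
      induction hy using Algebra.adjoin_induction with
      | mem g hg => exact Pgen g hg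
      | algebraMap z =>
        intro x hx
        rw [← φ.commutes z]
        exact Pmul _ _ hx
      | add u v _ _ hu hv =>
        intro x hx
        rw [add_mul]
        exact Padd _ _ (hu x hx) (hv x hx)
      | mul u v _ _ hu hv =>
        intro x hx
        rw [mul_assoc]
        exact hu _ (hv x hx)
    intro y
    have := h y (by rw [hs]; exact Algebra.mem_top) 1 (PT 1 (Finset.mem_insert_self _ _))
    rwa [mul_one] at this
  refine ⟨δ, hδ0, fun ψ hψ => ?_⟩
  set S : Set (A →ₐ[ℂ] ℂ) := {χ : A →ₐ[ℂ] ℂ | ∀ r, χ (φ r) = ψ r} with hS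
  have hli : LinearIndependent ℂ fun χ : S => fun j => χ.1 (b j) := by
    have h0 : LinearIndependent ℂ fun χ : S => (χ.1.toLinearMap : A →ₗ[ℂ] ℂ) :=
      (linearIndependent_toLinearMap ℂ A ℂ).comp (Subtype.val : S → _) Subtype.val_injective
    rw [linearIndependent_iff'] at h0 ⊢
    intro u g hg
    refine h0 u g (LinearMap.ext fun x => ?_)
    obtain ⟨m, e, h⟩ := Pall x
    have h1 : ∀ χ : S, ψ δ ^ m * χ.1 x = ∑ j, ψ (e j) * χ.1 (b j) := by
      intro χ
      have h2 := congrArg χ.1 h
      have h3 : ∀ t, χ.1 (φ t) = ψ t := χ.2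
      simpa only [map_mul, map_pow, map_sum, h3] using h2
    have h4 : ∀ j, ∑ χ ∈ u, g χ * χ.1 (b j) = 0 := by
      intro j
      have := congrFun hg j
      simpa [Finset.sum_apply] using this
    have h5 : ψ δ ^ m * ∑ χ ∈ u, g χ * χ.1 x = 0 := by
      rw [Finset.mul_sum]
      calc ∑ χ ∈ u, ψ δ ^ m * (g χ * χ.1 x)
          = ∑ χ ∈ u, ∑ j, ψ (e j) * (g χ * χ.1 (b j)) := by
            refine Finset.sum_congr rfl fun χ _ => ?_
            rw [mul_left_comm, h1, Finset.mul_sum]
            refine Finset.sum_congr rfl fun j _ => ?_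
            ring
        _ = ∑ j, ψ (e j) * ∑ χ ∈ u, g χ * χ.1 (b j) := by
            rw [Finset.sum_comm]
            refine Finset.sum_congr rfl fun j _ => ?_
            rw [Finset.mul_sum]
        _ = 0 := by simp [h4]
    have h6 := (mul_eq_zero.1 h5).resolve_left (pow_ne_zero _ hψ)
    simpa [LinearMap.sum_apply] using h6
  have hfin : Finite S := hli.finite
  have hcard : Nat.card S ≤ n := by
    have := Fintype.ofFinite S
    have h := hli.fintype_card_le_finrank
    rw [Module.finrank_fin_fun] at h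
    rwa [Nat.card_eq_fintype_card]
  have hSf : S.Finite := Set.toFinite S
  rw [← hSf.cast_ncard_eq]
  exact_mod_cast hcard

end CNT

open CNT in
theorem bCNT : St_CNT := by
  classical
  intro L _ _ A a c hA hfrac _ hfd
  have hev : ∀ (χ : A →ₐ[ℂ] ℂ) (τ γ : ℂ), χ a = τ → χ c = γ → ∀ f : MvPolynomial (Fin 2) ℂ,
      χ (aeval ![a, c] f) = aeval ![τ, γ] f := by
    intro χ τ γ h1 h2 f
    have h : χ.comp (aeval ![a, c]) = aeval ![τ, γ] := by
      refine MvPolynomial.algHom_ext fun i => ?_
      fin_cases i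
      · simpa using h1
      · simpa using h2
    exact congrArg (fun g : MvPolynomial (Fin 2) ℂ →ₐ[ℂ] ℂ => g f) h
  have hval : ∀ f : MvPolynomial (Fin 2) ℂ,
      ((aeval ![a, c] f : A) : L) = aeval ![(a : L), (c : L)] f := by
    intro f
    have h : A.val.comp (aeval ![a, c]) = aeval ![(a : L), (c : L)] := by
      refine MvPolynomial.algHom_ext fun i => ?_
      fin_cases i
      · simp
      · simp
    exact congrArg (fun g : MvPolynomial (Fin 2) ℂ →ₐ[ℂ] L => g f) h
  by_cases hind : AlgebraicIndependent ℂ ![(a : L), (c : L)]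
  · have hK := hfd hind
    have hdg : dg (a : L) (c : L) =
        finrank (IntermediateField.adjoin ℂ {(a : L), (c : L)}) L := by
      unfold dg
      rw [if_pos hind]
    rw [hdg]
    have hrange : ({(a : L), (c : L)} : Set L) = Set.range ![(a : L), (c : L)] := by
      simp [Set.pair_comm]
    have hK' : ∀ k : IntermediateField.adjoin ℂ {(a : L), (c : L)},
        ∃ p q : MvPolynomial (Fin 2) ℂ, q ≠ 0 ∧
          aeval ![(a : L), (c : L)] q * (k : L) = aeval ![(a : L), (c : L)] p := by
      rintro ⟨k, hk⟩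
      rw [hrange, IntermediateField.mem_adjoin_range_iff] at hk
      obtain ⟨p, q, hpq⟩ := hk
      by_cases hq : aeval ![(a : L), (c : L)] q = 0
      · exact ⟨0, 1, one_ne_zero, by simp [hpq, hq]⟩
      · refine ⟨p, q, ?_, ?_⟩
        · rintro rfl
          exact hq (map_zero _)
        · simp only [hpq]
          field_simp
    set K := IntermediateField.adjoin ℂ {(a : L), (c : L)} with hKdef
    set n := finrank K L with hn
    let v : Basis (Fin n) K L := Module.finBasis K L
    choose p hp q hq hq0 hpq using hfrac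
    let Q : L := ∏ j, q (v j)
    have hQ0 : Q ≠ 0 := Finset.prod_ne_zero_iff.2 fun j _ => hq0 _
    have hQ : ∀ j, Q * v j ∈ A := by
      intro j
      have : Q * v j = (∏ i ∈ Finset.univ.erase j, q (v i)) * p (v j) := by
        have h : Q = (∏ i ∈ Finset.univ.erase j, q (v i)) * q (v j) :=
          (Finset.prod_erase_mul Finset.univ (fun i => q (v i)) (Finset.mem_univ j)).symm
        rw [← hpq (v j), h]
        ring
      rw [this]
      exact A.mul_mem (A.prod_mem fun i _ => hq _) (hp _)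
    let b : Fin n → A := fun j => ⟨Q * v j, hQ j⟩
    obtain ⟨s, hs⟩ : (⊤ : Subalgebra ℂ A).FG := (Subalgebra.fg_top A).2 hA
    choose P R hR0 hPR using hK'
    have hb : ∀ x : A, ∃ r : MvPolynomial (Fin 2) ℂ, r ≠ 0 ∧
        ∃ co : Fin n → MvPolynomial (Fin 2) ℂ,
          aeval ![a, c] r * x = ∑ j, aeval ![a, c] (co j) * b j := by
      intro x
      let k : Fin n → K := fun j => v.repr ((x : L) / Q) j
      refine ⟨∏ j, R (k j), Finset.prod_ne_zero_iff.2 fun j _ => hR0 _,
        fun j => (∏ i ∈ Finset.univ.erase j, R (k i)) * P (k j), Subtype.ext ?_⟩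
      have h1 : (x : L) = ∑ j, (k j : L) * (Q * v j) := by
        have h2 : ∑ j, k j • v j = (x : L) / Q := v.sum_repr _
        have h3 : (x : L) = Q * ((x : L) / Q) := by field_simp
        rw [h3, ← h2, Finset.mul_sum]
        refine Finset.sum_congr rfl fun j _ => ?_
        rw [IntermediateField.smul_def, smul_eq_mul]
        ring
      rw [Subalgebra.coe_mul, hval, AddSubmonoidClass.coe_finsetSum, h1, Finset.mul_sum]
      refine Finset.sum_congr rfl fun j _ => ?_
      rw [Subalgebra.coe_mul, hval, map_mul, ← hPR (k j),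
        ← Finset.prod_erase_mul Finset.univ (fun i => R (k i)) (Finset.mem_univ j), map_mul]
      simp only [b]
      ring
    obtain ⟨δ, hδ0, hδ⟩ := core (aeval ![a, c]) s hs n b hb
    filter_upwards [gen_ne δ hδ0] with τ hτ
    filter_upwards [hτ] with γ hγ
    refine le_trans (Set.encard_le_encard ?_) (hδ (aeval ![τ, γ]) hγ)
    rintro χ ⟨h1, h2⟩
    exact hev χ τ γ h1 h2
  · obtain ⟨f, hf, hf0⟩ : ∃ f : MvPolynomial (Fin 2) ℂ,
        aeval ![(a : L), (c : L)] f = 0 ∧ f ≠ 0 := by
      by_contra hcon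
      refine hind (algebraicIndependent_iff.2 fun f hf => ?_)
      by_contra h0
      exact hcon ⟨f, hf, h0⟩
    have hfA : (aeval ![a, c] f : A) = 0 := Subtype.ext (by rw [hval, hf]; rfl)
    filter_upwards [gen_ne f hf0] with τ hτ
    filter_upwards [hτ] with γ hγ
    have : {χ : A →ₐ[ℂ] ℂ | χ a = τ ∧ χ c = γ} = ∅ := by
      refine Set.eq_empty_of_forall_notMem ?_
      rintro χ ⟨h1, h2⟩
      apply hγ
      rw [← hev χ τ γ h1 h2, hfA, map_zero]
    rw [this, Set.encard_empty]
    exact zero_le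

end Pool.Agent.Lib.CLF
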