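import Pool.Agent.Lib.CLF.BBlue

/-! Row CONE: hyperplane sections, positivity, support. -/

open MvPolynomial Filter Topology Function Module Pool.Agent.Lib.MP_08f962_ag

noncomputable section

namespace Pool.Agent.Lib.CLF

namespace CONE

variable {n m : ℕ}

theorem cn_mono {J J' : Ideal (S n m)} (h : J ≤ J') (k : ℕ) : Cn J' k ≤ Cn J k :=
  AddSubmonoid.closure_mono fun _ ⟨P, h1, h2, h3, h4⟩ => ⟨P, h1, h2, h.trans h3, h4⟩

theorem sh_zero (d e : ℝ) : sh d e 0 = 0 := by
  funext p
  simp [sh]

theorem sh_add (d e : ℝ) (c c' : ℕ × ℕ → ℝ) : sh d e (c + c') = sh d e c + sh d e c' := by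
  funext p
  simp only [sh, Pi.add_apply]
  ring

theorem cut (hC : St_CUTP) (hH : St_HEX) {J : Ideal (S n m)} {k c} (hc : c ∈ Cn J (k + 1)) :
    sh 1 0 c ∈ Cn J k ∧ sh 0 1 c ∈ Cn J k := by
  induction hc using AddSubmonoid.closure_induction with
  | mem c hc =>
    obtain ⟨P, h1, h2, h3, h4⟩ := hc
    constructor
    · by_cases h : ∀ i, X (Sum.inl i) ∈ P
      · rw [hH.zero h4 (Or.inl h), sh_zero]
        exact zero_mem _
      · push Not at h
        obtain ⟨i, hi⟩ := h
        have := hC n m P _ 1 0 k c h1 h2 (x_mem i) hi h4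
        rw [Nat.cast_one, Nat.cast_zero] at this
        exact cn_mono (h3.trans le_sup_left) k this
    · by_cases h : ∀ j, X (Sum.inr j) ∈ P
      · rw [hH.zero h4 (Or.inr h), sh_zero]
        exact zero_mem _
      · push Not at h
        obtain ⟨j, hj⟩ := h
        have := hC n m P _ 0 1 k c h1 h2 (y_mem j) hj h4
        rw [Nat.cast_one, Nat.cast_zero] at this
        exact cn_mono (h3.trans le_sup_left) k this
  | zero => rw [sh_zero, sh_zero]; exact ⟨zero_mem _, zero_mem _⟩
  | add c c' _ _ h h' => rw [sh_add, sh_add]; exact ⟨add_mem h.1 h'.1, add_mem h.2 h'.2⟩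

theorem deg0 {J : Ideal (S n m)} {k c} (hc : c ∈ Cn J k) (a b : ℕ) (h : a + b ≠ k) :
    c (a, b) = 0 := by
  induction hc using AddSubmonoid.closure_induction with
  | mem c hc =>
    obtain ⟨P, -, -, -, q, -, -, h4⟩ := hc
    rw [h4, if_neg h]
  | zero => rfl
  | add c c' _ _ h h' => rw [Pi.add_apply, h, h', add_zero]

theorem sh_left (c : ℕ × ℕ → ℝ) (a b : ℕ) : sh 1 0 c (a, b) = c (a + 1, b) := by simp [sh]

theorem sh_right (c : ℕ × ℕ → ℝ) (a b : ℕ) : sh 0 1 c (a, b) = c (a, b + 1) := by simp [sh]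

theorem pos (hC : St_CUTP) (hH : St_HEX) (hA : St_ASY) {J : Ideal (S n m)} (k : ℕ) :
    ∀ c ∈ Cn J k, ∀ a b, 0 ≤ c (a, b) := by
  induction k with
  | zero =>
    intro c hc a b
    by_cases h : a + b = 0
    · obtain ⟨rfl, rfl⟩ := Nat.add_eq_zero_iff.1 h
      induction hc using AddSubmonoid.closure_induction with
      | mem c hc =>
        obtain ⟨P, -, -, -, h4⟩ := hc
        exact hA.zero h4
      | zero => exact le_rfl
      | add c c' _ _ h h' => exact add_nonneg h h'
    · exact (deg0 hc a b h).ge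
  | succ k ih =>
    intro c hc a b
    rcases a with _ | a
    · rcases b with _ | b
      · exact (deg0 hc 0 0 (by omega)).ge
      · rw [← sh_right c]
        exact ih _ (cut hC hH hc).2 _ _
    · rw [← sh_left c]
      exact ih _ (cut hC hH hc).1 _ _

theorem surf (hC : St_CUTP) (hH : St_HEX) {J : Ideal (S n m)} {x y z : ℝ}
    (h : ∀ (P : Ideal (S n m)) c, P.IsPrime → IsBihom P → J ≤ P → Cl P 2 c →
      x * c (1, 1) ≤ y * c (2, 0) + z * c (0, 2)) (k : ℕ) : ∀ c ∈ Cn J k, ∀ a b,
      x * c (a + 1, b + 1) ≤ y * c (a + 2, b) + z * c (a, b + 2) := by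
  induction k with
  | zero =>
    intro c hc a b
    rw [deg0 hc _ _ (by omega), deg0 hc _ _ (by omega), deg0 hc _ _ (by omega)]
    simp
  | succ k ih =>
    intro c hc a b
    rcases a with _ | a
    · rcases b with _ | b
      · by_cases hk : k + 1 = 2
        · rw [hk] at hc
          induction hc using AddSubmonoid.closure_induction with
          | mem c hc =>
            obtain ⟨P, h1, h2, h3, h4⟩ := hc
            exact h P c h1 h2 h3 h4
          | zero => simp
          | add c c' _ _ h h' =>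
            simp only [Pi.add_apply]
            linarith
        · rw [deg0 hc _ _ (by omega), deg0 hc _ _ (by omega), deg0 hc _ _ (by omega)]
          simp
      · have := ih _ (cut hC hH hc).2 0 b
        rwa [sh_right, sh_right, sh_right] at this
    · have := ih _ (cut hC hH hc).1 a b
      rwa [sh_left, sh_left, sh_left] at this

end CONE

theorem bCONE (hC : St_CUTP) (hH : St_HEX) (hA : St_ASY) : St_CONE where
  cut hc := CONE.cut hC hH hc
  pos hc p := CONE.pos hC hH hA _ _ hc p.1 p.2
  deg hc a b h := by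
    by_contra hk
    exact h (CONE.deg0 hc a b hk)
  surf h k := CONE.surf hC hH h k

end Pool.Agent.Lib.CLF
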