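import Pool.Agent.Lib.CLF.ABlue

/-! Row CONV: the resolvent averages. -/

open MeasureTheory Set

noncomputable section

namespace Pool.Agent.Lib.CLF

lemma CONV.sum (hR : St_RP) (C : Cv) {l b} (hl : 0 < l) {ι : Type} (s : Finset ι) {g u : Am → ℝ} {u'}
    {f v : ι → Am → ℝ} {v' : ι → Am → ℂ} (h0 : C.Res l b g u u') (h : ∀ k, C.Res l b (f k) (v k) (v' k))
    (c : ℝ) (x : ι → ℝ) : ∃ w', C.Res l b (fun p => c * g p - ∑ k ∈ s, x k * f k p)
      (fun p => c * u p - ∑ k ∈ s, x k * v k p) w' := by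
  classical
  induction s using Finset.induction_on with
  | empty => exact ⟨_, by simpa using hR.lin C c 0 hl h0 h0⟩
  | insert a s ha ih =>
    obtain ⟨w', hw⟩ := ih
    have := hR.lin C 1 (-x a) hl hw (h a)
    have e : ∀ y z w : ℝ, 1 * (y - z) + -x a * w = y - (x a * w + z) := fun y z w => by ring
    simp only [e] at this
    simp only [Finset.sum_insert ha]
    exact ⟨_, this⟩

theorem bCONV (hR : St_RP) (hP : St_POS) (hI : St_INT) : St_CONV :=
  fun C l b r χ u F v u' v' Q hl h0 hu hv hQ => by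
  obtain ⟨L, c, e⟩ := RCLike.iInter_countable_halfSpaces_eq (𝕜 := ℝ)
    (convex_convexHull ℝ Q).closure isClosed_closure
  simp only [RCLike.re_to_real] at e
  have hL : ∀ n (x : Fin r → ℝ), L n x = ∑ k, L n (Pi.single k 1) * x k := fun n x => by
    conv_lhs => rw [pi_eq_sum_univ' x, map_sum]
    simp only [map_smul, smul_eq_mul, mul_comm]
  have key : ∀ n, ∀ᵐ p ∂C.mu, 0 ≤ c n * u p - ∑ k, L n (Pi.single k 1) * v k p := fun n => by
    obtain ⟨w', hw⟩ := CONV.sum hR C hl Finset.univ hu hv (c n) fun k => L n (Pi.single k 1)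
    refine hP C l b _ _ _ hl hw ((hI.ae C).mono fun p hp => ?_)
    by_cases z : χ p = 0
    · simp [z]
    · have m := subset_closure (subset_convexHull ℝ Q (hQ p hp z))
      rw [← e] at m
      have := mul_le_mul_of_nonneg_left (show L n _ ≤ c n from mem_iInter.1 m n) (h0 p)
      rw [hL, Finset.mul_sum] at this
      simp only [mul_left_comm (χ p)] at this
      linarith
  filter_upwards [ae_all_iff.2 key] with p hp up
  rw [← e]
  refine mem_iInter.2 fun n => ?_
  rw [mem_ofPred_eq, hL]
  simp only [← mul_div_assoc, ← Finset.sum_div]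
  rw [div_le_iff₀ up]
  linarith [hp n]

end Pool.Agent.Lib.CLF
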