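import Pool.Agent.Lib.CLF.ABlue

/-! Cutoffs on the cover. -/

open MeasureTheory Filter Topology Set Function
open scoped ContDiff ENNReal ComplexConjugate

noncomputable section

namespace Pool.Agent.Lib.CLF

namespace CUT

/-- A polynomial as a function on the base. -/
def P (f : MvPolynomial (Fin 2) ℂ) (z : B2) : ℂ := MvPolynomial.eval ![z.1, z.2] f

theorem P_sm (f : MvPolynomial (Fin 2) ℂ) : ContDiff ℂ ∞ (P f) := by
  unfold P
  induction f using MvPolynomial.induction_on with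
  | C a => simpa using contDiff_const
  | add p q hp hq => simpa using hp.add hq
  | mul_X p i hp =>
    simp only [map_mul, MvPolynomial.eval_X]
    refine hp.mul ?_
    fin_cases i
    · simpa using contDiff_fst
    · simpa using contDiff_snd

/-- The energy of a function on the base. -/
def E (C : Cv) (l : ℝ) (b : Bool) (a : B2 → ℝ) : ℝ≥0∞ :=
  ∫⁻ p, ‖wd b (cx a) p.1‖ₑ ^ 2 ∂C.mo l b

theorem meas (b : Bool) (f : B2 → ℂ) : Measurable fun p : Am => ‖wd b f p.1‖ₑ ^ 2 := by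
  have h : Measurable (wd b f) :=
    ((measurable_fderiv_apply_const ℝ f _).sub
      ((measurable_fderiv_apply_const ℝ f _).const_mul _)).div_const 2
  exact (h.comp measurable_fst).enorm.pow_const 2

theorem cx_sm {a : B2 → ℝ} (ha : ContDiff ℝ ∞ a) : ContDiff ℝ ∞ (cx a) :=
  Complex.ofRealCLM.contDiff.comp ha

theorem E_mul (hW : St_WIR) (C : Cv) (l : ℝ) (b : Bool) {a a' : B2 → ℝ} (ha : ContDiff ℝ ∞ a)
    (ha' : ContDiff ℝ ∞ a') (i : ∀ z, a z ∈ Icc (0 : ℝ) 1) (i' : ∀ z, a' z ∈ Icc (0 : ℝ) 1) :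
    E C l b (fun z => a z * a' z) ≤ 2 * (E C l b a + E C l b a') := by
  unfold E
  rw [← lintegral_add_left (meas b _), ← lintegral_const_mul' _ _ (by simp)]
  refine lintegral_mono fun p => ?_
  have e : cx (fun z => a z * a' z) = fun z => cx a z * cx a' z := by
    funext z; simp [cx]
  have hle : ‖wd b (cx fun z => a z * a' z) p.1‖ ≤ ‖wd b (cx a) p.1‖ + ‖wd b (cx a') p.1‖ := by
    rw [e, hW.mul b ((cx_sm ha).differentiable (by simp) _) ((cx_sm ha').differentiable (by simp) _)]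
    refine (norm_add_le _ _).trans ?_
    have n1 : ‖cx a p.1‖ = a p.1 := by simp [cx, abs_of_nonneg (i _).1]
    have n2 : ‖cx a' p.1‖ = a' p.1 := by simp [cx, abs_of_nonneg (i' _).1]
    rw [norm_mul, norm_mul, n1, n2]
    nlinarith [norm_nonneg (wd b (cx a) p.1), norm_nonneg (wd b (cx a') p.1), (i p.1).1, (i p.1).2,
      (i' p.1).1, (i' p.1).2]
  have h2 : ‖wd b (cx fun z => a z * a' z) p.1‖ ^ 2 ≤
      2 * (‖wd b (cx a) p.1‖ ^ 2 + ‖wd b (cx a') p.1‖ ^ 2) := by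
    have := pow_le_pow_left₀ (norm_nonneg _) hle 2
    nlinarith [sq_nonneg (‖wd b (cx a) p.1‖ - ‖wd b (cx a') p.1‖)]
  simp only [← ofReal_norm]
  rw [← ENNReal.ofReal_pow (norm_nonneg _), ← ENNReal.ofReal_pow (norm_nonneg _),
    ← ENNReal.ofReal_pow (norm_nonneg _), ← ENNReal.ofReal_add (sq_nonneg _) (sq_nonneg _),
    ← ENNReal.ofReal_ofNat 2, ← ENNReal.ofReal_mul (by norm_num)]
  exact ENNReal.ofReal_le_ofReal h2

theorem E_comp (hAR : St_AR) (hCD : St_CD) (hW : St_WIR) (C : Cv) {l : ℝ} (hl : 0 < l) (b : Bool)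
    {f : MvPolynomial (Fin 2) ℂ} (hf : f ≠ 0) {θ : ℕ → ℂ → ℝ} (hθ : ∀ j, ContDiff ℝ ∞ (θ j))
    (he : ∀ j : ℕ, ∫⁻ z, ‖fderiv ℝ (θ j) z‖ₑ ^ 2 ≤ ENNReal.ofReal (1 / ((j : ℝ) + 1))) :
    Tendsto (fun j => E C l b fun z => θ j (P f z)) atTop (𝓝 0) := by
  obtain ⟨-, -, hol, hN⟩ := hCD C f hf
  obtain ⟨N, hN⟩ := hN b
  have t0 : Tendsto (fun j : ℕ => ENNReal.ofReal (1 / ((j : ℝ) + 1))) atTop (𝓝 0) := by
    simpa using ENNReal.tendsto_ofReal (tendsto_one_div_add_atTop_nhds_zero_nat (𝕜 := ℝ))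
  have t1 := ENNReal.Tendsto.const_mul (a := N * ENNReal.ofReal (l * Real.pi)) t0
    (Or.inr (ENNReal.mul_ne_top (by simp) ENNReal.ofReal_ne_top))
  rw [mul_zero] at t1
  refine tendsto_of_tendsto_of_tendsto_of_le_of_le tendsto_const_nhds t1 (fun _ => zero_le)
    fun j => ?_
  have h1 := hAR C l b _ N (fun c => ‖fderiv ℝ (θ j) c‖ₑ ^ 2) hl
    ((measurable_fderiv ℝ (θ j)).enorm.pow_const 2) hol hN
  refine le_trans (lintegral_mono fun p => ?_) (h1.trans (mul_le_mul_right (he j) _))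
  have h2 := hW.compH b (θ := θ j) (f := P f) (z := p.1)
    ((P_sm f).differentiable (by simp) _) ((hθ j).differentiable (by simp) _)
  change _ ≤ ‖fderiv ℝ (θ j) (P f p.1)‖ₑ ^ 2 * ‖wd b (P f) p.1‖ₑ ^ 2
  rw [← mul_pow]
  refine pow_le_pow_left' ?_ 2
  simp only [← ofReal_norm]
  rw [← ENNReal.ofReal_mul (norm_nonneg _)]
  exact ENNReal.ofReal_le_ofReal h2

end CUT

open CUT in
theorem bCUT (hTC : St_TC) (hAR : St_AR) (hCD : St_CD) (hW : St_WIR) : St_CUT := by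
  intro C l δ hl hδ hΩ
  have hpos : ∀ j : ℕ, (0 : ℝ) < 1 / ((j : ℝ) + 1) := fun j => by positivity
  have h1 : ∀ j : ℕ, ∃ θ : ℂ → ℝ, Bump {0}ᶜ θ ∧ (∀ z, θ z ∈ Icc (0 : ℝ) 1) ∧
      (∀ z ∈ Metric.closedBall (0 : ℂ) j \ Metric.ball 0 (1 / ((j : ℝ) + 1)), θ z = 1) ∧
      ∫⁻ z, ‖fderiv ℝ θ z‖ₑ ^ 2 ≤ ENNReal.ofReal (1 / ((j : ℝ) + 1)) := fun j =>
    hTC {0} _ _ (finite_singleton 0) ((isCompact_closedBall 0 _).diff Metric.isOpen_ball)
      (by rintro z hz rfl; exact hz.2 (Metric.mem_ball_self (hpos j))) (hpos j)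
  have h2 : ∀ j : ℕ, ∃ θ : ℂ → ℝ, Bump ∅ᶜ θ ∧ (∀ z, θ z ∈ Icc (0 : ℝ) 1) ∧
      (∀ z ∈ Metric.closedBall (0 : ℂ) j, θ z = 1) ∧
      ∫⁻ z, ‖fderiv ℝ θ z‖ₑ ^ 2 ≤ ENNReal.ofReal (1 / ((j : ℝ) + 1)) := fun j =>
    hTC ∅ _ _ finite_empty (isCompact_closedBall 0 _) (by simp) (hpos j)
  choose θ hθ iθ oθ eθ using h1
  choose σ hσ iσ oσ eσ using h2
  have ps : ∀ f, ContDiff ℝ ∞ (P f) := fun f => (P_sm f).restrict_scalars ℝ
  have p0 : ∀ z : B2, P (MvPolynomial.X 0) z = z.1 := fun z => by simp [P]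
  have p1 : ∀ z : B2, P (MvPolynomial.X 1) z = z.2 := fun z => by simp [P]
  have s1 : ∀ j, ContDiff ℝ ∞ fun z => θ j (P δ z) := fun j => (hθ j).1.comp (ps δ)
  have s2 : ∀ j f, ContDiff ℝ ∞ fun z => σ j (P f z) := fun j f => (hσ j).1.comp (ps f)
  have i2 : ∀ j z, σ j (P (MvPolynomial.X 0) z) * σ j (P (MvPolynomial.X 1) z) ∈ Icc (0 : ℝ) 1 :=
    fun j z => ⟨mul_nonneg (iσ _ _).1 (iσ _ _).1, mul_le_one₀ (iσ _ _).2 (iσ _ _).1 (iσ _ _).2⟩
  refine ⟨fun j z => θ j (P δ z) * (σ j (P (MvPolynomial.X 0) z) * σ j (P (MvPolynomial.X 1) z)),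
    fun j => ⟨⟨(s1 j).mul ((s2 j _).mul (s2 j _)), ?_, ?_⟩, fun z => ⟨mul_nonneg (iθ _ _).1
      (i2 j z).1, mul_le_one₀ (iθ _ _).2 (i2 j z).1 (i2 j z).2⟩⟩, fun K hK hKΩ => ?_, fun b => ?_⟩
  · refine HasCompactSupport.intro (IsCompact.prod (hσ j).2.1 (hσ j).2.1) fun z hz => ?_
    simp only [p0, p1]
    rcases not_and_or.1 hz with h | h
    · rw [image_eq_zero_of_notMem_tsupport h, zero_mul, mul_zero]
    · rw [image_eq_zero_of_notMem_tsupport h, mul_zero, mul_zero]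
  · refine tsupport_mul_subset_left.trans fun z hz => ?_
    rw [hΩ]
    exact (hθ j).2.2 (tsupport_comp_subset_preimage (θ j) (ps δ).continuous hz)
  · obtain ⟨R, hR⟩ := hK.isBounded.subset_closedBall 0
    have hK' := hK.image (ps δ).continuous
    obtain ⟨R', hR'⟩ := hK'.isBounded.subset_closedBall 0
    have h0 : (0 : ℂ) ∈ (P δ '' K)ᶜ := by
      rintro ⟨z, hz, h⟩
      have := hKΩ hz
      rw [hΩ] at this
      exact this h
    obtain ⟨ε, hε, hεK⟩ := Metric.isOpen_iff.1 hK'.isClosed.isOpen_compl 0 h0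
    filter_upwards [(tendsto_natCast_atTop_atTop (R := ℝ)).eventually_ge_atTop R,
      (tendsto_natCast_atTop_atTop (R := ℝ)).eventually_ge_atTop R',
      (tendsto_one_div_add_atTop_nhds_zero_nat (𝕜 := ℝ)).eventually (ge_mem_nhds hε)]
      with j j1 j2 j3 z hz
    have hz' : ‖z‖ ≤ R := by simpa using hR hz
    have a1 : θ j (P δ z) = 1 := oθ j _
      ⟨Metric.closedBall_subset_closedBall j2 (hR' (mem_image_of_mem _ hz)),
        fun h => hεK (Metric.ball_subset_ball j3 h) (mem_image_of_mem _ hz)⟩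
    have a2 : σ j z.1 = 1 := oσ j _ (by simpa using (norm_fst_le z).trans (hz'.trans j1))
    have a3 : σ j z.2 = 1 := oσ j _ (by simpa using (norm_snd_le z).trans (hz'.trans j1))
    rw [p0, p1, a1, a2, a3, one_mul, one_mul]
  · have t1 := E_comp hAR hCD hW C hl b hδ (fun j => (hθ j).1) eθ
    have t2 := E_comp hAR hCD hW C hl b (MvPolynomial.X_ne_zero 0) (fun j => (hσ j).1) eσ
    have t3 := E_comp hAR hCD hW C hl b (MvPolynomial.X_ne_zero 1) (fun j => (hσ j).1) eσ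
    have t4 := ENNReal.Tendsto.const_mul (a := 2) (t2.add t3) (Or.inr (by simp))
    have t5 := ENNReal.Tendsto.const_mul (a := 2) (t1.add t4) (Or.inr (by simp))
    simp only [add_zero, mul_zero] at t5
    have t6 : Tendsto (fun j => E C l b fun z => θ j (P δ z) *
        (σ j (P (MvPolynomial.X 0) z) * σ j (P (MvPolynomial.X 1) z))) atTop (𝓝 0) := by
      refine tendsto_of_tendsto_of_tendsto_of_le_of_le tendsto_const_nhds t5 (fun _ => zero_le)
        fun j => ?_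
      refine (E_mul hW C l b (s1 j) ((s2 j _).mul (s2 j _)) (fun z => iθ _ _) (i2 j)).trans ?_
      exact mul_le_mul_right (add_le_add_right
        (E_mul hW C l b (s2 j _) (s2 j _) (fun z => iσ _ _) fun z => iσ _ _) _) _
    have t7 := ((ENNReal.continuous_rpow_const (y := 1 / 2)).tendsto 0).comp t6
    rw [ENNReal.zero_rpow_of_pos (by norm_num)] at t7
    refine t7.congr fun j => ?_
    rw [eLpNorm_eq_lintegral_rpow_enorm_toReal two_ne_zero ENNReal.ofNat_ne_top]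
    simp [E]

end Pool.Agent.Lib.CLF
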