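import Pool.Agent.Lib.CLF.BBlue

/-! Cutting a subvariety. -/

open MvPolynomial Filter Topology Function Module Pool.Agent.Lib.MP_08f962_ag

noncomputable section

namespace Pool.Agent.Lib.CLF

theorem bCUTP (hD : St_DEC) (hP : St_PSH) : St_CUTP := by
  rintro n m P f d e k c hp hb hf hn ⟨q, hq, he, hc⟩
  obtain ⟨q', h1, h2, h3⟩ := hP q k d e hq
  refine hD n m _ k _ (hb.sup_span hf) ⟨q', h1, ?_, fun a b => ?_⟩
  · obtain ⟨N, hN⟩ := eventually_atTop.1 he
    refine eventually_atTop.2 ⟨N + (d, e), fun p hle => ?_⟩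
    obtain ⟨r, rfl⟩ : ∃ r, p = r + (d, e) :=
      ⟨p - (d, e), (tsub_add_cancel_of_le (le_add_self.trans hle)).symm⟩
    have hr : N ≤ r := le_of_add_le_add_right hle
    have := congrArg (Nat.cast (R := ℝ)) (hf_cut hb hf hn r)
    push_cast at this
    rw [h2, ← hN _ (hr.trans le_self_add), eq_sub_iff_add_eq, ← this, hN r hr]
    simp
  · simp only [sh, hc]
    by_cases e3 : a + b = k
    · rw [if_pos (by omega), if_pos (by omega), if_pos e3, h3 a b e3]
      simp only [Nat.factorial_succ]
      push_cast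
      ring
    · rw [if_neg (by omega), if_neg (by omega), if_neg e3]
      simp

end Pool.Agent.Lib.CLF
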