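import Pool.Agent.Lib.CLF.ABlue
import Pool.Agent.Lib.CLF.BBlue

/-! The cover defined by a monic polynomial. -/

open Filter Topology Set Function

noncomputable section

namespace Pool.Agent.Lib.CLF

namespace CV

theorem an_eval (q : MvPolynomial (Fin 2) ℂ) (z : B2) :
    AnalyticAt ℂ (fun w : B2 => MvPolynomial.eval ![w.1, w.2] q) z := by
  induction q using MvPolynomial.induction_on with
  | C a => simpa using analyticAt_const
  | add p q hp hq => simpa using hp.fun_add hq
  | mul_X p i hp =>
    simp only [map_mul, MvPolynomial.eval_X]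
    refine hp.mul ?_
    fin_cases i
    · simpa using analyticAt_fst
    · simpa using analyticAt_snd

/-- Evaluation at a point of the base. -/
def ph (z : B2) : MvPolynomial (Fin 2) ℂ →+* ℂ :=
  (MvPolynomial.aeval ![z.1, z.2] : MvPolynomial (Fin 2) ℂ →ₐ[ℂ] ℂ).toRingHom

theorem ph_eq (z : B2) (q : MvPolynomial (Fin 2) ℂ) :
    ph z q = MvPolynomial.eval ![z.1, z.2] q := rfl

theorem an_ph (q : MvPolynomial (Fin 2) ℂ) (z : B2) : AnalyticAt ℂ (fun w => ph w q) z := by
  simp only [ph_eq]
  exact an_eval q z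

theorem ev3_eq (z : B2) (x : ℂ) (h : Polynomial (MvPolynomial (Fin 2) ℂ)) :
    ev3 z.1 z.2 x h = (h.map (ph z)).eval x := by
  rw [Polynomial.eval_map]
  rfl

theorem an_ev3 (h : Polynomial (MvPolynomial (Fin 2) ℂ)) {b : B2 → ℂ} {z : B2}
    (hb : AnalyticAt ℂ b z) : AnalyticAt ℂ (fun w : B2 => ev3 w.1 w.2 (b w) h) z := by
  have e : (fun w : B2 => ev3 w.1 w.2 (b w) h) =
      fun w => ∑ j ∈ Finset.range (h.natDegree + 1), ph w (h.coeff j) * b w ^ j := by
    funext w
    exact Polynomial.eval₂_eq_sum_range _ _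
  rw [e]
  exact Finset.analyticAt_fun_sum _ fun j _ => (an_ph _ z).mul (hb.pow j)

theorem open_zs (δ : MvPolynomial (Fin 2) ℂ) : IsOpen (zs δ) :=
  isOpen_ne_fun (continuous_iff_continuousAt.2 fun z => (an_eval δ z).continuousAt)
    continuous_const

theorem ex_roots {q : Polynomial ℂ} (hq : q ≠ 0) (hs : q.Separable) {N : ℕ}
    (hN : q.natDegree = N) : ∃ r : Fin N → ℂ, Injective r ∧ ∀ k, q.eval (r k) = 0 := by
  have h1 : q.roots.toFinset.card = N := by
    rw [Multiset.toFinset_card_of_nodup (Polynomial.nodup_roots hs), ← hN]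
    exact (IsAlgClosed.splits q).natDegree_eq_card_roots.symm
  let e := (Finset.equivFinOfCardEq h1).symm
  refine ⟨fun k => (e k).1, Subtype.val_injective.comp e.injective, fun k => ?_⟩
  exact (Polynomial.mem_roots hq).1 (Multiset.mem_toFinset.1 (e k).2)

end CV

open CV in
theorem bCV (hR : St_RT0) (hE : St_ENUM) (hB : St_BR) : St_CV := by
  intro P a b δ₀ δ hP hab hd
  obtain ⟨C, h1, h2, h3⟩ := hE (zs δ) P.natDegree (fun z => {x | ev3 z.1 z.2 x P = 0})
    (open_zs δ) (by
      intro z hz
      have hm : ∀ w, (P.map (ph w)).Monic := fun w => hP.map _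
      have hn : ∀ w, (P.map (ph w)).natDegree = P.natDegree := fun w => hP.natDegree_map _
      have h0 : ph z δ₀ ≠ 0 := by
        obtain ⟨c, rfl⟩ := hd
        intro h
        apply hz
        rw [← ph_eq, map_mul, h, zero_mul]
      have hs : (P.map (ph z)).Separable := by
        have e := congrArg (Polynomial.map (ph z)) hab
        simp only [Polynomial.map_add, Polynomial.map_mul, Polynomial.map_C] at e
        refine ⟨Polynomial.C (ph z δ₀)⁻¹ * a.map (ph z), Polynomial.C (ph z δ₀)⁻¹ * b.map (ph z),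
          ?_⟩
        rw [Polynomial.derivative_map, mul_assoc, mul_assoc, ← mul_add, e, ← map_mul,
          inv_mul_cancel₀ h0, map_one]
      obtain ⟨r, hr, hr0⟩ := ex_roots (hm z).ne_zero hs (hn z)
      obtain ⟨β, hβ, hev⟩ := hR B2 P.natDegree (fun w => P.map (ph w)) z r (fun w => (hn w).le)
        (fun j => by simpa only [Polynomial.coeff_map] using an_ph (P.coeff j) z)
        (by
          have e := (hm z).coeff_natDegree
          rw [hn] at e
          rw [e]
          exact one_ne_zero) hr hr0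
      refine ⟨β, fun k => (hβ k).1, ?_⟩
      filter_upwards [hev] with w hw
      refine ⟨hw.1, ?_⟩
      ext x
      rw [← hw.2 x, ← ev3_eq]
      rfl)
  refine ⟨C, h1, h2, h3, fun h k p hp => ?_⟩
  have hz : p.1 ∈ zs δ := h1 ▸ hp.1
  exact (an_ev3 h (hB.isBr C hp).1).div ((an_eval δ p.1).pow k) (pow_ne_zero k hz)

end Pool.Agent.Lib.CLF
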