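import Pool.Agent.Lib.CLF.BBlue

/-! Decomposition of a class into classes of primes. -/

open MvPolynomial Filter Topology Function Module Pool.Agent.Lib.MP_08f962_ag

noncomputable section

namespace Pool.Agent.Lib.CLF

namespace DEC

lemma mono {n m : ℕ} {I J : Ideal (S n m)} (h : I ≤ J) (k : ℕ) : Cn J k ≤ Cn I k :=
  AddSubmonoid.closure_mono fun _ ⟨P, a, b, c, d⟩ => ⟨P, a, b, h.trans c, d⟩

lemma top {q : MvPolynomial (Fin 2) ℝ} {a b : ℕ} (h : q.totalDegree < a + b) :
    q.coeff (Finsupp.single 0 a + Finsupp.single 1 b) = 0 :=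
  coeff_eq_zero_of_totalDegree_lt (by
    rw [← Finsupp.degree_apply, map_add, Finsupp.degree_single, Finsupp.degree_single]
    exact h)

end DEC

theorem bDEC (hH : St_HEX) (hD : St_PDEG) (hS : St_PSH) (hI : St_IND) : St_DEC := by
  intro n m I k c h
  refine hI n m (fun I => ∀ c, Cl I k c → c ∈ Cn I k) (fun c hc => ?_)
    (fun P a b _ c hc => AddSubmonoid.subset_closure ⟨P, a, b, le_rfl, hc⟩) ?_ I h c
  · rw [hH.zero hc (.inl fun _ => trivial)]
    exact zero_mem _
  · rintro I J K p hJ hK bJ - e qJ qK c ⟨q, q1, q2, q3⟩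
    obtain ⟨r, r2⟩ := hH.ex bJ
    have r1 : r.totalDegree ≤ k := hD.le r q k q1 (by
      filter_upwards [q2, r2, eventually_ge_atTop p] with x a b hx
      rw [← a, ← b]
      have := e (x - p)
      rw [tsub_add_cancel_of_le hx] at this
      exact ⟨Nat.cast_nonneg _, Nat.cast_le.2 (by omega)⟩)
    have d1 : (q - r).totalDegree ≤ k := (totalDegree_sub _ _).trans (max_le q1 r1)
    obtain ⟨u, u1, u2, u3⟩ := hS (q - r) k (-p.1) (-p.2) (d1.trans k.le_succ)
    have t : Tendsto (fun x : ℕ × ℕ => x + p) atTop atTop :=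
      tendsto_atTop_mono (fun x => le_self_add) tendsto_id
    have a1 := qJ (fun x => if x.1 + x.2 = k then (x.1.factorial * x.2.factorial : ℕ) *
      r.coeff (Finsupp.single 0 x.1 + Finsupp.single 1 x.2) else 0) ⟨r, r1, r2, fun _ _ => rfl⟩
    have a2 := qK (fun x => if x.1 + x.2 = k then (x.1.factorial * x.2.factorial : ℕ) *
      (q - r - u).coeff (Finsupp.single 0 x.1 + Finsupp.single 1 x.2) else 0)
      ⟨q - r - u, (totalDegree_sub _ _).trans (max_le d1 u1), by
        filter_upwards [t.eventually q2, t.eventually r2] with x a b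
        rw [map_sub, u2, sub_sub_cancel, map_sub, sub_neg_eq_add, sub_neg_eq_add]
        simp only [Prod.fst_add, Prod.snd_add, Nat.cast_add] at a b
        rw [← a, ← b, ← e]
        push_cast
        ring, fun _ _ => rfl⟩
    have := add_mem (DEC.mono hJ k a1) (DEC.mono hK k a2)
    convert this using 1
    funext ⟨a, b⟩
    rw [q3, Pi.add_apply]
    split_ifs with hab
    · rw [coeff_sub, u3 a b hab, DEC.top (q := q - r) (a := a + 1) (by omega),
        DEC.top (q := q - r) (b := b + 1) (by omega), coeff_sub]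
      ring
    · simp

end Pool.Agent.Lib.CLF
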