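import Pool.Agent.Lib.CLF.ABlue

/-! The density principle. -/

open MeasureTheory Filter Topology Set Function
open scoped ContDiff ENNReal ComplexConjugate

noncomputable section

namespace Pool.Agent.Lib.CLF

namespace DEN

variable {X : Type} [MeasurableSpace X] {μ : Measure X}

theorem mem_conj {f : X → ℂ} (hf : MemLp f 2 μ) : MemLp (fun p => conj (f p)) 2 μ :=
  Complex.conjCLE.toContinuousLinearMap.comp_memLp' hf

theorem lim_mul {ι : Type} {l : Filter ι} {h f : X → ℂ} {F : ι → X → ℂ} (hh : MemLp h 2 μ)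
    (hf : MemLp f 2 μ) (hF : ∀ j, MemLp (F j) 2 μ)
    (ht : Tendsto (fun j => eLpNorm (fun p => f p - F j p) 2 μ) l (𝓝 0)) :
    Tendsto (fun j => ∫ p, h p * F j p ∂μ) l (𝓝 (∫ p, h p * f p ∂μ)) := by
  refine tendsto_integral_of_L1' _ (hh.integrable_mul hf).1
    (Eventually.of_forall fun j => hh.integrable_mul (hF j)) ?_
  have h1 := ENNReal.Tendsto.const_mul (a := eLpNorm h 2 μ) ht (Or.inr hh.2.ne)
  rw [mul_zero] at h1
  refine tendsto_of_tendsto_of_tendsto_of_le_of_le tendsto_const_nhds h1 (fun _ => zero_le)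
    fun j => ?_
  rw [eLpNorm_sub_comm]
  refine le_trans (le_of_eq ?_) (eLpNorm_smul_le_mul_eLpNorm (r := 1) (hf.sub (hF j)).1 hh.1)
  congr 1
  funext p
  simp [mul_sub]

end DEN

open DEN in
theorem bDEN (hW : St_WM) (hC : St_CAL) : St_DEN := by
  intro C l b h h₁ h₂ hl hh hh₁ hh₂ H ψ ψ' ⟨m1, m2, φ, hφ, t1, t2⟩
  have a1 : ∀ j, MemLp (cx (φ j)) 2 (C.mn l) := fun j => (hW.tst C b hl (hφ j)).1
  have a2 : ∀ j, MemLp (C.D b (cx (φ j))) 2 (C.mo l b) := fun j =>
    (hW.tst C b hl (hC.tD C b (hφ j)).1).2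
  have l1 := lim_mul (f := cx ψ) hh m1.ofReal a1 (t1.congr fun j =>
    eLpNorm_congr_norm_ae (ae_of_all _ fun p => by
      simp only [cx, Pi.sub_apply, ← Complex.ofReal_sub, Complex.norm_real]))
  have l2 := lim_mul hh₁ m2 a2 t2
  have l3 := lim_mul hh₂ (mem_conj m2) (fun j => mem_conj (a2 j)) (t2.congr fun j =>
    eLpNorm_congr_norm_ae (ae_of_all _ fun p => by
      simp only [Pi.sub_apply, ← map_sub, Complex.norm_conj]))
  have e : ∀ {f : Am → ℂ}, MemLp f 2 (C.mo l b) →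
      ∫ p, (h₁ p * f p + h₂ p * conj (f p)) ∂C.mo l b =
        ∫ p, h₁ p * f p ∂C.mo l b + ∫ p, h₂ p * conj (f p) ∂C.mo l b := fun hf =>
    integral_add (hh₁.integrable_mul hf) (hh₂.integrable_mul (mem_conj hf))
  rw [e m2]
  refine tendsto_nhds_unique (l1.add (l2.add l3)) (tendsto_const_nhds.congr fun j => ?_)
  rw [← e (a2 j)]
  exact (H (φ j) (hφ j)).symm

end Pool.Agent.Lib.CLF
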