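import Pool.Agent.Lib.CLF.B_DQ1

/-! Row DQ0: the lift preserves the space. -/

open MeasureTheory Filter Topology Set Function
open scoped ContDiff ENNReal ComplexConjugate

noncomputable section

namespace Pool.Agent.Lib.CLF

namespace DQ0

theorem alg {A B : ℂ} {ε : ℝ} (h8 : ε ≤ 1 / 8) (hA : ‖A - 1‖ ≤ ε) (hB : ‖B‖ ≤ ε) (b : ℂ) :
    ‖A * b + B * conj b‖ ≤ 2 * ‖b‖ := by
  have h1 : ‖A‖ ≤ ‖A - 1‖ + 1 := by simpa using norm_add_le (A - 1) 1
  refine (norm_add_le _ _).trans ?_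
  rw [norm_mul, norm_mul, Complex.norm_conj]
  nlinarith [norm_nonneg b]

theorem lim {f g : ℕ → ℝ≥0∞} {c : ℝ≥0∞} (hc : c ≠ ⊤) (hg : Tendsto g atTop (𝓝 0))
    (h : ∀ j, f j ≤ c * g j) : Tendsto f atTop (𝓝 0) := by
  have := ENNReal.Tendsto.const_mul (a := c) hg (Or.inr hc)
  rw [mul_zero] at this
  exact tendsto_of_tendsto_of_tendsto_of_le_of_le tendsto_const_nhds this (fun _ => zero_le) h

end DQ0

open DQ1 in
theorem bDQ0 (hT : St_TRL) (hC : St_CAL) (hW : St_WM) (hI : St_INT) : St_DQ0 := by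
  intro C x ε τ A B u u' hx h8 hn ho hA hB hAB hF hu
  obtain ⟨mu, mu', φ, hφ, t1, t2⟩ := hu
  have h2 : ε ≤ 1 / 2 := by linarith
  obtain ⟨-, -, ao, -⟩ := hW.ac C false hx
  have hSo := ao.ae_le (hI.ae C)
  have ma := (pullC hT ho h2 mu').1
  refine ⟨(pullR hT hn h2 mu).1, ?_, fun j p => φ j (τ p), fun j => (hF _ (hφ j)).1, ?_, ?_⟩
  · refine ma.of_le_mul (c := 2) ?_
      (Eventually.of_forall fun p => DQ0.alg h8 (hAB p.1).1 (hAB p.1).2 _)
    exact ((hA.comp continuous_fst).aestronglyMeasurable.mul ma.1).add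
      ((hB.comp continuous_fst).aestronglyMeasurable.mul (mem_conj ma).1)
  · refine DQ0.lim (c := 2) ENNReal.ofNat_ne_top t1 fun j => ?_
    have m1 : MemLp (cx (u - φ j)) 2 (C.mn x) :=
      (mu.sub (re_of_cx (hW.tst C false hx (hφ j)).1)).ofReal
    have := (hT.nrm hn h2 m1.1).2.1
    rw [norm_cx] at this
    rw [← norm_cx]
    exact this
  · refine DQ0.lim (c := ENNReal.ofReal 2 * 2)
      (ENNReal.mul_ne_top ENNReal.ofReal_ne_top ENNReal.ofNat_ne_top) t2 fun j => ?_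
    have m1 := mu'.sub (hW.tst C false hx (hC.tD C false (hφ j)).1).2
    have := (hT.nrm ho h2 m1.1).2.1
    rw [mul_assoc]
    refine le_trans (eLpNorm_le_mul_eLpNorm_of_ae_le_mul (Eventually.mono hSo fun p hp => ?_) 2)
      (mul_le_mul_right this _)
    have e := (hF _ (hφ j)).2 p hp
    rw [hC.real] at e
    have e' : C.D false (cx fun p => φ j (τ p)) p = _ := e
    refine le_trans (le_of_eq ?_) (DQ0.alg h8 (hAB p.1).1 (hAB p.1).2 _)
    simp only [Pi.sub_apply, e', map_sub]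
    congr 1
    ring

end Pool.Agent.Lib.CLF
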