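import Pool.Agent.Lib.CLF.B_DQ1a

/-! Row DQ1: one step of the abstract estimate for difference quotients. -/

open MeasureTheory Filter Topology Set Function
open scoped ContDiff ENNReal ComplexConjugate

noncomputable section

namespace Pool.Agent.Lib.CLF

namespace DQ1

theorem norm_cx {α : Type} [MeasurableSpace α] (m : Measure α) (f : α → ℝ) :
    eLpNorm (cx f) 2 m = eLpNorm f 2 m :=
  eLpNorm_congr_norm_ae (Eventually.of_forall fun _ => Complex.norm_real _)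

theorem re_of_cx {α : Type} [MeasurableSpace α] {m : Measure α} {f : α → ℝ}
    (h : MemLp (cx f) 2 m) : MemLp f 2 m := by
  simpa [cx] using h.re

theorem pullC (hT : St_TRL) {m τ ε} {f : Am → ℂ} (h : Tr m τ ε) (h2 : ε ≤ 1 / 2)
    (hf : MemLp f 2 m) : MemLp (fun p => f (τ p)) 2 m ∧ nr (fun p => f (τ p)) m ≤ 2 * nr f m := by
  obtain ⟨h3, h4, -⟩ := hT.nrm h h2 hf.1
  refine ⟨⟨h3, h4.trans_lt (ENNReal.mul_lt_top ENNReal.ofNat_lt_top hf.2)⟩, ?_⟩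
  exact nr_le zero_le_two hf (by simpa using h4)

theorem pullR (hT : St_TRL) {m τ ε} {f : Am → ℝ} (h : Tr m τ ε) (h2 : ε ≤ 1 / 2)
    (hf : MemLp f 2 m) : MemLp (fun p => f (τ p)) 2 m ∧ nr (fun p => f (τ p)) m ≤ 2 * nr f m := by
  obtain ⟨h3, h4⟩ := pullC hT (f := cx f) h h2 hf.ofReal
  refine ⟨re_of_cx h3, ?_⟩
  have e1 := norm_cx m fun p => f (τ p)
  have e2 := norm_cx m f
  unfold nr at h4 ⊢
  rw [← e1, ← e2]
  exact h4

theorem intR (hT : St_TRL) {m τ ε} {f : Am → ℝ} (h : Tr m τ ε) (h2 : ε ≤ 1 / 2)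
    (hf : Integrable f m) :
    |∫ p, f (τ p) ∂m - ∫ p, f p ∂m| ≤ ε * ∫ p, ‖f (τ p)‖ ∂m := by
  obtain ⟨-, h4⟩ := hT.int (f := cx f) h h2 hf.ofReal
  simp only [cx, integral_complex_ofReal, ← Complex.ofReal_sub, Complex.norm_real] at h4
  exact h4

theorem step1 (hT : St_TRL) {m τ ε} {v χ χ' : Am → ℝ} (h : Tr m τ ε) (h0 : 0 ≤ ε)
    (h2 : ε ≤ 1 / 2) (hv : MemLp v 2 m) (hχ : MemLp χ 2 m) (hχ' : MemLp χ' 2 m)
    (hae : ∀ᵐ p ∂m, χ' (τ p) = χ p) :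
    |∫ p, v (τ p) * χ p ∂m - ∫ p, v p * χ' p ∂m| ≤ ε * (2 * nr v m * nr χ m) := by
  have h3 := intR hT h h2 (int_mul hv hχ')
  obtain ⟨h4, h5⟩ := pullR hT h h2 hv
  have e1 : ∫ p, v (τ p) * χ' (τ p) ∂m = ∫ p, v (τ p) * χ p ∂m :=
    integral_congr_ae (hae.mono fun p hp => by simp only [hp])
  have e2 : ∫ p, ‖v (τ p) * χ' (τ p)‖ ∂m = ∫ p, ‖v (τ p)‖ * ‖χ p‖ ∂m :=
    integral_congr_ae (hae.mono fun p hp => by simp only [hp, norm_mul])
  rw [e1, e2] at h3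
  refine h3.trans (mul_le_mul_of_nonneg_left ((cs h4 hχ).2.trans ?_) h0)
  exact mul_le_mul_of_nonneg_right h5 (nr_nonneg _ _)

theorem step2 (hT : St_TRL) {m τ ε} {v w : Am → ℂ} (h : Tr m τ ε) (h0 : 0 ≤ ε)
    (h2 : ε ≤ 1 / 2) (hv : MemLp v 2 m) (hw : MemLp w 2 m) :
    |∫ p, (v (τ p) * conj (w (τ p))).re ∂m - ∫ p, (v p * conj (w p)).re ∂m| ≤
      ε * (nr (fun p => v (τ p)) m * nr (fun p => w (τ p)) m) := by
  have h3 := intR hT h h2 (int_re hv hw)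
  have h4 := bd (pullC hT h h2 hv).1 (pullC hT h h2 hw).1
    (h := fun p => ‖(v (τ p) * conj (w (τ p))).re‖) zero_le_one
    (Eventually.of_forall fun p => by rw [one_mul, abs_norm]; exact re_le _ _)
  rw [one_mul] at h4
  exact h3.trans (mul_le_mul_of_nonneg_left (abs_le.1 h4).2 h0)

theorem est (hT : St_TRL) {n o : Measure Am} {τ ε γ} {A B : Am → ℂ} {g u χ χ' : Am → ℝ}
    {u' w w' : Am → ℂ} (h0 : 0 ≤ ε) (h8 : ε ≤ 1 / 8) (hn : Tr n τ ε) (ho : Tr o τ ε)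
    (hAB : ∀ p, ‖A p - 1‖ ≤ ε ∧ ‖B p‖ ≤ ε) (hg : MemLp g 2 n) (hu : MemLp u 2 n)
    (hu' : MemLp u' 2 o) (hχ : MemLp χ 2 n) (hχ' : MemLp χ' 2 n) (hw : MemLp w 2 o)
    (hw' : MemLp w' 2 o)
    (hd : MemLp (fun p => A p * u' (τ p) + B p * conj (u' (τ p))) 2 o)
    (hae : ∀ᵐ p ∂n, χ' (τ p) = χ p)
    (hD : ∀ᵐ p ∂o, w p = A p * w' (τ p) + B p * conj (w' (τ p)))
    (E1 : ∫ p, (u p - g p) * χ' p ∂n + ∫ p, (u' p * conj (w' p)).re ∂o = 0)
    (E2 : ∫ p, (u p - g p) * χ p ∂n + ∫ p, (u' p * conj (w p)).re ∂o = 0)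
    (hγ : nr (fun p => g (τ p) - g p) n ≤ γ) :
    ∫ p, (u (τ p) - u p) * χ p ∂n +
      ∫ p, ((A p * u' (τ p) + B p * conj (u' (τ p)) - u' p) * conj (w p)).re ∂o ≤
      (γ + 2 * ε * (nr g n + nr u n)) * nr χ n + 24 * ε * nr u' o * nr w o := by
  have h2 : ε ≤ 1 / 2 := by linarith
  have a1 := step1 hT hn h0 h2 hu hχ hχ' hae
  have a2 := step1 hT hn h0 h2 hg hχ hχ' hae
  have a3 := step2 hT ho h0 h2 hu' hw'
  obtain ⟨mu1, -⟩ := pullR hT hn h2 hu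
  obtain ⟨mg1, -⟩ := pullR hT hn h2 hg
  obtain ⟨ma, na⟩ := pullC hT ho h2 hu'
  obtain ⟨mb, -⟩ := pullC hT ho h2 hw'
  have nb : nr (fun p => w' (τ p)) o ≤ 2 * nr w o :=
    nr_le zero_le_two hw (eLpNorm_le_mul_eLpNorm_of_ae_le_mul (hD.mono fun p hp => by
      rw [hp]; exact (alg (a := 0) h0 h8 (hAB p).1 (hAB p).2).1) 2)
  have a4 := bd ma mb (c := 5 * ε) (h := fun p =>
    ((A p * u' (τ p) + B p * conj (u' (τ p))) * conj (w p)).re -
      (u' (τ p) * conj (w' (τ p))).re) (by positivity) (hD.mono fun p hp => by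
        rw [hp]; exact (alg h0 h8 (hAB p).1 (hAB p).2).2)
  rw [integral_sub (int_re hd hw) (int_re ma mb)] at a4
  have a5 := bd (mg1.sub hg) hχ (h := fun p => g (τ p) * χ p - g p * χ p) zero_le_one
    (Eventually.of_forall fun p => by
      simp only [← sub_mul, abs_mul, Real.norm_eq_abs, one_mul, Pi.sub_apply, le_refl])
  rw [integral_sub (int_mul mg1 hχ) (int_mul hg hχ), one_mul] at a5
  have a6 : nr ((fun p => g (τ p)) - g) n * nr χ n ≤ γ * nr χ n :=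
    mul_le_mul_of_nonneg_right hγ (nr_nonneg _ _)
  have a7 : nr (fun p => u' (τ p)) o * nr (fun p => w' (τ p)) o ≤ 2 * nr u' o * (2 * nr w o) :=
    mul_le_mul na nb (nr_nonneg _ _) (mul_nonneg zero_le_two (nr_nonneg _ _))
  have a8 := mul_le_mul_of_nonneg_left a7 h0
  simp only [sub_mul, Complex.sub_re] at E1 E2 ⊢
  rw [integral_sub (int_mul hu hχ') (int_mul hg hχ')] at E1
  rw [integral_sub (int_mul hu hχ) (int_mul hg hχ)] at E2
  rw [integral_sub (int_mul mu1 hχ) (int_mul hu hχ), integral_sub (int_re hd hw) (int_re hu' hw)]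
  have := (abs_le.1 a1).2
  have := (abs_le.1 a2).1
  have := (abs_le.1 a3).2
  have := (abs_le.1 a4).2
  have := (abs_le.1 a5).2
  linarith

end DQ1

open DQ1 in
theorem bDQ1 (hQ : St_DQ0) (hT : St_TRL) (hM : St_MEM) (hC : St_CAL) (hW : St_WM)
    (hI : St_INT) : St_DQ1 := by
  intro C x ε γ τ A B g u u' hx h0 h8 hγ hn ho hA hB hAB hF hinv hR hgγ
  have hTu := hQ C x ε τ A B u u' hx h8 hn ho hA hB hAB hF hR.2.1
  have hd : C.Mem x false (fun p => u (τ p) - u p)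
      fun p => A p.1 * u' (τ p) + B p.1 * conj (u' (τ p)) - u' p := by
    have := hM.lin C 1 (-1) hx hTu hR.2.1
    simpa [sub_eq_add_neg] using this
  refine ⟨_, hd, ?_⟩
  obtain ⟨md, md', φ, hφ, t1, t2⟩ := hd
  obtain ⟨an, -, ao, -⟩ := hW.ac C false hx
  have hSn := an.ae_le (hI.ae C)
  have hSo := ao.ae_le (hI.ae C)
  have mφ : ∀ ψ : Am → ℝ, C.Tst univ (cx ψ) →
      MemLp ψ 2 (C.mn x) ∧ MemLp (C.D false (cx ψ)) 2 (C.mo x false) := fun ψ hψ =>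
    ⟨re_of_cx (hW.tst C false hx hψ).1, (hW.tst C false hx (hC.tD C false hψ).1).2⟩
  have hG := nr_nonneg g (C.mn x)
  have hU := nr_nonneg u (C.mn x)
  have hU' := nr_nonneg u' (C.mo x false)
  have key := dens md md' (fun j => (mφ _ (hφ j)).1) (fun j => (mφ _ (hφ j)).2) t1 t2
    (a := γ + 2 * ε * (nr g (C.mn x) + nr u (C.mn x))) (b := 24 * ε * nr u' (C.mo x false))
    (by positivity) (by positivity) (fun j => by
      obtain ⟨χ', hχ', hχe⟩ := hinv (φ j) (hφ j)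
      refine est hT (A := fun p => A p.1) (B := fun p => B p.1) h0 h8 hn ho (fun p => hAB p.1)
        hR.1 hR.2.1.1 hR.2.1.2.1 (mφ _ (hφ j)).1 (mφ _ hχ').1 (mφ _ (hφ j)).2 (mφ _ hχ').2
        hTu.2.1 (Eventually.mono hSn hχe) (Eventually.mono hSo fun p hp => ?_)
        (hR.2.2 _ hχ') (hR.2.2 _ (hφ j)) (ENNReal.toReal_le_of_le_ofReal hγ hgγ)
      have e1 : EqOn (fun p => cx χ' (τ p)) (cx (φ j)) C.S := fun q hq => by
        simp only [cx, hχe q hq]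
      rw [← (hC.congr C false e1).1 hp, (hF _ hχ').2 p hp, hC.real])
  rw [ofReal_nr md, ofReal_nr md', ofReal_nr hR.1, ofReal_nr hR.2.1.1, ofReal_nr hR.2.1.2.1,
    ← ENNReal.ofReal_add (nr_nonneg _ _) (nr_nonneg _ _), ← ENNReal.ofReal_add hG hU,
    ← ENNReal.ofReal_add (add_nonneg hG hU) hU', ← ENNReal.ofReal_ofNat 2,
    ← ENNReal.ofReal_ofNat 100, ← ENNReal.ofReal_mul (by norm_num),
    ← ENNReal.ofReal_mul (by norm_num), ← ENNReal.ofReal_mul (by positivity),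
    ← ENNReal.ofReal_add (by positivity) (by positivity)]
  refine ENNReal.ofReal_le_ofReal (key.trans ?_)
  nlinarith [mul_nonneg h0 hG, mul_nonneg h0 hU, mul_nonneg h0 hU']

end Pool.Agent.Lib.CLF
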