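import Pool.Agent.Lib.CLF.ABlue

/-! Mean square estimates for row DQ1. -/

open MeasureTheory Filter Topology Set Function
open scoped ContDiff ENNReal ComplexConjugate

noncomputable section

namespace Pool.Agent.Lib.CLF.DQ1

variable {α : Type} [MeasurableSpace α] {m : Measure α}

/-- The mean square norm as a real number. -/
def nr {E : Type} [NormedAddCommGroup E] (f : α → E) (m : Measure α) : ℝ :=
  (eLpNorm f 2 m).toReal

theorem nr_nonneg {E : Type} [NormedAddCommGroup E] (f : α → E) (m : Measure α) :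
    0 ≤ nr f m := ENNReal.toReal_nonneg

theorem ofReal_nr {E : Type} [NormedAddCommGroup E] {f : α → E} (hf : MemLp f 2 m) :
    eLpNorm f 2 m = ENNReal.ofReal (nr f m) :=
  (ENNReal.ofReal_toReal hf.2.ne).symm

theorem nr_le {E F : Type} [NormedAddCommGroup E] [NormedAddCommGroup F] {f : α → E} {g : α → F}
    {c : ℝ} (hc : 0 ≤ c) (hg : MemLp g 2 m)
    (h : eLpNorm f 2 m ≤ ENNReal.ofReal c * eLpNorm g 2 m) : nr f m ≤ c * nr g m := by
  rw [ofReal_nr hg, ← ENNReal.ofReal_mul hc] at h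
  exact ENNReal.toReal_le_of_le_ofReal (mul_nonneg hc (nr_nonneg _ _)) h

theorem cs {E F : Type} [NormedAddCommGroup E] [NormedAddCommGroup F] {f : α → E} {g : α → F}
    (hf : MemLp f 2 m) (hg : MemLp g 2 m) :
    Integrable (fun p => ‖f p‖ * ‖g p‖) m ∧ ∫ p, ‖f p‖ * ‖g p‖ ∂m ≤ nr f m * nr g m := by
  have hi : Integrable (fun p => ‖f p‖ * ‖g p‖) m := hf.norm.integrable_mul hg.norm
  refine ⟨hi, ?_⟩
  have h1 := eLpNorm_smul_le_mul_eLpNorm (p := 2) (q := 2) (r := 1) hg.norm.1 hf.norm.1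
  rw [eLpNorm_norm, eLpNorm_norm, eLpNorm_one_eq_lintegral_enorm] at h1
  have h2 : ∫ p, ‖f p‖ * ‖g p‖ ∂m = ∫ p, ‖‖f p‖ * ‖g p‖‖ ∂m := by
    congr 1
    funext p
    rw [Real.norm_of_nonneg (by positivity)]
  rw [h2, integral_norm_eq_lintegral_enorm hi.1, nr, nr, ← ENNReal.toReal_mul]
  exact ENNReal.toReal_mono (ENNReal.mul_ne_top hf.2.ne hg.2.ne) h1

theorem bd {E F : Type} [NormedAddCommGroup E] [NormedAddCommGroup F] {f : α → E} {g : α → F}
    (hf : MemLp f 2 m) (hg : MemLp g 2 m) {h : α → ℝ} {c : ℝ} (hc : 0 ≤ c)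
    (hle : ∀ᵐ p ∂m, |h p| ≤ c * (‖f p‖ * ‖g p‖)) : |∫ p, h p ∂m| ≤ c * (nr f m * nr g m) := by
  obtain ⟨hi, hb⟩ := cs hf hg
  have := norm_integral_le_of_norm_le (f := h) (hi.const_mul c) hle
  rw [integral_const_mul] at this
  exact this.trans (mul_le_mul_of_nonneg_left hb hc)

theorem sq {E : Type} [NormedAddCommGroup E] {f : α → E} (hf : MemLp f 2 m) :
    ∫ p, ‖f p‖ * ‖f p‖ ∂m = nr f m ^ 2 := by
  have h := hf.eLpNorm_eq_integral_rpow_norm two_ne_zero ENNReal.ofNat_ne_top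
  have h0 : 0 ≤ ∫ p, ‖f p‖ ^ (2 : ℝ) ∂m := integral_nonneg fun p => by positivity
  simp only [ENNReal.toReal_ofNat] at h
  rw [nr, h, ENNReal.toReal_ofReal (by positivity), ← Real.rpow_natCast, ← Real.rpow_mul h0]
  norm_num
  simp only [pow_two]

theorem re_le (a b : ℂ) : |(a * conj b).re| ≤ ‖a‖ * ‖b‖ := by
  have := Complex.abs_re_le_norm (a * conj b)
  rwa [norm_mul, Complex.norm_conj] at this

theorem mem_conj {f : α → ℂ} (hf : MemLp f 2 m) : MemLp (fun p => conj (f p)) 2 m :=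
  hf.congr_norm (Complex.continuous_conj.comp_aestronglyMeasurable hf.1)
    (Eventually.of_forall fun _ => (Complex.norm_conj _).symm)

theorem int_re {f g : α → ℂ} (hf : MemLp f 2 m) (hg : MemLp g 2 m) :
    Integrable (fun p => (f p * conj (g p)).re) m :=
  (hf.integrable_mul (mem_conj hg)).re

theorem int_mul {f g : α → ℝ} (hf : MemLp f 2 m) (hg : MemLp g 2 m) :
    Integrable (fun p => f p * g p) m :=
  hf.integrable_mul hg

theorem nr_sub {E : Type} [NormedAddCommGroup E] {f g : α → E} (hf : MemLp f 2 m)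
    (hg : MemLp g 2 m) : nr g m ≤ nr f m + nr (f - g) m := by
  have h := eLpNorm_sub_le (p := 2) hf.1 (hf.sub hg).1 one_le_two
  rw [sub_sub_cancel, ofReal_nr hf, ofReal_nr (hf.sub hg),
    ← ENNReal.ofReal_add (nr_nonneg _ _) (nr_nonneg _ _)] at h
  exact ENNReal.toReal_le_of_le_ofReal (add_nonneg (nr_nonneg _ _) (nr_nonneg _ _)) h

theorem dens {n o : Measure α} {d : α → ℝ} {d' : α → ℂ} {φ : ℕ → α → ℝ} {φ' : ℕ → α → ℂ}
    (hd : MemLp d 2 n) (hd' : MemLp d' 2 o) (hφ : ∀ j, MemLp (φ j) 2 n)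
    (hφ' : ∀ j, MemLp (φ' j) 2 o)
    (t1 : Tendsto (fun j => eLpNorm (d - φ j) 2 n) atTop (𝓝 0))
    (t2 : Tendsto (fun j => eLpNorm (d' - φ' j) 2 o) atTop (𝓝 0)) {a b : ℝ} (ha : 0 ≤ a)
    (hb : 0 ≤ b) (h : ∀ j, ∫ p, d p * φ j p ∂n + ∫ p, (d' p * conj (φ' j p)).re ∂o ≤
      a * nr (φ j) n + b * nr (φ' j) o) : nr d n + nr d' o ≤ 2 * (a + b) := by
  have s1 : Tendsto (fun j => nr (d - φ j) n) atTop (𝓝 0) :=
    (ENNReal.tendsto_toReal ENNReal.zero_ne_top).comp t1
  have s2 : Tendsto (fun j => nr (d' - φ' j) o) atTop (𝓝 0) :=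
    (ENNReal.tendsto_toReal ENNReal.zero_ne_top).comp t2
  have key : ∀ j, nr d n ^ 2 + nr d' o ^ 2 ≤ a * nr d n + b * nr d' o +
      ((a + nr d n) * nr (d - φ j) n + (b + nr d' o) * nr (d' - φ' j) o) := by
    intro j
    have e1 : nr d n ^ 2 = ∫ p, d p * φ j p ∂n + ∫ p, d p * (d - φ j) p ∂n := by
      rw [← sq hd, ← integral_add (int_mul hd (hφ j)) (int_mul hd (hd.sub (hφ j)))]
      congr 1
      funext p
      simp only [Real.norm_eq_abs, abs_mul_abs_self, Pi.sub_apply]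
      ring
    have e2 : nr d' o ^ 2 = ∫ p, (d' p * conj (φ' j p)).re ∂o +
        ∫ p, (d' p * conj ((d' - φ' j) p)).re ∂o := by
      rw [← sq hd', ← integral_add (int_re hd' (hφ' j)) (int_re hd' (hd'.sub (hφ' j)))]
      congr 1
      funext p
      rw [← Complex.add_re, ← mul_add, ← map_add, Pi.sub_apply, add_sub_cancel, Complex.mul_conj,
        Complex.ofReal_re, Complex.normSq_eq_norm_sq, pow_two]
    have b1 := bd hd (hd.sub (hφ j)) (h := fun p => d p * (d - φ j) p) zero_le_one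
      (Eventually.of_forall fun p => by simp only [abs_mul, Real.norm_eq_abs, one_mul, le_refl])
    have b2 := bd hd' (hd'.sub (hφ' j)) (h := fun p => (d' p * conj ((d' - φ' j) p)).re)
      zero_le_one (Eventually.of_forall fun p => by rw [one_mul]; exact re_le _ _)
    have c1 := mul_le_mul_of_nonneg_left (nr_sub hd (hφ j)) ha
    have c2 := mul_le_mul_of_nonneg_left (nr_sub hd' (hφ' j)) hb
    have := h j
    have := (abs_le.1 b1).2
    have := (abs_le.1 b2).2
    linarith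
  have lim := ((s1.const_mul (a + nr d n)).add (s2.const_mul (b + nr d' o))).const_add
    (a * nr d n + b * nr d' o)
  have fin := ge_of_tendsto' lim key
  have hX := nr_nonneg d n
  have hY := nr_nonneg d' o
  generalize nr d n = X at *
  generalize nr d' o = Y at *
  by_contra hc
  push Not at hc
  nlinarith [sq_nonneg (X - Y), mul_nonneg ha hY, mul_nonneg hb hX, mul_nonneg hX hY]

theorem alg {A B a b : ℂ} {ε : ℝ} (h0 : 0 ≤ ε) (h8 : ε ≤ 1 / 8) (hA : ‖A - 1‖ ≤ ε)
    (hB : ‖B‖ ≤ ε) : ‖b‖ ≤ 2 * ‖A * b + B * conj b‖ ∧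
      |((A * a + B * conj a) * conj (A * b + B * conj b)).re - (a * conj b).re| ≤
        5 * ε * (‖a‖ * ‖b‖) := by
  have e : ∀ c : ℂ, ‖(A - 1) * c + B * conj c‖ ≤ 2 * ε * ‖c‖ := by
    intro c
    refine (norm_add_le _ _).trans ?_
    rw [norm_mul, norm_mul, Complex.norm_conj]
    nlinarith [norm_nonneg c]
  have ea := e a
  have eb := e b
  have r : ∀ c : ℂ, A * c + B * conj c = c + ((A - 1) * c + B * conj c) := fun c => by ring
  rw [r a, r b]
  generalize (A - 1) * a + B * conj a = x at *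
  generalize (A - 1) * b + B * conj b = y at *
  have ha := norm_nonneg a
  have hb := norm_nonneg b
  constructor
  · have : ‖b‖ ≤ ‖b + y‖ + ‖y‖ := by simpa using norm_sub_le (b + y) y
    nlinarith
  · have : ((a + x) * conj (b + y)).re - (a * conj b).re =
        (a * conj y).re + (x * conj b).re + (x * conj y).re := by
      rw [map_add, add_mul, mul_add, mul_add]
      simp only [Complex.add_re]
      ring
    rw [this]
    have h1 := re_le a y
    have h2 := re_le x b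
    have h3 := re_le x y
    have k1 := mul_le_mul_of_nonneg_left eb ha
    have k2 := mul_le_mul_of_nonneg_right ea hb
    have k3 := mul_le_mul ea eb (norm_nonneg _) (by positivity)
    have k4 : ε * ε * (‖a‖ * ‖b‖) ≤ 1 / 8 * ε * (‖a‖ * ‖b‖) := by gcongr
    have k5 : 0 ≤ ε * (‖a‖ * ‖b‖) := by positivity
    have := abs_add_three (a * conj y).re (x * conj b).re (x * conj y).re
    nlinarith

end Pool.Agent.Lib.CLF.DQ1
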