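import Pool.Agent.Lib.CLF.ABlue

/-! Block `EN`: the energy bound on the cover. -/

open MeasureTheory Filter Topology Set Function
open scoped ContDiff ENNReal ComplexConjugate

noncomputable section

namespace Pool.Agent.Lib.CLF

namespace EN

theorem sn_le {μ : Measure Am} {f : Am → ℂ} {c : ℝ} (hc : 0 ≤ c)
    (h : ∫⁻ p, ‖f p‖ₑ ^ 2 ∂μ ≤ ENNReal.ofReal (c ^ 2)) : eLpNorm f 2 μ ≤ ENNReal.ofReal c := by
  rw [eLpNorm_eq_lintegral_rpow_enorm_toReal two_ne_zero ENNReal.ofNat_ne_top]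
  simp only [ENNReal.toReal_ofNat, ENNReal.rpow_two]
  refine (ENNReal.rpow_le_rpow h (by norm_num)).trans_eq ?_
  rw [ENNReal.ofReal_pow hc, ← ENNReal.rpow_natCast, ← ENNReal.rpow_mul]
  simp

theorem pt (hW : St_WIR) {k : ℕ} {F : (Fin k → ℂ) → ℝ} (hF : ContDiff ℝ ∞ F) {M : ℝ}
    {Ξ : Fin k → B2 → ℂ} {z : B2} (hΞ : ∀ i, AnalyticAt ℂ (Ξ i) z)
    (h : ∀ v, |fderiv ℝ F (fun i => Ξ i z) v| ≤ M * ∑ i, ‖v i‖ / (1 + ‖Ξ i z‖ ^ 2)) (b : Bool) :
    ‖wd b (fun w => (F fun i => Ξ i w : ℂ)) z‖ ≤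
      M * ∑ i, ‖wd b (Ξ i) z‖ / (1 + ‖Ξ i z‖ ^ 2) := by
  have d := fun i => (hΞ i).differentiableAt
  have h1 : HasFDerivAt (fun w i => Ξ i w)
      (ContinuousLinearMap.pi fun i => (fderiv ℂ (Ξ i) z).restrictScalars ℝ) z :=
    hasFDerivAt_pi.2 fun i => (d i).hasFDerivAt.restrictScalars ℝ
  have h2 := Complex.ofRealCLM.hasFDerivAt.comp z
    (((hF.differentiable (by simp)) _).hasFDerivAt.comp z h1)
  have h3 : ∀ c : ℂ, ‖c‖ = 1 → ‖fderiv ℝ (fun w => (F fun i => Ξ i w : ℂ)) z (c • ev b)‖ ≤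
      M * ∑ i, ‖wd b (Ξ i) z‖ / (1 + ‖Ξ i z‖ ^ 2) := fun c hc => by
    rw [show fderiv ℝ (fun w => (F fun i => Ξ i w : ℂ)) z = _ from h2.fderiv]
    refine ((Complex.norm_real _).trans_le (h fun i => fderiv ℂ (Ξ i) z (c • ev b))).trans_eq ?_
    simp only [map_smul, norm_smul, hc, one_mul, ← (hW.hol b (d _)).2]
  have a1 := h3 1 norm_one
  have a2 := h3 _ Complex.norm_I
  rw [one_smul] at a1
  rw [wd, norm_div, Complex.norm_two, div_le_iff₀ two_pos]
  refine (norm_sub_le _ _).trans ?_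
  rw [norm_mul, Complex.norm_I]
  linarith

end EN

open EN in
theorem bEN (h1 : St_EN1) (hA : St_AR) (hM : St_WM) (hW : St_WIR) (hC : St_CAL) (hB : St_BR)
    (hI : St_INT) : St_EN := by
  intro n f hf
  obtain ⟨M, M0, H⟩ := h1 n f hf
  have hn : (0 : ℝ) ≤ n := n.cast_nonneg
  have hp := Real.pi_gt_three
  refine ⟨M * ((n + 1) * Real.pi), by positivity, fun C l k ξ hl hk hξ => ⟨fun p hp => ?_,
    fun p => ((H k hk).2 _).2.1.trans (le_mul_of_one_le_right M0 (by nlinarith)), fun b N hN => ?_⟩⟩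
  · exact Complex.ofRealCLM.contDiff.contDiffAt.comp p.1 ((H k hk).1.contDiffAt.comp p.1
      (contDiffAt_pi.2 fun i => (hξ i p hp).contDiffAt.restrict_scalars ℝ))
  have hs : 0 ≤ l * ∑ i, (N i : ℝ) := by positivity
  refine sn_le (by positivity) ?_
  have ae : ∀ᵐ p ∂C.mo l b, p ∈ C.S := (hM.ac C b hl).2.2.1.ae_le (hI.ae C)
  have am : ∀ {F}, C.Sm F → AEMeasurable F (C.mo l b) := fun h => by
    rw [← Measure.restrict_eq_self_of_ae_mem ae]
    exact (hB.cont C h).aemeasurable (hB.meas C)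
  have mH := (hM.pos one_pos).2.1.continuous.measurable.ennreal_ofReal
  calc _ ≤ ∫⁻ p, ENNReal.ofReal (M ^ 2 * n) * ∑ i, ENNReal.ofReal (rho 1 (ξ i p)) *
        ‖C.D b (ξ i) p‖ₑ ^ 2 ∂C.mo l b := by
        refine lintegral_mono_ae (ae.mono fun p hp => ?_)
        have e : ∀ i, C.dn (ξ i) p p.1 = ξ i p := fun i => hB.self C _ hp
        have h2 := pt hW (H k hk).1 (fun i => hξ i p hp) ((H k hk).2 _).2.2 b
        simp only [e] at h2
        have r0 : ∀ z, 0 ≤ rho 1 z := fun z => ((hM.pos one_pos).1 z).1.le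
        simp only [← ofReal_norm, ← ENNReal.ofReal_pow (norm_nonneg _),
          ← ENNReal.ofReal_mul (r0 _)]
        rw [← ENNReal.ofReal_sum_of_nonneg fun i _ => mul_nonneg (r0 _) (sq_nonneg _),
          ← ENNReal.ofReal_mul (by positivity)]
        refine ENNReal.ofReal_le_ofReal ((pow_le_pow_left₀ (norm_nonneg _) h2 2).trans ?_)
        rw [mul_pow, mul_assoc]
        refine mul_le_mul_of_nonneg_left (sq_sum_le_card_mul_sum_sq.trans ?_) (sq_nonneg _)
        refine mul_le_mul (by simpa using hk) (Finset.sum_le_sum fun i _ => le_of_eq ?_)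
          (by positivity) hn
        rw [rho, div_pow, Cv.D]
        ring
    _ ≤ ENNReal.ofReal (M ^ 2 * n) * ∑ i, N i * ENNReal.ofReal (l * Real.pi) *
        ENNReal.ofReal (1 * Real.pi) := by
        rw [lintegral_const_mul' _ _ ENNReal.ofReal_ne_top, lintegral_finsetSum'
          (f := fun i p => ENNReal.ofReal (rho 1 (ξ i p)) * ‖C.D b (ξ i) p‖ₑ ^ 2) _ fun i _ =>
          (mH.comp_aemeasurable (am (hC.hol C (hξ i)).1)).mul
            ((am (hC.smD C b (hC.hol C (hξ i)).1).1).enorm.pow_const 2)]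
        gcongr with i
        rw [← (hM.pos one_pos).2.2]
        exact hA C l b _ _ _ hl mH (hξ i) (hN i)
    _ ≤ _ := by
        rw [← Finset.sum_mul, ← Finset.sum_mul, ← Nat.cast_sum, ← ENNReal.ofReal_natCast,
          ← ENNReal.ofReal_mul (by positivity), ← ENNReal.ofReal_mul (by positivity),
          ← ENNReal.ofReal_mul (by positivity), Nat.cast_sum, mul_pow, Real.sq_sqrt hs]
        refine ENNReal.ofReal_le_ofReal ?_
        calc _ = M ^ 2 * Real.pi ^ 2 * (l * ∑ i, (N i : ℝ)) * n := by ring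
          _ ≤ M ^ 2 * Real.pi ^ 2 * (l * ∑ i, (N i : ℝ)) * (n + 1) ^ 2 := by
            gcongr; nlinarith
          _ = _ := by ring

end Pool.Agent.Lib.CLF
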