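import Pool.Agent.Lib.CLF.ABlue

/-! First order bound for a function on projective space. -/

open MeasureTheory Filter Topology Set Function
open scoped ContDiff ENNReal ComplexConjugate

noncomputable section

namespace Pool.Agent.Lib.CLF

theorem bEN0 : St_EN0 := by
  intro n f hf
  have hO : IsOpen {x : Fin (n + 1) → ℂ | x ≠ 0} := isOpen_ne
  have hS : Metric.sphere (0 : Fin (n + 1) → ℂ) 1 ⊆ {x | x ≠ 0} := by
    rintro x hx rfl
    simp at hx
  obtain ⟨M₁, h₁⟩ := (isCompact_sphere (0 : Fin (n + 1) → ℂ) 1).exists_bound_of_continuousOn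
    (hf.1.continuousOn.mono hS)
  obtain ⟨M₂, h₂⟩ := (isCompact_sphere (0 : Fin (n + 1) → ℂ) 1).exists_bound_of_continuousOn
    ((hf.1.continuousOn_fderiv_of_isOpen hO (by simp)).mono hS)
  refine ⟨max 0 (max M₁ M₂), le_max_left _ _, fun x hx => ?_⟩
  have hr : 0 < ‖x‖ := norm_pos_iff.2 hx
  have hy : ‖x‖⁻¹ • x ∈ Metric.sphere (0 : Fin (n + 1) → ℂ) 1 := by
    simp [norm_smul, inv_mul_cancel₀ hr.ne']
  have hs : (fun z => f (‖x‖⁻¹ • z)) = f := by
    funext z
    rw [← Complex.coe_smul]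
    exact hf.2 _ (by simpa using hx) z
  constructor
  · rw [← congrFun hs x]
    exact (h₁ _ hy).trans ((le_max_left _ _).trans (le_max_right _ _))
  · intro v c
    have hd : DifferentiableAt ℝ f x :=
      (hf.1.contDiffAt (hO.mem_nhds hx)).differentiableAt (by simp)
    have hE : fderiv ℝ f x (c • x) = 0 := by
      have l1 : HasDerivAt (fun t : ℝ => x + t • (c • x)) (c • x) 0 := by
        simpa using ((hasDerivAt_id (0 : ℝ)).smul_const (c • x)).const_add x
      have l2 : HasFDerivAt f (fderiv ℝ f x) (x + (0 : ℝ) • (c • x)) := by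
        simpa using hd.hasFDerivAt
      have l3 := l2.comp_hasDerivAt (0 : ℝ) l1
      have l4 : (f ∘ fun t : ℝ => x + t • (c • x)) =ᶠ[𝓝 0] fun _ => f x := by
        have hc : Continuous fun t : ℝ => 1 + (t : ℂ) * c := by fun_prop
        filter_upwards [(hc.continuousAt (x := 0)).eventually_ne (y := 0) (by simp)] with t ht
        have : x + t • (c • x) = (1 + (t : ℂ) * c) • x := by
          rw [add_smul, one_smul, mul_smul, Complex.coe_smul]
        rw [comp_apply, this, hf.2 _ ht]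
      exact l3.unique ((hasDerivAt_const (0 : ℝ) (f x)).congr_of_eventuallyEq l4)
    have hv : fderiv ℝ f x v = fderiv ℝ f x (v - c • x) := by rw [map_sub, hE, sub_zero]
    have hn : ‖fderiv ℝ f x‖ * ‖x‖ ≤ M₂ := by
      have : fderiv ℝ f x = ‖x‖⁻¹ • fderiv ℝ f (‖x‖⁻¹ • x) := by
        rw [← fderiv_comp_smul, hs]
      rw [this, norm_smul, norm_inv, norm_norm, mul_right_comm, inv_mul_cancel₀ hr.ne', one_mul]
      exact h₂ _ hy
    calc |fderiv ℝ f x v| * ‖x‖ ≤ ‖fderiv ℝ f x‖ * ‖v - c • x‖ * ‖x‖ := by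
          rw [hv]
          exact mul_le_mul_of_nonneg_right ((fderiv ℝ f x).le_opNorm _) hr.le
      _ = ‖fderiv ℝ f x‖ * ‖x‖ * ‖v - c • x‖ := by ring
      _ ≤ _ := mul_le_mul_of_nonneg_right
          (hn.trans ((le_max_right _ _).trans (le_max_right _ _))) (norm_nonneg _)

end Pool.Agent.Lib.CLF
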