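import Pool.Agent.Lib.CLF.ABlue

/-! Block `EN1`: the first order bound in terms of the roots. -/

open MeasureTheory Filter Topology Set Function Polynomial
open scoped ContDiff ENNReal ComplexConjugate

noncomputable section

namespace Pool.Agent.Lib.CLF

namespace EN1

/-- The coefficient vector. -/
def vec (n : ℕ) (p : ℂ[X]) : Fin (n + 1) → ℂ := fun r => p.coeff r

theorem sm_coeff {k : ℕ} (s : Finset (Fin k)) :
    ∀ r, ContDiff ℝ ∞ fun ξ : Fin k → ℂ => (∏ i ∈ s, (X - C (ξ i))).coeff r := by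
  classical
  induction s using Finset.induction_on with
  | empty => intro r; simpa using contDiff_const
  | insert a s ha ih =>
    intro r
    simp only [Finset.prod_insert ha, sub_mul, coeff_sub, coeff_C_mul]
    refine ContDiff.sub ?_ ((contDiff_apply ℝ ℂ a).mul (ih r))
    cases r with
    | zero => simpa using contDiff_const
    | succ r => simpa only [coeff_X_mul] using ih r

theorem sm_cf (n k : ℕ) : ContDiff ℝ ∞ fun ξ : Fin k → ℂ => cf n ξ :=
  contDiff_pi.2 fun r => sm_coeff Finset.univ r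

theorem deg {k : ℕ} (s : Finset (Fin k)) (ξ : Fin k → ℂ) :
    (∏ i ∈ s, (X - C (ξ i))).natDegree = s.card := by
  rw [natDegree_prod_of_monic _ _ fun i _ => monic_X_sub_C _]
  simp

theorem cf_ne {n k : ℕ} (hk : k ≤ n) (ξ : Fin k → ℂ) : cf n ξ ≠ 0 := by
  intro h
  have h1 := congrFun h ⟨k, by omega⟩
  have h2 : (∏ i, (X - C (ξ i))).Monic := monic_prod_of_monic _ _ fun i _ => monic_X_sub_C _
  have h3 := h2.coeff_natDegree
  rw [deg, Finset.card_univ, Fintype.card_fin] at h3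
  simp only [cf, h3] at h1
  exact one_ne_zero h1

theorem up {n : ℕ} {p : ℂ[X]} (hp : p.natDegree ≤ n) : ‖vec n p‖ ≤ 2 ^ n * p.mahlerMeasure := by
  have h0 := p.mahlerMeasure_nonneg
  refine (pi_norm_le_iff_of_nonneg (by positivity)).2 fun r => ?_
  refine (norm_coeff_le_choose_mul_mahlerMeasure r p).trans (mul_le_mul_of_nonneg_right ?_ h0)
  exact_mod_cast (Nat.choose_le_two_pow _ _).trans (Nat.pow_le_pow_right two_pos hp)

theorem low {n : ℕ} {p : ℂ[X]} (hp : p.natDegree ≤ n) :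
    p.mahlerMeasure ≤ (n + 1) * ‖vec n p‖ := by
  refine (mahlerMeasure_le_sum_norm_coeff p).trans ?_
  rw [sum_over_range' p (by simp) (n + 1) (by omega), Finset.sum_range]
  refine (Finset.sum_le_sum fun r _ => norm_le_pi_norm (vec n p) r).trans_eq ?_
  simp

theorem mm (a : ℂ) : (C (conj a) * X + C 1 : ℂ[X]).mahlerMeasure = max 1 ‖a‖ := by
  rcases eq_or_ne a 0 with rfl | h
  · simp
  · rw [mahlerMeasure_C_mul_X_add_C (by simpa using h), max_comm]
    simp

theorem flip {n : ℕ} (a : ℂ) {q : ℂ[X]} (hq : q.natDegree + 1 ≤ n) :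
    ‖vec n ((C (conj a) * X + C 1) * q)‖ ≤ 2 ^ n * (n + 1) * ‖vec n ((X - C a) * q)‖ := by
  have h1 : ((C (conj a) * X + C 1) * q).natDegree ≤ n :=
    natDegree_mul_le.trans (by have := natDegree_linear_le (a := conj a) (b := 1); omega)
  have h2 : ((X - C a) * q).natDegree ≤ n :=
    natDegree_mul_le.trans (by rw [natDegree_X_sub_C]; omega)
  refine (up h1).trans ?_
  rw [mahlerMeasure_mul, mm, ← mahlerMeasure_X_sub_C, ← mahlerMeasure_mul, mul_assoc]
  exact mul_le_mul_of_nonneg_left (low h2) (by positivity)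

theorem fd {n k : ℕ} (ξ : Fin k → ℂ) (i : Fin k) (w : ℂ) :
    fderiv ℝ (fun ξ : Fin k → ℂ => cf n ξ) ξ (Pi.single i w) =
      -w • vec n (∏ j ∈ Finset.univ.erase i, (X - C (ξ j))) := by
  set q := ∏ j ∈ Finset.univ.erase i, (X - C (ξ j)) with hq
  have h1 : HasDerivAt (fun t : ℝ => ξ + t • (Pi.single i w : Fin k → ℂ)) (Pi.single i w) 0 := by
    simpa using ((hasDerivAt_id (0 : ℝ)).smul_const (Pi.single i w : Fin k → ℂ)).const_add ξ
  have h2 := (((sm_cf n k).differentiable (by simp)) ξ).hasFDerivAt.comp_hasDerivAt_of_eq 0 h1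
    (by simp)
  have h3 : HasDerivAt (fun t : ℝ => cf n ξ + t • (-w • vec n q)) (-w • vec n q) 0 := by
    simpa using ((hasDerivAt_id (0 : ℝ)).smul_const (-w • vec n q)).const_add (cf n ξ)
  refine h2.unique (h3.congr_of_eventuallyEq (Eventually.of_forall fun t => ?_))
  funext r
  have e : ∀ η : Fin k → ℂ, ∏ j, (X - C (η j)) =
      (X - C (η i)) * ∏ j ∈ Finset.univ.erase i, (X - C (η j)) := fun η =>
    (Finset.mul_prod_erase _ _ (Finset.mem_univ i)).symm
  have e2 : ∏ j ∈ Finset.univ.erase i, (X - C ((ξ + t • (Pi.single i w : Fin k → ℂ)) j)) = q :=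
    Finset.prod_congr rfl fun j hj => by simp [Finset.ne_of_mem_erase hj]
  change (∏ j, (X - C ((ξ + t • (Pi.single i w : Fin k → ℂ)) j))).coeff r = _
  rw [e, e2]
  simp only [cf, e, ← hq, vec, Pi.add_apply, Pi.smul_apply, Pi.single_eq_same, sub_mul,
    coeff_sub, coeff_C_mul, smul_eq_mul, Complex.real_smul]
  ring

theorem key {n : ℕ} (a w : ℂ) (q : ℂ[X]) :
    -w • vec n q - (w * conj a / (1 + ‖a‖ ^ 2)) • vec n ((X - C a) * q) =
      (-w / (1 + ‖a‖ ^ 2)) • vec n ((C (conj a) * X + C 1) * q) := by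
  funext r
  have h : (1 + (‖a‖ : ℂ) ^ 2) ≠ 0 := by exact_mod_cast (by positivity : (1 + ‖a‖ ^ 2) ≠ 0)
  have h2 : (‖a‖ : ℂ) ^ 2 = conj a * a := (Complex.conj_mul' a).symm
  simp only [vec, Pi.sub_apply, Pi.smul_apply, smul_eq_mul, sub_mul, add_mul, mul_assoc, coeff_sub,
    coeff_add, coeff_C_mul]
  field_simp
  rw [h2]
  ring

end EN1

open EN1 in
theorem bEN1 (h0 : St_EN0) : St_EN1 := by
  intro n f hf
  obtain ⟨M, hM, H⟩ := h0 n f hf
  have hK : (1 : ℝ) ≤ 2 ^ n * (n + 1) :=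
    one_le_mul_of_one_le_of_one_le (one_le_pow₀ one_le_two) (by linarith [n.cast_nonneg (α := ℝ)])
  refine ⟨M * (2 ^ n * (n + 1)), by positivity, fun k hk =>
    ⟨hf.1.comp_contDiff (sm_cf n k) (cf_ne hk), fun ξ => ⟨cf_ne hk ξ,
      (H _ (cf_ne hk ξ)).1.trans (le_mul_of_one_le_right hM hK), fun v => ?_⟩⟩⟩
  have d1 : DifferentiableAt ℝ f (cf n ξ) :=
    (hf.1.contDiffAt (isOpen_ne.mem_nhds (cf_ne hk ξ))).differentiableAt (by simp)
  have d2 := ((sm_cf n k).differentiable (by simp)) ξ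
  rw [fderiv_fun_comp ξ d1 d2, ← Finset.univ_sum_single v, map_sum, Finset.mul_sum]
  refine (Finset.abs_sum_le_sum_abs _ _).trans (Finset.sum_le_sum fun i _ => ?_)
  rw [ContinuousLinearMap.comp_apply, fd]
  set q := ∏ j ∈ Finset.univ.erase i, (X - C (ξ j)) with hq
  have e : cf n ξ = vec n ((X - C (ξ i)) * q) := by
    rw [hq, Finset.mul_prod_erase _ (fun j => X - C (ξ j)) (Finset.mem_univ i)]; rfl
  have hd : q.natDegree + 1 ≤ n := by
    rw [hq, deg, Finset.card_erase_add_one (Finset.mem_univ i)]; simpa using hk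
  have hp : 0 < ‖cf n ξ‖ := norm_pos_iff.2 (cf_ne hk ξ)
  have h1 := (H _ (cf_ne hk ξ)).2 (-v i • vec n q) (v i * conj (ξ i) / (1 + ‖ξ i‖ ^ 2))
  refine le_of_mul_le_mul_right (h1.trans ?_) hp
  have h2 : ‖-v i / (1 + (‖ξ i‖ : ℂ) ^ 2)‖ = ‖v i‖ / (1 + ‖ξ i‖ ^ 2) := by
    rw [norm_div, norm_neg]
    congr 1
    exact_mod_cast abs_of_pos (by positivity : 0 < 1 + ‖ξ i‖ ^ 2)
  rw [e, key, norm_smul, h2, Finset.univ_sum_single]
  calc _ ≤ M * (‖v i‖ / (1 + ‖ξ i‖ ^ 2) * (2 ^ n * (n + 1) * ‖vec n ((X - C (ξ i)) * q)‖)) := by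
        gcongr; exact flip _ hd
    _ = _ := by ring

end Pool.Agent.Lib.CLF
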