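import Pool.Agent.Lib.CLF.BBlue

/-! Row `END`: the end inequality. -/

open MvPolynomial Filter Topology Function Module Pool.Agent.Lib.MP_08f962_ag

noncomputable section

namespace Pool.Agent.Lib.CLF

namespace END

variable {n m : ℕ}

theorem osc_mem (c : ℂ) : osc n m c ∈ Forms n m (1, 0) :=
  Submodule.sum_mem _ fun r _ => by
    rw [← smul_eq_C_mul]; exact Submodule.smul_mem _ _ (x_mem r)

/-- A prime that contains infinitely many of the forms `osc` contains all the variables. -/
theorem van {P : Ideal (S n m)} (hP : P.IsPrime) {T : Set ℂ} (hT : T.Infinite)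
    (h : ∀ c ∈ T, osc n m c ∈ P) (i : Fin (n + 1)) : X (Sum.inl i) ∈ P := by
  let f : Polynomial (S n m ⧸ P) :=
    ∑ r : Fin (n + 1), Polynomial.monomial r (Ideal.Quotient.mk P (X (Sum.inl r)))
  have h0 : f = 0 := by
    refine Polynomial.eq_zero_of_infinite_isRoot f
      ((hT.image (algebraMap ℂ (S n m ⧸ P)).injective.injOn).mono ?_)
    rintro _ ⟨c, hc, rfl⟩
    have h1 := Ideal.Quotient.eq_zero_iff_mem.2 (h c hc)
    simp only [osc, map_sum, map_mul, map_pow] at h1
    simp only [f, Set.mem_ofPred_eq, Polynomial.IsRoot, Polynomial.eval_finsetSum,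
      Polynomial.eval_monomial]
    rw [← h1]
    exact Finset.sum_congr rfl fun r _ => mul_comm _ _
  have h2 := congrArg (Polynomial.coeff · i) h0
  simp only [f, Polynomial.finsetSum_coeff, Polynomial.coeff_monomial, Fin.val_inj,
    Finset.sum_ite_eq', Finset.mem_univ, if_true, Polynomial.coeff_zero] at h2
  exact Ideal.Quotient.eq_zero_iff_mem.1 h2

end END

open END in
theorem bEND (h1 : St_END1) (hC : St_CUTP) (hH : St_HEX) : St_END := by
  intro n m u v p q G φ ψ hn hp hG hN hφ hψ
  have key : ∀ r j, j + r + 1 = n → ∀ x : Fin j → ℂ, Injective x → ∀ J : Ideal (S n m),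
      pull φ ψ G ∈ J → (∀ i, osc n m (x i) ∈ J) → ∀ c ∈ Cn J (r + 1),
      p * c (r + 1, 0) ≤ v * (q * c (r, 1)) := by
    intro r
    induction r with
    | zero =>
      intro j hj x hx J hF hJ c hc
      induction hc using AddSubmonoid.closure_induction with
      | mem c h =>
        obtain ⟨P, a, b, d, e⟩ := h
        exact h1 n m u v p q j G φ ψ P c x hj hp hG hN hφ hψ a b (d hF) hx (fun i => d (hJ i)) e
      | zero => simp
      | add c c' _ _ a b => simp only [Pi.add_apply]; linarith
    | succ r ih =>
      intro j hj x hx J hF hJ c hc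
      induction hc using AddSubmonoid.closure_induction with
      | mem c h =>
        obtain ⟨P, a, b, d, e⟩ := h
        by_cases h0 : ∀ t ∈ (Set.range x)ᶜ, osc n m t ∈ P
        · rw [hH.zero e (Or.inl (van a (Set.finite_range x).infinite_compl h0))]
          simp
        · push Not at h0
          obtain ⟨t, ht, ht'⟩ := h0
          have h2 := ih (j + 1) (by omega) (Fin.cons t x) (Fin.cons_injective_iff.2 ⟨ht, hx⟩)
            (P ⊔ Ideal.span {osc n m t}) (Ideal.mem_sup_left (d hF))
            (Fin.cases (Ideal.mem_sup_right (Ideal.subset_span rfl))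
              fun i => Ideal.mem_sup_left (d (hJ i))) _
            (hC n m P _ 1 0 (r + 1) c a b (osc_mem t) ht' e)
          simpa [sh] using h2
      | zero => simp
      | add c c' _ _ a b => simp only [Pi.add_apply]; linarith
  obtain ⟨r, rfl⟩ := Nat.exists_eq_add_of_le' hn
  exact key r 0 (by omega) Fin.elim0 (fun i => i.elim0) _ (Ideal.subset_span rfl) fun i => i.elim0

end Pool.Agent.Lib.CLF
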