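import Pool.Agent.Lib.CLF.BBlue

/-! A height inequality. -/

open Module Filter

noncomputable section

namespace Pool.Agent.Lib.CLF.END0

variable {L : Type} [Field L] [Algebra ℂ L]

theorem pow_mem (τ : L) (s : ℕ) : ∀ i ≤ s, τ ^ i ∈ (Submodule.span ℂ {1, τ} : Submodule ℂ L) ^ s := by
  induction s with
  | zero =>
    intro i hi
    rw [Nat.le_zero.1 hi, pow_zero, pow_zero]
    exact Submodule.one_le.1 le_rfl
  | succ s ih =>
    intro i hi
    rw [pow_succ]
    rcases i with _ | i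
    · have := Submodule.mul_mem_mul (ih 0 (Nat.zero_le s))
        (Submodule.subset_span (R := ℂ) (s := {1, τ}) (Set.mem_insert 1 {τ}))
      rwa [mul_one] at this
    · rw [pow_succ]
      exact Submodule.mul_mem_mul (ih i (by omega)) (Submodule.subset_span (by simp))

theorem pow_le (τ : L) (s : ℕ) : (Submodule.span ℂ {1, τ} : Submodule ℂ L) ^ s ≤
    Submodule.span ℂ {x | ∃ i ≤ s, x = τ ^ i} := by
  induction s with
  | zero =>
    rw [pow_zero, Submodule.one_le]
    exact Submodule.subset_span ⟨0, le_rfl, (pow_zero τ).symm⟩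
  | succ s ih =>
    rw [pow_succ]
    refine (mul_le_mul_left ih _).trans ?_
    rw [Submodule.span_mul_span, Submodule.span_le]
    rintro _ ⟨_, ⟨i, hi, rfl⟩, y, rfl | rfl, rfl⟩
    · exact Submodule.subset_span ⟨i, by omega, mul_one _⟩
    · exact Submodule.subset_span ⟨i + 1, by omega, (pow_succ _ _).symm⟩

theorem lead_mem {τ : L} {W : Submodule ℂ L} {A : Polynomial L} {p s i : ℕ}
    (hA : ∀ j, A.coeff j ∈ W) (h0 : A.eval (τ ^ p) = 0) (hs : p * A.natDegree ≤ s)
    (hi : i ≤ s + p) :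
    A.leadingCoeff * τ ^ i ∈ (Submodule.span ℂ {1, τ} : Submodule ℂ L) ^ s * W := by
  by_cases h : i ≤ s
  · rw [mul_comm A.leadingCoeff]
    exact Submodule.mul_mem_mul (pow_mem τ s i h) (hA _)
  · obtain ⟨k, rfl⟩ := Nat.exists_eq_add_of_le (show p * A.natDegree ≤ i by omega)
    rw [Polynomial.eval_eq_sum_range, Finset.sum_range_succ, add_comm,
      add_eq_zero_iff_eq_neg] at h0
    rw [pow_add, pow_mul, ← mul_assoc, Polynomial.leadingCoeff, h0, neg_mul, Finset.sum_mul]
    refine neg_mem (Submodule.sum_mem _ fun j hj => ?_)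
    rw [mul_assoc, mul_comm (A.coeff j), ← pow_mul, ← pow_add]
    refine Submodule.mul_mem_mul (pow_mem τ s _ ?_) (hA _)
    have h1 : p * (j + 1) ≤ p * A.natDegree := Nat.mul_le_mul_left p (Finset.mem_range.1 hj)
    rw [mul_add, mul_one] at h1
    omega

theorem step {τ : L} {Y : Submodule ℂ L} {A : Polynomial L} {p w s : ℕ} (r : ℕ)
    (hY : FiniteDimensional ℂ Y) (hA0 : A ≠ 0)
    (hA : ∀ j, A.coeff j ∈ Y ^ w) (h0 : A.eval (τ ^ p) = 0) (hs : p * A.natDegree ≤ s) :
    finrank ℂ (Submodule.span ℂ {1, τ} ^ (s + p) * Y ^ r : Submodule ℂ L) ≤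
      finrank ℂ (Submodule.span ℂ {1, τ} ^ s * Y ^ (r + w) : Submodule ℂ L) := by
  have hfg : (Submodule.span ℂ {1, τ} ^ s * Y ^ (r + w) : Submodule ℂ L).FG :=
    ((Submodule.fg_span (Set.toFinite _)).pow s).mul ((Module.Finite.iff_fg.1 hY).pow _)
  have := Module.Finite.iff_fg.2 hfg
  have hinj : Function.Injective (LinearMap.mulLeft ℂ A.leadingCoeff) :=
    mul_right_injective₀ (Polynomial.leadingCoeff_ne_zero.2 hA0)
  rw [← MP_08f962_ag.finrank_map_inj _ hinj]
  refine Submodule.finrank_mono ?_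
  rw [Submodule.map_le_iff_le_comap]
  refine (mul_le_mul_left (pow_le τ (s + p)) _).trans ?_
  rw [Submodule.mul_le]
  intro x hx y hy
  induction hx using Submodule.span_induction with
  | mem x hx =>
    obtain ⟨i, hi, rfl⟩ := hx
    rw [Submodule.mem_comap, LinearMap.mulLeft_apply, ← mul_assoc, add_comm r, pow_add,
      ← mul_assoc]
    exact Submodule.mul_mem_mul (lead_mem hA h0 hs hi) hy
  | zero => rw [zero_mul]; exact zero_mem _
  | add a b _ _ ha hb => rw [add_mul]; exact add_mem ha hb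
  | smul c a _ ha => rw [smul_mul_assoc]; exact Submodule.smul_mem _ _ ha

end Pool.Agent.Lib.CLF.END0

namespace Pool.Agent.Lib.CLF

theorem bEND0 : St_END0 := by
  intro L _ _ τ Y A p w α β γ hY _ _ hA0 hA h0 h
  obtain ⟨a, ha⟩ := eventually_atTop.1 h
  have h1 := END0.step (s := a.1 + p * A.natDegree) a.2 hY hA0 hA h0 (Nat.le_add_left _ _)
  have h2 := ha (a.1 + p * A.natDegree + p, a.2) ⟨by simp only; omega, le_rfl⟩
  have h3 := ha (a.1 + p * A.natDegree, a.2 + w) ⟨by simp only; omega, by simp only; omega⟩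
  have h4 := (Nat.cast_le (α := ℝ)).2 h1
  simp only at h2 h3
  rw [h2, h3] at h4
  push_cast at h4
  linarith

end Pool.Agent.Lib.CLF
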