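import Pool.Agent.Lib.CLF.BBlue

/-! Curves over a line. -/

open MvPolynomial Filter Topology Function Module Pool.Agent.Lib.MP_08f962_ag

noncomputable section

namespace Pool.Agent.Lib.CLF

namespace END1

lemma aeval_mem {σ R : Type} [CommRing R] [Algebra ℂ R] (M : ℕ → Submodule ℂ R) (h1 : 1 ∈ M 0)
    (hm : ∀ a b x y, x ∈ M a → y ∈ M b → x * y ∈ M (a + b)) (w : σ → ℕ) (z : σ → R)
    (hz : ∀ i, z i ∈ M (w i)) (G : MvPolynomial σ ℂ) (d : ℕ)
    (hG : ∀ α, G.coeff α ≠ 0 → Finsupp.weight w α = d) : aeval z G ∈ M d := by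
  have : SetLike.GradedMonoid M := { one_mem := h1, mul_mem := fun a b x y => hm a b x y }
  rw [G.as_sum, map_sum]
  refine Submodule.sum_mem _ fun α hα => ?_
  rw [aeval_monomial, ← Algebra.smul_def, ← hG α (mem_support_iff.1 hα), Finsupp.weight_apply]
  exact Submodule.smul_mem _ _ (SetLike.prod_pow_mem_graded M w z α fun i _ => hz i)

/-- polynomials with coefficients in a subspace -/
def cI {L : Type} [Field L] [Algebra ℂ L] (Y : Submodule ℂ L) : Submodule ℂ (Polynomial L) where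
  carrier := {A | ∀ j, A.coeff j ∈ Y}
  add_mem' ha hb j := by
    rw [Polynomial.coeff_add]
    exact Y.add_mem (ha j) (hb j)
  zero_mem' j := Y.zero_mem
  smul_mem' c A h j := by
    rw [Polynomial.coeff_smul]
    exact Y.smul_mem c (h j)

lemma cf_map {R R' : Type} [CommRing R] [CommRing R'] (f : R →+* R') (n : ℕ) {k : ℕ}
    (ξ : Fin k → R) (r : Fin (n + 1)) : f (cf n ξ r) = cf n (fun i => f (ξ i)) r := by
  simp only [cf, ← Polynomial.coeff_map, Polynomial.map_prod, Polynomial.map_sub, Polynomial.map_X,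
    Polynomial.map_C]

lemma deg_pr {R : Type} [Field R] {k : ℕ} (ξ : Fin k → R) :
    (∏ i, (Polynomial.X - Polynomial.C (ξ i))).natDegree = k := by
  rw [Polynomial.natDegree_prod_of_monic _ _ fun i _ => Polynomial.monic_X_sub_C _]
  simp

lemma co_pr {R : Type} [Field R] {k : ℕ} (ξ : Fin k → R) :
    (∏ i, (Polynomial.X - Polynomial.C (ξ i))).coeff k = 1 := by
  have := (Polynomial.monic_prod_X_sub_C ξ Finset.univ).coeff_natDegree
  rwa [deg_pr] at this

lemma cf_one {R : Type} [Field R] {n k : ℕ} (ξ : Fin k → R) (h : k ≤ n) :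
    cf n ξ ⟨k, Nat.lt_succ_of_le h⟩ = 1 := co_pr ξ

lemma pt_osc {n m k : ℕ} {L : Type} [Field L] [Algebra ℂ L] (ξ : Fin k → L) (h : k ≤ n)
    (y : Fin (m + 1) → L) (c : ℂ) : pt (cf n ξ) y (osc n m c) =
      (∏ i, (Polynomial.X - Polynomial.C (ξ i))).eval (algebraMap ℂ L c) := by
  rw [Polynomial.eval_eq_sum_range' (n := n + 1) (by rw [deg_pr]; omega), Finset.sum_range]
  simp only [pt, osc, map_sum, map_mul, aeval_C, aeval_X, Sum.elim_inl, map_pow, cf, mul_comm]

lemma osc_mem (n m : ℕ) (c : ℂ) : osc n m c ∈ Forms n m (1, 0) :=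
  Submodule.sum_mem _ fun r _ => by
    rw [C_mul']
    exact Submodule.smul_mem _ _ (x_mem r)

/-- the polynomial relation of the free root -/
lemma rel {k m u v w : ℕ} {G : S (k + 1) m} (hG : G ∈ Forms (k + 1) m (u, v))
    (hN : NG2 G u) {L : Type} [Field L] [Algebra ℂ L] (Y : Submodule ℂ L) (x : Fin k → ℂ)
    (y : Fin (m + 1) → L) (y0 : y ≠ 0) (hy : ∀ j, y j ∈ Y ^ w) (t : L)
    (ht : pt (cf (k + 1) (Fin.cons t fun i => algebraMap ℂ L (x i) : Fin (k + 1) → L)) y G = 0) :
    ∃ A : Polynomial L, A ≠ 0 ∧ (∀ j, A.coeff j ∈ Y ^ (w * v)) ∧ A.eval t = 0 := by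
  let a : Fin (k + 2) → Polynomial ℂ :=
    cf (k + 1) (Fin.cons Polynomial.X fun i => Polynomial.C (x i) : Fin (k + 1) → Polynomial ℂ)
  let A : Polynomial L := pt (fun r => (a r).map (algebraMap ℂ L)) (fun j => Polynomial.C (y j)) G
  have hA : ∀ s : L, A.eval s =
      pt (cf (k + 1) (Fin.cons s fun i => algebraMap ℂ L (x i) : Fin (k + 1) → L)) y G := by
    intro s
    have := comp_aeval_apply (Sum.elim (fun r => (a r).map (algebraMap ℂ L))
      fun j => Polynomial.C (y j)) ((Polynomial.aeval s : Polynomial L →ₐ[L] L).restrictScalars ℂ) G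
    refine (Polynomial.coe_aeval_eq_eval s ▸ this :).trans ?_
    refine congrArg (fun z => aeval z G) (funext fun i => ?_)
    rcases i with r | j
    · simp only [Sum.elim_inl, Polynomial.eval_map_algebraMap]
      refine (cf_map (Polynomial.aeval s : Polynomial ℂ →ₐ[ℂ] L).toRingHom _ _ r).trans ?_
      refine congrArg (fun z => cf (k + 1) z r) (funext fun i => ?_)
      refine Fin.cases ?_ (fun i => ?_) i <;> simp
    · simp
  obtain ⟨τ, hτ⟩ := hN L k (fun i => algebraMap ℂ L (x i)) y rfl y0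
  refine ⟨A, fun h => hτ (by rw [← hA, h, Polynomial.eval_zero]), ?_, (hA t).trans ht⟩
  refine aeval_mem (fun d => cI (Y ^ d)) (fun j => ?_) (fun a b f g hf hg j => ?_)
    (Sum.elim (fun _ => 0) fun _ => w) _ (fun i => ?_) G _ fun α hα => ?_
  · rw [pow_zero, Polynomial.coeff_one]
    split_ifs
    · exact Submodule.one_le.1 le_rfl
    · exact Submodule.zero_mem _
  · rw [Polynomial.coeff_mul, pow_add]
    exact Submodule.sum_mem _ fun c _ => Submodule.mul_mem_mul (hf _) (hg _)
  · rcases i with r | j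
    · intro j
      simp only [Sum.elim_inl, pow_zero, Polynomial.coeff_map]
      exact Submodule.algebraMap_mem _
    · intro i
      simp only [Sum.elim_inr, Polynomial.coeff_C]
      split_ifs
      · exact hy j
      · exact Submodule.zero_mem _
  · have := hG hα
    rw [weight_wt] at this
    rw [Finsupp.weight_apply, Finsupp.sum_fintype _ _ (by simp), Fintype.sum_sum_type,
      ← show ∑ j, α (.inr j) = v from (Prod.ext_iff.1 this).2]
    simp [Finset.mul_sum, mul_comm]

end END1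

open END1 in
theorem bEND1 (hEND0 : St_END0) (hRT : St_RT) (hHV : St_HV) (hASY : St_ASY) (hPULL : St_PULL)
    (hHEX : St_HEX) : St_END1 := by
  rintro _ m u v p q k G φ ψ P c x rfl hp hG hN hφ hψ hP hB hF hx ho hc
  by_cases hirr : (∀ i, X (Sum.inl i) ∈ P) ∨ ∀ j, X (Sum.inr j) ∈ P
  · simp [hHEX.zero hc hirr]
  simp only [not_or, not_forall] at hirr
  obtain ⟨L, _, _, n', m', ξ, η, hn, hm, hI, -⟩ := hRT _ m P hP hB hirr.1 hirr.2
  obtain ⟨γ, hγ⟩ := hASY.one hc
  set Y := Submodule.span ℂ (Set.range (cf m η)) with hY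
  have Y1 : (1 : L) ∈ Y := Submodule.subset_span ⟨_, cf_one η hm⟩
  have key : ∀ (τ : L) (A : Polynomial L), Submodule.span ℂ (Set.range (cf (k + 1) ξ)) =
      Submodule.span ℂ {1, τ} → A ≠ 0 → (∀ j, A.coeff j ∈ Y ^ (q * v)) → A.eval (τ ^ p) = 0 →
      p * c (1, 0) ≤ v * (q * c (0, 1)) := fun τ A h1 h2 h3 h4 => by
    have := hEND0 L τ Y A p (q * v) _ _ γ (FiniteDimensional.span_of_finite ℂ (Set.finite_range _))
      Y1 hp h2 h3 h4 (hγ.mono fun z hz => by
        rw [← hz, hHV.eq _ _ z (hI z), ← h1, hY, ← hHV.pow])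
    push_cast at this
    linarith
  let h0 : Polynomial ℂ := ∏ i, (Polynomial.X - Polynomial.C (x i))
  have hh : h0.map (algebraMap ℂ L) =
      ∏ i, (Polynomial.X - Polynomial.C (algebraMap ℂ L (x i))) := by
    simp only [h0, Polynomial.map_prod, Polynomial.map_sub, Polynomial.map_X, Polynomial.map_C]
  obtain ⟨g, hg⟩ : (∏ i, (Polynomial.X - Polynomial.C (algebraMap ℂ L (x i)))) ∣
      ∏ i, (Polynomial.X - Polynomial.C (ξ i)) :=
    Finset.prod_dvd_of_coprime (fun i _ j _ hij =>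
      Polynomial.pairwise_coprime_X_sub_C ((algebraMap ℂ L).injective.comp hx) hij)
      fun i _ => Polynomial.dvd_iff_isRoot.2
        ((pt_osc ξ hn _ _).symm.trans ((hI _ _ (osc_mem _ m _)).1 (ho i)))
  have mo := Polynomial.monic_prod_X_sub_C (fun i => algebraMap ℂ L (x i)) Finset.univ
  have gm : g.Monic := mo.of_mul_monic_left (hg ▸ Polynomial.monic_prod_X_sub_C ξ Finset.univ)
  have gd : n' = k + g.natDegree := by
    rw [← deg_pr ξ, hg, mo.natDegree_mul gm, deg_pr]
  have a1 : (1 : L) ∈ Submodule.span ℂ (Set.range (cf (k + 1) ξ)) :=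
    Submodule.subset_span ⟨_, cf_one ξ hn⟩
  rcases Nat.le_one_iff_eq_zero_or_eq_one.1 (show g.natDegree ≤ 1 by omega) with h | h
  · rw [gm.natDegree_eq_zero.1 h, mul_one, ← hh] at hg
    refine key 0 Polynomial.X (le_antisymm (Submodule.span_le.2 ?_) (Submodule.span_le.2 ?_))
      Polynomial.X_ne_zero (fun j => ?_) (by rw [Polynomial.eval_X, zero_pow (by omega)])
    · rintro _ ⟨r, rfl⟩
      refine Submodule.mem_span_pair.2 ⟨h0.coeff r, 0, ?_⟩
      simp only [cf, hg, Polynomial.coeff_map, mul_zero, add_zero, Algebra.smul_def, mul_one]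
    · rintro _ (rfl | rfl)
      · exact a1
      · exact Submodule.zero_mem _
    · rw [Polynomial.coeff_X]
      split_ifs
      · simpa using Submodule.pow_mem_pow Y Y1 (q * v)
      · exact Submodule.zero_mem _
  · obtain ⟨τ, rfl⟩ : ∃ τ, g = Polynomial.X - Polynomial.C τ :=
      ⟨-g.coeff 0, by rw [Polynomial.C_neg, sub_neg_eq_add]; exact gm.eq_X_add_C h⟩
    have e1 : cf (k + 1) ξ =
        cf (k + 1) (Fin.cons τ fun i => algebraMap ℂ L (x i) : Fin (k + 1) → L) := by
      funext r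
      simp only [cf, hg, Fin.prod_univ_succ, Fin.cons_zero, Fin.cons_succ, mul_comm]
    have e2 : ∀ r, cf (k + 1) ξ r = (h0 * Polynomial.X).coeff r • (1 : L) + (-h0.coeff r) • τ := by
      intro r
      rw [neg_smul, ← sub_eq_add_neg]
      simp only [cf, hg, ← hh, mul_sub, Polynomial.coeff_sub, Polynomial.coeff_mul_C,
        Algebra.smul_def, mul_one, ← Polynomial.coeff_map, Polynomial.map_mul, Polynomial.map_X]
    obtain ⟨ε, ε0, hε⟩ := hφ.2 L (k + 1) (Fin.cons τ fun i => algebraMap ℂ L (x i)) le_rfl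
    obtain ⟨δ, δ0, hδ⟩ := hψ.2 L m' η hm
    have h1 := (hI _ _ (hPULL.form hφ.1 hψ.1 hG)).1 hF
    have h2 := hPULL.scale (cf (k + 1) fun j =>
      (Fin.cons τ fun i => algebraMap ℂ L (x i) : Fin (k + 1) → L) j ^ p)
      (fun j => aeval (cf m η) (ψ j)) ε 1 hG
    rw [hPULL.val, e1, funext hε] at h1
    rw [one_smul, one_pow, mul_one] at h2
    have h3 := (mul_eq_zero.1 (h2.symm.trans h1)).resolve_left (pow_ne_zero _ ε0)
    obtain ⟨A, A0, A1, A2⟩ := rel (w := q) hG hN Y (fun i => x i ^ p)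
      (fun j => aeval (cf m η) (ψ j)) (fun h => δ0 (by
        have := congrFun h ⟨m', Nat.lt_succ_of_le hm⟩
        rwa [hδ, cf_one _ hm, mul_one] at this))
      (fun j => aeval_mem (fun d => Y ^ d) (by rw [pow_zero]; exact Submodule.one_le.1 le_rfl)
        (fun a b f g hf hg => by rw [pow_add]; exact Submodule.mul_mem_mul hf hg) (fun _ => 1) _
        (fun i => by rw [pow_one]; exact Submodule.subset_span ⟨i, rfl⟩) _ q
        fun α hα => hψ.1 j hα) (τ ^ p) (by
        refine Eq.trans (congrArg (fun z => pt (cf (k + 1) z) _ G) (funext fun i => ?_)) h3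
        refine Fin.cases ?_ (fun i => ?_) i <;> simp)
    refine key τ A (le_antisymm (Submodule.span_le.2 ?_) (Submodule.span_le.2 ?_)) A0 A1 A2
    · rintro _ ⟨r, rfl⟩
      exact Submodule.mem_span_pair.2 ⟨_, _, (e2 r).symm⟩
    · rintro _ (rfl | rfl)
      · exact a1
      · have := e2 ⟨k, by omega⟩
        rw [show h0.coeff k = 1 from co_pr x, neg_smul, one_smul, ← sub_eq_add_neg,
          eq_sub_iff_add_eq, ← eq_sub_iff_add_eq'] at this
        rw [this]
        exact Submodule.sub_mem _ (Submodule.smul_mem _ _ a1) (Submodule.subset_span ⟨_, rfl⟩)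

end Pool.Agent.Lib.CLF
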