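import Pool.Agent.Lib.CLF.BBlue

/-! Measurable numbering of the sheets. -/

open Filter Topology Set Function

noncomputable section

namespace Pool.Agent.Lib.CLF

theorem bENUM : St_ENUM := by
  intro Ω N R hΩ h
  classical
  have h1 : ∀ z : B2, ∃ (U : Set B2) (b : Fin N → B2 → ℂ), IsOpen U ∧ (z ∈ Ω → z ∈ U) ∧
      (∀ k, ContinuousOn (b k) U) ∧
      ∀ w ∈ U, (Injective fun k => b k w) ∧ (range fun k => b k w) = R w := by
    intro z
    by_cases hz : z ∈ Ω
    · obtain ⟨b, hb, hev⟩ := h z hz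
      have e : ∀ᶠ w in 𝓝 z, ∀ k, AnalyticAt ℂ (b k) w :=
        eventually_all.2 fun k => (hb k).eventually_analyticAt
      obtain ⟨U, hU, hUo, hzU⟩ := mem_nhds_iff.1 (hev.and e)
      exact ⟨U, b, hUo, fun _ => hzU,
        fun k w hw => ((hU hw).2 k).continuousAt.continuousWithinAt, fun w hw => (hU hw).1⟩
    · exact ⟨∅, fun _ _ => 0, isOpen_empty, fun h' => absurd h' hz, fun _ => continuousOn_empty _,
        fun w hw => absurd hw (notMem_empty w)⟩
  choose U b hUo hzU hbc hb using h1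
  obtain ⟨T, hT, hTU⟩ := TopologicalSpace.isOpen_iUnion_countable U hUo
  obtain ⟨s, hs⟩ := (hT.insert 0).exists_eq_range (insert_nonempty 0 T)
  have hex : ∀ w : B2, ∃ n, w ∈ U (s n) ∪ Ωᶜ := by
    intro w
    by_cases hw : w ∈ Ω
    · have h2 : w ∈ ⋃ i ∈ T, U i := hTU ▸ mem_iUnion.2 ⟨w, hzU w hw⟩
      obtain ⟨i, hi, hwi⟩ := mem_iUnion₂.1 h2
      obtain ⟨n, rfl⟩ : i ∈ range s := hs ▸ mem_insert_of_mem _ hi
      exact ⟨n, Or.inl hwi⟩
    · exact ⟨0, Or.inr hw⟩
  let r : Fin N → B2 → ℂ := fun k w =>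
    (U (s (Nat.find (hex w)))).piecewise (b (s (Nat.find (hex w))) k) (fun _ => 0) w
  have hr : ∀ w ∈ Ω, (Injective fun k => r k w) ∧ (range fun k => r k w) = R w := by
    intro w hw
    have h2 : w ∈ U (s (Nat.find (hex w))) := (Nat.find_spec (hex w)).resolve_right fun h' => h' hw
    have h3 : (fun k => r k w) = fun k => b (s (Nat.find (hex w))) k w :=
      funext fun k => piecewise_eq_of_mem _ _ _ h2
    rw [h3]
    exact hb _ w h2
  refine ⟨⟨Ω, N, r, hΩ, fun k => ?_, fun z hz => (hr z hz).1, fun z hz => ?_⟩, rfl, rfl, ?_⟩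
  · exact Measurable.find (f := fun n => (U (s n)).piecewise (b (s n) k) fun _ => 0)
      (p := fun n w => w ∈ U (s n) ∪ Ωᶜ)
      (fun n => (hbc (s n) k).measurable_piecewise continuousOn_const (hUo _).measurableSet)
      (fun n => (hUo _).measurableSet.union hΩ.measurableSet.compl) hex
  · obtain ⟨c, hc, hev⟩ := h z hz
    refine ⟨c, hc, ?_⟩
    filter_upwards [hev, hΩ.mem_nhds hz] with w hw hw'
    rw [hw.2, (hr w hw').2]
  · ext p
    exact and_congr_right fun hp => by rw [(hr p.1 hp).2]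

end Pool.Agent.Lib.CLF
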