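import Pool.Agent.Lib.CLF.BBlue

/-! In a surface every independent pair has finite degree. -/

open Module IntermediateField

noncomputable section

namespace Pool.Agent.Lib.CLF.FIN

variable {F L : Type} [Field F] [Field L] [Algebra F L]

theorem fin_of_le {A B : IntermediateField F L} (h : A ≤ B) (hA : FiniteDimensional A L) :
    FiniteDimensional B L := by
  rw [FiniteDimensional, ← Module.rank_lt_aleph0_iff] at hA ⊢
  rw [← relrank_mul_rank_top h] at hA
  refine lt_of_le_of_lt (Cardinal.le_mul_left ?_) hA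
  rw [relrank_eq_rank_of_le h]
  exact rank_pos.ne'

theorem trdeg_le {t s : L} (h : FiniteDimensional (adjoin F {t, s}) L) :
    Algebra.trdeg F L ≤ 2 := by
  have h1 : Algebra.IsAlgebraic (adjoin F {t, s}) L := Algebra.IsAlgebraic.of_finite _ _
  have h2 : Algebra.IsAlgebraic (Algebra.adjoin F {t, s}) L :=
    IntermediateField.isAlgebraic_adjoin_iff_top.1 h1
  refine (Algebra.IsAlgebraic.trdeg_le_cardinalMk F ({t, s} : Set L)).trans ?_
  refine Cardinal.mk_insert_le.trans ?_
  rw [Cardinal.mk_singleton, one_add_one_eq_two]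

theorem alg_of_ind {a b : L} (h2 : Algebra.trdeg F L ≤ 2) (h : AlgebraicIndependent F ![a, b]) :
    Algebra.IsAlgebraic (adjoin F {a, b}) L := by
  have hb : IsTranscendenceBasis F ![a, b] :=
    h.isTranscendenceBasis_of_trdeg_le_of_finite (by simpa using h2)
  have h3 := hb.isAlgebraic_field
  have h4 : Set.range ![a, b] = {a, b} := by simp [Set.pair_comm]
  rwa [h4] at h3

end Pool.Agent.Lib.CLF.FIN

namespace Pool.Agent.Lib.CLF

open FIN

theorem bFIN : St_FIN := by
  intro L _ _ t s a b hf h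
  have h1 := alg_of_ind (trdeg_le hf) h
  have h2 : FiniteDimensional (adjoin ℂ {a, b}) (adjoin (adjoin ℂ {a, b}) {t, s}) :=
    finiteDimensional_adjoin_pair (Algebra.IsAlgebraic.isAlgebraic t).isIntegral
      (Algebra.IsAlgebraic.isAlgebraic s).isIntegral
  have h3 : adjoin ℂ {t, s} ≤ (adjoin (adjoin ℂ {a, b}) {t, s}).restrictScalars ℂ :=
    adjoin_le_iff.2 (subset_adjoin (adjoin ℂ {a, b}) _)
  have h5 := fin_of_le h3 hf
  have h4 : FiniteDimensional (adjoin (adjoin ℂ {a, b}) {t, s}) L := h5
  exact Module.Finite.trans (adjoin (adjoin ℂ {a, b}) {t, s}) L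

end Pool.Agent.Lib.CLF
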