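import Pool.Agent.Lib.CLF.ABlue

/-! Row FR: the Friedrichs lemma on the cover. -/

open MeasureTheory Filter Topology Set Function
open scoped ContDiff ENNReal ComplexConjugate Manifold

noncomputable section

namespace Pool.Agent.Lib.CLF

namespace FR

lemma nsum {ι : Type} (s : Finset ι) (Φ : Am → ℂ) (ν : ι → Measure Am) :
    eLpNorm Φ 2 (∑ k ∈ s, ν k) ≤ ∑ k ∈ s, eLpNorm Φ 2 (ν k) := by
  classical
  induction s using Finset.induction_on with
  | empty => simp
  | insert a s ha ih =>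
    rw [Finset.sum_insert ha, Finset.sum_insert ha]
    refine le_trans ?_ (add_le_add le_rfl ih)
    simp only [eLpNorm_eq_lintegral_rpow_enorm_toReal two_ne_zero ENNReal.ofNat_ne_top,
      lintegral_add_measure]
    exact ENNReal.rpow_add_le_add_rpow _ _ (by norm_num) (by norm_num)

/-- A trivialisation over `V`. -/
def Tv (C : Cv) (V : Set B2) (c : Fin C.β → B2 → ℂ) : Prop :=
  ∀ w ∈ V, (Injective fun k => c k w) ∧
    (range fun k => c k w) = (range fun k => C.r k w) ∧ ∀ k, C.IsBr (w, c k w) (c k)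

variable {C : Cv} {V : Set B2} {c : Fin C.β → B2 → ℂ}

lemma Tv.con (h : Tv C V c) (k : Fin C.β) : ContinuousOn (c k) V :=
  fun w hw => ((h w hw).2.2 k).1.continuousAt.continuousWithinAt

lemma Tv.mem (h : Tv C V c) (hV : V ⊆ C.Ω) {w : B2} (hw : w ∈ V) (k : Fin C.β) :
    (w, c k w) ∈ C.S := ⟨hV hw, (h w hw).2.1 ▸ mem_range_self k⟩

lemma Tv.aem (h : Tv C V c) (hm : MeasurableSet V) (k : Fin C.β) :
    AEMeasurable (fun z => ((z, c k z) : Am)) (volume.restrict V) :=
  (continuousOn_id.prodMk (h.con k)).aemeasurable hm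

lemma Tv.loc (hI : St_INT) (h : Tv C V c) (hm : MeasurableSet V) (hV : V ⊆ C.Ω) :
    C.mu.restrict (Prod.fst ⁻¹' V) = ∑ k, (volume.restrict V).map fun z => (z, c k z) :=
  hI.loc C hm hV h.con fun w hw => ⟨(h w hw).1, (h w hw).2.1⟩

lemma Tv.le (hI : St_INT) (h : Tv C V c) (hm : MeasurableSet V) (hV : V ⊆ C.Ω) (k : Fin C.β) :
    ((volume.restrict V).map fun z => ((z, c k z) : Am)) ≤ C.mu.restrict (Prod.fst ⁻¹' V) := by
  rw [h.loc hI hm hV]
  exact Finset.single_le_sum (f := fun k => (volume.restrict V).map fun z => ((z, c k z) : Am))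
    (fun _ _ => bot_le) (Finset.mem_univ k)

/-- Norms are computed sheet by sheet. -/
lemma Tv.nrm (hI : St_INT) (h : Tv C V c) (hm : MeasurableSet V) (hV : V ⊆ C.Ω) {Φ : Am → ℂ}
    (hΦ : AEStronglyMeasurable Φ C.mu) (h0 : ∀ p ∈ C.S, p.1 ∉ V → Φ p = 0)
    {φ : Fin C.β → B2 → ℂ} (e : ∀ k, ∀ w ∈ V, Φ (w, c k w) = φ k w) :
    eLpNorm Φ 2 C.mu ≤ ∑ k, eLpNorm (φ k) 2 volume := by
  have hm' : MeasurableSet (Prod.fst ⁻¹' V : Set Am) := measurable_fst hm
  have e1 : Φ =ᵐ[C.mu] indicator (Prod.fst ⁻¹' V) Φ := (hI.ae C).mono fun p hp => by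
    by_cases hv : p.1 ∈ V
    · rw [indicator_of_mem (by exact hv)]
    · rw [indicator_of_notMem (by exact hv), h0 p hp hv]
  rw [eLpNorm_congr_ae e1, eLpNorm_indicator_eq_eLpNorm_restrict hm', h.loc hI hm hV]
  refine (nsum _ _ _).trans (Finset.sum_le_sum fun k _ => ?_)
  rw [eLpNorm_map_measure (hΦ.mono_measure ((h.le hI hm hV k).trans Measure.restrict_le_self))
    (h.aem hm k)]
  exact (eLpNorm_congr_ae (g := φ k) ((ae_restrict_mem hm).mono fun w hw => e k w hw)).trans_le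
    (eLpNorm_mono_measure _ Measure.restrict_le_self)

/-- Integrals of functions living on one sheet. -/
lemma Tv.int (hI : St_INT) (h : Tv C V c) (hm : MeasurableSet V) (hV : V ⊆ C.Ω) {Φ : Am → ℂ}
    (hΦ : Integrable Φ C.mu) (h0 : ∀ p ∈ C.S, p.1 ∉ V → Φ p = 0) (k : Fin C.β)
    {φ : B2 → ℂ} (e : ∀ k', ∀ w ∈ V, Φ (w, c k' w) = if k' = k then φ w else 0)
    (e0 : ∀ w, w ∉ V → φ w = 0) :
    ∫ p, Φ p ∂C.mu = (∫ w, φ w) ∧ Integrable φ := by
  have hm' : MeasurableSet (Prod.fst ⁻¹' V : Set Am) := measurable_fst hm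
  have i1 : ∀ k, Integrable Φ ((volume.restrict V).map fun z => ((z, c k z) : Am)) := fun k =>
    hΦ.mono_measure ((h.le hI hm hV k).trans Measure.restrict_le_self)
  constructor
  · rw [← setIntegral_eq_integral_of_ae_compl_eq_zero (s := Prod.fst ⁻¹' V)
      ((hI.ae C).mono fun p hp hv => h0 p hp hv), h.loc hI hm hV,
      integral_finsetSum_measure fun k _ => i1 k, Finset.sum_eq_single k,
      integral_map (h.aem hm k) (i1 k).1, setIntegral_congr_fun hm (g := φ) fun w hw => by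
        simpa using e k w hw, setIntegral_eq_integral_of_forall_compl_eq_zero e0]
    · intro k' _ hk
      rw [integral_map (h.aem hm k') (i1 k').1, setIntegral_congr_fun hm (g := fun _ => 0)
        fun w hw => by simpa [hk] using e k' w hw]
      simp
    · simp
  · have := ((i1 k).comp_aemeasurable (h.aem hm k)).congr (g := φ)
      ((ae_restrict_mem hm).mono fun w hw => by simpa using e k w hw)
    exact (integrableOn_iff_integrable_of_support_subset fun w hw =>
      by_contra fun hv => hw (e0 w hv)).1 this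

/-- Square integrability on one sheet. -/
lemma Tv.mlp (hI : St_INT) (h : Tv C V c) (hV : V ⊆ C.Ω) {f : Am → ℂ} (hf : C.Loc f)
    {θ : B2 → ℂ} (hθ : Continuous θ) {K : Set B2} (hK : IsCompact K) (hKV : K ⊆ V)
    (h0 : ∀ z, z ∉ K → θ z = 0) (k : Fin C.β) :
    MemLp (fun z => θ z * f (z, c k z)) 2 volume := by
  have h' : Tv C K c := fun w hw => h w (hKV hw)
  have hm := hK.measurableSet
  have m1 : MemLp (fun z => f (z, c k z)) 2 (volume.restrict K) :=
    ((hf.2 K hK (hKV.trans hV)).mono_measure (h'.le hI hm (hKV.trans hV) k)).comp_of_map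
      (h'.aem hm k)
  obtain ⟨M, hM⟩ := hK.exists_bound_of_continuousOn hθ.continuousOn
  have m2 : MemLp (fun z => θ z * f (z, c k z)) 2 (volume.restrict K) :=
    m1.of_le_mul (c := M) (hθ.aestronglyMeasurable.mul m1.1) ((ae_restrict_mem hm).mono
      fun z hz => by
        rw [norm_mul]
        exact mul_le_mul_of_nonneg_right (hM z hz) (norm_nonneg _))
  have := (memLp_indicator_iff_restrict hm).2 m2
  refine this.ae_eq (Eventually.of_forall fun z => ?_)
  by_cases hz : z ∈ K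
  · rw [indicator_of_mem hz]
  · simp only [indicator_of_notMem hz, h0 z hz, zero_mul]

/-- Approximation by test functions. -/
def Ap (C : Cv) (b : Bool) (U : Set B2) (R : Prop) (A B : Am → ℂ) : Prop :=
  AEStronglyMeasurable A C.mu ∧ AEStronglyMeasurable B C.mu ∧
    ∃ F : ℕ → Am → ℂ, (∀ j, C.Tst U (F j)) ∧
    Tendsto (fun j => eLpNorm (fun p => F j p - A p) 2 C.mu) atTop (𝓝 0) ∧
    Tendsto (fun j => eLpNorm (fun p => C.D b (F j) p - B p) 2 C.mu) atTop (𝓝 0) ∧
    (R → ∀ j p, (F j p).im = 0)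

lemma Ap.sum (hI : St_INT) (hC : St_CAL) {b U R} {ι : Type} (s : Finset ι) {A B : ι → Am → ℂ}
    (h : ∀ i, Ap C b U R (A i) (B i)) :
    Ap C b U R (fun p => ∑ i ∈ s, A i p) fun p => ∑ i ∈ s, B i p := by
  choose a1 a2 F t h1 h2 h3 using h
  have ts := fun j => hC.tsum C s (F := fun i => F i j) fun i _ => t i j
  have z : ∀ {u : ι → ℕ → ℝ≥0∞}, (∀ i, Tendsto (u i) atTop (𝓝 0)) →
      Tendsto (fun j => ∑ i ∈ s, u i j) atTop (𝓝 0) := fun hu => by
    simpa using tendsto_finsetSum s fun i _ => hu i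
  refine ⟨Finset.aestronglyMeasurable_fun_sum s fun i _ => a1 i,
    Finset.aestronglyMeasurable_fun_sum s fun i _ => a2 i, fun j p => ∑ i ∈ s, F i j p,
    fun j => (ts j).1,
    tendsto_of_tendsto_of_tendsto_of_le_of_le tendsto_const_nhds (z h1) (fun _ => bot_le)
      fun j => ?_,
    tendsto_of_tendsto_of_tendsto_of_le_of_le tendsto_const_nhds (z h2) (fun _ => bot_le)
      fun j => ?_, fun r j p => by simp [h3 _ r]⟩
  · refine le_trans (le_of_eq ?_) (eLpNorm_sum_le (f := fun i p => F i j p - A i p)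
      (fun i _ => ((hI.tst C (t i j)).2 2).1.sub (a1 i)) one_le_two)
    congr 1
    funext p
    simp
  · refine le_trans (le_of_eq ?_) (eLpNorm_sum_le (f := fun i p => C.D b (F i j) p - B i p)
      (fun i _ => ((hI.tst C (hC.tD C b (t i j)).1).2 2).1.sub (a2 i)) one_le_two)
    refine eLpNorm_congr_ae ((hI.ae C).mono fun p hp => ?_)
    simp [(ts j).2 b p hp]

lemma cxb {U : Set B2} {ζ : B2 → ℝ} (h : Bump U ζ) : Bump U (cx ζ) := by
  have e : tsupport (cx ζ) ⊆ tsupport ζ :=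
    closure_mono fun z hz h0 => hz (by simp [cx, h0])
  exact ⟨Complex.ofRealCLM.contDiff.comp h.1, h.2.1.of_isClosed_subset (isClosed_tsupport _) e,
    e.trans h.2.2⟩

lemma wd0 (hW : St_WIR) (b : Bool) {θ : B2 → ℂ} {z : B2} (hz : z ∉ tsupport θ) :
    wd b θ z = 0 := by
  rw [(hW.congr b (notMem_tsupport_iff_eventuallyEq.1 hz)).1]
  exact hW.cst b 0 z

lemma wdc (hW : St_WIR) (b : Bool) {θ : B2 → ℂ} (h : ContDiff ℝ ∞ θ) : Continuous (wd b θ) :=
  continuous_iff_continuousAt.2 fun _ => (hW.sm b h.contDiffAt).1.continuousAt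

/-- The lemma over a trivialising open set. -/
lemma one (h0 : St_FR0) (hS : St_SH) (hI : St_INT) (hC : St_CAL) (hW : St_WIR) {b U} {f h : Am → ℂ}
    (hf : C.Loc f) (hh : C.Loc h) (hw : C.WD b U f h) (hv : Tv C V c) (ho : IsOpen V)
    (hV : V ⊆ C.Ω ∩ U) {ζ : B2 → ℝ} (hζ : Bump V ζ) :
    Ap C b U (∀ p, (f p).im = 0) (fun p => ζ p.1 * f p)
      fun p => ζ p.1 * h p + wd b (cx ζ) p.1 * f p := by
  have hV1 : V ⊆ C.Ω := fun w hw => (hV hw).1
  have hm := ho.measurableSet
  have hz := cxb hζ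
  have zc := hz.1.continuous
  have dc := wdc hW b hz.1
  have z0 : ∀ z, z ∉ tsupport (cx ζ) → (ζ z : ℂ) = 0 := fun z hz =>
    image_eq_zero_of_notMem_tsupport (f := cx ζ) hz
  have a1 : AEStronglyMeasurable (fun p : Am => ζ p.1 * f p) C.mu :=
    (zc.comp continuous_fst).aestronglyMeasurable.mul hf.1
  have a2 : AEStronglyMeasurable (fun p : Am => ζ p.1 * h p + wd b (cx ζ) p.1 * f p) C.mu :=
    ((zc.comp continuous_fst).aestronglyMeasurable.mul hh.1).add
      ((dc.comp continuous_fst).aestronglyMeasurable.mul hf.1)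
  have key := fun k : Fin C.β => h0 b V (tsupport (cx ζ)) (fun z => ζ z * f (z, c k z))
    (fun z => ζ z * h (z, c k z) + wd b (cx ζ) z * f (z, c k z)) ho hz.2.1 hz.2.2
    (hv.mlp hI hV1 hf zc hz.2.1 hz.2.2 z0 k)
    ((hv.mlp hI hV1 hh zc hz.2.1 hz.2.2 z0 k).add
      (hv.mlp hI hV1 hf dc hz.2.1 hz.2.2 (fun z => wd0 hW b) k))
    (fun z hz => by simp [z0 z hz, wd0 hW b hz]) fun χ hχ => by
      have e : tsupport (fun z => cx ζ z * χ z) ⊆ tsupport (cx ζ) := tsupport_mul_subset_left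
      obtain ⟨G, g1, -, g3, g4⟩ := hS C V U c k (fun z => cx ζ z * χ z) ho hV hv
        ⟨hz.1.mul hχ.1, hz.2.1.mul_right, e.trans hz.2.2⟩
      have o : ∀ w, w ∉ V → w ∉ tsupport (cx ζ) := fun w hw h' => hw (hz.2.2 h')
      have j1 := hv.int hI hm hV1 (hI.mul C hf hf (hC.tD C b g1).1).1
        (fun p hp hv => by rw [(g4 p hp hv).2, mul_zero]) k
        (φ := fun w => f (w, c k w) * (wd b (cx ζ) w * χ w + ζ w * wd b χ w))
        (fun k' w hw => by
          rw [(g3 w hw k').2]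
          split_ifs with e
          · rw [e, hW.mul b (hz.1.differentiable (by simp) w) (hχ.1.differentiable (by simp) w)]
            rfl
          · simp) fun w hw => by simp [z0 w (o w hw), wd0 hW b (o w hw)]
      have j2 := hv.int hI hm hV1 (hI.mul C hh hh g1).1
        (fun p hp hv => by rw [(g4 p hp hv).1, mul_zero]) k
        (φ := fun w => h (w, c k w) * (ζ w * χ w))
        (fun k' w hw => by
          rw [(g3 w hw k').1]
          split_ifs with e
          · rw [e]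
            rfl
          · simp) fun w hw => by simp [z0 w (o w hw)]
      have j3 : Integrable fun w => wd b (cx ζ) w * f (w, c k w) * χ w :=
        (hv.mlp hI hV1 hf dc hz.2.1 hz.2.2 (fun z => wd0 hW b) k).integrable_mul
          (hχ.1.continuous.memLp_of_hasCompactSupport (p := 2) hχ.2.1)
      have j4 := hw G g1
      rw [j1.1, j2.1] at j4
      calc _ = ∫ w, (f (w, c k w) * (wd b (cx ζ) w * χ w + ζ w * wd b χ w) -
            wd b (cx ζ) w * f (w, c k w) * χ w) := by congr 1; funext w; ring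
        _ = -∫ w, (h (w, c k w) * (ζ w * χ w) + wd b (cx ζ) w * f (w, c k w) * χ w) := by
          rw [integral_sub j1.2 j3, integral_add j2.2 j3, j4]
          ring
        _ = _ := by congr 2; funext w; ring
  choose F f1 f2 f3 f4 using key
  choose G g1 g2 g3 g4 using fun k j => hS C V U c k (F k j) ho hV hv (f1 k j)
  have ts := fun j => hC.tsum C Finset.univ (F := fun k => G k j) fun k _ => g1 k j
  have z : ∀ {u : Fin C.β → ℕ → ℝ≥0∞}, (∀ i, Tendsto (u i) atTop (𝓝 0)) →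
      Tendsto (fun j => ∑ i, u i j) atTop (𝓝 0) := fun hu => by
    simpa using tendsto_finsetSum Finset.univ fun i _ => hu i
  have o : ∀ w, w ∉ V → w ∉ tsupport (cx ζ) := fun w hw h' => hw (hz.2.2 h')
  refine ⟨a1, a2, fun j p => ∑ k, G k j p, fun j => (ts j).1,
    tendsto_of_tendsto_of_tendsto_of_le_of_le tendsto_const_nhds (z f2) (fun _ => bot_le)
      fun j => hv.nrm hI hm hV1 (((hI.tst C (ts j).1).2 2).1.sub a1) (fun p hp hv => ?_)
        fun k w hw => ?_,
    tendsto_of_tendsto_of_tendsto_of_le_of_le tendsto_const_nhds (z f3) (fun _ => bot_le)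
      fun j => hv.nrm hI hm hV1 (((hI.tst C (hC.tD C b (ts j).1).1).2 2).1.sub a2)
        (fun p hp hv => ?_) fun k w hw => ?_, fun r j p => ?_⟩
  · simp [fun k => (g4 k j p hp hv).1, z0 _ (o _ hv)]
  · simp [fun k' => (g3 k' j w hw k).1]
  · simp [(ts j).2 b p hp, fun k => (g4 k j p hp hv).2, z0 _ (o _ hv), wd0 hW b (o _ hv)]
  · simp [(ts j).2 b _ (hv.mem hV1 hw k), fun k' => (g3 k' j w hw k).2]
  · rw [Complex.im_sum]
    refine Finset.sum_eq_zero fun k _ => ?_
    rcases g2 k j p with e | e <;> rw [e]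
    · exact f4 k (fun z => by simp [r]) j _
    · rfl

end FR

open FR in
theorem bFR (h0 : St_FR0) (hS : St_SH) (hB : St_BR) (hI : St_INT) (hC : St_CAL) (hW : St_WIR) :
    St_FR := by
  intro C b U f h ζ hU hf hh hw hζ
  have loc : ∀ z : tsupport ζ, ∃ (V : Set B2) (c : Fin C.β → B2 → ℂ), IsOpen V ∧ z.1 ∈ V ∧
      V ⊆ C.Ω ∩ U ∧ Tv C V c := fun z => by
    obtain ⟨ε, c, e0, h1, h2⟩ := hB.triv C (hζ.2.2 z.2).1
    exact ⟨Metric.ball z ε ∩ U, c, Metric.isOpen_ball.inter hU,
      ⟨Metric.mem_ball_self e0, (hζ.2.2 z.2).2⟩, inter_subset_inter_left _ h1,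
      fun w hw => h2 w hw.1⟩
  choose V c o m s t using loc
  obtain ⟨T, hT⟩ := hζ.2.1.isCompact.elim_finite_subcover V o fun z hz =>
    mem_iUnion.2 ⟨⟨z, hz⟩, m _⟩
  obtain ⟨ρ, hρ⟩ := SmoothPartitionOfUnity.exists_isSubordinate 𝓘(ℝ, B2) (isClosed_tsupport ζ)
    (fun i : T => V i) (fun i => o i) (fun z hz => by
      obtain ⟨i, hi, h⟩ := mem_iUnion₂.1 (hT hz)
      exact mem_iUnion.2 ⟨⟨i, hi⟩, h⟩)
  have bi : ∀ i : T, Bump (V i) fun z => ρ i z * ζ z := fun i =>
    ⟨(ρ i).contMDiff.contDiff.mul hζ.1, hζ.2.1.mul_left, tsupport_mul_subset_left.trans (hρ i)⟩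
  have e : ∀ z, ∑ i, ρ i z * ζ z = ζ z := fun z => by
    by_cases hz : z ∈ tsupport ζ
    · rw [← Finset.sum_mul, ← finsum_eq_sum_of_fintype, ρ.sum_eq_one hz, one_mul]
    · simp [image_eq_zero_of_notMem_tsupport hz]
  have e' : ∀ z, ∑ i, wd b (cx fun z => ρ i z * ζ z) z = wd b (cx ζ) z := fun z => by
    have : cx ζ = fun z => ∑ i, cx (fun z => ρ i z * ζ z) z := by
      funext z
      simp only [cx]
      rw [← Complex.ofReal_sum, e]
    rw [this]
    simp only [wd]
    rw [fderiv_fun_sum fun i _ => (cxb (bi i)).1.differentiable (by simp) z]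
    simp only [ContinuousLinearMap.sum_apply, Finset.mul_sum, ← Finset.sum_sub_distrib,
      Finset.sum_div]
  obtain ⟨-, -, F, H⟩ := Ap.sum hI hC Finset.univ fun i : T =>
    one h0 hS hI hC hW hf hh hw (t i) (o i) (s i) (bi i)
  refine ⟨F, ?_⟩
  simpa only [Finset.sum_add_distrib, ← Finset.sum_mul, ← Complex.ofReal_sum, e, e'] using H

end Pool.Agent.Lib.CLF
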