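import Pool.Agent.Lib.CLF.B_MOL

/-! The flat Friedrichs lemma. -/

open MeasureTheory Filter Topology Set Function Metric
open scoped ContDiff ENNReal ComplexConjugate Convolution

noncomputable section

namespace Pool.Agent.Lib.CLF

namespace FR0

attribute [local instance] MOL.haar

/-- Convolution. -/
def cn (f k : B2 → ℂ) (z : B2) : ℂ := ∫ y, f y * k (z - y)

variable {f k : B2 → ℂ}

theorem cd_cn (hf : LocallyIntegrable f) (hc : HasCompactSupport k) (hk : ContDiff ℝ ∞ k) :
    ContDiff ℝ ∞ (cn f k) :=
  hc.contDiff_convolution_right (n := ⊤) (ContinuousLinearMap.mul ℝ ℂ) hf hk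

theorem wd_cn (hf : LocallyIntegrable f) (hc : HasCompactSupport k) (hk : ContDiff ℝ 1 k)
    (b : Bool) (z : B2) : wd b (cn f k) z = cn f (wd b k) z := by
  have e : ∀ v, fderiv ℝ (cn f k) z v = ∫ y, f y * fderiv ℝ k (z - y) v := fun v =>
    (congrArg (· v) (hc.hasFDerivAt_convolution_right (ContinuousLinearMap.mul ℝ ℂ) hf hk
      z).fderiv).trans (convolution_precompR_apply (ContinuousLinearMap.mul ℝ ℂ) hf (hc.fderiv ℝ)
        (hk.continuous_fderiv one_ne_zero) z v)
  have i : ∀ v, Integrable fun y => f y * fderiv ℝ k (z - y) v := fun v =>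
    (hc.fderiv_apply ℝ v).convolutionExists_right (ContinuousLinearMap.mul ℝ ℂ) hf
      ((hk.continuous_fderiv one_ne_zero).clm_apply continuous_const) z
  rw [wd, e, e, ← integral_const_mul, ← integral_sub (i _) ((i _).const_mul _), ← integral_div, cn]
  refine integral_congr_ae (.of_forall fun y => ?_)
  simp only [wd]
  ring

theorem wd_sub (hk : Differentiable ℝ k) (b : Bool) (z y : B2) :
    wd b (fun y => k (z - y)) y = -wd b k (z - y) := by
  have h := ((hk (z - y)).hasFDerivAt.comp y ((hasFDerivAt_id y).const_sub z)).fderiv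
  simp only [wd]
  rw [show (fun y => k (z - y)) = k ∘ HSub.hSub z from rfl, h]
  simp
  ring

theorem cn_zero {K : Set B2} {δ : ℝ} {z : B2} (hf : ∀ y ∉ K, f y = 0)
    (hk : ∀ y ∉ closedBall 0 δ, k y = 0) (hz : z ∉ cthickening δ K) : cn f k z = 0 := by
  refine integral_eq_zero_of_ae (.of_forall fun y => ?_)
  by_cases hy : y ∈ K
  · simp only [hk (z - y) fun h => hz (mem_cthickening_of_dist_le z y δ K hy
      (by simpa [dist_eq_norm] using h)), mul_zero, Pi.zero_apply]
  · simp only [hf y hy, zero_mul, Pi.zero_apply]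

end FR0

open FR0 in
theorem bFR0 (hM : St_MOL) : St_FR0 := by
  have := MOL.haar
  intro b V K f h hV hK hKV hf hh h0 hw
  obtain ⟨ε, ε0, hε⟩ := hK.exists_cthickening_subset_open hV hKV
  obtain ⟨δ, rfl⟩ : ∃ δ, ε = δ + δ := ⟨ε / 2, by ring⟩
  have d0 : 0 < δ := by linarith
  have r0 : ∀ j : ℕ, 0 < δ * (1 / (j + 1)) := fun j => by positivity
  let φ : ℕ → ContDiffBump (0 : B2) := fun j =>
    ⟨δ * (1 / (j + 1)) / 2, δ * (1 / (j + 1)), half_pos (r0 j), half_lt_self (r0 j)⟩
  have t : Tendsto (fun j => (φ j).rOut) atTop (𝓝 0) := by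
    simpa [φ] using tendsto_one_div_add_atTop_nhds_zero_nat.const_mul δ
  let k : ℕ → B2 → ℂ := fun j => cx ((φ j).normed volume)
  have ck : ∀ j, ContDiff ℝ ∞ (k j) := fun j =>
    Complex.ofRealCLM.contDiff.comp (φ j).contDiff_normed
  have tk : ∀ j, tsupport (k j) ⊆ closedBall 0 δ := fun j => by
    refine (tsupport_comp_subset (g := Complex.ofReal) Complex.ofReal_zero _).trans ?_
    rw [(φ j).tsupport_normed_eq]
    exact closedBall_subset_closedBall (mul_le_of_le_one_right d0.le
      ((div_le_one (by positivity)).2 (by simp)))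
  have sk : ∀ j, HasCompactSupport (k j) := fun j =>
    (isCompact_closedBall 0 δ).of_isClosed_subset (isClosed_tsupport _) (tk j)
  have zk : ∀ j, ∀ y ∉ closedBall (0 : B2) δ, k j y = 0 := fun j y hy =>
    image_eq_zero_of_notMem_tsupport fun h => hy (tk j h)
  have lf := hf.locallyIntegrable one_le_two
  have e : ∀ (g : B2 → ℂ) j z, cn g (k j) z = ∫ y, (φ j).normed volume (z - y) • g y :=
    fun g j z => integral_congr_ae (.of_forall fun y => by simp [k, cx, mul_comm])
  have tF : ∀ j, tsupport (cn f (k j)) ⊆ cthickening δ K := fun j =>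
    closure_minimal (fun z hz => by_contra fun hn =>
      hz (cn_zero (fun y hy => (h0 y hy).1) (zk j) hn)) isClosed_cthickening
  have eD : ∀ j z, wd b (cn f (k j)) z = cn h (k j) z := fun j z => by
    rw [wd_cn lf (sk j) ((ck j).of_le (by simp))]
    by_cases hz : z ∈ cthickening δ K
    · have tχ : tsupport (fun y => k j (z - y)) ⊆ closedBall z δ :=
        closure_minimal (fun y hy => by_contra fun hn => hy (zk j _ fun h => hn (by
          rw [mem_closedBall_zero_iff] at h
          rwa [mem_closedBall', dist_eq_norm]))) isClosed_closedBall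
      have := hw (fun y => k j (z - y)) ⟨(ck j).comp (contDiff_const.sub contDiff_id),
        (isCompact_closedBall z δ).of_isClosed_subset (isClosed_tsupport _) tχ,
        tχ.trans (((closedBall_subset_cthickening hz δ).trans
          (cthickening_cthickening_subset d0.le d0.le K)).trans hε)⟩
      simp only [wd_sub ((ck j).differentiable (by simp)), mul_neg, integral_neg, neg_inj] at this
      exact this
    · rw [cn_zero (fun y hy => (h0 y hy).2) (zk j) hz]
      refine cn_zero (fun y hy => (h0 y hy).1) (fun y hy => ?_) hz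
      have : fderiv ℝ (k j) y = 0 :=
        notMem_support.1 fun h => hy (tk j (support_fderiv_subset ℝ h))
      simp [wd, this]
  refine ⟨fun j => cn f (k j), fun j => ⟨cd_cn lf (sk j) (ck j),
    hK.cthickening.of_isClosed_subset (isClosed_tsupport _) (tF j),
    (tF j).trans ((cthickening_mono (by linarith) K).trans hε)⟩, ?_, ?_, fun hr j z => ?_⟩
  · exact (hM φ f t hf).congr fun j => by
      congr 1
      funext z
      simp only [Pi.sub_apply, e]
  · exact (hM φ h t hh).congr fun j => by
      congr 1
      funext z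
      simp only [Pi.sub_apply, eD, e]
  · have : cn f (k j) z = ∫ y, (((f y).re * (φ j).normed volume (z - y) : ℝ) : ℂ) :=
      integral_congr_ae (.of_forall fun y => by
        have : f y = (f y).re := Complex.ext rfl (hr y)
        simp only [k, cx, Complex.ofReal_mul, ← this])
    simp only [this, integral_complex_ofReal, Complex.ofReal_im]

end Pool.Agent.Lib.CLF
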