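import Pool.Agent.Lib.CLF.ABlue

/-! Difference quotients of a function of finite energy along the lift. -/

open MeasureTheory Filter Topology Set Function
open scoped ContDiff ENNReal ComplexConjugate

noncomputable section

namespace Pool.Agent.Lib.CLF

namespace GD

lemma sq2 {α : Type} [MeasurableSpace α] {E : Type} [NormedAddCommGroup E] (f : α → E) (μ : Measure α) :
    eLpNorm f 2 μ ^ 2 = ∫⁻ x, ENNReal.ofReal (‖f x‖ ^ 2) ∂μ := by
  have := eLpNorm_nnreal_pow_eq_lintegral (f := f) (μ := μ) (p := 2) two_ne_zero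
  simp only [ENNReal.coe_ofNat, NNReal.coe_ofNat, ENNReal.rpow_two] at this
  simp only [this, ENNReal.ofReal_pow (norm_nonneg _), ofReal_norm]

lemma cs {B : ℝ → ℝ} {l : ℝ} (l0 : 0 < l) (cB : ContinuousOn B (Icc 0 l)) :
    (∫ t in (0 : ℝ)..l, B t) ^ 2 ≤ l * ∫ t in (0 : ℝ)..l, B t ^ 2 := by
  rw [← uIcc_of_le l0.le] at cB
  have i1 : IntervalIntegrable B volume 0 l := cB.intervalIntegrable
  have i2 : IntervalIntegrable (fun t => B t ^ 2) volume 0 l := (cB.pow 2).intervalIntegrable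
  generalize hI : ∫ t in (0 : ℝ)..l, B t = I
  have h := intervalIntegral.integral_mono_on l0.le ((i1.const_mul (2 * l * I)).sub
    (intervalIntegrable_const (c := I ^ 2))) (i2.const_mul (l ^ 2))
    fun t _ => by nlinarith [sq_nonneg (l * B t - I)]
  rw [intervalIntegral.integral_sub (i1.const_mul _) intervalIntegrable_const,
    intervalIntegral.integral_const_mul, intervalIntegral.integral_const_mul,
    intervalIntegral.integral_const, hI, sub_zero, smul_eq_mul] at h
  exact le_of_mul_le_mul_left (by linarith) l0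

end GD

open GD in
theorem bGD (hL : St_LB) (hT : St_TR1) (hR : St_TRL) (hM : St_WM) (hW : St_WIR) (hC : St_CAL)
    (hI : St_INT) (hB : St_BR) : St_GD := by
  intro C U a e m L x g x0 ⟨⟨hg, _⟩, hD⟩
  obtain ⟨c, c0, hc⟩ := hT C U a e m L x x0
  set H : Am → ℝ := fun p => 2 * m.M * (‖C.D true (cx g) p‖ + ‖C.D false (cx g) p‖) with hH
  have M0 := m.nn
  have hH' : ∀ p, H p = 2 * m.M * (‖C.D true (cx g) p‖ + ‖C.D false (cx g) p‖) := fun _ => rfl
  have cH : ContinuousOn H C.S := continuousOn_const.mul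
    ((hB.cont C (hC.smD C true hg).1).norm.add (hB.cont C (hC.smD C false hg).1).norm)
  have := (hM.fin C x0).1
  have ac := hM.ac C true x0
  have mH : MemLp (cx H) 2 (C.mn x) := (((((hM.loc C true x0).2 (hD true)).2.norm.add
    ((hM.loc C false x0).2 (hD false)).2.norm).const_mul (2 * m.M))).ofReal
  clear_value H
  have aS : ∀ᵐ p ∂C.mn x, p ∈ C.S := ac.1.ae_le (hI.ae C)
  have N0 : 2 * eLpNorm (cx H) 2 (C.mn x) ≠ ⊤ := ENNReal.mul_ne_top (by simp) mH.2.ne
  refine ⟨(2 * eLpNorm (cx H) 2 (C.mn x)).toReal, ?_⟩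
  have ev : ∀ᶠ l in 𝓝[>] (0 : ℝ), c * l < 1 / 2 := nhdsWithin_le_nhds
    ((continuous_const.mul continuous_id).continuousAt.eventually_lt continuousAt_const (by simp))
  filter_upwards [Ioo_mem_nhdsGT m.pos, ev] with l hl hcl
  have sub : Icc 0 l ⊆ Icc 0 m.l0 := Icc_subset_Icc_right hl.2.le
  have cT : ContinuousOn (fun q : Am × ℝ => H (L.τ q.2 q.1)) (C.S ×ˢ Icc 0 m.l0) :=
    cH.comp (L.cont.comp continuous_swap.continuousOn fun q hq => ⟨hq.2, hq.1⟩)
      fun q hq => L.maps _ hq.2 hq.1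
  have pt : ∀ p ∈ C.S, ENNReal.ofReal (‖g (L.τ l p) - g p‖ ^ 2) ≤
      ENNReal.ofReal l * ∫⁻ t in Ioc 0 l, ENNReal.ofReal (H (L.τ t p) ^ 2) := fun p hp => by
    have cB : ContinuousOn (fun t => H (L.τ t p)) (Icc 0 l) :=
      cT.comp (f := fun t => (p, t)) (by fun_prop) fun t ht => ⟨hp, sub ht⟩
    have hd := fun t ht => hL.path C L t ht p hp (cx g) hg
    have hd' := fun t (ht : t ∈ Ioo 0 l) => (hd t (sub (Ioo_subset_Icc_self ht))).hasDerivAt
      (Icc_mem_nhds ht.1 (ht.2.trans hl.2))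
    have b1 := norm_sub_le_integral_of_norm_deriv_le_of_le (B := fun t => H (L.τ t p)) hl.1.le
      (fun t ht => (hd t (sub ht)).continuousWithinAt.mono sub)
      (fun t ht => (hd' t ht).differentiableAt.differentiableWithinAt)
      (Eventually.of_forall fun t ht => ?_) (uIcc_of_le hl.1.le ▸ cB).intervalIntegrable
    · rw [L.zero p hp, cx, cx, ← Complex.ofReal_sub, Complex.norm_real] at b1
      have i2 : IntegrableOn (fun t => H (L.τ t p) ^ 2) (Ioc 0 l) :=
        (cB.pow 2).integrableOn_Icc.mono_set Ioc_subset_Icc_self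
      rw [← ofReal_integral_eq_lintegral_ofReal i2 (Eventually.of_forall fun t => sq_nonneg _),
        ← ENNReal.ofReal_mul hl.1.le, ← intervalIntegral.integral_of_le hl.1.le]
      exact ENNReal.ofReal_le_ofReal ((pow_le_pow_left₀ (norm_nonneg _) b1 2).trans (cs hl.1 cB))
    · have hv := m.dl t (sub (Ioo_subset_Icc_self ht)) p.1
      rw [(hd' t ht).deriv, hW.fd]
      generalize deriv (fun l => m.Ψ l p.1) t = v at hv
      have v1 := (norm_fst_le v).trans hv
      have v2 := (norm_snd_le v).trans hv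
      have r1 : wb true (C.dn (cx g) (L.τ t p)) (L.τ t p).1 = _ := hC.real C true g (L.τ t p)
      have r2 : wb false (C.dn (cx g) (L.τ t p)) (L.τ t p).1 = _ := hC.real C false g (L.τ t p)
      rw [r1, r2]
      refine ((norm_add_le _ _).trans (add_le_add norm_add₃_le le_rfl)).trans ?_
      simp only [norm_mul, Complex.norm_conj, hH', Cv.D]
      nlinarith [mul_le_mul_of_nonneg_right v1 (norm_nonneg (wd true (C.dn (cx g) (L.τ t p)) (L.τ t p).1)),
        mul_le_mul_of_nonneg_right v2 (norm_nonneg (wd false (C.dn (cx g) (L.τ t p)) (L.τ t p).1))]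
  have jm : AEMeasurable (uncurry fun (p : Am) (t : ℝ) => ENNReal.ofReal (H (L.τ t p) ^ 2))
      ((C.mn x).prod (volume.restrict (Ioc 0 l))) := by
    rw [← Measure.restrict_eq_self_of_ae_mem aS, Measure.prod_restrict]
    exact (((cT.mono (prod_mono_right (Ioc_subset_Icc_self.trans sub))).pow 2).aemeasurable
      ((hB.meas C).prod measurableSet_Ioc)).ennreal_ofReal
  rw [← ENNReal.pow_le_pow_left_iff two_ne_zero, sq2, ENNReal.ofReal_mul ENNReal.toReal_nonneg,
    ENNReal.ofReal_toReal N0]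
  refine (lintegral_mono_ae (aS.mono pt)).trans ?_
  rw [lintegral_const_mul' _ _ ENNReal.ofReal_ne_top, lintegral_lintegral_swap jm]
  have b2 : ∫⁻ t in Ioc 0 l, ∫⁻ p, ENNReal.ofReal (H (L.τ t p) ^ 2) ∂C.mn x ≤
      ∫⁻ _ in Ioc 0 l, (2 * eLpNorm (cx H) 2 (C.mn x)) ^ 2 :=
    setLIntegral_mono' measurableSet_Ioc fun t ht => by
      have := (hR.nrm (hc t (sub (Ioc_subset_Icc_self ht))).2.1
        ((mul_le_mul_of_nonneg_left ht.2 c0).trans hcl.le) mH.1).2.1
      rw [← ENNReal.pow_le_pow_left_iff two_ne_zero, sq2] at this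
      simpa only [cx, Complex.norm_real, Real.norm_eq_abs, sq_abs] using this
  refine (mul_le_mul_right b2 _).trans_eq ?_
  rw [setLIntegral_const, Real.volume_Ioc, sub_zero]
  ring

end Pool.Agent.Lib.CLF
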