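import Pool.Agent.Lib.CLF.ABlue

/-! Row GLO: from the local energy inequalities to the global one. -/

open MeasureTheory Filter Topology Set Function
open scoped ContDiff ENNReal ComplexConjugate

noncomputable section

namespace Pool.Agent.Lib.CLF

namespace GLO

theorem lsq {α : Type} [MeasurableSpace α] {ν : Measure α} {f : α → ℂ} (h : MemLp f 2 ν) :
    Integrable (fun p => ‖f p‖ ^ 2) ν ∧
      ∫⁻ p, ‖f p‖ₑ ^ (2 : ℝ) ∂ν = ENNReal.ofReal (∫ p, ‖f p‖ ^ 2 ∂ν) := by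
  have i := (memLp_two_iff_integrable_sq_norm h.1).1 h
  refine ⟨i, ?_⟩
  rw [ofReal_integral_eq_lintegral_ofReal i (ae_of_all _ fun p => by positivity)]
  refine lintegral_congr fun p => ?_
  rw [ENNReal.rpow_two, ENNReal.ofReal_pow (norm_nonneg _), ofReal_norm]

theorem grad (hI : St_INT) (hM : St_WM) (C : Cv) {l η : ℝ} (hl : 0 < l) (hη : 0 ≤ η) {h : ℂ → ℝ}
    (hc : Continuous h) (h0 : ∀ z, 0 ≤ h z) (hb : ∫⁻ z, ENNReal.ofReal (h z) ≤ ENNReal.ofReal η) :
    Integrable (fun p : Am => h p.1.1) (C.mo l true) ∧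
      ∫ p, h p.1.1 ∂C.mo l true ≤ C.β * (η * (l * Real.pi)) := by
  obtain ⟨-, rs, ri⟩ := hM.pos hl
  have rc := rs.continuous
  have m1 : Measurable fun z => ENNReal.ofReal (h z) := hc.measurable.ennreal_ofReal
  have m2 : Measurable fun z => ENNReal.ofReal (rho l z) := rc.measurable.ennreal_ofReal
  have m3 : Measurable fun z : B2 => ENNReal.ofReal (h z.1) * ENNReal.ofReal (rho l z.2) :=
    (m1.comp measurable_fst).mul (m2.comp measurable_snd)
  have key : ∫⁻ p, ENNReal.ofReal (h p.1.1) ∂C.mo l true ≤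
      ENNReal.ofReal (C.β * (η * (l * Real.pi))) := by
    calc _ = ∫⁻ p, ENNReal.ofReal (h p.1.1) * ENNReal.ofReal (rho l p.1.2) ∂C.mu := by
          rw [Cv.mo, lintegral_withDensity_eq_lintegral_mul _
            (f := fun p : Am => ENNReal.ofReal (rho l (ot true p.1)))
            (m2.comp (measurable_snd.comp measurable_fst))
            (g := fun p : Am => ENNReal.ofReal (h p.1.1))
            (m1.comp (measurable_fst.comp measurable_fst))]
          exact lintegral_congr fun p => mul_comm (ENNReal.ofReal (rho l p.1.2)) _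
      _ = ∫⁻ z, ENNReal.ofReal (h z.1) * ENNReal.ofReal (rho l z.2) ∂C.mu.map Prod.fst :=
          (lintegral_map m3 measurable_fst).symm
      _ ≤ C.β * ∫⁻ z : B2, ENNReal.ofReal (h z.1) * ENNReal.ofReal (rho l z.2) := by
          rw [hI.map, lintegral_smul_measure, nsmul_eq_mul]
          gcongr
          exact Measure.restrict_le_self
      _ ≤ C.β * (ENNReal.ofReal η * ENNReal.ofReal (l * Real.pi)) := by
          rw [Measure.volume_eq_prod, lintegral_prod_mul m1.aemeasurable m2.aemeasurable, ri]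
          gcongr
      _ = _ := by
          rw [ENNReal.ofReal_mul (Nat.cast_nonneg _), ENNReal.ofReal_mul hη, ENNReal.ofReal_natCast]
  have ms : AEStronglyMeasurable (fun p : Am => h p.1.1) (C.mo l true) :=
    (hc.comp (continuous_fst.comp continuous_fst)).aestronglyMeasurable
  have := Real.pi_pos
  refine ⟨⟨ms, (hasFiniteIntegral_iff_ofReal (ae_of_all _ fun p => h0 _)).2
    (key.trans_lt ENNReal.ofReal_lt_top)⟩, ?_⟩
  rw [integral_eq_lintegral_of_nonneg_ae (ae_of_all _ fun p => h0 _) ms]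
  exact ENNReal.toReal_le_of_le_ofReal (by positivity) key

theorem dsq (hW : St_WIR) {θ : ℂ → ℝ} (hθ : ContDiff ℝ ∞ θ) (z : B2) :
    ‖wd true (fun z => ((θ z.1 ^ 2 : ℝ) : ℂ)) z‖ ≤ 2 * |θ z.1| * ‖fderiv ℝ θ z.1‖ := by
  have d := hθ.differentiable (by simp) z.1
  have a := hW.compH true (θ := fun t => θ t ^ 2) (f := Prod.fst) (z := z) differentiableAt_fst
    (d.pow 2)
  rw [(hW.hol true differentiableAt_fst).2, fderiv_fst, (d.hasFDerivAt.pow 2).fderiv] at a
  refine a.trans_eq ?_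
  simp [ev, norm_smul]

theorem amgm {t a x G M N ε : ℝ} (hε : 0 < ε) (t0 : 0 ≤ t) (t1 : t ≤ 1) (y0 : 0 ≤ G) :
    2 * t * a * (M * x + G * N) ≤ 2 * (ε * (t ^ 2 * x ^ 2 + G ^ 2) + (M ^ 2 + N ^ 2) / ε * a ^ 2) := by
  have e : (M ^ 2 + N ^ 2) / ε * a ^ 2 = ε * ((M * a / ε) ^ 2 + (N * a / ε) ^ 2) := by
    field_simp
  have e1 : t * a * (M * x) = ε * (t * x * (M * a / ε)) := by field_simp
  have e2 : t * a * (G * N) = ε * (t * G * (N * a / ε)) := by field_simp
  have b1 : t * x * (M * a / ε) ≤ t ^ 2 * x ^ 2 + (M * a / ε) ^ 2 := by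
    nlinarith [sq_nonneg (t * x - M * a / ε), sq_nonneg (t * x), sq_nonneg (M * a / ε)]
  have b3 : (t * G) ^ 2 ≤ G ^ 2 := by
    have : t * G ≤ G := mul_le_of_le_one_left y0 t1
    have : 0 ≤ t * G := mul_nonneg t0 y0
    gcongr
  have b2 : t * G * (N * a / ε) ≤ G ^ 2 + (N * a / ε) ^ 2 := by
    nlinarith [sq_nonneg (t * G - N * a / ε), sq_nonneg (t * G), sq_nonneg (N * a / ε)]
  have := mul_le_mul_of_nonneg_left (add_le_add b1 b2) hε.le
  rw [e]
  nlinarith

end GLO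

open GLO in
theorem bGLO (hT : St_TC) (hW : St_WIR) (hI : St_INT) (hM : St_WM) : St_GLO := by
  intro C l M g u w hl hB hg _ hu _ hw hK
  set m := C.mo l true with hm
  set G := C.D true (cx g)
  obtain ⟨⟨-, N, hN⟩, hG⟩ := hg
  obtain ⟨iG, eG⟩ := lsq (ν := m) (f := G) (hG true)
  have ac : m ≪ C.mu := (hM.ac C true hl).2.2.1
  have aS : ∀ᵐ p ∂m, p ∈ C.S := ac.ae_le (hI.ae C)
  have aU : ∀ᵐ p ∂m, |u p| ≤ M := ac.ae_le hu
  have ms {K : Set ℂ} (h : IsCompact K) : MeasurableSet {p : Am | p.1.1 ∈ K} :=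
    (h.isClosed.preimage (continuous_fst.comp continuous_fst)).measurableSet
  have step (K) (cK : IsCompact K) (sK : K ⊆ Prod.fst '' C.Ω) (ε η : ℝ) (hε : 0 < ε)
      (h2 : ε < 1 / 2) (hη : 0 < η) : (1 / 2 - ε) * ∫ p in {p | p.1.1 ∈ K}, ‖w p‖ ^ 2 ∂m ≤
        (1 / 2 + ε) * ∫ p, ‖G p‖ ^ 2 ∂m + (N ^ 2 + M ^ 2) / ε * (C.β * (η * (l * Real.pi))) := by
    obtain ⟨θ, ⟨b1, b2, b3⟩, b4, b5, b6⟩ := hT _ K η hB cK (by rwa [compl_compl]) hη
    rw [compl_compl] at b3
    have cθ := b1.continuous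
    have st : tsupport (fun z => θ z ^ 2) ⊆ tsupport θ :=
      closure_mono fun z hz => fun e => hz (by simp [e])
    have k := hK (fun z => θ z ^ 2) ⟨b1.pow 2, b2.of_isClosed_subset isClosed_closure st,
      st.trans b3⟩ fun z => sq_nonneg _
    obtain ⟨iD, bD⟩ := grad hI hM C hl hη.le (h := fun z => ‖fderiv ℝ θ z‖ ^ 2)
      ((b1.continuous_fderiv (by simp)).norm.pow 2) (fun z => sq_nonneg _) (le_trans
        (lintegral_congr fun z => by
          rw [ENNReal.ofReal_pow (norm_nonneg _), ofReal_norm]).le b6)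
    have t1 (z) : θ z ^ 2 ≤ 1 := pow_le_one₀ (b4 z).1 (b4 z).2
    have iX : Integrable (fun p : Am => θ p.1.1 ^ 2 * ‖w p‖ ^ 2) m := by
      refine IntegrableOn.integrable_of_forall_notMem_eq_zero
        (s := {p : Am | p.1.1 ∈ tsupport θ}) ?_ fun p hp => ?_
      · refine (lsq (hw _ b2 b3)).1.bdd_mul (c := 1) (Continuous.aestronglyMeasurable (by fun_prop))
          (ae_of_all _ fun p => ?_)
        rw [Real.norm_of_nonneg (sq_nonneg _)]; exact t1 _
      · simp [image_eq_zero_of_notMem_tsupport hp]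
    have lo : ∫ p in {p | p.1.1 ∈ K}, ‖w p‖ ^ 2 ∂m ≤ ∫ p, θ p.1.1 ^ 2 * ‖w p‖ ^ 2 ∂m := by
      refine le_trans (setIntegral_congr_fun (ms cK) fun p hp => ?_).le
        (setIntegral_le_integral iX (ae_of_all _ fun p => by positivity))
      simp [b5 _ hp]
    have n1 : ‖∫ p, ((θ p.1.1 ^ 2 : ℝ) : ℂ) * G p * conj (w p) ∂m‖ ≤
        ∫ p, 1 / 2 * (θ p.1.1 ^ 2 * ‖w p‖ ^ 2 + ‖G p‖ ^ 2) ∂m := by
      refine norm_integral_le_of_norm_le ((iX.add iG).const_mul _) (ae_of_all _ fun p => ?_)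
      rw [norm_mul, norm_mul, Complex.norm_conj, Complex.norm_real,
        Real.norm_of_nonneg (sq_nonneg _)]
      nlinarith [mul_nonneg (sq_nonneg (θ p.1.1)) (sq_nonneg (‖G p‖ - ‖w p‖)),
        mul_nonneg (sub_nonneg.2 (t1 p.1.1)) (sq_nonneg ‖G p‖)]
    have n2 : ‖∫ p, wd true (fun z => ((θ z.1 ^ 2 : ℝ) : ℂ)) p.1 *
        (g p * conj (w p) - conj (G p) * u p) ∂m‖ ≤
        ∫ p, 2 * (ε * (θ p.1.1 ^ 2 * ‖w p‖ ^ 2 + ‖G p‖ ^ 2) +
          (N ^ 2 + M ^ 2) / ε * ‖fderiv ℝ θ p.1.1‖ ^ 2) ∂m := by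
      refine norm_integral_le_of_norm_le ((((iX.add iG).const_mul _).add
        (iD.const_mul _)).const_mul _) ?_
      filter_upwards [aS, aU] with p p1 p2
      have a := dsq hW b1 p.1
      rw [abs_of_nonneg (b4 _).1] at a
      have b : ‖(g p : ℂ) * conj (w p) - conj (G p) * u p‖ ≤ N * ‖w p‖ + ‖G p‖ * M := by
        refine (norm_sub_le _ _).trans ?_
        simp only [norm_mul, Complex.norm_conj, Complex.norm_real, Real.norm_eq_abs]
        gcongr
        exact hN p p1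
      have t0 := (b4 p.1.1).1
      rw [norm_mul]
      exact (mul_le_mul a b (norm_nonneg _) (by positivity)).trans
        (amgm hε t0 (b4 _).2 (norm_nonneg _))
    rw [integral_const_mul, integral_add iX iG] at n1
    have iS : Integrable (fun p : Am => ε * (θ p.1.1 ^ 2 * ‖w p‖ ^ 2 + ‖G p‖ ^ 2)) m :=
      (iX.add iG).const_mul _
    rw [integral_const_mul, integral_add iS (iD.const_mul _),
      integral_const_mul, integral_const_mul, integral_add iX iG] at n2
    have k2 := k.trans ((Complex.re_le_norm _).trans (norm_add_le _ _))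
    rw [norm_div, Complex.norm_two] at k2
    have c0 : 0 ≤ (N ^ 2 + M ^ 2) / ε := by positivity
    have := mul_le_mul_of_nonneg_left bD c0
    have := mul_le_mul_of_nonneg_left lo (sub_pos.2 h2).le
    linarith
  have cpt (K) (cK : IsCompact K) (sK : K ⊆ Prod.fst '' C.Ω) :
      ∫ p in {p | p.1.1 ∈ K}, ‖w p‖ ^ 2 ∂m ≤ ∫ p, ‖G p‖ ^ 2 ∂m := by
    have s := step K cK sK
    generalize ∫ p in {p | p.1.1 ∈ K}, ‖w p‖ ^ 2 ∂m = X at s ⊢
    generalize ∫ p, ‖G p‖ ^ 2 ∂m = Y at s ⊢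
    have c : Continuous fun ε : ℝ => (1 / 2 + ε) * Y + (N ^ 2 + M ^ 2) * (C.β * (ε * (l * Real.pi))) -
      (1 / 2 - ε) * X := by fun_prop
    have := ge_of_tendsto ((c.tendsto 0).mono_left (nhdsWithin_le_nhds (s := Ioi 0))) (b := 0) (by
      filter_upwards [Ioo_mem_nhdsGT (show (0 : ℝ) < 1 / 2 by norm_num)] with ε hε
      have h0 := hε.1
      refine sub_nonneg.2 ((s ε (ε ^ 2) h0 hε.2 (by positivity)).trans_eq ?_)
      field_simp)
    linarith
  have op : IsOpen (Prod.fst '' C.Ω) := isOpenMap_fst _ C.op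
  have := op.locallyCompactSpace
  rw [eLpNorm_eq_lintegral_rpow_enorm_toReal two_ne_zero ENNReal.ofNat_ne_top,
    eLpNorm_eq_lintegral_rpow_enorm_toReal two_ne_zero ENNReal.ofNat_ne_top, ENNReal.toReal_ofNat]
  refine ENNReal.rpow_le_rpow ?_ (by norm_num)
  let K : ℕ → Set ℂ := fun n => Subtype.val '' compactCovering (Prod.fst '' C.Ω) n
  have cK (n) : IsCompact (K n) := (isCompact_compactCovering _ n).image continuous_subtype_val
  have sK (n) : K n ⊆ Prod.fst '' C.Ω := Subtype.coe_image_subset _ _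
  have mono : Monotone fun n => {p : Am | p.1.1 ∈ K n} := fun a b h p hp =>
    image_mono (compactCovering_subset _ h) hp
  have full : m.restrict (⋃ n, {p : Am | p.1.1 ∈ K n}) = m := by
    refine Measure.restrict_eq_self_of_ae_mem (aS.mono fun p hp => ?_)
    obtain ⟨n, hn⟩ := exists_mem_compactCovering (⟨p.1.1, p.1, hp.1, rfl⟩ : Prod.fst '' C.Ω)
    exact mem_iUnion.2 ⟨n, _, hn, rfl⟩
  rw [eG]
  refine (congrArg (fun ν => ∫⁻ p, ‖w p‖ₑ ^ (2 : ℝ) ∂ν) full).symm.trans_le ?_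
  rw [setLIntegral_iUnion_of_directed _ mono.directed_le]
  refine iSup_le fun n => ?_
  rw [(lsq (hw _ (cK n) (sK n))).2]
  exact ENNReal.ofReal_le_ofReal (cpt _ (cK n) (sK n))

end Pool.Agent.Lib.CLF
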