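import Pool.Agent.Lib.CLF.ABlue

/-! Gluing the local derivatives. -/

open MeasureTheory Filter Topology Set Function
open scoped ContDiff ENNReal ComplexConjugate Manifold

noncomputable section

namespace Pool.Agent.Lib.CLF

namespace GLU

/-- A finite partition of unity on a compact set. -/
theorem part {K : Set ℂ} {U : ℕ → Set ℂ} (hK : IsCompact K) (ho : ∀ n, IsOpen (U n))
    (hU : K ⊆ ⋃ n, U n) : ∃ (s : Finset ℕ) (φ : s → ℂ → ℝ),
    (∀ i : s, Bump (U i) (φ i) ∧ ∀ z, 0 ≤ φ i z) ∧ ∀ z ∈ K, ∑ i, φ i z = 1 := by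
  obtain ⟨s, hs⟩ := hK.elim_finite_subcover U ho hU
  obtain ⟨R, hR⟩ := hK.isBounded.subset_ball 0
  obtain ⟨f, hf⟩ := SmoothPartitionOfUnity.exists_isSubordinate 𝓘(ℝ, ℂ) hK.isClosed
    (fun i : s => U i ∩ Metric.ball 0 R) (fun i => (ho i).inter Metric.isOpen_ball) fun z hz => by
      obtain ⟨i, hi, h⟩ := mem_iUnion₂.1 (hs hz)
      exact mem_iUnion.2 ⟨⟨i, hi⟩, h, hR hz⟩
  refine ⟨s, fun i => f i, fun i => ⟨⟨(f i).contMDiff.contDiff, ?_,
    (hf i).trans inter_subset_left⟩, f.nonneg i⟩, fun z hz => ?_⟩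
  · exact Metric.isCompact_of_isClosed_isBounded (isClosed_tsupport _)
      (Metric.isBounded_ball.subset ((hf i).trans inter_subset_right))
  · rw [← finsum_eq_sum_of_fintype]
    exact f.sum_eq_one hz

/-- The Wirtinger derivative of a real function of one variable. -/
def dz (θ : ℂ → ℝ) (t : ℂ) : ℂ :=
  ((fderiv ℝ θ t 1 : ℝ) - Complex.I * (fderiv ℝ θ t Complex.I : ℝ)) / 2

theorem wd_fst {θ : ℂ → ℝ} (h : ContDiff ℝ ∞ θ) (z : B2) :
    wd true (fun z => (θ z.1 : ℂ)) z = dz θ z.1 := by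
  have : HasFDerivAt (fun z : B2 => (θ z.1 : ℂ)) _ z := Complex.ofRealCLM.hasFDerivAt.comp z
    ((h.differentiable (by simp) z.1).hasFDerivAt.comp z hasFDerivAt_fst)
  simp [wd, ev, dz, this.fderiv]

theorem dz_zero {θ : ℂ → ℝ} {t : ℂ} (h : t ∉ tsupport θ) : dz θ t = 0 := by
  simp [dz, (notMem_tsupport_iff_eventuallyEq.1 h).fderiv_eq]

theorem dz_cont {θ : ℂ → ℝ} (h : ContDiff ℝ ∞ θ) : Continuous (dz θ) := by
  have := h.continuous_fderiv (by simp)
  unfold dz
  fun_prop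

theorem dz_sum {ι : Type} [Fintype ι] {θ : ι → ℂ → ℝ} (h : ∀ i, ContDiff ℝ ∞ (θ i)) (t : ℂ) :
    dz (fun z => ∑ i, θ i z) t = ∑ i, dz (θ i) t := by
  simp [dz, fderiv_fun_sum fun i _ => (h i).differentiable (by simp) t, Finset.sum_div,
    Finset.mul_sum, ← Finset.sum_sub_distrib]

/-- Square integrable over the compact sets of values of `t`. -/
def LL (C : Cv) (l : ℝ) (f : Am → ℂ) : Prop := ∀ K, IsCompact K → K ⊆ Prod.fst '' C.Ω →
  MemLp f 2 ((C.mo l true).restrict {p | p.1.1 ∈ K})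

theorem LL.int {C : Cv} {l : ℝ} {f g : Am → ℂ} (hf : LL C l f) (hg : LL C l g) {h : ℂ → ℂ}
    {K : Set ℂ} (hK : IsCompact K) (hT : K ⊆ Prod.fst '' C.Ω) (hc : Continuous h)
    (h0 : ∀ t ∉ K, h t = 0) : Integrable (fun p : Am => h p.1.1 * (f p * g p)) (C.mo l true) := by
  obtain ⟨M, hM⟩ := hc.bounded_above_of_compact_support (HasCompactSupport.intro hK h0)
  refine (integrableOn_iff_integrable_of_support_subset (s := {p : Am | p.1.1 ∈ K})
    fun p hp => ?_).1
    (((hf K hK hT).integrable_mul (hg K hK hT)).bdd_mul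
      (hc.comp (f := fun p : Am => p.1.1) (by fun_prop)).aestronglyMeasurable
      (.of_forall fun p => hM _))
  by_contra hn
  exact hp (by simp [h0 _ hn])

theorem LL.star {C : Cv} {l : ℝ} {f : Am → ℂ} (hf : LL C l f) : LL C l fun p => conj (f p) :=
  fun K hK hT => (hf K hK hT).star

theorem LL.of (hWM : St_WM) {C : Cv} {l : ℝ} (hl : 0 < l) {F : Type} [NormedAddCommGroup F]
    {f : Am → F} (hf : MemLp f 2 (C.mn l)) {K : Set ℂ} (hK : IsCompact K) :
    MemLp f 2 ((C.mo l true).restrict {p | p.1.1 ∈ K}) := by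
  obtain ⟨M, hM, h, -⟩ := hWM.cpt C true hl hK
  exact (hf.smul_measure hM).mono_measure h

/-- The inequality is additive in the weight. -/
theorem ki_sum {C : Cv} {l : ℝ} {g u : Am → ℝ} {w : Am → ℂ} (hg : LL C l (cx g))
    (hd : LL C l (C.D true (cx g))) (hu : LL C l (cx u)) (hw : LL C l w) {ι : Type} [Fintype ι]
    {θ : ι → ℂ → ℝ} (hθ : ∀ i, Bump (Prod.fst '' C.Ω) (θ i)) (h : ∀ i, C.KI l g u w (θ i)) :
    C.KI l g u w fun z => ∑ i, θ i z := by
  have z0 : ∀ i, ∀ t ∉ tsupport (θ i), (θ i t : ℂ) = 0 := fun i t ht => by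
    rw [image_eq_zero_of_notMem_tsupport ht, Complex.ofReal_zero]
  have c : ∀ i, Continuous fun t => (θ i t : ℂ) := fun i =>
    Complex.continuous_ofReal.comp (hθ i).1.continuous
  have i1 : ∀ i, Integrable (fun p : Am => θ i p.1.1 * ‖w p‖ ^ 2) (C.mo l true) := fun i =>
    (hw.int hw.star (hθ i).2.1 (hθ i).2.2 (c i) (z0 i)).re.congr (.of_forall fun p => by
      simp [Complex.mul_conj, Complex.normSq_eq_norm_sq, -Complex.ofReal_pow])
  have i2 : ∀ i, Integrable (fun p : Am => θ i p.1.1 * C.D true (cx g) p * conj (w p))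
      (C.mo l true) := fun i =>
    (hd.int hw.star (hθ i).2.1 (hθ i).2.2 (c i) (z0 i)).congr
      (.of_forall fun p => (mul_assoc _ _ _).symm)
  have i3 : ∀ i, Integrable (fun p : Am => dz (θ i) p.1.1 *
      (g p * conj (w p) - conj (C.D true (cx g) p) * u p)) (C.mo l true) := fun i =>
    ((hg.int hw.star (hθ i).2.1 (hθ i).2.2 (dz_cont (hθ i).1)
      fun _ => dz_zero).sub (hd.star.int hu (hθ i).2.1 (hθ i).2.2 (dz_cont (hθ i).1)
      fun _ => dz_zero)).congr (.of_forall fun p => (mul_sub _ _ _).symm)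
  have := Finset.sum_le_sum fun i (_ : i ∈ Finset.univ) => h i
  have e := fun z => (wd_fst (θ := fun z => ∑ i, θ i z) (ContDiff.sum fun i _ => (hθ i).1) z).trans
    (dz_sum (fun i => (hθ i).1) _)
  simp only [wd_fst (hθ _).1] at this
  unfold Cv.KI
  simp only [e]
  simp only [Complex.ofReal_sum, Finset.sum_mul]
  rwa [integral_finsetSum _ fun i _ => i1 i, integral_finsetSum _ fun i _ => i2 i,
    integral_finsetSum _ fun i _ => i3 i, Finset.sum_div, ← Finset.sum_add_distrib,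
    Complex.re_sum]

end GLU

open GLU in
theorem bGLU (hBR : St_BR) (hUQ : St_UQ) (hCAL : St_CAL) (hINT : St_INT) (hWM : St_WM) :
    St_GLU := by
  intro C l g u hl hg hu H
  rcases C.Ω.eq_empty_or_nonempty with he | ⟨z0, hz0⟩
  · have : C.mu = 0 := by simp [Cv.mu, he]
    exact ⟨0, aestronglyMeasurable_zero, fun _ _ _ => MemLp.zero, fun _ _ => by simp [this],
      fun _ _ _ => by simp [Cv.KI, Cv.mo, this]⟩
  obtain ⟨U, w, hU, hc⟩ : ∃ (U : ℕ → Set ℂ) (w : ℕ → Am → ℂ), (∀ n, IsOpen (U n) ∧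
      MemLp (w n) 2 (C.mn l) ∧ C.WD true (Prod.fst ⁻¹' U n) (cx u) (w n) ∧
      ∀ θ, Bump (U n) θ → (∀ z, 0 ≤ θ z) → C.KI l g u (w n) θ) ∧ Prod.fst '' C.Ω ⊆ ⋃ n, U n := by
    choose! U w h1 h2 h3 using H
    obtain ⟨s, s1, s2, s3⟩ := TopologicalSpace.countable_cover_nhdsWithin (f := U)
      fun t ht => mem_nhdsWithin_of_mem_nhds ((h1 t ht).mem_nhds (h2 t ht))
    obtain ⟨t0, ht0, -⟩ := mem_iUnion₂.1 (s3 ⟨z0, hz0, rfl⟩)
    obtain ⟨e, rfl⟩ := s2.exists_eq_range ⟨t0, ht0⟩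
    exact ⟨fun n => U (e n), fun n => w (e n), fun n => ⟨h1 _ (s1 ⟨n, rfl⟩), h3 _ (s1 ⟨n, rfl⟩)⟩,
      by rwa [biUnion_range] at s3⟩
  have lw : ∀ n, C.Loc (w n) := fun n => (hWM.loc C true hl).1 (hU n).2.1
  have hu' : MemLp (cx u) 2 (C.mn l) := hu.ofReal
  have lu : C.Loc (cx u) := (hWM.loc C true hl).1 hu'
  have uq : ∀ᵐ p ∂C.mu, ∀ n m, p.1.1 ∈ U n ∩ U m → w n p - w m p = 0 :=
    ae_all_iff.2 fun n => ae_all_iff.2 fun m => hUQ C (Prod.fst ⁻¹' (U n ∩ U m))
      (fun p => w n p - w m p) (((hU n).1.inter (hU m).1).preimage continuous_fst)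
      ((hWM.loc C true hl).1 ((hU n).2.1.sub (hU m).2.1)) fun χ ⟨c1, K, k1, k2, k3⟩ => by
        have t1 : C.Tst (Prod.fst ⁻¹' U n) χ := ⟨c1, K, k1, fun z hz => ⟨(k2 hz).1, (k2 hz).2.1⟩, k3⟩
        have t2 : C.Tst (Prod.fst ⁻¹' U m) χ := ⟨c1, K, k1, fun z hz => ⟨(k2 hz).1, (k2 hz).2.2⟩, k3⟩
        simp only [sub_mul]
        rw [integral_sub (hINT.mul C (lw n) (lw n) t1).1 (hINT.mul C (lw m) (lw m) t1).1, sub_eq_zero,
          ← neg_inj, ← (hU n).2.2.1 χ t1, ← (hU m).2.2.1 χ t2]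
  obtain ⟨W, eq⟩ : ∃ W : Am → ℂ, ∀ᵐ p ∂C.mu, ∀ n, p.1.1 ∈ U n → W p = w n p :=
    ⟨fun p => w (sInf {n | p.1.1 ∈ U n}) p, uq.mono fun p hp n hn =>
      sub_eq_zero.1 (hp _ n ⟨Nat.sInf_mem (s := {n | p.1.1 ∈ U n}) ⟨n, hn⟩, hn⟩)⟩
  have ac := (hWM.ac C true hl).2.2.1
  have mA : ∀ {V : Set ℂ}, MeasurableSet V → MeasurableSet {p : Am | p.1.1 ∈ V} := fun h =>
    h.preimage (by fun_prop : Measurable fun p : Am => p.1.1)
  have mW : AEStronglyMeasurable W C.mu := by
    have : C.mu.restrict (⋃ n, {p : Am | p.1.1 ∈ U n}) = C.mu :=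
      Measure.restrict_eq_self_of_ae_mem ((hINT.ae C).mono fun p hp => by
        simpa using hc ⟨p.1, hp.1, rfl⟩)
    rw [← this, aestronglyMeasurable_iUnion_iff]
    exact fun n => (lw n).1.restrict.congr ((ae_restrict_iff' (mA (hU n).1.measurableSet)).2
      (eq.mono fun p hp hn => (hp n hn).symm))
  have LW : LL C l W := fun K hK hT => by
    obtain ⟨s, hs⟩ := hK.elim_finite_subcover U (fun n => (hU n).1) (hT.trans hc)
    have m : MemLp (fun p => ∑ n ∈ s, ‖w n p‖) 2 (C.mn l) :=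
      memLp_finsetSum s fun n _ => (hU n).2.1.norm
    have e' : ∀ᵐ p ∂C.mo l true, ∀ n, p.1.1 ∈ U n → W p = w n p := ac.ae_le eq
    refine (LL.of hWM hl m hK).mono' (mW.mono_ac ac).restrict
      ((ae_restrict_iff' (mA hK.measurableSet)).2 (e'.mono fun p hp hn => ?_))
    obtain ⟨n, h1, h2⟩ := mem_iUnion₂.1 (hs hn)
    rw [hp n h2]
    exact Finset.single_le_sum (f := fun n => ‖w n p‖) (fun _ _ => norm_nonneg _) h1
  refine ⟨W, mW, LW, fun χ hχ => ?_, fun θ hθ h0 => ?_⟩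
  · obtain ⟨K, k1, k2, k3⟩ := hχ.2
    obtain ⟨s, φ, f1, f2⟩ := part (k1.image continuous_fst) (fun n => (hU n).1)
      ((image_mono (k2.trans inter_subset_left)).trans hc)
    have t : ∀ i : s, C.Tst (Prod.fst ⁻¹' U i) fun p => (φ i p.1.1 : ℂ) * χ p := fun i =>
      have : support (cx (φ i)) ⊆ support (φ i) := fun z hz h => hz (by simp [cx, h])
      hCAL.tloc C (θ := cx (φ i)) ⟨Complex.ofRealCLM.contDiff.comp (f1 i).1.1,
        (f1 i).1.2.1.mono this, (closure_mono this).trans (f1 i).1.2.2⟩ hχ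
    have e : EqOn χ (fun p => ∑ i, (φ i p.1.1 : ℂ) * χ p) C.S := fun p hp => by
      by_cases h : p.1 ∈ K
      · simp only [← Finset.sum_mul, ← Complex.ofReal_sum, f2 _ ⟨_, h, rfl⟩, Complex.ofReal_one,
          one_mul]
      · simp [k3 p hp h]
    have ts := (hCAL.tsum C (U := univ) Finset.univ (F := fun (i : s) p => (φ i p.1.1 : ℂ) * χ p)
      fun i _ => ⟨(t i).1, (t i).2.imp fun K h =>
        ⟨h.1, fun z hz => ⟨(h.2.1 hz).1, trivial⟩, h.2.2⟩⟩).2 true
    rw [integral_congr_ae (g := fun p => ∑ i : s, cx u p * C.D true (fun p => φ i p.1.1 * χ p) p)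
      ((hINT.ae C).mono fun p hp => by
        simp only [(hCAL.congr C true e).1 hp, ts p hp, Finset.mul_sum]),
      integral_congr_ae (f := fun p => W p * χ p) (g := fun p => ∑ i : s, w i p * (φ i p.1.1 * χ p))
        (((hINT.ae C).and eq).mono fun p hp => by
          simp only
          rw [e hp.1, Finset.mul_sum]
          nth_rw 1 [← e hp.1]
          refine Finset.sum_congr rfl fun i _ => ?_
          by_cases h : φ i p.1.1 = 0
          · simp [h]
          · rw [hp.2 i ((f1 i).1.2.2 (subset_tsupport _ h))]),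
      integral_finsetSum _ fun i _ => (hINT.mul C lu lu (hCAL.tD C true (t i)).1).1,
      integral_finsetSum _ fun (i : s) _ => (hINT.mul C (lw i) (lw i) (t i)).1,
      ← Finset.sum_neg_distrib]
    exact Finset.sum_congr rfl fun i _ => (hU i).2.2.1 _ (t i)
  · obtain ⟨s, φ, f1, f2⟩ := part hθ.2.1 (fun n => (hU n).1) (hθ.2.2.trans hc)
    have e : θ = fun z => ∑ i, φ i z * θ z := funext fun z => by
      by_cases h : z ∈ tsupport θ
      · rw [← Finset.sum_mul, f2 z h, one_mul]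
      · simp [image_eq_zero_of_notMem_tsupport h]
    have fin := (hWM.fin C hl).1
    obtain ⟨M, hM⟩ := hg.1.2
    have mg : MemLp (cx g) 2 (C.mn l) := MemLp.of_bound
      ((hINT.sm C (hBR.cont C hg.1.1)).1.mono_ac (hWM.ac C true hl).1) M
      (Eventually.mono ((hWM.ac C true hl).1.ae_le (hINT.ae C)) fun p hp => by
        simpa [cx] using hM p hp)
    rw [e]
    refine ki_sum (fun K hK _ => LL.of hWM hl mg hK) (fun _ _ _ => (hg.2 true).restrict _)
      (fun K hK _ => LL.of hWM hl hu' hK) LW (fun i => ⟨(f1 i).1.1.mul hθ.1, hθ.2.1.mul_left,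
        tsupport_mul_subset_right.trans hθ.2.2⟩) fun i => ?_
    have b : Bump (U i) fun z => φ i z * θ z := ⟨(f1 i).1.1.mul hθ.1, hθ.2.1.mul_left,
      tsupport_mul_subset_left.trans (f1 i).1.2.2⟩
    have := (hU i).2.2.2 _ b fun z => mul_nonneg ((f1 i).2 z) (h0 z)
    generalize (fun z => φ i z * θ z) = η at b this
    have q : ∀ᵐ p ∂C.mo l true, W p = w i p ∨ η p.1.1 = 0 ∧ dz η p.1.1 = 0 :=
      Eventually.mono (ac.ae_le eq) fun p hp => by
        by_cases h : p.1.1 ∈ tsupport η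
        · exact .inl (hp i (b.2.2 h))
        · exact .inr ⟨image_eq_zero_of_notMem_tsupport h, dz_zero h⟩
    simp only [Cv.KI, wd_fst b.1] at this ⊢
    convert this using 1
    · exact integral_congr_ae (q.mono fun p hp => by rcases hp with h | h <;> simp [h])
    · congr 2
      · exact integral_congr_ae (q.mono fun p hp => by rcases hp with h | h <;> simp [h])
      · congr 1
        exact integral_congr_ae (q.mono fun p hp => by rcases hp with h | h <;> simp [h])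

end Pool.Agent.Lib.CLF
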