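import Pool.Agent.Lib.CLF.BBlue

/-! The root powering forms. -/

open MvPolynomial

noncomputable section

namespace Pool.Agent.Lib.CLF

namespace GRF

variable {n : ℕ}

/-- The generic polynomial with the variable scaled by `c`. -/
def gen (n : ℕ) (c : ℂ) : Polynomial (MvPolynomial (Fin (n + 1)) ℂ) :=
  ∑ j : Fin (n + 1), Polynomial.monomial j (C (c ^ (j : ℕ)) * X j)

theorem gen_hom (c : ℂ) (r : ℕ) : ((gen n c).coeff r).IsHomogeneous 1 := by
  rw [gen, Polynomial.finsetSum_coeff]
  refine IsHomogeneous.sum _ _ _ fun j _ => ?_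
  rw [Polynomial.coeff_monomial]
  split_ifs
  · exact (isHomogeneous_X ℂ j).C_mul _
  · exact isHomogeneous_zero _ _ _

theorem prod_hom (c : ℕ → ℂ) (p r : ℕ) :
    ((∏ a ∈ Finset.range p, gen n (c a)).coeff r).IsHomogeneous p := by
  induction p generalizing r with
  | zero =>
    rw [Finset.prod_range_zero, Polynomial.coeff_one]
    split_ifs
    · exact isHomogeneous_one _ _
    · exact isHomogeneous_zero _ _ _
  | succ p ih =>
    rw [Finset.prod_range_succ, Polynomial.coeff_mul]
    exact IsHomogeneous.sum _ _ _ fun x _ => (ih _).mul (gen_hom _ _)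

theorem gen_map {L : Type} [Field L] [Algebra ℂ L] {k : ℕ} (ξ : Fin k → L) (hk : k ≤ n) (c : ℂ) :
    (gen n c).map (aeval (cf n ξ) : MvPolynomial (Fin (n + 1)) ℂ →ₐ[ℂ] L).toRingHom =
      ∏ i, (Polynomial.C (algebraMap ℂ L c) * Polynomial.X - Polynomial.C (ξ i)) := by
  have hd : (∏ i, (Polynomial.X - Polynomial.C (ξ i))).natDegree < n + 1 := by
    rw [Polynomial.natDegree_finsetProd_X_sub_C_eq_card]
    simpa using Nat.lt_succ_of_le hk
  have e := congrArg (fun f => f.comp (Polynomial.C (algebraMap ℂ L c) * Polynomial.X))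
    ((∏ i, (Polynomial.X - Polynomial.C (ξ i))).as_sum_range' _ hd)
  simp only [Polynomial.prod_comp, Polynomial.sub_comp, Polynomial.X_comp, Polynomial.C_comp,
    Polynomial.sum_comp, Polynomial.monomial_comp] at e
  rw [e, gen, Polynomial.map_sum, Finset.sum_range]
  refine Finset.sum_congr rfl fun j _ => ?_
  rw [Polynomial.map_monomial, ← Polynomial.C_mul_X_pow_eq_monomial]
  simp [cf, mul_pow]
  ring

end GRF

open GRF in
theorem bGRF : St_GRF := by
  intro n p hp
  have hζ := Complex.isPrimitiveRoot_exp p (by omega)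
  set ζ := Complex.exp (2 * Real.pi * Complex.I / p)
  refine ⟨fun i => (∏ a ∈ Finset.range p, gen n (ζ ^ a)).coeff (p * i), fun i => prod_hom _ _ _,
    fun L _ _ k ξ hk => ⟨((-1) ^ (p + 1)) ^ k, by simp, fun i => ?_⟩⟩
  have h1 : IsPrimitiveRoot (Polynomial.C (algebraMap ℂ L ζ)) p :=
    (hζ.map_of_injective (algebraMap ℂ L).injective).map_of_injective Polynomial.C_injective
  have h2 : ∀ x : L, ∏ a ∈ Finset.range p, (Polynomial.C (algebraMap ℂ L (ζ ^ a)) * Polynomial.X -
      Polynomial.C x) = Polynomial.C ((-1) ^ (p + 1)) *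
        Polynomial.expand L p (Polynomial.X - Polynomial.C (x ^ p)) := fun x => by
    have := congrArg (Polynomial.eval (Polynomial.C x))
      (X_pow_sub_C_eq_prod h1 (α := Polynomial.X) hp rfl)
    simp only [Polynomial.eval_sub, Polynomial.eval_pow, Polynomial.eval_X, Polynomial.eval_C,
      Polynomial.eval_prod] at this
    rw [Finset.prod_congr rfl fun a _ => (neg_sub _ _).symm, Finset.prod_neg, Finset.card_range]
    simp only [map_pow, ← this, map_sub, Polynomial.expand_X, Polynomial.expand_C, map_neg,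
      map_one]
    ring
  have h3 := Polynomial.coeff_map (p := ∏ a ∈ Finset.range p, gen n (ζ ^ a))
    (aeval (cf n ξ) : MvPolynomial (Fin (n + 1)) ℂ →ₐ[ℂ] L).toRingHom (p * i)
  refine h3.symm.trans ?_
  simp only [Polynomial.map_prod, gen_map ξ hk]
  rw [Finset.prod_comm]
  simp only [h2]
  rw [Finset.prod_mul_distrib, Finset.prod_const, Finset.card_univ, Fintype.card_fin, ← map_pow,
    ← map_prod, Polynomial.coeff_C_mul, Polynomial.coeff_expand_mul' hp]
  rfl

end Pool.Agent.Lib.CLF
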