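import Pool.Agent.Lib.CLF.BBlue

/-! Grids impose independent conditions. -/

open MvPolynomial Pool.Agent.Lib.MP_08f962_ag

noncomputable section

namespace Pool.Agent.Lib.CLF

namespace GRID

variable {L V : Type} [Field L] {w : V → ℕ × ℕ}

/-- A form that vanishes at all points but one. -/
theorem sep {n P u : ℕ} {d : ℕ × ℕ} (e : Fin (n + 1) → V) (he : ∀ i, w (e i) = d)
    {x : Fin P → Fin (n + 1) → L} (hx : PD x) (hP : P ≤ u + 1) (k₀ : Fin P) :
    ∃ H : MvPolynomial V L, IsWeightedHomogeneous w H (u • d) ∧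
      ∀ z k, (∀ i, z (e i) = x k i) → (eval z H = 0 ↔ k ≠ k₀) := by
  have hX : ∀ i, IsWeightedHomogeneous w (X (e i) : MvPolynomial V L) d := fun i =>
    he i ▸ isWeightedHomogeneous_X L w (e i)
  have h1 : ∀ k, k ≠ k₀ → ∃ i j, x k i * x k₀ j - x k j * x k₀ i ≠ 0 := fun k hk => by
    obtain ⟨i, hi⟩ := Function.ne_iff.1 (hx.1 k)
    by_contra! h
    refine hk (hx.2 k₀ k (x k₀ i / x k i) (funext fun j => ?_)).symm
    have := h i j
    rw [Pi.zero_apply] at hi
    simp only [Pi.smul_apply, smul_eq_mul]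
    field_simp
    linear_combination this
  choose! a b hab using h1
  obtain ⟨i₀, hi₀⟩ := Function.ne_iff.1 (hx.1 k₀)
  refine ⟨(∏ k ∈ Finset.univ.erase k₀, (C (x k (a k)) * X (e (b k)) - C (x k (b k)) * X (e (a k)))) *
    X (e i₀) ^ (u + 1 - P), ?_, fun z k hz => ?_⟩
  · have h2 := (IsWeightedHomogeneous.prod (Finset.univ.erase k₀) _ (fun _ => d) fun k _ =>
      (weightedHomogeneousSubmodule L w d).sub_mem ((hX (b k)).C_mul (x k (a k)))
        ((hX (a k)).C_mul (x k (b k)))).mul ((hX i₀).pow (u + 1 - P))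
    rw [Finset.sum_const, Finset.card_erase_of_mem (Finset.mem_univ _), Finset.card_univ,
      Fintype.card_fin, ← add_smul] at h2
    have := k₀.pos
    rwa [show P - 1 + (u + 1 - P) = u by omega] at h2
  · simp only [map_mul, map_prod, map_sub, map_pow, eval_C, eval_X, hz]
    refine ⟨fun h hk => ?_, fun h => mul_eq_zero_of_left (Finset.prod_eq_zero
      (Finset.mem_erase.2 ⟨h, Finset.mem_univ _⟩) (by ring)) _⟩
    subst hk
    exact mul_ne_zero (Finset.prod_ne_zero_iff.2 fun l hl => hab l (Finset.mem_erase.1 hl).1)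
      (pow_ne_zero _ hi₀) h

theorem eval_eq_sum {p : ℕ × ℕ} [Fintype V] [Fintype {α : V →₀ ℕ // Finsupp.weight w α = p}]
    {H : MvPolynomial V L} (hH : IsWeightedHomogeneous w H p) (z : V → L) :
    eval z H =
      ∑ α : {α : V →₀ ℕ // Finsupp.weight w α = p}, (∏ i, z i ^ α.1 i) * H.coeff α.1 := by
  classical
  rw [eval_eq']
  symm
  refine Finset.sum_bij_ne_zero (fun α _ _ => α.1) (fun α _ h => ?_)
    (fun _ _ _ _ _ _ h => Subtype.ext h) (fun α hα h => ?_) fun α _ _ => mul_comm _ _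
  · exact mem_support_iff.2 (right_ne_zero_of_mul h)
  · exact ⟨⟨α, hH (mem_support_iff.1 hα)⟩, Finset.mem_univ _, by rwa [mul_comm], rfl⟩

end GRID

open GRID in
theorem bGRID (hT : St_TRD) : St_GRID := by
  intro n m u v P Q G L _ _ T x y hG hg hP hQ hx hy mx my h0
  have : CharZero L := charZero_of_injective_algebraMap (algebraMap ℂ L).injective
  have : Fintype {α // Finsupp.weight (wt n m) α = (u, v)} := (finite_wt (u, v)).fintype
  have key := hT L {α // Finsupp.weight (wt n m) α = (u, v)} (Fin P × Fin Q) T _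
    (fun k α => ∏ i, Sum.elim (x k.1) (y k.2) i ^ α.1 i)
    (hg.map' (f := (algebraMap ℂ L).toRatAlgHom) (algebraMap ℂ L).injective)
    (fun k α => prod_mem fun i _ => pow_mem (by
      rcases i with i | i
      · exact mx _ i
      · exact my _ i) _) ?_ fun k => ?_
  · simpa using key
  · rw [Fintype.linearIndependent_iff]
    intro c hc k
    obtain ⟨H₁, a₁, b₁⟩ := sep (w := wt n m) Sum.inl (fun _ => rfl) hx hP k.1
    obtain ⟨H₂, a₂, b₂⟩ := sep (w := wt n m) Sum.inr (fun _ => rfl) hy hQ k.2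
    have hH : IsWeightedHomogeneous (wt n m) (H₁ * H₂) (u, v) := by simpa using a₁.mul a₂
    have h1 : ∑ l : Fin P × Fin Q, c l * eval (Sum.elim (x l.1) (y l.2)) (H₁ * H₂) = 0 := by
      simp only [eval_eq_sum hH, Finset.mul_sum]
      rw [Finset.sum_comm]
      refine Finset.sum_eq_zero fun α _ => ?_
      have := congrFun hc α
      simp only [Finset.sum_apply, Pi.smul_apply, smul_eq_mul, Pi.zero_apply] at this
      simp only [← mul_assoc, ← Finset.sum_mul, this, zero_mul]
    rw [Finset.sum_eq_single k (fun l _ hl => ?_) (by simp), map_mul] at h1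
    · exact (mul_eq_zero.1 h1).resolve_right (mul_ne_zero
        (fun h => (b₁ _ k.1 fun _ => rfl).1 h rfl) fun h => (b₂ _ k.2 fun _ => rfl).1 h rfl)
    · rw [map_mul]
      by_cases h : l.1 = k.1
      · rw [(b₂ _ l.2 fun _ => rfl).2 fun h' => hl (Prod.ext h h'), mul_zero, mul_zero]
      · rw [(b₁ _ l.1 fun _ => rfl).2 h, zero_mul, mul_zero]
  · have hH : IsWeightedHomogeneous (wt n m) (map (algebraMap ℂ L) G) (u, v) := fun α h =>
      hG fun h' => h (by rw [coeff_map, h', map_zero])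
    have := eval_eq_sum hH (Sum.elim (x k.1) (y k.2))
    rw [eval_map, ← aeval_def] at this
    simp only [coeff_map] at this
    exact this.symm.trans (h0 k.1 k.2)

end Pool.Agent.Lib.CLF
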