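import Pool.Agent.Lib.CLF.BBlue

/-! Existence and uniqueness of the bigraded Hilbert polynomial. -/

open MvPolynomial Filter Pool.Agent.Lib.MP_08f962_ag

noncomputable section

namespace Pool.Agent.Lib.CLF

namespace HEX

/-- Eventually polynomial. -/
def EP (h : ℕ × ℕ → ℝ) : Prop :=
  ∃ q : MvPolynomial (Fin 2) ℝ, ∀ᶠ p : ℕ × ℕ in atTop, h p = eval ![(p.1 : ℝ), (p.2 : ℝ)] q

lemma shift (q : MvPolynomial (Fin 2) ℝ) (a b : ℝ) : ∃ q' : MvPolynomial (Fin 2) ℝ,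
    ∀ s t : ℝ, eval ![s, t] q' = eval ![s + a, t + b] q := by
  refine ⟨bind₁ ![X 0 + C a, X 1 + C b] q, fun s t => ?_⟩
  rw [← coe_aeval_eq_eval, ← coe_aeval_eq_eval]
  simp only [RingHom.coe_coe, aeval_bind₁]
  congr 2
  funext i
  fin_cases i <;> simp

lemma up {h : ℕ × ℕ → ℝ} (H : EP h) (p : ℕ × ℕ) : EP fun r => h (r + p) := by
  obtain ⟨q, hq⟩ := H
  obtain ⟨a, ha⟩ := eventually_atTop.1 hq
  obtain ⟨q', hq'⟩ := shift q p.1 p.2
  refine ⟨q', eventually_atTop.2 ⟨a, fun r hr => ?_⟩⟩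
  beta_reduce
  rw [hq', ha _ (hr.trans le_self_add)]
  simp

lemma down {h : ℕ × ℕ → ℝ} (p : ℕ × ℕ) (H : EP fun r => h (r + p)) : EP h := by
  obtain ⟨q, hq⟩ := H
  obtain ⟨a, ha⟩ := eventually_atTop.1 hq
  obtain ⟨q', hq'⟩ := shift q (-p.1) (-p.2)
  refine ⟨q', eventually_atTop.2 ⟨a + p, fun r hr => ?_⟩⟩
  obtain ⟨r', rfl⟩ := exists_add_of_le hr
  beta_reduce at ha
  rw [hq', add_right_comm, ha _ le_self_add]
  simp

lemma add {h h' : ℕ × ℕ → ℝ} (H : EP h) (H' : EP h') : EP fun r => h r + h' r := by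
  obtain ⟨q, hq⟩ := H
  obtain ⟨q', hq'⟩ := H'
  exact ⟨q + q', by filter_upwards [hq, hq'] with r a b using by rw [a, b, map_add]⟩

variable {n m : ℕ} {I : Ideal (S n m)}

lemma mem_of_x (h : ∀ i, X (.inl i) ∈ I) {s t : ℕ} {f : S n m} (hf : f ∈ Forms n m (s + 1, t)) :
    f ∈ I := by
  refine forms_ind I.zero_mem (fun _ _ => I.add_mem) (fun α c hα => ?_) hf
  have h1 : ∑ j, α (.inl j) = s + 1 := congrArg Prod.fst ((weight_wt α).symm.trans hα)
  obtain ⟨j, -, hj⟩ := Finset.exists_ne_zero_of_sum_ne_zero (h1.trans_ne (Nat.succ_ne_zero s))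
  obtain ⟨u, -, hu⟩ := monomial_split (q := (s, t)) c (Nat.one_le_iff_ne_zero.2 hj)
    (by simpa [wt] using hα)
  rw [hu, pow_one]
  exact I.mul_mem_left _ (h j)

lemma ev_zero (h : (∀ i, X (Sum.inl i) ∈ I) ∨ ∀ j, X (Sum.inr j) ∈ I) :
    ∀ᶠ p : ℕ × ℕ in atTop, hf I p = 0 := by
  refine eventually_atTop.2 ⟨(1, 1), fun ⟨s, t⟩ hp => hf_eq_zero fun f hf => ?_⟩
  obtain ⟨s, rfl⟩ := Nat.exists_eq_add_of_le' hp.1
  obtain ⟨t, rfl⟩ := Nat.exists_eq_add_of_le' hp.2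
  exact h.elim (fun h => mem_of_x h hf) fun h => mem_of_y h hf

lemma step {P : Ideal (S n m)} (hP : P.IsPrime) (hb : IsBihom P)
    (ih : ∀ J, P < J → IsBihom J → EP fun r => hf J r) {f : S n m} {p : ℕ × ℕ}
    (h1 : f ∈ Forms n m p) (h2 : f ∉ P) : EP fun r => (hf P (r + p) : ℝ) - hf P r := by
  have := up (ih (P ⊔ Ideal.span {f}) (left_lt_sup.2 fun h => h2 (h (Ideal.mem_span_singleton_self f)))
    (hb.sup_span h1)) p
  convert this using 2 with r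
  rw [← hf_cut hb h1 h2 r]
  push_cast
  ring

end HEX

open HEX in
theorem bHEX (hS : St_PSUM) (hD : St_PDEG) (hI : St_IND) : St_HEX where
  ex := fun {n m I} h => by
    refine hI n m (fun I => EP fun r => hf I r) ⟨0, Eventually.of_forall fun p => ?_⟩
      (fun P hP hb ih => ?_) (fun I J K p _ _ _ _ e hJ hK => ?_) I h
    · simp [hf_eq_zero (I := ⊤) fun _ _ => Submodule.mem_top]
    · by_cases h0 : (∀ i, X (Sum.inl i) ∈ P) ∨ ∀ j, X (Sum.inr j) ∈ P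
      · exact ⟨0, (ev_zero h0).mono fun p hp => by simp [hp]⟩
      · push Not at h0
        obtain ⟨⟨i, hi⟩, j, hj⟩ := h0
        obtain ⟨q₁, h1⟩ := step hP hb ih (x_mem i) hi
        obtain ⟨q₂, h2⟩ := step hP hb ih (y_mem j) hj
        exact hS (fun r => hf P r) q₁ q₂ h1 h2
    · refine down p ?_
      convert add (up hJ p) hK using 2 with r
      rw [← e r]
      push_cast
      rfl
  uniq := fun {n m I k c c'} ⟨q, _, h1, h2⟩ ⟨q', _, h1', h2'⟩ => by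
    obtain rfl : q = q' := hD.uniq q q' (by filter_upwards [h1, h1'] with p a b using a.symm.trans b)
    funext ⟨a, b⟩
    rw [h2, h2']
  zero := fun {n m I k c} ⟨q, _, h1, h2⟩ h => by
    obtain rfl : q = 0 := hD.uniq q 0 (by
      filter_upwards [h1, ev_zero h] with p a b
      rw [← a, b]; simp)
    funext ⟨a, b⟩
    simp [h2]

end Pool.Agent.Lib.CLF
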