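import Pool.Agent.Lib.CLF.BBlue

/-! The Hilbert function in the field. -/

open MvPolynomial Module Pool.Agent.Lib.MP_08f962_ag

noncomputable section

namespace Pool.Agent.Lib.CLF

namespace HV

variable {n m : ℕ} {L : Type} [Field L] [Algebra ℂ L]

theorem prod_mem_pow {ι : Type} (x : ι → L) (a : ι → ℕ) (s : Finset ι) :
    ∏ i ∈ s, x i ^ a i ∈ Submodule.span ℂ (Set.range x) ^ ∑ i ∈ s, a i := by
  classical
  induction s using Finset.induction_on with
  | empty => simpa using Submodule.one_le.1 le_rfl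
  | insert i s hi ih =>
    rw [Finset.prod_insert hi, Finset.sum_insert hi, pow_add]
    exact Submodule.mul_mem_mul
      (Submodule.pow_mem_pow _ (Submodule.subset_span (Set.mem_range_self i)) _) ih

theorem mul_le (x : Fin (n + 1) → L) (y : Fin (m + 1) → L) (p q : ℕ × ℕ) :
    VV x y p * VV x y q ≤ VV x y (p + q) := by
  rw [Submodule.mul_le]
  rintro _ ⟨f, hf, rfl⟩ _ ⟨g, hg, rfl⟩
  exact ⟨f * g, mul_mem_forms hf hg, map_mul (pt x y) f g⟩

theorem pow_le (x : Fin (n + 1) → L) (y : Fin (m + 1) → L) {U : Submodule ℂ L} {p : ℕ × ℕ}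
    (h : U ≤ VV x y p) (s : ℕ) : U ^ s ≤ VV x y (s • p) := by
  induction s with
  | zero =>
    rw [pow_zero, zero_smul, Submodule.one_le]
    exact ⟨1, isWeightedHomogeneous_one ℂ _, map_one (pt x y)⟩
  | succ s ih =>
    rw [pow_succ, succ_nsmul]
    exact (mul_le_mul' ih h).trans (mul_le x y _ _)

end HV

open HV in
theorem bHV : St_HV where
  eq {n m P L} _ _ x y p h := by
    have h1 := hf_add_gd P p
    rw [← finrank_map_add (Forms n m p) (pt x y).toLinearMap] at h1
    have e : (Forms n m p ⊓ P.restrictScalars ℂ : Submodule ℂ (S n m)) =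
        Forms n m p ⊓ LinearMap.ker (pt x y).toLinearMap :=
      Submodule.ext fun f => and_congr_right fun hf => h f hf
    rw [gd, e] at h1
    exact add_right_cancel h1
  pow {n m L} _ _ x y s t := by
    refine le_antisymm ?_ ?_
    · rintro _ ⟨f, hf, rfl⟩
      refine forms_ind (Q := fun f => (pt x y).toLinearMap f ∈ _) (by simp)
        (fun f g a b => by rw [map_add]; exact add_mem a b) (fun α c hα => ?_) hf
      rw [weight_wt, Prod.mk.injEq] at hα
      rw [AlgHom.toLinearMap_apply, pt, aeval_monomial, Finsupp.prod_fintype _ _ (by simp),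
        Fintype.prod_sum_type, ← Algebra.smul_def, ← hα.1, ← hα.2]
      exact Submodule.smul_mem _ _ (Submodule.mul_mem_mul (prod_mem_pow x _ _) (prod_mem_pow y _ _))
    · have a := pow_le x y (U := Submodule.span ℂ (Set.range x)) (p := (1, 0))
        (Submodule.span_le.2 (by rintro _ ⟨i, rfl⟩; exact ⟨_, x_mem i, by simp [pt]⟩)) s
      have b := pow_le x y (U := Submodule.span ℂ (Set.range y)) (p := (0, 1))
        (Submodule.span_le.2 (by rintro _ ⟨i, rfl⟩; exact ⟨_, y_mem i, by simp [pt]⟩)) t
      simpa using (mul_le_mul' a b).trans (mul_le x y _ _)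
  fin x y p := Module.Finite.map _ _

end Pool.Agent.Lib.CLF
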