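import Pool.Agent.Lib.CLF.BBlue

/-! Many slabs contain many distinct points of projective space. -/

open Function

noncomputable section

namespace Pool.Agent.Lib.CLF

theorem bHYP : St_HYP := by
  classical
  intro n u N X hN hX
  choose h0 t ht hr using hX
  have ti : Injective t := fun i j h => by
    have := dist_triangle_left (4 * (i : ℕ) : ℂ) (4 * (j : ℕ)) (t i)
    have a := ht i
    have b := h ▸ ht j
    rw [Metric.mem_closedBall] at a b
    rw [dist_eq_norm (4 * _ : ℂ), ← mul_sub, norm_mul, ← Int.cast_natCast, ← Int.cast_natCast (j : ℕ),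
      ← Int.cast_sub, Complex.norm_intCast, Complex.norm_ofNat, ← Int.cast_abs, Int.cast_natCast,
      Int.cast_natCast] at this
    have c : |((i : ℕ) : ℤ) - (j : ℕ)| < 1 := by
      exact_mod_cast (by linarith : ((|((i : ℕ) : ℤ) - (j : ℕ)| : ℤ) : ℝ) < 1)
    exact Fin.ext (by have := abs_lt.1 c; omega)
  have fib := Finset.card_le_mul_card_image (f := fun i => Submodule.span ℂ {X i}) Finset.univ n
    fun s hs => by
      obtain ⟨a, -, rfl⟩ := Finset.mem_image.1 hs
      by_contra! hc
      refine h0 a (Polynomial.injective_ofFn (n + 1) ?_)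
      rw [map_zero]
      refine Polynomial.eq_zero_of_natDegree_lt_card_of_eval_eq_zero' _ (Finset.image t _)
        (fun z hz => ?_) ((Nat.lt_succ_iff.1 (Polynomial.ofFn_natDegree_lt (by omega) _)).trans_lt
          (hc.trans_eq (Finset.card_image_of_injective _ ti).symm))
      obtain ⟨i, hi, rfl⟩ := Finset.mem_image.1 hz
      obtain ⟨c, hc⟩ := Submodule.mem_span_singleton.1
        ((Finset.mem_filter.1 hi).2.symm ▸ Submodule.mem_span_singleton_self (X a))
      simp [Polynomial.ofFn_eq_sum_monomial, Polynomial.eval_finsetSum, ← hc, hr i]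
  rw [Finset.card_univ, Fintype.card_fin] at fib
  have hu := Nat.lt_of_mul_lt_mul_left ((Nat.lt_succ_of_le hN).trans_le fib)
  obtain ⟨e, he⟩ := Function.Embedding.exists_of_card_le_finset (α := Fin (u + 1))
    (by rw [Fintype.card_fin]; exact hu)
  have : ∀ k, ∃ i, Submodule.span ℂ {X i} = e k := fun k => by
    simpa using he (Set.mem_range_self k)
  choose σ hσ using this
  refine ⟨σ, fun k => h0 _, fun k l c h => e.injective ?_⟩
  dsimp only at h
  rw [← hσ, ← hσ, h, Submodule.span_singleton_smul_eq (IsUnit.mk0 c fun c0 => h0 (σ k) (by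
    rw [h, c0, zero_smul]))]

end Pool.Agent.Lib.CLF
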