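import Pool.Agent.Lib.CLF.ABlue

/-! The limit of the tested difference quotients. -/

open MeasureTheory Filter Topology Set Function
open scoped ContDiff ENNReal ComplexConjugate

noncomputable section

namespace Pool.Agent.Lib.CLF

namespace ID

variable {C : Cv}

theorem pair {α : Type} [MeasurableSpace α] {m : Measure α} {f η : α → ℂ} {g : ℕ → α → ℂ}
    (hf : MemLp f 2 m) (hg : ∀ j, MemLp (g j) 2 m) (hη : MemLp η 2 m)
    (h : Tendsto (fun j => eLpNorm (f - g j) 2 m) atTop (𝓝 0)) :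
    Tendsto (fun j => ∫ p, g j p * η p ∂m) atTop (𝓝 (∫ p, f p * η p ∂m)) := by
  rw [tendsto_iff_edist_tendsto_0]
  have := ENNReal.Tendsto.mul_const h (Or.inr hη.2.ne)
  rw [zero_mul] at this
  refine tendsto_of_tendsto_of_tendsto_of_le_of_le tendsto_const_nhds this (fun _ => zero_le)
    fun j => ?_
  have e : ∫ p, ((f - g j) • η) p ∂m = ∫ p, f p * η p ∂m - ∫ p, g j p * η p ∂m :=
    (integral_congr_ae (Eventually.of_forall fun p => sub_mul _ _ _)).trans
      (integral_sub (hf.integrable_mul hη) ((hg j).integrable_mul hη))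
  have k := eLpNorm_smul_le_mul_eLpNorm (p := 2) (q := 2) (r := 1) hη.1 (hf.sub (hg j)).1
  rw [eLpNorm_one_eq_lintegral_enorm] at k
  simp only
  rw [edist_comm, edist_eq_enorm_sub, ← e]
  exact (enorm_integral_le_lintegral_enorm _).trans k

/-- convergence in a weighted space gives convergence against tests -/
theorem lim (K : St_CAL) {m : Measure Am} {w : B2 → ℝ} {U : Set B2} (hw : ∀ z, 0 < w z)
    (hs : ContDiff ℝ ∞ w) (hi : ∀ F : Am → ℂ, ∫ p, F p ∂m = ∫ p, w p.1 * F p ∂C.mu)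
    (ht : ∀ F, C.Tst U F → MemLp F 2 m) {f η : Am → ℂ} {g : ℕ → Am → ℂ} (hf : MemLp f 2 m)
    (hg : ∀ j, MemLp (g j) 2 m) (hη : C.Tst U η)
    (h : Tendsto (fun j => eLpNorm (f - g j) 2 m) atTop (𝓝 0)) :
    Tendsto (fun j => ∫ p, g j p * η p ∂C.mu) atTop (𝓝 (∫ p, f p * η p ∂C.mu)) := by
  have := pair hf hg (ht _ (K.tmul C (K.smb C (h := fun z => ((w z)⁻¹ : ℝ))
    (Complex.ofRealCLM.contDiff.comp (hs.inv fun z => (hw z).ne'))) hη)) h
  have e : ∀ (a c : ℂ) (z : B2), (w z : ℂ) * (a * (((w z)⁻¹ : ℝ) * c)) = a * c := fun a c z => by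
    have := Complex.ofReal_ne_zero.2 (hw z).ne'
    push_cast
    field_simp
  simpa only [hi, e] using this

theorem itg (N : St_INT) {U : Set B2} {F : Am → ℂ} (h : C.Tst U F) : Integrable F C.mu :=
  memLp_one_iff_integrable.1 ((N.tst C h).2 1)

/-- integration by parts for tests -/
theorem ibp (K : St_CAL) (N : St_INT) (T : St_ST) {U : Set B2} {F χ : Am → ℂ} (hF : C.Sm F)
    (hχ : C.Tst U χ) (b : Bool) :
    ∫ p, C.D b F p * χ p ∂C.mu = -∫ p, F p * C.D b χ p ∂C.mu ∧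
    ∫ p, C.Db b F p * χ p ∂C.mu = -∫ p, F p * C.Db b χ p ∂C.mu := by
  obtain ⟨h1, h2⟩ := T C b U _ (K.tmul C hF hχ)
  rw [integral_congr_ae ((N.ae C).mono fun p hp => ((K.mul C hF hχ.1).2 b p hp).1),
    integral_add (itg N (K.tmul C (K.smD C b hF).1 hχ)) (itg N (K.tmul C hF (K.tD C b hχ).1))] at h1
  rw [integral_congr_ae ((N.ae C).mono fun p hp => ((K.mul C hF hχ.1).2 b p hp).2),
    integral_add (itg N (K.tmul C (K.smD C b hF).2 hχ)) (itg N (K.tmul C hF (K.tD C b hχ).2))] at h2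
  exact ⟨eq_neg_of_add_eq_zero_left h1, eq_neg_of_add_eq_zero_left h2⟩

/-- the case of a test function -/
theorem test (B : St_LB) (W : St_WIR) (T : St_ST) (K : St_CAL) (N : St_INT) (R : St_BR)
    {U : Set ℂ} {a : B2 → ℂ} {e : ℂ} {m : Mo C.Ω U a e} (L : Li C m) {φ : Am → ℝ} {χ : Am → ℂ}
    (ha : ContDiff ℝ ∞ a) (hφ : C.Tst univ (cx φ)) (hχ : C.Tst (Prod.fst ⁻¹' U) χ) :
    Tendsto (fun l : ℝ => ∫ p, ((φ (L.τ l p) - φ p) / l : ℝ) * χ p ∂C.mu) (𝓝[>] 0)
      (𝓝 (-(e * ∫ p, φ p * C.D true χ p ∂C.mu) - conj e * ∫ p, φ p * C.Db true χ p ∂C.mu +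
        (e * ∫ p, C.D false (cx φ) p * (a p.1 * χ p) ∂C.mu +
          conj e * ∫ p, conj (C.D false (cx φ) p) * (conj (a p.1) * χ p) ∂C.mu))) := by
  choose M1 h1 using fun b => (N.tst C (K.tD C b hφ).1).1
  choose M2 h2 using fun b => (N.tst C (K.tD C b hφ).2).1
  set Q := m.M * |M1 true| + m.M * |M2 true| + m.M * |M1 false| + m.M * |M2 false|
  have hb : ∀ q ∈ C.S, ∀ v : B2, ‖v‖ ≤ m.M → ‖fderiv ℝ (C.dn (cx φ) q) q.1 v‖ ≤ Q := by
    intro q hq v hv
    have k : ∀ {x y : ℂ} {c : ℝ}, ‖x‖ ≤ ‖v‖ → ‖y‖ ≤ c → ‖x * y‖ ≤ m.M * |c| := fun i j => by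
      rw [norm_mul]
      exact mul_le_mul (i.trans hv) (j.trans (le_abs_self _)) (norm_nonneg _) m.nn
    rw [W.fd]
    exact norm_add_le_of_le (norm_add_le_of_le (norm_add_le_of_le (k (norm_fst_le v) (h1 true q hq))
      (k ((Complex.norm_conj _).trans_le (norm_fst_le v)) (h2 true q hq)))
      (k (norm_snd_le v) (h1 false q hq)))
      (k ((Complex.norm_conj _).trans_le (norm_snd_le v)) (h2 false q hq))
  have hl : ∀ᶠ l in 𝓝[>] (0 : ℝ), l ∈ Ioc 0 m.l0 := Ioc_mem_nhdsGT m.pos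
  have cφ := R.cont C hφ.1
  have key := tendsto_integral_filter_of_dominated_convergence (μ := C.mu) (l := 𝓝[>] (0 : ℝ))
    (F := fun l p => ((φ (L.τ l p) - φ p) / l : ℝ) * χ p)
    (f := fun p => e * (C.D true (cx φ) p * χ p) + conj e * (C.Db true (cx φ) p * χ p) +
      (e * (C.D false (cx φ) p * (a p.1 * χ p)) +
        conj e * (conj (C.D false (cx φ) p) * (conj (a p.1) * χ p))))
    (fun p => Q * ‖χ p‖) (hl.mono fun l hl => ?_) (hl.mono fun l hl => (N.ae C).mono fun p hp => ?_)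
    ((itg N hχ).norm.const_mul Q) ((N.ae C).mono fun p hp => ?_)
  · have s := hφ.1
    have sa := K.tmul C (K.smb C ha) hχ
    have sb := K.tmul C ((K.star C _).1 (K.smb C ha)) hχ
    have i1 := (itg N (K.tmul C (K.smD C true s).1 hχ)).const_mul e
    have i2 := (itg N (K.tmul C (K.smD C true s).2 hχ)).const_mul (conj e)
    have i3 := (itg N (K.tmul C (K.smD C false s).1 sa)).const_mul e
    have i4 := (itg N (K.tmul C ((K.star C _).1 (K.smD C false s).1) sb)).const_mul (conj e)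
    rw [integral_add (i1.fun_add i2) (i3.fun_add i4), integral_add i1 i2, integral_add i3 i4] at key
    simp only [integral_const_mul, (ibp K N T s hχ true).1, (ibp K N T s hχ true).2, mul_neg,
      ← sub_eq_add_neg] at key
    exact key
  · have hl' := Ioc_subset_Icc_self hl
    have c : ContinuousOn (L.τ l) C.S :=
      L.cont.comp (continuous_const.prodMk continuous_id).continuousOn fun p hp => ⟨hl', hp⟩
    have := (N.sm C ((((cφ.comp c (L.maps l hl')).sub cφ).div_const (l : ℂ)).mul (R.cont C hχ.1))).1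
    simpa [cx, Pi.mul_def] using this
  · have := norm_image_sub_le_of_norm_deriv_le_segment' (fun l hl => B.path C L l hl p hp _ hφ.1)
      (fun l hl => hb _ (L.maps l (Ico_subset_Icc_self hl) hp) _ (m.dl l (Ico_subset_Icc_self hl) _))
      l (Ioc_subset_Icc_self hl)
    rw [L.zero p hp, sub_zero, cx, cx, ← Complex.ofReal_sub] at this
    rw [norm_mul, Complex.ofReal_div, norm_div, Complex.norm_real l, Real.norm_of_nonneg hl.1.le]
    exact mul_le_mul_of_nonneg_right ((div_le_iff₀ hl.1).2 this) (norm_nonneg _)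
  · by_cases h0 : χ p = 0
    · simp [h0]
    obtain ⟨-, S, -, s2, s3⟩ := hχ
    have hU : p.1.1 ∈ U := (s2 (not_not.1 (mt (s3 p hp) h0))).2
    have := (hasDerivWithinAt_iff_tendsto_slope' (notMem_Ioi.2 le_rfl)).1
      ((B.path C L 0 (left_mem_Icc.2 m.pos.le) p hp _ hφ.1).mono_of_mem_nhdsWithin
        (Icc_mem_nhdsGT m.pos))
    rw [L.zero p hp, m.gen _ hU, W.fd] at this
    convert this.mul_const (χ p) using 2
    · simp [slope, L.zero p hp, cx, div_eq_inv_mul]
    · rw [← K.real, map_mul]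
      unfold Cv.D Cv.Db
      ring

end ID

open ID in
theorem bID (I0 : St_ID0) (T1 : St_TR1) (TL : St_TRL) (B : St_LB) (W : St_WIR) (T : St_ST)
    (K : St_CAL) (N : St_INT) (M : St_WM) (R : St_BR) : St_ID := by
  intro C U a e m L x u u' χ hx ha ⟨hu, hu', φ, hφ, t1, t2⟩ hχ
  obtain ⟨r1, r2, -⟩ := M.pos hx
  have ln := fun {f η g} => lim K (C := C) (m := C.mn x) (w := fun z => rho x z.1 * rho x z.2)
    (U := Prod.fst ⁻¹' U) (fun z => mul_pos (r1 _).1 (r1 _).1)
    ((r2.comp contDiff_fst).mul (r2.comp contDiff_snd)) (fun F => (M.intn C F hx).1)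
    (fun F h => (M.tst C true hx h).1) (f := f) (η := η) (g := g)
  have lo := fun {f η g} => lim K (C := C) (m := C.mo x false) (w := fun z => rho x z.1)
    (U := Prod.fst ⁻¹' U) (fun z => (r1 _).1) (r2.comp contDiff_fst)
    (fun F => (M.into C false F hx).1) (fun F h => (M.tst C false hx h).2) (f := f) (η := η) (g := g)
  have m1 : ∀ j, MemLp (cx (φ j)) 2 (C.mn x) := fun j => (M.tst C false hx (hφ j)).1
  have m2 : ∀ j, MemLp (C.D false (cx (φ j))) 2 (C.mo x false) := fun j =>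
    (M.tst C false hx (K.tD C false (hφ j)).1).2
  have mu : MemLp (cx u) 2 (C.mn x) := hu.ofReal
  have t3 : Tendsto (fun j => eLpNorm (cx u - cx (φ j)) 2 (C.mn x)) atTop (𝓝 0) :=
    t1.congr fun j => eLpNorm_congr_norm_ae (Eventually.of_forall fun p => by
      simp only [Pi.sub_apply, cx, ← Complex.ofReal_sub, Complex.norm_real])
  have t4 : Tendsto (fun j => eLpNorm ((fun p => conj (u' p)) - fun p => conj (C.D false (cx (φ j)) p))
      2 (C.mo x false)) atTop (𝓝 0) :=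
    t2.congr fun j => eLpNorm_congr_norm_ae (Eventually.of_forall fun p => by
      simp only [Pi.sub_apply, ← map_sub, Complex.norm_conj])
  have lam := (((ln mu m1 (K.tD C true hχ).1 t3).const_mul e).neg.sub
    ((ln mu m1 (K.tD C true hχ).2 t3).const_mul (conj e))).add
    (((lo hu' m2 (K.tmul C (K.smb C ha) hχ) t2).const_mul e).add
      ((lo hu'.star (fun j => (m2 j).star) (K.tmul C ((K.star C _).1 (K.smb C ha)) hχ) t4).const_mul
        (conj e)))
  have hχ' : C.Tst univ χ := by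
    obtain ⟨s, S, s1, s2, s3⟩ := hχ
    exact ⟨s, S, s1, fun z hz => ⟨(s2 hz).1, trivial⟩, s3⟩
  obtain ⟨c, hc⟩ := I0 C U a e m L x χ hx hχ'
  obtain ⟨d, -, hd⟩ := T1 C U a e m L x hx
  have sm : ∀ᶠ l in 𝓝[>] (0 : ℝ), d * l ≤ 1 / 2 := by
    have : Tendsto (fun l : ℝ => d * l) (𝓝[>] 0) (𝓝 (d * 0)) :=
      (tendsto_id.const_mul d).mono_left nhdsWithin_le_nhds
    exact this.eventually_le_const (by norm_num)
  have t5 : Tendsto (fun j => c * (eLpNorm (u - φ j) 2 (C.mn x)).toReal) atTop (𝓝 (c * 0)) :=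
    ((ENNReal.tendsto_toReal ENNReal.zero_ne_top).comp t1).const_mul c
  simp only [map_mul, mul_right_comm _ _ (χ _), mul_comm (_ * χ _)]
  rw [Metric.tendsto_nhds]
  intro ε hε
  obtain ⟨j, j1, j2⟩ := ((Metric.tendsto_nhds.1 lam (ε / 3) (by positivity)).and
    (t5.eventually_lt_const (by rw [mul_zero]; positivity : c * 0 < ε / 3))).exists
  filter_upwards [Metric.tendsto_nhds.1 (test B W T K N R L ha (hφ j) hχ) (ε / 3) (by positivity),
    hc, sm, Ioc_mem_nhdsGT m.pos] with l l1 l2 l3 l4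
  have iq : ∀ v : Am → ℝ, MemLp (cx v) 2 (C.mn x) →
      Integrable (fun p => (((v (L.τ l p) - v p) / l : ℝ) : ℂ) * χ p) C.mu := fun v hv => by
    obtain ⟨a1, a2, -⟩ := TL.nrm (hd l (Ioc_subset_Icc_self l4)).2.1 l3 hv.1
    have a3 : MemLp (fun p => cx v (L.τ l p)) 2 (C.mn x) :=
      ⟨a1, a2.trans_lt (ENNReal.mul_lt_top ENNReal.ofNat_lt_top hv.2)⟩
    have a4 := (M.loc C false hx).1 ((a3.sub hv).mul_const (l : ℂ)⁻¹)
    simpa [cx, div_eq_mul_inv] using (N.mul C a4 a4 hχ).1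
  have a5 := l2 (u - φ j) (hu.sub (by simpa [cx] using (m1 j).re))
  have a6 : dist (∫ p, (((u (L.τ l p) - u p) / l : ℝ) : ℂ) * χ p ∂C.mu)
      (∫ p, (((φ j (L.τ l p) - φ j p) / l : ℝ) : ℂ) * χ p ∂C.mu) ≤
        c * (eLpNorm (u - φ j) 2 (C.mn x)).toReal := by
    rw [dist_eq_norm, ← integral_sub (iq u mu) (iq _ (m1 j))]
    have : ∀ p, (((u (L.τ l p) - u p) / l : ℝ) : ℂ) * χ p -
        (((φ j (L.τ l p) - φ j p) / l : ℝ) : ℂ) * χ p =
        (l : ℂ)⁻¹ * ((((u - φ j) (L.τ l p) - (u - φ j) p : ℝ) : ℂ) * χ p) := fun p => by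
      simp only [Pi.sub_apply]
      push_cast
      ring
    simp only [this]
    rw [integral_const_mul, norm_mul, norm_inv, Complex.norm_real, Real.norm_of_nonneg l4.1.le,
      inv_mul_le_iff₀ l4.1]
    exact a5.trans (le_of_eq (by ring))
  exact (dist_triangle4 _ _ _ _).trans_lt
    ((add_lt_add (add_lt_add (a6.trans_lt j2) l1) j1).trans_eq (by ring))

end Pool.Agent.Lib.CLF
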