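import Pool.Agent.Lib.CLF.ABlue

/-! Uniform bound for the tested difference quotients. -/

open MeasureTheory Filter Topology Set Function
open scoped ContDiff ENNReal ComplexConjugate

noncomputable section

namespace Pool.Agent.Lib.CLF

namespace ID0

theorem fd_bd (hW : St_WIR) (hC : St_CAL) (hI : St_INT) (C : Cv) {χ : Am → ℂ} (h : C.Tst univ χ) :
    ∃ M, 0 ≤ M ∧ ∀ q ∈ C.S, ∀ v, ‖fderiv ℝ (C.dn χ q) q.1 v‖ ≤ M * ‖v‖ := by
  obtain ⟨M1, h1⟩ := (hI.tst C (hC.tD C true h).1).1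
  obtain ⟨M2, h2⟩ := (hI.tst C (hC.tD C true h).2).1
  obtain ⟨M3, h3⟩ := (hI.tst C (hC.tD C false h).1).1
  obtain ⟨M4, h4⟩ := (hI.tst C (hC.tD C false h).2).1
  refine ⟨|M1| + |M2| + |M3| + |M4|, by positivity, fun q hq v => ?_⟩
  have k : ∀ (a b : ℂ) (M : ℝ), ‖a‖ ≤ ‖v‖ → ‖b‖ ≤ M → ‖a * b‖ ≤ |M| * ‖v‖ := fun a b M ha hb => by
    rw [norm_mul, mul_comm]
    exact mul_le_mul (hb.trans (le_abs_self M)) ha (norm_nonneg _) (abs_nonneg _)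
  rw [hW.fd, add_mul, add_mul, add_mul]
  exact norm_add_le_of_le (norm_add_le_of_le (norm_add_le_of_le (k _ _ _ (norm_fst_le v) (h1 q hq))
    (k _ _ _ (by simpa using norm_fst_le v) (h2 q hq))) (k _ _ _ (norm_snd_le v) (h3 q hq)))
    (k _ _ _ (by simpa using norm_snd_le v) (h4 q hq))

theorem lip (hW : St_WIR) (hC : St_CAL) (hI : St_INT) (hL : St_LB) (C : Cv) {U a e}
    {m : Mo C.Ω U a e} (L : Li C m) {χ : Am → ℂ} (h : C.Tst univ χ) :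
    ∃ M, 0 ≤ M ∧ ∀ l ∈ Icc 0 m.l0, ∀ p ∈ C.S, ‖χ p - χ (L.τ l p)‖ ≤ M * l := by
  obtain ⟨M, M0, hM⟩ := fd_bd hW hC hI C h
  refine ⟨M * m.M, mul_nonneg M0 m.nn, fun l hl p hp => ?_⟩
  have := norm_image_sub_le_of_norm_deriv_le_segment' (fun l hl => hL.path C L l hl p hp χ h.1)
    (fun l hl => (hM _ (L.maps l (Ico_subset_Icc_self hl) hp) _).trans
      (mul_le_mul_of_nonneg_left (m.dl l (Ico_subset_Icc_self hl) _) M0)) l hl
  rwa [L.zero p hp, sub_zero, norm_sub_rev] at this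

theorem l1_le {m : Measure Am} [IsFiniteMeasure m] {f : Am → ℂ} {y : ℝ≥0∞} (hy : y ≠ ⊤)
    (hf : AEStronglyMeasurable f m) (h : eLpNorm f 2 m ≤ 2 * y) :
    ∫ p, ‖f p‖ ∂m ≤ 2 * (m univ ^ (1 / 2 : ℝ)).toReal * y.toReal := by
  have h1 := eLpNorm_le_eLpNorm_mul_rpow_measure_univ (p := 1) (q := 2) (by norm_num) hf
  rw [show 1 / (1 : ℝ≥0∞).toReal - 1 / (2 : ℝ≥0∞).toReal = (1 / 2 : ℝ) by norm_num] at h1
  have h2 : m univ ^ (1 / 2 : ℝ) ≠ ⊤ :=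
    ENNReal.rpow_ne_top_of_nonneg (by norm_num) (measure_ne_top m _)
  rw [integral_norm_eq_lintegral_enorm hf, ← eLpNorm_one_eq_lintegral_enorm]
  refine (ENNReal.toReal_mono (by finiteness) (h1.trans (mul_le_mul_left h _))).trans_eq ?_
  simp only [ENNReal.toReal_mul, ENNReal.toReal_ofNat]
  ring

end ID0

open ID0 in
theorem bID0 (hL : St_LB) (hT : St_TR1) (hR : St_TRL) (hI : St_INT) (hM : St_WM) (hC : St_CAL)
    (hW : St_WIR) : St_ID0 := by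
  intro C U a e m L x χ hx hχ
  obtain ⟨ρ0, sρ, -⟩ := hM.pos hx
  have := (hM.fin C hx).1
  have sh : ContDiff ℝ ∞ fun z : B2 => (((rho x z.1 * rho x z.2)⁻¹ : ℝ) : ℂ) :=
    Complex.ofRealCLM.contDiff.comp (((sρ.comp contDiff_fst).mul (sρ.comp contDiff_snd)).inv
      fun z => (mul_pos (ρ0 _).1 (ρ0 _).1).ne')
  have tψ := hC.tmul C (hC.smb C sh) hχ
  set ψ : Am → ℂ := fun p => (((rho x p.1.1 * rho x p.1.2)⁻¹ : ℝ) : ℂ) * χ p with hψ
  obtain ⟨M1, p1, b1⟩ := lip hW hC hI hL C L tψ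
  obtain ⟨M0, b0⟩ := (hI.tst C tψ).1
  obtain ⟨c, c0, tr⟩ := hT C U a e m L x hx
  have aS : ∀ᵐ p ∂C.mn x, p ∈ C.S := (hM.ac C true hx).1.ae_le (hI.ae C)
  have mψ := (hM.tst C true hx tψ).1.1
  refine ⟨(M1 + c * |M0|) * (2 * (C.mn x univ ^ (1 / 2 : ℝ)).toReal), ?_⟩
  have ev : ∀ᶠ l in 𝓝[>] (0 : ℝ), c * l ≤ 1 / 2 := mem_nhdsWithin_of_mem_nhds
    (((continuous_const.mul continuous_id).tendsto' (0 : ℝ) 0 (by simp)).eventually_le_const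
      (by norm_num))
  filter_upwards [ev, Ioc_mem_nhdsGT m.pos] with l hc hl u hu
  have hl' : l ∈ Icc 0 m.l0 := Ioc_subset_Icc_self hl
  have t := (tr l hl').2.1
  have hf : MemLp (cx u) 2 (C.mn x) := hu.ofReal
  have nf : eLpNorm (cx u) 2 (C.mn x) = eLpNorm u 2 (C.mn x) :=
    eLpNorm_congr_norm_ae (Eventually.of_forall fun p => by simp [cx])
  obtain ⟨n1, n2, -⟩ := hR.nrm t hc hf.1
  rw [nf] at n2
  have i0 : Integrable (fun p => cx u (L.τ l p)) (C.mn x) :=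
    MemLp.integrable (q := 2) (by norm_num)
      ⟨n1, n2.trans_lt (ENNReal.mul_lt_top (by simp) hu.2)⟩
  have bψ : ∀ᵐ p ∂C.mn x, ‖ψ p‖ ≤ M0 := aS.mono b0
  have i1 : Integrable (fun p => cx u p * ψ p) (C.mn x) :=
    (hf.integrable (by norm_num)).mul_bdd mψ bψ
  have i2 : Integrable (fun p => cx u (L.τ l p) * ψ p) (C.mn x) := i0.mul_bdd mψ bψ
  obtain ⟨i3, e3⟩ := hR.int t hc i1
  have l1 := l1_le hu.2.ne n1 n2
  have e1 : ∫ p, (u (L.τ l p) - u p : ℝ) * χ p ∂C.mu =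
      ∫ p, cx u (L.τ l p) * (ψ p - ψ (L.τ l p)) ∂C.mn x +
        (∫ p, cx u (L.τ l p) * ψ (L.τ l p) ∂C.mn x - ∫ p, cx u p * ψ p ∂C.mn x) := by
    simp only [mul_sub]
    rw [integral_sub i2 i3, sub_add_sub_cancel, ← integral_sub i2 i1, (hM.intn C _ hx).1]
    refine integral_congr_ae (Eventually.of_forall fun p => ?_)
    have : ((rho x p.1.1 * rho x p.1.2 : ℝ) : ℂ) ≠ 0 :=
      Complex.ofReal_ne_zero.2 (mul_pos (ρ0 _).1 (ρ0 _).1).ne'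
    simp only [hψ, cx, Complex.ofReal_inv, Complex.ofReal_sub]
    field_simp
  have e2 : ‖∫ p, cx u (L.τ l p) * (ψ p - ψ (L.τ l p)) ∂C.mn x‖ ≤
      (∫ p, ‖cx u (L.τ l p)‖ ∂C.mn x) * (M1 * l) := by
    rw [← integral_mul_const]
    refine norm_integral_le_of_norm_le (i0.norm.mul_const _) (aS.mono fun p hp => ?_)
    rw [norm_mul]
    exact mul_le_mul_of_nonneg_left (b1 l hl' p hp) (norm_nonneg _)
  have e4 : ∫ p, ‖cx u (L.τ l p) * ψ (L.τ l p)‖ ∂C.mn x ≤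
      (∫ p, ‖cx u (L.τ l p)‖ ∂C.mn x) * |M0| := by
    rw [← integral_mul_const]
    refine integral_mono_ae i3.norm (i0.norm.mul_const _) (aS.mono fun p hp => ?_)
    simp only [norm_mul]
    exact mul_le_mul_of_nonneg_left ((b0 _ (L.maps l hl' hp)).trans (le_abs_self _)) (norm_nonneg _)
  have cl : 0 ≤ c * l := mul_nonneg c0 hl'.1
  rw [e1]
  refine (norm_add_le_of_le e2 (e3.trans (mul_le_mul_of_nonneg_left e4 cl))).trans ?_
  have k : 0 ≤ (M1 + c * |M0|) * l := mul_nonneg (by positivity) hl'.1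
  refine le_of_eq_of_le (b := (M1 + c * |M0|) * l * ∫ p, ‖cx u (L.τ l p)‖ ∂C.mn x) (by ring) ?_
  exact (mul_le_mul_of_nonneg_left l1 k).trans_eq (by ring)

end Pool.Agent.Lib.CLF
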