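import Pool.Agent.Lib.CLF.BBlue

/-! Comparison of the coefficients of a monic polynomial with its roots. -/

open Module Submodule

noncomputable section

namespace Pool.Agent.Lib.CLF

namespace INC

variable {L ι : Type} [Field L] [Algebra ℂ L] [Fintype ι] {z : ι → L}

theorem mono_mem {e a : ι → ℕ} (h : e ≤ a) : ∏ i, z i ^ e i ∈ Us ℂ z a := subset_span ⟨e, h, rfl⟩

theorem one_mem (a : ι → ℕ) : (1 : L) ∈ Us ℂ z a := by
  simpa using mono_mem (z := z) (e := 0) (a := a) bot_le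

theorem Us_mono {a b : ι → ℕ} (h : a ≤ b) : Us ℂ z a ≤ Us ℂ z b :=
  span_mono fun _ ⟨e, he, hw⟩ => ⟨e, he.trans h, hw⟩

theorem Us_mul (a b : ι → ℕ) : Us ℂ z a * Us ℂ z b ≤ Us ℂ z (a + b) := by
  rw [Us, Us, span_mul_span]
  refine span_mono ?_
  rintro _ ⟨_, ⟨e, he, rfl⟩, _, ⟨f, hf, rfl⟩, rfl⟩
  exact ⟨e + f, add_le_add he hf, by simp [pow_add, Finset.prod_mul_distrib]⟩

theorem Us_pow {U : Submodule ℂ L} {a : ι → ℕ} (h : U ≤ Us ℂ z a) (s : ℕ) :
    U ^ s ≤ Us ℂ z (s • a) := by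
  induction s with
  | zero => rw [pow_zero]; exact one_le.2 (one_mem _)
  | succ s ih => rw [pow_succ, succ_nsmul]; exact (mul_le_mul' ih h).trans (Us_mul _ _)

theorem coeff_mem [DecidableEq ι] {κ : Type} (φ : κ → ι) (s : Finset κ) (r : ℕ) :
    (∏ i ∈ s, (Polynomial.X - Polynomial.C (z (φ i)))).coeff r ∈
      Us ℂ z (∑ i ∈ s, Pi.single (φ i) 1) := by
  classical
  induction s using Finset.induction_on generalizing r with
  | empty =>
    rw [Finset.prod_empty, Polynomial.coeff_one]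
    split_ifs
    exacts [one_mem _, zero_mem _]
  | insert i s hi ih =>
    rw [Finset.prod_insert hi, Finset.sum_insert hi, Polynomial.coeff_mul]
    refine sum_mem fun p _ => Us_mul _ _ (mul_mem_mul ?_ (ih _))
    have hz : z (φ i) ∈ Us ℂ z (Pi.single (φ i) 1) := by
      have := mono_mem (z := z) (e := Pi.single (φ i) 1) le_rfl
      rwa [Finset.prod_eq_single (φ i) (fun j _ hj => by rw [Pi.single_eq_of_ne hj, pow_zero])
        (fun h => (h (Finset.mem_univ _)).elim), Pi.single_eq_same, pow_one] at this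
    rw [Polynomial.coeff_sub, Polynomial.coeff_X, Polynomial.coeff_C]
    refine sub_mem ?_ ?_ <;> split_ifs
    exacts [one_mem _, zero_mem _, hz, zero_mem _]

theorem cf_le {n k : ℕ} (φ : Fin k → ι) {a : ι → ℕ} (hφ : Function.Injective φ)
    (ha : ∀ i, 1 ≤ a (φ i)) : span ℂ (Set.range (cf n fun i => z (φ i))) ≤ Us ℂ z a := by
  classical
  refine span_le.2 ?_
  rintro _ ⟨r, rfl⟩
  refine Us_mono (fun j => ?_) (coeff_mem φ Finset.univ r)
  rw [Finset.sum_apply]
  by_cases h : ∃ i, φ i = j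
  · obtain ⟨i, rfl⟩ := h
    rw [Finset.sum_eq_single i (fun l _ hl => Pi.single_eq_of_ne (hφ.ne hl).symm _)
      (fun h => (h (Finset.mem_univ _)).elim), Pi.single_eq_same]
    exact ha i
  · rw [Finset.sum_eq_zero fun i _ => Pi.single_eq_of_ne (fun e => h ⟨i, e.symm⟩) _]
    exact Nat.zero_le _

theorem rk_mul (A B : Submodule ℂ L) [FiniteDimensional ℂ A] [FiniteDimensional ℂ B] :
    FiniteDimensional ℂ (A * B : Submodule ℂ L) ∧
      finrank ℂ (A * B : Submodule ℂ L) ≤ finrank ℂ A * finrank ℂ B := by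
  rw [← mulMap_range, ← finrank_tensorProduct]
  exact ⟨inferInstance, LinearMap.finrank_range_le _⟩

/-- The span of the first powers. -/
def W (n : ℕ) (a : L) : Submodule ℂ L := span ℂ (Set.range fun r : Fin (n + 1) => a ^ (r : ℕ))

theorem rk_prod {κ : Type} (n : ℕ) (ξ : κ → L) (s : Finset κ) :
    FiniteDimensional ℂ (∏ i ∈ s, W n (ξ i) : Submodule ℂ L) ∧
      finrank ℂ (∏ i ∈ s, W n (ξ i) : Submodule ℂ L) ≤ (n + 1) ^ s.card := by
  classical
  induction s using Finset.induction_on with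
  | empty =>
    rw [Finset.prod_empty, one_eq_span]
    exact ⟨inferInstance, (finrank_span_le_card _).trans (by simp)⟩
  | insert i s hi ih =>
    obtain ⟨_, ih⟩ := ih
    have : FiniteDimensional ℂ (W n (ξ i)) := FiniteDimensional.span_of_finite _ (Set.finite_range _)
    rw [Finset.prod_insert hi, Finset.card_insert_of_notMem hi, pow_succ']
    exact ⟨(rk_mul _ _).1, (rk_mul _ _).2.trans (Nat.mul_le_mul
      ((finrank_range_le_card _).trans_eq (Fintype.card_fin _)) ih)⟩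

theorem prod_mem {κ : Type} (f : κ → L) (U : κ → Submodule ℂ L) (s : Finset κ)
    (h : ∀ i, f i ∈ U i) : ∏ i ∈ s, f i ∈ ∏ i ∈ s, U i := by
  classical
  induction s using Finset.induction_on with
  | empty => simp [one_eq_span]
  | insert i s hi ih => rw [Finset.prod_insert hi, Finset.prod_insert hi]; exact mul_mem_mul (h i) ih

variable {n k : ℕ} (ξ : Fin k → L)

omit [Algebra ℂ L] in
theorem deg : (∏ i, (Polynomial.X - Polynomial.C (ξ i))).natDegree = k :=
  (Polynomial.natDegree_finsetProd_X_sub_C_eq_card _ _).trans (by simp)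

omit [Algebra ℂ L] in
theorem lead : (∏ i, (Polynomial.X - Polynomial.C (ξ i))).coeff k = 1 := by
  have := (Polynomial.monic_prod_X_sub_C ξ Finset.univ).coeff_natDegree
  rwa [deg] at this

theorem one_le_X (hk : k ≤ n) : 1 ≤ span ℂ (Set.range (cf n ξ)) :=
  one_le.2 (subset_span ⟨⟨k, by omega⟩, lead ξ⟩)

theorem step (hk : k ≤ n) (i : Fin k) :
    span ℂ {ξ i} * W n (ξ i) ≤ span ℂ (Set.range (cf n ξ)) * W n (ξ i) := by
  have hW : ∀ r ≤ n, ξ i ^ r ∈ W n (ξ i) := fun r hr => subset_span ⟨⟨r, by omega⟩, rfl⟩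
  nth_rw 1 [W]
  rw [span_mul_span, span_le]
  rintro _ ⟨_, rfl, _, ⟨r, rfl⟩, rfl⟩
  change ξ i * ξ i ^ (r : ℕ) ∈ _
  rw [← pow_succ']
  by_cases h : (r : ℕ) < n
  · rw [← one_mul (ξ i ^ _)]
    exact mul_mem_mul (one_le.1 (one_le_X ξ hk)) (hW _ h)
  · have e : (∏ l, (Polynomial.X - Polynomial.C (ξ l))).eval (ξ i) = 0 := by
      rw [Polynomial.eval_prod]
      exact Finset.prod_eq_zero (Finset.mem_univ i) (by simp)
    rw [Polynomial.eval_eq_sum_range, deg, Finset.sum_range_succ, lead, one_mul] at e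
    have hr := r.2
    rw [show (r : ℕ) + 1 = k + (n + 1 - k) by omega, pow_add, eq_neg_of_add_eq_zero_right e, neg_mul,
      Finset.sum_mul]
    refine neg_mem (sum_mem fun l hl => ?_)
    have hl := Finset.mem_range.1 hl
    rw [mul_assoc, ← pow_add]
    exact mul_mem_mul (subset_span ⟨⟨l, by omega⟩, rfl⟩) (hW _ (by omega))

theorem pow_mem (hk : k ≤ n) (i : Fin k) {e s : ℕ} (h : e ≤ s) :
    ξ i ^ e ∈ span ℂ (Set.range (cf n ξ)) ^ s * W n (ξ i) := by
  refine mul_le_mul' (pow_le_pow_right' (one_le_X ξ hk) h) le_rfl ?_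
  clear h
  induction e with
  | zero => rw [pow_zero, pow_zero, one_mul]; exact subset_span ⟨0, pow_zero _⟩
  | succ e ih =>
    have := mul_mem_mul (mem_span_singleton_self (R := ℂ) (ξ i)) ih
    rw [← pow_succ', mul_left_comm] at this
    rw [pow_succ, mul_assoc]
    exact mul_le_mul' le_rfl (step ξ hk i) this

theorem prod_pow_mem (hk : k ≤ n) {e : Fin k → ℕ} {s : ℕ} (h : ∀ i, e i ≤ s) :
    ∏ i, ξ i ^ e i ∈ span ℂ (Set.range (cf n ξ)) ^ (n * s) * ∏ i, W n (ξ i) := by
  have := prod_mem _ _ Finset.univ fun i => pow_mem ξ hk i (h i)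
  rw [Finset.prod_mul_distrib, Finset.prod_const, Finset.card_fin, ← pow_mul] at this
  exact mul_le_mul' (pow_le_pow_right' (one_le_X ξ hk)
    ((Nat.mul_le_mul_left s hk).trans_eq (mul_comm _ _))) le_rfl this

end INC

open INC in
theorem bINC (hHV : St_HV) : St_INC where
  le {n m n' m' L} _ _ ξ η s t := by
    rw [hHV.pow]
    refine (mul_le_mul'
      (Us_pow (cf_le (z := Sum.elim ξ η) (a := Sum.elim (fun _ => 1) fun _ => 0) Sum.inl
        Sum.inl_injective fun _ => le_rfl) s)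
      (Us_pow (cf_le (z := Sum.elim ξ η) (a := Sum.elim (fun _ => 0) fun _ => 1) Sum.inr
        Sum.inr_injective fun _ => le_rfl) t)).trans ((Us_mul _ _).trans (Us_mono ?_))
    rintro (i | i) <;> simp
  ge {n m n' m' L} _ _ ξ η s t hn hm := by
    obtain ⟨_, h1⟩ := rk_prod n ξ Finset.univ
    obtain ⟨_, h2⟩ := rk_prod m η Finset.univ
    have := hHV.fin (cf n ξ) (cf m η) (n * s, m * t)
    obtain ⟨_, h3⟩ := rk_mul (∏ i, W n (ξ i)) (∏ i, W m (η i))
    obtain ⟨_, h4⟩ := rk_mul ((∏ i, W n (ξ i)) * ∏ i, W m (η i))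
      (VV (cf n ξ) (cf m η) (n * s, m * t))
    rw [Finset.card_fin] at h1 h2
    refine (finrank_mono ?_).trans (h4.trans (Nat.mul_le_mul_right _ (h3.trans (Nat.mul_le_mul
      (h1.trans (Nat.pow_le_pow_right n.succ_pos hn))
      (h2.trans (Nat.pow_le_pow_right m.succ_pos hm))))))
    refine span_le.2 ?_
    rintro _ ⟨e, he, rfl⟩
    rw [hHV.pow, Fintype.prod_sum_type, mul_mul_mul_comm, mul_comm (∏ i, W n (ξ i)),
      mul_comm (∏ i, W m (η i))]
    exact mul_mem_mul (prod_pow_mem ξ hn fun i => he (.inl i))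
      (prod_pow_mem η hm fun i => he (.inr i))

end Pool.Agent.Lib.CLF
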