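import Pool.Agent.Lib.CLF.BBlue

/-! Noetherian induction on bihomogeneous ideals. -/

open Pool.Agent.Lib.MP_08f962_ag

namespace Pool.Agent.Lib.CLF

theorem bIND : St_IND := by
  intro n m Q h1 h2 h3 I
  induction I using WellFoundedGT.induction with
  | ind I ih =>
  intro hI
  by_cases h : I = ⊤
  · exact h ▸ h1
  by_cases hp : I.IsPrime
  · exact h2 I hp hI ih
  have h4 := mt (hI.isPrime h) hp
  push Not at h4
  obtain ⟨p, q, f, g, hf', hg, hfg, h5, h6⟩ := h4
  have h7 : I ≤ I.colon {g} := fun w hw =>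
    Submodule.mem_colon_singleton.2 (I.mul_mem_right _ hw)
  refine h3 I (I ⊔ Ideal.span {g}) (I.colon {g}) q le_sup_left h7 (hI.sup_span hg) (hI.colon hg)
    (hf_colon hI hg fun h0 => h6 (h0 ▸ I.zero_mem)) (ih _ ?_ (hI.sup_span hg))
    (ih _ ?_ (hI.colon hg))
  · exact lt_of_le_not_ge le_sup_left fun h =>
      h6 (h (Ideal.mem_sup_right (Ideal.mem_span_singleton_self g)))
  · exact lt_of_le_not_ge h7 fun h => h5 (h (Submodule.mem_colon_singleton.2 hfg))

end Pool.Agent.Lib.CLF
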