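import Pool.Agent.Lib.CLF.BBlue

/-! The inner bound. -/

open MvPolynomial Filter Topology Function Module Pool.Agent.Lib.MP_08f962_ag
open scoped NNReal

noncomputable section

namespace Pool.Agent.Lib.CLF

namespace INN

variable {n m : ℕ}

lemma cn_sub {F : S n m} {k : ℕ} {c : ℕ × ℕ → ℝ} (h : c ∈ Cn (Ideal.span {F}) k) :
    c ∈ Submodule.span ℝ≥0
      {c | ∃ P : Ideal (S n m), P.IsPrime ∧ IsBihom P ∧ F ∈ P ∧ IsClass P k c} := by
  induction h using AddSubmonoid.closure_induction with
  | zero => exact Submodule.zero_mem _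
  | add a b _ _ ha hb => exact Submodule.add_mem _ ha hb
  | mem c hc =>
    obtain ⟨P, p1, p2, p3, q, q1, q2, q3⟩ := hc
    rcases q1.eq_or_lt with h | h
    · exact Submodule.subset_span
        ⟨P, p1, p2, p3 (Ideal.mem_span_singleton_self F), q, h, q2, q3⟩
    · have : c = 0 := by
        funext ⟨a, b⟩
        rw [q3]
        split_ifs with h1
        · rw [coeff_eq_zero_of_totalDegree_lt, mul_zero]
          · rfl
          · refine h.trans_eq ?_
            change k = Finsupp.degree _
            simp [h1]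
        · rfl
      exact this ▸ Submodule.zero_mem _

lemma sh10 (d e : ℝ) (a b : ℕ) :
    sh 1 0 (sh d e (Pi.single (a + 1, b) 1)) = sh d e (Pi.single (a, b) 1) := by
  funext ⟨x, y⟩
  simp [sh, Pi.single_apply]

lemma sh01 (d e : ℝ) (a b : ℕ) :
    sh 0 1 (sh d e (Pi.single (a, b + 1) 1)) = sh d e (Pi.single (a, b) 1) := by
  funext ⟨x, y⟩
  simp [sh, Pi.single_apply]

end INN

theorem bINN (hB : St_BOT) (hP : St_CUTP) (hC : St_CONE) : St_INN := by
  rintro n m d e k F hn hF h0 c ⟨w, w0, w1, w2⟩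
  have top : ∀ k, n + m = k + 1 → sh d e (Pi.single (n, m) 1) ∈ Cn (Ideal.span {F}) k :=
    fun k hk => by
    have := hP n m ⊥ F d e k _ Ideal.isPrime_bot (fun f hf p => by
      rw [Ideal.mem_bot.1 hf, map_zero]; exact Ideal.zero_mem _) hF (by simpa using h0)
      (hk ▸ hB n m)
    rwa [bot_sup_eq] at this
  have s1 : ∀ i a k, a + i = n → a + m = k + 1 →
      sh d e (Pi.single (a, m) 1) ∈ Cn (Ideal.span {F}) k := fun i => by
    induction i with
    | zero => rintro a k rfl hk; exact top k hk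
    | succ i ih =>
      intro a k h1 h2
      rw [← INN.sh10]
      exact (hC.cut (ih (a + 1) (k + 1) (by omega) (by omega))).1
  have s2 : ∀ j a b k, a ≤ n → b + j = m → a + b = k + 1 →
      sh d e (Pi.single (a, b) 1) ∈ Cn (Ideal.span {F}) k := fun j => by
    induction j with
    | zero => rintro a b k h1 rfl hk; exact s1 (n - a) a k (by omega) hk
    | succ j ih =>
      intro a b k h1 h2 h3
      rw [← INN.sh01]
      exact (hC.cut (ih a (b + 1) (k + 1) h1 (by omega) (by omega))).2
  have hw : w = ∑ p ∈ Finset.HasAntidiagonal.antidiagonal (k + 1), w p • (Pi.single p 1 : ℕ × ℕ → ℝ) := by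
    funext q
    simp only [Finset.sum_apply, Pi.smul_apply, Pi.single_apply, smul_eq_mul, mul_ite, mul_one,
      mul_zero, Finset.sum_ite_eq, Finset.HasAntidiagonal.mem_antidiagonal]
    split_ifs with h
    · rfl
    · by_contra h1
      exact h (w1 q.1 q.2 h1).1
  have e1 : c = ∑ p ∈ Finset.HasAntidiagonal.antidiagonal (k + 1),
      (⟨w p, w0 p⟩ : ℝ≥0) • sh d e (Pi.single p 1) := by
    funext ⟨a, b⟩
    rw [w2, congrFun hw (a + 1, b), congrFun hw (a, b + 1)]
    simp only [Finset.sum_apply, Pi.smul_apply, smul_eq_mul, Finset.mul_sum,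
      ← Finset.sum_add_distrib, sh]
    refine Finset.sum_congr rfl fun p _ => ?_
    change _ = w p * _
    ring
  rw [e1]
  refine subset_closure (Submodule.sum_mem _ fun p _ => ?_)
  by_cases h : w p = 0
  · have : (⟨w p, w0 p⟩ : ℝ≥0) = 0 := NNReal.eq h
    rw [this, zero_smul]
    exact Submodule.zero_mem _
  · obtain ⟨h1, h2, h3⟩ := w1 p.1 p.2 h
    exact Submodule.smul_mem _ _ (INN.cn_sub (s2 (m - p.2) p.1 p.2 k h2 (by omega) h1))

end Pool.Agent.Lib.CLF
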