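import Pool.Agent.Lib.CLF.ABlue

/-! Integration on the cover. -/

open MeasureTheory Filter Topology Set Function
open scoped ContDiff ENNReal ComplexConjugate

noncomputable section

namespace Pool.Agent.Lib.CLF

namespace INT

variable (C : Cv)

lemma mg (k : Fin C.β) : Measurable fun z : B2 => ((z, C.r k z) : Am) :=
  measurable_id.prodMk (C.meas k)

lemma le_mu (k : Fin C.β) : (volume.restrict C.Ω).map (fun z => ((z, C.r k z) : Am)) ≤ C.mu :=
  Finset.single_le_sum (f := fun k => (volume.restrict C.Ω).map fun z => ((z, C.r k z) : Am))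
    (fun _ _ => Measure.zero_le _) (Finset.mem_univ k)

lemma lint_sum {n : ℕ} {ν : Measure B2} {g : Fin n → B2 → Am} (hg : ∀ k, AEMeasurable (g k) ν)
    {F : Am → ℝ≥0∞} (hF : ∀ k, AEMeasurable F (ν.map (g k))) :
    ∫⁻ p, F p ∂(∑ k, ν.map (g k)) = ∫⁻ z, ∑ k, F (g k z) ∂ν := by
  rw [lintegral_finsetSum_measure, lintegral_finsetSum' (f := fun k z => F (g k z)) _ fun k _ =>
    (hF k).comp_aemeasurable (hg k)]
  exact Finset.sum_congr rfl fun k _ => lintegral_map' (hF k) (hg k)

lemma restr {V : Set B2} (hV : MeasurableSet V) (h : V ⊆ C.Ω) :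
    C.mu.restrict (Prod.fst ⁻¹' V) = ∑ k, (volume.restrict V).map fun z => ((z, C.r k z) : Am) := by
  rw [Cv.mu, ← Measure.restrictₗ_apply, map_sum]
  refine Finset.sum_congr rfl fun k _ => ?_
  rw [Measure.restrictₗ_apply, Measure.restrict_map (mg C k) (measurable_fst hV)]
  congr 1
  exact (Measure.restrict_restrict hV).trans (by rw [inter_eq_left.2 h])

lemma sum_eq {n : ℕ} {a b : Fin n → ℂ} (ha : Injective a) (hb : Injective b)
    (h : range a = range b) {M : Type*} [AddCommMonoid M] (f : ℂ → M) :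
    ∑ k, f (a k) = ∑ k, f (b k) := by
  classical
  rw [← Finset.sum_image (s := Finset.univ) (g := a) (f := f) ha.injOn,
    ← Finset.sum_image (s := Finset.univ) (g := b) (f := f) hb.injOn]
  congr 1
  rw [← Finset.coe_inj, Finset.coe_image, Finset.coe_image, Finset.coe_univ, image_univ,
    image_univ, h]

lemma map_fst : C.mu.map Prod.fst = C.β • volume.restrict C.Ω := by
  rw [Cv.mu, ← Measure.mapₗ_apply_of_measurable measurable_fst, map_sum]
  rw [Finset.sum_congr rfl (g := fun _ => volume.restrict C.Ω) fun k _ => ?_]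
  · simp
  · rw [Measure.mapₗ_apply_of_measurable measurable_fst, Measure.map_map measurable_fst (mg C k)]
    exact Measure.map_id

lemma fin {K : Set B2} (hK : IsCompact K) :
    IsFiniteMeasure (C.mu.restrict (Prod.fst ⁻¹' K)) := by
  refine isFiniteMeasure_restrict.2 ?_
  rw [← Measure.map_apply measurable_fst hK.measurableSet, map_fst, Measure.smul_apply,
    nsmul_eq_mul]
  exact ENNReal.mul_ne_top (ENNReal.natCast_ne_top _)
    ((Measure.restrict_apply_le _ _).trans_lt hK.measure_lt_top).ne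

variable (hB : St_BR)
include hB

lemma ae : ∀ᵐ p ∂C.mu, p ∈ C.S := by
  rw [Cv.mu, ae_finsetSum_measure_iff]
  intro k _
  refine (ae_map_iff (p := fun x => x ∈ C.S) (mg C k).aemeasurable (hB.meas C)).2 ?_
  filter_upwards [ae_restrict_mem C.op.measurableSet] with z hz
  exact ⟨hz, k, rfl⟩

lemma aesm {F : Am → ℂ} (hF : ContinuousOn F C.S) : AEStronglyMeasurable F C.mu := by
  rw [← Measure.restrict_eq_self_of_ae_mem (ae C hB)]
  exact hF.aestronglyMeasurable (hB.meas C)

lemma mem_cpt {F : Am → ℂ} (hF : ContinuousOn F C.S) {K : Set B2} (hK : IsCompact K)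
    (hΩ : K ⊆ C.Ω) (q : ℝ≥0∞) : MemLp F q (C.mu.restrict (Prod.fst ⁻¹' K)) := by
  have := fin C hK
  obtain ⟨M, hM⟩ := (hB.cpt C hK hΩ).exists_bound_of_continuousOn (hF.mono inter_subset_left)
  refine MemLp.of_bound (aesm C hB hF).restrict M ?_
  filter_upwards [ae_restrict_of_ae (ae C hB), ae_restrict_mem (measurable_fst hK.measurableSet)]
    with p h1 h2
  exact hM p ⟨h1, h2⟩

lemma mem_of {F : Am → ℂ} {K : Set B2} (hK : IsCompact K) (h0 : ∀ p ∈ C.S, p.1 ∉ K → F p = 0)
    {q : ℝ≥0∞} (h : MemLp F q (C.mu.restrict (Prod.fst ⁻¹' K))) : MemLp F q C.mu := by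
  rw [← memLp_indicator_iff_restrict (measurable_fst hK.measurableSet)] at h
  refine h.ae_eq ?_
  filter_upwards [ae C hB] with p hp
  by_cases h1 : p ∈ Prod.fst ⁻¹' K
  · exact indicator_of_mem h1 F
  · rw [indicator_of_notMem h1, h0 p hp h1]

end INT

theorem bINT (hB : St_BR) : St_INT where
  ae C := INT.ae C hB
  sf C := by
    refine SigmaFinite.of_map C.mu measurable_fst.aemeasurable ?_
    rw [INT.map_fst, ← Nat.cast_smul_eq_nsmul NNReal]
    infer_instance
  lint C F hF := INT.lint_sum (fun k => (INT.mg C k).aemeasurable)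
    fun k => hF.mono_measure (INT.le_mu C k)
  int C F hF := by
    have h (k : Fin C.β) := hF.mono_measure (INT.le_mu C k)
    rw [Cv.mu, integral_finsetSum_measure fun k _ => h k,
      integral_finsetSum (f := fun k z => F (z, C.r k z)) _ fun k _ =>
        (h k).comp_measurable (INT.mg C k)]
    exact Finset.sum_congr rfl fun k _ => integral_map (INT.mg C k).aemeasurable (h k).1
  loc C V b hV hΩ hb h := by
    rw [INT.restr C hV hΩ]
    refine Measure.ext_of_lintegral _ fun f hf => ?_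
    rw [INT.lint_sum (fun k => (INT.mg C k).aemeasurable) fun _ => hf.aemeasurable,
      INT.lint_sum (fun k => aemeasurable_id'.prodMk ((hb k).aemeasurable hV))
        fun _ => hf.aemeasurable]
    refine setLIntegral_congr_fun hV fun z hz => ?_
    exact INT.sum_eq (C.inj z (hΩ hz)) (h z hz).1 (h z hz).2.symm fun c => f (z, c)
  map := INT.map_fst
  sm C F hF := ⟨INT.aesm C hB hF, fun K hK hΩ => INT.mem_cpt C hB hF hK hΩ 2⟩
  tst C U F hF := by
    obtain ⟨h1, K, hK, hΩ, h0⟩ := hF
    have hΩ' : K ⊆ C.Ω := hΩ.trans inter_subset_left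
    refine ⟨?_, fun q => INT.mem_of C hB hK h0 (INT.mem_cpt C hB (hB.cont C h1) hK hΩ' q)⟩
    obtain ⟨M, hM⟩ := (hB.cpt C hK hΩ').exists_bound_of_continuousOn
      ((hB.cont C h1).mono inter_subset_left)
    refine ⟨max M 0, fun p hp => ?_⟩
    by_cases h : p.1 ∈ K
    · exact (hM p ⟨hp, h⟩).trans (le_max_left _ _)
    · rw [h0 p hp h, norm_zero]
      exact le_max_right _ _
  mul C U f g χ hf hg hχ := by
    obtain ⟨h1, K, hK, hΩ, h0⟩ := hχ
    have hΩ' : K ⊆ C.Ω := hΩ.trans inter_subset_left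
    have := INT.fin C hK
    have hc := INT.mem_cpt C hB (hB.cont C h1) hK hΩ' ⊤
    have h2 {f : Am → ℂ} (hf : C.Loc f) :
        MemLp (fun p => f p * χ p) 2 (C.mu.restrict (Prod.fst ⁻¹' K)) :=
      hc.mul' (hf.2 K hK hΩ')
    refine ⟨memLp_one_iff_integrable.1 (INT.mem_of C hB hK (fun p hp h => ?_)
        ((h2 hf).mono_exponent one_le_two)),
      memLp_one_iff_integrable.1 (INT.mem_of C hB hK (fun p hp h => ?_) ?_),
      INT.mem_of C hB hK (fun p hp h => ?_) (h2 hf)⟩
    · rw [h0 p hp h, mul_zero]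
    · rw [h0 p hp h, mul_zero]
    · simp only [mul_assoc]
      exact (h2 hg).mul' (hf.2 K hK hΩ')
    · rw [h0 p hp h, mul_zero]

end Pool.Agent.Lib.CLF
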