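import Pool.Agent.Lib.CLF.ABlue

/-! Jacobian and weights under the motion. -/

open MeasureTheory Filter Topology Set Function
open scoped ContDiff ENNReal ComplexConjugate

noncomputable section

namespace Pool.Agent.Lib.CLF

namespace JAC

lemma s_det : ContDiff ℝ 1 fun A : B2 →L[ℝ] B2 => A.det := by
  classical
  have b := Module.finBasis ℝ B2
  have : (fun A : B2 →L[ℝ] B2 => A.det) = fun A => ∑ σ : Equiv.Perm (Fin (Module.finrank ℝ B2)),
      ((Equiv.Perm.sign σ : ℤ) : ℝ) * ∏ i, b.repr (A (b i)) (σ i) := by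
    funext A
    rw [ContinuousLinearMap.det, ← LinearMap.det_toMatrix b, Matrix.det_apply']
    simp [LinearMap.toMatrix_apply]
  rw [this]
  refine ContDiff.sum fun σ _ => contDiff_const.mul (contDiff_prod fun i _ => ?_)
  exact (LinearMap.toContinuousLinearMap (b.coord (σ i))).contDiff.comp
    (contDiff_id.clm_apply contDiff_const)

lemma det_lip : ∃ K : ℝ, 0 ≤ K ∧ ∀ A : B2 →L[ℝ] B2, ‖A - ContinuousLinearMap.id ℝ B2‖ ≤ 1 →
    abs (|A.det| - 1) ≤ K * ‖A - ContinuousLinearMap.id ℝ B2‖ := by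
  obtain ⟨K, hK⟩ := s_det.contDiffOn.exists_lipschitzOnWith one_ne_zero
    (convex_closedBall (ContinuousLinearMap.id ℝ B2) 1) (isCompact_closedBall _ _)
  refine ⟨K, K.2, fun A hA => ?_⟩
  have := hK.dist_le_mul A (mem_closedBall_iff_norm.2 hA) _ (Metric.mem_closedBall_self zero_le_one)
  have e : (ContinuousLinearMap.id ℝ B2).det = 1 := by simp [ContinuousLinearMap.det]
  rw [dist_eq_norm, dist_eq_norm, e, Real.norm_eq_abs] at this
  refine le_trans ?_ this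
  simpa using abs_abs_sub_abs_le_abs_sub A.det 1

lemma rho_lip {x ε : ℝ} (hx : 0 < x) {z w : ℂ} (h : ‖w - z‖ ≤ ε) (hε : ε ≤ 1 / 8) :
    |rho x w / rho x z - 1| ≤ 5 * ε := by
  have e0 := (norm_nonneg _).trans h
  have a := norm_nonneg w
  have b := norm_nonneg z
  have h1 := abs_le.1 ((abs_norm_sub_norm_le w z).trans h)
  have p : 0 < 1 + ‖w‖ ^ 2 := by positivity
  have e : rho x w / rho x z = ((1 + ‖z‖ ^ 2) / (1 + ‖w‖ ^ 2)) ^ 2 := by
    unfold rho; field_simp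
  have h2 : |(1 + ‖z‖ ^ 2) / (1 + ‖w‖ ^ 2) - 1| ≤ 2 * ε := by
    rw [div_sub_one p.ne', abs_div, abs_of_pos p, div_le_iff₀ p,
      show 1 + ‖z‖ ^ 2 - (1 + ‖w‖ ^ 2) = (‖z‖ - ‖w‖) * (‖z‖ + ‖w‖) by ring, abs_mul,
      abs_of_nonneg (add_nonneg b a)]
    calc _ ≤ ε * (‖z‖ + ‖w‖) := by
          gcongr; exact abs_le.2 ⟨by linarith [h1.2], by linarith [h1.1]⟩
      _ ≤ ε * (2 * (1 + ‖w‖ ^ 2)) := by
          gcongr; nlinarith [sq_nonneg (‖w‖ - 1), h1.1]
      _ = _ := by ring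
  rw [e]
  generalize (1 + ‖z‖ ^ 2) / (1 + ‖w‖ ^ 2) = q at h2
  rw [abs_le] at h2 ⊢
  constructor <;> nlinarith [h2.1, h2.2]

lemma mul_lip {a b α β : ℝ} (ha : |a - 1| ≤ α) (hb : |b - 1| ≤ β) (h : β ≤ 1) :
    |a * b - 1| ≤ 2 * α + β := by
  have h1 : |b| ≤ 2 := by
    rw [abs_le] at hb ⊢
    constructor <;> linarith [hb.1, hb.2]
  rw [show a * b - 1 = (a - 1) * b + (b - 1) by ring]
  refine (abs_add_le _ _).trans ?_
  rw [abs_mul]
  have := mul_le_mul ha h1 (abs_nonneg _) ((abs_nonneg _).trans ha)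
  linarith

lemma move {Ω U a e} (m : Mo Ω U a e) {l : ℝ} (hl : l ∈ Icc 0 m.l0) (z : B2) :
    ‖m.Ψ l z - z‖ ≤ m.M * l := by
  have d : Differentiable ℝ fun l => m.Ψ l z :=
    (m.sm.differentiable (by simp)).comp (differentiable_id.prodMk (differentiable_const z))
  have := (convex_Icc 0 m.l0).norm_image_sub_le_of_norm_deriv_le (f := fun l => m.Ψ l z)
    (fun l _ => d l) (fun l hl => m.dl l hl z) (left_mem_Icc.2 m.pos.le) hl
  simpa [m.zero, abs_of_nonneg hl.1] using this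

end JAC

theorem bJAC : St_JAC := by
  intro Ω U a e m x hx
  obtain ⟨K, k0, hK⟩ := JAC.det_lip
  have := m.nn
  refine ⟨4 * (K * m.M) + 15 * m.M, by positivity, fun l hl z => ?_⟩
  have l0 := hl.1
  have h0 : m.M * l ≤ 1 / 8 := le_trans (by gcongr; exact hl.2) m.small
  have h1 : abs (|(fderiv ℝ (m.Ψ l) z).det| - 1) ≤ K * (m.M * l) :=
    (hK _ ((m.dz l hl z).trans (by linarith))).trans (by gcongr; exact m.dz l hl z)
  have h2 := JAC.move m hl z
  have h3 := JAC.rho_lip hx (z := z.1) (w := (m.Ψ l z).1) ((norm_fst_le (m.Ψ l z - z)).trans h2) h0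
  have h4 := JAC.rho_lip hx (z := z.2) (w := (m.Ψ l z).2) ((norm_snd_le (m.Ψ l z - z)).trans h2) h0
  have h5 := JAC.mul_lip h1 h3 (by linarith)
  have h6 := JAC.mul_lip h5 h4 (by linarith)
  have p1 : 0 ≤ m.M * l := by positivity
  have p2 : 0 ≤ K * (m.M * l) := by positivity
  refine ⟨by linarith, by linarith, ?_⟩
  rw [mul_div_mul_comm, ← mul_assoc]
  linarith

end Pool.Agent.Lib.CLF
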