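import Pool.Agent.Lib.CLF.ABlue

/-! The singular terms of the local computation form a total derivative. -/

open MeasureTheory Filter Topology Set Function
open scoped ContDiff ENNReal ComplexConjugate

noncomputable section

namespace Pool.Agent.Lib.CLF

namespace K1

theorem wd_fst {θ : ℂ → ℂ} (hθ : Differentiable ℝ θ) (z : B2) :
    wd true (fun z => θ z.1) z =
      (fderiv ℝ θ z.1 1 - Complex.I * fderiv ℝ θ z.1 Complex.I) / 2 := by
  have h : fderiv ℝ (fun z : B2 => θ z.1) z =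
      (fderiv ℝ θ z.1).comp (ContinuousLinearMap.fst ℝ ℂ ℂ) :=
    ((hθ z.1).hasFDerivAt.comp z (hasFDerivAt_fst (𝕜 := ℝ))).fderiv
  simp [wd, ev, h]

theorem bdd (hWM : St_WM) {l : ℝ} (hl : 0 < l) {φ : ℂ → ℂ} (hc : Continuous φ)
    (hs : HasCompactSupport φ) :
    Continuous (fun t => φ t / (rho l t : ℂ)) ∧ ∃ M, ∀ t, ‖φ t / (rho l t : ℂ)‖ ≤ M := by
  obtain ⟨h1, h2, -⟩ := hWM.pos hl
  have hc' : Continuous fun t => φ t / (rho l t : ℂ) :=
    hc.div (Complex.continuous_ofReal.comp h2.continuous) fun t =>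
      Complex.ofReal_ne_zero.2 (h1 t).1.ne'
  refine ⟨hc', hc'.bounded_above_of_compact_support ?_⟩
  refine hs.mono fun t ht => ?_
  intro h0
  exact ht (by simp [h0])

theorem lim {m : Measure Am} {R Q : Am → ℂ} (hR : Integrable R m) (hQ : MemLp Q 2 m)
    {k : ℕ → Am → ℝ} {d : ℕ → Am → ℂ} (hk : ∀ j, Continuous (k j))
    (hk1 : ∀ j p, k j p ∈ Icc (0 : ℝ) 1) (hk2 : ∀ᵐ p ∂m, ∀ᶠ j in atTop, k j p = 1)
    (hd : ∀ j, AEStronglyMeasurable (d j) m)
    (hd0 : Tendsto (fun j => eLpNorm (d j) 2 m) atTop (𝓝 0))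
    (h : ∀ j, ∫ p, (k j p * R p + d j p * Q p) ∂m = 0) : ∫ p, R p ∂m = 0 := by
  have hkm : ∀ j, AEStronglyMeasurable (fun p => (k j p : ℂ)) m := fun j =>
    (Complex.continuous_ofReal.comp (hk j)).aestronglyMeasurable
  have hkb : ∀ j p, ‖(k j p : ℂ)‖ ≤ 1 := fun j p => by
    rw [Complex.norm_real, Real.norm_eq_abs, abs_of_nonneg (hk1 j p).1]
    exact (hk1 j p).2
  have h1 : Tendsto (fun j => ∫ p, k j p * R p ∂m) atTop (𝓝 (∫ p, R p ∂m)) := by
    refine tendsto_integral_of_dominated_convergence (fun p => ‖R p‖)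
      (fun j => (hkm j).mul hR.1) hR.norm (fun j => .of_forall fun p => ?_) ?_
    · rw [norm_mul]
      exact mul_le_of_le_one_left (norm_nonneg _) (hkb j p)
    · filter_upwards [hk2] with p hp
      refine tendsto_const_nhds.congr' ?_
      filter_upwards [hp] with j hj
      simp [hj]
  have h2 : Tendsto (fun j => ∫ p, d j p * Q p ∂m) atTop (𝓝 0) := by
    rw [tendsto_zero_iff_enorm_tendsto_zero]
    have h3 : Tendsto (fun j => eLpNorm (d j) 2 m * eLpNorm Q 2 m) atTop (𝓝 0) := by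
      simpa using ENNReal.Tendsto.mul_const hd0 (Or.inr hQ.2.ne)
    refine tendsto_of_tendsto_of_tendsto_of_le_of_le tendsto_const_nhds h3 (fun _ => zero_le)
      fun j => ?_
    refine (enorm_integral_le_lintegral_enorm _).trans ?_
    rw [← eLpNorm_one_eq_lintegral_enorm]
    exact eLpNorm_smul_le_mul_eLpNorm (p := 2) (q := 2) (r := 1) (f := Q) (φ := d j) hQ.1 (hd j)
  have h4 := h1.add h2
  rw [add_zero] at h4
  refine tendsto_nhds_unique h4 (tendsto_const_nhds.congr' ?_)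
  filter_upwards [hd0.eventually (gt_mem_nhds (show (0 : ℝ≥0∞) < ⊤ by simp))] with j hj
  rw [← h j, integral_add]
  · exact hR.bdd_mul (hkm j) (.of_forall (hkb j))
  · exact memLp_one_iff_integrable.1 (hQ.mul' (p := 2) ⟨hd j, hj⟩)

theorem cv (hWM : St_WM) (C : Cv) {l : ℝ} (hl : 0 < l) (φ : ℂ → ℂ) (F : Am → ℂ) :
    (∫ p, φ p.1.1 / (rho l p.1.1 : ℂ) * F p ∂C.mn l = ∫ p, φ p.1.1 * (rho l p.1.2 * F p) ∂C.mu) ∧
    (Integrable (fun p => φ p.1.1 / (rho l p.1.1 : ℂ) * F p) (C.mn l) →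
      Integrable (fun p => φ p.1.1 * (rho l p.1.2 * F p)) C.mu) := by
  obtain ⟨h1, h2⟩ := hWM.intn C (fun p => φ p.1.1 / (rho l p.1.1 : ℂ) * F p) hl
  have e : (fun p : Am => ((rho l p.1.1 * rho l p.1.2 : ℝ) : ℂ) *
      (φ p.1.1 / (rho l p.1.1 : ℂ) * F p)) = fun p => φ p.1.1 * (rho l p.1.2 * F p) := by
    funext p
    have : (rho l p.1.1 : ℂ) ≠ 0 := Complex.ofReal_ne_zero.2 ((hWM.pos hl).1 _).1.ne'
    push_cast
    field_simp
  rw [e] at h1 h2
  exact ⟨h1, h2.1⟩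

theorem tst (hCAL : St_CAL) (C : Cv) {U : Set ℂ} {θ : ℂ → ℂ} (hθ : Bump U θ) {X : B2 → ℂ}
    (hX : ContDiff ℝ ∞ X) {K : Set B2} (hK : IsCompact K) (hKΩ : K ⊆ C.Ω)
    (h0 : ∀ z, z.1 ∈ tsupport θ → z ∉ K → X z = 0) :
    C.Tst (Prod.fst ⁻¹' U) fun p => θ p.1.1 * X p.1 := by
  refine ⟨hCAL.smb C (h := fun z => θ z.1 * X z) ((hθ.1.comp contDiff_fst).mul hX),
    K ∩ Prod.fst ⁻¹' tsupport θ,
    hK.inter_right ((isClosed_tsupport θ).preimage continuous_fst),
    fun z hz => ⟨hKΩ hz.1, hθ.2.2 hz.2⟩, fun p _ hp => ?_⟩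
  beta_reduce
  by_cases ht : p.1.1 ∈ tsupport θ
  · rw [h0 p.1 ht fun hk => hp ⟨hk, ht⟩, mul_zero]
  · rw [image_eq_zero_of_notMem_tsupport ht, zero_mul]

theorem cj {a : B2 → ℂ} (ha : ContDiff ℝ ∞ a) : ContDiff ℝ ∞ fun z => conj (a z) :=
  Complex.conjCLE.contDiff.comp ha

theorem df {f : B2 → ℂ} (hf : ContDiff ℝ ∞ f) (z : B2) : DifferentiableAt ℝ f z :=
  hf.differentiable (by simp) z

theorem wbc (hW : St_WIR) (b : Bool) (a : B2 → ℂ) (z : B2) :
    conj (wb b a z) = wd b (fun w => conj (a w)) z := by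
  rw [hW.star, Complex.conj_conj]

/-- The terms with the vector field itself. -/
theorem termA (hPR : St_PR) (hCAL : St_CAL) (hW : St_WIR) (hI : St_INT) (hWM : St_WM) (C : Cv)
    {l : ℝ} (hl : 0 < l) (hcut : C.HasCut l) {U : Set ℂ} (hU : IsOpen U) {a : B2 → ℂ}
    (ha : Fld C.Ω U a) {f₁ h₁ f₂ h₂ : Am → ℂ} (m₁ : MemLp f₁ 2 (C.mn l))
    (n₁ : MemLp h₁ 2 (C.mn l)) (m₂ : MemLp f₂ 2 (C.mn l)) (n₂ : MemLp h₂ 2 (C.mn l))
    {M : ℝ} (hb : ∀ᵐ p ∂C.mu, ‖f₁ p‖ ≤ M) (w₁ : C.WD true (Prod.fst ⁻¹' U) f₁ h₁)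
    (w₂ : C.WD true (Prod.fst ⁻¹' U) f₂ h₂) {θ : ℂ → ℂ} (hθ : Bump U θ) :
    Integrable (fun p => θ p.1.1 * (rho l p.1.2 * (conj (a p.1) * (h₁ p * f₂ p + f₁ p * h₂ p))))
      C.mu ∧
    Integrable (fun p => wd true (fun z => θ z.1) p.1 *
      (rho l p.1.2 * (conj (a p.1) * (f₁ p * f₂ p)))) C.mu ∧
    ∫ p, θ p.1.1 * (rho l p.1.2 * (conj (a p.1) * (h₁ p * f₂ p + f₁ p * h₂ p))) ∂C.mu =
      -∫ p, wd true (fun z => θ z.1) p.1 * (rho l p.1.2 * (conj (a p.1) * (f₁ p * f₂ p)))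
        ∂C.mu := by
  obtain ⟨κ, hκ, hκ1, hκ0⟩ := hcut
  obtain ⟨has, ⟨Ma, hMa⟩, hat, -⟩ := ha
  obtain ⟨ac1, -, -, -, hle, -⟩ := hWM.ac C true hl
  have hθd : Differentiable ℝ θ := hθ.1.differentiable (by simp)
  set θ' : ℂ → ℂ := fun t => (fderiv ℝ θ t 1 - Complex.I * fderiv ℝ θ t Complex.I) / 2 with hθ'
  have eθ : ∀ z : B2, wd true (fun z => θ z.1) z = θ' z.1 := wd_fst hθd
  have cf : Continuous (fderiv ℝ θ) := hθ.1.continuous_fderiv (by simp)
  have cθ' : Continuous θ' := by rw [hθ']; fun_prop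
  have sθ' : HasCompactSupport θ' := (hθ.2.1.fderiv ℝ).mono fun t ht h0 => ht (by simp [hθ', h0])
  obtain ⟨c1, M1, b1⟩ := bdd hWM hl hθ.1.continuous hθ.2.1
  obtain ⟨c2, M2, b2⟩ := bdd hWM hl cθ' sθ'
  have am : AEStronglyMeasurable (fun p : Am => conj (a p.1)) (C.mn l) :=
    ((cj has).continuous.comp continuous_fst).aestronglyMeasurable
  have ab : ∀ᵐ p : Am ∂C.mn l, ‖conj (a p.1)‖ ≤ Ma := .of_forall fun p => by
    rw [RCLike.norm_conj]; exact (hMa _).1
  have tm : ∀ {φ : ℂ → ℂ}, Continuous φ → AEStronglyMeasurable (fun p : Am => φ p.1.1) (C.mn l) :=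
    fun h => (h.comp (continuous_fst.comp continuous_fst)).aestronglyMeasurable
  have iP : Integrable (fun p => θ p.1.1 / (rho l p.1.1 : ℂ) *
      (conj (a p.1) * (h₁ p * f₂ p + f₁ p * h₂ p))) (C.mn l) :=
    (((memLp_one_iff_integrable.1 (m₂.mul' n₁)).add
      (memLp_one_iff_integrable.1 (n₂.mul' m₁))).bdd_mul am ab).bdd_mul (tm c1)
      (.of_forall fun p => b1 _)
  have iQ : Integrable (fun p => θ' p.1.1 / (rho l p.1.1 : ℂ) *
      (conj (a p.1) * (f₁ p * f₂ p))) (C.mn l) :=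
    ((memLp_one_iff_integrable.1 (m₂.mul' m₁)).bdd_mul am ab).bdd_mul (tm c2)
      (.of_forall fun p => b2 _)
  have mQ : MemLp (fun p => θ p.1.1 / (rho l p.1.1 : ℂ) * (conj (a p.1) * (f₁ p * f₂ p))) 2
      (C.mn l) := by
    refine m₂.of_le_mul (c := M1 * (Ma * M)) ((tm c1).mul (am.mul (m₁.1.mul m₂.1))) ?_
    filter_upwards [ab, ac1.ae_le hb] with p h1 h2
    have h3 := b1 p.1.1
    have h4 : 0 ≤ M1 := (norm_nonneg _).trans h3
    have h5 : 0 ≤ Ma := (norm_nonneg _).trans h1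
    rw [norm_mul, norm_mul, norm_mul, mul_assoc, mul_assoc]
    gcongr
  simp_rw [eθ]
  refine ⟨(cv hWM C hl θ _).2 iP, (cv hWM C hl θ' _).2 iQ, ?_⟩
  rw [← (cv hWM C hl θ _).1, ← (cv hWM C hl θ' _).1, eq_neg_iff_add_eq_zero, ← integral_add iP iQ]
  have κs : ∀ j, ContDiff ℝ ∞ (cx (κ j)) := fun j =>
    Complex.ofRealCLM.contDiff.comp (hκ j).1.1
  have ρs : ContDiff ℝ ∞ fun z : B2 => (rho l z.2 : ℂ) :=
    Complex.ofRealCLM.contDiff.comp ((hWM.pos hl).2.1.comp contDiff_snd)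
  refine lim (iP.add iQ) mQ (k := fun j p => κ j p.1) (d := fun j p => wd true (cx (κ j)) p.1)
    (fun j => (hκ j).1.1.continuous.comp continuous_fst) (fun j p => (hκ j).2 _) ?_ (fun j => ?_)
    ?_ fun j => ?_
  · filter_upwards [ac1.ae_le (hI.ae C)] with p hp
    filter_upwards [hκ1 {p.1} isCompact_singleton (singleton_subset_iff.2 hp.1)] with j hj
    exact hj _ rfl
  · have : Continuous (wd true (cx (κ j))) :=
      continuous_iff_continuousAt.2 fun z => (hW.sm true (κs j).contDiffAt).1.continuousAt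
    exact (this.comp continuous_fst).aestronglyMeasurable
  · have h3 := ENNReal.Tendsto.const_mul (a := ENNReal.ofReal l ^ (1 / (2 : ℝ≥0∞)).toReal)
      (hκ0 true) (Or.inr (ENNReal.rpow_ne_top_of_nonneg (by positivity) ENNReal.ofReal_ne_top))
    rw [mul_zero] at h3
    exact tendsto_of_tendsto_of_tendsto_of_le_of_le tendsto_const_nhds h3 (fun _ => zero_le)
      fun j => (eLpNorm_mono_measure _ hle).trans (eLpNorm_smul_measure_le _ _ _ _)
  · have hX : ContDiff ℝ ∞ fun z : B2 => cx (κ j) z * (rho l z.2 * conj (a z)) :=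
      (κs j).mul (ρs.mul (cj has))
    have hT := tst hCAL C hθ hX (hκ j).1.2.1 (hκ j).1.2.2 fun z _ hz => by
      simp [cx, image_eq_zero_of_notMem_tsupport hz]
    have h5 := hPR C true _ f₁ h₁ f₂ h₂ _ (hU.preimage continuous_fst) ((hWM.loc C true hl).1 m₁)
      ((hWM.loc C true hl).1 n₁) ((hWM.loc C true hl).1 m₂) ((hWM.loc C true hl).1 n₂) w₁ w₂ hT
    rw [(hWM.intn C _ hl).1, ← h5]
    refine integral_congr_ae (.of_forall fun p => ?_)
    have e1 : C.D true (fun q : Am => θ q.1.1 * (cx (κ j) q.1 * (rho l q.1.2 * conj (a q.1)))) p =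
        θ' p.1.1 * (cx (κ j) p.1 * (rho l p.1.2 * conj (a p.1))) +
          θ p.1.1 * (wd true (cx (κ j)) p.1 * (rho l p.1.2 * conj (a p.1))) := by
      rw [(hCAL.base C true (fun z => θ z.1 * (cx (κ j) z * (rho l z.2 * conj (a z)))) p).1,
        hW.mul true (df (f := fun z => θ z.1) (hθ.1.comp contDiff_fst) _) (df hX _), eθ,
        hW.mul true (df (κs j) _) (df (ρs.mul (cj has)) _),
        hW.mul true (df ρs _) (df (cj has) _), ← wbc hW]
      have e2 : wd true (fun z : B2 => (rho l z.2 : ℂ)) p.1 = 0 :=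
        (hW.oth true (fun s => (rho l s : ℂ)) p.1).1
      by_cases ht : p.1.1 ∈ U
      · rw [e2, hat _ ht]; simp
      · rw [image_eq_zero_of_notMem_tsupport fun h => ht (hθ.2.2 h)]; simp
    have : (rho l p.1.1 : ℂ) ≠ 0 := Complex.ofReal_ne_zero.2 ((hWM.pos hl).1 _).1.ne'
    beta_reduce
    rw [e1]
    simp only [cx]
    push_cast
    field_simp
    ring

/-- The terms with the derivative of the vector field. -/
theorem termB (hPR : St_PR) (hCAL : St_CAL) (hW : St_WIR) (hI : St_INT) (C : Cv)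
    {U : Set ℂ} (hU : IsOpen U) {a : B2 → ℂ} (ha : Fld C.Ω U a) {f h : Am → ℂ} (m : C.Loc f)
    (n : C.Loc h) (w : C.WD true (Prod.fst ⁻¹' U) f h) {θ : ℂ → ℂ} (hθ : Bump U θ) :
    Integrable (fun p => θ p.1.1 * (conj (wb false a p.1) * f p * h p)) C.mu ∧
    Integrable (fun p => wd true (fun z => θ z.1) p.1 * (conj (wb false a p.1) * f p ^ 2 / 2))
      C.mu ∧
    ∫ p, θ p.1.1 * (conj (wb false a p.1) * f p * h p) ∂C.mu =
      -∫ p, wd true (fun z => θ z.1) p.1 * (conj (wb false a p.1) * f p ^ 2 / 2) ∂C.mu := by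
  obtain ⟨has, -, hat, hK⟩ := ha
  obtain ⟨K, hK1, hK2, hK3⟩ := hK _ hθ.2.1 hθ.2.2
  have hX : ContDiff ℝ ∞ fun z : B2 => conj (wb false a z) :=
    cj (contDiff_iff_contDiffAt.2 fun z => (hW.sm false has.contDiffAt).2)
  have hT := tst hCAL C hθ hX hK1 hK2 fun z h1 h2 => by rw [hK3 z h1 h2, map_zero]
  have e1 : ∀ p, C.D true (fun q : Am => θ q.1.1 * conj (wb false a q.1)) p =
      wd true (fun z => θ z.1) p.1 * conj (wb false a p.1) := fun p => by
    rw [(hCAL.base C true (fun z => θ z.1 * conj (wb false a z)) p).1,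
      hW.mul true (df (f := fun z => θ z.1) (hθ.1.comp contDiff_fst) _) (df hX _)]
    by_cases ht : p.1.1 ∈ U
    · have e2 : (fun z => conj (wb false a z)) = wd false fun w => conj (a w) :=
        funext (wbc hW false a)
      have e3 : wd true (fun w => conj (a w)) =ᶠ[𝓝 p.1] fun _ => 0 := by
        filter_upwards [(hU.preimage continuous_fst).mem_nhds ht] with z hz
        rw [← wbc hW, hat z hz, map_zero]
      rw [e2, (hW.comm true false (cj has).contDiffAt).1, (hW.congr false e3).1, hW.cst]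
      simp
    · rw [image_eq_zero_of_notMem_tsupport fun h => ht (hθ.2.2 h)]; simp
  have i1 : Integrable (fun p => θ p.1.1 * (conj (wb false a p.1) * f p * h p)) C.mu :=
    (hI.mul C m n hT).2.1.congr (.of_forall fun p => by simp only; ring)
  have i2 : Integrable (fun p => wd true (fun z => θ z.1) p.1 *
      (conj (wb false a p.1) * f p ^ 2 / 2)) C.mu :=
    ((hI.mul C m m (hCAL.tD C true hT).1).2.1.div_const 2).congr
      (.of_forall fun p => by simp only [e1]; ring)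
  refine ⟨i1, i2, ?_⟩
  have h5 := hPR C true _ f h f h _ (hU.preimage continuous_fst) m n m n w w hT
  rw [eq_neg_iff_add_eq_zero, ← integral_add i1 i2, ← zero_div 2, ← h5, ← integral_div]
  refine integral_congr_ae (.of_forall fun p => ?_)
  simp only [e1]
  ring

end K1

theorem bK1 (hW0 : St_W0) (hPR : St_PR) (hCAL : St_CAL) (hW : St_WIR) (hI : St_INT)
    (hWM : St_WM) : St_K1 := by
  intro C l g u u' U a ψ ψ' w W D θ hθ
  obtain ⟨mw, mW, ⟨M, hM⟩, w₁, w₂⟩ := hW0 C l g u u' U a ψ ψ' w W D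
  have hl := D.pos
  have mu' : MemLp (fun p => conj (u' p)) 2 (C.mo l false) := D.res.2.1.2.1.star
  have mv : MemLp (cx fun p => u p - g p) 2 (C.mn l) := (D.res.2.1.1.sub D.res.1).ofReal
  obtain ⟨a1, a2, a3⟩ := K1.termA hPR hCAL hW hI hWM C hl D.cut D.op D.fld mv
    (mw.sub ((hWM.loc C true hl).2 (D.g0.2 true)).2) ((hWM.loc C false hl).2 mu').2
    ((hWM.loc C false hl).2 mW).2 (M := M + M) (by
      filter_upwards [hM] with p hp
      simp only [cx, Complex.norm_real, Real.norm_eq_abs]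
      exact (abs_sub _ _).trans (add_le_add hp.1 hp.2)) w₁ w₂ hθ
  obtain ⟨b1, b2, b3⟩ := K1.termB hPR hCAL hW hI C D.op D.fld ((hWM.loc C false hl).2 mu').1
    ((hWM.loc C false hl).2 mW).1 w₂ hθ
  have e := congrArg₂ (· + ·) a3 b3
  rw [← integral_add a1 b1, ← neg_add, ← integral_add a2 b2] at e
  refine (integral_congr_ae (.of_forall fun p => ?_)).trans (e.trans (congrArg Neg.neg
    (integral_congr_ae (.of_forall fun p => ?_))))
  · simp only [cx, Pi.sub_apply]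
    ring
  · simp only [cx]
    ring

end Pool.Agent.Lib.CLF
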