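import Pool.Agent.Lib.CLF.ABlue

/-! The primitive does not depend on the vector field. -/

open MeasureTheory Filter Topology Set Function
open scoped ContDiff ENNReal ComplexConjugate

noncomputable section

namespace Pool.Agent.Lib.CLF

namespace K2

theorem loc {μ ν : Measure Am} {U : Set ℂ} {θ : ℂ → ℂ} {M : ℝ≥0∞} {X Y : Am → ℂ} (hθ : Bump U θ)
    (hM : M ≠ ⊤) (h : μ.restrict {p | p.1.1 ∈ tsupport θ} ≤ M • ν) (hX : MemLp X 2 ν)
    (hY : MemLp Y 2 ν) : Integrable (fun p => θ p.1.1 * (X p * Y p)) μ := by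
  obtain ⟨B, hB⟩ := hθ.2.1.exists_bound_of_continuous hθ.1.continuous
  refine (integrableOn_iff_integrable_of_support_subset (s := {p : Am | p.1.1 ∈ tsupport θ})
    fun p hp => subset_tsupport _ (left_ne_zero_of_mul hp)).1 ?_
  exact (((hX.integrable_mul hY).smul_measure hM).mono_measure h).bdd_mul
    (hθ.1.continuous.comp continuous_fst.fst).aestronglyMeasurable (.of_forall fun p => hB _)

variable {C : Cv} {l : ℝ} {U : Set ℂ} {θ : ℂ → ℂ} {X Y : Am → ℂ}

/-- Products of two functions of finite energy norm. -/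
theorem intO (hW : St_WM) (hl : 0 < l) (hθ : Bump U θ) (hX : MemLp X 2 (C.mo l false))
    (hY : MemLp Y 2 (C.mo l false)) : Integrable (fun p => θ p.1.1 * (X p * Y p)) C.mu := by
  obtain ⟨M, hM, -, h⟩ := hW.cpt C false hl hθ.2.1
  exact loc hθ hM h hX hY

/-- Products of two functions of finite mass norm. -/
theorem intN (hW : St_WM) (hl : 0 < l) (hθ : Bump U θ) (hX : MemLp X 2 (C.mn l))
    (hY : MemLp Y 2 (C.mn l)) :
    Integrable (fun p => θ p.1.1 * (rho l p.1.2 * X p * Y p)) C.mu := by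
  obtain ⟨M, hM, h, -⟩ := hW.cpt C true hl hθ.2.1
  exact ((hW.into C true _ hl).2.1 (loc hθ hM h hX hY)).congr (.of_forall fun p => by
    simp only [ot]
    ring)

theorem memC {b : Bool} {ψ ψ' : Am → ℂ} (h : C.MemC l b ψ ψ') :
    MemLp ψ 2 (C.mn l) ∧ MemLp ψ' 2 (C.mo l b) := by
  obtain ⟨f, f', g, g', h1, h2, e, e'⟩ := h
  have a : MemLp (fun p => (f p : ℂ)) 2 (C.mn l) := h1.1.ofReal
  have a' : MemLp (fun p => (g p : ℂ)) 2 (C.mn l) := h2.1.ofReal
  exact ⟨(a.add (a'.const_mul Complex.I)).ae_eq (.of_forall fun p => (e p).symm),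
    (h1.2.1.add (h2.2.1.const_mul Complex.I)).ae_eq (.of_forall fun p => (e' p).symm)⟩

theorem bump_conj (hθ : Bump U θ) : Bump U fun z => conj (θ z) :=
  ⟨Complex.conjCLE.contDiff.comp hθ.1, hθ.2.1.comp_left (map_zero conj),
    (tsupport_comp_subset (map_zero conj) θ).trans hθ.2.2⟩

end K2

open K2 in
theorem bK2 (h0 : St_W0) (h1 : St_W1) (hM : St_MEM) (hW : St_WM) : St_K2 := by
  intro C l g u u' U a ψ ψ' w W K θ hθ
  have hl := K.pos
  obtain ⟨mw, mW, -⟩ := h0 _ _ _ _ _ _ _ _ _ _ _ K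
  obtain ⟨mg, mu, -⟩ := K.res
  have mt := ((hW.loc C true hl).2 (K.g0.2 true)).2
  have e2 := (h1 _ _ _ _ _ _ _ _ _ _ _ K θ ψ ψ' hθ K.mem).2
  have e1 := (h1 _ _ _ _ _ _ _ _ _ _ _ K _ (cx u) u' (bump_conj hθ)
    ⟨u, u', _, _, mu, hM.lin C 0 0 hl mu mu, fun p => by simp [cx], fun p => by simp⟩).1
  have cu : MemLp (cx u) 2 (C.mn l) := mu.1.ofReal
  have cg : MemLp (cx g) 2 (C.mn l) := mg.ofReal
  have iA := (intN hW hl hθ (cu.sub cg) (memC K.mem).1).add
    (intO hW hl hθ mu.2.1.star (memC K.mem).2)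
  have iB := (intN hW hl hθ (mw.sub mt).star cu).add (intO hW hl hθ mW.star mu.2.1.star)
  have iR := (intN hW hl hθ cg mw.star).sub (intN hW hl hθ mt.star cu)
  have e1' := congrArg conj e1
  rw [← integral_conj, map_zero] at e1'
  have s := (integral_add (iA.sub iB) iR).trans (congrArg (· + _) (integral_sub iA iB))
  rw [(hW.into C true _ hl).1, eq_div_iff two_ne_zero, ← integral_mul_const]
  refine Eq.trans (integral_congr_ae (.of_forall fun p => ?_)) (s.trans ?_)
  · have a1 : ψ p = conj (w p + a p.1 * u' p) := by simp [K.hw p]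
    have a2 : ψ' p = conj (W p + wb false a p.1 * u' p + a p.1 * (rho l p.1.2 * (u p - g p) : ℝ)) := by
      rw [K.hW p]
      simp
      ring
    simp only [Pi.add_apply, Pi.sub_apply, Pi.star_apply, a1, a2, cx, Complex.star_def, map_add,
      map_sub, map_mul, Complex.conj_ofReal]
    push_cast
    ring
  · rw [(integral_congr_ae (.of_forall fun p => ?_)).trans e2,
      (integral_congr_ae (.of_forall fun p => ?_)).trans e1', sub_zero, zero_add]
    · exact integral_congr_ae (.of_forall fun p => by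
        simp only [Pi.sub_apply, Pi.star_apply, cx, ot, Complex.star_def]
        ring)
    · simp only [Pi.add_apply, Pi.sub_apply, Pi.star_apply, cx, Complex.star_def, map_add,
        map_sub, map_mul, Complex.conj_ofReal, Complex.conj_conj]
      ring
    · simp only [Pi.add_apply, Pi.sub_apply, Pi.star_apply, cx, Complex.star_def]
      push_cast
      ring

end Pool.Agent.Lib.CLF
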