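import Pool.Agent.Lib.CLF.ABlue

open MeasureTheory Filter Topology Set Function
open scoped ComplexConjugate

namespace Pool.Agent.Lib.CLF

theorem bKEY (hREG : St_REG) (hKL : St_KL) (hGLU : St_GLU) (hGLO : St_GLO) (hMWK : St_MWK)
    (hMB : St_MB) (hWM : St_WM) (hW0 : St_W0) : St_KEY := by
  intro C l g u u' hl hc hm hg hr
  obtain ⟨M, hM⟩ := hg.1.2
  have hu := hMB.bd C hl hc hr hM
  have hu2 : MemLp u 2 (C.mn l) := hr.2.1.1
  have hum : AEStronglyMeasurable u C.mu := hu2.1.mono_ac (hWM.ac C true hl).2.1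
  obtain ⟨w, h1, h2, h3, h4⟩ := hGLU C l g u hl hg hu2 fun t ht => by
    obtain ⟨U, a, ψ, ψ', hU, htU, hf, hψ, hw⟩ := hREG C l g u u' t hl hm ht hg hr
    have hk : KD C l g u u' U a ψ ψ' _ _ :=
      ⟨hl, hc, hg, hr, hU, hf, hψ, fun _ => rfl, fun _ => rfl, hw⟩
    exact ⟨U, _, hU, htU, (hW0 _ _ _ _ _ _ _ _ _ _ _ hk).1, hw, hKL _ _ _ _ _ _ _ _ _ _ _ hk⟩
  have h5 := hGLO C l M g u w hl hm.1 hg hum hu h1 h2 h4
  exact ⟨w, hMWK C l true u w M hl hc hum hu ⟨h1.mono_ac (hWM.ac C true hl).2.2.1,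
    h5.trans_lt (hg.2 true).2⟩ h3, h5⟩

end Pool.Agent.Lib.CLF
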