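import Pool.Agent.Lib.CLF.ABlue

/-! The local energy inequality. -/

open MeasureTheory Filter Topology Set Function
open scoped ContDiff ENNReal ComplexConjugate

noncomputable section

namespace Pool.Agent.Lib.CLF

namespace KL

/-- The holomorphic derivative in one variable. -/
def d1 (h : ℂ → ℂ) (t : ℂ) : ℂ := (fderiv ℝ h t 1 - Complex.I * fderiv ℝ h t Complex.I) / 2

theorem wd_fst {h : ℂ → ℂ} (hh : Differentiable ℝ h) (z : B2) :
    wd true (fun z => h z.1) z = d1 h z.1 := by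
  have e : fderiv ℝ (fun z : B2 => h z.1) z =
      (fderiv ℝ h z.1).comp (ContinuousLinearMap.fst ℝ ℂ ℂ) :=
    ((hh z.1).hasFDerivAt.comp z hasFDerivAt_fst).fderiv
  simp [wd, d1, ev, e]

theorem bump_d1 {U : Set ℂ} {h : ℂ → ℂ} (hh : Bump U h) : Bump U (d1 h) := by
  have hs : ContDiff ℝ ∞ (fderiv ℝ h) := hh.1.fderiv_right (by simp)
  have hsup : support (d1 h) ⊆ tsupport h := by
    intro t ht
    by_contra hn
    have : fderiv ℝ h t = 0 := by
      by_contra h0
      exact hn (support_fderiv_subset ℝ (mem_support.2 h0))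
    exact ht (by simp [d1, this])
  have hts : tsupport (d1 h) ⊆ tsupport h := closure_minimal hsup (isClosed_tsupport h)
  refine ⟨?_, hh.2.1.of_isClosed_subset (isClosed_tsupport _) hts, hts.trans hh.2.2⟩
  unfold d1
  exact ((hs.clm_apply contDiff_const).sub
    (contDiff_const.mul (hs.clm_apply contDiff_const))).div_const 2

theorem bump_cx {U : Set ℂ} {θ : ℂ → ℝ} (h : Bump U θ) : Bump U (cx θ) := by
  have hsup : support (cx θ) ⊆ tsupport θ := fun t ht =>
    subset_tsupport θ (fun h0 => ht (by simp [cx, h0]))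
  have hts : tsupport (cx θ) ⊆ tsupport θ := closure_minimal hsup (isClosed_tsupport θ)
  exact ⟨Complex.ofRealCLM.contDiff.comp h.1,
    h.2.1.of_isClosed_subset (isClosed_tsupport _) hts, hts.trans h.2.2⟩

/-- A bump in `t` times two functions that are square integrable over its support. -/
theorem int_mul {U : Set ℂ} {θ : ℂ → ℂ} (h : Bump U θ) {ν : Measure Am} {f k : Am → ℂ}
    (hf : MemLp f 2 (ν.restrict {p | p.1.1 ∈ tsupport θ}))
    (hk : MemLp k 2 (ν.restrict {p | p.1.1 ∈ tsupport θ})) :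
    Integrable (fun p => θ p.1.1 * (f p * k p)) ν := by
  obtain ⟨M, hM⟩ := h.1.continuous.bounded_above_of_compact_support h.2.1
  have hc : Continuous fun p : Am => θ p.1.1 := h.1.continuous.comp (by fun_prop)
  have h1 : IntegrableOn (fun p => θ p.1.1 * (f p * k p)) {p | p.1.1 ∈ tsupport θ} ν :=
    (hf.integrable_mul hk).bdd_mul hc.aestronglyMeasurable (Eventually.of_forall fun p => hM _)
  refine h1.integrable_of_forall_notMem_eq_zero fun p hp => ?_
  rw [image_eq_zero_of_notMem_tsupport hp, zero_mul]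

theorem memC {C : Cv} {l : ℝ} {b : Bool} {f f' : Am → ℂ} (h : C.MemC l b f f') :
    MemLp f 2 (C.mn l) ∧ MemLp f' 2 (C.mo l b) := by
  obtain ⟨f₁, f₁', f₂, f₂', h1, h2, e, e'⟩ := h
  have a1 : MemLp (fun p => (f₁ p : ℂ)) 2 (C.mn l) := h1.1.ofReal
  have a2 : MemLp (fun p => (f₂ p : ℂ)) 2 (C.mn l) := h2.1.ofReal
  have a3 := a1.add (a2.const_mul Complex.I)
  have a4 := h1.2.1.add (h2.2.1.const_mul Complex.I)
  exact ⟨a3.ae_eq (Eventually.of_forall fun p => (e p).symm),
    a4.ae_eq (Eventually.of_forall fun p => (e' p).symm)⟩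

theorem star {ν : Measure Am} {f : Am → ℂ} (h : MemLp f 2 ν) : MemLp (fun p => conj (f p)) 2 ν :=
  h.star

end KL

open KL in
theorem bKL (h0 : St_W0) (h1 : St_W1) (k1 : St_K1) (k2 : St_K2) (hW : St_WM) : St_KL := by
  intro C l g u u' U a ψ ψ' w W K θ hθ hpos
  have hl := K.pos
  have hb := bump_cx hθ
  obtain ⟨hw, hWW, -⟩ := h0 C l g u u' U a ψ ψ' w W K
  obtain ⟨hψ, hψ'⟩ := memC K.mem
  have e1 := (h1 C l g u u' U a ψ ψ' w W K (cx θ) ψ ψ' hb K.mem).1
  have e2 := k1 C l g u u' U a ψ ψ' w W K (cx θ) hb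
  have e3 := k2 C l g u u' U a ψ ψ' w W K (d1 (cx θ)) (bump_d1 hb)
  have hd : ∀ z : B2, wd true (fun z => cx θ z.1) z = d1 (cx θ) z.1 :=
    wd_fst (hb.1.differentiable (by simp))
  obtain ⟨M, hM, m1, -⟩ := hW.cpt C true hl hb.2.1
  obtain ⟨M', hM', -, m2⟩ := hW.cpt C false hl hb.2.1
  have lt : ∀ {f : Am → ℂ}, MemLp f 2 (C.mn l) →
      MemLp f 2 ((C.mo l true).restrict {p | p.1.1 ∈ tsupport (cx θ)}) :=
    fun hf => hf.of_measure_le_smul hM m1
  have ls : ∀ {f : Am → ℂ}, MemLp f 2 (C.mo l false) →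
      MemLp f 2 (C.mu.restrict {p | p.1.1 ∈ tsupport (cx θ)}) :=
    fun hf => hf.of_measure_le_smul hM' m2
  have hg : MemLp (C.D true (cx g)) 2
      ((C.mo l true).restrict {p | p.1.1 ∈ tsupport (cx θ)}) := (K.g0.2 true).restrict _
  have i1 := (hW.into C true _ hl).2.1 (int_mul hb (lt hw) (star (lt hw)))
  have i2 := (hW.into C true _ hl).2.1 (int_mul hb hg (star (lt hw)))
  have i3 := int_mul hb (ls hWW) (star (ls hWW))
  have i4 := (hW.into C true _ hl).2.1 (int_mul hb ((lt hw).sub hg) (lt hψ))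
  have i5 := int_mul hb (ls hWW) (ls hψ')
  have hψe : ∀ p, ψ p = conj (w p) + conj (a p.1) * conj (u' p) := fun p => by
    rw [K.hw p]; simp
  have hψe' : ∀ p, ψ' p = conj (W p) + conj (wb false a p.1) * conj (u' p) +
      conj (a p.1) * (rho l p.1.2 * (u p - g p) : ℝ) := fun p => by
    rw [K.hW p]; simp only [map_sub, map_mul, Complex.conj_conj, Complex.conj_ofReal]; ring
  have e4 : ∫ p, cx θ p.1.1 * (rho l p.1.2 * conj (a p.1) *
      ((w p - C.D true (cx g) p) * conj (u' p) + (u p - g p : ℝ) * W p) +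
      conj (wb false a p.1) * conj (u' p) * W p) ∂C.mu =
      ∫ p, cx θ p.1.1 * (rho l p.1.2 * (w p - C.D true (cx g) p) * ψ p + W p * ψ' p) ∂C.mu -
      (∫ p, rho l (ot true p.1) * (cx θ p.1.1 * (w p * conj (w p))) ∂C.mu -
        ∫ p, rho l (ot true p.1) * (cx θ p.1.1 * (C.D true (cx g) p * conj (w p))) ∂C.mu +
        ∫ p, cx θ p.1.1 * (W p * conj (W p)) ∂C.mu) := by
    have i6 : Integrable (fun p => cx θ p.1.1 *
        (rho l p.1.2 * (w p - C.D true (cx g) p) * ψ p + W p * ψ' p)) C.mu := by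
      refine (i4.add i5).congr (Eventually.of_forall fun p => ?_)
      simp only [Pi.add_apply, Pi.sub_apply, ot]; ring
    rw [← integral_sub' i1 i2, ← integral_add' (i1.sub i2) i3,
      ← integral_sub' i6 ((i1.sub i2).add i3)]
    refine integral_congr_ae (Eventually.of_forall fun p => ?_)
    simp only [Pi.add_apply, Pi.sub_apply, ot, hψe p, hψe' p]
    push_cast
    ring
  have e5 : ∫ p, rho l (ot true p.1) * (cx θ p.1.1 * (w p * conj (w p))) ∂C.mu =
      ((∫ p, θ p.1.1 * ‖w p‖ ^ 2 ∂C.mo l true : ℝ) : ℂ) := by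
    rw [← (hW.into C true _ hl).1, ← integral_complex_ofReal]
    refine integral_congr_ae (Eventually.of_forall fun p => ?_)
    simp only [cx, Complex.mul_conj']
    push_cast
    ring
  have e6 : ∫ p, rho l (ot true p.1) * (cx θ p.1.1 * (C.D true (cx g) p * conj (w p))) ∂C.mu =
      ∫ p, θ p.1.1 * C.D true (cx g) p * conj (w p) ∂C.mo l true := by
    rw [← (hW.into C true _ hl).1]
    refine integral_congr_ae (Eventually.of_forall fun p => ?_)
    simp only [cx]
    ring
  have e7 : ∫ p, cx θ p.1.1 * (W p * conj (W p)) ∂C.mu =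
      ((∫ p, θ p.1.1 * ‖W p‖ ^ 2 ∂C.mu : ℝ) : ℂ) := by
    rw [← integral_complex_ofReal]
    refine integral_congr_ae (Eventually.of_forall fun p => ?_)
    simp only [cx, Complex.mul_conj']
    push_cast
    ring
  have p7 : 0 ≤ ∫ p, θ p.1.1 * ‖W p‖ ^ 2 ∂C.mu :=
    integral_nonneg fun p => mul_nonneg (hpos _) (sq_nonneg _)
  simp only [hd] at e2
  rw [e4, e1, e3, e5, e6, e7] at e2
  have e8 : (fun p : Am => wd true (fun z => (θ z.1 : ℂ)) p.1 *
      (g p * conj (w p) - conj (C.D true (cx g) p) * u p)) =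
      fun p => d1 (cx θ) p.1.1 * (g p * conj (w p) - conj (C.D true (cx g) p) * u p) := by
    funext p; rw [← hd]; rfl
  unfold Cv.KI
  rw [e8]
  have e9 := congrArg Complex.re e2
  simp only [Complex.sub_re, Complex.add_re, Complex.neg_re, Complex.ofReal_re,
    Complex.zero_re] at e9 ⊢
  linarith

end Pool.Agent.Lib.CLF
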