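import Pool.Agent.Lib.CLF.ABlue

/-! Basic facts on lifts of a motion. -/

open MeasureTheory Filter Topology Set Function

noncomputable section

namespace Pool.Agent.Lib.CLF

namespace LB

theorem dif {Ω U a e} (m : Mo Ω U a e) (z : B2) : Differentiable ℝ fun l => m.Ψ l z :=
  (m.sm.differentiable (by simp)).comp (differentiable_id.prodMk (differentiable_const z))

theorem mv {Ω U a e} (m : Mo Ω U a e) {l : ℝ} (hl : l ∈ Icc 0 m.l0) (z : B2) :
    ‖m.Ψ l z - z‖ ≤ 1 := by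
  have h := (convex_Icc 0 m.l0).norm_image_sub_le_of_norm_deriv_le (f := fun l => m.Ψ l z)
    (fun x _ => dif m z x) (fun x hx => m.dl x hx z) (left_mem_Icc.2 m.pos.le) hl
  rw [m.zero, sub_zero, Real.norm_of_nonneg hl.1] at h
  have := mul_le_mul_of_nonneg_left hl.2 m.nn
  linarith [m.small]

end LB

open LB in
theorem bLB (hBR : St_BR) : St_LB where
  dn C U a e m L l hl p hp F := by
    obtain ⟨b1, b2, b3⟩ := hBR.isBr C hp
    have c1 : Tendsto (fun w => (l, (w, C.br p w))) (𝓝 p.1) (𝓝[Icc 0 m.l0 ×ˢ C.S] (l, p)) := by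
      refine tendsto_nhdsWithin_iff.2 ⟨?_, b3.mono fun w hw => ⟨hl, hw⟩⟩
      have := ((continuousAt_const (y := l)).prodMk (continuousAt_id.prodMk b1.continuousAt)).tendsto
      rwa [id, b2] at this
    have c2 : Tendsto (fun w => L.τ l (w, C.br p w)) (𝓝 p.1) (𝓝[C.S] L.τ l p) :=
      tendsto_nhdsWithin_iff.2 ⟨(L.cont (l, p) ⟨hl, hp⟩).tendsto.comp c1,
        b3.mono fun w hw => L.maps l hl hw⟩
    filter_upwards [c2.eventually (hBR.near C (L.maps l hl hp)), b3] with w h1 h2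
    have h3 := L.fst l hl _ h2
    exact congrArg F (Prod.ext h3 (h1.trans (by rw [h3])))
  path C U a e m L l hl p hp F hF := by
    have c1 : Tendsto (fun l => (l, p)) (𝓝[Icc 0 m.l0] l) (𝓝[Icc 0 m.l0 ×ˢ C.S] (l, p)) :=
      tendsto_nhdsWithin_iff.2 ⟨((continuousAt_id.prodMk continuousAt_const).tendsto).mono_left
        nhdsWithin_le_nhds, eventually_mem_nhdsWithin.mono fun w hw => ⟨hw, hp⟩⟩
    have c2 : Tendsto (fun l => L.τ l p) (𝓝[Icc 0 m.l0] l) (𝓝[C.S] L.τ l p) :=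
      tendsto_nhdsWithin_iff.2 ⟨(L.cont (l, p) ⟨hl, hp⟩).tendsto.comp c1,
        eventually_mem_nhdsWithin.mono fun w hw => L.maps w hw hp⟩
    have d := ((hF _ (L.maps l hl hp)).differentiableAt (by simp)).hasFDerivAt
    have h3 := L.fst l hl p hp
    have d2 := HasFDerivAt.comp_hasDerivAt (f := fun l => m.Ψ l p.1) l (h3 ▸ d)
      (dif m p.1 l).hasDerivAt
    rw [← h3] at d2
    refine d2.hasDerivWithinAt.congr_of_eventuallyEq ?_ ?_
    · filter_upwards [c2.eventually (hBR.near C (L.maps l hl hp)), self_mem_nhdsWithin] with x h1 h2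
      have h4 := L.fst x h2 p hp
      show F (L.τ x p) = F (m.Ψ x p.1, _)
      congr 1
      exact Prod.ext h4 (h1.trans (by rw [h4]))
    · show _ = C.dn F _ (m.Ψ l p.1)
      rw [← h3, hBR.self C F (L.maps l hl hp)]
  surj C U a e m L l hl q hq := by
    obtain ⟨Φ, -, -, hΦ⟩ := m.inv l hl
    have hz : Φ q.1 ∈ C.Ω := (m.om l hl _).1 (by rw [hΦ]; exact hq.1)
    have s : ∀ k, (Φ q.1, C.r k (Φ q.1)) ∈ C.S := fun k => ⟨hz, k, rfl⟩
    have f1 : ∀ k, (L.τ l (Φ q.1, C.r k (Φ q.1))).1 = q.1 := fun k => (L.fst l hl _ (s k)).trans (hΦ _)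
    have h1 : ∀ k, ∃ j, C.r j q.1 = (L.τ l (Φ q.1, C.r k (Φ q.1))).2 := fun k => by
      have := (L.maps l hl (s k)).2
      rwa [f1] at this
    choose σ hσ using h1
    have hi : Injective σ := fun i j h => C.inj _ hz (congrArg Prod.snd
      (L.inj l hl (s i) (s j) (Prod.ext ((f1 i).trans (f1 j).symm) (by rw [← hσ, ← hσ, h]))))
    obtain ⟨j, hj⟩ := hq.2
    obtain ⟨k, rfl⟩ := Finite.injective_iff_surjective.1 hi j
    exact ⟨_, s k, Prod.ext (f1 k) ((hσ k).symm.trans hj)⟩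
  supp C U a e m K hK hs := by
    obtain ⟨R, hR⟩ := hK.isBounded.subset_closedBall 0
    refine ⟨Prod.snd '' (Icc 0 m.l0 ×ˢ Metric.closedBall 0 (R + 1) ∩ uncurry m.Ψ ⁻¹' K) ∪
      uncurry m.Ψ '' (Icc 0 m.l0 ×ˢ K), (((isCompact_Icc.prod (isCompact_closedBall _ _)).inter_right
        (hK.isClosed.preimage m.sm.continuous)).image continuous_snd).union
        ((isCompact_Icc.prod hK).image m.sm.continuous), union_subset ?_ ?_,
      fun l hl z => ⟨fun h => Or.inl ⟨(l, z), ⟨⟨hl, ?_⟩, h⟩, rfl⟩,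
        fun h => Or.inr ⟨(l, z), ⟨hl, h⟩, rfl⟩⟩⟩
    · rintro _ ⟨x, hx, rfl⟩
      exact (m.om _ hx.1.1 _).1 (hs hx.2)
    · rintro _ ⟨x, hx, rfl⟩
      exact (m.om _ hx.1 _).2 (hs hx.2)
    · have h1 := mem_closedBall_zero_iff.1 (hR h)
      have h2 := mv m hl z
      have h3 := norm_sub_norm_le z (m.Ψ l z)
      rw [norm_sub_rev] at h3
      exact mem_closedBall_zero_iff.2 (by linarith)

end Pool.Agent.Lib.CLF
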