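import Pool.Agent.Lib.CLF.ABlue

/-! Lifting the motion to the cover. -/

open MeasureTheory Filter Topology Set Function

noncomputable section

namespace Pool.Agent.Lib.CLF

namespace LIFT

/-- The projection of the cover. -/
def pr (C : Cv) : C.S → C.Ω := fun p => ⟨p.1.1, p.2.1⟩

theorem pr_cont (C : Cv) : Continuous (pr C) :=
  (continuous_fst.comp continuous_subtype_val).subtype_mk _

theorem cov (hB : St_BR) (C : Cv) : IsCoveringMap (pr C) := by
  intro z
  obtain ⟨ε, b, hε, hsub, hb⟩ := hB.triv C z.2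
  apply IsEvenlyCovered.to_isEvenlyCovered_preimage (I := Fin C.β)
  have hc := pr_cont C
  let U : Set C.Ω := Subtype.val ⁻¹' Metric.ball z.1 ε
  have hU : IsOpen U := Metric.isOpen_ball.preimage continuous_subtype_val
  have hex : ∀ p : pr C ⁻¹' U, ∃ k, b k p.1.1.1 = p.1.1.2 := by
    intro p
    have h1 := p.1.2.2
    rw [← (hb p.1.1.1 p.2).2.1] at h1
    exact h1
  choose idx hidx using hex
  have hbc : ∀ k, ContinuousOn (b k) (Metric.ball z.1 ε) := fun k w hw =>
    ((hb w hw).2.2 k).1.continuousAt.continuousWithinAt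
  have hmem : ∀ (w : U) (k : Fin C.β), (w.1.1, b k w.1.1) ∈ C.S := by
    intro w k
    refine ⟨w.1.2, ?_⟩
    rw [← (hb w.1.1 w.2).2.1]
    exact ⟨k, rfl⟩
  have hbase : Continuous fun p : pr C ⁻¹' U => p.1.1.1 :=
    continuous_fst.comp (continuous_subtype_val.comp continuous_subtype_val)
  have hidxc : Continuous idx := by
    rw [continuous_iff_isClosed]
    intro T _
    have : idx ⁻¹' T = ⋃ k ∈ T, {p : pr C ⁻¹' U | b k p.1.1.1 = p.1.1.2} := by
      ext p
      simp only [mem_preimage, mem_iUnion, mem_ofPred_eq]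
      constructor
      · intro h
        exact ⟨idx p, h, hidx p⟩
      · rintro ⟨k, hk, h⟩
        have : idx p = k := (hb p.1.1.1 p.2).1 ((hidx p).trans h.symm)
        rwa [this]
    rw [this]
    refine (toFinite T).isClosed_biUnion fun k _ => isClosed_eq ?_ ?_
    · exact (hbc k).comp_continuous hbase fun p => p.2
    · exact continuous_snd.comp (continuous_subtype_val.comp continuous_subtype_val)
  refine ⟨inferInstance, U, Metric.mem_ball_self hε, hU, hU.preimage hc,
    ⟨⟨fun p => (⟨pr C p.1, p.2⟩, idx p),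
      fun x => ⟨⟨(x.1.1.1, b x.2 x.1.1.1), hmem x.1 x.2⟩, x.1.2⟩, ?_, ?_⟩, ?_, ?_⟩, fun _ => rfl⟩
  · intro p
    exact Subtype.ext (Subtype.ext (Prod.ext rfl (hidx p)))
  · intro x
    refine Prod.ext rfl ?_
    exact (hb x.1.1.1 x.1.2).1
      (hidx ⟨⟨(x.1.1.1, b x.2 x.1.1.1), hmem x.1 x.2⟩, x.1.2⟩)
  · exact ((hc.comp continuous_subtype_val).subtype_mk _).prodMk hidxc
  · refine Continuous.subtype_mk (Continuous.subtype_mk ?_ _) _
    rw [continuous_prod_of_discrete_right]
    intro k
    have h1 : Continuous fun w : U => w.1.1 := continuous_subtype_val.comp continuous_subtype_val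
    exact h1.prodMk ((hbc k).comp_continuous h1 fun w => w.2)

end LIFT

open LIFT in
theorem bLIFT (hB : St_BR) : St_LIFT := by
  intro C U a e m
  classical
  have hc := cov hB C
  have hl0 := m.pos
  have hI : ∀ t : unitInterval, (t : ℝ) * m.l0 ∈ Icc 0 m.l0 := fun t =>
    ⟨mul_nonneg t.2.1 hl0.le, mul_le_of_le_one_left hl0.le t.2.2⟩
  let H : C(unitInterval × C.S, C.Ω) :=
    ⟨fun x => ⟨m.Ψ ((x.1 : ℝ) * m.l0) x.2.1.1, (m.om _ (hI x.1) _).2 x.2.2.1⟩, by
      refine Continuous.subtype_mk ?_ _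
      exact m.sm.continuous.comp
        (((continuous_subtype_val.comp continuous_fst).mul continuous_const).prodMk
          (continuous_fst.comp (continuous_subtype_val.comp continuous_snd)))⟩
  have H0 : ∀ p : C.S, H (0, p) = pr C (ContinuousMap.id C.S p) := by
    intro p
    refine Subtype.ext ?_
    change m.Ψ (((0 : unitInterval) : ℝ) * m.l0) p.1.1 = p.1.1
    simp [m.zero]
  let G := hc.liftHomotopy H (ContinuousMap.id C.S) H0
  have hG : ∀ x, pr C (G x) = H x := fun x => congrFun (hc.liftHomotopy_lifts H _ H0) x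
  have hG0 : ∀ p, G (0, p) = p := fun p => hc.liftHomotopy_zero H _ H0 p
  let s : ℝ → unitInterval := fun l => projIcc (0 : ℝ) 1 zero_le_one (l / m.l0)
  have hs : ∀ l ∈ Icc 0 m.l0, (s l : ℝ) * m.l0 = l := by
    intro l hl
    have h1 : l / m.l0 ∈ Icc (0 : ℝ) 1 := ⟨div_nonneg hl.1 hl0.le, (div_le_one hl0).2 hl.2⟩
    have h2 : (s l : ℝ) = l / m.l0 := by
      simp only [s, projIcc_of_mem _ h1]
    rw [h2]
    field_simp
  have hsc : Continuous s := continuous_projIcc.comp (continuous_id.div_const _)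
  have hs0 : s 0 = 0 := by
    simp only [s, zero_div, projIcc_left]
    rfl
  have hfst : ∀ l ∈ Icc 0 m.l0, ∀ p : C.S, (G (s l, p)).1.1 = m.Ψ l p.1.1 := by
    intro l hl p
    have h1 : (G (s l, p)).1.1 = m.Ψ ((s l : ℝ) * m.l0) p.1.1 := congrArg Subtype.val (hG (s l, p))
    rw [h1, hs l hl]
  refine ⟨⟨fun l p => if h : p ∈ C.S then (G (s l, ⟨p, h⟩)).1 else p, ?_, ?_, ?_, ?_, ?_⟩⟩
  · intro l _ p hp
    simp only [dif_pos hp]
    exact (G (s l, ⟨p, hp⟩)).2
  · intro l hl p hp
    simp only [dif_pos hp]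
    exact hfst l hl ⟨p, hp⟩
  · intro p hp
    simp only [dif_pos hp, hs0, hG0]
  · rw [continuousOn_iff_continuous_domRestrict]
    have h1 : Continuous fun x : (Icc 0 m.l0 ×ˢ C.S : Set (ℝ × Am)) =>
        (G (s x.1.1, ⟨x.1.2, x.2.2⟩)).1 := by
      refine continuous_subtype_val.comp (G.continuous.comp ?_)
      exact (hsc.comp (continuous_fst.comp continuous_subtype_val)).prodMk
        ((continuous_snd.comp continuous_subtype_val).subtype_mk _)
    refine h1.congr fun x => ?_
    have hx : x.1.2 ∈ C.S := x.2.2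
    simp only [domRestrict_apply, uncurry, dif_pos hx]
  · intro l hl p hp q hq hpq
    simp only [dif_pos hp, dif_pos hq] at hpq
    obtain ⟨Φ, -, hΦ, -⟩ := m.inv l hl
    have h1 : p.1 = q.1 := by
      apply hΦ.injective
      rw [← hfst l hl ⟨p, hp⟩, ← hfst l hl ⟨q, hq⟩, hpq]
    have h2 : (fun t => G (t, ⟨p, hp⟩)) = fun t => G (t, ⟨q, hq⟩) := by
      refine hc.eq_of_comp_eq (G.continuous.comp (Continuous.prodMk_left _))
        (G.continuous.comp (Continuous.prodMk_left _)) ?_ (s l) (Subtype.ext hpq)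
      funext t
      simp only [comp_apply, hG]
      refine Subtype.ext ?_
      change m.Ψ _ p.1 = m.Ψ _ q.1
      rw [h1]
    have h3 := congrFun h2 0
    simp only [hG0] at h3
    exact congrArg Subtype.val h3

end Pool.Agent.Lib.CLF
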