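import Pool.Agent.Lib.CLF.BBlue

/-! Lower bound for the number of monomials. -/

open MvPolynomial Function Module Pool.Agent.Lib.MP_08f962_ag

noncomputable section

namespace Pool.Agent.Lib.CLF

namespace LOW

theorem mons {K L ι : Type} [Field K] [Field L] [Algebra K L] [Fintype ι] (z : ι → L) (R : ℕ)
    (h : IntermediateField.adjoin K (Set.range z) = ⊤) (hR : (R : Cardinal) ≤ Module.rank K L) :
    ∃ e : Fin R → ι → ℕ, LinearIndependent K fun r => ∏ k, z k ^ e r k := by
  obtain ⟨b, hb, hs, hl⟩ := exists_linearIndependent K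
    ((Submonoid.closure (Set.range z) : Submonoid L) : Set L)
  have h1 : (R : Cardinal) ≤ Cardinal.mk b := by
    by_contra hc
    have fb : b.Finite := Set.finite_coe_iff.1
      (Cardinal.lt_aleph0_iff_finite.1 ((not_le.1 hc).trans Cardinal.natCast_lt_aleph0))
    have fg : (Algebra.adjoin K (Set.range z)).toSubmodule.FG := by
      rw [Algebra.adjoin_eq_span, ← hs]
      exact Submodule.fg_span fb
    have e := IntermediateField.adjoin_toSubalgebra_of_isAlgebraic (F := K) (S := Set.range z)
      fun x hx => (IsIntegral.of_mem_of_fg _ fg x (Algebra.subset_adjoin hx)).isAlgebraic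
    have e2 : Submodule.span K b = ⊤ := by
      rw [hs, ← Algebra.adjoin_eq_span, ← e, h]
      rfl
    refine hc (hR.trans_eq ?_)
    rw [← rank_span_set hl, e2, rank_top]
  obtain ⟨f⟩ : Nonempty (Fin R ↪ b) := by
    rw [← Cardinal.le_def]
    simpa using h1
  choose e he using fun r => Submonoid.mem_closure_range_iff_of_fintype.1 (hb (f r).2)
  refine ⟨e, ?_⟩
  simp only [← he]
  exact hl.comp f f.injective

theorem pair {L : Type} [Field L] [Algebra ℂ L] {x y : L} (h : AlgebraicIndependent ℂ ![x, y]) :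
    LinearIndependent ℂ fun p : ℕ × ℕ => x ^ p.1 * y ^ p.2 := by
  have h1 := ((basisMonomials (Fin 2) ℂ).linearIndependent.map' (aeval ![x, y]).toLinearMap
    (LinearMap.ker_eq_bot.2 h)).comp
    (fun p : ℕ × ℕ => Finsupp.single (0 : Fin 2) p.1 + Finsupp.single 1 p.2) fun p q e =>
      Prod.ext (by simpa using DFunLike.congr_fun e 0) (by simpa using DFunLike.congr_fun e 1)
  refine (congrArg (fun v : ℕ × ℕ → L => LinearIndependent ℂ v) (funext fun p => ?_)).mp h1
  simp [aeval_monomial, Finsupp.prod_add_index', pow_add]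

end LOW

theorem bLOW : St_LOW := by
  classical
  intro L ι _ _ _ z i j R h hi hR
  set K := IntermediateField.adjoin ℂ {z i, z j}
  have hK : IntermediateField.adjoin K (Set.range z) = ⊤ := by
    refine IntermediateField.restrictScalars_injective ℂ (eq_top_iff.2 ?_)
    rw [← h, IntermediateField.adjoin_le_iff]
    exact IntermediateField.subset_adjoin K _
  obtain ⟨e, he⟩ := LOW.mons z R hK hR
  have ij : i ≠ j := fun h0 => by
    have := hi.injective (a₁ := 0) (a₂ := 1) (by simp [h0])
    simp at this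
  refine ⟨∑ r, ∑ k, e r k, fun a ha => ?_⟩
  set c := ∑ r, ∑ k, e r k
  have ec : ∀ r k, e r k ≤ c := fun r k =>
    (Finset.single_le_sum (f := e r) (fun _ _ => Nat.zero_le _) (Finset.mem_univ k)).trans
      (Finset.single_le_sum (f := fun r => ∑ k, e r k) (fun _ _ => Nat.zero_le _)
        (Finset.mem_univ r))
  let x : K := ⟨z i, IntermediateField.subset_adjoin _ _ (by simp)⟩
  let y : K := ⟨z j, IntermediateField.subset_adjoin _ _ (by simp)⟩
  have l1 : LinearIndependent ℂ fun p : Fin (a i - c) × Fin (a j - c) =>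
      x ^ (p.1 : ℕ) * y ^ (p.2 : ℕ) :=
    LinearIndependent.of_comp K.val.toLinearMap ((LOW.pair hi).comp
      (fun p : Fin (a i - c) × Fin (a j - c) => ((p.1 : ℕ), (p.2 : ℕ)))
      (Fin.val_injective.prodMap Fin.val_injective))
  have l2 := linearIndependent_smul l1 he
  have fin : FiniteDimensional ℂ (Us ℂ z a) := FiniteDimensional.span_of_finite ℂ
    (((Set.finite_Iic a).image fun e => ∏ k, z k ^ e k).subset
      fun _ ⟨e, h1, h2⟩ => ⟨e, h1, h2.symm⟩)
  have mem : ∀ p : (Fin (a i - c) × Fin (a j - c)) × Fin R,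
      (x ^ (p.1.1 : ℕ) * y ^ (p.1.2 : ℕ)) • ∏ k, z k ^ e p.2 k ∈ Us ℂ z a := by
    rintro ⟨⟨s, t⟩, r⟩
    refine Submodule.subset_span ⟨Pi.single i (s : ℕ) + Pi.single j (t : ℕ) + e r, fun k => ?_, ?_⟩
    · have h1 := ec r k
      have h2 := ha k
      have h3 := s.2
      have h4 := t.2
      simp only [Pi.add_apply, Pi.single_apply]
      split_ifs with h5 h6 h6
      · exact absurd (h5.symm.trans h6) ij
      · subst h5; omega
      · subst h6; omega
      · omega
    · have p1 : ∀ (l : ι) (u : ℕ), ∏ k, z k ^ (Pi.single l u : ι → ℕ) k = z l ^ u := fun l u => by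
        rw [Finset.prod_eq_single l (fun k _ hk => by simp [hk]) (by simp), Pi.single_eq_same]
      simp only [Pi.add_apply, pow_add, Finset.prod_mul_distrib, p1]
      rfl
  have l3 := (LinearIndependent.of_comp (Us ℂ z a).subtype
    (v := fun p => ⟨_, mem p⟩) l2).fintype_card_le_finrank
  simp only [Fintype.card_prod, Fintype.card_fin] at l3
  exact le_of_eq_of_le (by ring) l3

end Pool.Agent.Lib.CLF
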