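import Pool.Agent.Lib.CLF.ABlue

/-! The lower bound for the smoothed kernel. -/

open MeasureTheory Filter Topology Set Function
open scoped ContDiff ENNReal ComplexConjugate

noncomputable section

namespace Pool.Agent.Lib.CLF

theorem bLOWB (hC : St_CONV) (hB : St_BIL) (hM : St_WM) : St_LOWB := by
  intro n m r N ε l c f g C x y χ χ' A B A' B' a b a' b' hl hc hS h0 hs hA ha
  have := (hM.fin C hl).1
  have e1 := ae_all_iff.2 fun i : Fin (N + 1) => hC C l true r (χ i) (A i) (fun k p => f k (x p))
    (a i) (A' i) (a' i) ((fun X k => f k X) '' Slab n i) hl (fun p => (h0 i p).1) (hA i).1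
    (fun k => (ha i k).1) fun p hp h => ⟨x p, (hs i p hp).1 h, rfl⟩
  have e2 := ae_all_iff.2 fun i : Fin (N + 1) => hC C l false r (χ' i) (B i) (fun k p => g k (y p))
    (b i) (B' i) (b' i) ((fun X k => g k X) '' Slab m i) hl (fun p => (h0 i p).2) (hA i).2.1
    (fun k => (ha i k).2) fun p hp h => ⟨y p, (hs i p hp).2 h, rfl⟩
  have e3 := ae_all_iff.2 fun i => (hA i).2.2.1
  have e4 := ae_all_iff.2 fun i => (hA i).2.2.2
  have bil := hB r (N + 1) ε (fun i => (fun X k => f k X) '' Slab n i)
    (fun i => (fun X k => g k X) '' Slab m i) (by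
      rintro i j _ ⟨X, hX, rfl⟩ _ ⟨Y, hY, rfl⟩
      exact hS.2.2.1 X Y hX.1 hY.1) (by
      intro u v hu hv
      choose X hX eX using hu
      choose Y hY eY using hv
      simpa only [← eX, ← eY] using hS.2.2.2 X Y hX hY)
  have i : ∀ i j k, Integrable (fun p => a i k p * b j k p) (C.mn l) := fun i j k =>
    (ha i k).1.2.1.1.integrable_mul (ha j k).2.2.1.1
  have i1 := fun i' j => integrable_finsetSum Finset.univ fun k _ => i i' j k
  have i2 := fun i' => integrable_finsetSum Finset.univ fun j _ => i1 i' j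
  simp only [← integral_finsetSum _ fun k _ => i _ _ k, ← integral_finsetSum _ fun j _ => i1 _ j]
  rw [← integral_finsetSum _ fun i' _ => i2 i', mul_comm, ← smul_eq_mul, ← integral_const]
  refine integral_mono_ae (integrable_const _) (integrable_finsetSum _ fun i' _ => i2 i')
    ((hM.ac C true hl).1.ae_le ?_)
  filter_upwards [e1, e2, e3, e4] with p p1 p2 p3 p4
  obtain ⟨q1, q2⟩ := bil (fun i k => a i k p / A i p) (fun j k => b j k p / B j p)
    (fun i => p1 i (hc.trans_le (p3 i))) fun j => p2 j (hc.trans_le (p4 j))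
  refine (mul_le_mul_of_nonneg_left q2 (sq_nonneg c)).trans ?_
  rw [Finset.mul_sum]
  refine Finset.sum_le_sum fun i _ => ?_
  rw [Finset.mul_sum]
  refine Finset.sum_le_sum fun j _ => ?_
  have u := hc.trans_le (p3 i)
  have v := hc.trans_le (p4 j)
  refine (mul_le_mul_of_nonneg_right (show c ^ 2 ≤ A i p * B j p by
    nlinarith [p3 i, p4 j, mul_le_mul (p3 i) (p4 j) hc.le u.le]) (q1 i j)).trans_eq ?_
  rw [Finset.mul_sum]
  exact Finset.sum_congr rfl fun k _ => by field_simp

end Pool.Agent.Lib.CLF
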