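import Pool.Agent.Lib.CLF.B_STA0

/-! Upper bound for the number of monomials. -/

open Module IntermediateField

noncomputable section

namespace Pool.Agent.Lib.CLF

namespace LU

variable {ι : Type} [Fintype ι] [DecidableEq ι]

/-- path induction -/
theorem path {f g : (ι → ℕ) → ℝ} (N : ι → ℕ) (h0 : ∀ a ≤ N, f a ≤ g a)
    (h1 : ∀ a i, N i ≤ a i → f a ≤ g a → f (a + Pi.single i 1) ≤ g (a + Pi.single i 1))
    (a : ι → ℕ) : f a ≤ g a := by
  induction hn : ∑ i, a i generalizing a with
  | zero =>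
    exact h0 a fun i => (Finset.sum_eq_zero_iff.1 hn i (Finset.mem_univ i)).trans_le (Nat.zero_le _)
  | succ n ih =>
    by_cases h : a ≤ N
    · exact h0 a h
    · obtain ⟨i, hi⟩ := not_forall.1 h
      have hi' : N i < a i := not_le.1 hi
      have e : a = (a - Pi.single i 1) + Pi.single i 1 := by
        funext j
        by_cases hj : j = i
        · subst hj; simp; omega
        · simp [hj]
      rw [e] at hn ⊢
      refine h1 _ i (by simp; omega) (ih _ ?_)
      simpa [Finset.sum_add_distrib] using hn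

theorem indep {L : Type} [Field L] [Algebra ℂ L] {x y : L} (hx : Transcendental ℂ x)
    (hy : Transcendental (adjoin ℂ {x}) y) : AlgebraicIndependent ℂ ![x, y] := by
  have h1 : AlgebraicIndependent ℂ fun _ : Unit => x :=
    algebraicIndependent_unique_type_iff.2 hx
  have h2 := (h1.option_iff_transcendental y).2 (by
    rw [Set.range_const]; exact transcendental_adjoin_iff.1 hy)
  convert h2.comp ![some (), none] (by decide) using 1
  funext i
  fin_cases i <;> rfl

theorem lin (h : St_STA) {L : Type} [Field L] [Algebra ℂ L] (z : ι → L)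
    (hz : ∀ i j, Fd (z i) (z j)) (i : ι) (hi : Transcendental ℂ (z i)) : ∃ c : ℝ, ∀ a : ι → ℕ,
      (finrank (adjoin ℂ {z i}) (Us (adjoin ℂ {z i}) z a) : ℝ) ≤
        c + ∑ j, (dg (z i) (z j) : ℝ) * a j := by
  set K := adjoin ℂ {z i}
  choose N hN using h K L ι z
  refine ⟨finrank K (Us K z N), path N (fun a ha => ?_) fun a j hj ih => ?_⟩
  · have := STA0.fin K z N
    exact le_add_of_le_of_nonneg (Nat.cast_le.2 (Submodule.finrank_mono (STA0.mono ha)))
      (by positivity)
  · have e : ∑ l, (dg (z i) (z l) : ℝ) * ((a + Pi.single j 1 : ι → ℕ) l : ℕ) =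
        ∑ l, (dg (z i) (z l) : ℝ) * a l + dg (z i) (z j) := by
      simp [mul_add, Finset.sum_add_distrib, Pi.single_apply]
    rw [e, ← add_assoc]
    by_cases ht : IsAlgebraic K (z j)
    · exact le_add_of_le_of_nonneg ((Nat.cast_le.2 ((hN j a hj).1 ht)).trans ih) (by positivity)
    · have h1 := indep hi ht
      have h2 : (adjoin K {z j}).restrictScalars ℂ = adjoin ℂ {z i, z j} := adjoin_adjoin_left ..
      have h3 := hz i j h1
      have h4 : dg (z i) (z j) = finrank (adjoin ℂ {z i, z j}) L := if_pos h1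
      rw [← h2] at h3 h4
      have h5 : FiniteDimensional (adjoin K {z j}) L := h3
      have h6 : finrank (adjoin K {z j}) (Us (adjoin K {z j}) z a) ≤ dg (z i) (z j) :=
        (Submodule.finrank_le _).trans h4.ge
      have h7 : (finrank K (Us K z (a + Pi.single j 1)) : ℝ) ≤
          finrank K (Us K z a) + dg (z i) (z j) := by
        exact_mod_cast (hN j a hj).2.trans (Nat.add_le_add_left h6 _)
      exact h7.trans (add_le_add_left ih _)

end LU

open LU in
theorem bLU (h : St_STA) : St_LU := fun L ι _ _ _ z hz => by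
  classical
  choose N hN using h ℂ L ι z
  have h1 : ∀ i, ∃ c : ℝ, Transcendental ℂ (z i) → ∀ a : ι → ℕ,
      (finrank (adjoin ℂ {z i}) (Us (adjoin ℂ {z i}) z a) : ℝ) ≤
        c + ∑ j, (dg (z i) (z j) : ℝ) * a j := fun i => by
    by_cases hi : Transcendental ℂ (z i)
    · exact (lin h z hz i hi).imp fun _ h _ => h
    · exact ⟨0, fun h => absurd h hi⟩
  choose c hc using h1
  set M : ℝ := finrank ℂ (Us ℂ z N) + ∑ i, |c i| with hM
  have hM0 : 0 ≤ M := by positivity
  refine ⟨M, path N (fun a ha => ?_) fun a i hi ih => ?_⟩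
  · have := STA0.fin ℂ z N
    have h2 : (finrank ℂ (Us ℂ z a) : ℝ) ≤ M :=
      le_add_of_le_of_nonneg (Nat.cast_le.2 (Submodule.finrank_mono (STA0.mono ha))) (by positivity)
    refine le_add_of_le_of_nonneg (h2.trans (le_mul_of_one_le_right hM0 ?_)) (by positivity)
    exact le_add_of_nonneg_right (by positivity)
  · have e1 : ((∑ l, (a + Pi.single i 1 : ι → ℕ) l : ℕ) : ℝ) = (∑ l, a l : ℕ) + 1 := by
      simp [Finset.sum_add_distrib]
    have e2 : ∑ p, ∑ q, (dg (z p) (z q) : ℝ) * a p * a q + ∑ q, (dg (z i) (z q) : ℝ) * a q ≤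
        ∑ p, ∑ q, (dg (z p) (z q) : ℝ) * ((a + Pi.single i 1 : ι → ℕ) p : ℕ) *
          ((a + Pi.single i 1 : ι → ℕ) q : ℕ) := by
      have e3 : ∑ p, ∑ q, (dg (z p) (z q) : ℝ) * a p * a q + ∑ q, (dg (z i) (z q) : ℝ) * a q =
          ∑ p, ∑ q, (dg (z p) (z q) : ℝ) * ((a + Pi.single i 1 : ι → ℕ) p : ℕ) * a q := by
        simp [mul_add, add_mul, Finset.sum_add_distrib, Pi.single_apply]
      rw [e3]
      refine Finset.sum_le_sum fun p _ => Finset.sum_le_sum fun q _ => ?_
      exact mul_le_mul_of_nonneg_left (Nat.cast_le.2 (Nat.le_add_right _ _)) (by positivity)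
    have h2 : (finrank ℂ (Us ℂ z (a + Pi.single i 1)) : ℝ) ≤
        finrank ℂ (Us ℂ z a) + (M + ∑ q, (dg (z i) (z q) : ℝ) * a q) := by
      by_cases ht : IsAlgebraic ℂ (z i)
      · exact le_add_of_le_of_nonneg (Nat.cast_le.2 ((hN i a hi).1 ht)) (by positivity)
      · have h3 : c i ≤ M := (le_abs_self _).trans (le_add_of_nonneg_of_le (by positivity)
          (Finset.single_le_sum (f := fun i => |c i|) (fun _ _ => abs_nonneg _) (Finset.mem_univ i)))
        have h4 := hc i ht a
        have h5 : (finrank ℂ (Us ℂ z (a + Pi.single i 1)) : ℝ) ≤ finrank ℂ (Us ℂ z a) +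
            finrank (adjoin ℂ {z i}) (Us (adjoin ℂ {z i}) z a) := by exact_mod_cast (hN i a hi).2
        linarith
    rw [e1]
    linarith

end Pool.Agent.Lib.CLF
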