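import Pool.Agent.Lib.CLF.BBlue
import Pool.Agent.Lib.MP_08f962_ag.Main

open MvPolynomial Filter Pool.Agent.Lib.MP_08f962_ag

namespace Pool.Agent.Lib.CLF

theorem bMAIN (hS : St_SPE) (hI : St_INN) (hO : St_OUT) (hC : St_OC) (hD : St_DEC) : St_MAIN := by
  intro n m hn hm
  obtain ⟨K, hK, h⟩ := hS n m hn hm
  refine ⟨2 * K, fun d e hd he => ?_⟩
  obtain ⟨F₀, h0, h1⟩ := h d e hd he
  obtain ⟨T, h2, h3, h4⟩ := veryGeneral (n := n) (m := m) (d, e)
  refine ⟨T, h2, h3, fun F hF hT k => ⟨hI n m d e k F hn hF ?_, fun c hc =>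
    hO n m d e k K hn hm (by omega) (by omega) hK c (hC.eff (fun P c hP hb hFP hc => ?_) hc)⟩⟩
  · rintro rfl
    have := (h4 0 hF hT).ne_zero ⟨Finsupp.single (.inl 0) d + Finsupp.single (.inr 0) e, by
      simp [wt, Finsupp.weight_single]⟩
    simp at this
  · obtain ⟨I, hb', h5, h6⟩ := exists_spec hb hF h0 hFP (h4 F hF hT)
    refine hC.cn (J := I) (fun Q c hQ hQ' hle => h1 Q k c hQ hQ' (hle h5)) c (hD n m I k c hb' ?_)
    obtain ⟨q, h7, h8, h9⟩ := hc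
    exact ⟨q, h7, by simpa only [h6] using h8, h9⟩

end Pool.Agent.Lib.CLF
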