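import Pool.Agent.Lib.CLF.ABlue

/-! Row MB: bounded smooth functions of finite energy are members; the resolvent keeps bounds. -/

open MeasureTheory Filter Topology Set Function
open scoped ContDiff ENNReal ComplexConjugate

noncomputable section

namespace Pool.Agent.Lib.CLF

namespace MB

/-- Dominated convergence in the mean. -/
lemma dct {E : Type} [NormedAddCommGroup E] {m : Measure Am} {f : ℕ → Am → E} {G : Am → E}
    (hf : ∀ j, AEStronglyMeasurable (f j) m) (hG : MemLp G 2 m)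
    (hb : ∀ j, ∀ᵐ p ∂m, ‖f j p‖ ≤ ‖G p‖) (h0 : ∀ᵐ p ∂m, ∀ᶠ j in atTop, f j p = 0) :
    Tendsto (fun j => eLpNorm (f j) 2 m) atTop (𝓝 0) := by
  have h := tendsto_lintegral_of_dominated_convergence' (μ := m) (f := fun _ => 0)
    (F := fun j p => ‖f j p‖ₑ ^ (2 : ℝ≥0∞).toReal) (fun p => ‖G p‖ₑ ^ (2 : ℝ≥0∞).toReal)
    (fun j => (hf j).enorm.pow_const _)
    (fun j => (hb j).mono fun p hp => ENNReal.rpow_le_rpow (by
      rw [← ofReal_norm, ← ofReal_norm]
      exact ENNReal.ofReal_le_ofReal hp) (by norm_num))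
    (lintegral_rpow_enorm_lt_top_of_eLpNorm_lt_top two_ne_zero ENNReal.ofNat_ne_top hG.2).ne
    (h0.mono fun p hp => tendsto_const_nhds.congr' (hp.mono fun j hj => by simp [hj]))
  simp only [eLpNorm_eq_lintegral_rpow_enorm_toReal two_ne_zero ENNReal.ofNat_ne_top]
  simpa using h.ennrpow_const (1 / (2 : ℝ≥0∞).toReal)

lemma mem (hC : St_CAL) (hW : St_WM) (hI : St_INT) (C : Cv) {l b g} (l0 : 0 < l)
    (hc : C.HasCut l) (hg : C.Bd g) (hd : MemLp (C.D b (cx g)) 2 (C.mo l b)) :
    C.Mem l b g (C.D b (cx g)) := by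
  obtain ⟨κ, k1, k2, k3⟩ := hc
  obtain ⟨sm, M, hM⟩ := hg
  obtain ⟨a1, -, a2, -⟩ := hW.ac C b l0
  have := (hW.fin C l0).1
  have cb : ∀ j, Bump (C.Ω ∩ univ) (cx (κ j)) := fun j => by
    have e : tsupport (cx (κ j)) ⊆ tsupport (κ j) :=
      closure_mono fun z hz h0 => hz (by simp [cx, h0])
    exact ⟨Complex.ofRealCLM.contDiff.comp (k1 j).1.1,
      (k1 j).1.2.1.of_isClosed_subset (isClosed_tsupport _) e, by
        rw [inter_univ]
        exact e.trans (k1 j).1.2.2⟩
  have e : ∀ j, cx (fun p : Am => κ j p.1 * g p) = fun p => cx (κ j) p.1 * cx g p := fun j => by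
    funext p
    simp [cx]
  have t : ∀ j, C.Tst univ (cx fun p : Am => κ j p.1 * g p) := fun j =>
    e j ▸ hC.tbump C (cb j) sm
  have one : ∀ p ∈ C.S, ∀ᶠ j in atTop, κ j p.1 = 1 := fun p hp =>
    (k2 {p.1} isCompact_singleton (singleton_subset_iff.2 hp.1)).mono fun j hj => hj _ rfl
  have mt : ∀ j, AEStronglyMeasurable (fun p : Am => κ j p.1 * g p) C.mu := fun j => by
    simpa [cx] using Complex.continuous_re.comp_aestronglyMeasurable ((hI.tst C (t j)).2 2).1
  have mg : AEStronglyMeasurable g C.mu := aestronglyMeasurable_of_tendsto_ae atTop mt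
    ((hI.ae C).mono fun p hp => tendsto_const_nhds.congr' ((one p hp).mono fun j hj => by
      simp [hj]))
  have g2 : MemLp g 2 (C.mn l) :=
    MemLp.of_bound (mg.mono_ac a1) M (a1.ae_le ((hI.ae C).mono fun p hp => hM p hp))
  have ab : ∀ j z, |1 - κ j z| ≤ 1 := fun j z =>
    abs_le.2 ⟨by linarith [((k1 j).2 z).2], by linarith [((k1 j).2 z).1]⟩
  have kc : ∀ j, Continuous fun p : Am => cx (κ j) p.1 := fun j =>
    (cb j).1.continuous.comp continuous_fst
  refine ⟨g2, hd, fun j p => κ j p.1 * g p, t, dct (fun j => g2.1.sub ((mt j).mono_ac a1)) g2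
    (fun j => Eventually.of_forall fun p => ?_)
    (a1.ae_le ((hI.ae C).mono fun p hp => (one p hp).mono fun j hj => by simp [hj])), ?_⟩
  · rw [Pi.sub_apply, ← one_sub_mul, norm_mul]
    exact mul_le_of_le_one_left (norm_nonneg _) (ab j _)
  have m1 : ∀ j, AEStronglyMeasurable (fun p => (1 - cx (κ j) p.1) * C.D b (cx g) p) (C.mo l b) :=
    fun j => (continuous_const.sub (kc j)).aestronglyMeasurable.mul hd.1
  have t1 := dct m1 hd (fun j => Eventually.of_forall fun p => by
      rw [norm_mul]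
      refine mul_le_of_le_one_left (norm_nonneg _) ?_
      simpa only [cx, ← Complex.ofReal_one, ← Complex.ofReal_sub, Complex.norm_real,
        Real.norm_eq_abs] using ab j _)
    (a2.ae_le ((hI.ae C).mono fun p hp => (one p hp).mono fun j hj => by simp [cx, hj]))
  have t2 := t1.add (ENNReal.Tendsto.const_mul (a := ENNReal.ofReal M) (k3 b)
    (Or.inr ENNReal.ofReal_ne_top))
  rw [mul_zero, add_zero] at t2
  refine tendsto_of_tendsto_of_tendsto_of_le_of_le tendsto_const_nhds t2 (fun _ => bot_le)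
    fun j => ?_
  have m2 : AEStronglyMeasurable (C.D b (cx g) - C.D b (cx fun p : Am => κ j p.1 * g p) -
      fun p => (1 - cx (κ j) p.1) * C.D b (cx g) p) (C.mo l b) :=
    (hd.1.sub (hW.tst C b l0 (hC.tD C b (t j)).1).2.1).sub (m1 j)
  calc _ = eLpNorm ((fun p => (1 - cx (κ j) p.1) * C.D b (cx g) p) + (C.D b (cx g) -
        C.D b (cx fun p : Am => κ j p.1 * g p) - fun p => (1 - cx (κ j) p.1) * C.D b (cx g) p)) 2
        (C.mo l b) := by rw [add_sub_cancel]
    _ ≤ _ := eLpNorm_add_le (m1 j) m2 one_le_two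
    _ ≤ _ := by
      gcongr
      refine eLpNorm_le_mul_eLpNorm_of_ae_le_mul (a2.ae_le ((hI.ae C).mono fun p hp => ?_)) 2
      have := ((hC.mul C (hC.smb C (cb j).1) sm).2 b p hp).1
      rw [(hC.base C b _ p).1, ← e] at this
      show ‖C.D b (cx g) p - C.D b (cx fun p : Am => κ j p.1 * g p) p -
        (1 - cx (κ j) p.1) * C.D b (cx g) p‖ ≤ M * ‖wd b (cx (κ j)) p.1‖
      rw [this, show ∀ x y z w : ℂ, x - (y * z + w * x) - (1 - w) * x = -(z * y) from
        fun x y z w => by ring, norm_neg, norm_mul]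
      gcongr
      simpa [cx] using hM p hp

end MB

theorem bMB (hC : St_CAL) (hW : St_WM) (hI : St_INT) (hR : St_RP) (hP : St_POS)
    (hV : St_WIR) : St_MB where
  mem := MB.mem hC hW hI
  bd := by
    intro C l b g u u' M l0 hc hr hM
    have d0 : C.D b (cx fun _ : Am => M) = 0 := funext fun p =>
      (hC.base C b (fun _ => (M : ℂ)) p).1.trans (hV.cst b _ _)
    have m := MB.mem hC hW hI C (b := b) (g := fun _ => M) l0 hc
      ⟨hC.smb C (h := fun _ => (M : ℂ)) contDiff_const, |M|, fun _ _ => le_rfl⟩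
      (d0 ▸ MemLp.zero)
    have r : C.Res l b (fun _ => M) (fun _ => M) (C.D b (cx fun _ => M)) :=
      ⟨m.1, m, fun ψ _ => by simp [d0]⟩
    filter_upwards [hP C l b _ _ _ l0 (hR.lin C 1 1 l0 r hr) ((hI.ae C).mono fun p hp => by
        linarith [(abs_le.1 (hM p hp)).1]),
      hP C l b _ _ _ l0 (hR.lin C 1 (-1) l0 r hr) ((hI.ae C).mono fun p hp => by
        linarith [(abs_le.1 (hM p hp)).2])] with p h1 h2
    exact abs_le.2 ⟨by linarith, by linarith⟩

end Pool.Agent.Lib.CLF
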