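import Pool.Agent.Lib.CLF.ABlue

/-! Linear structure and closedness of the space of members. -/

open MeasureTheory Filter Topology Set Function
open scoped ContDiff ENNReal ComplexConjugate

noncomputable section

namespace Pool.Agent.Lib.CLF

namespace MEM

/-- A real function is square integrable iff it is so as a complex one. -/
theorem memLp_cx {α : Type} [MeasurableSpace α] {μ : Measure α} {f : α → ℝ} {q : ℝ≥0∞} :
    MemLp (cx f) q μ ↔ MemLp f q μ :=
  ⟨fun h => by simpa [cx] using h.re, fun h => h.ofReal⟩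

theorem eLpNorm_cx {α : Type} [MeasurableSpace α] {μ : Measure α} (f : α → ℝ) (q : ℝ≥0∞) :
    eLpNorm (cx f) q μ = eLpNorm f q μ :=
  eLpNorm_congr_norm_ae (Eventually.of_forall fun p => by simp [cx])

theorem tend_add {α E : Type} [MeasurableSpace α] {μ : Measure α} [NormedAddCommGroup E]
    {a b c : ℕ → α → E} (ha : ∀ j, AEStronglyMeasurable (a j) μ)
    (hb : ∀ j, AEStronglyMeasurable (b j) μ) (hc : ∀ j, c j =ᵐ[μ] a j + b j)
    (h1 : Tendsto (fun j => eLpNorm (a j) 2 μ) atTop (𝓝 0))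
    (h2 : Tendsto (fun j => eLpNorm (b j) 2 μ) atTop (𝓝 0)) :
    Tendsto (fun j => eLpNorm (c j) 2 μ) atTop (𝓝 0) := by
  have h := h1.add h2
  rw [add_zero] at h
  refine tendsto_of_tendsto_of_tendsto_of_le_of_le tendsto_const_nhds h (fun _ => zero_le) ?_
  intro j
  simp only [eLpNorm_congr_ae (hc j)]
  exact eLpNorm_add_le (ha j) (hb j) one_le_two

theorem tend_smul {α E : Type} [MeasurableSpace α] {μ : Measure α} [NormedAddCommGroup E]
    [NormedSpace ℝ E] {a : ℕ → α → E} (x : ℝ)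
    (h1 : Tendsto (fun j => eLpNorm (a j) 2 μ) atTop (𝓝 0)) :
    Tendsto (fun j => eLpNorm (x • a j) 2 μ) atTop (𝓝 0) := by
  simp only [eLpNorm_const_smul]
  simpa using ENNReal.Tendsto.const_mul (a := ‖x‖ₑ) h1 (Or.inr enorm_ne_top)

theorem sm_const (hC : St_CAL) (C : Cv) (x : ℂ) : C.Sm fun _ => x :=
  hC.smb C (h := fun _ => x) contDiff_const

theorem d_const (hC : St_CAL) (C : Cv) (b : Bool) (x : ℂ) (p : Am) : C.D b (fun _ => x) p = 0 := by
  rw [(hC.base C b (fun _ => x) p).1]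
  simp [wd]

/-- Real linear combinations of real test functions. -/
theorem tst_lin (hC : St_CAL) (C : Cv) {U : Set B2} {φ ψ : Am → ℝ} (x y : ℝ)
    (hφ : C.Tst U (cx φ)) (hψ : C.Tst U (cx ψ)) :
    C.Tst U (cx fun p => x * φ p + y * ψ p) ∧ ∀ b, ∀ p ∈ C.S,
      C.D b (cx fun p => x * φ p + y * ψ p) p = x * C.D b (cx φ) p + y * C.D b (cx ψ) p := by
  have e : (cx fun p => x * φ p + y * ψ p) = fun p => (x : ℂ) * cx φ p + (y : ℂ) * cx ψ p := by
    funext p
    simp [cx]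
  rw [e]
  have h1 := hC.tmul C (sm_const hC C x) hφ
  have h2 := hC.tmul C (sm_const hC C y) hψ
  refine ⟨hC.tadd C h1 h2, fun b p hp => ?_⟩
  rw [((hC.add C h1.1 h2.1).2 b p hp).1, ((hC.mul C (sm_const hC C x) hφ.1).2 b p hp).1,
    ((hC.mul C (sm_const hC C y) hψ.1).2 b p hp).1, d_const hC, d_const hC]
  ring

theorem ae_mo (hW : St_WM) (hI : St_INT) (C : Cv) {l : ℝ} (b : Bool) (hl : 0 < l) :
    ∀ᵐ p ∂C.mo l b, p ∈ C.S :=
  (hW.ac C b hl).2.2.1.ae_le (hI.ae C)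

theorem ae_mn (hW : St_WM) (hI : St_INT) (C : Cv) {l : ℝ} (hl : 0 < l) :
    ∀ᵐ p ∂C.mn l, p ∈ C.S :=
  (hW.ac C true hl).1.ae_le (hI.ae C)

theorem tst_mem (hC : St_CAL) (hW : St_WM) (C : Cv) {l : ℝ} (b : Bool) {U : Set B2}
    {φ : Am → ℝ} (hl : 0 < l) (h : C.Tst U (cx φ)) :
    MemLp φ 2 (C.mn l) ∧ MemLp (C.D b (cx φ)) 2 (C.mo l b) :=
  ⟨memLp_cx.1 (hW.tst C b hl h).1, (hW.tst C b hl (hC.tD C b h).1).2⟩

end MEM

open MEM in
theorem bMEM (hC : St_CAL) (hW : St_WM) (hI : St_INT) : St_MEM where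
  tst C l b φ hl h :=
    ⟨(tst_mem hC hW C b hl h).1, (tst_mem hC hW C b hl h).2, fun _ => φ, fun _ => h,
      by simp, by simp⟩
  lin C l b f f' g g' x y hl := by
    rintro ⟨hf, hf', φ, hφ, hφ1, hφ2⟩ ⟨hg, hg', ψ, hψ, hψ1, hψ2⟩
    refine ⟨(hf.const_mul x).add (hg.const_mul y), (hf'.const_mul _).add (hg'.const_mul _),
      fun j p => x * φ j p + y * ψ j p, fun j => (tst_lin hC C x y (hφ j) (hψ j)).1, ?_, ?_⟩
    · refine tend_add (fun j => ?_) (fun j => ?_) (fun j => ?_) (tend_smul x hφ1) (tend_smul y hψ1)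
      · exact (hf.sub (tst_mem hC hW C b hl (hφ j)).1).1.const_smul x
      · exact (hg.sub (tst_mem hC hW C b hl (hψ j)).1).1.const_smul y
      · refine Eventually.of_forall fun p => ?_
        simp only [Pi.sub_apply, Pi.add_apply, Pi.smul_apply, smul_eq_mul]
        ring
    · refine tend_add (fun j => ?_) (fun j => ?_) (fun j => ?_) (tend_smul x hφ2) (tend_smul y hψ2)
      · exact (hf'.sub (tst_mem hC hW C b hl (hφ j)).2).1.const_smul x
      · exact (hg'.sub (tst_mem hC hW C b hl (hψ j)).2).1.const_smul y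
      · filter_upwards [ae_mo hW hI C b hl] with p hp
        simp only [Pi.sub_apply, Pi.add_apply, Pi.smul_apply, Complex.real_smul,
          (tst_lin hC C x y (hφ j) (hψ j)).2 b p hp]
        ring
  congr C l b f f' g g' hl := by
    rintro ⟨hf, hf', φ, hφ, hφ1, hφ2⟩ e e'
    have e1 : f =ᵐ[C.mn l] g := (hW.ac C b hl).1.ae_eq e
    have e2 : f' =ᵐ[C.mo l b] g' := (hW.ac C b hl).2.2.1.ae_eq e'
    refine ⟨hf.ae_eq e1, hf'.ae_eq e2, φ, hφ, hφ1.congr fun j => ?_, hφ2.congr fun j => ?_⟩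
    · exact eLpNorm_congr_ae (e1.sub EventuallyEq.rfl)
    · exact eLpNorm_congr_ae (e2.sub EventuallyEq.rfl)
  closed C l b f f' g g' hl hg hf hf' h1 h2 := by
    have key : ∀ j : ℕ, ∃ φ : Am → ℝ, C.Tst univ (cx φ) ∧
        eLpNorm (g j - φ) 2 (C.mn l) ≤ (j : ℝ≥0∞)⁻¹ ∧
        eLpNorm (g' j - C.D b (cx φ)) 2 (C.mo l b) ≤ (j : ℝ≥0∞)⁻¹ := by
      intro j
      obtain ⟨-, -, φ, hφ, hφ1, hφ2⟩ := hg j
      have hj : (0 : ℝ≥0∞) < (j : ℝ≥0∞)⁻¹ := by simp
      obtain ⟨i, hi1, hi2⟩ := ((hφ1.eventually (ge_mem_nhds hj)).and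
        (hφ2.eventually (ge_mem_nhds hj))).exists
      exact ⟨φ i, hφ i, hi1, hi2⟩
    choose φ hφ hφ1 hφ2 using key
    refine ⟨hf, hf', φ, hφ, ?_, ?_⟩
    · refine tend_add (b := fun j => g j - φ j) (fun j => (hf.sub (hg j).1).1)
        (fun j => ((hg j).1.sub (tst_mem hC hW C b hl (hφ j)).1).1)
        (fun j => Eventually.of_forall fun p => by simp) h1 ?_
      exact tendsto_of_tendsto_of_tendsto_of_le_of_le tendsto_const_nhds
        ENNReal.tendsto_inv_nat_nhds_zero (fun _ => zero_le) hφ1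
    · refine tend_add (b := fun j => g' j - C.D b (cx (φ j))) (fun j => (hf'.sub (hg j).2.1).1)
        (fun j => ((hg j).2.1.sub (tst_mem hC hW C b hl (hφ j)).2).1)
        (fun j => Eventually.of_forall fun p => by simp) h2 ?_
      exact tendsto_of_tendsto_of_tendsto_of_le_of_le tendsto_const_nhds
        ENNReal.tendsto_inv_nat_nhds_zero (fun _ => zero_le) hφ2

end Pool.Agent.Lib.CLF
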