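import Pool.Agent.Lib.CLF.ABlue

/-! Mollifiers converge in the mean. -/

open MeasureTheory Filter Topology Set Function
open scoped ContDiff ENNReal ComplexConjugate

noncomputable section

namespace Pool.Agent.Lib.CLF

namespace MOL

theorem haar : (volume : Measure B2).IsAddHaarMeasure :=
  Measure.prod.instIsAddHaarMeasure volume volume

attribute [local instance] haar

/-- Translation is continuous in the mean. -/
theorem trans {f : B2 → ℂ} (hf : MemLp f 2 volume) :
    Tendsto (fun y => eLpNorm (fun z => f (z - y) - f z) 2 volume) (𝓝 0) (𝓝 0) := by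
  let g : B2 → C(B2, B2) := ContinuousMap.curry ⟨fun p : B2 × B2 => p.2 - p.1, by fun_prop⟩
  have hm : ∀ y, MeasurePreserving (g y) volume volume := fun y =>
    measurePreserving_sub_right volume y
  have c := (continuous_const (y := hf.toLp f)).compMeasurePreservingLp (map_continuous _) hm
    (by simp)
  have e : ∀ y, Lp.compMeasurePreserving (g y) (hm y) (hf.toLp f) =ᵐ[volume] fun z => f (z - y) :=
    fun y => (Lp.coeFn_compMeasurePreserving _ (hm y)).trans
      ((hm y).quasiMeasurePreserving.ae_eq_comp hf.coeFn_toLp)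
  refine (tendsto_iff_edist_tendsto_0.1 (c.tendsto 0)).congr fun y => ?_
  rw [Lp.edist_def]
  refine eLpNorm_congr_ae ?_
  filter_upwards [e y, e 0] with z h1 h2
  rw [Pi.sub_apply, h1, h2, sub_zero]

theorem e2 {α : Type} [MeasurableSpace α] (f : α → ℂ) (ν : Measure α) :
    eLpNorm f 2 ν ^ (2 : ℝ) = ∫⁻ z, ‖f z‖ₑ ^ (2 : ℝ) ∂ν := by
  rw [eLpNorm_eq_lintegral_rpow_enorm_toReal two_ne_zero ENNReal.ofNat_ne_top, ← ENNReal.rpow_mul]
  simp

/-- Averages of translates. -/
theorem avg {f : B2 → ℂ} (hf : MemLp f 2 volume) (ν : Measure B2) [IsProbabilityMeasure ν]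
    (hi : ∀ z, Integrable (fun y => f (z - y)) ν) {ε : ℝ≥0∞}
    (h : ∀ᵐ y ∂ν, eLpNorm (fun z => f (z - y) - f z) 2 volume ≤ ε) :
    eLpNorm (fun z => (∫ y, f (z - y) ∂ν) - f z) 2 volume ≤ ε := by
  rw [← ENNReal.rpow_le_rpow_iff (z := 2) two_pos, e2]
  have m : AEMeasurable (uncurry fun z y => ‖f (z - y) - f z‖ₑ ^ (2 : ℝ)) (volume.prod ν) :=
    ((hf.1.comp_quasiMeasurePreserving (quasiMeasurePreserving_sub volume ν)).sub
      (hf.1.comp_quasiMeasurePreserving Measure.quasiMeasurePreserving_fst)).enorm.pow_const _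
  calc _ ≤ ∫⁻ z, ∫⁻ y, ‖f (z - y) - f z‖ₑ ^ (2 : ℝ) ∂ν := lintegral_mono fun z => by
        have e : (∫ y, f (z - y) ∂ν) - f z = ∫ y, (f (z - y) - f z) ∂ν := by
          rw [integral_sub (hi z) (integrable_const _)]
          simp
        simp only [e, ← e2]
        refine ENNReal.rpow_le_rpow ((enorm_integral_le_lintegral_enorm _).trans ?_) two_pos.le
        rw [← eLpNorm_one_eq_lintegral_enorm]
        exact eLpNorm_le_eLpNorm_of_exponent_le one_le_two ((hi z).sub (integrable_const _)).1
    _ = ∫⁻ y, (∫⁻ z, ‖f (z - y) - f z‖ₑ ^ (2 : ℝ)) ∂ν := lintegral_lintegral_swap m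
    _ ≤ ∫⁻ _, ε ^ (2 : ℝ) ∂ν := lintegral_mono_ae (h.mono fun y hy => by
        rw [← e2]
        exact ENNReal.rpow_le_rpow hy two_pos.le)
    _ = _ := by simp

end MOL

open MOL in
theorem bMOL : St_MOL := by
  have := haar
  intro φ f hφ hf
  refine ENNReal.tendsto_nhds_zero.2 fun ε ε0 => ?_
  obtain ⟨r, r0, hr⟩ := Metric.eventually_nhds_iff_ball.1 (ENNReal.tendsto_nhds_zero.1 (trans hf) ε ε0)
  filter_upwards [hφ.eventually (gt_mem_nhds r0)] with j hj
  have m : Measurable fun y => ENNReal.ofReal ((φ j).normed volume y) :=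
    (φ j).continuous_normed.measurable.ennreal_ofReal
  have fin : ∀ᵐ y : B2, ENNReal.ofReal ((φ j).normed volume y) < ⊤ :=
    .of_forall fun _ => ENNReal.ofReal_lt_top
  have : IsProbabilityMeasure (volume.withDensity fun y => ENNReal.ofReal ((φ j).normed volume y)) :=
    ⟨by rw [withDensity_apply _ MeasurableSet.univ, Measure.restrict_univ,
      ← ofReal_integral_eq_lintegral_ofReal (φ j).integrable_normed
        (.of_forall (φ j).nonneg_normed), (φ j).integral_normed, ENNReal.ofReal_one]⟩
  refine le_trans (le_of_eq ?_) (avg hf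
    (volume.withDensity fun y => ENNReal.ofReal ((φ j).normed volume y)) (fun z => ?_) ?_)
  · congr 1
    funext z
    rw [integral_withDensity_eq_integral_toReal_smul m fin, ← integral_sub_left_eq_self _ volume z]
    simp only [ENNReal.toReal_ofReal ((φ j).nonneg_normed _), sub_sub_cancel]
  · rw [integrable_withDensity_iff_integrable_smul' m fin]
    simp only [ENNReal.toReal_ofReal ((φ j).nonneg_normed _)]
    exact (φ j).hasCompactSupport_normed.convolutionExists_left (ContinuousLinearMap.lsmul ℝ ℝ)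
      (φ j).continuous_normed (hf.locallyIntegrable one_le_two) z
  · refine (ae_withDensity_iff m).2 (.of_forall fun y hy => hr y (Metric.ball_subset_ball hj.le ?_))
    rw [← (φ j).support_normed_eq (μ := volume)]
    exact fun h => hy (by rw [h, ENNReal.ofReal_zero])

end Pool.Agent.Lib.CLF
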