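import Pool.Agent.Lib.CLF.BBlue

/-! Removing the bad fibres: after multiplying by a polynomial in the first variable, the zero set
of a plane polynomial is locally a union of disjoint analytic graphs. -/

open Polynomial Filter Topology Function

noncomputable section

namespace Pool.Agent.Lib.CLF

namespace MOT

theorem clear {R K : Type} [CommRing R] [IsDomain R] [Field K] [Algebra R K] [IsFractionRing R K]
    (p : K[X]) : ∃ c : R, c ≠ 0 ∧ ∃ P : R[X],
      P.map (algebraMap R K) = C (algebraMap R K c) * p := by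
  obtain ⟨b, hb, h⟩ := IsLocalization.integerNormalization_spec (nonZeroDivisors R) p
  refine ⟨b, nonZeroDivisors.ne_zero hb, _, h.trans ?_⟩
  rw [← smul_eq_C_mul, algebraMap_smul]

/-- A separable model of the radical. -/
theorem model {R : Type} [CommRing R] [IsDomain R] [CharZero R] (f : R[X]) (hf : f ≠ 0) :
    ∃ (G A B H H₁ : R[X]) (D c₁ c₂ : R) (k : ℕ), G ≠ 0 ∧ D ≠ 0 ∧ c₁ ≠ 0 ∧ c₂ ≠ 0 ∧
      A * G + B * derivative G = C D ∧ C c₁ * G ^ k = f * H₁ ∧ C c₂ * f = G * H := by
  classical
  let K := FractionRing R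
  have hinj : Injective (algebraMap R K) := IsFractionRing.injective R K
  have hK : CharZero K := charZero_of_injective_algebraMap hinj
  have hinj' : Injective (Polynomial.map (algebraMap R K)) := map_injective _ hinj
  have hf' : f.map (algebraMap R K) ≠ 0 := fun h => hf (hinj' (by simpa using h))
  set f' := f.map (algebraMap R K) with hf'def
  set g := UniqueFactorizationMonoid.radical f' with hg
  have hsq : Squarefree g := UniqueFactorizationMonoid.squarefree_radical
  have hsep : g.Separable := PerfectField.separable_iff_squarefree.mpr hsq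
  obtain ⟨a, b, hab⟩ := hsep
  obtain ⟨h, hh⟩ : g ∣ f' := UniqueFactorizationMonoid.radical_dvd_self
  obtain ⟨k, h₁, hh₁⟩ := UniqueFactorizationMonoid.exists_dvd_radical_self_pow hf'
  obtain ⟨e, he, G, hG⟩ := clear (R := R) g
  obtain ⟨α, hα, A, hA⟩ := clear (R := R) a
  obtain ⟨β, hβ, B, hB⟩ := clear (R := R) b
  obtain ⟨η, hη, H, hH⟩ := clear (R := R) h
  obtain ⟨ζ, hζ, H₁, hH₁⟩ := clear (R := R) h₁
  have hG' : (derivative G).map (algebraMap R K) = C (algebraMap R K e) * derivative g := by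
    rw [← derivative_map, hG, derivative_mul, derivative_C, zero_mul, zero_add]
  refine ⟨G, C β * A, C α * B, H, C (e ^ k) * H₁, α * β * e, ζ, e * η, k, ?_,
    mul_ne_zero (mul_ne_zero hα hβ) he, hζ, mul_ne_zero he hη, hinj' ?_, hinj' ?_, hinj' ?_⟩
  · rintro rfl
    have h0 : C (algebraMap R K e) * g = 0 := by simpa using hG.symm
    rcases mul_eq_zero.mp h0 with h1 | h1
    · exact he (hinj (by simpa using h1))
    · exact hsq.ne_zero h1
  · simp only [Polynomial.map_add, Polynomial.map_mul, map_C, hA, hB, hG, hG', map_mul]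
    linear_combination (C (algebraMap R K α) * C (algebraMap R K β) * C (algebraMap R K e)) * hab
  · simp only [Polynomial.map_mul, Polynomial.map_pow, map_C, hG, hH₁, map_pow, mul_pow]
    rw [← hf'def, ← hg] at *
    rw [hh₁]
    ring
  · simp only [Polynomial.map_mul, map_C, hG, hH, map_mul]
    rw [← hf'def, hh]
    ring

/-- A separable polynomial of degree `N` has `N` distinct roots. -/
theorem roots (p : ℂ[X]) (hp : p.Separable) :
    ∃ r : Fin p.natDegree → ℂ, Injective r ∧ ∀ k, p.eval (r k) = 0 := by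
  classical
  have hc : p.roots.toFinset.card = p.natDegree := by
    rw [Multiset.toFinset_card_of_nodup (nodup_roots hp), IsAlgClosed.card_roots_eq_natDegree]
  refine ⟨fun k => ((p.roots.toFinset.equivFinOfCardEq hc).symm k : ℂ), fun k l h => ?_,
    fun k => ?_⟩
  · exact (p.roots.toFinset.equivFinOfCardEq hc).symm.injective (Subtype.ext h)
  · have h := ((p.roots.toFinset.equivFinOfCardEq hc).symm k).2
    exact (isRoot_of_mem_roots (Multiset.mem_toFinset.mp h))

/-- The polynomial in two variables as a polynomial in the second one. -/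
def sl (δ : MvPolynomial (Fin 2) ℂ) : ℂ[X][X] := MvPolynomial.aeval ![C X, X] δ

theorem sl_eval (δ : MvPolynomial (Fin 2) ℂ) (t s : ℂ) :
    ((sl δ).map (evalRingHom t)).eval s = MvPolynomial.eval ![t, s] δ := by
  unfold sl
  induction δ using MvPolynomial.induction_on with
  | C a => simp
  | add p q hp hq => simp [hp, hq]
  | mul_X p i hp =>
    simp only [map_mul, MvPolynomial.aeval_X, Polynomial.map_mul, eval_mul, hp,
      MvPolynomial.eval_X]
    fin_cases i <;> simp

theorem sl_ne (δ : MvPolynomial (Fin 2) ℂ) (h : δ ≠ 0) : sl δ ≠ 0 := by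
  intro h0
  apply h
  apply MvPolynomial.funext
  intro x
  have h1 := sl_eval δ (x 0) (x 1)
  have h2 : ![x 0, x 1] = x := by
    funext i
    fin_cases i <;> rfl
  rw [h0, h2] at h1
  simpa using h1.symm

theorem ev_c (c : ℂ[X]) (t s : ℂ) :
    MvPolynomial.eval ![t, s] (aeval (MvPolynomial.X 0 : MvPolynomial (Fin 2) ℂ) c) =
      c.eval t := by
  induction c using Polynomial.induction_on' with
  | add p q hp hq => simp [hp, hq]
  | monomial n a => simp

end MOT

open MOT in
theorem bMOT (hR : St_RT0) : St_MOT := by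
  intro δ₀ h0
  obtain ⟨G, A, B, H, H₁, D, c₁, c₂, k, hG, hD, h1, h2, hAB, hk, hf⟩ := model (sl δ₀) (sl_ne _ h0)
  set c : ℂ[X] := D * c₁ * c₂ * G.leadingCoeff with hcdef
  have hc : c ≠ 0 := mul_ne_zero (mul_ne_zero (mul_ne_zero hD h1) h2) (leadingCoeff_ne_zero.mpr hG)
  set δ := δ₀ * aeval (MvPolynomial.X 0 : MvPolynomial (Fin 2) ℂ) c with hδ
  have hfac : ∀ t, c.eval t ≠ 0 → D.eval t ≠ 0 ∧ c₁.eval t ≠ 0 ∧ c₂.eval t ≠ 0 ∧
      G.leadingCoeff.eval t ≠ 0 := by
    intro t ht
    simp only [hcdef, eval_mul, ne_eq, mul_eq_zero, not_or] at ht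
    exact ⟨ht.1.1.1, ht.1.1.2, ht.1.2, ht.2⟩
  have hmem : ∀ t s, (t, s) ∈ zs δ ↔
      c.eval t ≠ 0 ∧ (G.map (evalRingHom t)).eval s ≠ 0 := by
    intro t s
    have e0 : (t, s) ∈ zs δ ↔ ((sl δ₀).map (evalRingHom t)).eval s * c.eval t ≠ 0 := by
      simp only [zs, Set.mem_ofPred_eq, hδ, map_mul, ev_c, sl_eval]
    have e1 := congrArg (fun q : ℂ[X][X] => (q.map (evalRingHom t)).eval s) hk
    have e2 := congrArg (fun q : ℂ[X][X] => (q.map (evalRingHom t)).eval s) hf
    simp only [Polynomial.map_mul, Polynomial.map_pow, map_C, eval_mul, eval_pow, eval_C,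
      coe_evalRingHom] at e1 e2
    rw [e0, mul_ne_zero_iff]
    constructor
    · rintro ⟨ha, hb⟩
      refine ⟨hb, fun hz => ?_⟩
      rw [hz, zero_mul] at e2
      exact mul_ne_zero (hfac t hb).2.2.1 ha e2
    · rintro ⟨ha, hb⟩
      refine ⟨fun hz => ?_, ha⟩
      rw [hz, zero_mul] at e1
      exact mul_ne_zero (hfac t ha).2.1 (pow_ne_zero k hb) e1
  have hlead : ∀ t, c.eval t ≠ 0 → (G.map (evalRingHom t)).coeff G.natDegree ≠ 0 := by
    intro t ht
    rw [coeff_map]
    exact (hfac t ht).2.2.2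
  have hex : ∀ t, c.eval t ≠ 0 → t ∈ Prod.fst '' zs δ := by
    intro t ht
    have hne : G.map (evalRingHom t) ≠ 0 := fun h => hlead t ht (by rw [h, coeff_zero])
    obtain ⟨s, hs⟩ := (G.map (evalRingHom t)).exists_eval_ne_zero_of_natDegree_lt_card hne
      (lt_of_lt_of_le (Cardinal.natCast_lt_aleph0) (Cardinal.aleph0_le_mk ℂ))
    exact ⟨(t, s), (hmem t s).mpr ⟨ht, hs⟩, rfl⟩
  have hfin : {t | c.eval t = 0}.Finite := finite_setOfPred_isRoot hc
  refine ⟨δ, ?_, dvd_mul_right _ _, hfin.subset fun t ht => ?_, ?_⟩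
  · obtain ⟨t, ht⟩ := hfin.exists_notMem
    obtain ⟨z, hz, -⟩ := hex t ht
    intro hz0
    exact hz (by rw [hz0, map_zero])
  · by_contra hne
    exact ht (hex t hne)
  · rintro _ ⟨⟨t, s⟩, hz, rfl⟩
    have ht := ((hmem t s).mp hz).1
    have hdeg : (G.map (evalRingHom t)).natDegree = G.natDegree :=
      le_antisymm natDegree_map_le (le_natDegree_of_ne_zero (hlead t ht))
    have hsep : (G.map (evalRingHom t)).Separable := by
      have e := congrArg (Polynomial.map (evalRingHom t)) hAB
      simp only [Polynomial.map_add, Polynomial.map_mul, map_C, coe_evalRingHom,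
        ← derivative_map] at e
      refine ⟨C (D.eval t)⁻¹ * A.map (evalRingHom t), C (D.eval t)⁻¹ * B.map (evalRingHom t), ?_⟩
      rw [mul_assoc, mul_assoc, ← mul_add, e, ← C_mul, inv_mul_cancel₀ (hfac t ht).1, C_1]
    obtain ⟨r, hr, hr0⟩ := hdeg ▸ roots _ hsep
    obtain ⟨b, hb, hev⟩ := hR ℂ G.natDegree (fun w => G.map (evalRingHom w)) t r
      (fun w => natDegree_map_le) (fun j => by
        simp only [coeff_map, coe_evalRingHom]
        exact (G.coeff j).differentiable.analyticAt t) (hlead t ht) hr hr0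
    have hc' : ∀ᶠ w in 𝓝 t, c.eval w ≠ 0 := c.continuous.continuousAt.eventually_ne ht
    have han : ∀ᶠ w in 𝓝 t, ∀ i, AnalyticAt ℂ (b i) w :=
      eventually_all.mpr fun i => (hb i).1.eventually_analyticAt
    obtain ⟨ρ, hρ, hball⟩ := Metric.eventually_nhds_iff_ball.mp (hev.and (hc'.and han))
    refine ⟨ρ, G.natDegree, b, hρ, fun i w hw => (hball w hw).2.2 i,
      (hball t (Metric.mem_ball_self hρ)).1.1, fun w hw x => ?_⟩
    rw [hmem w x, Ne, Ne, (hball w hw).1.2 x]
    constructor
    · rintro ⟨-, hx⟩ i hi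
      exact hx ⟨i, hi.symm⟩
    · intro hx
      exact ⟨(hball w hw).2.1, fun ⟨i, hi⟩ => hx i hi.symm⟩

end Pool.Agent.Lib.CLF
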