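import Pool.Agent.Lib.CLF.ABlue

/-! Members have weak derivatives, and the energy form is symmetric. -/

open MeasureTheory Filter Topology Set Function
open scoped ContDiff ENNReal ComplexConjugate

noncomputable section

namespace Pool.Agent.Lib.CLF

namespace MW

lemma cot (b : Bool) : ContDiff ℝ ∞ (ot b) := by
  cases b
  · exact contDiff_fst
  · exact contDiff_snd

lemma cr (hM : St_WM) {l : ℝ} (hl : 0 < l) : ContDiff ℝ ∞ fun z => (rho l z : ℂ) :=
  Complex.ofRealCLM.contDiff.comp (hM.pos hl).2.1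

lemma r0 (hM : St_WM) {l : ℝ} (hl : 0 < l) (z : ℂ) : (rho l z : ℂ) ≠ 0 :=
  Complex.ofReal_ne_zero.2 ((hM.pos hl).1 z).1.ne'

lemma ti (hI : St_INT) {C : Cv} {U : Set B2} {F : Am → ℂ} (h : C.Tst U F) : Integrable F C.mu :=
  memLp_one_iff_integrable.1 ((hI.tst C h).2 1)

lemma wd1 (hC : St_CAL) (hI : St_INT) (hM : St_WM) (hS : St_ST) (hD : St_DEN) {C : Cv} {l : ℝ}
    {b : Bool} {f : Am → ℝ} {f' : Am → ℂ} (hl : 0 < l) (hf : C.Mem l b f f') :
    C.WD b univ (cx f) f' := by
  intro χ hχ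
  have c := (cr hM hl).inv (r0 hM hl)
  have t1 := hC.tmul C (hC.smb C (h := fun z => (rho l z.1 : ℂ)⁻¹ * (rho l z.2 : ℂ)⁻¹)
    ((c.comp contDiff_fst).mul (c.comp contDiff_snd))) (hC.tD C b hχ).1
  have t2 := hC.tmul C (hC.smb C (h := fun z => (rho l (ot b z) : ℂ)⁻¹) (c.comp (cot b))) hχ
  have e : ∀ (g : Am → ℝ) (g' : Am → ℂ),
      ∫ p, (rho l p.1.1 : ℂ)⁻¹ * (rho l p.1.2 : ℂ)⁻¹ * C.D b χ p * g p ∂C.mn l +
      ∫ p, ((rho l (ot b p.1) : ℂ)⁻¹ * χ p * g' p + (0 : Am → ℂ) p * conj (g' p)) ∂C.mo l b =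
      ∫ p, cx g p * C.D b χ p ∂C.mu + ∫ p, g' p * χ p ∂C.mu := fun g g' => by
    rw [(hM.intn C _ hl).1, (hM.into C b _ hl).1]
    congr 1 <;> refine integral_congr_ae (Eventually.of_forall fun p => ?_)
    · have := r0 hM hl p.1.1
      have := r0 hM hl p.1.2
      simp only [cx]
      push_cast
      field_simp
    · have := r0 hM hl (ot b p.1)
      simp only [Pi.zero_apply, zero_mul, add_zero]
      field_simp
  have := hD C l b _ _ 0 hl (hM.tst C b hl t1).1 (hM.tst C b hl t2).2 MemLp.zero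
    (fun ψ hψ => ?_) f f' hf
  · rw [e] at this
    exact eq_neg_of_add_eq_zero_left this
  · rw [e, ← integral_add (ti hI (hC.tmul C hψ.1 (hC.tD C b hχ).1))
      (ti hI (hC.tmul C (hC.smD C b hψ.1).1 hχ)), ← (hS C b _ _ (hC.tmul C hψ.1 hχ)).1]
    refine integral_congr_ae ((hI.ae C).mono fun p hp => ?_)
    simp only [((hC.mul C hψ.1 hχ.1).2 b p hp).1]
    ring

end MW

open MW in
theorem bMW (hC : St_CAL) (hI : St_INT) (hM : St_WM) (hS : St_ST) (hD : St_DEN) (hW : St_WIR) :
    St_MW := by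
  intro C l b f f' hl hf
  have w := wd1 hC hI hM hS hD hl hf
  refine ⟨w, fun χ hχ => ?_, fun ψ hψ => ?_⟩
  · have := congrArg conj (w _ (hC.tstar C hχ).1)
    rw [map_neg, ← integral_conj, ← integral_conj] at this
    simpa [((hC.star C χ).2 b _).1, cx] using this
  · have t1 := (hC.tD C b hψ).1
    have t2 := (hC.tD C b hψ).2
    have m1 := (hM.tst C b hl t1).2
    have m2 := (hM.tst C b hl (hC.tstar C t1).1).2
    have := hD C l b 0 _ _ hl MemLp.zero m2 m1.neg (fun φ hφ => ?_) f f' hf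
    · have i := m2.integrable_mul hf.2.1
      have e : ∀ p, conj (C.D b (cx ψ) p) * f' p + (-C.D b (cx ψ)) p * conj (f' p) =
          f' p * conj (C.D b (cx ψ) p) - conj (f' p * conj (C.D b (cx ψ) p)) := fun p => by
        simp only [Pi.neg_apply, map_mul, Complex.conj_conj]
        ring
      have i' : Integrable (fun p => f' p * conj (C.D b (cx ψ) p)) (C.mo l b) :=
        i.congr (Eventually.of_forall fun p => mul_comm _ _)
      simp only [e, Pi.zero_apply, zero_mul, integral_zero, zero_add] at this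
      have i2 : Integrable (fun p => conj (f' p * conj (C.D b (cx ψ) p))) (C.mo l b) :=
        (Complex.conjCLE.integrable_comp_iff).2 i'
      rw [integral_sub i' i2, integral_conj, Complex.sub_conj] at this
      simpa using this
    · have sr := hC.smb C (h := fun z => (rho l (ot b z) : ℂ)) ((cr hM hl).comp (cot b))
      have a1 := hC.tmul C sr (hC.tmul C t2.1 hφ)
      have a2 := hC.tmul C sr (hC.tmul C t1.1 hφ)
      simp only [Pi.zero_apply, zero_mul, integral_zero, zero_add]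
      rw [(hM.into C b _ hl).1, ← sub_self (0 : ℂ)]
      nth_rewrite 1 [← (hS C b _ _ a1).1]
      rw [← (hS C b _ _ a2).2, ← integral_sub (ti hI (hC.tD C b a1).1) (ti hI (hC.tD C b a2).2)]
      refine integral_congr_ae ((hI.ae C).mono fun p hp => ?_)
      have o := hW.oth b (fun z => (rho l z : ℂ)) p.1
      have s := hC.base C b (fun z => (rho l (ot b z) : ℂ)) p
      simp only [((hC.mul C sr (hC.mul C t2.1 hφ.1).1).2 b p hp).1,
        ((hC.mul C sr (hC.mul C t1.1 hφ.1).1).2 b p hp).2, ((hC.mul C t2.1 hφ.1).2 b p hp).1,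
        ((hC.mul C t1.1 hφ.1).2 b p hp).2, s.1, s.2, o.1, o.2, (hC.comm C b b hψ.1 p hp).2,
        Pi.neg_apply, ← hC.real]
      ring

end Pool.Agent.Lib.CLF
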