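import Pool.Agent.Lib.CLF.B_MEM
import Pool.Agent.Lib.CLF.B_CH

/-! Bounded functions with a weak derivative of finite energy are members. -/

open MeasureTheory Filter Topology Set Function
open scoped ContDiff ENNReal ComplexConjugate

noncomputable section

namespace Pool.Agent.Lib.CLF

namespace MWK

theorem sm_wd (b : Bool) {h : B2 → ℂ} (hh : ContDiff ℝ ∞ h) : ContDiff ℝ ∞ (wd b h) := by
  have hs : ContDiff ℝ ∞ (fderiv ℝ h) := hh.fderiv_right (by simp)
  unfold wd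
  exact ((hs.clm_apply contDiff_const).sub
    (contDiff_const.mul (hs.clm_apply contDiff_const))).div_const 2

theorem sm_cx {κ : B2 → ℝ} (h : ContDiff ℝ ∞ κ) : ContDiff ℝ ∞ (cx κ) :=
  Complex.ofRealCLM.contDiff.comp h

/-- The derivative of a bump on the base is a test function. -/
theorem tst_wd (C : Cv) (b : Bool) {κ : B2 → ℝ} (h : Bump C.Ω κ) :
    C.Tst univ fun p => wd b (cx κ) p.1 := by
  refine ⟨fun p _ => (sm_wd b (sm_cx h.1)).contDiffAt, tsupport κ, h.2.1,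
    subset_inter h.2.2 (subset_univ _), fun p _ hp => ?_⟩
  have e : cx κ =ᶠ[𝓝 p.1] fun _ => 0 := by
    filter_upwards [notMem_tsupport_iff_eventuallyEq.1 hp] with z hz
    simp [cx, hz]
  simp [wd, e.fderiv_eq]

theorem lim_le {ν μ : Measure Am} {E : Type} [NormedAddCommGroup E] {f : ℕ → Am → E}
    {g : ℕ → Am → ℂ} {x : ℝ} (h : ∀ j, eLpNorm (f j) 2 ν ≤ ENNReal.ofReal x * eLpNorm (g j) 2 μ)
    (ht : Tendsto (fun j => eLpNorm (g j) 2 μ) atTop (𝓝 0)) :
    Tendsto (fun j => eLpNorm (f j) 2 ν) atTop (𝓝 0) := by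
  have h1 := ENNReal.Tendsto.const_mul (a := ENNReal.ofReal x) ht (Or.inr ENNReal.ofReal_ne_top)
  rw [mul_zero] at h1
  exact tendsto_of_tendsto_of_tendsto_of_le_of_le tendsto_const_nhds h1 (fun _ => zero_le) h

theorem bmul {ν : Measure Am} {κ : B2 → ℝ} (hc : Continuous κ) (h : ∀ z, κ z ∈ Icc (0 : ℝ) 1)
    {f : Am → ℂ} (hf : MemLp f 2 ν) : MemLp (fun p => (κ p.1 : ℂ) * f p) 2 ν := by
  have m : AEStronglyMeasurable (fun p : Am => (κ p.1 : ℂ)) ν :=
    (Complex.continuous_ofReal.comp (hc.comp continuous_fst)).aestronglyMeasurable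
  refine hf.of_le (m.mul hf.1) (Eventually.of_forall fun p => ?_)
  rw [norm_mul, Complex.norm_real, Real.norm_of_nonneg (h _).1]
  exact mul_le_of_le_one_left (norm_nonneg _) (h _).2

/-- The cutoffs tend to one in the mean. -/
theorem cut_lim {C : Cv} {ν : Measure Am} (hν : ∀ᵐ p ∂ν, p ∈ C.S) {κ : ℕ → B2 → ℝ}
    (hc : ∀ j, Continuous (κ j)) (h : ∀ j z, κ j z ∈ Icc (0 : ℝ) 1)
    (h1 : ∀ K, IsCompact K → K ⊆ C.Ω → ∀ᶠ j in atTop, ∀ z ∈ K, κ j z = 1)
    {f : Am → ℂ} (hf : MemLp f 2 ν) :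
    Tendsto (fun j => eLpNorm (fun p => f p - (κ j p.1 : ℂ) * f p) 2 ν) atTop (𝓝 0) := by
  refine CH.dom2 (fun j => hf.1.sub (bmul (hc j) (h j) hf).1) hf
    (fun j => Eventually.of_forall fun p => ?_) ?_
  · have e : f p - (κ j p.1 : ℂ) * f p = ((1 - κ j p.1 : ℝ) : ℂ) * f p := by push_cast; ring
    rw [e, norm_mul, Complex.norm_real, Real.norm_of_nonneg (sub_nonneg.2 (h j _).2)]
    exact mul_le_of_le_one_left (norm_nonneg _) (by linarith [(h j p.1).1])
  · filter_upwards [hν] with p hp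
    refine tendsto_const_nhds.congr' ?_
    filter_upwards [h1 {p.1} isCompact_singleton (singleton_subset_iff.2 hp.1)] with j hj
    simp [hj p.1 rfl]

end MWK

open MWK in
theorem bMWK (hF : St_FR) (hM : St_MEM) (hW : St_WM) (hI : St_INT) : St_MWK := by
  intro C l b u w M hl ⟨κ, k1, k2, k3⟩ hu hb hw hd
  obtain ⟨c1, -, c3, -⟩ := hW.ac C b hl
  have := (hW.fin C hl).1
  have hun : MemLp u 2 (C.mn l) :=
    MemLp.of_bound (hu.mono_ac c1) M (c1.ae_le hb)
  have hcu : MemLp (cx u) 2 (C.mn l) := MEM.memLp_cx.2 hun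
  have lu : C.Loc (cx u) := (hW.loc C b hl).1 hcu
  have lw : C.Loc w := ((hW.loc C b hl).2 hw).1
  have kc : ∀ j, Continuous (κ j) := fun j => (k1 j).1.1.continuous
  have mu' : AEStronglyMeasurable (cx u) (C.mo l b) := lu.1.mono_ac c3
  have hbo : ∀ᵐ p ∂C.mo l b, |u p| ≤ M := c3.ae_le hb
  have ht : ∀ j, MemLp (fun p : Am => wd b (cx (κ j)) p.1) 2 (C.mo l b) := fun j =>
    (hW.tst C b hl (tst_wd C b (k1 j).1)).2
  have le1 : ∀ j, ∀ᵐ p ∂C.mo l b, ‖wd b (cx (κ j)) p.1 * cx u p‖ ≤ M * ‖wd b (cx (κ j)) p.1‖ := by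
    intro j
    filter_upwards [hbo] with p hp
    rw [norm_mul, mul_comm]
    exact mul_le_mul_of_nonneg_right (by simpa [cx] using hp) (norm_nonneg _)
  have ht' : ∀ j, MemLp (fun p : Am => wd b (cx (κ j)) p.1 * cx u p) 2 (C.mo l b) := fun j =>
    (ht j).of_le_mul ((ht j).1.mul mu') (le1 j)
  have a1 : ∀ j, MemLp (fun p => κ j p.1 * u p) 2 (C.mn l) := fun j => by
    refine MEM.memLp_cx.1 ((bmul (kc j) (k1 j).2 hcu).ae_eq (Eventually.of_forall fun p => ?_))
    simp [cx]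
  have a2 : ∀ j, MemLp (fun p => κ j p.1 * w p + wd b (cx (κ j)) p.1 * cx u p) 2 (C.mo l b) :=
    fun j => (bmul (kc j) (k1 j).2 hw).add (ht' j)
  have step : ∀ j, C.Mem l b (fun p => κ j p.1 * u p)
      fun p => κ j p.1 * w p + wd b (cx (κ j)) p.1 * cx u p := by
    intro j
    obtain ⟨F, f1, f2, f3, f4⟩ := hF C b univ (cx u) w (κ j) isOpen_univ lu lw hd
      (by rw [inter_univ]; exact (k1 j).1)
    have e : ∀ i, cx (fun p => (F i p).re) = F i := fun i => funext fun p =>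
      Complex.ext (by simp [cx]) (by simp [cx, f4 (fun p => by simp [cx]) i p])
    refine ⟨a1 j, a2 j, fun i p => (F i p).re, fun i => by rw [e i]; exact f1 i, ?_, ?_⟩
    · refine lim_le (x := l) (fun i => le_trans (le_of_eq ?_) (hW.le C b _ hl).1) f2
      refine eLpNorm_congr_norm_ae (Eventually.of_forall fun p => ?_)
      rw [← e i, norm_sub_rev (cx _ p), ← Complex.norm_real]
      simp [cx]
    · refine lim_le (x := √l) (fun i => le_trans (le_of_eq ?_) (hW.le C b _ hl).2) f3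
      refine eLpNorm_congr_norm_ae (Eventually.of_forall fun p => ?_)
      rw [e i, Pi.sub_apply, norm_sub_rev]
  refine hM.closed C hl step hun hw ?_ ?_
  · refine (cut_lim (MEM.ae_mn hW hI C hl) kc (fun j => (k1 j).2) k2 hcu).congr fun j => ?_
    refine eLpNorm_congr_norm_ae (Eventually.of_forall fun p => ?_)
    rw [← Complex.norm_real]
    simp [cx]
  · have t1 := cut_lim (MEM.ae_mo hW hI C b hl) kc (fun j => (k1 j).2) k2 hw
    have t2 : Tendsto (fun j => eLpNorm (fun p : Am => -(wd b (cx (κ j)) p.1 * cx u p)) 2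
        (C.mo l b)) atTop (𝓝 0) :=
      CH.lim_of_le (M := M) (fun j => by simpa only [norm_neg] using le1 j) (k3 b)
    refine MEM.tend_add (fun j => hw.1.sub (bmul (kc j) (k1 j).2 hw).1) (fun j => (ht' j).1.neg)
      (fun j => Eventually.of_forall fun p => ?_) t1 t2
    simp only [Pi.add_apply, Pi.sub_apply, Pi.neg_apply]
    ring

end Pool.Agent.Lib.CLF
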