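import Pool.Agent.Lib.CLF.B_END1

/-! Good forms exist. -/

open MvPolynomial Filter Topology Function Module Pool.Agent.Lib.MP_08f962_ag

noncomputable section

namespace Pool.Agent.Lib.CLF

namespace NG

lemma exists_ind (ι : Type) [Finite ι] : ∃ g : ι → ℂ, AlgebraicIndependent ℚ g := by
  obtain ⟨s, hs⟩ := exists_isTranscendenceBasis ℚ ℂ
  have h := IsAlgClosed.cardinal_eq_cardinal_transcendence_basis_of_aleph0_lt' _ hs
    Cardinal.mk_le_aleph0 (by rw [Cardinal.mk_complex]; exact Cardinal.aleph0_lt_continuum)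
  have : Infinite s := Cardinal.infinite_iff.2 (h ▸ Cardinal.infinite_iff.1 inferInstance)
  obtain ⟨e, he⟩ := exists_injective_nat ι
  exact ⟨_, hs.1.comp _ ((Infinite.natEmbedding s).injective.comp he)⟩

lemma scale {n m u v : ℕ} {G : S n m} {L : Type} [CommRing L] [Algebra ℂ L] (x : Fin (n + 1) → L)
    (y : Fin (m + 1) → L) (a b : L) (hG : G ∈ Forms n m (u, v)) :
    pt (a • x) (b • y) G = a ^ u * b ^ v * pt x y G := by
  refine forms_ind (Q := fun G => pt (a • x) (b • y) G = a ^ u * b ^ v * pt x y G) (by simp)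
    (fun f g h h' => by rw [map_add, map_add, h, h', mul_add]) (fun α c hα => ?_) hG
  rw [weight_wt, Prod.mk.injEq] at hα
  rw [pt, pt, aeval_monomial, aeval_monomial, Finsupp.prod_fintype _ _ (by simp),
    Finsupp.prod_fintype _ _ (by simp), ← hα.1, ← hα.2]
  simp only [mul_pow, Finset.prod_mul_distrib, Fintype.prod_sum_type, Sum.elim_inl, Sum.elim_inr,
    Finset.prod_pow_eq_pow_sum, Pi.smul_apply, smul_eq_mul]
  ring

/-- normalised representatives -/
lemma nrm {L : Type} [Field L] {n P : ℕ} (X : Fin P → Fin (n + 1) → L) (h : PD X) :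
    ∃ (a : Fin P → L) (T : Finset L), (PD fun k => a k • X k) ∧ T.card ≤ P * n ∧
      ∀ k i, (a k • X k) i ∈ Subfield.closure (T : Set L) := by
  classical
  choose i hi using fun k => Function.ne_iff.1 (h.1 k)
  refine ⟨fun k => (X k (i k))⁻¹, Finset.univ.biUnion fun k =>
    (Finset.univ.erase (i k)).image ((X k (i k))⁻¹ • X k), ⟨fun k =>
      smul_ne_zero (inv_ne_zero (hi k)) (h.1 k), fun k l c e => h.2 k l (X k (i k) *
        (c * (X l (i l))⁻¹)) ?_⟩, ?_, fun k j => ?_⟩
  · rw [mul_smul, mul_smul]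
    exact (inv_smul_eq_iff₀ (hi k)).1 e
  · refine (Finset.card_biUnion_le_card_mul _ _ n fun k _ => Finset.card_image_le.trans ?_).trans
      (by simp)
    simp
  · by_cases e : j = i k
    · rw [e, Pi.smul_apply, smul_eq_mul, inv_mul_cancel₀ (hi k)]
      exact one_mem _
    · exact Subfield.subset_closure (Finset.mem_biUnion.2 ⟨k, Finset.mem_univ _,
        Finset.mem_image_of_mem _ (Finset.mem_erase.2 ⟨e, Finset.mem_univ _⟩)⟩)

lemma pd_one {L : Type} [Field L] {m : ℕ} {y : Fin (m + 1) → L} (h : y ≠ 0) :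
    PD fun _ : Fin 1 => y := ⟨fun _ => h, fun _ _ _ _ => Subsingleton.elim _ _⟩

lemma line {L : Type} [Field L] [Algebra ℂ L] {k N : ℕ} (c : Fin k → L) :
    (PD fun τ : Fin N => cf (k + 1) (Fin.cons ((τ : ℕ) : L) c : Fin (k + 1) → L)) ∧
    ∀ (F : Subfield L), (∀ i, c i ∈ F) → ∀ (τ : Fin N) i,
      cf (k + 1) (Fin.cons ((τ : ℕ) : L) c : Fin (k + 1) → L) i ∈ F := by
  have : CharZero L := charZero_of_injective_algebraMap (algebraMap ℂ L).injective
  refine ⟨⟨fun τ h => one_ne_zero ((END1.cf_one _ le_rfl).symm.trans (congrFun h _)),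
    fun τ σ a e => ?_⟩, fun F hF τ i => ?_⟩
  · have e1 := congrFun e ⟨k + 1, Nat.lt_succ_self _⟩
    simp only [Pi.smul_apply, END1.cf_one _ le_rfl, smul_eq_mul, mul_one] at e1
    have e2 := congrFun e ⟨k, by omega⟩
    have h3 : ∀ t : L, cf (k + 1) (Fin.cons t c : Fin (k + 1) → L) ⟨k, by omega⟩ =
        -(t + ∑ i, c i) := fun t => by
      simpa [cf, Fin.sum_univ_succ] using Polynomial.prod_X_sub_C_coeff_card_pred Finset.univ
        (Fin.cons t c : Fin (k + 1) → L) (by simp)
    simp only [← e1, one_smul, h3, neg_inj, add_left_inj, Nat.cast_inj] at e2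
    exact Fin.ext e2
  · have := END1.cf_map F.subtype (k + 1)
      (Fin.cons ((τ : ℕ) : F) fun i => ⟨c i, hF i⟩ : Fin (k + 1) → F) i
    rw [show (fun i => F.subtype ((Fin.cons ((τ : ℕ) : F) fun i => ⟨c i, hF i⟩ :
      Fin (k + 1) → F) i)) = (Fin.cons ((τ : ℕ) : L) c : Fin (k + 1) → L) from funext fun i => by
        refine Fin.cases ?_ (fun i => ?_) i <;> simp] at this
    exact this ▸ SetLike.coe_mem _

end NG

open NG in
theorem bNG (hGRID : St_GRID) (hSW : St_SW) : St_NG := by
  classical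
  intro n m u v hn hm hu hv
  have : Finite {α : _ →₀ ℕ // Finsupp.weight (wt n m) α = (u, v)} := (finite_wt (u, v)).to_subtype
  have := Fintype.ofFinite {α : _ →₀ ℕ // Finsupp.weight (wt n m) α = (u, v)}
  obtain ⟨g, hg⟩ := exists_ind {α : _ →₀ ℕ // Finsupp.weight (wt n m) α = (u, v)}
  let G : S n m := ∑ α, monomial α.1 (g α)
  have hG : G ∈ Forms n m (u, v) :=
    Submodule.sum_mem _ fun α _ => isWeightedHomogeneous_monomial _ _ _ α.2
  have hc : AlgebraicIndependent ℚ
      fun α : {α // Finsupp.weight (wt n m) α = (u, v)} => G.coeff α.1 := by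
    refine (congrArg _ (funext fun α => ?_)).mpr hg
    simp only [G, coeff_sum, coeff_monomial, Subtype.val_inj, Finset.sum_ite_eq', Finset.mem_univ,
      if_true]
  have mono : ∀ {L : Type} [Field L] (T T' : Finset L), Subfield.closure (T : Set L) ≤
      Subfield.closure ((T ∪ T' : Finset L) : Set L) ∧ Subfield.closure (T' : Set L) ≤
      Subfield.closure ((T ∪ T' : Finset L) : Set L) := fun T T' =>
    ⟨Subfield.closure_mono (Finset.coe_subset.2 Finset.subset_union_left),
      Subfield.closure_mono (Finset.coe_subset.2 Finset.subset_union_right)⟩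
  refine ⟨G, hG, fun X Y hX hY => ?_, fun L _ _ k c y hk hy => ?_, fun L _ _ k c y hk hy => ?_⟩
  · by_contra! h
    obtain ⟨a, T, h1, h2, h3⟩ := nrm X hX
    obtain ⟨b, T', h4, h5, h6⟩ := nrm Y hY
    have := (hGRID n m u v _ _ G ℂ (T ∪ T') _ _ hG hc le_rfl le_rfl h1 h4
      (fun k i => (mono T T').1 (h3 k i)) (fun k i => (mono T T').2 (h6 k i))
      fun k l => by rw [scale _ _ _ _ hG, h, mul_zero]).trans (Finset.card_union_le _ _)
    obtain ⟨s, rfl⟩ := exists_add_of_le hu
    obtain ⟨t, rfl⟩ := exists_add_of_le hv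
    nlinarith [Nat.zero_le (s * t), Nat.zero_le (s * m), Nat.zero_le (t * n)]
  · subst hk
    by_contra! h
    obtain ⟨b, T', h4, h5, h6⟩ := nrm _ (pd_one hy)
    have := (hGRID _ m u v _ _ G L (Finset.univ.image c ∪ T') _ _ hG hc le_rfl (by omega) (line c).1
      h4 ((line c).2 _ fun i => (mono _ T').1 (Subfield.subset_closure
        (Finset.mem_image_of_mem _ (Finset.mem_univ i)))) (fun k i => (mono _ T').2 (h6 k i))
      fun τ l => by rw [← one_smul L (cf _ _), scale _ _ _ _ hG, h, mul_zero]).trans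
        (Finset.card_union_le _ _)
    have h7 : (Finset.univ.image c).card ≤ k := Finset.card_image_le.trans (by simp)
    omega
  · subst hk
    by_contra! h
    obtain ⟨b, T', h4, h5, h6⟩ := nrm _ (pd_one hy)
    have := (hGRID n _ u v _ _ G L (Finset.univ.image c ∪ T') _ _ hG hc (by omega) le_rfl h4
      (line c).1 (fun k i => (mono _ T').2 (h6 k i)) ((line c).2 _ fun i => (mono _ T').1
        (Subfield.subset_closure (Finset.mem_image_of_mem _ (Finset.mem_univ i))))
      fun l τ => by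
        rw [← one_smul L (cf _ _), scale _ _ _ _ hG, ← hSW.pt, h, mul_zero]).trans
        (Finset.card_union_le _ _)
    have h7 : (Finset.univ.image c).card ≤ k := Finset.card_image_le.trans (by simp)
    omega

end Pool.Agent.Lib.CLF
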