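import Pool.Agent.Lib.CLF.BBlue

/-! Block `OC`: the outer cone is a closed convex cone, monotone in the data. -/

open MvPolynomial Filter Topology Function Pool.Agent.Lib.MP_08f962_ag
open scoped NNReal

noncomputable section

namespace Pool.Agent.Lib.CLF

namespace OC

variable {n m k : ℕ} {d e K : ℝ}

theorem zero : (0 : ℕ × ℕ → ℝ) ∈ Out n m d e k K := by simp [Out]

theorem add {c c' : ℕ × ℕ → ℝ} (h : c ∈ Out n m d e k K) (h' : c' ∈ Out n m d e k K) :
    c + c' ∈ Out n m d e k K := by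
  obtain ⟨a1, a2, a3, a4, a5⟩ := h
  obtain ⟨b1, b2, b3, b4, b5⟩ := h'
  simp only [Out, Set.mem_ofPred_eq, Pi.add_apply]
  refine ⟨fun p => add_nonneg (a1 p) (b1 p), fun a b h => ?_, fun a b => by
    linarith [a3 a b, b3 a b], fun h => by linarith [a4 h, b4 h], fun h => by linarith [a5 h, b5 h]⟩
  by_cases h1 : c (a, b) = 0
  · exact b2 a b (by simpa [h1] using h)
  · exact a2 a b h1

theorem smul {c : ℕ × ℕ → ℝ} (x : ℝ≥0) (h : c ∈ Out n m d e k K) : x • c ∈ Out n m d e k K := by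
  obtain ⟨a1, a2, a3, a4, a5⟩ := h
  have hx := x.coe_nonneg
  simp only [Out, Set.mem_ofPred_eq, Pi.smul_apply, NNReal.smul_def, smul_eq_mul]
  exact ⟨fun p => mul_nonneg hx (a1 p), fun a b h => a2 a b (right_ne_zero_of_mul h), fun a b => by
    linarith [mul_le_mul_of_nonneg_left (a3 a b) hx],
    fun h => by linarith [mul_le_mul_of_nonneg_left (a4 h) hx],
    fun h => by linarith [mul_le_mul_of_nonneg_left (a5 h) hx]⟩

theorem closed : IsClosed (Out n m d e k K) := by
  simp only [Out, Set.ofPred_and, Set.ofPred_forall]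
  refine IsClosed.inter (isClosed_iInter fun p => ?_) (IsClosed.inter
    (isClosed_iInter fun a => isClosed_iInter fun b => isClosed_imp ?_ isClosed_const)
    (IsClosed.inter (isClosed_iInter fun a => isClosed_iInter fun b => ?_)
    (IsClosed.inter (isClosed_iInter fun _ => ?_) (isClosed_iInter fun _ => ?_))))
  on_goal 2 => exact isOpen_ne_fun (by fun_prop) (by fun_prop)
  all_goals exact isClosed_le (by fun_prop) (by fun_prop)

theorem lin {p q d e K K' M x y : ℝ} (hq : 0 ≤ q) (hqe : q ≤ e) (hd : d ≤ M * p) (hM : 1 ≤ M)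
    (hK : 0 ≤ K) (hK' : M ^ 2 * K ≤ K') (hx : 0 ≤ x) (hy : 0 ≤ y) (h : p * x ≤ K * (q * y)) :
    d * x ≤ K' * (e * y) := by
  have he := hq.trans hqe
  have M0 : 0 ≤ M := zero_le_one.trans hM
  calc d * x ≤ M * p * x := by gcongr
    _ = M * (p * x) := by ring
    _ ≤ M * (K * (q * y)) := by gcongr
    _ ≤ M ^ 2 * (K * (e * y)) := by gcongr; nlinarith
    _ = M ^ 2 * K * (e * y) := by ring
    _ ≤ _ := by gcongr

end OC

open OC in
theorem bOC : St_OC where
  eff h := closed.closure_subset_iff.2 fun c hc => by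
    induction hc using Submodule.span_induction with
    | mem c hc =>
      obtain ⟨P, h1, h2, h3, q, h4, h5⟩ := hc
      exact h P c h1 h2 h3 ⟨q, h4.le, h5⟩
    | zero => exact zero
    | add _ _ _ _ h1 h2 => exact add h1 h2
    | smul x _ _ h1 => exact smul x h1
  cn h c hc := by
    induction hc using AddSubmonoid.closure_induction with
    | mem c hc =>
      obtain ⟨P, h1, h2, h3, h4⟩ := hc
      exact h P c h1 h2 h3 h4
    | zero => exact zero
    | add _ _ _ _ h1 h2 => exact add h1 h2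
  mono {n m k p q d e K K' M} hp hq hpd hqe hd he hM hK hK' c hc := by
    obtain ⟨a1, a2, a3, a4, a5⟩ := hc
    refine ⟨a1, a2, fun a b => ?_, fun h => lin hq hqe hd hM hK hK' (a1 _) (a1 _) (a4 h),
      fun h => lin hp hpd he hM hK hK' (a1 _) (a1 _) (a5 h)⟩
    have b1 := a1 (a + 1, b + 1)
    have b2 := a1 (a + 2, b)
    have b3 := a1 (a, b + 2)
    have M0 : 0 ≤ M := zero_le_one.trans hM
    have e0 := hq.trans hqe
    calc d * e * c (a + 1, b + 1) ≤ M * p * (M * q) * c (a + 1, b + 1) := by gcongr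
      _ = M ^ 2 * (p * q * c (a + 1, b + 1)) := by ring
      _ ≤ M ^ 2 * (K * (p ^ 2 * c (a + 2, b) + q ^ 2 * c (a, b + 2))) :=
        mul_le_mul_of_nonneg_left (a3 a b) (sq_nonneg _)
      _ ≤ M ^ 2 * (K * (d ^ 2 * c (a + 2, b) + e ^ 2 * c (a, b + 2))) := by gcongr
      _ = M ^ 2 * K * (d ^ 2 * c (a + 2, b) + e ^ 2 * c (a, b + 2)) := by ring
      _ ≤ _ := by gcongr

end Pool.Agent.Lib.CLF
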