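import Pool.Agent.Lib.CLF.BBlue

/-! The outer cone is comparable with the restricted cone. -/

noncomputable section

namespace Pool.Agent.Lib.CLF

namespace OUT

theorem two {x y z K : ℝ} (hK : 1 ≤ K) (hx : 0 ≤ x) (hy : 0 ≤ y) (hz : 0 ≤ z)
    (h : x ≤ K * (y + z)) : x ≤ 2 * K * (min x y + min z x) := by
  have h1 : 0 ≤ min x y := le_min hx hy
  have h2 : 0 ≤ min z x := le_min hz hx
  rcases le_total x y with a | a
  · rw [min_eq_left a]
    nlinarith [mul_nonneg (sub_nonneg.2 hK) hx, mul_nonneg (zero_le_one.trans hK) h2]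
  rcases le_total x z with b | b
  · rw [min_eq_right b]
    nlinarith [mul_nonneg (sub_nonneg.2 hK) hx, mul_nonneg (zero_le_one.trans hK) h1]
  rw [min_eq_right a, min_eq_left b]
  nlinarith [mul_nonneg (zero_le_one.trans hK) (add_nonneg hy hz)]

end OUT

theorem bOUT : St_OUT := by
  intro n m d e k K hn hm hd he hK c ⟨h0, hs, hmid, hen, hem⟩
  have hd' : (0 : ℝ) < d := by exact_mod_cast hd
  have he' : (0 : ℝ) < e := by exact_mod_cast he
  let w : ℕ × ℕ → ℝ := fun p => match p with
    | (0, 0) => 0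
    | (a + 1, 0) => if a + 1 ≤ n then c (a, 0) / d else 0
    | (0, b + 1) => if b + 1 ≤ m then c (0, b) / e else 0
    | (a + 1, b + 1) => min (c (a, b + 1) / d) (c (a + 1, b) / e)
  have q1 : ∀ p, 0 ≤ c p / d := fun p => div_nonneg (h0 p) hd'.le
  have q2 : ∀ p, 0 ≤ c p / e := fun p => div_nonneg (h0 p) he'.le
  have w1 : ∀ a b, d * w (a + 1, b + 1) = min (c (a, b + 1)) (d / e * c (a + 1, b)) := fun a b => by
    simp only [w]
    rw [mul_min_of_nonneg _ _ hd'.le]
    congr 1 <;> field_simp
  have w2 : ∀ a b, e * w (a + 1, b + 1) = min (e / d * c (a, b + 1)) (c (a + 1, b)) := fun a b => by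
    simp only [w]
    rw [mul_min_of_nonneg _ _ he'.le]
    congr 1 <;> field_simp
  have w3 : ∀ a, d * w (a + 1, 0) = if a + 1 ≤ n then c (a, 0) else 0 := fun a => by
    simp only [w]
    split_ifs
    · field_simp
    · simp
  have w4 : ∀ b, e * w (0, b + 1) = if b + 1 ≤ m then c (0, b) else 0 := fun a => by
    simp only [w]
    split_ifs
    · field_simp
    · simp
  have w0 : ∀ p, 0 ≤ w p := by
    rintro ⟨_ | a, _ | b⟩ <;> simp only [w]
    · exact le_rfl
    · split_ifs
      exacts [q2 _, le_rfl]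
    · split_ifs
      exacts [q1 _, le_rfl]
    · exact le_min (q1 _) (q2 _)
  refine ⟨fun p => d * w (p.1 + 1, p.2) + e * w (p.1, p.2 + 1), ⟨w, w0, ?_, fun _ _ => rfl⟩, ?_⟩
  · rintro (_ | a) (_ | b) h <;> simp only [w] at h
    · exact absurd rfl h
    · split_ifs at h with h1
      · have := hs 0 b fun h2 => h (by simp [h2])
        omega
      · exact absurd rfl h
    · split_ifs at h with h1
      · have := hs a 0 fun h2 => h (by simp [h2])
        omega
      · exact absurd rfl h
    · have := hs a (b + 1) fun h2 => h (by rw [h2, zero_div]; exact min_eq_left (q2 _))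
      have := hs (a + 1) b fun h2 => h (by rw [h2, zero_div]; exact min_eq_right (q1 _))
      omega
  rintro ⟨a, b⟩
  have u1 : d * w (a + 1, b) ≤ c (a, b) := by
    rcases b with _ | b
    · rw [w3]
      split_ifs
      exacts [le_rfl, h0 _]
    · rw [w1]
      exact min_le_left _ _
  have u2 : e * w (a, b + 1) ≤ c (a, b) := by
    rcases a with _ | a
    · rw [w4]
      split_ifs
      exacts [le_rfl, h0 _]
    · rw [w2]
      exact min_le_right _ _
  have p0 := h0 (a, b)
  have p1 : 0 ≤ d * w (a + 1, b) := mul_nonneg hd'.le (w0 _)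
  have p2 : 0 ≤ e * w (a, b + 1) := mul_nonneg he'.le (w0 _)
  refine ⟨?_, by nlinarith [mul_nonneg (sub_nonneg.2 hK) p0]⟩
  by_cases hc : c (a, b) = 0
  · rw [hc]
    positivity
  obtain ⟨s1, s2, s3⟩ := hs a b hc
  have easy : ∀ x y : ℝ, 0 ≤ x → 0 ≤ y → x ≤ 2 * K * (x + y) := fun x y hx hy => by
    nlinarith [mul_nonneg (sub_nonneg.2 hK) hx, mul_nonneg (zero_le_one.trans hK) hy]
  change c (a, b) ≤ 2 * K * (d * w (a + 1, b) + e * w (a, b + 1))
  rcases b with _ | b
  · by_cases h : a + 1 ≤ n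
    · rw [w3, if_pos h]
      exact easy _ _ p0 p2
    · obtain ⟨a, rfl⟩ : ∃ a', a = a' + 1 := ⟨a - 1, by omega⟩
      obtain rfl : n = a + 1 := by omega
      have h1 := hen (by omega)
      rw [Nat.add_sub_cancel] at h1
      have := OUT.two hK p0 le_rfl (z := e / d * c (a, 0 + 1)) (by have := h0 (a, 0 + 1); positivity)
        (by rw [zero_add, div_mul_eq_mul_div, ← mul_div_assoc, le_div_iff₀ hd']; linarith)
      rwa [w3, if_neg h, w2, ← min_eq_right p0]
  rcases a with _ | a
  · by_cases h : b + 1 + 1 ≤ m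
    · rw [w4, if_pos h, add_comm (_ * _)]
      exact easy _ _ p0 p1
    · obtain rfl : m = b + 1 := by omega
      have h1 := hem (by omega)
      rw [Nat.add_sub_cancel] at h1
      have := OUT.two hK p0 (y := d / e * c (0 + 1, b)) (by have := h0 (0 + 1, b); positivity) le_rfl
        (by rw [add_zero, div_mul_eq_mul_div, ← mul_div_assoc, le_div_iff₀ he']; linarith)
      rwa [w4, if_neg h, w1, ← min_eq_left p0]
  rw [w1, w2]
  refine OUT.two hK p0 (by have := h0 (a + 1 + 1, b); positivity)
    (by have := h0 (a, b + 1 + 1); positivity) ?_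
  have h1 := hmid a b
  rw [← mul_le_mul_iff_right₀ (mul_pos hd' he')]
  refine h1.trans_eq ?_
  field_simp

end Pool.Agent.Lib.CLF
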