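import Pool.Agent.Lib.CLF.BBlue

open MvPolynomial Filter Pool.Agent.Lib.MP_08f962_ag

namespace Pool.Agent.Lib.CLF

theorem bOUTP (hS : St_SURF) (hE : St_END) (hW : St_SW) (hU : St_SUP) (hC : St_CONE) :
    St_OUTP := by
  intro n m u v G hn hm hG
  obtain ⟨K, hK, h⟩ := hS n m u v G hn hm hG.1 hG.2.1
  refine ⟨K + u + v, by positivity, fun p q k φ ψ P c hp hq hφ hψ hP hb hF hc => ?_⟩
  have h1 : c ∈ Cn (Ideal.span {pull φ ψ G}) k := AddSubmonoid.subset_closure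
    ⟨P, hP, hb, (Ideal.span_singleton_le_iff_mem _).2 hF, hc⟩
  have h2 := hW.cn h1
  have h0 := hC.pos h1
  refine ⟨h0, fun a b hab => ⟨hC.deg h1 a b hab, hU n m _ k c h1 a b hab,
    hU m n _ k _ h2 b a hab⟩, fun a b => ?_, ?_, ?_⟩
  · have h3 := hC.surf (x := p * q) (y := K * p ^ 2) (z := K * q ^ 2) (fun Q c' hQ hQ' hle =>
      h p q φ ψ Q c' hp hq hφ hψ hQ hQ' ((Ideal.span_singleton_le_iff_mem _).1 hle)) k c h1 a b
    have h4 : 0 ≤ ((u : ℝ) + v) * (p ^ 2 * c (a + 2, b) + q ^ 2 * c (a, b + 2)) := by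
      have := h0 (a + 2, b)
      have := h0 (a, b + 2)
      positivity
    linarith
  · rintro rfl
    have h3 := hE k m u v p q G φ ψ hn hp hG.1 hG.2.2.1 hφ hψ c h1
    have h4 : 0 ≤ (K + u) * (q * c (k - 1, 1)) := by
      have := h0 (k - 1, 1)
      positivity
    linarith
  · rintro rfl
    rw [hW.pull] at h2
    have h3 := hE k n v u q p (sw G) ψ φ hm hq (hW.form hG.1) hG.2.2.2 hψ hφ _ h2
    have h4 : 0 ≤ (K + v) * (p * c (1, k - 1)) := by
      have := h0 (1, k - 1)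
      positivity
    simp only [Prod.swap_prod_mk] at h3
    linarith

end Pool.Agent.Lib.CLF
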