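import Pool.Agent.Lib.CLF.ABlue

open MeasureTheory Filter Topology Set Function

namespace Pool.Agent.Lib.CLF

lemma PAIR.cs {m : Measure Am} {f g : Am → ℝ} (hf : MemLp f 2 m) (hg : MemLp g 2 m) :
    |∫ p, f p * g p ∂m| ≤ (eLpNorm f 2 m).toReal * (eLpNorm g 2 m).toReal := by
  have h := abs_real_inner_le_norm (hf.toLp f) (hg.toLp g)
  rw [Lp.norm_toLp, Lp.norm_toLp, L2.inner_def] at h
  refine le_trans (le_of_eq ?_) h
  congr 1
  refine integral_congr_ae ?_
  filter_upwards [hf.coeFn_toLp, hg.coeFn_toLp] with p h1 h2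
  simp [h1, h2, mul_comm]

theorem bPAIR (hK : St_KEY) (hR : St_RES) (hP : St_RP) (hM : St_MB) : St_PAIR := by
  intro C l f g A A' B B' hl hc hm hf hf' hg hA hB
  obtain ⟨w, hw, hw'⟩ := hK C l g B B' hl hc hm hg hB
  obtain ⟨v, v', hv⟩ := hR C l true B hl hw.1
  obtain ⟨a, a', ha⟩ := hR C l false f hl hA.1
  have h1 := hP.sa C hl hA hv
  have h2 := hP.sa C hl ha hB
  have h3 := (hP.near C hl hv hw).trans hw'
  have h4 := hP.near C hl ha (hM.mem C hl hc hf hf')
  have h5 := PAIR.cs hA.1 (hv.2.1.1.sub hw.1)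
  have h6 := PAIR.cs (ha.2.1.1.sub hA.1) hB.1
  simp only [Pi.sub_apply, mul_sub, sub_mul] at h5 h6
  rw [integral_sub (f := fun p => f p * v p) (g := fun p => f p * B p)
    (hA.1.integrable_mul hv.2.1.1) (hA.1.integrable_mul hw.1)] at h5
  rw [integral_sub (f := fun p => a p * g p) (g := fun p => f p * g p)
    (ha.2.1.1.integrable_mul hB.1) (hA.1.integrable_mul hB.1), h2] at h6
  have h7 := mul_le_mul_of_nonneg_left (ENNReal.toReal_mono (hg.2 true).2.ne h3)
    (ENNReal.toReal_nonneg (a := eLpNorm f 2 (C.mn l)))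
  have h8 := mul_le_mul_of_nonneg_right (ENNReal.toReal_mono hf'.2.ne h4)
    (ENNReal.toReal_nonneg (a := eLpNorm g 2 (C.mn l)))
  rw [h1]
  have h9 := abs_sub_le (∫ p, f p * v p ∂C.mn l) (∫ p, f p * B p ∂C.mn l) (∫ p, f p * g p ∂C.mn l)
  linarith

end Pool.Agent.Lib.CLF
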