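import Pool.Agent.Lib.CLF.BBlue
import Pool.Agent.Lib.MP_08f962_ag.HF2

/-! Uniqueness and comparison of degrees for polynomials in two variables. -/

open MvPolynomial Filter Topology Function Module Pool.Agent.Lib.MP_08f962_ag

noncomputable section

namespace Pool.Agent.Lib.CLF

namespace PDEG

theorem uniq (q q' : MvPolynomial (Fin 2) ℝ) (h : ∀ᶠ p : ℕ × ℕ in atTop,
    eval ![(p.1 : ℝ), (p.2 : ℝ)] q = eval ![(p.1 : ℝ), (p.2 : ℝ)] q') : q = q' := by
  obtain ⟨N, hN⟩ := eventually_atTop.1 h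
  refine funext_set (fun _ => Set.range fun j : ℕ => ((j + (N.1 + N.2) : ℕ) : ℝ))
    (fun _ => Set.infinite_range_of_injective fun a b hab => ?_) fun x hx => ?_
  · exact Nat.add_right_cancel (Nat.cast_injective (R := ℝ) hab)
  · obtain ⟨a, ha⟩ := hx 0 trivial
    obtain ⟨b, hb⟩ := hx 1 trivial
    have e : x = ![((a + (N.1 + N.2) : ℕ) : ℝ), ((b + (N.1 + N.2) : ℕ) : ℝ)] := by
      funext i
      fin_cases i
      exacts [ha.symm, hb.symm]
    rw [e]
    exact hN (a + (N.1 + N.2), b + (N.1 + N.2)) ⟨by simp only; omega, by simp only; omega⟩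

theorem eval_hom {φ : MvPolynomial (Fin 2) ℝ} {j : ℕ} (h : φ.IsHomogeneous j) (t : ℝ)
    (x : Fin 2 → ℝ) : eval (fun i => t * x i) φ = eval x φ * t ^ j := by
  rw [eval_eq, eval_eq, Finset.sum_mul]
  refine Finset.sum_congr rfl fun s hs => ?_
  simp only [mul_pow, Finset.prod_mul_distrib, Finset.prod_pow_eq_pow_sum]
  rw [← h.degree_eq_sum_deg_support hs]
  ring

/-- The restriction to a ray. -/
def ray (q : MvPolynomial (Fin 2) ℝ) (x : Fin 2 → ℝ) : Polynomial ℝ :=
  ∑ j ∈ Finset.range (q.totalDegree + 1), Polynomial.monomial j (eval x (homogeneousComponent j q))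

theorem ray_eval (q : MvPolynomial (Fin 2) ℝ) (x : Fin 2 → ℝ) (t : ℝ) :
    (ray q x).eval t = eval (fun i => t * x i) q := by
  conv_rhs => rw [← sum_homogeneousComponent q]
  simp only [ray, Polynomial.eval_finsetSum, Polynomial.eval_monomial, map_sum,
    eval_hom (homogeneousComponent_isHomogeneous _ q)]

theorem ray_deg (q : MvPolynomial (Fin 2) ℝ) (x : Fin 2 → ℝ) :
    (ray q x).natDegree ≤ q.totalDegree :=
  Polynomial.natDegree_sum_le_of_forall_le _ _ fun _ hj =>
    (Polynomial.natDegree_monomial_le _).trans (Nat.lt_succ_iff.1 (Finset.mem_range.1 hj))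

theorem ray_top (q : MvPolynomial (Fin 2) ℝ) (x : Fin 2 → ℝ) :
    (ray q x).coeff q.totalDegree = eval x (homogeneousComponent q.totalDegree q) := by
  simp [ray, Polynomial.coeff_monomial]

theorem top_zero {q : MvPolynomial (Fin 2) ℝ} (h : homogeneousComponent q.totalDegree q = 0) :
    q = 0 := by
  by_contra h0
  obtain ⟨s, hs, e⟩ := Finset.exists_mem_eq_sup q.support (support_nonempty.2 h0)
    fun s => s.sum fun _ e => e
  have := congrArg (coeff s) h
  rw [coeff_homogeneousComponent, if_pos (by rw [totalDegree, e]; rfl), coeff_zero] at this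
  exact mem_support_iff.1 hs this

end PDEG

open PDEG in
theorem bPDEG : St_PDEG where
  uniq := uniq
  le q q' k hk h := by
    by_contra hq
    have h0 : q = 0 := top_zero (uniq _ 0 ?_)
    · simp [h0] at hq
    filter_upwards [eventually_ge_atTop ((1, 1) : ℕ × ℕ)] with p hp
    have ht : Tendsto (fun t : ℕ => (t * p.1, t * p.2)) atTop atTop := by
      rw [← prod_atTop_atTop_eq]
      exact (tendsto_id.atTop_mul_const' hp.1).prodMk (tendsto_id.atTop_mul_const' hp.2)
    have e : ∀ t : ℕ, (fun i => (t : ℝ) * ![(p.1 : ℝ), (p.2 : ℝ)] i) =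
        ![((t * p.1 : ℕ) : ℝ), ((t * p.2 : ℕ) : ℝ)] := fun t => by
      funext i
      fin_cases i <;> simp
    have hd := natDegree_le_of_ev (p := ray q ![(p.1 : ℝ), (p.2 : ℝ)])
      ((ray_deg q' ![(p.1 : ℝ), (p.2 : ℝ)]).trans hk)
      ((ht.eventually h).mono fun t h => by rw [ray_eval, e]; exact h.1)
      ((ht.eventually h).mono fun t h => by rw [ray_eval, ray_eval, e]; exact h.2)
    rw [← ray_top, map_zero]
    exact Polynomial.coeff_eq_zero_of_natDegree_lt (hd.trans_lt (not_le.1 hq))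

end Pool.Agent.Lib.CLF
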