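import Pool.Agent.Lib.CLF.ABlue

/-! Small perturbations of the identity. -/

open Filter Topology Set Function

noncomputable section

namespace Pool.Agent.Lib.CLF

theorem bPERT : St_PERT := by
  intro Φ hΦ h
  have d : Differentiable ℝ Φ := hΦ.differentiable (by simp)
  have ap : ApproximatesLinearOn Φ (ContinuousLinearEquiv.refl ℝ B2 : B2 →L[ℝ] B2) univ (1 / 2) := by
    intro x _ y _
    have := (convex_univ (𝕜 := ℝ) (E := B2)).norm_image_sub_le_of_norm_hasFDerivWithin_le
      (f := fun z => Φ z - z) (C := 1 / 2)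
      (fun z _ => ((d z).hasFDerivAt.sub (hasFDerivAt_id z)).hasFDerivWithinAt)
      (fun z _ => h z) (mem_univ y) (mem_univ x)
    rw [show Φ x - x - (Φ y - y) = Φ x - Φ y - (x - y) by abel] at this
    simpa using this
  have hc : (1 / 2 : NNReal) <
      ‖((ContinuousLinearEquiv.refl ℝ B2).symm : B2 →L[ℝ] B2)‖₊⁻¹ := by
    simp; norm_num
  let e : B2 ≃ₜ B2 := ap.toHomeomorph Φ (Or.inr hc)
  have n : ∀ z, ‖ContinuousLinearMap.id ℝ B2 - fderiv ℝ Φ z‖ < 1 := fun z => by
    rw [norm_sub_rev]; linarith [h z]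
  refine ⟨e.symm, e.contDiff_symm (f₀' := fun z => ContinuousLinearEquiv.ofUnit
    (Units.oneSub _ (n z))) (fun z => ?_) hΦ, e.symm_apply_apply, e.apply_symm_apply⟩
  refine (d z).hasFDerivAt.congr_fderiv (ContinuousLinearMap.ext fun v => ?_)
  simp [ContinuousLinearEquiv.ofUnit]

end Pool.Agent.Lib.CLF
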