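import Pool.Agent.Lib.CLF.ABlue

/-! The local data of the motion. -/

open MeasureTheory Filter Topology Set Function Metric
open scoped ContDiff ENNReal ComplexConjugate

noncomputable section

namespace Pool.Agent.Lib.CLF

namespace PH0

lemma sep {N : ℕ} {c : Fin N → ℂ} (hc : Injective c) :
    ∃ ε > 0, ∀ i j, j ≠ i → 3 * ε ≤ dist (c i) (c j) := by
  have h : ∀ᶠ ε in 𝓝[>] (0 : ℝ), ∀ i j, j ≠ i → 3 * ε ≤ dist (c i) (c j) := by
    refine eventually_all.2 fun i => eventually_all.2 fun j => ?_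
    by_cases e : j = i
    · exact Eventually.of_forall fun _ h => absurd e h
    have h0 : 0 < dist (c i) (c j) / 3 := div_pos (dist_pos.2 fun h => e (hc h).symm) three_pos
    filter_upwards [mem_nhdsWithin_of_mem_nhds (ge_mem_nhds h0)] with ε h _
    linarith [show ε ≤ _ from h]
  exact (h.and self_mem_nhdsWithin).exists.imp fun ε h => ⟨h.2, h.1⟩

lemma bump {c : ℂ} (f : ContDiffBump c) : Bump univ fun z => (f z : ℂ) :=
  ⟨Complex.ofRealCLM.contDiff.comp f.contDiff,
    f.hasCompactSupport.comp_left (g := fun x : ℝ => (x : ℂ)) Complex.ofReal_zero, subset_univ _⟩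

end PH0

theorem bPH0 : St_PH0 := by
  intro Ω t hΩ ht
  obtain ⟨r0, N, b, hr, hb, hi, hm⟩ := hΩ.2 t ht
  obtain ⟨ε, hε, hs⟩ := PH0.sep hi
  have h1 : ∀ᶠ z in 𝓝 t, ∀ i, b i z ∈ ball (b i t) ε := eventually_all.2 fun i =>
    (hb i t (mem_ball_self hr)).continuousAt (ball_mem_nhds _ hε)
  obtain ⟨ρ0, hρ0, h2⟩ := Metric.eventually_nhds_iff.1 h1
  obtain ⟨ρ, hρ, ha, hc⟩ : ∃ ρ > 0, ρ ≤ ρ0 ∧ ρ ≤ r0 / 3 :=
    ⟨min ρ0 (r0 / 3), by positivity, min_le_left _ _, min_le_right _ _⟩
  let χ : ContDiffBump t := ⟨ρ, 2 * ρ, hρ, by linarith⟩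
  let θ : ContDiffBump t := ⟨ρ / 4, ρ / 2, by positivity, by linarith⟩
  let κ : ∀ i, ContDiffBump (b i t) := fun i => ⟨ε, 2 * ε, hε, by linarith⟩
  have h3 : ∀ z ∈ ball t ρ, χ z = 1 := fun z hz => χ.one_of_mem_closedBall (ball_subset_closedBall hz)
  have h4 : ball t ρ ⊆ ball t r0 := ball_subset_ball (by linarith)
  refine ⟨N, ball t (ρ / 4), ball t ρ, fun i z => χ z * b i z, fun i z => κ i z, θ, ρ / 4,
    by positivity, isOpen_ball, mem_ball_self (by positivity), isOpen_ball,
    ⟨θ.contDiff, θ.hasCompactSupport, subset_univ _⟩,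
    fun z hz => θ.one_of_mem_closedBall (ball_subset_closedBall hz),
    fun z => (abs_of_nonneg θ.nonneg).trans_le θ.le_one, fun z hz => ?_,
    fun i => ⟨⟨contDiff_iff_contDiffAt.2 fun z => ?_, (PH0.bump χ).2.1.mul_right, subset_univ _⟩,
      PH0.bump _, fun z hz => (hb i z (h4 hz)).congr ?_⟩, fun z hz s => ?_, fun z hz i j => ?_⟩
  · rw [θ.tsupport_eq] at hz
    exact closedBall_subset_ball' (by linarith [show dist z t ≤ ρ / 2 from hz])
  · by_cases hz : z ∈ ball t r0
    · exact (PH0.bump χ).1.contDiffAt.mul ((hb i z hz).contDiffAt.restrict_scalars ℝ)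
    · refine (contDiffAt_const (c := 0)).congr_of_eventuallyEq ?_
      have : z ∈ (closedBall t (2 * ρ))ᶜ := fun h => hz (closedBall_subset_ball (by linarith) h)
      filter_upwards [isClosed_closedBall.isOpen_compl.mem_nhds this] with w hw
      rw [χ.zero_of_le_dist (not_le.1 fun h => hw (mem_closedBall.2 h)).le, Complex.ofReal_zero, zero_mul]
  · filter_upwards [isOpen_ball.mem_nhds hz] with w hw
    rw [h3 w hw, Complex.ofReal_one, one_mul]
  · simp only [h3 z hz, Complex.ofReal_one, one_mul]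
    exact hm z (h4 hz) s
  · simp only [h3 z hz, Complex.ofReal_one, one_mul]
    filter_upwards [isOpen_ball.mem_nhds (h2 (lt_of_lt_of_le hz ha) i)] with w hw
    split_ifs with e
    · subst e
      rw [(κ j).one_of_mem_closedBall (ball_subset_closedBall hw), Complex.ofReal_one]
    · rw [(κ j).zero_of_le_dist, Complex.ofReal_zero]
      linarith [hs i j e, dist_triangle_left (b i t) (b j t) w, show dist w (b i t) < ε from hw,
        show (κ j).rOut = 2 * ε from rfl]

end Pool.Agent.Lib.CLF
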