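import Pool.Agent.Lib.CLF.ABlue

/-! Existence of the motion. -/

open MeasureTheory Filter Topology Set Function
open scoped ContDiff ENNReal ComplexConjugate

noncomputable section

namespace Pool.Agent.Lib.CLF

namespace PHI

theorem fd_c {f : ℂ → ℂ} {t : ℂ} (h : DifferentiableAt ℂ f t) (v : ℂ) :
    fderiv ℝ f t v = v * deriv f t := by
  rw [(h.hasDerivAt.hasFDerivAt.restrictScalars ℝ).fderiv]
  simp

theorem wb_true {F : B2 → ℂ} {z : B2} (hF : DifferentiableAt ℝ F z)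
    (h : DifferentiableAt ℂ (fun t => F (t, z.2)) z.1) : wb true F z = 0 := by
  have key : ∀ v : ℂ, fderiv ℝ F z (v, 0) = v * deriv (fun t => F (t, z.2)) z.1 := fun v => by
    rw [← fd_c h]
    have h1 : HasFDerivAt (fun t : ℂ => ((t, z.2) : B2)) (ContinuousLinearMap.inl ℝ ℂ ℂ) z.1 :=
      hasFDerivAt_prodMk_left _ _
    have h2 := (hF.hasFDerivAt.comp z.1 h1).fderiv
    rw [show (fun t => F (t, z.2)) = F ∘ fun t : ℂ => ((t, z.2) : B2) from rfl, h2]
    rfl
  have e : (Complex.I • ev true : B2) = (Complex.I, 0) := by simp [ev]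
  rw [wb, e, ev, key, key, ← mul_assoc, Complex.I_mul_I]
  ring

theorem wb_false {F : B2 → ℂ} {z : B2} (hF : DifferentiableAt ℝ F z)
    (h : DifferentiableAt ℂ (fun s => F (z.1, s)) z.2) : wb false F z = 0 := by
  have key : ∀ v : ℂ, fderiv ℝ F z (0, v) = v * deriv (fun s => F (z.1, s)) z.2 := fun v => by
    rw [← fd_c h]
    have h1 : HasFDerivAt (fun s : ℂ => ((z.1, s) : B2)) (ContinuousLinearMap.inr ℝ ℂ ℂ) z.2 :=
      hasFDerivAt_prodMk_right _ _
    have h2 := (hF.hasFDerivAt.comp z.2 h1).fderiv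
    rw [show (fun s => F (z.1, s)) = F ∘ fun s : ℂ => ((z.1, s) : B2) from rfl, h2]
    rfl
  have e : (Complex.I • ev false : B2) = (0, Complex.I) := by simp [ev]
  rw [wb, e, ev, key, key, ← mul_assoc, Complex.I_mul_I]
  ring

section bd

variable {E F : Type} [NormedAddCommGroup E] [NormedSpace ℝ E] [NormedAddCommGroup F]
  [NormedSpace ℝ F]

theorem bd1 {H : ℝ → E → F} (hH : ContDiff ℝ ∞ (uncurry H)) {K : Set E} (hK : IsCompact K)
    (h0 : ∀ l z, z ∉ K → H l z = 0) (hz : ∀ z, H 0 z = 0) :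
    ∃ M, 0 ≤ M ∧ ∀ l ∈ Icc (0 : ℝ) 1, ∀ z,
      ‖deriv (fun l => H l z) l‖ ≤ M ∧ ‖H l z‖ ≤ M * l := by
  obtain ⟨M, hM⟩ := (isCompact_Icc.prod hK : IsCompact (Icc (0 : ℝ) 1 ×ˢ K)).exists_bound_of_continuousOn
    (hH.continuous_fderiv (by simp)).continuousOn
  have hd : ∀ l z, HasDerivAt (fun l => H l z) (fderiv ℝ (uncurry H) (l, z) (1, 0)) l := fun l z =>
    HasFDerivAt.comp_hasDerivAt (f := fun l : ℝ => (l, z)) l
      (hH.differentiable (by simp) (l, z)).hasFDerivAt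
      ((hasDerivAt_id l).prodMk (hasDerivAt_const l z))
  have h1 : ∀ l ∈ Icc (0 : ℝ) 1, ∀ z, ‖deriv (fun l => H l z) l‖ ≤ max M 0 := fun l hl z => by
    by_cases hz : z ∈ K
    · rw [(hd l z).deriv]
      refine ((ContinuousLinearMap.le_opNorm _ _).trans ?_).trans (le_max_left _ _)
      simpa using hM (l, z) ⟨hl, hz⟩
    · simp [h0 _ z hz]
  refine ⟨max M 0, le_max_right _ _, fun l hl z => ⟨h1 l hl z, ?_⟩⟩
  have := (convex_Icc (0 : ℝ) 1).norm_image_sub_le_of_norm_deriv_le (f := fun l => H l z)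
    (fun l _ => (hd l z).differentiableAt) (fun l hl => h1 l hl z) (left_mem_Icc.2 zero_le_one) hl
  simpa [hz, abs_of_nonneg hl.1] using this

theorem bd2 {H : ℝ → E → F} (hH : ContDiff ℝ ∞ (uncurry H)) {K : Set E} (hK : IsCompact K)
    (h0 : ∀ l z, z ∉ K → H l z = 0) (hz : ∀ z, H 0 z = 0) :
    ∃ M, 0 ≤ M ∧ ∀ l ∈ Icc (0 : ℝ) 1, ∀ z,
      ‖deriv (fun l => H l z) l‖ ≤ M ∧ ‖fderiv ℝ (H l) z‖ ≤ M * l := by
  obtain ⟨M, hM0, hM⟩ := bd1 hH hK h0 hz
  have hD : ContDiff ℝ ∞ (uncurry fun l z => fderiv ℝ (H l) z) :=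
    ContDiff.fderiv (f := fun (p : ℝ × E) z => H p.1 z) (g := fun p => p.2) (m := ∞) (n := ∞)
      (hH.comp (contDiff_fst.fst.prodMk contDiff_snd)) contDiff_snd (by simp)
  obtain ⟨M', hM0', hM'⟩ := bd1 hD hK (fun l z hzK => by
    have : H l =ᶠ[𝓝 z] fun _ => 0 :=
      (hK.isClosed.isOpen_compl.eventually_mem hzK).mono fun w hw => h0 l w hw
    rw [this.fderiv_eq]
    simp) (fun z => by rw [show H 0 = fun _ => 0 from funext hz]; simp)
  refine ⟨M + M', by positivity, fun l hl z => ⟨(hM l hl z).1.trans (by linarith), ?_⟩⟩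
  exact (hM' l hl z).2.trans (by nlinarith [hl.1])

end bd

end PHI

open PHI in
theorem bPHI (hPH0 : St_PH0) (hPERT : St_PERT) (hW : St_WIR) : St_PHI := by
  intro Ω t hΩ ht
  obtain ⟨N, U, U', B, κ, θ, r, hr, hU, htU, hU', hθ, hθ1, hθb, hball, hB, hΩ', hκ⟩ :=
    hPH0 Ω t hΩ ht
  have hUU : U ⊆ U' := fun z hz =>
    hball z (subset_tsupport _ (by simp [hθ1 z hz])) (Metric.mem_closedBall_self hr.le)
  set a : B2 → ℂ := fun z => ∑ i, fderiv ℝ (B i) z.1 1 * κ i z.2 with ha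
  have hB' : ∀ i, ContDiff ℝ ∞ fun t => fderiv ℝ (B i) t 1 := fun i =>
    ((hB i).1.1.fderiv_right (m := ∞) (by simp)).clm_apply contDiff_const
  have hac : ContDiff ℝ ∞ a :=
    ContDiff.sum fun i _ => ((hB' i).comp contDiff_fst).mul ((hB i).2.1.1.comp contDiff_snd)
  have hKκ : IsCompact (⋃ i, tsupport (κ i)) := isCompact_iUnion fun i => (hB i).2.1.2.1
  have hκ0 : ∀ s, s ∉ ⋃ i, tsupport (κ i) → ∀ i, κ i s = 0 := fun s hs i =>
    image_eq_zero_of_notMem_tsupport fun h => hs (mem_iUnion.2 ⟨i, h⟩)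
  have has : HasCompactSupport a := by
    refine HasCompactSupport.intro ((isCompact_iUnion fun i => (hB i).1.2.1).prod hKκ) ?_
    intro z hz
    refine Finset.sum_eq_zero fun i _ => ?_
    by_cases h2 : z.2 ∈ ⋃ i, tsupport (κ i)
    · have h1 : z.1 ∉ tsupport (B i) := fun h => hz ⟨mem_iUnion.2 ⟨i, h⟩, h2⟩
      rw [(notMem_tsupport_iff_eventuallyEq.1 h1).fderiv_eq]
      simp
    · simp [hκ0 _ h2 i]
  refine ⟨U, a, hU, htU, ⟨hac, ?_, fun z hz => ?_, fun K hK hKU => ?_⟩, fun e he => ?_⟩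
  · obtain ⟨M, hM⟩ := has.exists_bound_of_continuous hac.continuous
    obtain ⟨M', hM'⟩ := (has.fderiv (𝕜 := ℝ)).exists_bound_of_continuous
      (hac.continuous_fderiv (by simp))
    exact ⟨max M M', fun z => ⟨(hM z).trans (le_max_left _ _),
      ((hW.le false a z).2.trans (hM' z)).trans (le_max_right _ _)⟩⟩
  · refine wb_true (hac.differentiable (by simp) z) ?_
    refine DifferentiableAt.fun_sum fun i _ => ?_
    refine DifferentiableAt.mul_const (a := fun t => fderiv ℝ (B i) t 1) ?_ (κ i z.2)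
    refine (((hB i).2.2.deriv z.1 (hUU hz)).differentiableAt).congr_of_eventuallyEq ?_
    filter_upwards [hU'.eventually_mem (hUU hz)] with w hw
    rw [fd_c ((hB i).2.2 w hw).differentiableAt, one_mul]
  · set V : Set ℂ := {s | ∀ j, ∃ c, κ j =ᶠ[𝓝 s] fun _ => c} with hV
    have hVo : IsOpen V := by
      rw [hV, ofPred_forall]
      refine isOpen_iInter_of_finite fun j => ?_
      rw [ofPred_exists]
      exact isOpen_iUnion fun c => isOpen_setOfPred_eventually_nhds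
    have hVc : IsCompact Vᶜ := by
      refine hKκ.of_isClosed_subset hVo.isClosed_compl fun s hs => ?_
      by_contra h
      exact hs fun j => ⟨0, notMem_tsupport_iff_eventuallyEq.1 fun h' => h (mem_iUnion.2 ⟨j, h'⟩)⟩
    refine ⟨K ×ˢ Vᶜ, hK.prod hVc, fun z hz => ?_, fun z hz hz' => ?_⟩
    · refine (hΩ' z.1 (hUU (hKU hz.1)) z.2).2 fun i h => hz.2 fun j => ?_
      rw [h]
      exact ⟨_, hκ z.1 (hUU (hKU hz.1)) i j⟩
    · have h2 : z.2 ∈ V := by
        by_contra h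
        exact hz' ⟨hz, h⟩
      refine wb_false (hac.differentiable (by simp) z) ?_
      refine DifferentiableAt.fun_sum fun i _ => ?_
      refine DifferentiableAt.const_mul (a := κ i) ?_ (fderiv ℝ (B i) z.1 1)
      obtain ⟨c, hc⟩ := h2 i
      exact (differentiableAt_const c).congr_of_eventuallyEq hc
  set H1 : ℝ → ℂ → ℂ := fun l t => l * e * θ t with hH1
  set H2 : ℝ → B2 → ℂ := fun l z => ∑ i, (B i (z.1 + H1 l z.1) - B i z.1) * κ i z.2 with hH2
  have c1 : ContDiff ℝ ∞ (uncurry H1) :=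
    ((Complex.ofRealCLM.contDiff.comp contDiff_fst).mul contDiff_const).mul
      (Complex.ofRealCLM.contDiff.comp (hθ.1.comp contDiff_snd))
  have c1' : ContDiff ℝ ∞ fun p : ℝ × B2 => H1 p.1 p.2.1 :=
    c1.comp (contDiff_fst.prodMk contDiff_snd.fst)
  have c2 : ContDiff ℝ ∞ (uncurry H2) :=
    ContDiff.sum fun i _ => (((hB i).1.1.comp (contDiff_snd.fst.add c1')).sub
      ((hB i).1.1.comp contDiff_snd.fst)).mul ((hB i).2.1.1.comp contDiff_snd.snd)
  have z1 : ∀ l t, t ∉ tsupport θ → H1 l t = 0 := fun l t ht => by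
    simp [hH1, image_eq_zero_of_notMem_tsupport ht]
  have z2 : ∀ l (z : B2), z ∉ tsupport θ ×ˢ ⋃ i, tsupport (κ i) → H2 l z = 0 := fun l z hz => by
    refine Finset.sum_eq_zero fun i _ => ?_
    by_cases h2 : z.2 ∈ ⋃ i, tsupport (κ i)
    · simp [z1 l z.1 fun h => hz ⟨h, h2⟩]
    · simp [hκ0 _ h2 i]
  obtain ⟨M1, p1, b1⟩ := bd2 c1 hθ.2.1 z1 (by simp [hH1])
  obtain ⟨M2, p2, b2⟩ := bd2 c2 (hθ.2.1.isCompact.prod hKκ) z2 (by simp [hH2, hH1])
  set Ψ : ℝ → B2 → B2 := fun l z => (z.1 + H1 l z.1, z.2 + H2 l z) with hΨ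
  have cΨ : ContDiff ℝ ∞ (uncurry Ψ) :=
    (contDiff_snd.fst.add c1').prodMk (contDiff_snd.snd.add c2)
  set M := M1 + M2 with hM
  set l0 := min (min 1 r) (1 / (8 * (M + 1))) with hl0
  have hl1 : ∀ l ∈ Icc 0 l0, l ∈ Icc (0 : ℝ) 1 := fun l hl =>
    ⟨hl.1, hl.2.trans ((min_le_left _ _).trans (min_le_left _ _))⟩
  have hsm : M * l0 ≤ 1 / 8 := by
    have : l0 ≤ 1 / (8 * (M + 1)) := min_le_right _ _
    rw [le_div_iff₀ (by positivity)] at this
    have : 0 ≤ l0 := by positivity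
    nlinarith
  have d1 : ∀ l t, DifferentiableAt ℝ (fun l => H1 l t) l := fun l t =>
    (c1.comp (contDiff_id.prodMk contDiff_const)).differentiable (by simp) l
  have d2 : ∀ l z, DifferentiableAt ℝ (fun l => H2 l z) l := fun l z =>
    (c2.comp (contDiff_id.prodMk contDiff_const)).differentiable (by simp) l
  have dΨ : ∀ l z, deriv (fun l => Ψ l z) l =
      (deriv (fun l => H1 l z.1) l, deriv (fun l => H2 l z) l) := fun l z =>
    (((d1 l z.1).hasDerivAt.const_add z.1).prodMk ((d2 l z).hasDerivAt.const_add z.2)).deriv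
  have dz : ∀ l ∈ Icc 0 l0, ∀ z,
      ‖fderiv ℝ (Ψ l) z - ContinuousLinearMap.id ℝ B2‖ ≤ M * l := fun l hl z => by
    have e1 : DifferentiableAt ℝ (H1 l) z.1 :=
      (c1.comp (contDiff_const.prodMk contDiff_id)).differentiable (by simp) z.1
    have e2 : DifferentiableAt ℝ (H2 l) z :=
      (c2.comp (contDiff_const.prodMk contDiff_id)).differentiable (by simp) z
    have e3 := ((hasFDerivAt_fst (𝕜 := ℝ) (p := z)).add (e1.hasFDerivAt.comp z hasFDerivAt_fst)).prodMk
      ((hasFDerivAt_snd (𝕜 := ℝ) (p := z)).add e2.hasFDerivAt)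
    have hl' := hl.1
    rw [show fderiv ℝ (Ψ l) z = _ from e3.fderiv]
    refine ContinuousLinearMap.opNorm_le_bound _ (by positivity) fun v => ?_
    have : ‖(fderiv ℝ (H1 l) z.1 v.1, fderiv ℝ (H2 l) z v)‖ ≤ M * l * ‖v‖ := by
      rw [Prod.norm_def]
      refine max_le ((ContinuousLinearMap.le_opNorm _ _).trans ?_)
        ((ContinuousLinearMap.le_opNorm _ _).trans ?_)
      · exact mul_le_mul ((b1 l (hl1 l hl) z.1).2.trans (by nlinarith)) (norm_fst_le v)
          (norm_nonneg _) (by positivity)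
      · exact mul_le_mul_of_nonneg_right ((b2 l (hl1 l hl) z).2.trans (by nlinarith)) (norm_nonneg _)
    refine le_of_eq_of_le (congrArg norm ?_) this
    ext <;> simp
  have inv : ∀ l ∈ Icc 0 l0, ∃ Φ, ContDiff ℝ ∞ Φ ∧ LeftInverse Φ (Ψ l) ∧ RightInverse Φ (Ψ l) :=
    fun l hl => hPERT _ (cΨ.comp (contDiff_const.prodMk contDiff_id)) fun z =>
      (dz l hl z).trans (by nlinarith [hl.2])
  refine ⟨⟨Ψ, l0, M, by positivity, by positivity, hsm, cΨ, fun z => by simp [hΨ, hH1, hH2],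
    fun l z z' h => by simp [hΨ, h], inv, fun l hl z => ?_, fun l hl z => ?_, dz, fun z hz => ?_⟩⟩
  · by_cases h : z.1 ∈ tsupport θ
    · have t1 : z.1 ∈ U' := hball _ h (Metric.mem_closedBall_self hr.le)
      have t2 : z.1 + H1 l z.1 ∈ U' := by
        refine hball _ h ?_
        have : l ≤ r := hl.2.trans ((min_le_left _ _).trans (min_le_right _ _))
        have h3 := hθb z.1
        simp only [Metric.mem_closedBall, dist_self_add_left, hH1, norm_mul, he, Complex.norm_real,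
          Real.norm_eq_abs, abs_of_nonneg hl.1]
        nlinarith [hl.1, abs_nonneg (θ z.1)]
      obtain ⟨Φ, -, hΦ, -⟩ := inv l hl
      have key : ∀ i, Ψ l (z.1, B i z.1) = (z.1 + H1 l z.1, B i (z.1 + H1 l z.1)) := fun i => by
        have : ∀ j, κ j (B i z.1) = if j = i then 1 else 0 := fun j => (hκ z.1 t1 i j).self_of_nhds
        simp [hΨ, hH2, this]
      refine (hΩ' _ t2 _).trans (Iff.trans ?_ (hΩ' _ t1 z.2).symm)
      refine forall_congr' fun i => not_congr ⟨fun h => ?_, fun h => ?_⟩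
      · have : Ψ l z = Ψ l (z.1, B i z.1) := by rw [key]; exact Prod.ext rfl h
        exact congrArg Prod.snd (hΦ.injective this)
      · have : z = (z.1, B i z.1) := Prod.ext rfl h
        have h4 := congrArg Prod.snd (key i)
        rw [← this] at h4
        exact h4
    · have : Ψ l z = z := by simp [hΨ, z1 l _ h, z2 l z fun h' => h h'.1]
      rw [this]
  · rw [dΨ, Prod.norm_def]
    exact max_le ((b1 l (hl1 l hl) z.1).1.trans (by linarith))
      ((b2 l (hl1 l hl) z).1.trans (by linarith))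
  · have g1 : HasDerivAt (fun l => H1 l z.1) e 0 := by
      simpa [hH1, hθ1 _ hz] using (Complex.ofRealCLM.hasDerivAt (x := 0)).mul_const e
    have g2 : HasDerivAt (fun l => H2 l z) (∑ i, fderiv ℝ (B i) z.1 e * κ i z.2) 0 := by
      refine HasDerivAt.fun_sum fun i _ => HasDerivAt.mul_const (HasDerivAt.sub_const _ ?_) _
      have := ((hB i).1.1.differentiable (by simp) z.1).hasFDerivAt
      exact HasFDerivAt.comp_hasDerivAt_of_eq 0 this (g1.const_add z.1) (by simp [hH1])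
    rw [dΨ, g1.deriv, g2.deriv, ha, Finset.mul_sum]
    refine congrArg (Prod.mk e) (Finset.sum_congr rfl fun i _ => ?_)
    have := ((hB i).2.2 _ (hUU hz)).differentiableAt
    rw [fd_c this, fd_c this]
    ring

end Pool.Agent.Lib.CLF
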