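import Pool.Agent.Lib.CLF.ABlue

/-! The resolvent is positive. -/

open MeasureTheory Filter Topology Set Function
open scoped ContDiff ComplexConjugate

noncomputable section

namespace Pool.Agent.Lib.CLF

namespace POS

def G (x : ℝ) : ℝ := -Real.smoothTransition (-x)

theorem sm : ContDiff ℝ ∞ G := (Real.smoothTransition.contDiff.comp contDiff_neg).neg

theorem mono : Monotone G := fun _ _ h =>
  neg_le_neg (Real.smoothTransition.monotone (neg_le_neg h))

theorem zero {x : ℝ} (h : 0 ≤ x) : G x = 0 := by
  rw [G, Real.smoothTransition.zero_of_nonpos (by linarith), neg_zero]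

theorem neg {x : ℝ} (h : x < 0) : G x < 0 :=
  neg_lt_zero.2 (Real.smoothTransition.pos_of_pos (by linarith))

theorem bd : ∃ M, ∀ x, |deriv G x| ≤ M := by
  refine (sm.continuous_deriv (by simp)).bounded_above_of_compact_support
    (HasCompactSupport.intro (isCompact_Icc (a := -1) (b := 0)) fun x hx => ?_)
  rw [mem_Icc, not_and_or, not_le, not_le] at hx
  rcases hx with h | h
  · have : G =ᶠ[𝓝 x] fun _ => -1 := (eventually_lt_nhds h).mono fun y hy => by
      rw [G, Real.smoothTransition.one_of_one_le (by linarith)]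
    rw [this.deriv_eq, deriv_const]
  · have : G =ᶠ[𝓝 x] fun _ => 0 := (eventually_gt_nhds h).mono fun y hy => zero hy.le
    rw [this.deriv_eq, deriv_const]

end POS

open POS in
theorem bPOS (hCH : St_CH) (hRP : St_RP) (hWM : St_WM) : St_POS := by
  intro C l b g u u' hl hR hg
  obtain ⟨M, hM⟩ := bd
  have m := hCH C l b u u' G M hl hR.2.1 sm (zero le_rfl) hM
  have e := hRP.eq C hl hR m
  obtain ⟨a1, a2, -⟩ := hWM.ac C b hl
  have n1 : ∀ᵐ p ∂C.mn l, 0 ≤ (u p - g p) * G (u p) := Eventually.mono (a1.ae_le hg) fun p hp => by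
    rcases lt_or_ge (u p) 0 with h | h
    · exact mul_nonneg_of_nonpos_of_nonpos (by linarith) (neg h).le
    · rw [zero h, mul_zero]
  have n2 : 0 ≤ ∫ p, (u' p * conj (deriv G (u p) * u' p)).re ∂C.mo l b :=
    integral_nonneg fun p => by
      have : u' p * conj (deriv G (u p) * u' p) = (deriv G (u p) * Complex.normSq (u' p) : ℝ) := by
        rw [map_mul, Complex.conj_ofReal, Complex.ofReal_mul, ← Complex.mul_conj]; ring
      simp only [this, Complex.ofReal_re]
      exact mul_nonneg mono.deriv_nonneg (Complex.normSq_nonneg _)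
  have i : Integrable (fun p => (u p - g p) * G (u p)) (C.mn l) :=
    (hR.2.1.1.sub hR.1).integrable_mul m.1
  have z := (integral_eq_zero_iff_of_nonneg_ae n1 i).1
    (le_antisymm (by linarith) (integral_nonneg_of_ae n1))
  filter_upwards [a2.ae_le z, hg] with p h1 h2
  by_contra h
  have h3 := neg (not_le.1 h)
  have : u p - g p = 0 := (mul_eq_zero.1 h1).resolve_right h3.ne
  exact h (by linarith)

end Pool.Agent.Lib.CLF
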