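import Pool.Agent.Lib.CLF.BBlue

/-! Degrees of powers. -/

open Module IntermediateField

noncomputable section

namespace Pool.Agent.Lib.CLF.POW

variable {F L : Type} [Field F] [Field L] [Algebra F L]

theorem ind_iff (a b : L) : AlgebraicIndependent F ![a, b] ↔
    Transcendental F b ∧ Transcendental (adjoin F {b}) a := by
  have e : (![a, b] : Fin 2 → L) =
      (fun o : Option (Fin 1) => o.elim a ![b]) ∘ finSuccEquiv 1 := by
    funext i
    fin_cases i <;> rfl
  rw [e, algebraicIndependent_equiv, AlgebraicIndependent.option_iff,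
    algebraicIndependent_unique_type_iff, IntermediateField.transcendental_adjoin_iff]
  have h2 : Set.range (![b] : Fin 1 → L) = {b} := by simp
  rw [h2]
  rfl

theorem ind_swap (a b : L) : AlgebraicIndependent F ![a, b] ↔ AlgebraicIndependent F ![b, a] := by
  have e : (![a, b] : Fin 2 → L) = ![b, a] ∘ Equiv.swap (0 : Fin 2) 1 := by
    funext i
    fin_cases i <;> rfl
  rw [e, algebraicIndependent_equiv]

theorem ind_pow (a b : L) {p : ℕ} (hp : 1 ≤ p) :
    AlgebraicIndependent F ![a ^ p, b] ↔ AlgebraicIndependent F ![a, b] := by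
  rw [ind_iff, ind_iff]
  exact and_congr_right fun _ => ⟨fun h h' => h (h'.pow p), fun h => h.pow hp⟩

theorem rel_pow {a : L} (ha : Transcendental F a) (p : ℕ) :
    relfinrank (adjoin F {a ^ p}) (adjoin F {a}) = p := by
  let φ : RatFunc F →ₐ[F] L :=
    (adjoin F {a}).val.comp (RatFunc.algEquivOfTranscendental a ha).toAlgHom
  have hX : φ RatFunc.X = a := RatFunc.algEquivOfTranscendental_X a ha
  have h1 : adjoin F {a ^ p} = (adjoin F {(RatFunc.X : RatFunc F) ^ p}).map φ := by
    rw [adjoin_map, Set.image_singleton, map_pow, hX]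
  have h2 : adjoin F {a} = (⊤ : IntermediateField F (RatFunc F)).map φ := by
    rw [← RatFunc.adjoin_X, adjoin_map, Set.image_singleton, hX]
  rw [h1, h2, relfinrank_map_map, relfinrank_top_right, RatFunc.finrank_eq_max_natDegree]
  have h3 : (RatFunc.X : RatFunc F) ^ p =
      algebraMap (Polynomial F) (RatFunc F) (Polynomial.X ^ p) := by
    rw [map_pow, RatFunc.algebraMap_X]
  rw [h3, RatFunc.num_algebraMap, RatFunc.denom_algebraMap]
  simp

theorem rank_pow {a : L} (ha : Transcendental F a) {p : ℕ} (hp : 1 ≤ p) :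
    Module.rank (adjoin F {a ^ p}) L = p * Module.rank (adjoin F {a}) L := by
  have hle : adjoin F {a ^ p} ≤ adjoin F {a} :=
    adjoin_simple_le_iff.2 (pow_mem (mem_adjoin_simple_self F a) p)
  rw [← relrank_mul_rank_top hle]
  have h := rel_pow ha p
  rw [relfinrank_eq_toNat_relrank] at h
  rw [(Cardinal.toNat_eq_iff (by omega)).1 h]

theorem rank_two (a b : L) :
    Module.rank (adjoin F {a, b}) L = Module.rank (adjoin (adjoin F {b}) {a}) L := by
  rw [Set.pair_comm, ← adjoin_simple_adjoin_simple]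
  rfl

theorem rank_step {a b : L} (h : AlgebraicIndependent F ![a, b]) {p : ℕ} (hp : 1 ≤ p) :
    Module.rank (adjoin F {a ^ p, b}) L = p * Module.rank (adjoin F {a, b}) L := by
  rw [rank_two, rank_two, rank_pow ((ind_iff a b).1 h).2 hp]

theorem ind_pow2 (a b : L) {p q : ℕ} (hp : 1 ≤ p) (hq : 1 ≤ q) :
    AlgebraicIndependent F ![a ^ p, b ^ q] ↔ AlgebraicIndependent F ![a, b] := by
  rw [ind_pow _ _ hp, ind_swap, ind_pow _ _ hq, ind_swap]

theorem rank_pow2 {a b : L} (h : AlgebraicIndependent F ![a, b]) {p q : ℕ} (hp : 1 ≤ p)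
    (hq : 1 ≤ q) :
    Module.rank (adjoin F {a ^ p, b ^ q}) L = (p * q : ℕ) * Module.rank (adjoin F {a, b}) L := by
  have h1 : AlgebraicIndependent F ![a, b ^ q] := by
    rw [ind_swap, ind_pow _ _ hq, ind_swap]
    exact h
  rw [rank_step h1 hp, Set.pair_comm, rank_step ((ind_swap a b).1 h) hq, Set.pair_comm b a,
    Nat.cast_mul, mul_assoc]

end Pool.Agent.Lib.CLF.POW

namespace Pool.Agent.Lib.CLF

open POW

theorem bPOW : St_POW := by
  intro L _ _ a b p q hp hq hf
  refine ⟨fun h => ?_, ?_⟩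
  · have h0 := (ind_pow2 a b hp hq).1 h
    have := hf h0
    rw [FiniteDimensional, ← Module.rank_lt_aleph0_iff, rank_pow2 h0 hp hq]
    exact Cardinal.mul_lt_aleph0 (Cardinal.natCast_lt_aleph0) (Module.rank_lt_aleph0 _ _)
  · unfold dg
    by_cases h0 : AlgebraicIndependent ℂ ![a, b]
    · rw [if_pos h0, if_pos ((ind_pow2 a b hp hq).2 h0), Module.finrank, rank_pow2 h0 hp hq,
        Cardinal.toNat_mul, Cardinal.toNat_natCast, Module.finrank]
    · rw [if_neg h0, if_neg fun h => h0 ((ind_pow2 a b hp hq).1 h), mul_zero]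

end Pool.Agent.Lib.CLF
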