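import Pool.Agent.Lib.CLF.B_DEN

/-! Product rule for weak derivatives. -/

open MeasureTheory Filter Topology Set Function
open scoped ContDiff Manifold

noncomputable section

namespace Pool.Agent.Lib.CLF

namespace PR

theorem bump {K W : Set B2} (hK : IsCompact K) (hW : IsOpen W) (h : K ⊆ W) :
    ∃ ζ : B2 → ℝ, Bump W ζ ∧ ∀ z ∈ K, ζ =ᶠ[𝓝 z] fun _ => 1 := by
  obtain ⟨L, hL, h1, h2⟩ := exists_compact_between hK hW h
  obtain ⟨f, f1, f2, -⟩ := exists_contMDiffMap_one_nhds_of_subset_interior 𝓘(ℝ, B2) (n := ⊤)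
    hK.isClosed h1
  have s : tsupport f ⊆ L := closure_minimal (fun x hx => by_contra fun c => hx (f2 x c))
    hL.isClosed
  exact ⟨f, ⟨f.contMDiff.contDiff, hL.of_isClosed_subset (isClosed_tsupport _) s, s.trans h2⟩,
    fun z hz => f1.filter_mono (nhds_le_nhdsSet hz)⟩

theorem im {f g : Am → ℂ} {μ : Measure Am} (hf : MemLp f 2 μ) (hg : MemLp g 2 μ) :
    Integrable (fun p => f p * g p) μ := hf.integrable_mul hg

end PR

theorem bPR (hFR : St_FR) (hI : St_INT) (hC : St_CAL) : St_PR := by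
  intro C b U f₁ h₁ f₂ h₂ η hU l1 k1 l2 k2 w1 w2 hη
  have tD := (hC.tD C b hη).1
  obtain ⟨K, hK, sK, zK⟩ := hη.2
  obtain ⟨K', hK', sK', zK'⟩ := tD.2
  obtain ⟨ζ, hζ, one⟩ := PR.bump (hK.union hK') (C.op.inter hU) (union_subset sK sK')
  obtain ⟨F, tF, t1, t2, -⟩ := hFR C b U f₁ h₁ ζ hU l1 k1 w1 hζ
  have sz : ContDiff ℝ ∞ (cx ζ) := Complex.ofRealCLM.contDiff.comp hζ.1
  have mF : ∀ j, MemLp (F j) 2 C.mu := fun j => (hI.tst C (tF j)).2 2
  have mD : ∀ j, MemLp (C.D b (F j)) 2 C.mu := fun j => (hI.tst C (hC.tD C b (tF j)).1).2 2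
  have tz : C.Tst U fun p => cx ζ p.1 * 1 := hC.tbump C (F := fun _ => 1) ⟨sz,
    hζ.2.1.comp_left (g := Complex.ofReal) rfl,
    (tsupport_comp_subset (g := Complex.ofReal) rfl ζ).trans hζ.2.2⟩
    (hC.smb C (h := fun _ => 1) contDiff_const)
  simp only [mul_one] at tz
  have tw := (hC.tD C b tz).1
  have m1 : MemLp (fun p : Am => (ζ p.1 : ℂ) * f₁ p) 2 C.mu := by
    simpa only [mul_comm, cx] using (hI.mul C l1 l1 tz).2.2
  have m2 : MemLp (fun p : Am => (ζ p.1 : ℂ) * h₁ p + wd b (cx ζ) p.1 * f₁ p) 2 C.mu := by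
    have a := (hI.mul C k1 k1 tz).2.2
    have c := (hI.mul C l1 l1 tw).2.2
    simp only [(hC.base C b (cx ζ) _).1] at c
    exact (a.add c).ae_eq (ae_of_all _ fun p => by simp only [Pi.add_apply, mul_comm, cx])
  have a1 := (hI.mul C l2 l2 tD).2.2
  have a2 := (hI.mul C l2 l2 hη).2.2
  have a3 := (hI.mul C k2 k2 hη).2.2
  have s1 := t1.congr fun j => eLpNorm_sub_comm (F j) (fun p : Am => (ζ p.1 : ℂ) * f₁ p) 2 C.mu
  have s2 := t2.congr fun j => eLpNorm_sub_comm (C.D b (F j))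
    (fun p : Am => (ζ p.1 : ℂ) * h₁ p + wd b (cx ζ) p.1 * f₁ p) 2 C.mu
  have L := ((DEN.lim_mul a1 m1 mF s1).add (DEN.lim_mul a2 m2 mD s2)).add (DEN.lim_mul a3 m1 mF s1)
  have Z : ∀ j, ∫ p, f₂ p * C.D b η p * F j p ∂C.mu + ∫ p, f₂ p * η p * C.D b (F j) p ∂C.mu +
      ∫ p, h₂ p * η p * F j p ∂C.mu = 0 := fun j => by
    have e := w2 _ (hC.tmul C hη.1 (tF j))
    rw [← integral_add (PR.im a1 (mF j)) (PR.im a2 (mD j)), add_eq_zero_iff_eq_neg]
    simp only [mul_assoc]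
    rw [← e]
    refine integral_congr_ae ((hI.ae C).mono fun p hp => ?_)
    simp only [((hC.mul C hη.1 (tF j).1).2 b p hp).1, mul_add]
  have E := tendsto_nhds_unique L (tendsto_const_nhds.congr fun j => (Z j).symm)
  rw [← integral_add (PR.im a1 m1) (PR.im a2 m2), ← integral_add
    ((PR.im a1 m1).fun_add (PR.im a2 m2)) (PR.im a3 m1)] at E
  rw [← E]
  refine integral_congr_ae ((hI.ae C).mono fun p hp => ?_)
  by_cases h : p.1 ∈ K ∪ K'
  · have e1 : ζ p.1 = 1 := (one _ h).self_of_nhds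
    have e2 : wd b (cx ζ) p.1 = 0 := by
      have : cx ζ =ᶠ[𝓝 p.1] fun _ => 1 := (one _ h).mono fun w hw => by simp [cx, hw]
      simp [wd, this.fderiv_eq]
    simp only [e1, e2]
    push_cast
    ring
  · simp [zK p hp fun c => h (Or.inl c), zK' p hp fun c => h (Or.inr c)]

end Pool.Agent.Lib.CLF
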