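import Pool.Agent.Lib.CLF.B_BR

/-! Multiplication by a bump in one variable. -/

open MeasureTheory Filter Topology Set Function
open scoped ContDiff ENNReal ComplexConjugate

noncomputable section

namespace Pool.Agent.Lib.CLF

namespace PREP

lemma co_sm (b : Bool) : ContDiff ℂ ∞ (co b) := by
  cases b
  exacts [contDiff_snd, contDiff_fst]

lemma wd_co (hW : St_WIR) (b : Bool) (z : B2) : wd b (co b) z = 1 := by
  rw [(hW.hol b ((co_sm b).differentiable (by simp) z)).2]
  cases b
  · exact congrFun (congrArg _ (fderiv_snd (𝕜 := ℂ) (p := z))) _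
  · exact congrFun (congrArg _ (fderiv_fst (𝕜 := ℂ) (p := z))) _

end PREP

theorem bPREP (hC : St_CAL) (hW : St_WIR) (hM : St_WM) (hI : St_INT) : St_PREP := by
  intro C l M b U χ h hl hχ h01 hh hb
  have e : (cx fun p : Am => χ (co b p.1) * h p) =
      fun p => (fun z => cx (fun w => χ (co b w)) z) p.1 * cx h p :=
    funext fun p => Complex.ofReal_mul _ _
  have s1 : ContDiff ℝ ∞ (cx fun w => χ (co b w)) :=
    Complex.ofRealCLM.contDiff.comp (hχ.1.comp ((PREP.co_sm b).restrict_scalars ℝ))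
  obtain ⟨s2, s3⟩ := hC.mul C (hC.smb C s1) hh
  rw [← e] at s2 s3
  have ms : ∀ {F}, C.Sm F → AEStronglyMeasurable F C.mu := fun hF => (hI.sm C (bBR.cont C hF)).1
  have n1 : ∀ z, ‖cx (fun w => χ (co b w)) z‖ ≤ 1 := fun z =>
    (Complex.norm_of_nonneg (h01 _).1).trans_le (h01 _).2
  have n2 : ∀ p : Am, ‖χ (co b p.1) * h p‖ ≤ M := fun p => by
    rw [Real.norm_eq_abs, abs_mul, abs_of_nonneg (h01 _).1]
    exact (mul_le_of_le_one_left (abs_nonneg _) (h01 _).2).trans (hb p)
  have hM0 : 0 ≤ M := (abs_nonneg _).trans (hb 0)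
  obtain ⟨a1, -, -⟩ := hM.ac C b hl
  have a2 := fun b => (hM.ac C b hl).2.2.1
  have := (hM.fin C hl).1
  have m1 : AEStronglyMeasurable (fun p : Am => χ (co b p.1) * h p) (C.mn l) :=
    (Complex.continuous_re.comp_aestronglyMeasurable (ms s2)).mono_ac a1
  have d1 : ∀ᵐ p ∂C.mo l (!b), ‖C.D (!b) (cx fun p => χ (co b p.1) * h p) p‖ ≤
      ‖C.D (!b) (cx h) p‖ := by
    filter_upwards [(a2 _).ae_le (hI.ae C)] with p hp
    have z : wd (!b) (cx fun w => χ (co b w)) p.1 = 0 := by
      have := (hW.oth (!b) (fun x => (χ x : ℂ)) p.1).1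
      cases b <;> exact this
    rw [(s3 _ p hp).1, (hC.base C _ _ p).1, z, zero_mul, zero_add, norm_mul]
    exact mul_le_of_le_one_left (norm_nonneg _) (n1 _)
  refine ⟨⟨s2, M, fun p _ => n2 p⟩, MemLp.of_bound m1 M (Eventually.of_forall n2), ?_,
    fun H => H.of_le ((ms (hC.smD C _ s2).1).mono_ac (a2 _)) d1, eLpNorm_mono_ae d1, fun H => ?_⟩
  · refine (ENNReal.toReal_mono (by finiteness)
      (eLpNorm_le_of_ae_bound (Eventually.of_forall n2))).trans_eq ?_
    rw [ENNReal.toReal_mul, ENNReal.toReal_ofReal hM0, ← ENNReal.toReal_rpow, mul_comm,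
      Real.sqrt_eq_rpow, Measure.real]
    norm_num
  obtain ⟨K, hK⟩ := (hχ.1.continuous_fderiv (by simp)).bounded_above_of_compact_support
    (hχ.2.1.fderiv ℝ)
  have d2 : ∀ z, ‖wd b (cx fun w => χ (co b w)) z‖ ≤ ‖fderiv ℝ χ (co b z)‖ := fun z => by
    simpa only [PREP.wd_co hW, norm_one, mul_one] using hW.compH b
      ((PREP.co_sm b).differentiable (by simp) z) (hχ.1.differentiable (by simp) _)
  obtain ⟨N, hN, h1, -⟩ := hM.cpt C b hl hχ.2.1.isCompact
  have hT : MeasurableSet {p : Am | co b p.1 ∈ tsupport χ} :=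
    ((isClosed_tsupport χ).preimage ((PREP.co_sm b).continuous.comp continuous_fst)).measurableSet
  have : IsFiniteMeasure ((C.mo l b).restrict {p : Am | co b p.1 ∈ tsupport χ}) :=
    ⟨(h1 univ).trans_lt (ENNReal.mul_lt_top hN.lt_top (measure_lt_top _ _))⟩
  have m2 := (ms (hC.mul C (hC.smb C (contDiff_iff_contDiffAt.2 fun z =>
    (hW.sm b s1.contDiffAt).1)) hh).1).mono_ac (a2 b)
  have m3 : MemLp (fun p : Am => wd b (cx fun w => χ (co b w)) p.1 * cx h p) 2 (C.mo l b) := by
    refine MemLp.ae_eq (Eventually.of_forall fun p => ?_) ((memLp_indicator_iff_restrict hT).2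
      (MemLp.of_bound m2.restrict (K * M) (Eventually.of_forall fun p => ?_)))
    · refine indicator_apply_eq_self.2 fun hp => mul_eq_zero_of_left (norm_le_zero_iff.1 ?_) _
      simpa only [fderiv_of_notMem_tsupport ℝ hp, norm_zero] using d2 p.1
    · rw [norm_mul]
      exact mul_le_mul ((d2 _).trans (hK _)) ((Complex.norm_real _).trans_le (hb p))
        (norm_nonneg _) ((norm_nonneg _).trans (hK 0))
  have m4 : MemLp (fun p : Am => cx (fun w => χ (co b w)) p.1 * C.D b (cx h) p) 2 (C.mo l b) :=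
    H.of_le ((s1.continuous.comp continuous_fst).aestronglyMeasurable.mul H.1)
      (Eventually.of_forall fun p => by
        rw [norm_mul]
        exact mul_le_of_le_one_left (norm_nonneg _) (n1 _))
  refine MemLp.ae_eq ?_ (m3.add m4)
  filter_upwards [(a2 _).ae_le (hI.ae C)] with p hp
  rw [(s3 _ p hp).1, (hC.base C _ _ p).1]
  rfl

end Pool.Agent.Lib.CLF
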