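import Pool.Agent.Lib.CLF.BBlue

/-! An integral primitive element. -/

open Polynomial Module
open scoped IntermediateField nonZeroDivisors

noncomputable section

namespace Pool.Agent.Lib.CLF

namespace PRIM

theorem core (R K L : Type) [CommRing R] [IsDomain R] [IsIntegrallyClosed R] [Field K] [Field L]
    [CharZero K] [Algebra R K] [Algebra K L] [Algebra R L] [IsScalarTower R K L]
    [IsFractionRing R K] [FiniteDimensional K L] : ∃ (θ : L) (P a b : R[X]) (δ₀ : R),
      P.Monic ∧ P.natDegree = finrank K L ∧ δ₀ ≠ 0 ∧ a * P + b * P.derivative = C δ₀ ∧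
      (∀ h, aeval θ h = 0 ↔ P ∣ h) ∧
      ∀ w : L, ∃ h : R[X], ∃ δ : R, δ ≠ 0 ∧ w * algebraMap R L δ = aeval θ h := by
  have inj := IsFractionRing.injective R K
  have : Module.IsTorsionFree R L := .trans_faithfulSMul R K L
  obtain ⟨α, hα⟩ := Field.exists_primitive_element K L
  obtain ⟨y, y0, hθ⟩ := ((IsFractionRing.isAlgebraic_iff R K L).2
    (IsAlgebraic.of_finite K α)).exists_integral_multiple
  have yK : algebraMap R K y ≠ 0 := (map_ne_zero_iff _ inj).2 y0
  have hp : K⟮y • α⟯ = ⊤ := by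
    rw [eq_top_iff, ← hα, IntermediateField.adjoin_simple_le_iff]
    have := K⟮y • α⟯.smul_mem (x := (algebraMap R K y)⁻¹)
      (IntermediateField.mem_adjoin_simple_self K (y • α))
    rwa [← algebraMap_smul K y α, inv_smul_smul₀ yK, algebraMap_smul] at this
  have e := minpoly.isIntegrallyClosed_eq_field_fractions' K hθ
  have cl : ∀ p : K[X], ∃ (q : R[X]) (d : R), d ≠ 0 ∧
      q.map (algebraMap R K) = C (algebraMap R K d) * p := fun p => by
    obtain ⟨d, d0, hd⟩ := IsLocalization.integerNormalization_spec R⁰ p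
    exact ⟨_, d, nonZeroDivisors.ne_zero d0, by rw [hd, ← algebraMap_smul K, smul_eq_C_mul]⟩
  obtain ⟨a, b, hab⟩ := (separable_def _).1 (Algebra.IsSeparable.isSeparable K (y • α))
  obtain ⟨a', da, a0, ha⟩ := cl a
  obtain ⟨b', db, b0, hb⟩ := cl b
  refine ⟨y • α, minpoly R (y • α), C db * a', C da * b', da * db, minpoly.monic hθ, ?_,
    mul_ne_zero a0 b0, map_injective _ inj ?_, minpoly.isIntegrallyClosed_dvd_iff hθ, fun w => ?_⟩
  · rw [← (Field.primitive_element_iff_minpoly_natDegree_eq K _).1 hp, e,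
      (minpoly.monic hθ).natDegree_map]
  · simp only [Polynomial.map_add, Polynomial.map_mul, map_C, ha, hb, ← derivative_map, ← e,
      map_mul]
    linear_combination C (algebraMap R K da) * C (algebraMap R K db) * hab
  · have : w ∈ (K⟮y • α⟯).toSubalgebra := hp ▸ IntermediateField.mem_top
    rw [IntermediateField.adjoin_simple_toSubalgebra_of_isAlgebraic (IsAlgebraic.of_finite K _),
      Algebra.adjoin_singleton_eq_range_aeval] at this
    obtain ⟨p, rfl⟩ := this
    obtain ⟨q, d, d0, hq⟩ := cl p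
    refine ⟨q, d, d0, ?_⟩
    rw [← aeval_map_algebraMap K, hq, map_mul, aeval_C, ← IsScalarTower.algebraMap_apply, mul_comm]
    rfl

end PRIM

theorem bPRIM : St_PRIM := by
  intro L _ _ t s hi hf
  have e : Set.range ![t, s] = {t, s} := by
    simp [Matrix.range_cons, Matrix.range_empty, Set.pair_comm]
  have m : ∀ p : MvPolynomial (Fin 2) ℂ,
      MvPolynomial.aeval ![t, s] p ∈ IntermediateField.adjoin ℂ {t, s} := fun p => by
    rw [← e, IntermediateField.mem_adjoin_range_iff]
    exact ⟨p, 1, by simp⟩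
  let : Algebra (MvPolynomial (Fin 2) ℂ) L :=
    (MvPolynomial.aeval ![t, s] : MvPolynomial (Fin 2) ℂ →ₐ[ℂ] L).toRingHom.toAlgebra
  let : Algebra (MvPolynomial (Fin 2) ℂ) (IntermediateField.adjoin ℂ {t, s}) :=
    ((MvPolynomial.aeval ![t, s] : MvPolynomial (Fin 2) ℂ →ₐ[ℂ] L).toRingHom.codRestrict _
      m).toAlgebra
  have : IsScalarTower (MvPolynomial (Fin 2) ℂ) (IntermediateField.adjoin ℂ {t, s}) L :=
    IsScalarTower.of_algebraMap_eq fun _ => rfl
  have : FaithfulSMul (MvPolynomial (Fin 2) ℂ) (IntermediateField.adjoin ℂ {t, s}) :=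
    (faithfulSMul_iff_algebraMap_injective _ _).2 fun a b h => hi (congrArg Subtype.val h)
  have : IsFractionRing (MvPolynomial (Fin 2) ℂ) (IntermediateField.adjoin ℂ {t, s}) :=
    IsFractionRing.of_field _ _ fun z => by
      obtain ⟨r, q, h⟩ := (IntermediateField.mem_adjoin_range_iff ℂ ![t, s] z.1).1
        (by rw [e]; exact z.2)
      exact ⟨r, q, Subtype.ext h⟩
  exact PRIM.core (MvPolynomial (Fin 2) ℂ) (IntermediateField.adjoin ℂ {t, s}) L

end Pool.Agent.Lib.CLF
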