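import Pool.Agent.Lib.CLF.BBlue

/-! Translation of a polynomial in two variables. -/

open MvPolynomial

noncomputable section

namespace Pool.Agent.Lib.CLF

namespace PSH

/-- Polynomials of degree below `n`. -/
def V (n : ℕ) : Submodule ℝ (MvPolynomial (Fin 2) ℝ) where
  carrier := {q | ∀ m : Fin 2 →₀ ℕ, n ≤ m 0 + m 1 → q.coeff m = 0}
  add_mem' := fun ha hb m hm => by rw [coeff_add, ha m hm, hb m hm, add_zero]
  zero_mem' := fun m _ => coeff_zero m
  smul_mem' := fun c q hq m hm => by rw [coeff_smul, hq m hm, smul_zero]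

theorem V_mono {n n' : ℕ} (h : n ≤ n') {q} (hq : q ∈ V n) : q ∈ V n' :=
  fun m hm => hq m (h.trans hm)

theorem V_X {n : ℕ} (i : Fin 2) {q} (hq : q ∈ V (n - 1)) : X i * q ∈ V n := by
  intro m hm
  rw [coeff_X_mul']
  split_ifs with h
  · apply hq
    fin_cases i <;> simp [Finsupp.tsub_apply] <;> omega
  · rfl

theorem V_C {n : ℕ} (r : ℝ) {q} (hq : q ∈ V n) : C r * q ∈ V n := by
  rw [← smul_eq_C_mul]
  exact (V n).smul_mem r hq

theorem V_deg {k : ℕ} {q} (hq : q ∈ V (k + 1)) : q.totalDegree ≤ k := by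
  refine Finset.sup_le fun m hm => ?_
  rw [Finsupp.sum_fintype _ _ fun _ => rfl, Fin.sum_univ_two]
  by_contra h
  exact mem_support_iff.1 hm (hq m (by omega))

variable (c : Fin 2 → ℝ)

/-- The translation. -/
def T : MvPolynomial (Fin 2) ℝ →ₐ[ℝ] MvPolynomial (Fin 2) ℝ := aeval fun i => X i - C (c i)

/-- The directional derivative. -/
def D (q : MvPolynomial (Fin 2) ℝ) : MvPolynomial (Fin 2) ℝ :=
  C (c 0) * pderiv 0 q + C (c 1) * pderiv 1 q

/-- The Taylor estimates. -/
def G (n : ℕ) (u : MvPolynomial (Fin 2) ℝ) : Prop :=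
  u ∈ V (n + 1) ∧ u - T c u ∈ V n ∧ u - T c u - D c u ∈ V (n - 1)

theorem G_C (r : ℝ) : G c 0 (C r) := by
  refine ⟨fun m hm => ?_, ?_, ?_⟩
  · rw [coeff_C, if_neg]
    rintro rfl
    simp at hm
  · simp [T]
  · simp [T, D]

theorem G_X {n : ℕ} (i : Fin 2) {u} (h : G c n u) : G c (n + 1) (X i * u) := by
  have hT : T c (X i * u) = (X i - C (c i)) * T c u := by simp [T]
  have hD : D c (X i * u) = C (c i) * u + X i * D c u := by
    fin_cases i <;> simp [D, Derivation.leibniz, pderiv_X] <;> ring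
  refine ⟨V_X i h.1, ?_, ?_⟩
  · have e : X i * u - T c (X i * u) = X i * (u - T c u) + C (c i) * (u - (u - T c u)) := by
      rw [hT]
      ring
    rw [e]
    exact (V _).add_mem (V_X i h.2.1)
      (V_C _ ((V _).sub_mem h.1 (V_mono (Nat.le_succ n) h.2.1)))
  · have e : X i * u - T c (X i * u) - D c (X i * u) =
        X i * (u - T c u - D c u) - C (c i) * (u - T c u) := by
      rw [hT, hD]
      ring
    rw [e]
    exact (V _).sub_mem (V_X i h.2.2) (V_C _ h.2.1)

theorem G_pow {n : ℕ} (i : Fin 2) {u} (h : G c n u) (a : ℕ) : G c (n + a) (X i ^ a * u) := by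
  induction a with
  | zero => simpa using h
  | succ a ih =>
    rw [pow_succ', mul_assoc]
    exact G_X c i ih

theorem G_mono {n n' : ℕ} (hn : n ≤ n') {u} (h : G c n u) : G c n' u :=
  ⟨V_mono (by omega) h.1, V_mono hn h.2.1, V_mono (by omega) h.2.2⟩

theorem G_zero (n : ℕ) : G c n 0 := by
  have h := G_mono c (Nat.zero_le n) (G_C c 0)
  rwa [C_0] at h

theorem G_add {n : ℕ} {u v} (hu : G c n u) (hv : G c n v) : G c n (u + v) := by
  refine ⟨(V _).add_mem hu.1 hv.1, ?_, ?_⟩
  · have e : u + v - T c (u + v) = (u - T c u) + (v - T c v) := by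
      rw [map_add]
      ring
    rw [e]
    exact (V _).add_mem hu.2.1 hv.2.1
  · have e : u + v - T c (u + v) - D c (u + v) = (u - T c u - D c u) + (v - T c v - D c v) := by
      simp only [D, map_add]
      ring
    rw [e]
    exact (V _).add_mem hu.2.2 hv.2.2

theorem G_all {n : ℕ} {q : MvPolynomial (Fin 2) ℝ} (hq : q.totalDegree ≤ n) : G c n q := by
  rw [q.as_sum]
  refine Finset.sum_induction _ (G c n) (fun _ _ => G_add c) (G_zero c n) fun m hm => ?_
  have h1 := (le_totalDegree hm).trans hq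
  rw [Finsupp.sum_fintype _ _ fun _ => rfl, Fin.sum_univ_two] at h1
  have e : monomial m (q.coeff m) = X 0 ^ m 0 * (X 1 ^ m 1 * C (q.coeff m)) := by
    rw [monomial_eq, Finsupp.prod_fintype _ _ fun _ => pow_zero _, Fin.prod_univ_two]
    ring
  rw [e]
  exact G_mono c (by omega) (G_pow c 0 (G_pow c 1 (G_C c _) (m 1)) (m 0))

theorem eval_T (x : Fin 2 → ℝ) (q : MvPolynomial (Fin 2) ℝ) :
    eval x (T c q) = eval (fun i => x i - c i) q := by
  induction q using MvPolynomial.induction_on with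
  | C a => simp [T]
  | add p q hp hq => simp only [map_add, hp, hq]
  | mul_X p i hp =>
    rw [map_mul, map_mul, hp]
    simp [T]

end PSH

open PSH in
theorem bPSH : St_PSH := by
  intro q k d e hq
  obtain ⟨-, h1, h2⟩ := G_all ![d, e] hq
  refine ⟨q - T ![d, e] q, V_deg h1, fun s t => ?_, fun a b hab => ?_⟩
  · rw [map_sub, eval_T]
    congr 3
    funext i
    fin_cases i <;> rfl
  · have h3 := h2 (Finsupp.single 0 a + Finsupp.single 1 b) (by simp; omega)
    rw [coeff_sub, sub_eq_zero] at h3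
    have e1 : (Finsupp.single 0 a + Finsupp.single 1 b : Fin 2 →₀ ℕ) + Finsupp.single 0 1 =
        Finsupp.single 0 (a + 1) + Finsupp.single 1 b := by
      rw [Finsupp.single_add]
      abel
    have e2 : (Finsupp.single 0 a + Finsupp.single 1 b : Fin 2 →₀ ℕ) + Finsupp.single 1 1 =
        Finsupp.single 0 a + Finsupp.single 1 (b + 1) := by
      rw [Finsupp.single_add]
      abel
    rw [h3, D, coeff_add, coeff_C_mul, coeff_C_mul, coeff_pderiv, coeff_pderiv, e1, e2]
    simp
    ring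

end Pool.Agent.Lib.CLF
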