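import Pool.Agent.Lib.CLF.BBlue

/-! Row PSUM: summation of polynomial differences. -/

open MvPolynomial Filter

noncomputable section

namespace Pool.Agent.Lib.CLF

namespace PSUM

lemma ber (n : ℕ) : ∃ B : Polynomial ℝ, ∀ x : ℝ, B.eval (x + 1) - B.eval x = x ^ n := by
  refine ⟨Polynomial.C (1 / (n + 1 : ℝ)) * (Polynomial.bernoulli (n + 1)).map (algebraMap ℚ ℝ),
    fun x => ?_⟩
  have h := congrArg (Polynomial.aeval x) (Polynomial.bernoulli_comp_one_add_X (n + 1))
  simp only [Polynomial.aeval_comp, map_add, map_one, Polynomial.aeval_X, map_nsmul, map_pow,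
    Nat.add_sub_cancel, nsmul_eq_mul, map_mul, map_natCast] at h
  simp only [Polynomial.eval_mul, Polynomial.eval_C, Polynomial.eval_map_algebraMap]
  rw [add_comm x, h]
  push_cast
  field_simp
  ring

/-- Antidifference in the first variable. -/
lemma anti (q : MvPolynomial (Fin 2) ℝ) : ∃ Q : MvPolynomial (Fin 2) ℝ, ∀ s t : ℝ,
    eval ![s + 1, t] Q - eval ![s, t] Q = eval ![s, t] q := by
  induction q using MvPolynomial.induction_on' with
  | monomial u a =>
    obtain ⟨B, hB⟩ := ber (u 0)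
    refine ⟨C a * Polynomial.aeval (X 0) B * X 1 ^ u 1, fun s t => ?_⟩
    have e : ∀ s : ℝ, eval ![s, t] (Polynomial.aeval (X 0 : MvPolynomial (Fin 2) ℝ) B) =
        B.eval s := fun s => by
      have := Polynomial.aeval_algHom_apply (aeval ![s, t] : MvPolynomial (Fin 2) ℝ →ₐ[ℝ] ℝ)
        (X 0) B
      simpa [aeval_eq_eval] using this.symm
    simp only [map_mul, eval_C, e, map_pow, eval_X, eval_monomial, Finsupp.prod_fintype, pow_zero,
      implies_true, Fin.prod_univ_two, Matrix.cons_val_zero, Matrix.cons_val_one, ← hB]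
    ring
  | add p q hp hq =>
    obtain ⟨P, hP⟩ := hp
    obtain ⟨Q, hQ⟩ := hq
    exact ⟨P + Q, fun s t => by simp only [map_add, ← hP, ← hQ]; ring⟩

lemma sub (q : MvPolynomial (Fin 2) ℝ) (f : Fin 2 → MvPolynomial (Fin 2) ℝ) (x : Fin 2 → ℝ) :
    eval x (bind₁ f q) = eval ![eval x (f 0), eval x (f 1)] q := by
  induction q using MvPolynomial.induction_on with
  | C a => simp
  | add p q hp hq => simp only [map_add, hp, hq]
  | mul_X p i hp =>
    simp only [map_mul, hp, bind₁_X_right, eval_X]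
    fin_cases i <;> rfl

end PSUM

open PSUM in
theorem bPSUM : St_PSUM := by
  intro h q₁ q₂ h1 h2
  obtain ⟨⟨N, M⟩, H⟩ := eventually_atTop.1 (h1.and h2)
  obtain ⟨Q₁, e1⟩ := anti q₁
  obtain ⟨Q₂, e2⟩ := anti (bind₁ ![C (N : ℝ), X 0] q₂)
  refine ⟨C (h (N, M) - eval ![(M : ℝ), 0] Q₂) + bind₁ ![X 1, 0] Q₂ + Q₁ -
    bind₁ ![C (N : ℝ), X 1] Q₁, eventually_atTop.2 ⟨(N, M), ?_⟩⟩
  rintro ⟨a, b⟩ ⟨ha, hb⟩
  dsimp only at ha hb
  simp only [map_sub, map_add, eval_C, sub, Matrix.cons_val_zero, Matrix.cons_val_one, eval_X,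
    map_zero] at e2 ⊢
  have s2 : h (N, b) = h (N, M) - eval ![(M : ℝ), 0] Q₂ + eval ![(b : ℝ), 0] Q₂ := by
    induction b, hb using Nat.le_induction with
    | base => ring
    | succ b hb ih =>
      have := (H (N, b) ⟨le_rfl, hb⟩).2
      have := e2 b 0
      push_cast at *
      linarith
  induction a, ha using Nat.le_induction with
  | base => linarith
  | succ a ha ih =>
    have := (H (a, b) ⟨ha, hb⟩).1
    have := e1 a b
    push_cast at *
    linarith

end Pool.Agent.Lib.CLF
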