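import Pool.Agent.Lib.CLF.BBlue

/-! Pullbacks of forms by a product of maps. -/

open MvPolynomial Pool.Agent.Lib.MP_08f962_ag

noncomputable section

namespace Pool.Agent.Lib.CLF

namespace PULL

variable {n m : ℕ}

theorem ren_left {p : ℕ} {f : MvPolynomial (Fin (n + 1)) ℂ} (hf : f.IsHomogeneous p) :
    (rename Sum.inl f : S n m) ∈ Forms n m (p, 0) := by
  intro d hd
  obtain ⟨u, rfl, hu⟩ := coeff_rename_ne_zero _ _ _ hd
  have h1 : Finsupp.weight (fun _ => 1) u = p := hf hu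
  rw [Finsupp.weight_apply, Finsupp.sum_fintype _ _ (by simp)] at h1
  rw [weight_wt]
  simp only [smul_eq_mul, mul_one] at h1
  simp [Finsupp.mapDomain_apply Sum.inl_injective, Finsupp.mapDomain_of_notMem_range, h1]

theorem ren_right {q : ℕ} {f : MvPolynomial (Fin (m + 1)) ℂ} (hf : f.IsHomogeneous q) :
    (rename Sum.inr f : S n m) ∈ Forms n m (0, q) := by
  intro d hd
  obtain ⟨u, rfl, hu⟩ := coeff_rename_ne_zero _ _ _ hd
  have h1 : Finsupp.weight (fun _ => 1) u = q := hf hu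
  rw [Finsupp.weight_apply, Finsupp.sum_fintype _ _ (by simp)] at h1
  rw [weight_wt]
  simp only [smul_eq_mul, mul_one] at h1
  simp [Finsupp.mapDomain_apply Sum.inr_injective, Finsupp.mapDomain_of_notMem_range, h1]

theorem form {p q u v : ℕ} {φ : Fin (n + 1) → MvPolynomial (Fin (n + 1)) ℂ}
    {ψ : Fin (m + 1) → MvPolynomial (Fin (m + 1)) ℂ} {G : S n m}
    (hφ : ∀ i, (φ i).IsHomogeneous p) (hψ : ∀ j, (ψ j).IsHomogeneous q)
    (hG : G ∈ Forms n m (u, v)) : pull φ ψ G ∈ Forms n m (p * u, q * v) := by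
  refine forms_ind (Q := fun G => pull φ ψ G ∈ Forms n m (p * u, q * v)) (by simp)
    (fun f g hf hg => by rw [map_add]; exact add_mem hf hg) (fun α c hα => ?_) hG
  rw [weight_wt, Prod.mk.injEq] at hα
  rw [pull, aeval_monomial, Finsupp.prod_fintype _ _ (by simp), Fintype.prod_sum_type]
  have h1 : IsWeightedHomogeneous (wt n m)
      (∏ i, (rename Sum.inl (φ i) : S n m) ^ α (.inl i)) (∑ i, α (.inl i) • (p, 0)) :=
    IsWeightedHomogeneous.prod _ _ _ fun i _ => pow_mem_forms (ren_left (hφ i)) _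
  have h2 : IsWeightedHomogeneous (wt n m)
      (∏ j, (rename Sum.inr (ψ j) : S n m) ^ α (.inr j)) (∑ j, α (.inr j) • (0, q)) :=
    IsWeightedHomogeneous.prod _ _ _ fun j _ => pow_mem_forms (ren_right (hψ j)) _
  have h3 := (h1.mul h2).C_mul c
  rw [← Finset.sum_smul, ← Finset.sum_smul, hα.1, hα.2] at h3
  have h4 : u • (p, 0) + v • (0, q) = (p * u, q * v) := by simp [mul_comm]
  rw [h4] at h3
  exact h3

theorem val (φ : Fin (n + 1) → MvPolynomial (Fin (n + 1)) ℂ)
    (ψ : Fin (m + 1) → MvPolynomial (Fin (m + 1)) ℂ) (G : S n m) {L : Type} [CommRing L]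
    [Algebra ℂ L] (x : Fin (n + 1) → L) (y : Fin (m + 1) → L) :
    pt x y (pull φ ψ G) = pt (fun i => aeval x (φ i)) (fun j => aeval y (ψ j)) G := by
  have h : (pt x y).comp (pull φ ψ) = pt (fun i => aeval x (φ i)) (fun j => aeval y (ψ j)) := by
    apply MvPolynomial.algHom_ext
    rintro (i | j) <;> simp [pt, pull, aeval_rename]
  exact congrArg (fun F : S n m →ₐ[ℂ] L => F G) h

theorem scale {u v : ℕ} {G : S n m} {L : Type} [CommRing L] [Algebra ℂ L] (x : Fin (n + 1) → L)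
    (y : Fin (m + 1) → L) (a b : L) (hG : G ∈ Forms n m (u, v)) :
    pt (a • x) (b • y) G = a ^ u * b ^ v * pt x y G := by
  refine forms_ind (Q := fun G => pt (a • x) (b • y) G = a ^ u * b ^ v * pt x y G) (by simp)
    (fun f g hf hg => by rw [map_add, map_add, hf, hg, mul_add]) (fun α c hα => ?_) hG
  rw [weight_wt, Prod.mk.injEq] at hα
  simp only [pt, aeval_monomial]
  rw [Finsupp.prod_fintype _ _ (by simp), Finsupp.prod_fintype _ _ (by simp),
    Fintype.prod_sum_type, Fintype.prod_sum_type]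
  simp only [Sum.elim_inl, Sum.elim_inr, Pi.smul_apply, smul_eq_mul, mul_pow,
    Finset.prod_mul_distrib, Finset.prod_pow_eq_pow_sum, hα.1, hα.2]
  ring

end PULL

theorem bPULL : St_PULL where
  form := PULL.form
  root := by
    intro n m p q u v φ ψ G L _ _ n' m' ξ η hφ hψ hG hn hm h
    obtain ⟨ε, hε, h1⟩ := hφ.2 L n' ξ hn
    obtain ⟨ε', hε', h2⟩ := hψ.2 L m' η hm
    have e1 : (fun i => aeval (cf n ξ) (φ i)) = ε • cf n fun i => ξ i ^ p := funext h1
    have e2 : (fun j => aeval (cf m η) (ψ j)) = ε' • cf m fun j => η j ^ q := funext h2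
    rw [PULL.val, e1, e2, PULL.scale _ _ _ _ hG] at h
    exact (mul_eq_zero.mp h).resolve_left (mul_ne_zero (pow_ne_zero _ hε) (pow_ne_zero _ hε'))
  val := fun G => PULL.val _ _ G
  scale := PULL.scale

end Pool.Agent.Lib.CLF
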