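import Pool.Agent.Lib.CLF.B_DEN

/-! The equation of the resolvent in the sense of distributions. -/

open MeasureTheory Filter Topology Set Function
open scoped ContDiff ComplexConjugate

noncomputable section

namespace Pool.Agent.Lib.CLF

namespace RC

theorem one (hMW : St_MW) (hC : St_CAL) (hW : St_WM) {C : Cv} {l : ℝ} {b : Bool} {g u : Am → ℝ}
    {u' : Am → ℂ} (hl : 0 < l) (hR : C.Res l b g u u') {ψ : Am → ℝ} (hψ : C.Tst univ (cx ψ)) :
    ∫ p, ((u p - g p : ℝ) : ℂ) * cx ψ p ∂C.mn l + ∫ p, u' p * C.Db b (cx ψ) p ∂C.mo l b = 0 := by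
  have h1 := hR.2.2 ψ hψ
  have h2 := (hMW C l b u u' hl hR.2.1).2.2 ψ hψ
  have i : Integrable (fun p => u' p * conj (C.D b (cx ψ) p)) (C.mo l b) :=
    hR.2.1.2.1.integrable_mul (DEN.mem_conj (hW.tst C b hl (hC.tD C b hψ).1).2)
  have h3 := Complex.reCLM.integral_comp_comm i
  simp only [Complex.reCLM_apply] at h3
  simp only [hC.real, cx, ← Complex.ofReal_mul, integral_complex_ofReal]
  refine Complex.ext ?_ ?_
  · rw [Complex.add_re, Complex.ofReal_re, Complex.zero_re, ← h1, h3]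
  · rw [Complex.add_im, Complex.ofReal_im, Complex.zero_im, zero_add]
    exact h2

theorem two (hMW : St_MW) (hC : St_CAL) (hW : St_WM) (hI : St_INT) {C : Cv} {l : ℝ} {b : Bool}
    {g u : Am → ℝ} {u' : Am → ℂ} (hl : 0 < l) (hR : C.Res l b g u u') {φ : Am → ℂ}
    (hφ : C.Tst univ φ) :
    ∫ p, ((u p - g p : ℝ) : ℂ) * φ p ∂C.mn l + ∫ p, u' p * C.Db b φ p ∂C.mo l b = 0 := by
  obtain ⟨-, t1, t2⟩ := hC.tstar C hφ
  have e1 := one hMW hC hW hl hR t1
  have e2 := one hMW hC hW hl hR t2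
  have sI : C.Sm fun _ => Complex.I := hC.smb C (h := fun _ => Complex.I) contDiff_const
  have mu : MemLp (fun p => ((u p - g p : ℝ) : ℂ)) 2 (C.mn l) := (hR.2.1.1.sub hR.1).ofReal
  have i1 : ∀ {F}, C.Tst univ F → Integrable (fun p => ((u p - g p : ℝ) : ℂ) * F p) (C.mn l) :=
    fun h => mu.integrable_mul (hW.tst C b hl h).1
  have i2 : ∀ {F}, C.Tst univ F → Integrable (fun p => u' p * C.Db b F p) (C.mo l b) :=
    fun h => hR.2.1.2.1.integrable_mul (hW.tst C b hl (hC.tD C b h).2).2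
  have e : φ = fun p => cx (fun p => (φ p).re) p + Complex.I * cx (fun p => (φ p).im) p :=
    funext fun p => by simp only [cx]; rw [mul_comm, Complex.re_add_im]
  have a1 : ∫ p, ((u p - g p : ℝ) : ℂ) * φ p ∂C.mn l =
      ∫ p, ((u p - g p : ℝ) : ℂ) * cx (fun p => (φ p).re) p ∂C.mn l +
        Complex.I * ∫ p, ((u p - g p : ℝ) : ℂ) * cx (fun p => (φ p).im) p ∂C.mn l := by
    rw [← integral_const_mul, ← integral_add (i1 t1) ((i1 t2).const_mul _)]
    refine integral_congr_ae (ae_of_all _ fun p => ?_)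
    have := congrFun e p
    simp only at this ⊢
    rw [this]; simp only [cx, Complex.add_re, Complex.add_im, Complex.mul_re, Complex.mul_im]
    simp; ring
  have a2 : ∫ p, u' p * C.Db b φ p ∂C.mo l b =
      ∫ p, u' p * C.Db b (cx fun p => (φ p).re) p ∂C.mo l b +
        Complex.I * ∫ p, u' p * C.Db b (cx fun p => (φ p).im) p ∂C.mo l b := by
    rw [← integral_const_mul, ← integral_add (i2 t1) ((i2 t2).const_mul _)]
    refine integral_congr_ae (Eventually.mono ((hW.ac C b hl).2.2.1.ae_le (hI.ae C)) fun p hp => ?_)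
    have m := hC.mul C sI t2.1
    have d := ((hC.add C t1.1 m.1).2 b p hp).2
    have z : C.Db b (fun _ => Complex.I) p = 0 := by
      rw [(hC.base C b (fun _ => Complex.I) p).2]; simp [wb]
    rw [← e, (m.2 b p hp).2, z] at d
    simp only [d]; ring
  rw [a1, a2]
  linear_combination e1 + Complex.I * e2

end RC

theorem bRC (hMW : St_MW) (hC : St_CAL) (hW : St_WM) (hI : St_INT) (hWIR : St_WIR) : St_RC := by
  intro C l b g u u' hl hR
  obtain ⟨r1, r2, -⟩ := hW.pos hl
  have rn : ∀ z, (rho l z : ℂ) ≠ 0 := fun z => Complex.ofReal_ne_zero.2 (r1 z).1.ne'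
  have so : ContDiff ℝ ∞ (ot b) := by cases b; exacts [contDiff_fst, contDiff_snd]
  have sh : ContDiff ℝ ∞ fun z => ((rho l (ot b z) : ℂ))⁻¹ :=
    (Complex.ofRealCLM.contDiff.comp (r2.comp so)).inv fun z => rn _
  have A : C.WB b univ u' fun p => (rho l (co b p.1) * (u p - g p) : ℝ) := fun χ hχ => by
    have s := hC.smb C sh
    have e := RC.two hMW hC hW hI hl hR (hC.tmul C s hχ)
    rw [(hW.intn C _ hl).1, (hW.into C b _ hl).1, add_comm, add_eq_zero_iff_eq_neg] at e
    refine Eq.trans ?_ (e.trans ?_)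
    · refine integral_congr_ae ((hI.ae C).mono fun p hp => ?_)
      have := rn (ot b p.1)
      simp only [((hC.mul C s hχ.1).2 b p hp).2,
        (hC.base C b (fun z => ((rho l (ot b z) : ℂ))⁻¹) p).2,
        (hWIR.oth b (fun x => ((rho l x : ℂ))⁻¹) p.1).2]
      field_simp
      ring
    · congr 1
      refine integral_congr_ae (ae_of_all _ fun p => ?_)
      have h1 := rn p.1.1
      have h2 := rn p.1.2
      cases b <;> simp only [co, ot] <;> push_cast <;> field_simp
  refine ⟨A, fun χ hχ => ?_⟩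
  have e := congrArg conj (A _ (hC.tstar C hχ).1)
  rw [map_neg, ← integral_conj, ← integral_conj] at e
  simpa only [map_mul, ((hC.star C χ).2 b _).2, Complex.conj_conj, Complex.conj_ofReal] using e

end Pool.Agent.Lib.CLF
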