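import Pool.Agent.Lib.CLF.ABlue

/-! Regularity of the resolvent in the transverse direction. -/

open MeasureTheory Filter Topology Set Function
open scoped ContDiff ENNReal ComplexConjugate

noncomputable section

namespace Pool.Agent.Lib.CLF

namespace REG

theorem tr_mono {m : Measure Am} {τ : Am → Am} {ε ε' : ℝ} (h : Tr m τ ε) (he : ε ≤ ε') :
    Tr m τ ε' := by
  obtain ⟨h1, j, h2, h3, h4⟩ := h
  exact ⟨h1, j, h2, fun p => (h3 p).trans he, h4⟩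

theorem nrm_smul {E : Type} [NormedAddCommGroup E] [NormedSpace ℝ E] {μ : Measure Am}
    {f : Am → E} {l c : ℝ} {N : ℝ≥0∞} (hl : 0 < l)
    (h : eLpNorm f 2 μ ≤ ENNReal.ofReal l * N) (hc : c = l⁻¹) :
    eLpNorm (fun p => c • f p) 2 μ ≤ N := by
  have e : (fun p => c • f p) = c • f := rfl
  rw [e, eLpNorm_const_smul, hc, Real.enorm_eq_ofReal (inv_pos.2 hl).le]
  refine (mul_le_mul_right h _).trans ?_
  rw [← mul_assoc, ← ENNReal.ofReal_mul (inv_pos.2 hl).le, inv_mul_cancel₀ hl.ne']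
  simp

/-- The difference quotients along a motion are bounded. -/
theorem quot (hTR1 : St_TR1) (hTR2 : St_TR2) (hGD : St_GD) (hDQ1 : St_DQ1) (hM : St_MEM)
    {C : Cv} {x : ℝ} {g u : Am → ℝ} {u' : Am → ℂ} {U : Set ℂ} {a : B2 → ℂ} {e : ℂ}
    (m : Mo C.Ω U a e) (L : Li C m) (hx : 0 < x) (hg : C.G0 x g) (hr : C.Res x false g u u') :
    ∃ N : ℝ≥0∞, N ≠ ⊤ ∧ ∀ᶠ l in 𝓝[>] (0 : ℝ), ∃ f', C.Mem x false
      (fun p => (u (L.τ l p) - u p) / l) f' ∧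
      eLpNorm (fun p => (u (L.τ l p) - u p) / l) 2 (C.mn x) ≤ N ∧
      eLpNorm f' 2 (C.mo x false) ≤ N := by
  obtain ⟨c, hc, htr⟩ := hTR1 C U a e m L x hx
  obtain ⟨c', hgd⟩ := hGD C U a e m L x g hx hg
  set N0 := eLpNorm g 2 (C.mn x) + eLpNorm u 2 (C.mn x) + eLpNorm u' 2 (C.mo x false) with hN0
  have hN : N0 ≠ ⊤ := by
    have := hr.1.2.ne
    have := hr.2.1.1.2.ne
    have := hr.2.1.2.1.2.ne
    finiteness
  have hM0 := m.nn
  refine ⟨2 * ENNReal.ofReal (max c' 0) + 100 * ENNReal.ofReal (c + m.M) * N0, by finiteness, ?_⟩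
  have e1 : ∀ᶠ l in 𝓝[>] (0 : ℝ), (c + m.M) * l ≤ 1 / 8 := by
    have : Tendsto (fun l : ℝ => (c + m.M) * l) (𝓝 0) (𝓝 ((c + m.M) * 0)) :=
      (continuous_const.mul continuous_id).tendsto 0
    exact nhdsWithin_le_nhds (this.eventually (ge_mem_nhds (by norm_num)))
  filter_upwards [hgd, e1, Ioc_mem_nhdsGT m.pos] with l h1 h2 h3
  have hl := h3.1
  have hI : l ∈ Icc 0 m.l0 := ⟨hl.le, h3.2⟩
  obtain ⟨⟨A, B, hA, hB, hAB, hF⟩, hT, hχ⟩ := hTR2 C U a e m L l hI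
  have i1 : c * l ≤ (c + m.M) * l := by nlinarith
  have i2 : m.M * l ≤ (c + m.M) * l := by nlinarith
  obtain ⟨d', hd, hn⟩ := hDQ1 C x ((c + m.M) * l) (max c' 0 * l) (L.τ l) A B g u u' hx
    (by positivity) h2 (by positivity) (tr_mono (htr l hI).2.1 i1) (tr_mono (htr l hI).2.2 i1)
    hA hB (fun z => ⟨(hAB z).1.trans i2, (hAB z).2.trans i2⟩)
    (fun F h => ⟨hT F h, (hF F h.1).2⟩) hχ hr
    (h1.trans (ENNReal.ofReal_le_ofReal (by gcongr; exact le_max_left _ _)))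
  have hn' := hn.trans (le_of_eq (b := ENNReal.ofReal l * (2 * ENNReal.ofReal (max c' 0) +
    100 * ENNReal.ofReal (c + m.M) * N0)) (by
      rw [ENNReal.ofReal_mul (le_max_right _ _), ENNReal.ofReal_mul (by positivity)]
      ring))
  refine ⟨fun p => l⁻¹ • d' p, ?_, ?_, nrm_smul hl (le_add_self.trans hn') rfl⟩
  · refine hM.congr C hx (hM.lin C l⁻¹ 0 hx hd hd) (Eventually.of_forall fun p => ?_)
      (Eventually.of_forall fun p => ?_)
    · show l⁻¹ * (u (L.τ l p) - u p) + 0 * (u (L.τ l p) - u p) = (u (L.τ l p) - u p) / l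
      rw [div_eq_inv_mul, zero_mul, add_zero]
    · show (l⁻¹ : ℝ) * d' p + (0 : ℝ) * d' p = l⁻¹ • d' p
      rw [Complex.ofReal_zero, zero_mul, add_zero, Complex.real_smul]
  · have e : (fun p => (u (L.τ l p) - u p) / l) = fun p => l⁻¹ • (u (L.τ l p) - u p) :=
      funext fun p => by rw [div_eq_inv_mul, smul_eq_mul]
    rw [e]
    exact nrm_smul hl (le_self_add.trans hn') rfl

/-- The weak limit of the difference quotients. -/
theorem lim (hLI : St_LIFT) (hTR1 : St_TR1) (hTR2 : St_TR2) (hGD : St_GD) (hDQ1 : St_DQ1)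
    (hID : St_ID) (hWL : St_WL) (hM : St_MEM) (hW : St_WM) (hC : St_CAL)
    {C : Cv} {x : ℝ} {g u : Am → ℝ} {u' : Am → ℂ} {U : Set ℂ} {a : B2 → ℂ} {e : ℂ}
    (m : Mo C.Ω U a e) (hx : 0 < x) (ha : ContDiff ℝ ∞ a) (hg : C.G0 x g)
    (hr : C.Res x false g u u') :
    ∃ φ φ', C.Mem x false φ φ' ∧ ∀ χ, C.Tst (Prod.fst ⁻¹' U) χ → ∫ p, φ p * χ p ∂C.mu =
      -(e * ∫ p, u p * C.D true χ p ∂C.mu) - conj e * ∫ p, u p * C.Db true χ p ∂C.mu +
      (e * ∫ p, a p.1 * u' p * χ p ∂C.mu + conj e * ∫ p, conj (a p.1 * u' p) * χ p ∂C.mu) := by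
  obtain ⟨L⟩ := hLI C U a e m
  obtain ⟨N, hN, hev⟩ := quot hTR1 hTR2 hGD hDQ1 hM m L hx hg hr
  obtain ⟨s, hs, hp⟩ := exists_seq_forall_of_frequently hev.frequently
  choose f' hf using hp
  obtain ⟨φ, φ', hφ, hlim⟩ := hWL C x false _ f' N hx hN hf
  refine ⟨φ, φ', hφ, fun χ hχ => ?_⟩
  have r0 : ∀ z, (rho x z : ℂ) ≠ 0 := fun z => Complex.ofReal_ne_zero.2 ((hW.pos hx).1 z).1.ne'
  have c : ContDiff ℝ ∞ fun z => (rho x z : ℂ)⁻¹ :=
    (Complex.ofRealCLM.contDiff.comp (hW.pos hx).2.1).inv r0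
  have t1 := hC.tmul C (hC.smb C (h := fun z => (rho x z.1 : ℂ)⁻¹ * (rho x z.2 : ℂ)⁻¹)
    ((c.comp contDiff_fst).mul (c.comp contDiff_snd))) hχ
  have ee : ∀ k : Am → ℝ, ∫ p, k p * ((rho x p.1.1 : ℂ)⁻¹ * (rho x p.1.2 : ℂ)⁻¹ * χ p) ∂C.mn x =
      ∫ p, k p * χ p ∂C.mu := fun k => by
    rw [(hW.intn C _ hx).1]
    refine integral_congr_ae (Eventually.of_forall fun p => ?_)
    have := r0 p.1.1
    have := r0 p.1.2
    push_cast
    field_simp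
  rw [← ee]
  refine hlim _ _ (hW.tst C false hx t1).1 ?_
  simp only [ee]
  exact (hID C U a e m L x u u' χ hx ha hr.2.1 hχ).comp hs

end REG

open REG in
theorem bREG (hPHI : St_PHI) (hLI : St_LIFT) (hTR1 : St_TR1) (hTR2 : St_TR2) (hGD : St_GD)
    (hDQ1 : St_DQ1) (hID : St_ID) (hWL : St_WL) (hM : St_MEM) (hW : St_WM) (hI : St_INT)
    (hC : St_CAL) : St_REG := by
  intro C l g u u' t hl hmot ht hg hr
  obtain ⟨U, a, hU, htU, hF, hm⟩ := hPHI C.Ω t hmot ht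
  obtain ⟨m1⟩ := hm 1 (by simp)
  obtain ⟨m2⟩ := hm Complex.I (by simp)
  obtain ⟨φ, φ', hφ, h1⟩ := lim hLI hTR1 hTR2 hGD hDQ1 hID hWL hM hW hC m1 hl hF.1 hg hr
  obtain ⟨ψ, ψ', hψ, h2⟩ := lim hLI hTR1 hTR2 hGD hDQ1 hID hWL hM hW hC m2 hl hF.1 hg hr
  refine ⟨U, a, _, _, hU, htU, hF, ⟨_, _, _, _, hM.lin C (1 / 2) 0 hl hφ hφ,
    hM.lin C (1 / 2) 0 hl hψ hψ, fun _ => rfl, fun _ => rfl⟩, fun χ hχ => ?_⟩
  have l1 : C.Loc (cx φ) := (hW.loc C false hl).1 hφ.1.ofReal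
  have l2 : C.Loc (cx ψ) := (hW.loc C false hl).1 hψ.1.ofReal
  have l3 : C.Loc u' := ((hW.loc C false hl).2 hr.2.1.2.1).1
  have l4 : C.Loc fun p => a p.1 := hI.sm C (hF.1.continuous.comp continuous_fst).continuousOn
  have i1 : Integrable (fun p => (φ p : ℂ) * χ p) C.mu := (hI.mul C l1 l1 hχ).1
  have i2 : Integrable (fun p => (ψ p : ℂ) * χ p) C.mu := (hI.mul C l2 l2 hχ).1
  have i3 := (hI.mul C l4 l3 hχ).2.1
  have e : ∀ p, (conj (((1 / 2 * φ p + 0 * φ p : ℝ) : ℂ) +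
      Complex.I * ((1 / 2 * ψ p + 0 * ψ p : ℝ) : ℂ)) - a p.1 * u' p) * χ p =
      (1 / 2 * (φ p * χ p) - Complex.I / 2 * (ψ p * χ p)) - a p.1 * u' p * χ p := fun p => by
    simp only [map_add, map_mul, Complex.conj_ofReal, Complex.conj_I]
    push_cast
    ring
  have i4 : Integrable (fun p => 1 / 2 * ((φ p : ℂ) * χ p) - Complex.I / 2 * (ψ p * χ p)) C.mu :=
    (i1.const_mul _).sub (i2.const_mul _)
  simp only [e, cx]
  rw [integral_sub i4 i3,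
    integral_sub (i1.const_mul _) (i2.const_mul _), integral_const_mul, integral_const_mul,
    h1 χ hχ, h2 χ hχ, Complex.conj_I, map_one]
  linear_combination (-(∫ p, u p * C.D true χ p ∂C.mu) + (∫ p, u p * C.Db true χ p ∂C.mu) +
    (∫ p, a p.1 * u' p * χ p ∂C.mu) - ∫ p, conj (a p.1 * u' p) * χ p ∂C.mu) / (-2) *
    Complex.I_mul_I

end Pool.Agent.Lib.CLF
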