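import Pool.Agent.Lib.CLF.ABlue

/-! Existence of the resolvent: orthogonal projection on the closed space of members. -/

open MeasureTheory Filter Topology Set Function
open scoped ContDiff ENNReal ComplexConjugate

noncomputable section

namespace Pool.Agent.Lib.CLF

namespace RES

variable (C : Cv) (l : ℝ) (b : Bool)

/-- The ambient real Hilbert space of pairs. -/
abbrev E : Type := WithLp 2 (Lp ℝ 2 (C.mn l) × Lp ℂ 2 (C.mo l b))

variable {C l b}

/-- The pair attached to two square integrable functions. -/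
def pr {f : Am → ℝ} {f' : Am → ℂ} (hf : MemLp f 2 (C.mn l)) (hf' : MemLp f' 2 (C.mo l b)) :
    E C l b := WithLp.toLp 2 (hf.toLp f, hf'.toLp f')

theorem pr_fst {f : Am → ℝ} {f' : Am → ℂ} (hf : MemLp f 2 (C.mn l))
    (hf' : MemLp f' 2 (C.mo l b)) : (pr hf hf').fst =ᵐ[C.mn l] f := hf.coeFn_toLp

theorem pr_snd {f : Am → ℝ} {f' : Am → ℂ} (hf : MemLp f 2 (C.mn l))
    (hf' : MemLp f' 2 (C.mo l b)) : (pr hf hf').snd =ᵐ[C.mo l b] f' := hf'.coeFn_toLp

theorem inner_eq (x y : E C l b) : inner ℝ x y =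
    ∫ p, y.fst p * x.fst p ∂C.mn l + ∫ p, (y.snd p * conj (x.snd p)).re ∂C.mo l b := by
  rw [WithLp.prod_inner_apply, L2.inner_def, L2.inner_def]
  congr 1

theorem norm_le (x : E C l b) : ‖x‖ ≤ ‖x.fst‖ + ‖x.snd‖ := by
  have h := WithLp.prod_norm_sq_eq_of_L2 x
  have h1 := norm_nonneg x.fst
  have h2 := norm_nonneg x.snd
  refine abs_le_of_sq_le_sq' ?_ (by positivity) |>.2
  rw [h]
  nlinarith [mul_nonneg h1 h2]

theorem congr' (hM : St_MEM) (hW : St_WM) (hl : 0 < l) {f g : Am → ℝ} {f' g' : Am → ℂ}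
    (h : C.Mem l b f f') (h1 : f =ᵐ[C.mn l] g) (h2 : f' =ᵐ[C.mo l b] g') : C.Mem l b g g' :=
  hM.congr C hl h ((hW.ac C b hl).2.1.ae_eq h1) ((hW.ac C b hl).2.2.2.1.ae_eq h2)

/-- The members form a subspace. -/
def H (hM : St_MEM) (hW : St_WM) (C : Cv) {l : ℝ} (b : Bool) (hl : 0 < l)
    (h0 : C.Mem l b (fun _ => 0) fun _ => 0) : Submodule ℝ (E C l b) where
  carrier := {x | C.Mem l b x.fst x.snd}
  add_mem' := by
    intro x y hx hy
    refine congr' hM hW hl (hM.lin C 1 1 hl hx hy) ?_ ?_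
    · filter_upwards [Lp.coeFn_add x.fst y.fst] with p hp
      change _ = (x.fst + y.fst : Lp ℝ 2 (C.mn l)) p
      rw [hp]; simp
    · filter_upwards [Lp.coeFn_add x.snd y.snd] with p hp
      change _ = (x.snd + y.snd : Lp ℂ 2 (C.mo l b)) p
      rw [hp]; simp
  zero_mem' := congr' hM hW hl h0 (Lp.coeFn_zero ℝ 2 (C.mn l)).symm
    (Lp.coeFn_zero ℂ 2 (C.mo l b)).symm
  smul_mem' := by
    intro c x hx
    refine congr' hM hW hl (hM.lin C c 0 hl hx hx) ?_ ?_
    · filter_upwards [Lp.coeFn_smul c x.fst] with p hp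
      change _ = (c • x.fst : Lp ℝ 2 (C.mn l)) p
      rw [hp]; simp
    · filter_upwards [Lp.coeFn_smul c x.snd] with p hp
      change _ = (c • x.snd : Lp ℂ 2 (C.mo l b)) p
      rw [hp]; simp

theorem tst_zero (C : Cv) : C.Tst univ (cx fun _ => (0 : ℝ)) := by
  refine ⟨fun p _ => ?_, ∅, isCompact_empty, empty_subset _, fun p _ _ => by simp [cx]⟩
  have : C.dn (cx fun _ => (0 : ℝ)) p = fun _ => 0 := by
    funext w; simp [Cv.dn, cx]
  rw [this]
  exact contDiffAt_const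

theorem mem_zero (hM : St_MEM) (C : Cv) {l : ℝ} (b : Bool) (hl : 0 < l) :
    C.Mem l b (fun _ => 0) fun _ => 0 := by
  have h := hM.tst C b hl (tst_zero C)
  simpa using hM.lin C 0 0 hl h h

/-- The space of members. -/
def HH (hM : St_MEM) (hW : St_WM) (C : Cv) {l : ℝ} (b : Bool) (hl : 0 < l) :
    Submodule ℝ (E C l b) := H hM hW C b hl (mem_zero hM C b hl)

theorem mem_HH (hM : St_MEM) (hW : St_WM) (hl : 0 < l) {x : E C l b} :
    x ∈ HH hM hW C b hl ↔ C.Mem l b x.fst x.snd := Iff.rfl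

theorem pr_mem (hM : St_MEM) (hW : St_WM) (hl : 0 < l) {f : Am → ℝ} {f' : Am → ℂ}
    (h : C.Mem l b f f') : pr h.1 h.2.1 ∈ HH hM hW C b hl :=
  congr' hM hW hl h (pr_fst h.1 h.2.1).symm (pr_snd h.1 h.2.1).symm

theorem tend {α F : Type} [MeasurableSpace α] {μ : Measure α} [NormedAddCommGroup F]
    {x : ℕ → Lp F 2 μ} {y : Lp F 2 μ} (h : Tendsto x atTop (𝓝 y)) :
    Tendsto (fun j => eLpNorm ((y : α → F) - (x j : α → F)) 2 μ) atTop (𝓝 0) := by
  have h1 := (Lp.tendsto_Lp_iff_tendsto_eLpNorm' x y).1 h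
  refine h1.congr fun j => ?_
  rw [← eLpNorm_neg, neg_sub]

theorem closed (hM : St_MEM) (hW : St_WM) (hl : 0 < l) :
    IsClosed (HH hM hW C b hl : Set (E C l b)) := by
  refine isSeqClosed_iff_isClosed.1 fun x y hx hy => ?_
  have h1 : Tendsto (fun j => (x j).fst) atTop (𝓝 y.fst) :=
    ((WithLp.continuous_fst 2 _ _).tendsto y).comp hy
  have h2 : Tendsto (fun j => (x j).snd) atTop (𝓝 y.snd) :=
    ((WithLp.continuous_snd 2 _ _).tendsto y).comp hy
  exact hM.closed C hl (g := fun j => (x j).fst) (g' := fun j => (x j).snd) hx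
    (Lp.memLp _) (Lp.memLp _) (tend h1) (tend h2)

theorem proj (hM : St_MEM) (hW : St_WM) (hl : 0 < l) :
    (HH hM hW C b hl).HasOrthogonalProjection :=
  haveI : CompleteSpace (HH hM hW C b hl) := (closed hM hW hl).completeSpace_coe
  inferInstance

end RES

open RES in
theorem bRES (hM : St_MEM) (hW : St_WM) : St_RES := by
  intro C l b g hl hg
  have hz : MemLp (fun _ : Am => (0 : ℂ)) 2 (C.mo l b) := MemLp.zero
  obtain ⟨x, hx, ho⟩ := (proj (C := C) (b := b) hM hW hl).exists_orthogonal (pr hg hz)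
  refine ⟨x.fst, x.snd, hg, hx, fun ψ hψ => ?_⟩
  have hm := hM.tst C b hl hψ
  have h0 := (Submodule.mem_orthogonal _ _).1 ho _ (pr_mem hM hW hl hm)
  rw [inner_eq] at h0
  have e1 : ∫ p, (pr hg hz - x).fst p * (pr hm.1 hm.2.1).fst p ∂C.mn l =
      -∫ p, (x.fst p - g p) * ψ p ∂C.mn l := by
    rw [← integral_neg]
    refine integral_congr_ae ?_
    filter_upwards [Lp.coeFn_sub (pr hg hz).fst x.fst, pr_fst hg hz, pr_fst hm.1 hm.2.1]
      with p h1 h2 h3
    change ((pr hg hz).fst - x.fst : Lp ℝ 2 (C.mn l)) p * _ = _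
    rw [h1, Pi.sub_apply, h2, h3]; ring
  have e2 : ∫ p, ((pr hg hz - x).snd p * conj ((pr hm.1 hm.2.1).snd p)).re ∂C.mo l b =
      -∫ p, (x.snd p * conj (C.D b (cx ψ) p)).re ∂C.mo l b := by
    rw [← integral_neg]
    refine integral_congr_ae ?_
    filter_upwards [Lp.coeFn_sub (pr hg hz).snd x.snd, pr_snd hg hz, pr_snd hm.1 hm.2.1]
      with p h1 h2 h3
    change (((pr hg hz).snd - x.snd : Lp ℂ 2 (C.mo l b)) p * _).re = _
    rw [h1, Pi.sub_apply, h2, h3]; simp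
  rw [e1, e2] at h0
  linarith

end Pool.Agent.Lib.CLF
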