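import Pool.Agent.Lib.CLF.ABlue

/-! Formal properties of the resolvent. -/

open MeasureTheory Filter Topology Set Function
open scoped ContDiff ENNReal ComplexConjugate

noncomputable section

namespace Pool.Agent.Lib.CLF

namespace RP

variable {X : Type} [MeasurableSpace X] {μ : Measure X}

theorem mem_conj {f : X → ℂ} (hf : MemLp f 2 μ) : MemLp (fun p => conj (f p)) 2 μ :=
  Complex.conjCLE.toContinuousLinearMap.comp_memLp' hf

theorem int_re {f g : X → ℂ} (hf : MemLp f 2 μ) (hg : MemLp g 2 μ) :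
    Integrable (fun p => (f p * conj (g p)).re) μ :=
  (hf.integrable_mul (mem_conj hg)).re

theorem le_of_sq {E F : Type} [NormedAddCommGroup E] [NormedAddCommGroup F] {ν : Measure X}
    {f : X → E} {g : X → F} (hf : MemLp f 2 μ) (hg : MemLp g 2 ν)
    (h : ∫ p, ‖f p‖ ^ 2 ∂μ ≤ ∫ p, ‖g p‖ ^ 2 ∂ν) : eLpNorm f 2 μ ≤ eLpNorm g 2 ν := by
  rw [hf.eLpNorm_eq_integral_rpow_norm two_ne_zero ENNReal.ofNat_ne_top,
    hg.eLpNorm_eq_integral_rpow_norm two_ne_zero ENNReal.ofNat_ne_top]
  simp only [ENNReal.toReal_ofNat, Real.rpow_two]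
  exact ENNReal.ofReal_le_ofReal (Real.rpow_le_rpow (integral_nonneg fun _ => by positivity) h
    (by norm_num))

theorem eq (hD : St_DEN) (C : Cv) {l b g u u' ψ ψ'} (hl : 0 < l) (h : C.Res l b g u u')
    (hψ : C.Mem l b ψ ψ') :
    ∫ p, (u p - g p) * ψ p ∂C.mn l + ∫ p, (u' p * conj (ψ' p)).re ∂C.mo l b = 0 := by
  have key : ∀ (φ : Am → ℝ) (φ' : Am → ℂ), ∫ p, ((u p - g p : ℝ) : ℂ) * φ p ∂C.mn l +
      ∫ p, (conj (u' p) / 2 * φ' p + u' p / 2 * conj (φ' p)) ∂C.mo l b =
      ((∫ p, (u p - g p) * φ p ∂C.mn l + ∫ p, (u' p * conj (φ' p)).re ∂C.mo l b : ℝ) : ℂ) := by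
    intro φ φ'
    rw [Complex.ofReal_add, ← integral_complex_ofReal, ← integral_complex_ofReal]
    congr 2
    · funext p
      push_cast
      rfl
    · funext p
      rw [Complex.re_eq_add_conj, map_mul, Complex.conj_conj]
      ring
  have h1 := hD C l b (fun p => ((u p - g p : ℝ) : ℂ)) (fun p => conj (u' p) / 2)
    (fun p => u' p / 2) hl (h.2.1.1.sub h.1).ofReal
    (by simpa only [div_eq_mul_inv] using (mem_conj h.2.1.2.1).mul_const (2 : ℂ)⁻¹)
    (by simpa only [div_eq_mul_inv] using h.2.1.2.1.mul_const (2 : ℂ)⁻¹)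
    (fun φ hφ => by rw [key, h.2.2 φ hφ, Complex.ofReal_zero]) ψ ψ' hψ
  rw [key] at h1
  exact_mod_cast h1

end RP

open RP in
theorem bRP (hD : St_DEN) (hM : St_MEM) : St_RP where
  eq C _ _ _ _ _ _ _ hl h hψ := RP.eq hD C hl h hψ
  lin := by
    intro C l b g u u' h v v' x y hl h1 h2
    refine ⟨(h1.1.const_mul x).add (h2.1.const_mul y), hM.lin C x y hl h1.2.1 h2.2.1,
      fun ψ hψ => ?_⟩
    have h3 := hM.tst C b hl hψ
    have a1 : Integrable (fun p => (u p - g p) * ψ p) (C.mn l) :=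
      (h1.2.1.1.sub h1.1).integrable_mul h3.1
    have a2 : Integrable (fun p => (v p - h p) * ψ p) (C.mn l) :=
      (h2.2.1.1.sub h2.1).integrable_mul h3.1
    have e1 : ∫ p, (x * u p + y * v p - (x * g p + y * h p)) * ψ p ∂C.mn l =
        x * ∫ p, (u p - g p) * ψ p ∂C.mn l + y * ∫ p, (v p - h p) * ψ p ∂C.mn l := by
      rw [← integral_const_mul, ← integral_const_mul,
        ← integral_add (a1.const_mul x) (a2.const_mul y)]
      congr 1
      funext p
      ring
    have e2 : ∫ p, ((x * u' p + y * v' p) * conj (C.D b (cx ψ) p)).re ∂C.mo l b =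
        x * ∫ p, (u' p * conj (C.D b (cx ψ) p)).re ∂C.mo l b +
          y * ∫ p, (v' p * conj (C.D b (cx ψ) p)).re ∂C.mo l b := by
      rw [← integral_const_mul, ← integral_const_mul,
        ← integral_add ((int_re h1.2.1.2.1 h3.2.1).const_mul x)
          ((int_re h2.2.1.2.1 h3.2.1).const_mul y)]
      congr 1
      funext p
      rw [add_mul, mul_assoc, mul_assoc, Complex.add_re, Complex.re_ofReal_mul,
        Complex.re_ofReal_mul]
    rw [e1, e2]
    linear_combination x * h1.2.2 ψ hψ + y * h2.2.2 ψ hψ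
  sa := by
    intro C l b g u u' h v v' hl h1 h2
    have e1 := RP.eq hD C hl h1 h2.2.1
    have e2 := RP.eq hD C hl h2 h1.2.1
    have e3 : ∫ p, (v' p * conj (u' p)).re ∂C.mo l b = ∫ p, (u' p * conj (v' p)).re ∂C.mo l b := by
      congr 1
      funext p
      simp [mul_comm]
    have a1 : Integrable (fun p => u p * v p) (C.mn l) := h1.2.1.1.integrable_mul h2.2.1.1
    have a2 : Integrable (fun p => g p * v p) (C.mn l) := h1.1.integrable_mul h2.2.1.1
    have a3 : Integrable (fun p => u p * h p) (C.mn l) := h1.2.1.1.integrable_mul h2.1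
    have e4 : ∫ p, (v p - h p) * u p ∂C.mn l =
        ∫ p, u p * v p ∂C.mn l - ∫ p, u p * h p ∂C.mn l := by
      rw [← integral_sub a1 a3]
      congr 1
      funext p
      ring
    simp only [sub_mul, integral_sub a1 a2] at e1
    rw [e4] at e2
    linarith
  near := by
    intro C l b g g' u u' hl h1 h2
    have e1 := RP.eq hD C hl h1 (hM.lin C 1 (-1) hl h1.2.1 h2)
    have a0 : MemLp (fun p => ((1 : ℝ) : ℂ) * u' p + ((-1 : ℝ) : ℂ) * g' p) 2 (C.mo l b) :=
      (h1.2.1.2.1.const_mul _).add (h2.2.1.const_mul _)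
    have a1 := int_re h1.2.1.2.1 a0
    have a2 : Integrable (fun p => ‖g' p‖ ^ 2) (C.mo l b) := h2.2.1.integrable_norm_pow two_ne_zero
    refine le_of_sq (h1.2.1.1.sub h2.1) h2.2.1 ?_
    have e2 : ∫ p, ‖(u - g) p‖ ^ 2 ∂C.mn l = ∫ p, (u p - g p) * (1 * u p + -1 * g p) ∂C.mn l := by
      congr 1
      funext p
      rw [Real.norm_eq_abs, sq_abs, Pi.sub_apply]
      ring
    have e3 := integral_mono a1.neg a2 fun p => by
      simp only [Pi.neg_apply, Complex.sq_norm, Complex.normSq_apply]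
      simp
      nlinarith [sq_nonneg ((u' p).re - (g' p).re), sq_nonneg ((u' p).im - (g' p).im),
        sq_nonneg (u' p).re, sq_nonneg (u' p).im, sq_nonneg (g' p).re, sq_nonneg (g' p).im]
    simp only [Pi.neg_apply, integral_neg] at e3
    linarith

end Pool.Agent.Lib.CLF
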