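import Pool.Agent.Lib.CLF.BBlue

/-! The field of roots. -/

open MvPolynomial Filter Function Pool.Agent.Lib.MP_08f962_ag

noncomputable section

namespace Pool.Agent.Lib.CLF

namespace RT

theorem exists_roots {Ω : Type} [Field Ω] [IsAlgClosed Ω] {n : ℕ} (x : Fin (n + 1) → Ω)
    (hx : x ≠ 0) : ∃ (k : ℕ) (ξ : Fin k → Ω) (a : Ω), k ≤ n ∧ a ≠ 0 ∧ x = a • cf n ξ := by
  classical
  obtain ⟨p, hp⟩ : ∃ p, p = Polynomial.ofFn (n + 1) x := ⟨_, rfl⟩
  have hc (r : Fin (n + 1)) : p.coeff r = x r := by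
    rw [hp, Polynomial.ofFn_coeff_eq_val_of_lt x r.2]
  have h0 : p ≠ 0 := fun h => hx (funext fun r => by rw [← hc, h]; rfl)
  have hd : p.natDegree ≤ n :=
    Nat.lt_succ_iff.1 (hp ▸ Polynomial.ofFn_natDegree_lt (Nat.succ_pos n) x)
  refine ⟨p.roots.toList.length, p.roots.toList.get, p.leadingCoeff, ?_,
    Polynomial.leadingCoeff_ne_zero.2 h0, funext fun r => ?_⟩
  · rw [Multiset.length_toList]
    exact (Polynomial.card_roots' p).trans hd
  · have h1 := (IsAlgClosed.splits p).eq_prod_roots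
    have h2 : (p.roots.map fun a => Polynomial.X - Polynomial.C a).prod
        = ∏ i, (Polynomial.X - Polynomial.C (p.roots.toList.get i)) := by
      rw [← Multiset.prod_map_toList, ← List.prod_ofFn]
      congr 1
      conv_lhs => rw [← List.ofFn_get p.roots.toList, List.map_ofFn]
      rfl
    rw [← hc, Pi.smul_apply, cf, ← h2, smul_eq_mul, ← Polynomial.coeff_C_mul, ← h1]

theorem map_cf {L Ω : Type} [CommRing L] [CommRing Ω] (φ : L →+* Ω) (n : ℕ) {k : ℕ}
    (ξ : Fin k → L) (r : Fin (n + 1)) : φ (cf n ξ r) = cf n (fun i => φ (ξ i)) r := by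
  rw [cf, cf, ← Polynomial.coeff_map, Polynomial.map_prod]
  simp

end RT

theorem bRT (hPULL : St_PULL) : St_RT := by
  intro n m P hP _ ⟨i, hi⟩ ⟨j, hj⟩
  let Ω := AlgebraicClosure (FractionRing (S n m ⧸ P))
  let π : S n m →ₐ[ℂ] Ω := (IsScalarTower.toAlgHom ℂ (FractionRing (S n m ⧸ P)) Ω).comp
    ((IsScalarTower.toAlgHom ℂ (S n m ⧸ P) (FractionRing (S n m ⧸ P))).comp
      (Ideal.Quotient.mkₐ ℂ P))
  have hπ (f : S n m) : π f = 0 ↔ f ∈ P := by
    simp only [π, AlgHom.comp_apply, IsScalarTower.toAlgHom_apply, map_eq_zero,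
      IsFractionRing.to_map_eq_zero_iff, Ideal.Quotient.mkₐ_eq_mk, Ideal.Quotient.eq_zero_iff_mem]
  obtain ⟨k, ξ, a, hk, ha, hx⟩ := RT.exists_roots (fun r => π (X (Sum.inl r)))
    fun h => hi ((hπ _).1 (congrFun h i))
  obtain ⟨l, η, b, hl, hb, hy⟩ := RT.exists_roots (fun r => π (X (Sum.inr r)))
    fun h => hj ((hπ _).1 (congrFun h j))
  let L := IntermediateField.adjoin ℂ (Set.range (Sum.elim ξ η))
  have hm (v) : Sum.elim ξ η v ∈ L := IntermediateField.subset_adjoin _ _ ⟨v, rfl⟩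
  refine ⟨L, inferInstance, inferInstance, k, l, fun r => ⟨ξ r, hm (.inl r)⟩,
    fun r => ⟨η r, hm (.inr r)⟩, hk, hl, fun p f hf => ?_, ?_⟩
  · have h1 : π = pt (a • cf n ξ) (b • cf m η) := by
      rw [← hx, ← hy]
      ext (v | v) <;> simp [pt]
    have h2 : L.val.comp (pt (cf n fun r => (⟨ξ r, hm (.inl r)⟩ : L))
        (cf m fun r => (⟨η r, hm (.inr r)⟩ : L))) = pt (cf n ξ) (cf m η) := by
      ext (v | v)
      · simpa [pt] using RT.map_cf L.val.toRingHom n (fun r => (⟨ξ r, hm (.inl r)⟩ : L)) v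
      · simpa [pt] using RT.map_cf L.val.toRingHom m (fun r => (⟨η r, hm (.inr r)⟩ : L)) v
    rw [← hπ, h1, hPULL.scale _ _ a b (u := p.1) (v := p.2) hf, ← h2, AlgHom.comp_apply]
    simp [ha, hb]
  · apply IntermediateField.lift_injective
    rw [IntermediateField.lift_adjoin, IntermediateField.lift_top, ← Set.range_comp]
    congr 2
    ext (v | v) <;> rfl

end Pool.Agent.Lib.CLF
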