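import Pool.Agent.Lib.CLF.BBlue

/-! Analytic dependence of simple roots. -/

open Filter Topology Set Function
open scoped ContDiff

noncomputable section

namespace Pool.Agent.Lib.CLF

namespace RT0

theorem roots_eq {N : ℕ} {q : Polynomial ℂ} (hq : q ≠ 0) (hN : q.natDegree ≤ N) {r : Fin N → ℂ}
    (hr : Injective r) (h0 : ∀ k, q.eval (r k) = 0) :
    q.roots = (Finset.univ.map ⟨r, hr⟩).val := by
  refine Polynomial.roots_eq_of_natDegree_le_card_of_ne_zero ?_ (by simpa using hN) hq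
  intro x hx
  obtain ⟨k, -, rfl⟩ := Finset.mem_map.1 hx
  exact h0 k

theorem root_iff {N : ℕ} {q : Polynomial ℂ} (hq : q ≠ 0) (hN : q.natDegree ≤ N) {r : Fin N → ℂ}
    (hr : Injective r) (h0 : ∀ k, q.eval (r k) = 0) (x : ℂ) : q.eval x = 0 ↔ x ∈ range r := by
  constructor
  · intro hx
    have h1 : x ∈ q.roots := (Polynomial.mem_roots hq).2 hx
    rw [roots_eq hq hN hr h0] at h1
    have h2 : x ∈ Finset.univ.map (⟨r, hr⟩ : Fin N ↪ ℂ) := h1
    obtain ⟨k, -, hk⟩ := Finset.mem_map.1 h2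
    exact ⟨k, hk⟩
  · rintro ⟨k, rfl⟩
    exact h0 k

theorem deriv_ne {N : ℕ} {q : Polynomial ℂ} (hq : q ≠ 0) (hN : q.natDegree ≤ N) {r : Fin N → ℂ}
    (hr : Injective r) (h0 : ∀ k, q.eval (r k) = 0) (k : Fin N) :
    q.derivative.eval (r k) ≠ 0 := by
  intro h
  have h1 : 1 < q.rootMultiplicity (r k) :=
    (Polynomial.one_lt_rootMultiplicity_iff_isRoot hq).2 ⟨h0 k, h⟩
  rw [← Polynomial.count_roots, roots_eq hq hN hr h0] at h1
  exact absurd (Multiset.nodup_iff_count_le_one.1 (Finset.univ.map ⟨r, hr⟩).nodup (r k))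
    (not_le.2 h1)

theorem one {X : Type} [NormedAddCommGroup X] [NormedSpace ℂ X] [CompleteSpace X] {N : ℕ}
    {p : X → Polynomial ℂ} {z : X} {x : ℂ} (hN : ∀ w, (p w).natDegree ≤ N)
    (ha : ∀ j, AnalyticAt ℂ (fun w => (p w).coeff j) z) (h0 : (p z).eval x = 0)
    (h1 : (p z).derivative.eval x ≠ 0) :
    ∃ b : X → ℂ, AnalyticAt ℂ b z ∧ b z = x ∧ ∀ᶠ w in 𝓝 z, (p w).eval (b w) = 0 := by
  let f : X × ℂ → ℂ := fun u => (p u.1).eval u.2
  have hf : f = fun u => ∑ j ∈ Finset.range (N + 1), (p u.1).coeff j * u.2 ^ j := by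
    funext u
    exact Polynomial.eval_eq_sum_range' (Nat.lt_succ_of_le (hN u.1)) _
  have han : AnalyticAt ℂ f (z, x) := by
    rw [hf]
    refine Finset.analyticAt_fun_sum _ fun j _ => AnalyticAt.mul ?_ (analyticAt_snd.pow j)
    exact AnalyticAt.comp (g := fun w => (p w).coeff j) (f := Prod.fst) (x := (z, x)) (ha j)
      analyticAt_fst
  have hcd : ContDiffAt ℂ ω f (z, x) := han.contDiffAt
  have hD : fderiv ℂ f (z, x) ∘L ContinuousLinearMap.inr ℂ X ℂ =
      ContinuousLinearMap.toSpanSingleton ℂ ((p z).derivative.eval x) := by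
    have e1 : HasFDerivAt (f ∘ fun y : ℂ => (z, y))
        (fderiv ℂ f (z, x) ∘L ContinuousLinearMap.inr ℂ X ℂ) x :=
      HasFDerivAt.comp x han.differentiableAt.hasFDerivAt (hasFDerivAt_prodMk_right z x)
    have e2 : HasFDerivAt (f ∘ fun y : ℂ => (z, y))
        (ContinuousLinearMap.toSpanSingleton ℂ ((p z).derivative.eval x)) x :=
      ((p z).hasDerivAt x).hasFDerivAt
    exact e1.unique e2
  have hinv : (fderiv ℂ f (z, x) ∘L ContinuousLinearMap.inr ℂ X ℂ).IsInvertible := by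
    rw [hD]
    refine ⟨ContinuousLinearEquiv.unitsEquivAut ℂ (Units.mk0 _ h1), ?_⟩
    ext
    simp
  refine ⟨hcd.implicitFunction (by simp) hinv, ?_, hcd.implicitFunction_apply_self (by simp) hinv,
    ?_⟩
  · exact (hcd.contDiffAt_implicitFunction (by simp) hinv).analyticAt
  · filter_upwards [hcd.eventually_apply_implicitFunction (by simp) hinv] with w hw
    exact hw.trans h0

end RT0

open RT0 in
theorem bRT0 : St_RT0 := by
  intro X _ _ _ N p z r hN ha hc hr h0
  have hq : p z ≠ 0 := fun h => hc (by simp [h])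
  choose b hb hb0 hb1 using fun k => one hN ha (h0 k) (deriv_ne hq (hN z) hr h0 k)
  refine ⟨b, fun k => ⟨hb k, hb0 k⟩, ?_⟩
  have e1 : ∀ᶠ w in 𝓝 z, ∀ k, (p w).eval (b k w) = 0 := eventually_all.2 hb1
  have e2 : ∀ᶠ w in 𝓝 z, (p w).coeff N ≠ 0 := (ha N).continuousAt.eventually_ne hc
  have e3 : ∀ᶠ w in 𝓝 z, ∀ k l, k ≠ l → b k w ≠ b l w := by
    refine eventually_all.2 fun k => eventually_all.2 fun l => ?_
    by_cases hkl : k = l
    · exact Eventually.of_forall fun w h => absurd hkl h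
    · have h1 : b k z - b l z ≠ 0 := by
        rw [hb0, hb0]
        exact sub_ne_zero.2 fun h => hkl (hr h)
      filter_upwards [((hb k).continuousAt.sub (hb l).continuousAt).eventually_ne h1] with w hw _
      exact sub_ne_zero.1 hw
  filter_upwards [e1, e2, e3] with w h1 h2 h3
  have hi : Injective fun k => b k w := fun k l h => by_contra fun hkl => h3 k l hkl h
  exact ⟨hi, root_iff (fun h => h2 (by simp [h])) (hN w) hi h1⟩

end Pool.Agent.Lib.CLF
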