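import Pool.Agent.Lib.CLF.BBlue

/-! Compactness: the kernel is not small on large grids. -/

open Filter Topology Set Function Pool.Agent.Lib.MP_08f962_ag

noncomputable section

namespace Pool.Agent.Lib.CLF

namespace SEP

theorem cpt (n k : ℕ) : IsCompact (Slab n k ∩ Metric.sphere 0 1) := by
  have h : IsCompact ((Metric.sphere (0 : Fin (n + 1) → ℂ) 1 ×ˢ
      Metric.closedBall (4 * k : ℂ) (3 / 2)) ∩ {p | ∑ r, p.1 r * p.2 ^ (r : ℕ) = 0}) :=
    ((isCompact_sphere _ _).prod (isCompact_closedBall _ _)).inter_right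
      (isClosed_eq (by fun_prop) continuous_const)
  convert h.image continuous_fst using 1
  ext x
  constructor
  · rintro ⟨⟨-, t, ht, h0⟩, hx⟩
    exact ⟨(x, t), ⟨⟨hx, ht⟩, h0⟩, rfl⟩
  · rintro ⟨⟨y, t⟩, ⟨⟨hx, ht⟩, h0⟩, rfl⟩
    refine ⟨⟨?_, t, ht, h0⟩, hx⟩
    rintro rfl
    simp at hx

theorem nrm {n k : ℕ} {x : Fin (n + 1) → ℂ} (hx : x ∈ Slab n k) :
    ∃ c : ℂ, c ≠ 0 ∧ c • x ∈ Slab n k ∩ Metric.sphere 0 1 := by
  obtain ⟨h0, t, ht, h⟩ := hx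
  have hn : ‖x‖ ≠ 0 := norm_ne_zero_iff.2 h0
  have hc : ((‖x‖⁻¹ : ℝ) : ℂ) ≠ 0 := by simpa using h0
  refine ⟨_, hc, ⟨smul_ne_zero hc h0, t, ht, ?_⟩, ?_⟩
  · simp only [Pi.smul_apply, smul_eq_mul, mul_assoc]
    rw [← Finset.mul_sum, h, mul_zero]
  · simp [norm_smul, hn]

end SEP

open SEP in
theorem bSEP (hW : St_WDEC) (hH : St_HYP) : St_SEP := by
  intro n m u v G hG hN
  obtain ⟨r, f, g, hR, hfg⟩ := hW n m u v G hG
  set N := max (n * u) (m * v)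
  set T : Set ((Fin (N + 1) → Fin (n + 1) → ℂ) × (Fin (N + 1) → Fin (m + 1) → ℂ)) :=
    (univ.pi fun i : Fin (N + 1) => Slab n i ∩ Metric.sphere 0 1) ×ˢ
      (univ.pi fun i : Fin (N + 1) => Slab m i ∩ Metric.sphere 0 1)
  have hT : IsCompact T :=
    (isCompact_univ_pi fun i => cpt n _).prod (isCompact_univ_pi fun i => cpt m _)
  have hc : ContinuousOn (fun p : (Fin (N + 1) → Fin (n + 1) → ℂ) ×
      (Fin (N + 1) → Fin (m + 1) → ℂ) => ∑ i, ∑ j, ∑ k, f k (p.1 i) * g k (p.2 j)) T := by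
    refine continuousOn_finsetSum _ fun i _ => continuousOn_finsetSum _ fun j _ =>
      continuousOn_finsetSum _ fun k _ => ContinuousOn.mul ?_ ?_
    · exact (hR k).1.1.continuousOn.comp (f := fun p : (Fin (N + 1) → Fin (n + 1) → ℂ) ×
        (Fin (N + 1) → Fin (m + 1) → ℂ) => p.1 i) (by fun_prop) fun p hp => (hp.1 i trivial).1.1
    · exact (hR k).2.1.continuousOn.comp (f := fun p : (Fin (N + 1) → Fin (n + 1) → ℂ) ×
        (Fin (N + 1) → Fin (m + 1) → ℂ) => p.2 j) (by fun_prop) fun p hp => (hp.2 j trivial).1.1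
  obtain ⟨ε, hε, hle⟩ := hT.exists_forall_le' hc (a := 0) fun p hp => by
    have h0 : ∀ i j, 0 ≤ ∑ k, f k (p.1 i) * g k (p.2 j) := fun i j =>
      (hfg _ _ (hp.1 i trivial).1.1 (hp.2 j trivial).1.1).1
    obtain ⟨σ, hσ⟩ := hH n u N p.1 (le_max_left _ _) fun i => (hp.1 i trivial).1
    obtain ⟨τ, hτ⟩ := hH m v N p.2 (le_max_right _ _) fun i => (hp.2 i trivial).1
    obtain ⟨k, l, hkl⟩ := hN _ _ hσ hτ
    refine Finset.sum_pos' (fun i _ => Finset.sum_nonneg fun j _ => h0 i j) ⟨σ k, Finset.mem_univ _,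
      Finset.sum_pos' (fun j _ => h0 _ j) ⟨τ l, Finset.mem_univ _, (h0 _ _).lt_of_ne' fun h => ?_⟩⟩
    exact hkl ((hfg _ _ (hσ.1 k) (hτ.1 l)).2.1 h)
  refine ⟨r, N, ε, f, g, ⟨hε, hR, fun x y hx hy => (hfg x y hx hy).1, fun X Y hX hY => ?_⟩,
    fun x y hx hy h => (hfg x y hx hy).2.2 h⟩
  choose c hc0 hcX using fun i => nrm (hX i)
  choose d hd0 hdY using fun i => nrm (hY i)
  have := hle (fun i => c i • X i, fun i => d i • Y i) ⟨fun i _ => hcX i, fun i _ => hdY i⟩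
  simpa only [fun k i => (hR k).1.2 (c i) (hc0 i) (X i), fun k i => (hR k).2.2 (d i) (hd0 i) (Y i)]
    using this

end Pool.Agent.Lib.CLF
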