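import Pool.Agent.Lib.CLF.ABlue

/-! Test functions supported on one sheet. -/

open MeasureTheory Filter Topology Set Function

noncomputable section

namespace Pool.Agent.Lib.CLF

open Classical in
theorem bSH (hBR : St_BR) : St_SH := by
  intro C V U c k χ hV hs hc hχ
  set G : Am → ℂ := fun p => if p.1 ∈ V ∧ p.2 = c k p.1 then χ p.1 else 0 with hG
  have cg : ∀ b {f g : B2 → ℂ} {z}, f =ᶠ[𝓝 z] g → wd b f z = wd b g z := fun b f g z h => by
    unfold wd; rw [h.fderiv_eq]
  have w0 : ∀ b z, wd b (fun _ => (0 : ℂ)) z = 0 := fun b z => by simp [wd]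
  have g0 : ∀ p, G p = χ p.1 ∨ G p = 0 := fun p => by
    by_cases h : p.1 ∈ V ∧ p.2 = c k p.1
    · exact Or.inl (if_pos h)
    · exact Or.inr (if_neg h)
  have v1 : ∀ w ∈ V, ∀ k', G (w, c k' w) = if k' = k then χ w else 0 := fun w hw k' => by
    by_cases h : k' = k
    · rw [if_pos h, h]; exact if_pos ⟨hw, rfl⟩
    · rw [if_neg h]; exact if_neg fun e => h ((hc w hw).1 e.2)
  have e1 : ∀ w ∈ V, ∀ k', C.dn G (w, c k' w) =ᶠ[𝓝 w] fun v => if k' = k then χ v else 0 :=
    fun w hw k' => by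
      have hb := (hc w hw).2.2 k'
      filter_upwards [hBR.uniq C hb.2.2.self_of_nhds hb, hV.mem_nhds hw] with v h1 h2
      unfold Cv.dn
      rw [← h1, v1 v h2]
  have e2 : ∀ p : Am, p.1 ∉ V → C.dn G p =ᶠ[𝓝 p.1] fun _ => 0 := fun p hp => by
    filter_upwards [notMem_tsupport_iff_eventuallyEq.1 fun h => hp (hχ.2.2 h)] with v hv
    exact (g0 _).elim (fun h => h.trans hv) id
  refine ⟨G, ⟨fun p hp => ?_, tsupport χ, hχ.2.1, hχ.2.2.trans hs, fun p _ h =>
    (g0 p).elim (fun e => e.trans (image_eq_zero_of_notMem_tsupport h)) id⟩, g0,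
    fun w hw k' => ⟨v1 w hw k', fun b => ?_⟩, fun p _ h => ⟨if_neg fun e => h e.1,
      fun b => (cg b (e2 p h)).trans (w0 b _)⟩⟩
  · by_cases h : p.1 ∈ V
    · obtain ⟨k', hk⟩ : p.2 ∈ range fun k => c k p.1 := (hc _ h).2.1 ▸ hp.2
      have e := e1 p.1 h k'
      rw [show (p.1, c k' p.1) = p from Prod.ext rfl hk] at e
      refine ContDiffAt.congr_of_eventuallyEq ?_ e
      by_cases q : k' = k
      · simpa only [if_pos q] using hχ.1.contDiffAt
      · simpa only [if_neg q] using contDiffAt_const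
    · exact contDiffAt_const.congr_of_eventuallyEq (e2 p h)
  · refine (cg b (e1 w hw k')).trans ?_
    by_cases q : k' = k
    · simp only [if_pos q]
    · simp only [if_neg q, w0]

end Pool.Agent.Lib.CLF
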