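import Pool.Agent.Lib.CLF.BBlue

open MvPolynomial Filter Pool.Agent.Lib.MP_08f962_ag

namespace Pool.Agent.Lib.CLF

theorem bSPE (hA : St_ARI) (hG : St_GRF) (hN : St_NG) (hO : St_OUTP) (hP : St_PULL)
    (hC : St_OC) : St_SPE := by
  intro n m hn hm
  obtain ⟨M, hM, hA⟩ := hA (n + m) (by omega)
  have h1 : ∀ w : ℕ × ℕ, ∃ (G : S n m) (K : ℝ), 0 ≤ K ∧ (n + m ≤ w.1 → n + m ≤ w.2 →
      G ∈ Forms n m w ∧ ∀ (p q k : ℕ) φ ψ (P : Ideal (S n m)) c, 1 ≤ p → 1 ≤ q → IsGr p φ →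
        IsGr q ψ → P.IsPrime → IsBihom P → pull φ ψ G ∈ P → Cl P k c → c ∈ Out n m p q k K) := by
    intro w
    by_cases h : n + m ≤ w.1 ∧ n + m ≤ w.2
    · obtain ⟨G, hG⟩ := hN n m w.1 w.2 hn hm h.1 h.2
      obtain ⟨K, hK, h'⟩ := hO n m w.1 w.2 G hn hm hG
      exact ⟨G, K, hK, fun _ _ => ⟨hG.1, h'⟩⟩
    · exact ⟨0, 0, le_rfl, fun a b => (h ⟨a, b⟩).elim⟩
  choose G K hK h1 using h1
  let K₀ : ℝ := ∑ w ∈ Finset.range (M + 1) ×ˢ Finset.range (M + 1), K w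
  have hK₀ : 0 ≤ K₀ := Finset.sum_nonneg fun w _ => hK w
  refine ⟨1 + M ^ 2 * K₀, le_add_of_nonneg_right (by positivity), fun d e hd he => ?_⟩
  obtain ⟨p, u, h2, h3⟩ := hA d hd
  obtain ⟨q, v, h4, h5⟩ := hA e he
  choose φ hφ using fun b => hG n (p b) (h3 b).2.2.1
  choose ψ hψ using fun b => hG m (q b) (h5 b).2.2.1
  have h6 := fun b => h1 (u b, v b) (h3 b).1 (h5 b).1
  have h7 := fun b => hP.form (hφ b).1 (hψ b).1 (h6 b).1
  refine ⟨pull (φ true) (ψ true) (G (u true, v true)) *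
    pull (φ false) (ψ false) (G (u false, v false)), ?_, fun P k c hp hb hF hc => ?_⟩
  · have := mul_mem_forms (h7 true) (h7 false)
    rwa [Prod.mk_add_mk, ← h2, ← h4] at this
  · obtain ⟨b, hb'⟩ : ∃ b, pull (φ b) (ψ b) (G (u b, v b)) ∈ P :=
      (hp.mem_or_mem hF).elim (fun h => ⟨_, h⟩) fun h => ⟨_, h⟩
    have h8 : p b ≤ d := by
      have := Nat.le_mul_of_pos_right (p b) (show 0 < u b by have := (h3 b).1; omega)
      cases b <;> omega
    have h9 : q b ≤ e := by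
      have := Nat.le_mul_of_pos_right (q b) (show 0 < v b by have := (h5 b).1; omega)
      cases b <;> omega
    have h10 : K (u b, v b) ≤ K₀ := Finset.single_le_sum (fun w _ => hK w) (by
      have := (h3 b).2.1
      have := (h5 b).2.1
      simp only [Finset.mem_product, Finset.mem_range]
      omega)
    refine hC.mono (M := M) (Nat.cast_nonneg _) (Nat.cast_nonneg _) (Nat.cast_le.2 h8)
      (Nat.cast_le.2 h9) (by exact_mod_cast (h3 b).2.2.2) (by exact_mod_cast (h5 b).2.2.2)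
      (by exact_mod_cast hM) (hK _) ?_ ((h6 b).2 _ _ k _ _ P c (h3 b).2.2.1 (h5 b).2.2.1 (hφ b)
        (hψ b) hp hb hb' hc)
    have := mul_le_mul_of_nonneg_left h10 (sq_nonneg (M : ℝ))
    linarith

end Pool.Agent.Lib.CLF
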