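import Pool.Agent.Lib.CLF.ABlue

/-! Stokes for test functions on the cover. -/

open MeasureTheory Filter Topology Set Function
open scoped ContDiff ENNReal ComplexConjugate

noncomputable section

namespace Pool.Agent.Lib.CLF

namespace ST

lemma sum_eq {n : ℕ} {f g : Fin n → ℂ} (hf : Injective f) (hg : Injective g)
    (e : range f = range g) (G : ℂ → ℂ) : ∑ k, G (f k) = ∑ k, G (g k) := by
  classical
  rw [← Finset.sum_image (s := Finset.univ) (g := f) (f := G) hf.injOn,
    ← Finset.sum_image (s := Finset.univ) (g := g) (f := G) hg.injOn]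
  congr 1
  apply Finset.coe_injective
  simpa using e

lemma wd_sum {n : ℕ} (b : Bool) {f : Fin n → B2 → ℂ} {z : B2}
    (h : ∀ k, DifferentiableAt ℝ (f k) z) :
    wd b (fun w => ∑ k, f k w) z = ∑ k, wd b (f k) z := by
  simp only [wd, fderiv_fun_sum fun k _ => h k, sum_apply, Finset.mul_sum,
    ← Finset.sum_sub_distrib, Finset.sum_div]

lemma one (hW : St_WIR) (hB : St_BR) (hI : St_INT) (hC : St_CAL) (C : Cv) (b : Bool) {U : Set B2}
    {F : Am → ℂ} (hF : C.Tst U F) : ∫ p, C.D b F p ∂C.mu = 0 := by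
  have i := memLp_one_iff_integrable.1 ((hI.tst C (hC.tD C b hF).1).2 1)
  obtain ⟨hs, K, hK, hKU, h0⟩ := hF
  let g : B2 → ℂ := C.Ω.indicator fun z => ∑ k, F (z, C.r k z)
  have z0 : ∀ z ∉ K, g z = 0 := fun z hz => by
    by_cases h : z ∈ C.Ω
    · simp only [g, indicator_of_mem h]
      exact Finset.sum_eq_zero fun k _ => h0 _ ⟨h, k, rfl⟩ hz
    · exact indicator_of_notMem h _
  have e0 : ∀ z ∉ C.Ω, g =ᶠ[𝓝 z] fun _ => 0 := fun z hz =>
    eventually_of_mem (hK.isClosed.isOpen_compl.mem_nhds fun a => hz (hKU a).1) z0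
  have e1 : ∀ z ∈ C.Ω, ContDiffAt ℝ ∞ g z ∧ wd b g z = ∑ k, C.D b F (z, C.r k z) := fun z hz => by
    obtain ⟨ε, c, hε, hΩ, hc⟩ := hB.triv C hz
    obtain ⟨c1, c2, c3⟩ := hc z (Metric.mem_ball_self hε)
    have m : ∀ k, (z, c k z) ∈ C.S := fun k => ⟨hz, c2 ▸ ⟨k, rfl⟩⟩
    have e : g =ᶠ[𝓝 z] fun w => ∑ k, C.dn F (z, c k z) w := by
      filter_upwards [Metric.ball_mem_nhds z hε,
        eventually_all.2 fun k => hB.uniq C (m k) (c3 k)] with w hw hw'
      simp only [g, indicator_of_mem (hΩ hw), Cv.dn, ← hw']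
      exact sum_eq (C.inj w (hΩ hw)) (hc w hw).1 (hc w hw).2.1.symm fun x => F (w, x)
    have s : ∀ k, ContDiffAt ℝ ∞ (C.dn F (z, c k z)) z := fun k => hs _ (m k)
    refine ⟨(ContDiffAt.sum fun k _ => s k).congr_of_eventuallyEq e, ?_⟩
    rw [(hW.congr b e).1, wd_sum b fun k => (s k).differentiableAt (by simp)]
    exact sum_eq c1 (C.inj z hz) c2 fun x => C.D b F (z, x)
  have sm : ContDiff ℝ 1 g := contDiff_iff_contDiffAt.2 fun z => by
    by_cases h : z ∈ C.Ω
    · exact (e1 z h).1.of_le (by simp)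
    · exact contDiffAt_const.congr_of_eventuallyEq (e0 z h)
  rw [hI.int C i, ← setIntegral_congr_fun C.op.measurableSet fun z hz => (e1 z hz).2,
    setIntegral_eq_integral_of_forall_compl_eq_zero fun z hz => by
      rw [(hW.congr b (e0 z hz)).1, hW.cst]]
  exact hW.ibp b sm (HasCompactSupport.intro hK z0)

end ST

theorem bST (hW : St_WIR) (hB : St_BR) (hI : St_INT) (hC : St_CAL) : St_ST := by
  intro C b U F hF
  refine ⟨ST.one hW hB hI hC C b hF, ?_⟩
  have := ST.one hW hB hI hC C b (hC.tstar C hF).1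
  simp only [((hC.star C F).2 b _).1, integral_conj] at this
  simpa using this

end Pool.Agent.Lib.CLF
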