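import Pool.Agent.Lib.CLF.B_STA0

/-! The slope of the number of monomials in one variable. -/

open Module

noncomputable section

namespace Pool.Agent.Lib.CLF

namespace STA

open STA0

variable {k L ι : Type} [Field k] [Field L] [Algebra k L] [Fintype ι] [DecidableEq ι] {z : ι → L}
  {i : ι} {N : ℕ}

theorem descend (hN : ∀ a : ι → ℕ, N ≤ a i → ∀ v ∈ Us k z (a + Pi.single i 1),
    z i * v ∈ Us k z (a + Pi.single i 1) → v ∈ Us k z a) {a : ι → ℕ} (ha : N ≤ a i) {w : L}
    (hw : w ∈ Us k z (Function.update a i 0)) (D : ℕ)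
    (h : z i ^ (a i + 1 + D) * w ∈ Us k z (a + Pi.single i D)) : z i ^ (a i + 1) * w ∈ Us k z a := by
  induction D with
  | zero => simpa using h
  | succ D ih =>
    refine ih (hN _ (by simp; omega) _ (pow_mul_mem i _ hw fun j => ?_) ?_)
    · by_cases hj : j = i
      · subst hj; simp; omega
      · simp [hj]
    · rwa [← mul_assoc, ← pow_succ', add_assoc a, ← Pi.single_add]

theorem key (hN : ∀ a : ι → ℕ, N ≤ a i → ∀ v ∈ Us k z (a + Pi.single i 1),
    z i * v ∈ Us k z (a + Pi.single i 1) → v ∈ Us k z a) {a : ι → ℕ} (ha : N ≤ a i)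
    {H : Submodule k L} (hH : H ≤ Us k z (Function.update a i 0))
    (h0 : ∀ w ∈ H, z i ^ (a i + 1) * w ∈ Us k z a → w = 0) (w : ℕ → L) (hw : ∀ t, w t ∈ H) (D : ℕ)
    (h : ∑ t ∈ Finset.range D, z i ^ t * w t = 0) : ∀ t < D, w t = 0 := by
  induction D with
  | zero => exact fun t ht => absurd ht (Nat.not_lt_zero t)
  | succ D ih =>
    rw [Finset.sum_range_succ] at h
    have h1 : w D = 0 := by
      refine h0 _ (hw D) (descend hN ha (hH (hw D)) D ?_)
      rw [pow_add, mul_assoc, eq_neg_of_add_eq_zero_right h, mul_neg, Finset.mul_sum]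
      refine neg_mem (Submodule.sum_mem _ fun t ht => ?_)
      rw [← mul_assoc, ← pow_add]
      refine pow_mul_mem i _ (hH (hw t)) fun j => ?_
      have := Finset.mem_range.1 ht
      by_cases hj : j = i
      · subst hj; simp; omega
      · simp [hj]
    rw [h1, mul_zero, add_zero] at h
    intro t ht
    rcases (Nat.lt_succ_iff.1 ht).eq_or_lt with rfl | ht
    · exact h1
    · exact ih h t ht

theorem exists_fam (hN : ∀ a : ι → ℕ, N ≤ a i → ∀ v ∈ Us k z (a + Pi.single i 1),
    z i * v ∈ Us k z (a + Pi.single i 1) → v ∈ Us k z a) {a : ι → ℕ} (ha : N ≤ a i) :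
    ∃ (r : ℕ) (u : Fin r → L), (∀ l, u l ∈ Us k z a) ∧
      finrank k (Us k z (a + Pi.single i 1)) ≤ finrank k (Us k z a) + r ∧
      ∀ f : Fin r → Polynomial k, ∑ l, Polynomial.aeval (z i) (f l) * u l = 0 → ∀ l, f l = 0 := by
  set U := Us k z (Function.update a i 0) with hU
  set G := U ⊓ (Us k z a).comap (LinearMap.mulLeft k (z i ^ (a i + 1))) with hG
  obtain ⟨C, hC⟩ := G.exists_isCompl
  have := fin k z (Function.update a i 0)
  have := fin k z a
  have : FiniteDimensional k (C ⊓ U : Submodule k L) := Submodule.finiteDimensional_inf_right _ _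
  have hGU : U = G ⊔ C ⊓ U := by
    rw [← sup_inf_assoc_of_le _ (inf_le_left : G ≤ U), hC.sup_eq_top, top_inf_eq]
  let B := Module.finBasis k (C ⊓ U : Submodule k L)
  refine ⟨_, fun l => B l, fun l => mono (fun j => ?_) (B l).2.2, ?_, fun f hf l => ?_⟩
  · by_cases hj : j = i
    · subst hj; simp
    · simp [hj]
  · have h1 : Us k z (a + Pi.single i 1) ≤ Us k z a ⊔
        (C ⊓ U).map (LinearMap.mulLeft k (z i ^ (a i + 1))) := by
      refine (split i a).trans (sup_le le_sup_left ?_)
      rw [← hU]
      conv_lhs => rw [hGU, Submodule.map_sup]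
      exact sup_le_sup_right (Submodule.map_le_iff_le_comap.2 inf_le_right) _
    exact (Submodule.finrank_mono h1).trans ((Submodule.finrank_add_le_finrank_add_finrank _ _).trans
      (Nat.add_le_add_left (Submodule.finrank_map_le _ _) _))
  · let D := Finset.univ.sup (fun l => (f l).natDegree) + 1
    have hD : ∀ l, (f l).natDegree < D := fun l =>
      Nat.lt_succ_of_le (Finset.le_sup (f := fun l => (f l).natDegree) (Finset.mem_univ l))
    have h1 := key hN ha (H := C ⊓ U) inf_le_right
      (fun w hw h => (Submodule.disjoint_def.1 hC.disjoint) w ⟨hw.2, h⟩ hw.1)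
      (fun t => ((∑ l, (f l).coeff t • B l : (C ⊓ U : Submodule k L)) : L))
      (fun t => Subtype.prop _) D (by
        rw [← hf]
        simp only [Submodule.coe_sum, Submodule.coe_smul, Finset.mul_sum,
          fun l => Polynomial.aeval_eq_sum_range' (hD l) (z i), Finset.sum_mul]
        rw [Finset.sum_comm]
        exact Finset.sum_congr rfl fun l _ => Finset.sum_congr rfl fun t _ => by
          rw [mul_smul_comm, smul_mul_assoc])
    refine Polynomial.ext fun t => ?_
    rcases lt_or_ge t D with ht | ht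
    · exact Fintype.linearIndependent_iff.1 B.linearIndependent (fun l => (f l).coeff t)
        (Subtype.ext (h1 t ht)) l
    · exact Polynomial.coeff_eq_zero_of_natDegree_lt ((hD l).trans_le ht)

end STA

open STA0 STA IntermediateField.algebraAdjoinAdjoin in
theorem bSTA (h : St_STA0) : St_STA := fun k L ι _ _ _ _ _ z i => by
  obtain ⟨N, hN⟩ := h k L ι z i
  refine ⟨N, fun a ha => ?_⟩
  obtain ⟨r, u, h1, h2, h3⟩ := exists_fam hN ha
  refine ⟨fun ⟨p, hp, h0⟩ => ?_, h2.trans (Nat.add_le_add_left ?_ _)⟩
  · rcases r with _ | r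
    · exact h2
    · exact absurd (h3 (fun _ => p) (by simp [h0]) 0) hp
  · set K := IntermediateField.adjoin k {z i}
    have := fin K z a
    have h4 : LinearIndependent (Algebra.adjoin k {z i}) u := by
      refine Fintype.linearIndependent_iff.2 fun g hg l => ?_
      have h5 : ∀ l, ∃ p, Polynomial.aeval (z i) p = (g l : L) := fun l =>
        (Algebra.adjoin_singleton_eq_range_aeval k (z i)).le (g l).2
      choose f hf using h5
      have h6 := h3 f (by simp only [hf]; exact hg) l
      exact Subtype.ext (by rw [← hf, h6, map_zero]; rfl)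
    have h5 : LinearIndependent K fun l => (⟨u l, Submodule.span_subset_span k K _ (h1 l)⟩ :
        Us K z a) :=
      LinearIndependent.of_comp (Us K z a).subtype
        ((LinearIndependent.iff_fractionRing (Algebra.adjoin k {z i}) K).1 h4)
    simpa using h5.fintype_card_le_finrank

end Pool.Agent.Lib.CLF
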