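import Pool.Agent.Lib.CLF.BBlue

/-! Uniform injectivity of multiplication by one variable. -/

open MvPolynomial Module

noncomputable section

namespace Pool.Agent.Lib.CLF

namespace STA0

variable {k L ι : Type} [Field k] [Field L] [Algebra k L] [Fintype ι] {z : ι → L}

theorem mon_mem {e a : ι → ℕ} (h : e ≤ a) : ∏ i, z i ^ e i ∈ Us k z a :=
  Submodule.subset_span ⟨e, h, rfl⟩

theorem mono {a b : ι → ℕ} (h : a ≤ b) : Us k z a ≤ Us k z b :=
  Submodule.span_mono fun _ ⟨e, he, hw⟩ => ⟨e, he.trans h, hw⟩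

theorem mul_mem {a b : ι → ℕ} {u w : L} (hu : u ∈ Us k z a) (hw : w ∈ Us k z b) :
    u * w ∈ Us k z (a + b) := by
  have h : Us k z a * Us k z b ≤ Us k z (a + b) := by
    rw [Us, Us, Submodule.span_mul_span]
    refine Submodule.span_mono ?_
    rintro _ ⟨_, ⟨e, he, rfl⟩, _, ⟨f, hf, rfl⟩, rfl⟩
    exact ⟨e + f, add_le_add he hf, by simp [pow_add, Finset.prod_mul_distrib]⟩
  exact h (Submodule.mul_mem_mul hu hw)

theorem fin (k : Type) [Field k] [Algebra k L] (z : ι → L) (a : ι → ℕ) :
    FiniteDimensional k (Us k z a) := by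
  classical
  exact FiniteDimensional.span_of_finite k
    (((Set.finite_Iic a).image fun e => ∏ i, z i ^ e i).subset
      fun _ ⟨e, he, hw⟩ => ⟨e, he, hw.symm⟩)

variable [DecidableEq ι]

theorem pow_mem (i : ι) (s : ℕ) : z i ^ s ∈ Us k z (Pi.single i s) := by
  convert mon_mem (k := k) (z := z) (le_refl (Pi.single i s : ι → ℕ)) using 1
  rw [Finset.prod_eq_single i (fun j _ hj => by simp [hj]) (by simp)]
  simp

theorem pow_mul_mem (i : ι) (s : ℕ) {a b : ι → ℕ} {u : L} (hu : u ∈ Us k z a)
    (h : Pi.single i s + a ≤ b) : z i ^ s * u ∈ Us k z b := mono h (mul_mem (pow_mem i s) hu)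

theorem split (i : ι) (a : ι → ℕ) : Us k z (a + Pi.single i 1) ≤ Us k z a ⊔
    (Us k z (Function.update a i 0)).map (LinearMap.mulLeft k (z i ^ (a i + 1))) := by
  refine Submodule.span_le.2 ?_
  rintro _ ⟨e, he, rfl⟩
  by_cases h : e i ≤ a i
  · refine Submodule.mem_sup_left (mon_mem fun j => ?_)
    by_cases hj : j = i
    · rwa [hj]
    · simpa [hj] using he j
  · refine Submodule.mem_sup_right ⟨∏ j, z j ^ Function.update e i 0 j, mon_mem fun j => ?_, ?_⟩
    · by_cases hj : j = i
      · simp [hj]
      · simpa [hj] using he j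
    · have h1 : e i = a i + 1 := le_antisymm (by simpa using he i) (by omega)
      rw [LinearMap.mulLeft_apply, ← Finset.mul_prod_erase _ _ (Finset.mem_univ i),
        ← Finset.mul_prod_erase _ (fun j => z j ^ e j) (Finset.mem_univ i), h1]
      simp only [Function.update_self, pow_zero, one_mul]
      exact congrArg _ (Finset.prod_congr rfl fun j hj => by
        rw [Function.update_of_ne (Finset.ne_of_mem_erase hj)])

variable (k z) in
/-- the homogenised generators -/
def ph : MvPolynomial (ι ⊕ ι) k →ₐ[k] MvPolynomial ι L :=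
  aeval (Sum.elim (fun j => C 1 * X j) fun j => C (z j) * X j)

omit [DecidableEq ι] in
theorem exists_ph {b : ι →₀ ℕ} {u : L} (hu : u ∈ Us k z b) : ∃ r, ph k z r = monomial b u := by
  induction hu using Submodule.span_induction with
  | mem _ h =>
    obtain ⟨e, he, rfl⟩ := h
    refine ⟨∏ j, X (Sum.inl j) ^ (b j - e j) * X (Sum.inr j) ^ e j, ?_⟩
    rw [monomial_eq, Finsupp.prod_fintype _ _ fun _ => pow_zero _, map_prod, map_prod,
      ← Finset.prod_mul_distrib]
    refine Finset.prod_congr rfl fun j _ => ?_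
    simp only [ph, map_mul, map_pow, aeval_X, Sum.elim_inl, Sum.elim_inr, map_one, one_mul, mul_pow]
    rw [mul_left_comm, ← pow_add, Nat.sub_add_cancel (he j)]
  | zero => exact ⟨0, by simp⟩
  | add _ _ _ _ h h' =>
    obtain ⟨r, hr⟩ := h
    obtain ⟨s, hs⟩ := h'
    exact ⟨r + s, by rw [map_add, hr, hs, map_add]⟩
  | smul c _ _ h =>
    obtain ⟨r, hr⟩ := h
    exact ⟨c • r, by rw [map_smul, hr, smul_monomial]⟩

variable (k z) in
/-- the leading coefficient condition -/
def Q (i : ι) (D : ℕ) (p : MvPolynomial ι L) : Prop :=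
  ∀ b : ι →₀ ℕ, z i ^ (D + 1) * coeff b p ∈ Us k z ((b : ι → ℕ) + Pi.single i D)

theorem Q.step {i j : ι} {D : ℕ} {p : MvPolynomial ι L} (h : Q k z i D p) {c : L}
    (hc : c ∈ Us k z (Pi.single j 1)) : Q k z i D (C c * X j * p) := fun b => by
  rw [mul_assoc, coeff_C_mul, coeff_X_mul']
  split_ifs with hj
  · rw [mul_left_comm]
    refine mono (fun l => ?_) (mul_mem hc (h _))
    have := Finsupp.mem_support_iff.1 hj
    by_cases hl : l = j
    · subst hl
      simp only [Pi.add_apply, Pi.single_eq_same, Finsupp.coe_tsub, Pi.sub_apply,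
        Finsupp.single_eq_same]
      omega
    · simp [hl, Finsupp.single_eq_of_ne hl]
  · simp

theorem Q.mul {i : ι} {D : ℕ} (s : MvPolynomial (ι ⊕ ι) k) :
    ∀ p, Q k z i D p → Q k z i D (ph k z s * p) := by
  induction s using MvPolynomial.induction_on with
  | C c =>
    intro p h b
    rw [algHom_C, ← Algebra.smul_def, coeff_smul, mul_smul_comm]
    exact Submodule.smul_mem _ _ (h b)
  | add s t hs ht =>
    intro p h b
    rw [map_add, add_mul, coeff_add, mul_add]
    exact add_mem (hs p h b) (ht p h b)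
  | mul_X s j hs =>
    intro p h
    rw [map_mul, mul_assoc]
    refine hs _ ?_
    rcases j with j | j
    · rw [ph, aeval_X]
      have h1 := mon_mem (k := k) (z := z) (e := 0) (a := Pi.single j 1) (fun _ => Nat.zero_le _)
      simp only [Pi.zero_apply, pow_zero, Finset.prod_const_one] at h1
      exact h.step h1
    · rw [ph, aeval_X]
      exact h.step (pow_one (z j) ▸ pow_mem j 1)

variable (k z) in
/-- the chain of ideals -/
def ch (i : ι) : ℕ →o Ideal (MvPolynomial (ι ⊕ ι) k) where
  toFun D :=
    { carrier := {r | Q k z i D (ph k z r)}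
      add_mem' := fun h h' b => by
        rw [map_add, coeff_add, mul_add]
        exact add_mem (h b) (h' b)
      zero_mem' := fun b => by simp
      smul_mem' := fun s r h => by
        change Q k z i D (ph k z (s * r))
        rw [map_mul]
        exact Q.mul s _ h }
  monotone' := monotone_nat_of_le_succ fun D r h b => by
    rw [pow_succ', mul_assoc, ← pow_one (z i), pow_one (z i)]
    have h1 := pow_mul_mem i 1 (h b) (b := (b : ι → ℕ) + Pi.single i (D + 1))
      (le_of_eq (by rw [Pi.single_add]; abel))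
    rwa [pow_one] at h1

end STA0

open STA0 in
theorem bSTA0 : St_STA0 := fun k L ι _ _ _ _ _ z i => by
  obtain ⟨N, hN⟩ := monotone_stabilizes_iff_noetherian.2 inferInstance (ch k z i)
  refine ⟨N, fun a ha v hv h => ?_⟩
  obtain ⟨w, hw, _, ⟨u, hu, rfl⟩, rfl⟩ := Submodule.mem_sup.1 (split i a hv)
  refine add_mem hw ?_
  let b : ι →₀ ℕ := Finsupp.equivFunOnFinite.symm (Function.update a i 0)
  have hb : ∀ D, (b : ι → ℕ) + Pi.single i D = Function.update a i D := fun D => by
    funext j
    by_cases hj : j = i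
    · subst hj; simp [b]
    · simp [b, hj]
  obtain ⟨r, hr⟩ := exists_ph (b := b) hu
  have h1 : r ∈ ch k z i (a i + 1) := fun c => by
    rw [hr, coeff_monomial]
    split_ifs with hc
    · have e : (c : ι → ℕ) + Pi.single i (a i + 1) = a + Pi.single i 1 := by
        rw [← hc, hb]
        funext j
        by_cases hj : j = i
        · subst hj; simp
        · simp [hj]
      have h2 := pow_mul_mem i 1 hw (b := a + Pi.single i 1) (le_of_eq (add_comm _ _))
      have h3 := sub_mem h h2
      rw [LinearMap.mulLeft_apply, pow_one, mul_add, add_sub_cancel_left, ← mul_assoc,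
        ← pow_succ'] at h3
      rwa [e]
    · simp
  rw [← hN _ (ha.trans (Nat.le_succ _)), hN _ ha] at h1
  have h2 := h1 b
  rwa [hr, coeff_monomial, if_pos rfl, hb, Function.update_eq_self] at h2

end Pool.Agent.Lib.CLF
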