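import Pool.Agent.Lib.CLF.BBlue

/-! Row SUP: support in the first variable. -/

open MvPolynomial Filter Topology Function Module Pool.Agent.Lib.MP_08f962_ag

noncomputable section

namespace Pool.Agent.Lib.CLF

theorem bSUP (hC : St_CUTP) (hH : St_HEX) : St_SUP := by
  intro n m
  have key : ∀ (a b : ℕ) (J : Ideal (S n m)) k, ∀ c ∈ Cn J k, ∀ s : Finset (Fin (n + 1)),
      (∀ i ∈ s, X (Sum.inl i) ∈ J) → c (a, b) ≠ 0 → a + s.card ≤ n := by
    intro a b
    have red : ∀ a, (∀ (P : Ideal (S n m)) k c (s : Finset (Fin (n + 1))) i, P.IsPrime →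
        IsBihom P → Cl P k c → (∀ i ∈ s, X (Sum.inl i) ∈ P) → X (Sum.inl i) ∉ P → c (a, b) ≠ 0 →
        a + s.card ≤ n) → ∀ (J : Ideal (S n m)) k, ∀ c ∈ Cn J k, ∀ s : Finset (Fin (n + 1)),
        (∀ i ∈ s, X (Sum.inl i) ∈ J) → c (a, b) ≠ 0 → a + s.card ≤ n := by
      intro a h J k c hc s hs
      induction hc using AddSubmonoid.closure_induction with
      | mem c hc =>
        obtain ⟨P, h1, h2, h3, h4⟩ := hc
        intro hne
        obtain ⟨i, hi⟩ : ∃ i, X (Sum.inl i) ∉ P := not_forall.1 fun h5 =>
          hne (by rw [hH.zero h4 (Or.inl h5)]; rfl)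
        exact h P k c s i h1 h2 h4 (fun j hj => h3 (hs j hj)) hi hne
      | zero => exact fun h => absurd rfl h
      | add x y _ _ hx hy =>
        intro hne
        by_cases h0 : x (a, b) = 0
        · exact hy fun h1 => hne (by simp [h0, h1])
        · exact hx h0
    induction a with
    | zero =>
      refine red 0 fun P k c s i _ _ _ hs hi _ => ?_
      have := Finset.card_lt_card (Finset.ssubset_univ_iff.2 fun h : s = Finset.univ =>
        hi (hs i (h ▸ Finset.mem_univ i)))
      simp only [Finset.card_univ, Fintype.card_fin] at this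
      omega
    | succ a ih =>
      refine red _ fun P k c s i h1 h2 h3 hs hi hne => ?_
      obtain rfl : a + b + 1 = k := by
        obtain ⟨q, -, -, hq⟩ := h3
        by_contra h
        exact hne (by rw [hq, if_neg (by omega)])
      have := ih _ _ _ (hC n m P (X (Sum.inl i)) 1 0 _ c h1 h2 (isWeightedHomogeneous_X ℂ _ _) hi h3)
        (insert i s) (fun j hj => (Finset.mem_insert.1 hj).elim
          (fun h => h ▸ Ideal.mem_sup_right (Ideal.subset_span rfl))
          fun h => Ideal.mem_sup_left (hs j h)) (by simpa [sh] using hne)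
      rw [Finset.card_insert_of_notMem fun h => hi (hs i h)] at this
      omega
  intro J k c hc a b h
  simpa using key a b J k c hc ∅ (by simp) h

end Pool.Agent.Lib.CLF
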