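import Pool.Agent.Lib.CLF.BBlue

open MvPolynomial Filter Pool.Agent.Lib.MP_08f962_ag

namespace Pool.Agent.Lib.CLF

lemma SURF.sum_le {a : ℕ} {f : Fin a → ℝ} {x : ℝ} {n : ℕ} (ha : a ≤ n) (hx : 0 ≤ x)
    (h : ∀ i, f i ≤ x) : ∑ i, f i ≤ n * x := by
  refine (Finset.sum_le_card_nsmul _ _ x fun i _ => h i).trans ?_
  rw [Finset.card_univ, Fintype.card_fin, nsmul_eq_mul]
  exact mul_le_mul_of_nonneg_right (Nat.cast_le.2 ha) hx

theorem bSURF (hR : St_RT) (h1 : St_B1) (h2 : St_B2) (hW : St_POW) (hA : St_AN) (hP : St_PULL)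
    (hH : St_HEX) (hD : St_DEC) (hC : St_CONE) : St_SURF := by
  intro n m u v G hn hm hG hN
  obtain ⟨K, hK, hA⟩ := hA n m u v G hG hN
  obtain ⟨K₁, hK₁, h1⟩ := h1 n m hn hm
  refine ⟨(n * n + m * m + 2 * n * m * K * (n + m)) * K₁, by positivity,
    fun p q φ ψ P c hp hq hφ hψ hPp hb hF hc => ?_⟩
  by_cases hx : (∀ i, X (Sum.inl i) ∈ P) ∨ ∀ j, X (Sum.inr j) ∈ P
  · simp [hH.zero hc hx]
  rw [not_or, not_forall, not_forall] at hx
  obtain ⟨L, _, _, n', m', ξ, η, hr⟩ := hR n m P hPp hb hx.1 hx.2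
  have h0 := hC.pos (hD n m P 2 c hb hc)
  obtain ⟨h3, h4, h5⟩ := h1 P c L n' m' ξ η hr hc h0
  have h6 := h2 n m P c L n' m' ξ η p q hp hq hr hc h0 h3
  have h7 := hP.root ξ η hφ hψ hG hr.1 hr.2.1
    ((hr.2.2.1 _ _ (hP.form hφ.1 hψ.1 hG)).1 hF)
  have ha := h0 (2, 0)
  have hb' := h0 (0, 2)
  have h8 : ∀ i j, (p : ℝ) * q * dg (ξ i) (η j) ≤
      K * (n * (p ^ 2 * (K₁ * c (2, 0))) + m * (q ^ 2 * (K₁ * c (0, 2)))) := fun i j => by
    have h9 := hW L (ξ i) (η j) p q hp hq (h3 (.inl i) (.inr j))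
    have h10 := hA L n' m' (fun i => ξ i ^ p) (fun j => η j ^ q) i j hr.1 hr.2.1 h9.1 h7
    rw [h9.2] at h10
    push_cast at h10
    refine h10.trans (mul_le_mul_of_nonneg_left (add_le_add
      (SURF.sum_le hr.1 (by positivity) fun i' => ?_)
      (SURF.sum_le hr.2.1 (by positivity) fun j' => ?_)) hK)
    · rw [(hW L (ξ i) (ξ i') p p hp hp (h3 (.inl i) (.inl i'))).2, sq]
      push_cast
      exact mul_le_mul_of_nonneg_left (h4 i i') (by positivity)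
    · rw [(hW L (η j) (η j') q q hq hq (h3 (.inr j) (.inr j'))).2, sq]
      push_cast
      exact mul_le_mul_of_nonneg_left (h5 j j') (by positivity)
  have h9 := SURF.sum_le hr.1 (by positivity) fun i => SURF.sum_le hr.2.1 (by positivity) (h8 i)
  have h10 := mul_le_mul_of_nonneg_left (SURF.sum_le hr.1 (by positivity) fun i =>
    SURF.sum_le hr.1 (by positivity) (h4 i)) (sq_nonneg (p : ℝ))
  have h11 := mul_le_mul_of_nonneg_left (SURF.sum_le hr.2.1 (by positivity) fun i =>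
    SURF.sum_le hr.2.1 (by positivity) (h5 i)) (sq_nonneg (q : ℝ))
  simp only [← Finset.mul_sum] at h9
  have h12 : 0 ≤ ((m : ℝ) * m + 2 * n * m * K * m) * K₁ * p ^ 2 * c (2, 0) := by positivity
  have h13 : 0 ≤ ((n : ℝ) * n + 2 * n * m * K * n) * K₁ * q ^ 2 * c (0, 2) := by positivity
  linarith

end Pool.Agent.Lib.CLF
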