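import Pool.Agent.Lib.CLF.BBlue

/-! Exchange of the two factors. -/

open MvPolynomial Filter Module Pool.Agent.Lib.MP_08f962_ag

noncomputable section

namespace Pool.Agent.Lib.CLF

namespace SW

variable {n m : ℕ}

theorem sw_sw (f : S n m) : sw (sw f) = f := by
  rw [sw, sw, rename_rename, Sum.swap_swap_eq, rename_id_apply]

theorem swap_inj {α β : Type} : Function.Injective (Sum.swap : α ⊕ β → β ⊕ α) :=
  Sum.swap_leftInverse.injective

theorem wt_map (β : Fin (n + 1) ⊕ Fin (m + 1) →₀ ℕ) :
    Finsupp.weight (wt m n) (β.mapDomain Sum.swap) = (Finsupp.weight (wt n m) β).swap := by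
  have h1 : ∀ i, β.mapDomain Sum.swap (.inl i) = β (.inr i) := fun i =>
    Finsupp.mapDomain_apply swap_inj β (.inr i)
  have h2 : ∀ i, β.mapDomain Sum.swap (.inr i) = β (.inl i) := fun i =>
    Finsupp.mapDomain_apply swap_inj β (.inl i)
  simp only [weight_wt, Prod.swap_prod_mk, h1, h2]

theorem sw_cp (p : ℕ × ℕ) (f : S n m) : sw (weightedHomogeneousComponent (wt n m) p f) =
    weightedHomogeneousComponent (wt m n) p.swap (sw f) := by
  classical
  ext α
  obtain ⟨β, rfl⟩ := Finsupp.mapDomain_surjective Sum.swap_rightInverse.surjective α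
  rw [coeff_weightedHomogeneousComponent, sw, coeff_rename_mapDomain _ swap_inj,
    coeff_rename_mapDomain _ swap_inj, coeff_weightedHomogeneousComponent, wt_map]
  simp only [Prod.swap_inj]

theorem form {p : ℕ × ℕ} {G : S n m} (h : G ∈ Forms n m p) : sw G ∈ Forms m n p.swap := by
  have := cp_same h
  rw [← this]
  exact (sw_cp p G).symm ▸ weightedHomogeneousComponent_mem _ _ _

theorem map_forms (p : ℕ × ℕ) : (Forms n m p).map (sw (n := n) (m := m)).toLinearMap =
    Forms m n p.swap :=
  le_antisymm (Submodule.map_le_iff_le_comap.2 fun _ h => form h) fun f h =>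
    ⟨sw f, form h, sw_sw f⟩

theorem hf_sw (P : Ideal (S n m)) (p : ℕ × ℕ) :
    hf (P.comap (sw (n := m) (m := n))) p = hf P p.swap := by
  have hi : Function.Injective (Ideal.quotientMapₐ P (sw (n := m) (m := n)) le_rfl).toLinearMap :=
    Ideal.quotientMap_injective (I := P) (f := (sw (n := m) (m := n)).toRingHom)
  rw [hf, hf, ← map_forms, ← finrank_map_inj _ hi, ← Submodule.map_comp, ← Submodule.map_comp]
  rfl

theorem cl_sw {P : Ideal (S n m)} {k : ℕ} {c : ℕ × ℕ → ℝ} (h : Cl P k c) :
    Cl (P.comap (sw (n := m) (m := n))) k fun p => c p.swap := by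
  obtain ⟨q, h1, h2, h3⟩ := h
  refine ⟨rename (Equiv.swap 0 1) q, (totalDegree_rename_le _ _).trans h1, ?_, fun a b => ?_⟩
  · obtain ⟨a, ha⟩ := eventually_atTop.1 h2
    refine eventually_atTop.2 ⟨a.swap, fun p hp => ?_⟩
    rw [hf_sw, ha p.swap ⟨hp.2, hp.1⟩, eval_rename]
    congr 2
    funext i
    fin_cases i <;> simp
  · have e : (Finsupp.single 0 a + Finsupp.single 1 b : Fin 2 →₀ ℕ) =
        (Finsupp.single 0 b + Finsupp.single 1 a : Fin 2 →₀ ℕ).mapDomain (Equiv.swap 0 1) := by
      rw [Finsupp.mapDomain_add, Finsupp.mapDomain_single, Finsupp.mapDomain_single, add_comm]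
      simp
    change c (b, a) = _
    rw [h3, e, coeff_rename_mapDomain _ (Equiv.injective _), add_comm b,
      mul_comm b.factorial]

end SW

open SW in
theorem bSW : St_SW where
  cn {n m F k c} h := by
    induction h using AddSubmonoid.closure_induction with
    | mem c h =>
      obtain ⟨P, h1, h2, h3, h4⟩ := h
      refine AddSubmonoid.subset_closure ⟨_, Ideal.comap_isPrime _ _, fun f hf p => ?_, ?_, cl_sw h4⟩
      · rw [Ideal.mem_comap, sw_cp]
        exact h2 _ hf _
      · rw [Ideal.span_singleton_le_iff_mem, Ideal.mem_comap, sw_sw]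
        exact h3 (Ideal.mem_span_singleton_self _)
    | zero => exact zero_mem _
    | add c d _ _ hc hd => exact add_mem hc hd
  pull φ ψ G := by
    have : (sw.comp (pull φ ψ) : S _ _ →ₐ[ℂ] _) = (pull ψ φ).comp sw := by
      ext (i | i) : 1 <;> simp [sw, CLF.pull, rename_rename, Function.comp_def]
    exact AlgHom.congr_fun this G
  form h := form h
  pt G L _ _ x y := by
    have : ((pt y x).comp sw : S _ _ →ₐ[ℂ] L) = pt x y := by
      ext (i | i) : 1 <;> simp [sw, pt]
    exact AlgHom.congr_fun this G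

end Pool.Agent.Lib.CLF
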