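import Pool.Agent.Lib.CLF.ABlue

/-! Cutoffs of small energy in the plane. -/

open MeasureTheory Filter Topology Set Function
open scoped ContDiff ENNReal ComplexConjugate

noncomputable section

namespace Pool.Agent.Lib.CLF

namespace TC

/-- The Dirichlet energy. -/
def en (θ : ℂ → ℝ) : ℝ≥0∞ := ∫⁻ z, ‖fderiv ℝ θ z‖ₑ ^ 2

theorem meas (θ : ℂ → ℝ) : Measurable fun z => ‖fderiv ℝ θ z‖ₑ ^ 2 :=
  (measurable_fderiv ℝ θ).enorm.pow_const 2

theorem en_smul (θ : ℂ → ℝ) {c : ℝ} (hc : c ≠ 0) : en (fun z => θ (c • z)) = en θ := by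
  unfold en
  have h1 : ∀ z : ℂ, ‖fderiv ℝ (fun z => θ (c • z)) z‖ₑ ^ 2 =
      ENNReal.ofReal (c ^ 2) * ‖fderiv ℝ θ (c • z)‖ₑ ^ 2 := by
    intro z
    rw [fderiv_comp_smul, enorm_smul, mul_pow, Real.enorm_eq_ofReal_abs,
      ← ENNReal.ofReal_pow (abs_nonneg c), sq_abs]
  simp only [h1]
  rw [lintegral_const_mul' _ _ ENNReal.ofReal_ne_top]
  have h2 := lintegral_map (μ := (volume : Measure ℂ)) (meas θ) (measurable_const_smul c)
  rw [Measure.map_addHaar_smul _ hc, lintegral_smul_measure, Complex.finrank_real_complex] at h2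
  rw [← h2, smul_eq_mul, ← mul_assoc, ← ENNReal.ofReal_mul (sq_nonneg c),
    abs_of_nonneg (inv_nonneg.2 (sq_nonneg c)), mul_inv_cancel₀ (pow_ne_zero 2 hc),
    ENNReal.ofReal_one, one_mul]

theorem en_sub (θ : ℂ → ℝ) (b : ℂ) : en (fun z => θ (z - b)) = en θ := by
  unfold en
  simp only [fderiv_comp_sub]
  exact lintegral_sub_right_eq_self (fun z => ‖fderiv ℝ θ z‖ₑ ^ 2) b

/-- A plateau function. -/
def Pl (ψ : ℂ → ℝ) (S : ℝ) : Prop :=
  1 ≤ S ∧ ContDiff ℝ ∞ ψ ∧ (∀ z, ψ z ∈ Icc (0 : ℝ) 1) ∧ (∀ z, ‖z‖ ≤ 1 → ψ z = 1) ∧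
    ∀ z, S ≤ ‖z‖ → ψ z = 0

theorem base : ∃ ψ S, Pl ψ S ∧ en ψ ≠ ⊤ := by
  let φ : ContDiffBump (0 : ℂ) := ⟨1, 2, one_pos, one_lt_two⟩
  refine ⟨φ, 2, ⟨one_le_two, φ.contDiff, fun z => ⟨φ.nonneg, φ.le_one⟩, fun z hz => ?_,
    fun z hz => ?_⟩, ?_⟩
  · exact φ.one_of_mem_closedBall (by simpa using hz)
  · exact φ.zero_of_le_dist (by simpa using hz)
  · have hc : Continuous fun z => fderiv ℝ φ z :=
      (φ.contDiff (n := 1)).continuous_fderiv one_ne_zero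
    have hs : HasCompactSupport fun z => fderiv ℝ φ z := φ.hasCompactSupport.fderiv ℝ
    have hm : MemLp (fun z => fderiv ℝ φ z) 2 volume := hc.memLp_of_hasCompactSupport hs
    have h := (eLpNorm_lt_top_iff_lintegral_rpow_enorm_lt_top two_ne_zero
      ENNReal.ofNat_ne_top).1 hm.2
    unfold en
    simp only [ENNReal.toReal_ofNat, ENNReal.rpow_ofNat] at h
    exact h.ne

theorem half {ψ : ℂ → ℝ} {S : ℝ} (h : Pl ψ S) : ∃ ψ' S', Pl ψ' S' ∧ en ψ' ≤ en ψ / 2 := by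
  obtain ⟨hS, hsm, hI, h1, h0⟩ := h
  have hc : (0 : ℝ) < (S + 1)⁻¹ := by positivity
  have hn : ∀ z : ℂ, ‖(S + 1)⁻¹ • z‖ = ‖z‖ / (S + 1) := by
    intro z
    rw [norm_smul, Real.norm_of_nonneg hc.le, inv_mul_eq_div]
  have hsm2 : ContDiff ℝ ∞ fun z : ℂ => ψ ((S + 1)⁻¹ • z) :=
    hsm.comp (contDiff_const_smul _)
  refine ⟨fun z => (2 : ℝ)⁻¹ • (ψ z + ψ ((S + 1)⁻¹ • z)), S * (S + 1), ⟨by nlinarith,
    (hsm.add hsm2).const_smul _, fun z => ?_, fun z hz => ?_, fun z hz => ?_⟩, ?_⟩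
  · have := hI z
    have := hI ((S + 1)⁻¹ • z)
    simp only [mem_Icc, smul_eq_mul] at *
    constructor <;> linarith
  · have : ‖(S + 1)⁻¹ • z‖ ≤ 1 := by
      rw [hn, div_le_one (by linarith)]; linarith
    simp only [h1 z hz, h1 _ this, smul_eq_mul]; norm_num
  · have : S ≤ ‖(S + 1)⁻¹ • z‖ := by
      rw [hn, le_div_iff₀ (by linarith)]; exact hz
    simp only [h0 z (by nlinarith), h0 _ this, smul_eq_mul]; norm_num
  · have key : ∀ z : ℂ, ‖fderiv ℝ (fun z => (2 : ℝ)⁻¹ • (ψ z + ψ ((S + 1)⁻¹ • z))) z‖ₑ ^ 2 =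
        4⁻¹ * (‖fderiv ℝ ψ z‖ₑ ^ 2 + ‖fderiv ℝ (fun z => ψ ((S + 1)⁻¹ • z)) z‖ₑ ^ 2) := by
      intro z
      have d1 : DifferentiableAt ℝ ψ z := hsm.differentiable (by simp) z
      have d2 : DifferentiableAt ℝ (fun z : ℂ => ψ ((S + 1)⁻¹ • z)) z :=
        hsm2.differentiable (by simp) z
      have e4 : ‖(2 : ℝ)⁻¹‖ₑ ^ 2 = 4⁻¹ := by
        rw [Real.enorm_eq_ofReal (by norm_num), ENNReal.ofReal_inv_of_pos two_pos,
          ENNReal.ofReal_ofNat, ← ENNReal.inv_pow]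
        norm_num
      rw [fderiv_fun_const_smul (d1.fun_add d2), fderiv_fun_add d1 d2, enorm_smul, mul_pow, e4]
      have z0 : ‖(0 : ℂ →L[ℝ] ℝ)‖ₑ ^ 2 = 0 := by
        rw [← ofReal_norm, norm_zero, ENNReal.ofReal_zero, zero_pow two_ne_zero]
      congr 1
      rcases lt_or_ge ‖z‖ (S + 1) with hz | hz
      · have : (fun z : ℂ => ψ ((S + 1)⁻¹ • z)) =ᶠ[𝓝 z] fun _ => 1 := by
          filter_upwards [(isOpen_lt continuous_norm continuous_const).mem_nhds hz] with w hw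
          refine h1 _ ?_
          rw [hn, div_le_one (by linarith)]; exact le_of_lt hw
        rw [this.fderiv_eq, fderiv_fun_const, Pi.zero_apply, add_zero, z0, add_zero]
      · have : ψ =ᶠ[𝓝 z] fun _ => 0 := by
          have hz' : S < ‖z‖ := by linarith
          filter_upwards [(isOpen_lt continuous_const continuous_norm).mem_nhds hz'] with w hw
          exact h0 _ (le_of_lt hw)
        rw [this.fderiv_eq, fderiv_fun_const, Pi.zero_apply, zero_add, z0, zero_add]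
    have e2 := en_smul ψ hc.ne'
    unfold en at *
    simp only [key]
    rw [lintegral_const_mul' _ _ (by simp), lintegral_add_left (meas ψ), e2, ← two_mul,
      ← mul_assoc, ENNReal.div_eq_inv_mul]
    refine mul_le_mul_left (le_of_eq ?_) _
    rw [show (4 : ℝ≥0∞) = 2 * 2 by norm_num, ENNReal.mul_inv (by simp) (by simp), mul_assoc,
      ENNReal.inv_mul_cancel (by simp) (by simp), mul_one]

theorem small {η : ℝ} (hη : 0 < η) : ∃ ψ S, Pl ψ S ∧ en ψ ≤ ENNReal.ofReal η := by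
  obtain ⟨ψ, S, hp, hf⟩ := base
  have ind : ∀ n : ℕ, ∃ ψ' S', Pl ψ' S' ∧ en ψ' ≤ en ψ * 2⁻¹ ^ n := by
    intro n
    induction n with
    | zero => exact ⟨ψ, S, hp, by simp⟩
    | succ n ih =>
      obtain ⟨ψ', S', hp', he⟩ := ih
      obtain ⟨ψ'', S'', hp'', he'⟩ := half hp'
      refine ⟨ψ'', S'', hp'', he'.trans ?_⟩
      rw [pow_succ, ← mul_assoc, div_eq_mul_inv]
      exact mul_le_mul_left he _
  have ht : Tendsto (fun n : ℕ => en ψ * 2⁻¹ ^ n) atTop (𝓝 (en ψ * 0)) :=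
    ENNReal.Tendsto.const_mul
      (ENNReal.tendsto_pow_atTop_nhds_zero_of_lt_one (by simp)) (Or.inr hf)
  rw [mul_zero] at ht
  obtain ⟨n, hn⟩ := (ht.eventually (ge_mem_nhds (ENNReal.ofReal_pos.2 hη))).exists
  obtain ⟨ψ', S', hp', he⟩ := ind n
  exact ⟨ψ', S', hp', he.trans hn⟩

theorem en_mul {θ ψ : ℂ → ℝ} (hθ : ContDiff ℝ ∞ θ) (hψ : ContDiff ℝ ∞ ψ)
    (iθ : ∀ z, θ z ∈ Icc (0 : ℝ) 1) (iψ : ∀ z, ψ z ∈ Icc (0 : ℝ) 1) :
    en (fun z => θ z * (1 - ψ z)) ≤ 2 * (en θ + en ψ) := by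
  unfold en
  rw [← lintegral_add_left (meas θ), ← lintegral_const_mul' _ _ (by simp)]
  refine lintegral_mono fun z => ?_
  have d1 : DifferentiableAt ℝ θ z := hθ.differentiable (by simp) z
  have d2 : DifferentiableAt ℝ ψ z := hψ.differentiable (by simp) z
  have hle : ‖fderiv ℝ (fun z => θ z * (1 - ψ z)) z‖ ≤ ‖fderiv ℝ θ z‖ + ‖fderiv ℝ ψ z‖ := by
    rw [fderiv_fun_mul d1 (d2.const_sub 1), fderiv_const_sub]
    refine (norm_add_le _ _).trans ?_
    rw [norm_smul, norm_smul, norm_neg, Real.norm_of_nonneg (iθ z).1,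
      Real.norm_of_nonneg (by linarith [(iψ z).2])]
    nlinarith [norm_nonneg (fderiv ℝ θ z), norm_nonneg (fderiv ℝ ψ z), (iθ z).1, (iθ z).2,
      (iψ z).1, (iψ z).2]
  have h2 : ‖fderiv ℝ (fun z => θ z * (1 - ψ z)) z‖ ^ 2 ≤
      2 * (‖fderiv ℝ θ z‖ ^ 2 + ‖fderiv ℝ ψ z‖ ^ 2) := by
    have := pow_le_pow_left₀ (norm_nonneg _) hle 2
    nlinarith [sq_nonneg (‖fderiv ℝ θ z‖ - ‖fderiv ℝ ψ z‖)]
  simp only [← ofReal_norm]
  rw [← ENNReal.ofReal_pow (norm_nonneg _), ← ENNReal.ofReal_pow (norm_nonneg _),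
    ← ENNReal.ofReal_pow (norm_nonneg _), ← ENNReal.ofReal_add (sq_nonneg _) (sq_nonneg _),
    ← ENNReal.ofReal_ofNat 2, ← ENNReal.ofReal_mul (by norm_num)]
  exact ENNReal.ofReal_le_ofReal h2

end TC

open TC in
theorem bTC : St_TC := by
  intro B K η hB hK
  induction B, hB using Set.Finite.induction_on generalizing η with
  | empty =>
    intro _ hη
    obtain ⟨ψ, S, ⟨hS, hsm, hI, h1, h0⟩, he⟩ := small hη
    obtain ⟨R, hR, hKR⟩ := hK.isBounded.subset_closedBall_lt 0 0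
    have hc : (0 : ℝ) < R⁻¹ := by positivity
    have hn : ∀ z : ℂ, ‖R⁻¹ • z‖ = ‖z‖ / R := by
      intro z
      rw [norm_smul, Real.norm_of_nonneg hc.le, inv_mul_eq_div]
    refine ⟨fun z => ψ (R⁻¹ • z), ⟨hsm.comp (contDiff_const_smul _), ?_, by simp⟩,
      fun z => hI _, fun z hz => h1 _ ?_, ?_⟩
    · refine HasCompactSupport.intro (isCompact_closedBall 0 (S * R)) fun z hz => h0 _ ?_
      rw [hn, le_div_iff₀ hR]
      simpa using le_of_lt (not_le.1 (by simpa using hz))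
    · rw [hn, div_le_one hR]
      simpa using hKR hz
    · exact (en_smul ψ hc.ne').le.trans he
  | @insert b B _ _ ih =>
    intro hKB hη
    have hη4 : 0 < η / 4 := by positivity
    obtain ⟨θ, ⟨hθ, hθc, hθs⟩, iθ, oθ, eθ⟩ :=
      ih (η / 4) (hKB.trans (compl_subset_compl.2 (subset_insert b B))) hη4
    obtain ⟨ψ, S, ⟨hS, hsm, hI, h1, h0⟩, he⟩ := small hη4
    have hb : b ∈ Kᶜ := fun h => hKB h (mem_insert b B)
    obtain ⟨r, hr, hrK⟩ := Metric.isOpen_iff.1 hK.isClosed.isOpen_compl b hb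
    have hc : (0 : ℝ) < S / r := by positivity
    have hn : ∀ z : ℂ, ‖(S / r) • (z - b)‖ = S / r * ‖z - b‖ := by
      intro z
      rw [norm_smul, Real.norm_of_nonneg hc.le]
    have hsm2 : ContDiff ℝ ∞ fun z : ℂ => ψ ((S / r) • (z - b)) :=
      hsm.comp ((contDiff_id.sub contDiff_const).const_smul _)
    refine ⟨fun z => θ z * (1 - ψ ((S / r) • (z - b))), ⟨hθ.mul (contDiff_const.sub hsm2),
      hθc.mul_right, ?_⟩, fun z => ?_, fun z hz => ?_, ?_⟩
    · intro z hz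
      rintro (rfl | hzB)
      · refine (notMem_tsupport_iff_eventuallyEq.2 ?_) hz
        filter_upwards [Metric.ball_mem_nhds z (inv_pos.2 hc)] with w hw
        have : ‖(S / r) • (w - z)‖ ≤ 1 := by
          rw [hn, ← le_div_iff₀' hc, one_div]
          exact le_of_lt (by simpa [dist_eq_norm] using hw)
        simp only [h1 _ this, sub_self, mul_zero, Pi.zero_apply]
      · exact hθs (tsupport_mul_subset_left hz) hzB
    · have := iθ z
      have := hI ((S / r) • (z - b))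
      simp only [mem_Icc] at *
      constructor <;> nlinarith
    · have h3 : r ≤ ‖z - b‖ := by
        by_contra h
        exact hrK (show z ∈ Metric.ball b r by simpa [dist_eq_norm] using h) hz
      have : S ≤ ‖(S / r) • (z - b)‖ := by
        rw [hn, div_mul_eq_mul_div, le_div_iff₀ hr]
        exact mul_le_mul_of_nonneg_left h3 (by linarith)
      simp only [h0 _ this, oθ z hz, sub_zero, mul_one]
    · have e1 : en (fun z : ℂ => ψ ((S / r) • (z - b))) = en ψ :=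
        (en_sub (fun z => ψ ((S / r) • z)) b).trans (en_smul ψ hc.ne')
      refine (en_mul hθ hsm2 iθ fun z => hI _).trans ?_
      rw [e1]
      refine (mul_le_mul_right (add_le_add eθ he) 2).trans (le_of_eq ?_)
      rw [← ENNReal.ofReal_add hη4.le hη4.le, ← ENNReal.ofReal_ofNat 2,
        ← ENNReal.ofReal_mul (by norm_num)]
      congr 1
      ring

end Pool.Agent.Lib.CLF
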