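import Pool.Agent.Lib.CLF.ABlue

/-! The lift of a motion almost preserves the measures. -/

open MeasureTheory Filter Topology Set Function
open scoped ContDiff ENNReal ComplexConjugate

noncomputable section

namespace Pool.Agent.Lib.CLF

namespace TR1

variable {C : Cv} {U : Set ℂ} {a : B2 → ℂ} {e : ℂ} {m : Mo C.Ω U a e} (L : Li C m) {l : ℝ}

lemma sm (l : ℝ) : ContDiff ℝ ∞ (m.Ψ l) := m.sm.comp (contDiff_const.prodMk contDiff_id)

lemma cdet (l : ℝ) : Continuous fun z => |(fderiv ℝ (m.Ψ l) z).det| :=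
  (ContinuousLinearMap.continuous_det.comp ((sm l).continuous_fderiv (by simp))).abs

lemma perm (hl : l ∈ Icc 0 m.l0) {z} (hz : z ∈ C.Ω) (f : Am → ℝ≥0∞) :
    ∑ k, f (L.τ l (z, C.r k z)) = ∑ k, f (m.Ψ l z, C.r k (m.Ψ l z)) := by
  have hS : ∀ k, (z, C.r k z) ∈ C.S := fun k => ⟨hz, k, rfl⟩
  have : ∀ k, ∃ k', L.τ l (z, C.r k z) = (m.Ψ l z, C.r k' (m.Ψ l z)) := fun k => by
    obtain ⟨-, k', hk⟩ := L.maps l hl (hS k)
    have h1 := L.fst l hl _ (hS k)
    exact ⟨k', Prod.ext h1 (by rw [← hk, h1])⟩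
  choose σ hσ using this
  have inj : Injective σ := fun k k' h => C.inj z hz (congrArg Prod.snd
    (L.inj l hl (hS k) (hS k') (by rw [hσ, hσ, h])))
  simp only [hσ]
  exact (Finite.injective_iff_bijective.1 inj).sum_comp fun k => f (m.Ψ l z, C.r k (m.Ψ l z))

lemma aem (hB : St_BR) (hI : St_INT) (hl : l ∈ Icc 0 m.l0) : AEMeasurable (L.τ l) C.mu := by
  rw [← Measure.restrict_eq_self_of_ae_mem (hI.ae C)]
  exact (L.cont.comp (continuous_const.prodMk continuous_id).continuousOn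
    fun p hp => ⟨hl, hp⟩).aemeasurable (hB.meas C)

lemma key (hB : St_BR) (hI : St_INT) (hl : l ∈ Icc 0 m.l0) {W : B2 → ℝ≥0∞} (hW : Measurable W) :
    (C.mu.withDensity fun p => ENNReal.ofReal |(fderiv ℝ (m.Ψ l) p.1).det| * W (m.Ψ l p.1)).map
      (L.τ l) = C.mu.withDensity fun p => W p.1 := by
  have hτ := aem L hB hI hl
  have hd : Measurable fun p : Am =>
      ENNReal.ofReal |(fderiv ℝ (m.Ψ l) p.1).det| * W (m.Ψ l p.1) :=
    (((cdet l).measurable.ennreal_ofReal).mul (hW.comp (sm l).continuous.measurable)).comp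
      measurable_fst
  have hW' : Measurable fun p : Am => W p.1 := hW.comp measurable_fst
  obtain ⟨Φ, -, h1, h2⟩ := m.inv l hl
  have im : m.Ψ l '' C.Ω = C.Ω := by
    ext w
    exact ⟨fun ⟨z, hz, h⟩ => h ▸ (m.om l hl z).2 hz,
      fun h => ⟨Φ w, (m.om l hl _).1 (by rwa [h2 w]), h2 w⟩⟩
  have : (volume : Measure B2).IsAddHaarMeasure := Measure.prod.instIsAddHaarMeasure _ _
  refine Measure.ext_of_lintegral _ fun f hf => ?_
  have hf' : AEMeasurable (fun p => f (L.τ l p)) C.mu := hf.comp_aemeasurable hτ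
  rw [lintegral_map' hf.aemeasurable (hτ.mono_ac (withDensity_absolutelyContinuous _ _)),
    lintegral_withDensity_eq_lintegral_mul₀ hd.aemeasurable hf',
    lintegral_withDensity_eq_lintegral_mul _ hW' hf, hI.lint C (hd.aemeasurable.mul hf'),
    hI.lint C (hW'.mul hf).aemeasurable]
  conv_rhs => rw [← im, lintegral_image_eq_lintegral_abs_det_fderiv_mul volume C.op.measurableSet
    (fun z _ => ((sm l).differentiable (by simp) z).hasFDerivAt.hasFDerivWithinAt)
    h1.injective.injOn]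
  refine setLIntegral_congr_fun C.op.measurableSet fun z hz => ?_
  simp only [Pi.mul_apply, ← Finset.mul_sum, perm L hl hz, mul_assoc]

lemma tr (hB : St_BR) (hI : St_INT) (hl : l ∈ Icc 0 m.l0) {g : B2 → ℝ} (cg : Continuous g)
    (pg : ∀ z, 0 < g z) {ε : ℝ}
    (h : ∀ z, abs (|(fderiv ℝ (m.Ψ l) z).det| * (g (m.Ψ l z) / g z) - 1) ≤ ε) :
    Tr (C.mu.withDensity fun p => ENNReal.ofReal (g p.1)) (L.τ l) ε := by
  have hj : Measurable fun p : Am => |(fderiv ℝ (m.Ψ l) p.1).det| * (g (m.Ψ l p.1) / g p.1) :=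
    ((cdet l).measurable.mul ((cg.comp (sm l).continuous).measurable.div cg.measurable)).comp
      measurable_fst
  refine ⟨(aem L hB hI hl).mono_ac (withDensity_absolutelyContinuous _ _), _, hj,
    fun p => h p.1, ?_⟩
  have hg : Measurable fun p : Am => g p.1 := cg.measurable.comp measurable_fst
  rw [← withDensity_mul _ hg.ennreal_ofReal hj.ennreal_ofReal,
    ← key L hB hI hl cg.measurable.ennreal_ofReal]
  congr 2
  funext p
  rw [Pi.mul_apply, ← ENNReal.ofReal_mul (pg _).le, ← ENNReal.ofReal_mul (abs_nonneg _)]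
  congr 1
  field_simp [(pg p.1).ne']

end TR1

open TR1 in
theorem bTR1 (hJ : St_JAC) (hI : St_INT) (hB : St_BR) : St_TR1 := by
  intro C U a e m L x x0
  obtain ⟨c, c0, hc⟩ := hJ C.Ω U a e m x x0
  have p0 : ∀ z, 0 < rho x z := fun z => by unfold rho; positivity
  have c1 : Continuous (rho x) :=
    continuous_const.div (by fun_prop) fun z => by positivity
  refine ⟨c, c0, fun l hl => ⟨?_, tr L hB hI hl (g := fun z => rho x z.1 * rho x z.2) (by fun_prop)
    (fun z => mul_pos (p0 _) (p0 _)) fun z => (hc l hl z).2.2,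
    tr L hB hI hl (g := fun z => rho x z.1) (by fun_prop) (fun z => p0 _) fun z => (hc l hl z).2.1⟩⟩
  simpa using tr L hB hI hl (g := fun _ => 1) continuous_const (fun _ => one_pos)
    fun z => by simpa using (hc l hl z).1

end Pool.Agent.Lib.CLF
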