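import Pool.Agent.Lib.CLF.B_WIR

/-! Row TR2: the lift acts on test functions. -/

open MeasureTheory Filter Topology Set Function
open scoped ContDiff ENNReal ComplexConjugate

noncomputable section

namespace Pool.Agent.Lib.CLF

namespace TR2

theorem fst_zero {Ψ : B2 → B2} (hΨ : Differentiable ℝ Ψ)
    (h : ∀ z z', z.1 = z'.1 → (Ψ z).1 = (Ψ z').1) (z : B2) (c : ℂ) :
    (fderiv ℝ Ψ z (c • ev false)).1 = 0 := by
  have h1 := WIR.fd_oth false (fun t => (Ψ (t, 0)).1) z c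
  have h2 : (fun w : B2 => (Ψ (ot false w, 0)).1) = fun w => (Ψ w).1 := funext fun w => h _ _ rfl
  rw [h2, fderiv.fst (hΨ z)] at h1
  exact h1

theorem chain {Ψ : B2 → B2} (hΨ : Differentiable ℝ Ψ)
    (h : ∀ z z', z.1 = z'.1 → (Ψ z).1 = (Ψ z').1) {G : B2 → ℂ} {z : B2}
    (hG : DifferentiableAt ℝ G (Ψ z)) :
    wd false (fun w => G (Ψ w)) z =
      ((fderiv ℝ Ψ z (ev false)).2 + -Complex.I * (fderiv ℝ Ψ z (Complex.I • ev false)).2) / 2 *
        wd false G (Ψ z) +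
      conj (((fderiv ℝ Ψ z (ev false)).2 +
        Complex.I * (fderiv ℝ Ψ z (Complex.I • ev false)).2) / 2) * wb false G (Ψ z) := by
  have h0 := fst_zero hΨ h z 1
  rw [one_smul] at h0
  rw [wd, fderiv_fun_comp z hG (hΨ z), ContinuousLinearMap.comp_apply,
    ContinuousLinearMap.comp_apply, bWIR.fd, bWIR.fd G _ (fderiv ℝ Ψ z (Complex.I • ev false)), h0,
    fst_zero hΨ h z]
  simp only [map_div₀, map_add, map_mul, Complex.conj_I, map_ofNat, map_zero]
  ring

end TR2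

open TR2 in
theorem bTR2 (hLB : St_LB) (hBR : St_BR) : St_TR2 := by
  intro C U a e m L l hl
  have hΨ : ContDiff ℝ ∞ (m.Ψ l) := m.sm.comp (contDiff_const.prodMk contDiff_id)
  have hd : Differentiable ℝ (m.Ψ l) := hΨ.differentiable (by simp)
  have hT : Continuous (fderiv ℝ (m.Ψ l)) := hΨ.continuous_fderiv (by simp)
  have hsm : ∀ F, C.Sm F → C.Sm fun p => F (L.τ l p) := fun F hF p hp => by
    have h1 := hF _ (L.maps l hl hp)
    rw [L.fst l hl p hp] at h1
    exact (h1.comp p.1 hΨ.contDiffAt).congr_of_eventuallyEq (hLB.dn C L l hl p hp F)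
  have hb : ∀ z (v : B2), ‖v‖ = 1 → ‖(fderiv ℝ (m.Ψ l) z v).2 - v.2‖ ≤ m.M * l := fun z v hv => by
    have h1 := (fderiv ℝ (m.Ψ l) z - ContinuousLinearMap.id ℝ B2).le_opNorm v
    rw [hv, mul_one] at h1
    exact (norm_snd_le (fderiv ℝ (m.Ψ l) z v - v)).trans (h1.trans (m.dz l hl z))
  refine ⟨⟨fun z => ((fderiv ℝ (m.Ψ l) z (ev false)).2 +
      -Complex.I * (fderiv ℝ (m.Ψ l) z (Complex.I • ev false)).2) / 2,
    fun z => conj (((fderiv ℝ (m.Ψ l) z (ev false)).2 +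
      Complex.I * (fderiv ℝ (m.Ψ l) z (Complex.I • ev false)).2) / 2), by fun_prop,
    Complex.continuous_conj.comp (by fun_prop), fun z => ⟨?_, ?_⟩,
    fun F hF => ⟨hsm F hF, fun p hp => ?_⟩⟩, fun F hF => ?_, fun χ hχ => ?_⟩
  · refine le_of_eq_of_le ?_ (WIR.half_le (c := -Complex.I) (by simp) (hb z _ (WIR.norm_ev false))
      (hb z _ (WIR.norm_iev false)))
    congr 1
    simp only [ev, Prod.smul_mk, smul_eq_mul, mul_one]
    linear_combination (-1 / 2 : ℂ) * Complex.I_mul_I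
  · rw [Complex.norm_conj]
    refine le_of_eq_of_le ?_ (WIR.half_le (c := Complex.I) (by simp) (hb z _ (WIR.norm_ev false))
      (hb z _ (WIR.norm_iev false)))
    congr 1
    simp only [ev, Prod.smul_mk, smul_eq_mul, mul_one]
    linear_combination (1 / 2 : ℂ) * Complex.I_mul_I
  · have h1 := hF _ (L.maps l hl hp)
    rw [L.fst l hl p hp] at h1
    simp only [Cv.D, Cv.Db]
    rw [(bWIR.congr false (hLB.dn C L l hl p hp F)).1, L.fst l hl p hp]
    exact chain hd (m.fst l) (h1.differentiableAt (by simp))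
  · obtain ⟨h1, K, hK, hK', h2⟩ := hF
    obtain ⟨K', a1, a2, a3⟩ := hLB.supp C m hK (hK'.trans inter_subset_left)
    refine ⟨hsm F h1, K', a1, subset_inter a2 (subset_univ _), fun p hp hp' =>
      h2 _ (L.maps l hl hp) fun c => hp' ((a3 l hl p.1).1 ?_)⟩
    rwa [← L.fst l hl p hp]
  · obtain ⟨h1, K, hK, hK', h2⟩ := hχ
    obtain ⟨K', a1, a2, a3⟩ := hLB.supp C m hK (hK'.trans inter_subset_left)
    obtain ⟨Φ, hΦ, b1, b2⟩ := m.inv l hl
    have e : ∀ p ∈ C.S, χ (invFunOn (L.τ l) C.S (L.τ l p)) = χ p := fun p hp =>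
      congrArg χ ((L.inj l hl).leftInvOn_invFunOn hp)
    refine ⟨fun q => χ (invFunOn (L.τ l) C.S q), ⟨fun q hq => ?_, K', a1,
      subset_inter a2 (subset_univ _), fun q hq hq' => ?_⟩, e⟩
    · obtain ⟨p, hp, rfl⟩ := hLB.surj C L l hl hq
      have c1 := hLB.dn C L l hl p hp (cx fun q => χ (invFunOn (L.τ l) C.S q))
      have c2 : C.dn (cx χ) p =ᶠ[𝓝 p.1] fun w =>
          C.dn (cx fun q => χ (invFunOn (L.τ l) C.S q)) (L.τ l p) (m.Ψ l w) := by
        filter_upwards [c1, hBR.ev_dn C hp] with w w1 w2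
        rw [← w1]
        exact congrArg Complex.ofReal (e _ w2.1).symm
      have c3 : Tendsto Φ (𝓝 (m.Ψ l p.1)) (𝓝 p.1) := by
        simpa only [b1 p.1] using hΦ.continuous.tendsto (m.Ψ l p.1)
      have c4 : ContDiffAt ℝ ∞ (C.dn (cx χ) p) (Φ (m.Ψ l p.1)) := by
        rw [b1]
        exact h1 p hp
      rw [L.fst l hl p hp]
      refine (c4.comp _ hΦ.contDiffAt).congr_of_eventuallyEq ?_
      filter_upwards [c3.eventually c2] with w hw
      rw [b2] at hw
      exact hw.symm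
    · obtain ⟨p, hp, rfl⟩ := hLB.surj C L l hl hq
      rw [L.fst l hl p hp] at hq'
      exact (congrArg Complex.ofReal (e p hp)).trans (h2 p hp fun c => hq' ((a3 l hl p.1).2 c))

end Pool.Agent.Lib.CLF
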