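import Pool.Agent.Lib.CLF.BBlue

/-! Independent linear conditions lower the transcendence degree. -/

open Module

noncomputable section

namespace Pool.Agent.Lib.CLF

namespace TRD

theorem card_le {L ι : Type} [Field L] [CharZero L] [Fintype ι] (s : Finset L) {g : ι → L}
    (hg : AlgebraicIndependent ℚ g) (h : ∀ i, g i ∈ Subfield.closure (s : Set L)) :
    Fintype.card ι ≤ s.card := by
  have h1 : ∀ x ∈ Subfield.closure (s : Set L), IsAlgebraic (Algebra.adjoin ℚ (s : Set L)) x := by
    intro x hx
    induction hx using Subfield.closure_induction with
    | mem x hx =>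
      exact isAlgebraic_algebraMap (⟨x, Algebra.subset_adjoin hx⟩ : Algebra.adjoin ℚ (s : Set L))
    | one => exact isAlgebraic_one
    | add x y _ _ a b => exact a.add b
    | neg x _ a => exact a.neg
    | inv x _ a => exact IsAlgebraic.inv_iff.2 a
    | mul x y _ _ a b => exact a.mul b
  have h2 : (AlgebraicIndependent.matroid ℚ L).Indep (Set.range g) := hg.to_subtype_range
  have h3 := (h2.encard_le_eRk_of_subset (X := (AlgebraicIndependent.matroid ℚ L).closure s) (by
    rw [AlgebraicIndependent.matroid_closure_eq]
    rintro _ ⟨i, rfl⟩
    exact h1 _ (h i))).trans ((Matroid.eRk_closure_eq _ _).trans_le (Matroid.eRk_le_encard _ _))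
  replace h3 := hg.injective.encard_range.trans h3
  rw [Set.encard_coe_eq_coe_finsetCard, ENat.card_eq_coe_fintype_card] at h3
  exact_mod_cast h3

end TRD

theorem bTRD : St_TRD := by
  classical
  intro L ι κ _ _ _ _ T g A hg hA hl h0
  set K := Subfield.closure (T : Set L)
  let A' : κ → ι → K := fun k i => ⟨A k i, hA k i⟩
  have hl' : LinearIndependent K A' := by
    rw [Fintype.linearIndependent_iff] at hl ⊢
    intro c hc k
    refine Subtype.ext (hl (fun k => c k) (funext fun i => ?_) k)
    have := congrArg Subtype.val (congrFun hc i)
    simpa [A'] using this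
  let f := Fintype.linearCombination K g
  have h1 : Fintype.card κ ≤ finrank K (LinearMap.ker f) := by
    refine LinearIndependent.fintype_card_le_finrank (b := fun k => ⟨A' k, ?_⟩)
      (LinearIndependent.of_comp (LinearMap.ker f).subtype hl')
    rw [LinearMap.mem_ker, Fintype.linearCombination_apply]
    exact h0 k
  have h2 := f.finrank_range_add_finrank_ker
  rw [finrank_fintype_fun_eq_card, Fintype.range_linearCombination] at h2
  have : Module.Finite K (Submodule.span K (Set.range g)) :=
    Module.Finite.span_of_finite K (Set.finite_range g)
  obtain ⟨t, -, t2, t3, -⟩ := Submodule.exists_finset_span_eq_linearIndepOn K (Set.range g)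
  have h3 := TRD.card_le (T ∪ t) hg fun i => by
    have : g i ∈ Submodule.span K (t : Set L) := t3 ▸ Submodule.subset_span ⟨i, rfl⟩
    generalize g i = x at this
    induction this using Submodule.span_induction with
    | mem x hx => exact Subfield.subset_closure (by simp [Finset.mem_coe.1 hx])
    | zero => exact zero_mem _
    | add x y _ _ a b => exact add_mem a b
    | smul c x _ a => exact mul_mem (Subfield.closure_mono (by simp) c.2) a
  have := Finset.card_union_le T t
  omega

end Pool.Agent.Lib.CLF
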