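import Pool.Agent.Lib.CLF.ABlue

/-! Maps that almost preserve a measure. -/

open MeasureTheory Filter Topology Set Function
open scoped ENNReal

noncomputable section

namespace Pool.Agent.Lib.CLF

namespace TRL

variable {m : Measure Am} {j : Am → ℝ} {ε : ℝ}

theorem le1 (hj : Measurable j) (h : ∀ p, |j p - 1| ≤ ε) (hε : ε ≤ 1 / 2) :
    m ≤ (2 : ℝ≥0∞) • m.withDensity fun p => ENNReal.ofReal (j p) := by
  rw [← withDensity_smul _ hj.ennreal_ofReal]
  conv_lhs => rw [← withDensity_one (μ := m)]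
  refine withDensity_mono (Eventually.of_forall fun p => ?_)
  have := (abs_le.1 (h p)).1
  simp only [Pi.one_apply, Pi.smul_apply, smul_eq_mul]
  rw [← ENNReal.ofReal_ofNat, ← ENNReal.ofReal_mul (by norm_num), ENNReal.one_le_ofReal]
  linarith

theorem le2 (h : ∀ p, |j p - 1| ≤ ε) (hε : ε ≤ 1 / 2) :
    (m.withDensity fun p => ENNReal.ofReal (j p)) ≤ (2 : ℝ≥0∞) • m := by
  rw [← withDensity_const]
  refine withDensity_mono (Eventually.of_forall fun p => ?_)
  have := (abs_le.1 (h p)).2
  rw [← ENNReal.ofReal_ofNat]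
  exact ENNReal.ofReal_le_ofReal (by linarith)

theorem nrm {μ ν : Measure Am} (h : μ ≤ (2 : ℝ≥0∞) • ν) (f : Am → ℂ) :
    eLpNorm f 2 μ ≤ 2 * eLpNorm f 2 ν := by
  refine (eLpNorm_le_of_measure_le_smul h).trans ?_
  rw [smul_eq_mul]
  gcongr
  calc (2 : ℝ≥0∞) ^ (1 / 2 : ℝ≥0∞).toReal ≤ 2 ^ (1 : ℝ) :=
        ENNReal.rpow_le_rpow_of_exponent_le (by norm_num) (by norm_num)
    _ = 2 := ENNReal.rpow_one _

end TRL

open TRL in
theorem bTRL : St_TRL where
  ae := fun {m τ ε P} ⟨h1, j, hj, h2, h3⟩ hε hP => by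
    rw [← h3] at hP
    exact Measure.absolutelyContinuous_of_le_smul (le1 hj h2 hε)
      (ae_of_ae_map (h1.mono_ac (withDensity_absolutelyContinuous _ _)) hP)
  nrm := fun {m τ ε f} ⟨h1, j, hj, h2, h3⟩ hε hf => by
    have a := h1.mono_ac (withDensity_absolutelyContinuous m fun p => ENNReal.ofReal (j p))
    have hf' := h3.symm ▸ hf
    have e := eLpNorm_map_measure (p := 2) hf' a
    rw [h3] at e
    rw [e]
    exact ⟨(hf'.comp_aemeasurable a).mono_ac
      (Measure.absolutelyContinuous_of_le_smul (le1 hj h2 hε)), nrm (le1 hj h2 hε) _,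
      nrm (le2 h2 hε) _⟩
  int := fun {m τ ε f} ⟨h1, j, hj, h2, h3⟩ hε hf => by
    have a := h1.mono_ac (withDensity_absolutelyContinuous m fun p => ENNReal.ofReal (j p))
    have hf' := h3.symm ▸ hf
    have i1 : Integrable (fun p => f (τ p)) m :=
      (hf'.comp_aemeasurable a).of_measure_le_smul (by norm_num) (le1 hj h2 hε)
    have e := integral_map a hf'.aestronglyMeasurable
    rw [h3, integral_withDensity_eq_integral_toReal_smul hj.ennreal_ofReal
      (Eventually.of_forall fun _ => ENNReal.ofReal_lt_top)] at e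
    have j0 : ∀ p, (ENNReal.ofReal (j p)).toReal = j p := fun p =>
      ENNReal.toReal_ofReal (by linarith [(abs_le.1 (h2 p)).1])
    simp only [j0] at e
    have i2 : Integrable (fun p => j p • f (τ p)) m :=
      i1.bdd_smul 2 hj.aestronglyMeasurable (Eventually.of_forall fun p => by
        have := abs_le.1 (h2 p)
        exact abs_le.2 ⟨by linarith, by linarith⟩)
    refine ⟨i1, ?_⟩
    rw [e, ← integral_sub i1 i2, ← integral_const_mul]
    refine norm_integral_le_of_norm_le (i1.norm.const_mul _) (Eventually.of_forall fun p => ?_)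
    rw [show f (τ p) - j p • f (τ p) = (1 - j p) • f (τ p) by rw [sub_smul, one_smul], norm_smul,
      Real.norm_eq_abs, abs_sub_comm]
    exact mul_le_mul_of_nonneg_right (h2 p) (norm_nonneg _)

end Pool.Agent.Lib.CLF
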