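import Pool.Agent.Lib.CLF.ABlue

/-! Uniqueness of weak derivatives on the cover. -/

open MeasureTheory Filter Topology Set Function

noncomputable section

namespace Pool.Agent.Lib.CLF

theorem bUQ (hSH : St_SH) (hBR : St_BR) (hINT : St_INT) : St_UQ := by
  intro C U h hU hL H
  have loc : ∀ z ∈ C.Ω ∩ U, ∃ V, IsOpen V ∧ z ∈ V ∧ ∀ᵐ p ∂C.mu, p ∈ Prod.fst ⁻¹' V → h p = 0 := by
    intro z hz
    obtain ⟨ε, b, hε, hs, hb⟩ := hBR.triv C hz.1
    obtain ⟨δ, hδ, hK⟩ := Metric.nhds_basis_closedBall.mem_iff.1
      (inter_mem (Metric.ball_mem_nhds z hε) (hU.mem_nhds hz.2))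
    set V := Metric.ball z δ with hV
    have o : IsOpen V := Metric.isOpen_ball
    have s1 : V ⊆ Metric.ball z ε ∩ U := Metric.ball_subset_closedBall.trans hK
    have s2 : V ⊆ C.Ω ∩ U := fun w hw => ⟨hs (s1 hw).1, (s1 hw).2⟩
    have cb : ∀ k, ContinuousOn (b k) V := fun k w hw =>
      ((hb w (s1 hw).1).2.2 k).1.continuousAt.continuousWithinAt
    have mV : MeasurableSet (Prod.fst ⁻¹' V : Set Am) := measurable_fst o.measurableSet
    have e := hINT.loc C o.measurableSet (fun w hw => (s2 hw).1) cb
      fun w hw => ⟨(hb w (s1 hw).1).1, (hb w (s1 hw).1).2.1⟩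
    have am : ∀ k, AEMeasurable (fun w => (w, b k w)) (volume.restrict V) := fun k =>
      aemeasurable_id.prodMk ((cb k).aemeasurable o.measurableSet)
    have le : ∀ k, ((volume.restrict V).map fun w => (w, b k w)) ≤
        C.mu.restrict (Prod.fst ⁻¹' V) := fun k => by
      rw [e]
      exact Finset.single_le_sum (f := fun k => (volume.restrict V).map fun w => (w, b k w))
        (fun _ _ => Measure.zero_le _) (Finset.mem_univ k)
    have m2 : MemLp h 2 (C.mu.restrict (Prod.fst ⁻¹' V)) :=
      (hL.2 _ (isCompact_closedBall z δ) fun w hw => hs (hK hw).1).mono_measure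
        (Measure.restrict_mono (preimage_mono Metric.ball_subset_closedBall) le_rfl)
    haveI : IsFiniteMeasure (volume.restrict V) := ⟨by
      rw [Measure.restrict_apply_univ]; exact measure_ball_lt_top⟩
    have ik : ∀ k, IntegrableOn (fun w => h (w, b k w)) V := fun k =>
      ((m2.mono_measure (le k)).comp_of_map (am k)).integrable one_le_two
    have zk : ∀ k, ∀ᵐ w, w ∈ V → h (w, b k w) = 0 := fun k => by
      refine o.ae_eq_zero_of_integral_contDiff_smul_eq_zero (ik k).locallyIntegrableOn
        fun g g1 g2 g3 => ?_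
      have t : tsupport (cx g) = tsupport g := by
        unfold tsupport
        congr 1
        ext w
        simp [cx]
      obtain ⟨G, G1, -, G3, G4⟩ := hSH C V U b k (cx g) o s2 (fun w hw => hb w (s1 hw).1)
        ⟨Complex.ofRealCLM.contDiff.comp g1, by unfold HasCompactSupport; rwa [t], by rwa [t]⟩
      have i1 := (hINT.mul C hL hL G1).1
      have h0 := H G G1
      rw [← setIntegral_eq_integral_of_ae_compl_eq_zero (s := Prod.fst ⁻¹' V)
        ((hINT.ae C).mono fun p hp hv => by rw [(G4 p hp hv).1, mul_zero]), e,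
        integral_finsetSum_measure fun k _ => i1.restrict.mono_measure (le k),
        Finset.sum_eq_single k (fun k' _ hk => ?_) (fun h => (h (Finset.mem_univ k)).elim),
        integral_map (am k) (i1.restrict.mono_measure (le k)).aestronglyMeasurable] at h0
      · rw [← setIntegral_eq_integral_of_forall_compl_eq_zero (s := V) fun w hw => by
          rw [image_eq_zero_of_notMem_tsupport fun a => hw (g3 a), zero_smul], ← h0]
        refine setIntegral_congr_fun o.measurableSet fun w hw => ?_
        simp [(G3 w hw k).1, cx, mul_comm]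
      · rw [integral_map (am k') (i1.restrict.mono_measure (le k')).aestronglyMeasurable]
        refine setIntegral_eq_zero_of_forall_eq_zero fun w hw => ?_
        simp [(G3 w hw k').1, hk]
    refine ⟨V, o, Metric.mem_ball_self hδ, (ae_restrict_iff' mV).1 ?_⟩
    rw [e, ae_finsetSum_measure_iff]
    intro k _
    have a := (m2.mono_measure (le k)).1
    refine (eLpNorm_eq_zero_iff a two_ne_zero).1 ?_
    rw [eLpNorm_map_measure a (am k)]
    exact (eLpNorm_congr_ae ((ae_restrict_iff' o.measurableSet).2 (zk k))).trans eLpNorm_zero'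
  have n : C.mu {p | p ∈ C.S ∧ p.1 ∈ U ∧ h p ≠ 0} = 0 := by
    refine measure_null_of_locally_null _ fun p hp => ?_
    obtain ⟨V, o, hv, a⟩ := loc p.1 ⟨hp.1.1, hp.2.1⟩
    refine ⟨_, inter_mem_nhdsWithin _ ((o.preimage continuous_fst).mem_nhds hv),
      measure_mono_null (fun q hq => ?_) a⟩
    exact fun c => hq.1.2.2 (c hq.2)
  filter_upwards [hINT.ae C, measure_eq_zero_iff_ae_notMem.1 n] with p h1 h2 h3
  by_contra h4
  exact h2 ⟨h1, h3, h4⟩

end Pool.Agent.Lib.CLF
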