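import Pool.Agent.Lib.CLF.ABlue

/-! Integrability and the second weak derivative. -/

open MeasureTheory Filter Topology Set Function
open scoped ContDiff ENNReal ComplexConjugate

noncomputable section

namespace Pool.Agent.Lib.CLF

namespace W0

lemma tuniv {C : Cv} {U : Set B2} {F : Am → ℂ} (h : C.Tst U F) : C.Tst univ F := by
  obtain ⟨a, K, b, c, d⟩ := h
  exact ⟨a, K, b, fun z hz => ⟨(c hz).1, mem_univ _⟩, d⟩

lemma lp_conj {m : Measure Am} {f : Am → ℂ} (h : MemLp f 2 m) : MemLp (fun p => conj (f p)) 2 m :=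
  (Complex.conjCLE.toContinuousLinearMap.comp_memLp' h :)

lemma lp_cx {m : Measure Am} {f : Am → ℝ} (h : MemLp f 2 m) : MemLp (cx f) 2 m := h.ofReal

lemma lp_bd {m : Measure Am} {f : Am → ℂ} {a : B2 → ℂ} {M : ℝ} (ha : Continuous a)
    (hM : ∀ z, ‖a z‖ ≤ M) (h : MemLp f 2 m) : MemLp (fun p => a p.1 * f p) 2 m :=
  h.of_le_mul (c := M) ((ha.comp continuous_fst).aestronglyMeasurable.mul h.1)
    (Eventually.of_forall fun p => by
      rw [norm_mul]; exact mul_le_mul_of_nonneg_right (hM _) (norm_nonneg _))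

lemma lp_rho (hW : St_WM) (C : Cv) {l : ℝ} (hl : 0 < l) {v : Am → ℝ} (h : MemLp v 2 (C.mn l)) :
    MemLp (fun p => ((rho l p.1.2 * v p : ℝ) : ℂ)) 2 (C.mo l false) := by
  obtain ⟨p1, p2, -⟩ := hW.pos hl
  obtain ⟨-, a2, a3, -⟩ := hW.ac C false hl
  have c : Continuous fun p : Am => rho l p.1.2 := p2.continuous.comp (by fun_prop)
  have m : AEStronglyMeasurable (fun p => rho l p.1.2 * v p) (C.mo l false) :=
    c.aestronglyMeasurable.mul (h.1.mono_ac (a3.trans a2))
  refine lp_cx (f := fun p => rho l p.1.2 * v p) ((memLp_two_iff_integrable_sq m).2 ?_)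
  have i0 : Integrable (fun p => v p ^ 2) (C.mn l) := (memLp_two_iff_integrable_sq h.1).1 h
  have i0' : Integrable (fun p => ((v p ^ 2 : ℝ) : ℂ)) (C.mn l) :=
    Complex.ofRealCLM.integrable_comp i0
  have i1 := (hW.intn C (fun p => ((v p ^ 2 : ℝ) : ℂ)) hl).2.1 i0'
  have c' : Continuous fun p : Am => ((rho l p.1.2 : ℝ) : ℂ) := Complex.continuous_ofReal.comp c
  have i2 := i1.bdd_mul (c := l) c'.aestronglyMeasurable (Eventually.of_forall fun p => by
      rw [Complex.norm_real, Real.norm_eq_abs, abs_of_pos (p1 _).1]; exact (p1 _).2)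
  have i3 := (hW.into C false (fun p => (((rho l p.1.2 * v p) ^ 2 : ℝ) : ℂ)) hl).2.2
    (i2.congr (Eventually.of_forall fun p => by simp only [ot]; push_cast; ring))
  exact (Complex.reCLM.integrable_comp i3).congr (Eventually.of_forall fun p => Complex.ofReal_re _)

lemma lin3 {m : Measure Am} {f g h : Am → ℂ} (c : ℂ) (hf : Integrable f m) (hg : Integrable g m)
    (hh : Integrable h m) :
    ∫ p, (f p - c * g p - h p) ∂m = ∫ p, f p ∂m - c * ∫ p, g p ∂m - ∫ p, h p ∂m := by
  have a : Integrable (fun p => f p - c * g p) m := hf.sub (hg.const_mul c)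
  rw [integral_sub a hh, integral_sub hf (hg.const_mul c), integral_const_mul]

end W0

open W0 in
theorem bW0 (hMW : St_MW) (hRC : St_RC) (hMB : St_MB) (hST : St_ST) (hC : St_CAL) (hI : St_INT)
    (hW : St_WM) (hR : St_WIR) : St_W0 := by
  intro C l g u u' U a ψ ψ' w W ⟨hl, cut, g0, res, _, fld, mem, hw, hW', wd⟩
  obtain ⟨f₁, f₁', f₂, f₂', m1, m2, e1, e2⟩ := mem
  obtain ⟨sa, ⟨M, hM⟩, -, -⟩ := fld
  have ca : Continuous a := sa.continuous
  have cb : Continuous (wb false a) :=
    continuous_iff_continuousAt.2 fun z => (hR.sm false sa.contDiffAt).2.continuousAt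
  have lψ : MemLp ψ 2 (C.mn l) := by
    rw [funext e1]; exact (lp_cx m1.1).add ((lp_cx m2.1).const_mul _)
  have lψ' : MemLp ψ' 2 (C.mo l false) := by
    rw [funext e2]; exact m1.2.1.add (m2.2.1.const_mul _)
  have lu' := res.2.1.2.1
  have lv : MemLp (fun p => u p - g p) 2 (C.mn l) := res.2.1.1.sub res.1
  have lw : MemLp w 2 (C.mn l) := by
    rw [funext hw]
    exact (lp_conj lψ).sub (lp_bd ca (fun z => (hM z).1) ((hW.loc C false hl).2 lu').2)
  have lr := lp_rho hW C hl lv
  have lW : MemLp W 2 (C.mo l false) := by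
    rw [funext hW']
    exact ((lp_conj lψ').sub (lp_bd cb (fun z => (hM z).2) lu')).sub (lp_bd ca (fun z => (hM z).1) lr)
  have n : ∀ {f U χ}, MemLp f 2 (C.mn l) → C.Tst U χ → Integrable (fun p => f p * χ p) C.mu :=
    fun h t => have := (hW.loc C false hl).1 h; (hI.mul C this this t).1
  have o : ∀ {b f U χ}, MemLp f 2 (C.mo l b) → C.Tst U χ → Integrable (fun p => f p * χ p) C.mu :=
    fun {b _ _ _} h t => n ((hW.loc C b hl).2 h).2 t
  refine ⟨lw, lW, ?_, fun χ hχ => ?_, fun χ hχ => ?_⟩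
  · obtain ⟨M', hM'⟩ := g0.1.2
    refine ⟨M', ?_⟩
    filter_upwards [hMB.bd C hl cut res hM', hI.ae C] with p h1 h2 using ⟨h1, hM' p h2⟩
  · have tD := (hC.tD C true hχ).1
    have s := (hST C true _ _ (hC.tmul C g0.1.1 hχ)).1
    have i1 := n (lp_cx res.2.1.1) tD
    have i2 := n (lp_cx res.1) tD
    have i3 := n lw hχ
    have i4 := o (g0.2 true) hχ
    rw [integral_congr_ae ((hI.ae C).mono fun p hp => ((hC.mul C g0.1.1 hχ.1).2 true p hp).1),
      integral_add i4 i2] at s
    have e3 : ∫ p, cx (fun p => u p - g p) p * C.D true χ p ∂C.mu =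
        ∫ p, cx u p * C.D true χ p ∂C.mu - ∫ p, cx g p * C.D true χ p ∂C.mu := by
      rw [← integral_sub i1 i2]
      congr 1; funext p; simp only [cx]; push_cast; ring
    have e4 : ∫ p, (w p - C.D true (cx g) p) * χ p ∂C.mu =
        ∫ p, w p * χ p ∂C.mu - ∫ p, C.D true (cx g) p * χ p ∂C.mu := by
      rw [← integral_sub i3 i4]
      congr 1; funext p; ring
    rw [e3, e4, wd χ hχ]
    linear_combination -s
  · have tD := (hC.tD C true hχ).1
    have tB := (hC.tD C false hχ).2
    have sa' := hC.smb C sa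
    have ta := hC.tmul C sa' hχ
    have h1 := (hMW C l false u u' hl res.2.1).2.1 _ (tuniv tD)
    have h2 := wd _ tB
    have h3 := (hMW C l false _ _ hl m1).2.1 _ (tuniv hχ)
    have h4 := (hMW C l false _ _ hl m2).2.1 _ (tuniv hχ)
    have h5 := (hRC C l false g u u' hl res).1 _ (tuniv ta)
    have h6 : ∫ p, cx u p * C.D true (C.Db false χ) p ∂C.mu =
        ∫ p, cx u p * C.Db false (C.D true χ) p ∂C.mu :=
      integral_congr_ae ((hI.ae C).mono fun p hp => by
        simp only [(hC.comm C true false hχ.1 p hp).2])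
    have j1 := n (lp_cx m1.1) tB
    have j2 := n (lp_cx m2.1) tB
    have j3 := o (lp_bd ca (fun z => (hM z).1) lu') tB
    have k1 := o (lp_conj m1.2.1) hχ
    have k2 := o (lp_conj m2.2.1) hχ
    have k3 := o (lp_bd cb (fun z => (hM z).2) lu') hχ
    have k4 := o lr ta
    have h7 : ∫ p, w p * C.Db false χ p ∂C.mu = ∫ p, cx f₁ p * C.Db false χ p ∂C.mu -
        Complex.I * ∫ p, cx f₂ p * C.Db false χ p ∂C.mu -
        ∫ p, a p.1 * u' p * C.Db false χ p ∂C.mu := by
      rw [← lin3 _ j1 j2 j3]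
      congr 1; funext p
      simp only [hw, e1, cx, map_add, map_mul, Complex.conj_ofReal, Complex.conj_I]; ring
    have h8 : ∫ p, u' p * C.Db false (fun p => a p.1 * χ p) p ∂C.mu =
        ∫ p, wb false a p.1 * u' p * χ p ∂C.mu + ∫ p, a p.1 * u' p * C.Db false χ p ∂C.mu := by
      rw [← integral_add k3 j3]
      refine integral_congr_ae ((hI.ae C).mono fun p hp => ?_)
      simp only [((hC.mul C sa' hχ.1).2 false p hp).2, (hC.base C false a p).2]; ring
    have h9 : ∫ p, W p * χ p ∂C.mu = ∫ p, conj (f₁' p) * χ p ∂C.mu -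
        Complex.I * ∫ p, conj (f₂' p) * χ p ∂C.mu - ∫ p, wb false a p.1 * u' p * χ p ∂C.mu -
        ∫ p, ((rho l p.1.2 * (u p - g p) : ℝ) : ℂ) * (a p.1 * χ p) ∂C.mu := by
      have k5 : Integrable (fun p => conj (f₁' p) * χ p - Complex.I * (conj (f₂' p) * χ p) -
          wb false a p.1 * u' p * χ p) C.mu := (k1.sub (k2.const_mul _)).sub k3
      rw [← lin3 _ k1 k2 k3, ← integral_sub k5 k4]
      congr 1; funext p
      simp only [hW', e2, map_add, map_mul, Complex.conj_I]; ring
    simp only [co] at h5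
    linear_combination h1 - h2 + h6 + h7 + h3 - Complex.I * h4 - h5 + h8 + h9

end Pool.Agent.Lib.CLF
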