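import Pool.Agent.Lib.CLF.ABlue

/-! The differentiated equation and the equation, tested against members. -/

open MeasureTheory Filter Topology Set Function
open scoped ContDiff ENNReal ComplexConjugate

noncomputable section

namespace Pool.Agent.Lib.CLF

namespace W1

lemma up {C : Cv} {U : Set B2} {F : Am → ℂ} (h : C.Tst U F) : C.Tst univ F := by
  obtain ⟨a, K, b, c, d⟩ := h
  exact ⟨a, K, b, fun z hz => ⟨(c hz).1, trivial⟩, d⟩

lemma den (hD : St_DEN) (hC : St_CAL) (hM : St_WM) (hI : St_INT) (hW : St_WIR) {C : Cv} {l : ℝ}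
    {U : Set ℂ} {h k : Am → ℂ} (hl : 0 < l) (hh : MemLp h 2 (C.mn l))
    (hk : MemLp k 2 (C.mo l false)) (e : ∀ χ, C.Tst (Prod.fst ⁻¹' U) χ →
      ∫ p, rho l p.1.2 * h p * χ p ∂C.mu + ∫ p, k p * C.D false χ p ∂C.mu = 0)
    {θ : ℂ → ℂ} {φ φ' : Am → ℂ} (hθ : Bump U θ) (hφ : C.MemC l false φ φ') :
    ∫ p, θ p.1.1 * (rho l p.1.2 * h p * φ p + k p * φ' p) ∂C.mu = 0 := by
  have r0 : ∀ z, (rho l z : ℂ) ≠ 0 := fun z => Complex.ofReal_ne_zero.2 ((hM.pos hl).1 z).1.ne'
  have c : Continuous fun z => θ z * (rho l z : ℂ)⁻¹ := hθ.1.continuous.mul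
    ((Complex.continuous_ofReal.comp (hM.pos hl).2.1.continuous).inv₀ r0)
  obtain ⟨M, hb⟩ := c.bounded_above_of_compact_support hθ.2.1.mul_right
  have ml : ∀ {m : Measure Am} {f : Am → ℂ}, MemLp f 2 m →
      MemLp (fun p => θ p.1.1 * (rho l p.1.1 : ℂ)⁻¹ * f p) 2 m := fun hf =>
    hf.of_le_mul (c := M) ((c.comp (continuous_fst.comp continuous_fst)).aestronglyMeasurable.mul
      hf.1) (Eventually.of_forall fun p => by
        rw [norm_mul]
        exact mul_le_mul_of_nonneg_right (hb _) (norm_nonneg _))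
  have e1 : ∀ g : Am → ℂ, (fun p : Am => (rho l p.1.1 * rho l p.1.2 : ℝ) *
      (θ p.1.1 * (rho l p.1.1 : ℂ)⁻¹ * h p * g p)) =
      fun p => θ p.1.1 * (rho l p.1.2 * h p * g p) := fun g => funext fun p => by
    have := r0 p.1.1
    push_cast
    field_simp
  have e2 : ∀ g : Am → ℂ, (fun p : Am => rho l (ot false p.1) *
      (θ p.1.1 * (rho l p.1.1 : ℂ)⁻¹ * k p * g p)) = fun p => θ p.1.1 * (k p * g p) :=
    fun g => funext fun p => by
      have := r0 p.1.1
      simp only [ot]
      field_simp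
  have key : ∀ f f', C.Mem l false f f' →
      Integrable (fun p => θ p.1.1 * (rho l p.1.2 * h p * f p)) C.mu ∧
      Integrable (fun p => θ p.1.1 * (k p * f' p)) C.mu ∧
      ∫ p, θ p.1.1 * (rho l p.1.2 * h p * f p) ∂C.mu + ∫ p, θ p.1.1 * (k p * f' p) ∂C.mu = 0 :=
    fun f f' hf => by
      refine ⟨?_, ?_, ?_⟩
      · rw [← e1]
        exact (hM.intn C _ hl).2.1 ((ml hh).integrable_mul (hf.1.ofReal (K := ℂ)))
      · rw [← e2]
        exact (hM.into C false _ hl).2.1 ((ml hk).integrable_mul hf.2.1)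
      have := hD C l false _ _ 0 hl (ml hh) (ml hk) MemLp.zero (fun ψ hψ => ?_) f f' hf
      · simp only [Pi.zero_apply, zero_mul, add_zero] at this
        rwa [(hM.intn C _ hl).1, (hM.into C false _ hl).1, e1, e2] at this
      · simp only [Pi.zero_apply, zero_mul, add_zero]
        rw [(hM.intn C _ hl).1, (hM.into C false _ hl).1, e1, e2, ← e _ (hC.tloc C hθ hψ)]
        congr 1
        · refine integral_congr_ae (Eventually.of_forall fun p => ?_)
          simp only [cx]
          ring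
        · refine integral_congr_ae ((hI.ae C).mono fun p hp => ?_)
          have s := hC.smb C (h := fun z => θ z.1) (hθ.1.comp contDiff_fst)
          have o : wd false (fun z => θ z.1) p.1 = 0 := (hW.oth false θ p.1).1
          simp only [((hC.mul C s hψ.1).2 false p hp).1,
            (hC.base C false (fun z => θ z.1) p).1, o]
          ring
  obtain ⟨f, f', g, g', hf, hg, a, b⟩ := hφ
  obtain ⟨i1, i2, i3⟩ := key f f' hf
  obtain ⟨j1, j2, j3⟩ := key g g' hg
  have : ∀ p, θ p.1.1 * (rho l p.1.2 * h p * φ p + k p * φ' p) =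
      (θ p.1.1 * (rho l p.1.2 * h p * f p) + θ p.1.1 * (k p * f' p)) +
      Complex.I * (θ p.1.1 * (rho l p.1.2 * h p * g p) + θ p.1.1 * (k p * g' p)) := fun p => by
    rw [a, b]
    ring
  simp only [this]
  rw [integral_add (i1.fun_add i2) ((j1.fun_add j2).const_mul _), integral_const_mul,
    integral_add i1 i2, integral_add j1 j2, i3, j3, mul_zero, add_zero]

end W1

open W1 in
theorem bW1 (h0 : St_W0) (hR : St_RC) (hD : St_DEN) (hC : St_CAL) (hM : St_WM) (hI : St_INT)
    (hW : St_WIR) : St_W1 := by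
  intro C l g u u' U a ψ ψ' w W k θ φ φ' hθ hφ
  have hl := k.pos
  obtain ⟨m1, m2, -, d1, d2⟩ := h0 C l g u u' U a ψ ψ' w W k
  have r := (hR C l false g u u' hl k.res).2
  constructor
  · refine den hD hC hM hI hW (h := fun p => w p - C.D true (cx g) p) hl
      (m1.sub ((hM.loc C true hl).2 (k.g0.2 true)).2) m2 (fun χ hχ => ?_) hθ hφ
    have s := hC.smb C (h := fun z => (rho l z.2 : ℂ))
      ((Complex.ofRealCLM.contDiff.comp (hM.pos hl).2.1).comp contDiff_snd)
    have a1 := d1 _ (hC.tmul C s hχ)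
    have a2 := d2 _ (hC.tD C false hχ).1
    have a3 := r _ (up (hC.tD C true hχ).1)
    have b1 : ∫ p, cx (fun p => u p - g p) p * C.D true (fun p => rho l p.1.2 * χ p) p ∂C.mu =
        ∫ p, (rho l (co false p.1) * (u p - g p) : ℝ) * C.D true χ p ∂C.mu := by
      refine integral_congr_ae ((hI.ae C).mono fun p hp => ?_)
      have o : wd true (fun z => (rho l z.2 : ℂ)) p.1 = 0 :=
        (hW.oth true (fun z => (rho l z : ℂ)) p.1).1
      simp only [((hC.mul C s hχ.1).2 true p hp).1,
        (hC.base C true (fun z => (rho l z.2 : ℂ)) p).1, o, cx, co]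
      push_cast
      ring
    have b2 : ∫ p, conj (u' p) * C.D true (C.D false χ) p ∂C.mu =
        ∫ p, conj (u' p) * C.D false (C.D true χ) p ∂C.mu :=
      integral_congr_ae ((hI.ae C).mono fun p hp => by
        simp only [(hC.comm C true false hχ.1 p hp).1])
    have b3 : ∫ p, rho l p.1.2 * (w p - C.D true (cx g) p) * χ p ∂C.mu =
        ∫ p, (w p - C.D true (cx g) p) * (rho l p.1.2 * χ p) ∂C.mu :=
      integral_congr_ae (Eventually.of_forall fun p => by ring)
    linear_combination b3 + a1 - b1 + a2 - b2 - a3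
  · have := den hD hC hM hI hW (h := fun p => ((u p - g p : ℝ) : ℂ)) (k := fun p => conj (u' p)) hl
      ((k.res.2.1.1.sub k.res.1).ofReal (K := ℂ)) k.res.2.1.2.1.star (fun χ hχ => ?_) hθ hφ
    · simpa only [Complex.ofReal_mul] using this
    · have a3 := r _ (up hχ)
      simp only [Complex.ofReal_mul, co] at a3
      linear_combination a3

end Pool.Agent.Lib.CLF
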