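import Pool.Agent.Lib.CLF.BBlue

/-! Row `WDEC`: the normalised square of the modulus is a separated kernel. -/

open MvPolynomial Filter Topology Function Module Pool.Agent.Lib.MP_08f962_ag
open scoped ContDiff ComplexConjugate

noncomputable section

namespace Pool.Agent.Lib.CLF

namespace WDEC

variable {n m : ℕ}

/-- The square of the Euclidean norm. -/
def nq (x : Fin (n + 1) → ℂ) : ℝ := ∑ i, Complex.normSq (x i)

theorem nq_pos {x : Fin (n + 1) → ℂ} (hx : x ≠ 0) : 0 < nq x := by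
  obtain ⟨i, hi⟩ := Function.ne_iff.1 hx
  exact Finset.sum_pos' (fun _ _ => Complex.normSq_nonneg _)
    ⟨i, Finset.mem_univ _, Complex.normSq_pos.2 hi⟩

theorem nq_eq (x : Fin (n + 1) → ℂ) : (nq x : ℂ) = ∑ i, x i * conj (x i) := by
  simp only [nq, Complex.ofReal_sum, Complex.mul_conj]

/-- A normalised product of a monomial and a conjugate monomial. -/
def mo (a b : Fin (n + 1) → ℕ) (u : ℕ) (w : ℂ) (x : Fin (n + 1) → ℂ) : ℂ :=
  w * ((∏ i, x i ^ a i) * conj (∏ i, x i ^ b i)) / (nq x : ℂ) ^ u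

theorem mo_sm (a b : Fin (n + 1) → ℕ) (u : ℕ) (w : ℂ) : ContDiffOn ℝ ∞ (mo a b u w) {x | x ≠ 0} := by
  have h1 : ∀ a : Fin (n + 1) → ℕ, ContDiff ℝ ∞ fun x : Fin (n + 1) → ℂ => ∏ i, x i ^ a i :=
    fun a => contDiff_prod fun i _ => (contDiff_apply ℝ ℂ i).pow _
  have h2 : ContDiff ℝ ∞ fun x : Fin (n + 1) → ℂ => (nq x : ℂ) := by
    simp only [nq_eq]
    exact ContDiff.sum fun i _ => (contDiff_apply ℝ ℂ i).mul
      (Complex.conjCLE.contDiff.comp (contDiff_apply ℝ ℂ i))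
  have h3 := (contDiff_const (c := w)).mul ((h1 a).mul (Complex.conjCLE.contDiff.comp (h1 b)))
  exact h3.contDiffOn.mul ((h2.pow u).contDiffOn.inv fun x hx =>
    pow_ne_zero _ (Complex.ofReal_ne_zero.2 (nq_pos hx).ne'))

theorem mo_smul {a b : Fin (n + 1) → ℕ} {u : ℕ} (ha : ∑ i, a i = u) (hb : ∑ i, b i = u) (w : ℂ)
    {c : ℂ} (hc : c ≠ 0) (x : Fin (n + 1) → ℂ) : mo a b u w (c • x) = mo a b u w x := by
  have e : (nq (c • x) : ℂ) = c * conj c * nq x := by
    simp only [nq_eq, Pi.smul_apply, smul_eq_mul, map_mul, Finset.mul_sum]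
    exact Finset.sum_congr rfl fun i _ => by ring
  have h0 : (c * conj c) ^ u ≠ 0 := pow_ne_zero _ (mul_ne_zero hc ((map_ne_zero _).2 hc))
  simp only [mo, e, Pi.smul_apply, smul_eq_mul, mul_pow, Finset.prod_mul_distrib,
    Finset.prod_pow_eq_pow_sum, ha, hb, map_mul, map_pow] at h0 ⊢
  refine Eq.trans ?_ (mul_div_mul_left _ _ h0)
  congr 1
  ring

theorem reg {a b : Fin (n + 1) → ℕ} {u : ℕ} (ha : ∑ i, a i = u) (hb : ∑ i, b i = u) (w : ℂ)
    (L : ℂ →L[ℝ] ℝ) : Reg fun x => L (mo a b u w x) :=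
  ⟨L.contDiff.comp_contDiffOn (mo_sm a b u w), fun c hc x => by simp only [mo_smul ha hb w hc]⟩

theorem deg {α : Fin (n + 1) ⊕ Fin (m + 1) →₀ ℕ} {u v : ℕ}
    (h : Finsupp.weight (wt n m) α = (u, v)) :
    ∑ i, α (Sum.inl i) = u ∧ ∑ j, α (Sum.inr j) = v := by
  rw [Finsupp.weight_apply, Finsupp.sum_fintype _ _ (by simp), Fintype.sum_sum_type] at h
  simpa [wt, Prod.ext_iff, Prod.fst_sum, Prod.snd_sum] using h

theorem pt_eq (G : S n m) (x : Fin (n + 1) → ℂ) (y : Fin (m + 1) → ℂ) : pt x y G =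
    ∑ α : G.support, G.coeff α * ((∏ i, x i ^ α.1 (Sum.inl i)) * ∏ j, y j ^ α.1 (Sum.inr j)) := by
  rw [pt, aeval_def, eval₂_eq', ← Finset.sum_coe_sort]
  simp [Fintype.prod_sum_type]

end WDEC

open WDEC in
theorem bWDEC : St_WDEC := by
  intro n m u v G hG
  have hd := fun α : G.support => deg (hG (mem_support_iff.1 α.2))
  let A : G.support × G.support → (Fin (n + 1) → ℂ) → ℂ := fun q =>
    mo (fun i => q.1.1 (Sum.inl i)) (fun i => q.2.1 (Sum.inl i)) u
      (G.coeff q.1 * conj (G.coeff q.2))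
  let B : G.support × G.support → (Fin (m + 1) → ℂ) → ℂ := fun q =>
    mo (fun j => q.1.1 (Sum.inr j)) (fun j => q.2.1 (Sum.inr j)) v 1
  let L : Bool → ℂ →L[ℝ] ℝ := fun b => if b then Complex.reCLM else Complex.imCLM
  let L' : Bool → ℂ →L[ℝ] ℝ := fun b => if b then Complex.reCLM else -Complex.imCLM
  let e := (Fintype.equivFin ((G.support × G.support) × Bool)).symm
  refine ⟨_, fun k x => L (e k).2 (A (e k).1 x), fun k y => L' (e k).2 (B (e k).1 y),
    fun k => ⟨reg (hd _).1 (hd _).1 _ _, reg (hd _).2 (hd _).2 _ _⟩, fun x y hx hy => ?_⟩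
  have hx' := nq_pos hx
  have hy' := nq_pos hy
  have key : ∑ k, L (e k).2 (A (e k).1 x) * L' (e k).2 (B (e k).1 y) =
      Complex.normSq (pt x y G) / (nq x ^ u * nq y ^ v) := by
    have e1 : ((Complex.normSq (pt x y G) / (nq x ^ u * nq y ^ v) : ℝ) : ℂ) =
        ∑ q, A q x * B q y := by
      push_cast
      rw [← Complex.mul_conj, pt_eq, map_sum, Finset.sum_mul_sum, Fintype.sum_prod_type,
        Finset.sum_div]
      refine Finset.sum_congr rfl fun α _ => ?_
      rw [Finset.sum_div]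
      refine Finset.sum_congr rfl fun β _ => ?_
      simp only [A, B, mo, map_mul]
      ring
    rw [e.sum_comp fun q => L q.2 (A q.1 x) * L' q.2 (B q.1 y), Fintype.sum_prod_type,
      ← Complex.ofReal_re (_ / _), e1, Complex.re_sum]
    exact Finset.sum_congr rfl fun q _ => by simp [L, L', sub_eq_add_neg]
  rw [key]
  refine ⟨div_nonneg (Complex.normSq_nonneg _) (by positivity), ?_⟩
  rw [div_eq_zero_iff, Complex.normSq_eq_zero, or_iff_left (by positivity)]

end Pool.Agent.Lib.CLF
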