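import Pool.Agent.Lib.CLF.ABlue

/-! Row WIR: flat Wirtinger calculus. -/

open MeasureTheory Filter Topology Set Function
open scoped ContDiff ENNReal ComplexConjugate

noncomputable section

namespace Pool.Agent.Lib.CLF

namespace WIR

theorem norm_ev (b : Bool) : ‖ev b‖ = 1 := by cases b <;> simp [ev]

theorem norm_iev (b : Bool) : ‖Complex.I • ev b‖ = 1 := by simp [norm_smul, norm_ev]

theorem fd_conj (f : B2 → ℂ) (z v : B2) :
    fderiv ℝ (fun w => conj (f w)) z v = conj (fderiv ℝ f z v) := by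
  have := Complex.conjCLE.comp_fderiv (f := f) (x := z)
  exact congrArg (fun L : B2 →L[ℝ] ℂ => L v) this

theorem has_two {f : B2 → ℂ} {z : B2} (h : ContDiffAt ℝ ∞ f z) (c : ℂ) (u u' v : B2) :
    fderiv ℝ (fun w => (fderiv ℝ f w u + c * fderiv ℝ f w u') / 2) z v =
      (fderiv ℝ (fderiv ℝ f) z v u + c * fderiv ℝ (fderiv ℝ f) z v u') / 2 := by
  have h1 : HasFDerivAt (fderiv ℝ f) (fderiv ℝ (fderiv ℝ f) z) z :=
    ((h.fderiv_right (m := 1) (by norm_cast)).differentiableAt one_ne_zero).hasFDerivAt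
  have h2 := fun u => (ContinuousLinearMap.apply ℝ ℂ u).hasFDerivAt.comp z h1
  have h3 := ((h2 u).add ((h2 u').const_mul c)).mul_const (2⁻¹ : ℂ)
  have h4 : (fun w => (fderiv ℝ f w u + c * fderiv ℝ f w u') / 2) = fun w =>
      ((ContinuousLinearMap.apply ℝ ℂ u ∘ fderiv ℝ f) +
        fun w => c * (ContinuousLinearMap.apply ℝ ℂ u' ∘ fderiv ℝ f) w) w * 2⁻¹ := by
    funext w
    simp [div_eq_mul_inv]
  rw [h4, h3.fderiv]
  simp
  ring

theorem wd_eq (b : Bool) (f : B2 → ℂ) : wd b f = fun z =>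
    (fderiv ℝ f z (ev b) + -Complex.I * fderiv ℝ f z (Complex.I • ev b)) / 2 := by
  funext z
  rw [wd, neg_mul, sub_eq_add_neg]

theorem wb_eq (b : Bool) (f : B2 → ℂ) : wb b f = fun z =>
    (fderiv ℝ f z (ev b) + Complex.I * fderiv ℝ f z (Complex.I • ev b)) / 2 := rfl

theorem fd_oth (b : Bool) (h : ℂ → ℂ) (z : B2) (c : ℂ) :
    fderiv ℝ (fun w => h (ot b w)) z (c • ev b) = 0 := by
  by_cases hd : DifferentiableAt ℝ (fun w => h (ot b w)) z
  · rw [← hd.lineDeriv_eq_fderiv, lineDeriv]
    have : (fun t : ℝ => h (ot b (z + t • c • ev b))) = fun _ => h (ot b z) := by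
      funext t
      cases b <;> simp [ot, ev]
    rw [this, deriv_const]
  · rw [fderiv_zero_of_not_differentiableAt hd]
    rfl

theorem half_le {A B c : ℂ} {M : ℝ} (hc : ‖c‖ = 1) (hA : ‖A‖ ≤ M) (hB : ‖B‖ ≤ M) :
    ‖(A + c * B) / 2‖ ≤ M := by
  have := norm_add_le A (c * B)
  rw [norm_mul, hc, one_mul] at this
  rw [norm_div, Complex.norm_ofNat]
  linarith

theorem int_fd {f : B2 → ℂ} (hf : ContDiff ℝ 1 f) (hc : HasCompactSupport f) (v : B2) :
    Integrable (fun z => fderiv ℝ f z v) ∧ ∫ z, fderiv ℝ f z v = 0 := by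
  have : Measure.IsAddHaarMeasure (volume : Measure B2) :=
    Measure.prod.instIsAddHaarMeasure _ _
  have h1 : Integrable fun z => fderiv ℝ f z v :=
    ((hf.continuous_fderiv one_ne_zero).clm_apply continuous_const).integrable_of_hasCompactSupport
      (hc.fderiv_apply ℝ v)
  refine ⟨h1, ?_⟩
  have := integral_mul_fderiv_eq_neg_fderiv_mul_of_integrable (μ := (volume : Measure B2))
    (f := fun _ => (1 : ℂ)) (g := f) (v := v) (by simp) (by simpa using h1)
    (by simpa using hf.continuous.integrable_of_hasCompactSupport hc)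
    (fun _ _ => differentiableAt_const _) fun _ _ => hf.differentiable one_ne_zero _
  simpa using this

theorem hol (b : Bool) {f : B2 → ℂ} {z : B2} (h : DifferentiableAt ℂ f z) :
    wb b f z = 0 ∧ wd b f z = fderiv ℂ f z (ev b) := by
  simp only [wb, wd, h.fderiv_restrictScalars ℝ, ContinuousLinearMap.coe_restrictScalars',
    map_smul, smul_eq_mul, ← mul_assoc, Complex.I_mul_I]
  constructor <;> ring

end WIR

open WIR in
theorem bWIR : St_WIR where
  add b f g z hf hg := by
    simp only [wd, fderiv_fun_add hf hg, add_apply]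
    ring
  mul b f g z hf hg := by
    simp only [wd, fderiv_fun_mul hf hg, add_apply,
      smul_apply, smul_eq_mul]
    ring
  star b f z := by simp [wb, wd, fd_conj, map_ofNat]
  cst b c z := by simp [wd]
  congr b f g z h := by simp only [wd, wb, h.fderiv_eq, and_self]
  sm b f z h := by
    have h1 : ContDiffAt ℝ ∞ (fderiv ℝ f) z := h.fderiv_right (by simp)
    rw [wd_eq, wb_eq]
    exact ⟨((h1.clm_apply contDiffAt_const).add
      (contDiffAt_const.mul (h1.clm_apply contDiffAt_const))).div_const _,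
      ((h1.clm_apply contDiffAt_const).add
      (contDiffAt_const.mul (h1.clm_apply contDiffAt_const))).div_const _⟩
  comm b b' f z h := by
    have s : ∀ u v, fderiv ℝ (fderiv ℝ f) z u v = fderiv ℝ (fderiv ℝ f) z v u :=
      (h.isSymmSndFDerivAt (by simp; norm_cast)).eq
    rw [wd_eq b', wd_eq b f, wb_eq b' f]
    simp only [wd, wb, has_two h, s (ev b'), s (Complex.I • ev b')]
    constructor <;> ring
  hol b f z h := hol b h
  oth b h z := by
    have := fd_oth b h z 1
    rw [one_smul] at this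
    simp [wd, wb, this, fd_oth]
  fd f z v := by
    have e : v = v.1.re • ev true + v.1.im • (Complex.I • ev true) +
        (v.2.re • ev false + v.2.im • (Complex.I • ev false)) := by
      ext <;> simp [ev]
    conv_lhs => rw [e]
    simp only [map_add, map_smul, wd, wb, Complex.real_smul]
    have c : ∀ x : ℂ, conj x = x.re - x.im * Complex.I := fun x => by
      apply Complex.ext <;> simp
    rw [c, c]
    conv_rhs => enter [1, 1, 1, 1]; rw [← Complex.re_add_im v.1]
    conv_rhs => enter [1, 2, 1]; rw [← Complex.re_add_im v.2]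
    linear_combination (v.1.im * fderiv ℝ f z (Complex.I • ev true) +
      v.2.im * fderiv ℝ f z (Complex.I • ev false)) * Complex.I_mul_I
  le b f z := by
    have a : ∀ v : B2, ‖v‖ = 1 → ‖fderiv ℝ f z v‖ ≤ ‖fderiv ℝ f z‖ := fun v hv => by
      simpa [hv] using (fderiv ℝ f z).le_opNorm v
    rw [wd_eq, wb_eq]
    exact ⟨half_le (by simp) (a _ (norm_ev b)) (a _ (norm_iev b)),
      half_le (by simp) (a _ (norm_ev b)) (a _ (norm_iev b))⟩
  comp b G f z hf hG := by
    have h1 : HasFDerivAt f (Complex.reCLM.comp (fderiv ℝ (cx f) z)) z :=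
      Complex.reCLM.hasFDerivAt.comp z hf.hasFDerivAt
    have h2 := (Complex.ofRealCLM.hasFDerivAt.comp z h1).fderiv
    have h3 := (Complex.ofRealCLM.hasFDerivAt.comp z
      (hG.hasDerivAt.comp_hasFDerivAt z h1)).fderiv
    have e2 : ∀ v, fderiv ℝ (cx f) z v = ((fderiv ℝ (cx f) z v).re : ℂ) := fun v =>
      congrArg (fun L : B2 →L[ℝ] ℂ => L v) h2
    have e3 : ∀ v, fderiv ℝ (cx fun w => G (f w)) z v = deriv G (f z) * fderiv ℝ (cx f) z v :=
      fun v => (congrArg (fun L : B2 →L[ℝ] ℂ => L v) h3).trans (by rw [e2 v]; simp)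
    simp only [wd, e3]
    ring
  compH b θ f z hf hθ := by
    have h3 := (Complex.ofRealCLM.hasFDerivAt.comp z
      (hθ.hasFDerivAt.comp z (hf.hasFDerivAt.restrictScalars ℝ))).fderiv
    have e3 : ∀ v, fderiv ℝ (cx fun w => θ (f w)) z v =
        (fderiv ℝ θ (f z) (fderiv ℂ f z v) : ℝ) := fun v =>
      congrArg (fun L : B2 →L[ℝ] ℂ => L v) h3
    rw [(hol b hf).2, wd_eq]
    simp only [e3]
    refine half_le (by simp) ?_ ?_
    · rw [Complex.norm_real]
      exact ContinuousLinearMap.le_opNorm _ _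
    · rw [Complex.norm_real]
      refine (ContinuousLinearMap.le_opNorm _ _).trans_eq ?_
      simp
  ibp b f hf hc := by
    obtain ⟨h1, h2⟩ := int_fd hf hc (ev b)
    obtain ⟨h3, h4⟩ := int_fd hf hc (Complex.I • ev b)
    simp only [wd]
    rw [integral_div, integral_sub h1 (h3.const_mul _), integral_const_mul, h2, h4]
    simp

end Pool.Agent.Lib.CLF
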