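import Pool.Agent.Lib.CLF.B_RES

/-! Weak limits of bounded sequences of members. -/

open MeasureTheory Filter Topology Set Function
open scoped ContDiff ENNReal ComplexConjugate

noncomputable section

namespace Pool.Agent.Lib.CLF

namespace WL

/-- A bounded sequence in a real Hilbert space has a weak cluster point. -/
theorem weak_lim {H : Type} [NormedAddCommGroup H] [InnerProductSpace ℝ H] [CompleteSpace H]
    (x : ℕ → H) (R : ℝ) (hx : ∀ j, ‖x j‖ ≤ R) : ∃ z : H, ∀ v y,
      Tendsto (fun j => inner ℝ (x j) v) atTop (𝓝 y) → inner ℝ z v = y := by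
  have hc := WeakDual.isCompact_closedBall (𝕜 := ℝ) (0 : StrongDual ℝ H) R
  let om : ℕ → WeakDual ℝ H := fun j =>
    StrongDual.toWeakDual (InnerProductSpace.toDual ℝ H (x j))
  let U : Ultrafilter ℕ := Ultrafilter.of atTop
  obtain ⟨w, -, hw⟩ := hc.ultrafilter_le_nhds (U.map om) (by
    rw [le_principal_iff, Ultrafilter.coe_map, mem_map]
    refine univ_mem' fun j => ?_
    simpa [om] using hx j)
  refine ⟨(InnerProductSpace.toDual ℝ H).symm (WeakDual.toStrongDual w), fun v y hy => ?_⟩
  have h1 : Tendsto (fun j => om j v) U (𝓝 (w v)) :=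
    ((WeakDual.eval_continuous v).tendsto w).comp hw
  have h2 : Tendsto (fun j => om j v) U (𝓝 y) := hy.mono_left (Ultrafilter.of_le atTop)
  rw [InnerProductSpace.toDual_symm_apply]
  exact tendsto_nhds_unique h1 h2

theorem int_re {α : Type} [MeasurableSpace α] {μ : Measure α} {f : α → ℝ} {h : α → ℂ}
    (hf : MemLp f 2 μ) (hh : MemLp h 2 μ) :
    (∫ p, f p * h p ∂μ).re = ∫ p, (h p).re * f p ∂μ ∧
      (∫ p, f p * h p ∂μ).im = ∫ p, (h p).im * f p ∂μ := by
  have hi : Integrable (fun p => (f p : ℂ) * h p) μ :=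
    MemLp.integrable_mul (hf.ofReal (K := ℂ)) hh
  refine ⟨?_, ?_⟩
  · have := integral_re hi
    simp only [RCLike.re_to_complex] at this
    rw [← this]
    simp [mul_comm]
  · have := integral_im hi
    simp only [RCLike.im_to_complex] at this
    rw [← this]
    simp [mul_comm]

end WL

open RES WL in
theorem bWL (hM : St_MEM) (hW : St_WM) : St_WL := by
  intro C l b f f' M hl hMt hf
  let x : ℕ → E C l b := fun j => pr (hf j).1.1 (hf j).1.2.1
  have hx : ∀ j, ‖x j‖ ≤ M.toReal + M.toReal := fun j => by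
    refine (norm_le _).trans (add_le_add ?_ ?_)
    · change ‖(hf j).1.1.toLp _‖ ≤ _
      rw [Lp.norm_toLp]
      exact ENNReal.toReal_mono hMt (hf j).2.1
    · change ‖(hf j).1.2.1.toLp _‖ ≤ _
      rw [Lp.norm_toLp]
      exact ENNReal.toReal_mono hMt (hf j).2.2
  obtain ⟨z, hz⟩ := weak_lim x _ hx
  have hzm : z ∈ HH hM hW C b hl := by
    have := proj (C := C) (b := b) hM hW hl
    rw [← (HH hM hW C b hl).orthogonal_orthogonal, Submodule.mem_orthogonal']
    intro v hv
    refine hz v 0 (tendsto_const_nhds.congr fun j => ?_)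
    exact ((Submodule.mem_orthogonal _ _).1 hv _ (pr_mem hM hW hl (hf j).1)).symm
  have h0 : MemLp (fun _ : Am => (0 : ℂ)) 2 (C.mo l b) := MemLp.zero
  have hin : ∀ (k : Am → ℝ) (hk : MemLp k 2 (C.mn l)) (w : E C l b),
      inner ℝ w (pr hk h0) = ∫ p, k p * w.fst p ∂C.mn l := by
    intro k hk w
    rw [inner_eq]
    have e2 : ∫ p, ((pr hk h0).snd p * conj (w.snd p)).re ∂C.mo l b = 0 := by
      rw [← integral_zero Am ℝ (μ := C.mo l b)]
      refine integral_congr_ae ?_
      filter_upwards [pr_snd hk h0] with p hp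
      simp [hp]
    rw [e2, add_zero]
    refine integral_congr_ae ?_
    filter_upwards [pr_fst hk h0] with p hp
    rw [hp]
  have key : ∀ (k : Am → ℝ) (y : ℝ), MemLp k 2 (C.mn l) →
      Tendsto (fun j => ∫ p, k p * f j p ∂C.mn l) atTop (𝓝 y) →
        ∫ p, k p * z.fst p ∂C.mn l = y := by
    intro k y hk hy
    rw [← hin k hk z]
    refine hz _ y (hy.congr fun j => ?_)
    rw [hin k hk]
    refine integral_congr_ae ?_
    filter_upwards [pr_fst (hf j).1.1 (hf j).1.2.1] with p hp
    rw [← hp]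
  refine ⟨z.fst, z.snd, hzm, fun h y hh hy => Complex.ext ?_ ?_⟩
  · rw [(int_re (Lp.memLp z.fst) hh).1]
    refine key _ _ (by simpa using hh.re) ?_
    refine ((Complex.continuous_re.tendsto y).comp hy).congr fun j => ?_
    exact (int_re (hf j).1.1 hh).1
  · rw [(int_re (Lp.memLp z.fst) hh).2]
    refine key _ _ (by simpa using hh.im) ?_
    refine ((Complex.continuous_im.tendsto y).comp hy).congr fun j => ?_
    exact (int_re (hf j).1.1 hh).2

end Pool.Agent.Lib.CLF
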