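import Pool.Agent.Lib.CLF.B_ARI
import Pool.Agent.Lib.CLF.B_GRF
import Pool.Agent.Lib.CLF.B_TRD
import Pool.Agent.Lib.CLF.B_GRID
import Pool.Agent.Lib.CLF.B_SW
import Pool.Agent.Lib.CLF.B_NG
import Pool.Agent.Lib.CLF.B_PULL
import Pool.Agent.Lib.CLF.B_RT
import Pool.Agent.Lib.CLF.B_HV
import Pool.Agent.Lib.CLF.B_INC
import Pool.Agent.Lib.CLF.B_LOW
import Pool.Agent.Lib.CLF.B_ASY
import Pool.Agent.Lib.CLF.B_B1
import Pool.Agent.Lib.CLF.B_STA0
import Pool.Agent.Lib.CLF.B_STA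
import Pool.Agent.Lib.CLF.B_LU
import Pool.Agent.Lib.CLF.B_B2
import Pool.Agent.Lib.CLF.B_POW
import Pool.Agent.Lib.CLF.B_WDEC
import Pool.Agent.Lib.CLF.B_HYP
import Pool.Agent.Lib.CLF.B_SEP
import Pool.Agent.Lib.CLF.B_TC
import Pool.Agent.Lib.CLF.B_AR1
import Pool.Agent.Lib.CLF.B_BR
import Pool.Agent.Lib.CLF.B_WIR
import Pool.Agent.Lib.CLF.B_INT
import Pool.Agent.Lib.CLF.B_WM
import Pool.Agent.Lib.CLF.B_AR
import Pool.Agent.Lib.CLF.B_CD
import Pool.Agent.Lib.CLF.B_CUT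
import Pool.Agent.Lib.CLF.B_CAP1
import Pool.Agent.Lib.CLF.B_CAL
import Pool.Agent.Lib.CLF.B_DEN
import Pool.Agent.Lib.CLF.B_MEM
import Pool.Agent.Lib.CLF.B_RP
import Pool.Agent.Lib.CLF.B_CH
import Pool.Agent.Lib.CLF.B_POS
import Pool.Agent.Lib.CLF.B_MB
import Pool.Agent.Lib.CLF.B_ST
import Pool.Agent.Lib.CLF.B_CAP
import Pool.Agent.Lib.CLF.B_EN0
import Pool.Agent.Lib.CLF.B_EN1
import Pool.Agent.Lib.CLF.B_EN
import Pool.Agent.Lib.CLF.B_PREP
import Pool.Agent.Lib.CLF.B_PH0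
import Pool.Agent.Lib.CLF.B_PERT
import Pool.Agent.Lib.CLF.B_PHI
import Pool.Agent.Lib.CLF.B_LIFT
import Pool.Agent.Lib.CLF.B_JAC
import Pool.Agent.Lib.CLF.B_TR1
import Pool.Agent.Lib.CLF.B_LB
import Pool.Agent.Lib.CLF.B_TR2
import Pool.Agent.Lib.CLF.B_TRL
import Pool.Agent.Lib.CLF.B_GD
import Pool.Agent.Lib.CLF.B_DQ0
import Pool.Agent.Lib.CLF.B_DQ1
import Pool.Agent.Lib.CLF.B_ID0
import Pool.Agent.Lib.CLF.B_ID
import Pool.Agent.Lib.CLF.B_WL
import Pool.Agent.Lib.CLF.B_REG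
import Pool.Agent.Lib.CLF.B_MW
import Pool.Agent.Lib.CLF.B_RC
import Pool.Agent.Lib.CLF.B_W0
import Pool.Agent.Lib.CLF.B_W1
import Pool.Agent.Lib.CLF.B_MOL
import Pool.Agent.Lib.CLF.B_FR0
import Pool.Agent.Lib.CLF.B_SH
import Pool.Agent.Lib.CLF.B_FR
import Pool.Agent.Lib.CLF.B_PR
import Pool.Agent.Lib.CLF.B_K1
import Pool.Agent.Lib.CLF.B_K2
import Pool.Agent.Lib.CLF.B_KL
import Pool.Agent.Lib.CLF.B_UQ
import Pool.Agent.Lib.CLF.B_GLU
import Pool.Agent.Lib.CLF.B_GLO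
import Pool.Agent.Lib.CLF.B_MWK
import Pool.Agent.Lib.CLF.B_KEY
import Pool.Agent.Lib.CLF.B_RES
import Pool.Agent.Lib.CLF.B_PAIR
import Pool.Agent.Lib.CLF.B_CONV
import Pool.Agent.Lib.CLF.B_BIL
import Pool.Agent.Lib.CLF.B_LOWB
import Pool.Agent.Lib.CLF.B_AN0
import Pool.Agent.Lib.CLF.B_PRIM
import Pool.Agent.Lib.CLF.B_RT0
import Pool.Agent.Lib.CLF.B_ENUM
import Pool.Agent.Lib.CLF.B_CV
import Pool.Agent.Lib.CLF.B_MOT
import Pool.Agent.Lib.CLF.B_ALG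
import Pool.Agent.Lib.CLF.B_CNT
import Pool.Agent.Lib.CLF.B_FIN
import Pool.Agent.Lib.CLF.B_AN
import Pool.Agent.Lib.CLF.B_PSUM
import Pool.Agent.Lib.CLF.B_PDEG
import Pool.Agent.Lib.CLF.B_IND
import Pool.Agent.Lib.CLF.B_HEX
import Pool.Agent.Lib.CLF.B_PSH
import Pool.Agent.Lib.CLF.B_DEC
import Pool.Agent.Lib.CLF.B_CUTP
import Pool.Agent.Lib.CLF.B_CONE
import Pool.Agent.Lib.CLF.B_SURF
import Pool.Agent.Lib.CLF.B_END0
import Pool.Agent.Lib.CLF.B_END1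
import Pool.Agent.Lib.CLF.B_END
import Pool.Agent.Lib.CLF.B_SUP
import Pool.Agent.Lib.CLF.B_OUTP
import Pool.Agent.Lib.CLF.B_OC
import Pool.Agent.Lib.CLF.B_SPE
import Pool.Agent.Lib.CLF.B_BOT
import Pool.Agent.Lib.CLF.B_INN
import Pool.Agent.Lib.CLF.B_OUT
import Pool.Agent.Lib.CLF.B_MAIN

namespace Pool.Agent.Lib.CLF

theorem stARI : St_ARI :=
  bARI

theorem stGRF : St_GRF :=
  bGRF

theorem stTRD : St_TRD :=
  bTRD

theorem stGRID : St_GRID :=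
  bGRID stTRD

theorem stSW : St_SW :=
  bSW

theorem stNG : St_NG :=
  bNG stGRID stSW

theorem stPULL : St_PULL :=
  bPULL

theorem stRT : St_RT :=
  bRT stPULL

theorem stHV : St_HV :=
  bHV

theorem stINC : St_INC :=
  bINC stHV

theorem stLOW : St_LOW :=
  bLOW

theorem stASY : St_ASY :=
  bASY

theorem stB1 : St_B1 :=
  bB1 stHV stINC stLOW stASY

theorem stSTA0 : St_STA0 :=
  bSTA0

theorem stSTA : St_STA :=
  bSTA stSTA0

theorem stLU : St_LU :=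
  bLU stSTA

theorem stB2 : St_B2 :=
  bB2 stHV stINC stLU stASY

theorem stPOW : St_POW :=
  bPOW

theorem stWDEC : St_WDEC :=
  bWDEC

theorem stHYP : St_HYP :=
  bHYP

theorem stSEP : St_SEP :=
  bSEP stWDEC stHYP

theorem stTC : St_TC :=
  bTC

theorem stAR1 : St_AR1 :=
  bAR1

theorem stBR : St_BR :=
  bBR

theorem stWIR : St_WIR :=
  bWIR

theorem stINT : St_INT :=
  bINT stBR

theorem stWM : St_WM :=
  bWM stINT

theorem stAR : St_AR :=
  bAR stAR1 stBR stWIR stWM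

theorem stCD : St_CD :=
  bCD

theorem stCUT : St_CUT :=
  bCUT stTC stAR stCD stWIR

theorem stCAP1 : St_CAP1 :=
  bCAP1 stWIR

theorem stCAL : St_CAL :=
  bCAL stWIR stBR

theorem stDEN : St_DEN :=
  bDEN stWM stCAL

theorem stMEM : St_MEM :=
  bMEM stCAL stWM stINT

theorem stRP : St_RP :=
  bRP stDEN stMEM

theorem stCH : St_CH :=
  bCH stCAL stWM stINT

theorem stPOS : St_POS :=
  bPOS stCH stRP stWM

theorem stMB : St_MB :=
  bMB stCAL stWM stINT stRP stPOS stWIR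

theorem stST : St_ST :=
  bST stWIR stBR stINT stCAL

theorem stCAP : St_CAP :=
  bCAP stCAP1 stMB stRP stPOS stST stCAL stWM stINT stWIR

theorem stEN0 : St_EN0 :=
  bEN0

theorem stEN1 : St_EN1 :=
  bEN1 stEN0

theorem stEN : St_EN :=
  bEN stEN1 stAR stWM stWIR stCAL stBR stINT

theorem stPREP : St_PREP :=
  bPREP stCAL stWIR stWM stINT

theorem stPH0 : St_PH0 :=
  bPH0

theorem stPERT : St_PERT :=
  bPERT

theorem stPHI : St_PHI :=
  bPHI stPH0 stPERT stWIR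

theorem stLIFT : St_LIFT :=
  bLIFT stBR

theorem stJAC : St_JAC :=
  bJAC

theorem stTR1 : St_TR1 :=
  bTR1 stJAC stINT stBR

theorem stLB : St_LB :=
  bLB stBR

theorem stTR2 : St_TR2 :=
  bTR2 stLB stBR

theorem stTRL : St_TRL :=
  bTRL

theorem stGD : St_GD :=
  bGD stLB stTR1 stTRL stWM stWIR stCAL stINT stBR

theorem stDQ0 : St_DQ0 :=
  bDQ0 stTRL stCAL stWM stINT

theorem stDQ1 : St_DQ1 :=
  bDQ1 stDQ0 stTRL stMEM stCAL stWM stINT

theorem stID0 : St_ID0 :=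
  bID0 stLB stTR1 stTRL stINT stWM stCAL stWIR

theorem stID : St_ID :=
  bID stID0 stTR1 stTRL stLB stWIR stST stCAL stINT stWM stBR

theorem stWL : St_WL :=
  bWL stMEM stWM

theorem stREG : St_REG :=
  bREG stPHI stLIFT stTR1 stTR2 stGD stDQ1 stID stWL stMEM stWM stINT stCAL

theorem stMW : St_MW :=
  bMW stCAL stINT stWM stST stDEN stWIR

theorem stRC : St_RC :=
  bRC stMW stCAL stWM stINT stWIR

theorem stW0 : St_W0 :=
  bW0 stMW stRC stMB stST stCAL stINT stWM stWIR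

theorem stW1 : St_W1 :=
  bW1 stW0 stRC stDEN stCAL stWM stINT stWIR

theorem stMOL : St_MOL :=
  bMOL

theorem stFR0 : St_FR0 :=
  bFR0 stMOL

theorem stSH : St_SH :=
  bSH stBR

theorem stFR : St_FR :=
  bFR stFR0 stSH stBR stINT stCAL stWIR

theorem stPR : St_PR :=
  bPR stFR stINT stCAL

theorem stK1 : St_K1 :=
  bK1 stW0 stPR stCAL stWIR stINT stWM

theorem stK2 : St_K2 :=
  bK2 stW0 stW1 stMEM stWM

theorem stKL : St_KL :=
  bKL stW0 stW1 stK1 stK2 stWM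

theorem stUQ : St_UQ :=
  bUQ stSH stBR stINT

theorem stGLU : St_GLU :=
  bGLU stBR stUQ stCAL stINT stWM

theorem stGLO : St_GLO :=
  bGLO stTC stWIR stINT stWM

theorem stMWK : St_MWK :=
  bMWK stFR stMEM stWM stINT

theorem stKEY : St_KEY :=
  bKEY stREG stKL stGLU stGLO stMWK stMB stWM stW0

theorem stRES : St_RES :=
  bRES stMEM stWM

theorem stPAIR : St_PAIR :=
  bPAIR stKEY stRES stRP stMB

theorem stCONV : St_CONV :=
  bCONV stRP stPOS stINT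

theorem stBIL : St_BIL :=
  bBIL

theorem stLOWB : St_LOWB :=
  bLOWB stCONV stBIL stWM

theorem stAN0 : St_AN0 :=
  bAN0 stCUT stCD stCAP stEN stPREP stPAIR stLOWB stRES stWM stINT stCAL stBR

theorem stPRIM : St_PRIM :=
  bPRIM

theorem stRT0 : St_RT0 :=
  bRT0

theorem stENUM : St_ENUM :=
  bENUM

theorem stCV : St_CV :=
  bCV stRT0 stENUM stBR

theorem stMOT : St_MOT :=
  bMOT stRT0

theorem stALG : St_ALG :=
  bALG stPRIM stCV stMOT

theorem stCNT : St_CNT :=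
  bCNT

theorem stFIN : St_FIN :=
  bFIN

theorem stAN : St_AN :=
  bAN stSEP stAN0 stALG stCNT stFIN

theorem stPSUM : St_PSUM :=
  bPSUM

theorem stPDEG : St_PDEG :=
  bPDEG

theorem stIND : St_IND :=
  bIND

theorem stHEX : St_HEX :=
  bHEX stPSUM stPDEG stIND

theorem stPSH : St_PSH :=
  bPSH

theorem stDEC : St_DEC :=
  bDEC stHEX stPDEG stPSH stIND

theorem stCUTP : St_CUTP :=
  bCUTP stDEC stPSH

theorem stCONE : St_CONE :=
  bCONE stCUTP stHEX stASY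

theorem stSURF : St_SURF :=
  bSURF stRT stB1 stB2 stPOW stAN stPULL stHEX stDEC stCONE

theorem stEND0 : St_END0 :=
  bEND0

theorem stEND1 : St_END1 :=
  bEND1 stEND0 stRT stHV stASY stPULL stHEX

theorem stEND : St_END :=
  bEND stEND1 stCUTP stHEX

theorem stSUP : St_SUP :=
  bSUP stCUTP stHEX

theorem stOUTP : St_OUTP :=
  bOUTP stSURF stEND stSW stSUP stCONE

theorem stOC : St_OC :=
  bOC

theorem stSPE : St_SPE :=
  bSPE stARI stGRF stNG stOUTP stPULL stOC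

theorem stBOT : St_BOT :=
  bBOT

theorem stINN : St_INN :=
  bINN stBOT stCUTP stCONE

theorem stOUT : St_OUT :=
  bOUT

theorem stMAIN : St_MAIN :=
  bMAIN stSPE stINN stOUT stOC stDEC

end Pool.Agent.Lib.CLF
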